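import Pool.Agent.H757_X15.StmC

/-!
# Project X15-C: C6b (t_CHI, t_NGI)
-/

set_option autoImplicit false

namespace Pool.Agent.H757_X15.CC

open Finset
open Pool.Agent.H757_X15.DD (Fm Crit)

theorem chi_dsc_act (Q : Fo) (a b c d : ℤ) : dsc (act Q a b c d) = (a * d - b * c) ^ 2 * dsc Q := by
  unfold dsc act ev
  ring

theorem chi_odd {B AC D : ℤ} (h : B ^ 2 - 4 * AC = D) (hD : D % 2 = 1) : B % 2 = 1 := by
  rcases Int.even_or_odd' B with ⟨k, rfl | rfl⟩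
  · exfalso
    have : D = 2 * (2 * k ^ 2 - 2 * AC) := by rw [← h]; ring
    omega
  · omega

theorem chi_par {t u D : ℤ} (hD : D % 2 = 1) (h : t ^ 2 - D * u ^ 2 = 4) : (t - u) % 2 = 0 := by
  rcases Int.even_or_odd' t with ⟨k, rfl | rfl⟩ <;> rcases Int.even_or_odd' u with ⟨l, rfl | rfl⟩
  · omega
  · exfalso
    obtain ⟨m, rfl⟩ : ∃ m, D = 2 * m + 1 := ⟨D / 2, by omega⟩
    have : 2 * (2 * k ^ 2 - m * (2 * l + 1) ^ 2 - (2 * l ^ 2 + 2 * l)) - 1 = 4 := by linarith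
    omega
  · exfalso
    have : 2 * (2 * k ^ 2 + 2 * k - D * 2 * l ^ 2) + 1 = 4 := by linarith
    omega
  · omega

/-- the two halves -/
theorem chi_halves {Q : Fo} {D : ℕ} (hD : D % 2 = 1) (hQ : dsc Q = D) {t u : ℤ}
    (h : t ^ 2 - D * u ^ 2 = 4) : t + Q.2.1 * u = 2 * ((t + Q.2.1 * u) / 2) ∧
      t - Q.2.1 * u = 2 * ((t - Q.2.1 * u) / 2) ∧
      ((t - Q.2.1 * u) / 2) * ((t + Q.2.1 * u) / 2) - (-(Q.2.2 * u)) * (Q.1 * u) = 1 := by
  have hD' : (D : ℤ) % 2 = 1 := by omega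
  have hB : Q.2.1 % 2 = 1 := chi_odd (AC := Q.1 * Q.2.2) hQ hD'
  have hp := chi_par hD' h
  obtain ⟨m, hm⟩ : ∃ m, Q.2.1 = 2 * m + 1 := ⟨Q.2.1 / 2, by omega⟩
  have e1 : t + Q.2.1 * u = 2 * ((t - u) / 2 + u + m * u) := by
    rw [hm]
    have : t - u = 2 * ((t - u) / 2) := by omega
    linarith
  have e2 : t - Q.2.1 * u = 2 * ((t - u) / 2 - m * u) := by
    rw [hm]
    have : t - u = 2 * ((t - u) / 2) := by omega
    linarith
  have e3 : (t + Q.2.1 * u) / 2 = (t - u) / 2 + u + m * u := by rw [e1]; simp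
  have e4 : (t - Q.2.1 * u) / 2 = (t - u) / 2 - m * u := by rw [e2]; simp
  refine ⟨by rw [e3]; exact e1, by rw [e4]; exact e2, ?_⟩
  rw [e3, e4]
  have h4 : 4 * (((t - u) / 2 - m * u) * ((t - u) / 2 + u + m * u) - (-(Q.2.2 * u)) * (Q.1 * u)) = 4 := by
    have : 4 * (((t - u) / 2 - m * u) * ((t - u) / 2 + u + m * u) - (-(Q.2.2 * u)) * (Q.1 * u)) =
      (2 * ((t - u) / 2 - m * u)) * (2 * ((t - u) / 2 + u + m * u)) + 4 * (Q.1 * Q.2.2) * u ^ 2 := by ring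
    rw [this, ← e1, ← e2]
    unfold dsc at hQ
    have : (t - Q.2.1 * u) * (t + Q.2.1 * u) + 4 * (Q.1 * Q.2.2) * u ^ 2 =
      t ^ 2 - (Q.2.1 ^ 2 - 4 * (Q.1 * Q.2.2)) * u ^ 2 := by ring
    rw [this, hQ, h]
  linarith

theorem t_NGI : S_NGI := by
  intro _ hNH D _ hFm _ t u hF Q Q' hQ h15 hE
  obtain ⟨a, b, c, d, hdet, ⟨c', rfl⟩, rfl⟩ := hE
  have hD : D % 2 = 1 := by rcases hFm with h | h <;> omega
  have hQ' : dsc (act Q a b (15 * c') d) = D := by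
    rw [chi_dsc_act, hdet, hQ]; ring
  obtain ⟨A1, hA1⟩ := h15
  obtain ⟨k1, k2, k3⟩ := chi_halves hD hQ hF.eq
  obtain ⟨l1, l2, l3⟩ := chi_halves hD hQ' hF.eq
  unfold NG dQ
  set δ := (t + Q.2.1 * u) / 2 with hδ
  set ε := (t - Q.2.1 * u) / 2 with hε
  set Q' := act Q a b (15 * c') d with hQd
  set δ' := (t + Q'.2.1 * u) / 2 with hδ'
  set ε' := (t - Q'.2.1 * u) / 2 with hε'
  have hA' : Q'.1 = 15 * (A1 * a ^ 2 + Q.2.1 * (a * c') + 15 * (Q.2.2 * c' ^ 2)) := by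
    rw [hQd]
    unfold act ev
    simp only
    rw [hA1]
    ring
  obtain ⟨A1', hA1'⟩ : ∃ A1', Q'.1 = 15 * A1' := ⟨_, hA'⟩
  have hcop1 : IsCoprime d 15 := ⟨a, -(b * c'), by linarith⟩
  have hcop2 : IsCoprime b d := ⟨-(15 * c'), a, by linarith⟩
  have h1 := (hNH ε (-(Q.2.2 * u)) (A1 * u) δ (by rw [← k3, hA1]; ring)).1 b d hcop1 hcop2
  have hcop3 : IsCoprime δ' 15 := ⟨ε', A1' * u * (Q'.2.2 * u), by rw [← l3, hA1']; ring⟩
  have hcop4 : IsCoprime (-(Q'.2.2 * u)) δ' := ⟨-(Q'.1 * u), ε', by rw [← l3]; ring⟩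
  have h2 := (hNH a b c' d hdet).1 (-(Q'.2.2 * u)) δ' hcop3 hcop4
  have e1 : ε * b + -(Q.2.2 * u) * d = a * -(Q'.2.2 * u) + b * δ' := by
    have : 2 * (ε * b + -(Q.2.2 * u) * d) = 2 * (a * -(Q'.2.2 * u) + b * δ') := by
      have x1 : 2 * (ε * b + -(Q.2.2 * u) * d) = (2 * ε) * b + 2 * (-(Q.2.2 * u) * d) := by ring
      have x2 : 2 * (a * -(Q'.2.2 * u) + b * δ') = 2 * (a * -(Q'.2.2 * u)) + b * (2 * δ') := by ring
      rw [x1, x2, ← k2, ← l1, hQd]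
      unfold act ev
      simp only
      linear_combination (b * Q.2.1 * u + 2 * d * Q.2.2 * u) * hdet
    linarith
  have e2 : 15 * (A1 * u) * b + δ * d = 15 * c' * -(Q'.2.2 * u) + d * δ' := by
    have : 2 * (15 * (A1 * u) * b + δ * d) = 2 * (15 * c' * -(Q'.2.2 * u) + d * δ') := by
      have x1 : 2 * (15 * (A1 * u) * b + δ * d) = 2 * (Q.1 * u * b) + (2 * δ) * d := by rw [hA1]; ring
      have x2 : 2 * (15 * c' * -(Q'.2.2 * u) + d * δ') = 2 * (15 * c' * -(Q'.2.2 * u)) + d * (2 * δ') := by ring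
      rw [x1, x2, ← k1, ← l1, hQd]
      unfold act ev
      simp only
      linear_combination (-2 * b * Q.1 * u - d * Q.2.1 * u) * hdet
    linarith
  rw [e1, e2, h2] at h1
  linarith

/-! ### the genus characters -/

theorem chi_sq_dvd {D : ℕ} (hsq : Squarefree D) {p : ℕ} (hp : p.Prime) {Q : Fo} (hQ : dsc Q = D)
    (hA : (p : ℤ) ∣ Q.1) (hpD : p ∣ D) : (p : ℤ) ∣ Q.2.1 ∧ ¬ (p : ℤ) ∣ Q.2.2 := by
  have hp' : Prime (p : ℤ) := Nat.prime_iff_prime_int.1 hp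
  have hpD' : (p : ℤ) ∣ (D : ℤ) := by exact_mod_cast hpD
  unfold dsc at hQ
  have hB : (p : ℤ) ∣ Q.2.1 := by
    have : (p : ℤ) ∣ Q.2.1 ^ 2 := by
      have e : Q.2.1 ^ 2 = D + 4 * (Q.1 * Q.2.2) := by linarith
      rw [e]
      exact dvd_add hpD' ((hA.mul_right _).mul_left _)
    exact hp'.dvd_of_dvd_pow this
  refine ⟨hB, fun hC => ?_⟩
  have h2 : (p : ℤ) * p ∣ (D : ℤ) := by
    rw [← hQ]
    obtain ⟨x, hx⟩ := hA
    obtain ⟨y, hy⟩ := hB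
    obtain ⟨z, hz⟩ := hC
    rw [hx, hy, hz]
    exact ⟨y ^ 2 - 4 * (x * z), by ring⟩
  have h3 : p * p ∣ D := by exact_mod_cast h2
  have := hsq p h3
  exact hp.one_lt.ne' (Nat.isUnit_iff.1 this)

theorem chi_pm {p : ℕ} (hp : p.Prime) {a : ℤ} (ha : ¬ (p : ℤ) ∣ a) :
    jacobiSym a p = 1 ∨ jacobiSym a p = -1 := by
  apply jacobiSym.eq_one_or_neg_one
  have h : Nat.Coprime a.natAbs p := by
    rw [Nat.coprime_comm, Nat.Prime.coprime_iff_not_dvd hp]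
    intro h
    exact ha (Int.natCast_dvd.2 h)
  rw [Int.gcd_def]
  simpa using h

theorem chi_sq {p : ℕ} (hp : p.Prime) {a : ℤ} (ha : ¬ (p : ℤ) ∣ a) : jacobiSym (a ^ 2) p = 1 := by
  rw [jacobiSym.pow_left]
  rcases chi_pm hp ha with h | h <;> rw [h] <;> norm_num

theorem chi_val {D : ℕ} (hsq : Squarefree D) (hD : D % 4 = 1) {p : ℕ} (hp : p.Prime) (hpD : p ∣ D)
    {Q : Fo} (hQ : dsc Q = D) (x y : ℤ) (h : ¬ (p : ℤ) ∣ ev Q x y) :
    jacobiSym (ev Q x y) p = chp p Q := by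
  have hp' : Prime (p : ℤ) := Nat.prime_iff_prime_int.1 hp
  have hpD' : (p : ℤ) ∣ (D : ℤ) := by exact_mod_cast hpD
  have hp2 : p ≠ 2 := by
    rintro rfl
    omega
  have hp2' : ¬ (p : ℤ) ∣ 2 := by
    intro h2
    have : p ∣ 2 := by exact_mod_cast h2
    exact hp2 ((Nat.prime_dvd_prime_iff_eq hp Nat.prime_two).1 this)
  unfold chp
  by_cases hA : (p : ℤ) ∣ Q.1
  · rw [if_pos hA]
    obtain ⟨hB, hC⟩ := chi_sq_dvd hsq hp hQ hA hpD
    have hm : ev Q x y ≡ Q.2.2 * y ^ 2 [ZMOD p] := by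
      rw [Int.modEq_iff_dvd]
      have e : Q.2.2 * y ^ 2 - ev Q x y = -(Q.1 * x ^ 2 + Q.2.1 * (x * y)) := by
        unfold ev; ring
      rw [e]
      exact (dvd_add (hA.mul_right _) (hB.mul_right _)).neg_right
    have hy : ¬ (p : ℤ) ∣ y := by
      intro hy
      apply h
      have : (p : ℤ) ∣ Q.2.2 * y ^ 2 := (hy.pow two_ne_zero).mul_left _
      exact (Int.ModEq.dvd_iff hm).2 this
    rw [jacobiSym.mod_left' hm, jacobiSym.mul_left, chi_sq hp hy, mul_one]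
  · rw [if_neg hA]
    have hm : 4 * (Q.1 * ev Q x y) ≡ (2 * Q.1 * x + Q.2.1 * y) ^ 2 [ZMOD p] := by
      rw [Int.modEq_iff_dvd]
      have e : (2 * Q.1 * x + Q.2.1 * y) ^ 2 - 4 * (Q.1 * ev Q x y) = D * y ^ 2 := by
        rw [← hQ]; unfold ev dsc; ring
      rw [e]
      exact hpD'.mul_right _
    have h4 : ¬ (p : ℤ) ∣ 4 * (Q.1 * ev Q x y) := by
      intro h5
      rcases hp'.dvd_or_dvd h5 with h6 | h6
      · have : (p : ℤ) ∣ 2 * 2 := by norm_num; exact h6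
        rcases hp'.dvd_or_dvd this with h7 | h7 <;> exact hp2' h7
      · rcases hp'.dvd_or_dvd h6 with h7 | h7
        · exact hA h7
        · exact h h7
    have h5 : ¬ (p : ℤ) ∣ (2 * Q.1 * x + Q.2.1 * y) := by
      intro h6
      exact h4 ((Int.ModEq.dvd_iff hm).2 (h6.pow two_ne_zero))
    have h6 : jacobiSym (4 * (Q.1 * ev Q x y)) p = 1 := by
      rw [jacobiSym.mod_left' hm, chi_sq hp h5]
    rw [show (4 : ℤ) = 2 ^ 2 by norm_num, jacobiSym.mul_left, chi_sq hp hp2', one_mul,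
      jacobiSym.mul_left] at h6
    rcases chi_pm hp hA with h7 | h7 <;> rw [h7] at h6 ⊢ <;> linarith

theorem t_CHI : S_CHI := by
  intro D hsq hD Q Q' hQ hE p hpm
  obtain ⟨hp, hpD, -⟩ := Nat.mem_primeFactors.1 hpm
  obtain ⟨a, b, c, d, hdet, -, rfl⟩ := hE
  have hQ' : dsc (act Q a b c d) = D := by
    rw [chi_dsc_act, hdet, hQ]; ring
  constructor
  · unfold chp
    by_cases hA : (p : ℤ) ∣ (act Q a b c d).1
    · rw [if_pos hA]
      obtain ⟨-, hC⟩ := chi_sq_dvd hsq hp hQ' hA hpD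
      exact chi_val hsq hD hp hpD hQ b d hC
    · rw [if_neg hA]
      exact chi_val hsq hD hp hpD hQ a c hA
  · unfold chp
    by_cases hA : (p : ℤ) ∣ Q.1
    · rw [if_pos hA]
      obtain ⟨-, hC⟩ := chi_sq_dvd hsq hp hQ hA hpD
      exact chi_pm hp hC
    · rw [if_neg hA]
      exact chi_pm hp hA

end Pool.Agent.H757_X15.CC
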