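import Pool.Agent.H757_X15.StmC

/-!
# C14: finiteness of the class number and change of the level (helper907)
-/

set_option autoImplicit false
set_option linter.unusedVariables false

namespace Pool.Agent.H757_X15.CC

open Finset
open Pool.Agent.H757_X15.DD (Fm)

open scoped Classical

noncomputable section

/-! ### the action -/

theorem lv_act_act (Q : Fo) (a b c d a' b' c' d' : ℤ) :
    act (act Q a b c d) a' b' c' d' =
      act Q (a * a' + b * c') (a * b' + b * d') (c * a' + d * c') (c * b' + d * d') := by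
  simp only [act, ev, Prod.mk.injEq]
  refine ⟨by ring, by ring, by ring⟩

theorem lv_act_one (Q : Fo) : act Q 1 0 0 1 = Q := by
  obtain ⟨A, B, C⟩ := Q
  simp [act, ev]

theorem lv_dsc_act (Q : Fo) {a b c d : ℤ} (h : a * d - b * c = 1) : dsc (act Q a b c d) = dsc Q := by
  have e : dsc (act Q a b c d) = dsc Q * (a * d - b * c) ^ 2 := by
    simp only [act, ev, dsc]; ring
  rw [e, h]; ring

theorem lv_refl (N : ℤ) (Q : Fo) : Eqv N Q Q :=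
  ⟨1, 0, 0, 1, by norm_num, dvd_zero N, (lv_act_one Q).symm⟩

theorem lv_symm {N : ℤ} {Q Q' : Fo} (h : Eqv N Q Q') : Eqv N Q' Q := by
  obtain ⟨a, b, c, d, h1, h2, h3⟩ := h
  refine ⟨d, -b, -c, a, by linarith, (dvd_neg).2 h2, ?_⟩
  rw [h3, lv_act_act]
  have e1 : a * d + b * -c = 1 := by linarith
  have e2 : a * -b + b * a = 0 := by ring
  have e3 : c * d + d * -c = 0 := by ring
  have e4 : c * -b + d * a = 1 := by linarith
  rw [e1, e2, e3, e4, lv_act_one]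

theorem lv_trans {N : ℤ} {Q Q' Q'' : Fo} (h : Eqv N Q Q') (h' : Eqv N Q' Q'') : Eqv N Q Q'' := by
  obtain ⟨a, b, c, d, h1, h2, h3⟩ := h
  obtain ⟨a', b', c', d', h1', h2', h3'⟩ := h'
  refine ⟨a * a' + b * c', a * b' + b * d', c * a' + d * c', c * b' + d * d', ?_, ?_, ?_⟩
  · linear_combination (a' * d' - b' * c') * h1 + h1'
  · exact dvd_add (h2.mul_right _) (h2'.mul_left _)
  · rw [h3', h3, lv_act_act]

theorem lv_mono {N M : ℤ} (h : M ∣ N) {Q Q' : Fo} (h' : Eqv N Q Q') : Eqv M Q Q' := by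
  obtain ⟨a, b, c, d, h1, h2, h3⟩ := h'
  exact ⟨a, b, c, d, h1, h.trans h2, h3⟩

theorem lv_dsc {N : ℤ} {Q Q' : Fo} (h : Eqv N Q Q') : dsc Q' = dsc Q := by
  obtain ⟨a, b, c, d, h1, h2, h3⟩ := h
  rw [h3, lv_dsc_act Q h1]

/-! ### residues -/

theorem lv_fm3 {D : ℕ} (h : Fm D) : ((D : ℤ) : ZMod 3) = 1 := by
  rw [show ((D : ℤ) : ZMod 3) = ((1 : ℤ) : ZMod 3) from
    (ZMod.intCast_eq_intCast_iff (D : ℤ) 1 3).2 (by
      rcases h with h | h <;> (unfold Int.ModEq; push_cast; omega))]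
  norm_num

theorem lv_fm5 {D : ℕ} (h : Fm D) {r : ZMod 5} (hr : r ^ 2 = (D : ZMod 5)) : r ≠ 0 := by
  rintro rfl
  have h0 : (D : ZMod 5) = 0 := by rw [← hr]; norm_num
  rw [ZMod.natCast_eq_zero_iff] at h0
  rcases h with h | h <;> omega

theorem lv_d3 {x : ℤ} : (3 : ℤ) ∣ x ↔ (x : ZMod 3) = 0 :=
  (ZMod.intCast_zmod_eq_zero_iff_dvd x 3).symm

theorem lv_d5 {x : ℤ} : (5 : ℤ) ∣ x ↔ (x : ZMod 5) = 0 :=
  (ZMod.intCast_zmod_eq_zero_iff_dvd x 5).symm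

theorem lv_m3 {x : ℤ} : x % 3 = 1 ↔ (x : ZMod 3) = 1 := by
  rw [show ((x : ZMod 3) = 1) ↔ (x : ZMod 3) = ((1 : ℤ) : ZMod 3) by norm_num,
    ZMod.intCast_eq_intCast_iff x 1 3]
  unfold Int.ModEq
  norm_num

theorem lv_d15 {x : ℤ} : (15 : ℤ) ∣ x ↔ (3 : ℤ) ∣ x ∧ (5 : ℤ) ∣ x := by omega

/-- the levels are rigid: an equivalence that preserves the root is in `Γ₀(p)` -/
theorem lv_rig {p : ℕ} [Fact p.Prime] (hp : (2 : ZMod p) ≠ 0) {A B C a b c d : ZMod p}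
    (hB : B ≠ 0) (hA : A = 0)
    (h1 : a * d - b * c = 1) (h2 : A * a ^ 2 + B * (a * c) + C * c ^ 2 = 0)
    (h3 : 2 * (A * (a * b)) + B * (a * d + b * c) + 2 * (C * (c * d)) = B) : c = 0 := by
  by_contra hc
  subst hA
  have e1 : B * a + C * c = 0 := by
    have : c * (B * a + C * c) = 0 := by linear_combination h2
    exact (mul_eq_zero.1 this).resolve_left hc
  have e2 : B * b + C * d = 0 := by
    have : (2 * c) * (B * b + C * d) = 0 := by linear_combination h3 - B * h1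
    exact (mul_eq_zero.1 this).resolve_left (mul_ne_zero hp hc)
  apply hB
  linear_combination (-B) * h1 + d * e1 - c * e2

/-- the same for the last coefficient -/
theorem lv_rig' {p : ℕ} [Fact p.Prime] (hp : (2 : ZMod p) ≠ 0) {A B C a b c d : ZMod p}
    (hB : B ≠ 0) (hC : C = 0)
    (h1 : a * d - b * c = 1) (h2 : A * b ^ 2 + B * (b * d) + C * d ^ 2 = 0)
    (h3 : 2 * (A * (a * b)) + B * (a * d + b * c) + 2 * (C * (c * d)) = B) : b = 0 := by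
  by_contra hc
  subst hC
  have e1 : A * b + B * d = 0 := by
    have : b * (A * b + B * d) = 0 := by linear_combination h2
    exact (mul_eq_zero.1 this).resolve_left hc
  have e2 : A * a + B * c = 0 := by
    have : (2 * b) * (A * a + B * c) = 0 := by linear_combination h3 - B * h1
    exact (mul_eq_zero.1 this).resolve_left (mul_ne_zero hp hc)
  apply hB
  linear_combination (-B) * h1 + a * e1 - b * e2

instance lv_p3 : Fact (Nat.Prime 3) := ⟨by norm_num⟩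
instance lv_p5 : Fact (Nat.Prime 5) := ⟨by norm_num⟩

/-- `mod 3` -/
theorem lv_c3 {Q Q' : Fo} {a b c d : ℤ} (h : a * d - b * c = 1) (e : Q' = act Q a b c d)
    (h1 : (3 : ℤ) ∣ Q.1) (h2 : (3 : ℤ) ∣ Q'.1) (h3 : Q.2.1 % 3 = 1) (h4 : Q'.2.1 % 3 = 1) :
    (3 : ℤ) ∣ c := by
  rw [lv_d3] at h1 h2 ⊢
  rw [lv_m3] at h3 h4
  have hh : ((a : ZMod 3)) * d - b * c = 1 := by exact_mod_cast congrArg (Int.cast : ℤ → ZMod 3) h
  refine lv_rig (p := 3) (A := Q.1) (B := Q.2.1) (C := Q.2.2) (a := a) (b := b) (c := c) (d := d)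
    (by decide) ?_ h1 hh ?_ ?_
  · rw [h3]; decide
  · rw [← h2, e]; simp only [act, ev]; push_cast; ring
  · rw [show 2 * ((Q.1 : ZMod 3) * (a * b)) + Q.2.1 * (a * d + b * c) + 2 * (Q.2.2 * (c * d)) =
      (Q'.2.1 : ZMod 3) by rw [e]; simp only [act]; push_cast; ring, h4, h3]

/-- `mod 5` -/
theorem lv_c5 {Q Q' : Fo} {a b c d : ℤ} {r : ZMod 5} (hr : r ≠ 0)
    (h : a * d - b * c = 1) (e : Q' = act Q a b c d)
    (h1 : (5 : ℤ) ∣ Q.1) (h2 : (5 : ℤ) ∣ Q'.1) (h3 : (Q.2.1 : ZMod 5) = r)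
    (h4 : (Q'.2.1 : ZMod 5) = r) : (5 : ℤ) ∣ c := by
  rw [lv_d5] at h1 h2 ⊢
  have hh : ((a : ZMod 5)) * d - b * c = 1 := by exact_mod_cast congrArg (Int.cast : ℤ → ZMod 5) h
  refine lv_rig (p := 5) (A := Q.1) (B := Q.2.1) (C := Q.2.2) (a := a) (b := b) (c := c) (d := d)
    (by decide) ?_ h1 hh ?_ ?_
  · rw [h3]; exact hr
  · rw [← h2, e]; simp only [act, ev]; push_cast; ring
  · rw [show 2 * ((Q.1 : ZMod 5) * (a * b)) + Q.2.1 * (a * d + b * c) + 2 * (Q.2.2 * (c * d)) =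
      (Q'.2.1 : ZMod 5) by rw [e]; simp only [act]; push_cast; ring, h4, h3]

theorem lv_b3 {Q Q' : Fo} {a b c d : ℤ} (h : a * d - b * c = 1) (e : Q' = act Q a b c d)
    (h1 : (3 : ℤ) ∣ Q.2.2) (h2 : (3 : ℤ) ∣ Q'.2.2) (h3 : Q.2.1 % 3 = 1) (h4 : Q'.2.1 % 3 = 1) :
    (3 : ℤ) ∣ b := by
  rw [lv_d3] at h1 h2 ⊢
  rw [lv_m3] at h3 h4
  have hh : ((a : ZMod 3)) * d - b * c = 1 := by exact_mod_cast congrArg (Int.cast : ℤ → ZMod 3) h
  refine lv_rig' (p := 3) (A := Q.1) (B := Q.2.1) (C := Q.2.2) (a := a) (b := b) (c := c) (d := d)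
    (by decide) ?_ h1 hh ?_ ?_
  · rw [h3]; decide
  · rw [← h2, e]; simp only [act, ev]; push_cast; ring
  · rw [show 2 * ((Q.1 : ZMod 3) * (a * b)) + Q.2.1 * (a * d + b * c) + 2 * (Q.2.2 * (c * d)) =
      (Q'.2.1 : ZMod 3) by rw [e]; simp only [act]; push_cast; ring, h4, h3]

/-- an `SL₂(ℤ)`-equivalence inside `FQ` is a `Γ₀(15)`-equivalence -/
theorem lv_FQ {D : ℕ} {r : ZMod 5} (hr : r ≠ 0) {Q Q' : Fo} (h : Q ∈ FQ D r) (h' : Q' ∈ FQ D r)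
    (he : Eqv 1 Q Q') : Eqv 15 Q Q' := by
  obtain ⟨a, b, c, d, h1, h2, h3⟩ := he
  obtain ⟨u1, u2, u3, u4⟩ := h
  obtain ⟨v1, v2, v3, v4⟩ := h'
  rw [lv_d15] at u2 v2
  exact ⟨a, b, c, d, h1, lv_d15.2 ⟨lv_c3 h1 h3 u2.1 v2.1 u3 v3, lv_c5 hr h1 h3 u2.2 v2.2 u4 v4⟩, h3⟩

/-! ### passing from level `5` to level `15` -/

theorem lv_dec3 : ∀ A B C : ZMod 3, B ^ 2 - 4 * (A * C) = 1 →
    (A = 0 ∧ B = 1) ∨
    (A * 1 ^ 2 + B * (1 * 5) + C * 5 ^ 2 = 0 ∧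
      2 * (A * (1 * 0)) + B * (1 * 1 + 0 * 5) + 2 * (C * (5 * 1)) = 1) ∨
    (A * 2 ^ 2 + B * (2 * 5) + C * 5 ^ 2 = 0 ∧
      2 * (A * (2 * 1)) + B * (2 * 3 + 1 * 5) + 2 * (C * (5 * 3)) = 1) ∨
    (A * 3 ^ 2 + B * (3 * 5) + C * 5 ^ 2 = 0 ∧
      2 * (A * (3 * 1)) + B * (3 * 2 + 1 * 5) + 2 * (C * (5 * 2)) = 1) := by decide

theorem lv_dec3' : ∀ A B C : ZMod 3, B ^ 2 - 4 * (A * C) = 1 →
    (C = 0 ∧ B = 1) ∨
    (A * 1 ^ 2 + B * (1 * 1) + C * 1 ^ 2 = 0 ∧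
      2 * (A * (1 * 1)) + B * (1 * 1 + 1 * 0) + 2 * (C * (0 * 1)) = 1) ∨
    (A * 2 ^ 2 + B * (2 * 1) + C * 1 ^ 2 = 0 ∧
      2 * (A * (1 * 2)) + B * (1 * 1 + 2 * 0) + 2 * (C * (0 * 1)) = 1) ∨
    (A * 1 ^ 2 + B * (1 * 3) + C * 3 ^ 2 = 0 ∧
      2 * (A * (2 * 1)) + B * (2 * 3 + 1 * 5) + 2 * (C * (5 * 3)) = 1) := by decide

theorem lv_dec5 : ∀ A B C r : ZMod 5, r ≠ 0 → B ^ 2 - 4 * (A * C) = r ^ 2 →
    (A = 0 ∧ B = r) ∨
    (∃ x ∈ ({0, 1, 2, 3, 4} : Finset (ZMod 5)), A * x ^ 2 + B * (x * 1) + C * 1 ^ 2 = 0 ∧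
      2 * (A * (x * (-1))) + B * (x * 0 + (-1) * 1) + 2 * (C * (1 * 0)) = r) := by decide

/-- the discriminant modulo `3` -/
theorem lv_ds3 {D : ℕ} (h : Fm D) {Q : Fo} (hQ : dsc Q = D) :
    (Q.2.1 : ZMod 3) ^ 2 - 4 * ((Q.1 : ZMod 3) * Q.2.2) = 1 := by
  rw [← lv_fm3 h, ← hQ]; simp only [dsc]; push_cast; ring

theorem lv_ds5 {D : ℕ} {r : ZMod 5} (hr : r ^ 2 = (D : ZMod 5)) {Q : Fo} (hQ : dsc Q = D) :
    (Q.2.1 : ZMod 5) ^ 2 - 4 * ((Q.1 : ZMod 5) * Q.2.2) = r ^ 2 := by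
  rw [hr, show (D : ZMod 5) = ((D : ℤ) : ZMod 5) by push_cast; rfl, ← hQ]
  simp only [dsc]; push_cast; ring

/-- elements of `Γ₀(5)` preserve `F5` -/
theorem lv_F5 {D : ℕ} {r : ZMod 5} {Q : Fo} (hQ : Q ∈ F5 D r) {a b c d : ℤ}
    (h : a * d - b * c = 1) (hc : (5 : ℤ) ∣ c) : act Q a b c d ∈ F5 D r := by
  obtain ⟨h1, h2, h3⟩ := hQ
  refine ⟨by rw [lv_dsc_act Q h, h1], ?_, ?_⟩
  · simp only [act, ev]
    exact dvd_add (dvd_add (h2.mul_right _) ((hc.mul_left a).mul_left _))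
      ((dvd_pow hc (by norm_num)).mul_left _)
  · rw [lv_d5] at h2 hc
    have hh : ((a : ZMod 5)) * d - b * c = 1 := by
      exact_mod_cast congrArg (Int.cast : ℤ → ZMod 5) h
    rw [← h3]
    simp only [act, ev]
    push_cast
    rw [hc, h2] at *
    linear_combination (Q.2.1 : ZMod 5) * hh

theorem lv_to15 {D : ℕ} (h : Fm D) {r : ZMod 5} {Q : Fo} (hQ : Q ∈ F5 D r) :
    ∃ Q' ∈ FQ D r, Eqv 5 Q Q' := by
  have key : ∀ a b c d : ℤ, a * d - b * c = 1 → (5 : ℤ) ∣ c →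
      (((Q.1 : ZMod 3)) * a ^ 2 + Q.2.1 * (a * c) + Q.2.2 * c ^ 2 = 0 ∧
      2 * ((Q.1 : ZMod 3) * (a * b)) + Q.2.1 * (a * d + b * c) + 2 * (Q.2.2 * (c * d)) = 1) →
      ∃ Q' ∈ FQ D r, Eqv 5 Q Q' := by
    intro a b c d e1 e2 ⟨e3, e4⟩
    have := lv_F5 hQ e1 e2
    refine ⟨act Q a b c d, ⟨this.1, lv_d15.2 ⟨?_, this.2.1⟩, ?_, this.2.2⟩, a, b, c, d, e1, e2, rfl⟩
    · rw [lv_d3, ← e3]; simp only [act, ev]; push_cast; ring
    · rw [lv_m3, ← e4]; simp only [act, ev]; push_cast; ring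
  rcases lv_dec3 _ _ _ (lv_ds3 h hQ.1) with h1 | h1 | h1 | h1
  · exact key 1 0 0 1 (by norm_num) (by norm_num) ⟨by push_cast; linear_combination h1.1,
      by push_cast; linear_combination h1.2⟩
  · exact key 1 0 5 1 (by norm_num) (by norm_num) ⟨by push_cast; linear_combination h1.1,
      by push_cast; linear_combination h1.2⟩
  · exact key 2 1 5 3 (by norm_num) (by norm_num) ⟨by push_cast; linear_combination h1.1,
      by push_cast; linear_combination h1.2⟩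
  · exact key 3 1 5 2 (by norm_num) (by norm_num) ⟨by push_cast; linear_combination h1.1,
      by push_cast; linear_combination h1.2⟩

theorem lv_to15' {D : ℕ} (h : Fm D) {r : ZMod 5} {Q : Fo} (hQ : Q ∈ F5 D r) :
    ∃ Q' ∈ F5 D r, (3 : ℤ) ∣ Q'.2.2 ∧ Q'.2.1 % 3 = 1 ∧ Eqv 5 Q Q' := by
  have key : ∀ a b c d : ℤ, a * d - b * c = 1 → (5 : ℤ) ∣ c →
      (((Q.1 : ZMod 3)) * b ^ 2 + Q.2.1 * (b * d) + Q.2.2 * d ^ 2 = 0 ∧
      2 * ((Q.1 : ZMod 3) * (a * b)) + Q.2.1 * (a * d + b * c) + 2 * (Q.2.2 * (c * d)) = 1) →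
      ∃ Q' ∈ F5 D r, (3 : ℤ) ∣ Q'.2.2 ∧ Q'.2.1 % 3 = 1 ∧ Eqv 5 Q Q' := by
    intro a b c d e1 e2 ⟨e3, e4⟩
    refine ⟨act Q a b c d, lv_F5 hQ e1 e2, ?_, ?_, a, b, c, d, e1, e2, rfl⟩
    · rw [lv_d3, ← e3]; simp only [act, ev]; push_cast; ring
    · rw [lv_m3, ← e4]; simp only [act, ev]; push_cast; ring
  rcases lv_dec3' _ _ _ (lv_ds3 h hQ.1) with h1 | h1 | h1 | h1
  · exact key 1 0 0 1 (by norm_num) (by norm_num) ⟨by push_cast; linear_combination h1.1,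
      by push_cast; linear_combination h1.2⟩
  · exact key 1 1 0 1 (by norm_num) (by norm_num) ⟨by push_cast; linear_combination h1.1,
      by push_cast; linear_combination h1.2⟩
  · exact key 1 2 0 1 (by norm_num) (by norm_num) ⟨by push_cast; linear_combination h1.1,
      by push_cast; linear_combination h1.2⟩
  · exact key 2 1 5 3 (by norm_num) (by norm_num) ⟨by push_cast; linear_combination h1.1,
      by push_cast; linear_combination h1.2⟩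

theorem lv_to5 {D : ℕ} {r : ZMod 5} (hr0 : r ≠ 0) (hr : r ^ 2 = (D : ZMod 5)) {Q : Fo}
    (hQ : dsc Q = D) : ∃ Q' ∈ F5 D r, Eqv 1 Q Q' := by
  rcases lv_dec5 _ _ _ r hr0 (lv_ds5 hr hQ) with h1 | ⟨x, _, h1, h2⟩
  · exact ⟨Q, ⟨hQ, lv_d5.2 h1.1, h1.2⟩, lv_refl 1 Q⟩
  · have hx : ((x.val : ℤ) : ZMod 5) = x := by
      push_cast
      exact ZMod.natCast_zmod_val x
    have hd : (x.val : ℤ) * 0 - (-1) * 1 = 1 := by norm_num
    refine ⟨act Q x.val (-1) 1 0, ⟨by rw [lv_dsc_act Q hd, hQ], ?_, ?_⟩,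
      x.val, -1, 1, 0, hd, one_dvd _, rfl⟩
    · rw [lv_d5, ← h1]
      have : ((act Q x.val (-1) 1 0).1 : ZMod 5) =
          (Q.1 : ZMod 5) * ((x.val : ℤ) : ZMod 5) ^ 2 + Q.2.1 * (((x.val : ℤ) : ZMod 5) * 1) +
            Q.2.2 * 1 ^ 2 := by
        simp only [act, ev]; push_cast; ring
      rw [this, hx]
    · rw [← h2]
      have : ((act Q x.val (-1) 1 0).2.1 : ZMod 5) =
          2 * ((Q.1 : ZMod 5) * (((x.val : ℤ) : ZMod 5) * (-1))) +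
          Q.2.1 * (((x.val : ℤ) : ZMod 5) * 0 + (-1) * 1) + 2 * (Q.2.2 * (1 * 0)) := by
        simp only [act, ev]; push_cast; ring
      rw [this, hx]

/-! ### the change of level -/

theorem lv_q3_conj {Q : Fo} (h : (3 : ℤ) ∣ Q.1) (a b c d : ℤ) :
    q3 (act Q a b (3 * c) d) = act (q3 Q) a (3 * b) c d := by
  obtain ⟨A, B, C⟩ := Q
  obtain ⟨A', hA⟩ := h
  simp only at hA
  subst hA
  have e1 : (3 * A') / 3 = A' := by omega
  have e2 : (3 * A' * a ^ 2 + B * (a * (3 * c)) + C * (3 * c) ^ 2) / 3 =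
      A' * a ^ 2 + B * (a * c) + 3 * C * c ^ 2 := by
    rw [show 3 * A' * a ^ 2 + B * (a * (3 * c)) + C * (3 * c) ^ 2 =
      3 * (A' * a ^ 2 + B * (a * c) + 3 * C * c ^ 2) by ring]
    omega
  simp only [q3, act, ev, e1, Prod.mk.injEq]
  refine ⟨e2, by ring, by ring⟩

theorem lv_q3_inj {Q Q' : Fo} (h : (3 : ℤ) ∣ Q.1) (h' : (3 : ℤ) ∣ Q'.1) (e : q3 Q = q3 Q') :
    Q = Q' := by
  obtain ⟨A, B, C⟩ := Q
  obtain ⟨A', B', C'⟩ := Q'
  simp only [q3, Prod.mk.injEq] at e h h' ⊢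
  omega

theorem lv_q3_F5 {D : ℕ} {r : ZMod 5} {Q : Fo} (h : Q ∈ FQ D r) : q3 Q ∈ F5 D r := by
  obtain ⟨h1, h2, h3, h4⟩ := h
  refine ⟨?_, ?_, h4⟩
  · rw [← h1]
    obtain ⟨k, hk⟩ := h2
    simp only [q3, dsc, hk]
    rw [show (15 * k) / 3 = 5 * k by omega]
    ring
  · simp only [q3]; omega

theorem t_LEV : S_LEV := by
  intro D hsq hfm hne r hr R hR
  have hr0 := lv_fm5 hfm hr
  refine ⟨⟨?_, ?_⟩, ⟨?_, ?_⟩, ⟨?_, ?_⟩, ?_⟩
  · intro Q hQ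
    obtain ⟨h1, h2, h3, h4⟩ := hR.1 Q hQ
    exact ⟨h1, by omega, h4⟩
  · intro Q hQ
    obtain ⟨Q', hQ', he⟩ := lv_to15 hfm hQ
    obtain ⟨Q'', ⟨h1, h2⟩, h3⟩ := hR.2 Q' hQ'
    refine ⟨Q'', ⟨h1, lv_trans he (lv_mono (by norm_num) h2)⟩, ?_⟩
    rintro P ⟨hP1, hP2⟩
    apply h3 P
    refine ⟨hP1, lv_FQ hr0 hQ' (hR.1 P hP1) ?_⟩
    exact lv_mono (one_dvd _) (lv_trans (lv_symm he) hP2)
  · intro Q hQ
    exact (hR.1 Q hQ).1
  · intro Q hQ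
    obtain ⟨Q1, hQ1, he1⟩ := lv_to5 hr0 hr hQ
    obtain ⟨Q', hQ', he2⟩ := lv_to15 hfm hQ1
    have he : Eqv 1 Q Q' := lv_trans he1 (lv_mono (one_dvd _) he2)
    obtain ⟨Q'', ⟨h1, h2⟩, h3⟩ := hR.2 Q' hQ'
    refine ⟨Q'', ⟨h1, lv_trans he (lv_mono (one_dvd _) h2)⟩, ?_⟩
    rintro P ⟨hP1, hP2⟩
    apply h3 P
    exact ⟨hP1, lv_FQ hr0 hQ' (hR.1 P hP1) (lv_trans (lv_symm he) hP2)⟩
  · intro Q hQ
    obtain ⟨P, hP, rfl⟩ := Finset.mem_image.1 hQ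
    exact lv_q3_F5 (hR.1 P hP)
  · intro Q hQ
    obtain ⟨Q1, hQ1, hC, hB, he⟩ := lv_to15' hfm hQ
    obtain ⟨C', hC'⟩ := hC
    -- the form above `Q1`
    have hQ2 : ((3 * Q1.1, Q1.2.1, C') : Fo) ∈ FQ D r := by
      refine ⟨?_, ?_, hB, hQ1.2.2⟩
      · rw [← hQ1.1]; simp only [dsc, hC']; ring
      · have := hQ1.2.1
        simp only
        omega
    have hq : q3 (3 * Q1.1, Q1.2.1, C') = Q1 := by
      simp only [q3]
      rw [← hC', show 3 * Q1.1 / 3 = Q1.1 by omega]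
    obtain ⟨Q', ⟨h1, h2⟩, h3⟩ := hR.2 _ hQ2
    refine ⟨q3 Q', ⟨Finset.mem_image_of_mem _ h1, ?_⟩, ?_⟩
    · refine lv_trans he ?_
      obtain ⟨a, b, c, d, g1, ⟨c', g2⟩, g3⟩ := h2
      refine ⟨a, 3 * b, 5 * c', d, by rw [g2] at g1; linear_combination g1, dvd_mul_right _ _, ?_⟩
      rw [g3, g2, show (15 : ℤ) * c' = 3 * (5 * c') by ring, lv_q3_conj (by simp), hq]
    · rintro P ⟨hP1, hP2⟩
      obtain ⟨P', hP', rfl⟩ := Finset.mem_image.1 hP1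
      congr 1
      apply h3 P'
      refine ⟨hP', ?_⟩
      have hP3 : Eqv 5 Q1 (q3 P') := lv_trans (lv_symm he) hP2
      obtain ⟨a, b, c, d, g1, g2, g3⟩ := hP3
      have hP'' := hR.1 P' hP'
      have hb : (3 : ℤ) ∣ b :=
        lv_b3 g1 g3 ⟨C', hC'⟩ (by simp only [q3]; exact dvd_mul_right _ _) hB hP''.2.2.1
      obtain ⟨b', rfl⟩ := hb
      obtain ⟨c', rfl⟩ := g2
      refine ⟨a, b', 3 * (5 * c'), d, by linear_combination g1, ⟨c', by ring⟩, ?_⟩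
      apply lv_q3_inj (by have := hP''.2.1; omega)
      · simp only [act, ev]
        refine dvd_add (dvd_add ?_ ?_) ?_
        · exact (dvd_mul_right _ _).mul_right _
        · exact ((dvd_mul_right _ _).mul_left _).mul_left _
        · exact (dvd_pow (dvd_mul_right _ _) (by norm_num)).mul_left _
      · rw [lv_q3_conj (by simp), hq, ← g3]
  · intro Q hQ Q' hQ' e
    have h1 := (hR.1 Q (by simpa using hQ)).2.1
    have h2 := (hR.1 Q' (by simpa using hQ')).2.1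
    exact lv_q3_inj (by omega) (by omega) e

/-! ### reduction -/

theorem lv_red {D : ℕ} (hD : ¬ IsSquare (D : ℤ)) {Q : Fo} (hQ : dsc Q = D) :
    ∃ Q' : Fo, Eqv 1 Q Q' ∧ |Q'.1| ≤ D ∧ |Q'.2.1| ≤ D ∧ |Q'.2.2| ≤ D := by
  -- choose the least value of `|A|`
  have hne : ∃ n : ℕ, ∃ Q' : Fo, Eqv 1 Q Q' ∧ Q'.1.natAbs = n := ⟨_, Q, lv_refl 1 Q, rfl⟩
  obtain ⟨Q1, hQ1, hn⟩ := Nat.find_spec hne
  have hmin : ∀ Q' : Fo, Eqv 1 Q Q' → |Q1.1| ≤ |Q'.1| := by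
    intro Q' h
    have := Nat.find_min' hne ⟨Q', h, rfl⟩
    rw [← hn] at this
    zify at this
    exact this
  have hd1 : dsc Q1 = D := by rw [lv_dsc hQ1, hQ]
  have hA1 : Q1.1 ≠ 0 := by
    intro h0
    apply hD
    refine ⟨Q1.2.1, ?_⟩
    rw [← hd1]; simp only [dsc, h0]; ring
  -- translate
  obtain ⟨n, hB⟩ : ∃ n : ℤ, |Q1.2.1 + 2 * Q1.1 * n| ≤ |Q1.1| := by
    set A := Q1.1 with hA
    set B := Q1.2.1
    rcases lt_or_gt_of_ne hA1 with hneg | hpos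
    · refine ⟨(B - A) / (2 * (-A)), ?_⟩
      have e1 := Int.emod_add_mul_ediv (B - A) (2 * (-A))
      have e2 := Int.emod_nonneg (B - A) (show (2 * (-A)) ≠ 0 by omega)
      have e3 := Int.emod_lt_of_pos (B - A) (show 0 < 2 * (-A) by omega)
      rw [abs_of_neg hneg, abs_le]
      constructor <;> nlinarith
    · refine ⟨-((B + A) / (2 * A)), ?_⟩
      have e1 := Int.emod_add_mul_ediv (B + A) (2 * A)
      have e2 := Int.emod_nonneg (B + A) (show (2 * A) ≠ 0 by omega)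
      have e3 := Int.emod_lt_of_pos (B + A) (show 0 < 2 * A by omega)
      rw [abs_of_pos hpos, abs_le]
      constructor <;> nlinarith
  have hQ2 : Eqv 1 Q (act Q1 1 n 0 1) := lv_trans hQ1 ⟨1, n, 0, 1, by ring, one_dvd _, rfl⟩
  have hQ3 : Eqv 1 Q (act (act Q1 1 n 0 1) 0 (-1) 1 0) :=
    lv_trans hQ2 ⟨0, -1, 1, 0, by ring, one_dvd _, rfl⟩
  set Q2 : Fo := act Q1 1 n 0 1 with hQ2d
  have hA2 : Q2.1 = Q1.1 := by simp only [hQ2d, act, ev]; ring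
  have hB2 : |Q2.2.1| ≤ |Q2.1| := by
    rw [hA2]
    refine le_trans (le_of_eq ?_) hB
    congr 1
    simp only [hQ2d, act, ev]; ring
  have hC2 : |Q2.1| ≤ |Q2.2.2| := by
    rw [hA2]
    refine le_trans (hmin _ hQ3) (le_of_eq ?_)
    congr 1
    simp only [act, ev]; ring
  have hd2 : dsc Q2 = D := by rw [lv_dsc hQ2, hQ]
  refine ⟨Q2, hQ2, ?_⟩
  have hA0 : Q2.1 ≠ 0 := by rw [hA2]; exact hA1
  have hpA : 0 < |Q2.1| := abs_pos.2 hA0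
  have hAC : |Q2.1 * Q2.2.2| = |Q2.1| * |Q2.2.2| := abs_mul _ _
  have hB3 : Q2.2.1 ^ 2 ≤ |Q2.1| * |Q2.2.2| := by
    rw [← sq_abs Q2.2.1]
    nlinarith [abs_nonneg Q2.2.1]
  have hd3 : Q2.2.1 ^ 2 - 4 * (Q2.1 * Q2.2.2) = D := hd2
  have hneg : Q2.1 * Q2.2.2 < 0 := by
    by_contra hc
    have hc' : 0 ≤ Q2.1 * Q2.2.2 := not_lt.1 hc
    rw [abs_of_nonneg hc'] at hAC
    have : (0 : ℤ) ≤ D := Int.natCast_nonneg D
    nlinarith
  rw [abs_of_neg hneg] at hAC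
  have hb : |Q2.1| * |Q2.2.2| ≤ D := by nlinarith [sq_nonneg Q2.2.1]
  have hpC : 0 < |Q2.2.2| := lt_of_lt_of_le hpA hC2
  refine ⟨?_, ?_, ?_⟩ <;> nlinarith

theorem lv_nsq {D : ℕ} (hsq : Squarefree D) (h1 : D ≠ 1) : ¬ IsSquare (D : ℤ) := by
  rintro ⟨k, hk⟩
  have h2 : k.natAbs * k.natAbs = D := by
    zify
    rw [hk, abs_mul_abs_self]
  have h3 : IsUnit k.natAbs := hsq k.natAbs ⟨1, by rw [mul_one, h2]⟩
  rw [Nat.isUnit_iff] at h3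
  rw [h3] at h2
  omega

theorem t_FIN : S_FIN := by
  intro D hsq hfm hne r hr
  have hr0 := lv_fm5 hfm hr
  have hns := lv_nsq hsq hne
  let s : Setoid ↥(FQ D r) :=
    { r := fun Q Q' => Eqv 15 (Q : Fo) (Q' : Fo)
      iseqv := ⟨fun Q => lv_refl 15 _, fun h => lv_symm h, fun h h' => lv_trans h h'⟩ }
  have hex : ∀ q : Quotient s, ∃ Q' : Fo, Eqv 1 (q.out : Fo) Q' ∧ |Q'.1| ≤ D ∧ |Q'.2.1| ≤ D ∧
      |Q'.2.2| ≤ D := fun q => lv_red hns q.out.2.1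
  choose f hf using hex
  have hfin : Finite (Quotient s) := by
    let g : Quotient s → ↥((Finset.Icc (-(D : ℤ)) D) ×ˢ (Finset.Icc (-(D : ℤ)) D) ×ˢ
      (Finset.Icc (-(D : ℤ)) D) : Finset Fo) := fun q => ⟨f q, by
        obtain ⟨-, h1, h2, h3⟩ := hf q
        rw [abs_le] at h1 h2 h3
        simp only [Finset.mem_product, Finset.mem_Icc]
        exact ⟨h1, h2, h3⟩⟩
    apply Finite.of_injective g
    intro q q' he
    have he' : f q = f q' := congrArg Subtype.val he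
    have h1 := (hf q).1
    have h2 := (hf q').1
    rw [← he'] at h2
    have h3 : Eqv 1 (q.out : Fo) (q'.out : Fo) := lv_trans h1 (lv_symm h2)
    have h4 : Eqv 15 (q.out : Fo) (q'.out : Fo) := lv_FQ hr0 q.out.2 q'.out.2 h3
    rw [← Quotient.out_eq q, ← Quotient.out_eq q']
    exact Quotient.sound h4
  have := Fintype.ofFinite (Quotient s)
  refine ⟨(Finset.univ : Finset (Quotient s)).image (fun q => (q.out : Fo)), ?_, ?_⟩
  · intro Q hQ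
    obtain ⟨q, -, rfl⟩ := Finset.mem_image.1 hQ
    exact q.out.2
  · intro Q hQ
    refine ⟨((⟦(⟨Q, hQ⟩ : ↥(FQ D r))⟧ : Quotient s).out : Fo), ⟨?_, ?_⟩, ?_⟩
    · exact Finset.mem_image_of_mem _ (Finset.mem_univ _)
    · have := Quotient.mk_out (s := s) (⟨Q, hQ⟩ : ↥(FQ D r))
      exact lv_symm this
    · rintro P ⟨hP1, hP2⟩
      obtain ⟨q, -, rfl⟩ := Finset.mem_image.1 hP1
      have : (⟦(⟨Q, hQ⟩ : ↥(FQ D r))⟧ : Quotient s) = q := by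
        rw [← Quotient.out_eq q]
        exact Quotient.sound hP2
      rw [this]

end

end Pool.Agent.H757_X15.CC
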