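import Pool.Agent.H757_X15.StmC2
import Pool.Agent.H757_X15.CS.Chi
import Pool.Agent.H757_X15.CS.LEV

/-!
# C19c: the ambiguous classes of the principal genus (helper907)
-/

set_option autoImplicit false
set_option linter.unusedVariables false

namespace Pool.Agent.H757_X15.CC

open Finset
open Pool.Agent.H757_X15.DD (Fm Crit)

open scoped Classical

noncomputable section

/-! ### the forms `(d, d, (d - D/d)/4)` -/

/-- the ambiguous form -/
def am (D d : ℕ) : Fo := ((d : ℤ), (d : ℤ), ((d : ℤ) - ((D / d : ℕ) : ℤ)) / 4)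

theorem ab_fm4 {D : ℕ} (h : Fm D) : D % 4 = 1 := by rcases h with h | h <;> omega

theorem ab_mod4 {d e : ℕ} (h : (d * e) % 4 = 1) : ∃ c : ℤ, 4 * c = (d : ℤ) - e := by
  have key : ∀ x y : Fin 4, (x.val * y.val) % 4 = 1 → x.val = y.val := by decide
  have h1 : d % 4 = e % 4 := by
    have := Nat.mul_mod d e 4
    rw [h] at this
    exact key ⟨d % 4, Nat.mod_lt _ (by norm_num)⟩ ⟨e % 4, Nat.mod_lt _ (by norm_num)⟩ this.symm
  exact ⟨((d : ℤ) - e) / 4, by omega⟩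

theorem am_eq {D d e : ℕ} (h : d * e = D) (hD : D % 4 = 1) {c : ℤ} (hc : 4 * c = (d : ℤ) - e) :
    am D d = ((d : ℤ), (d : ℤ), c) := by
  have hd : 0 < d := by
    rcases Nat.eq_zero_or_pos d with h0 | h0
    · rw [h0, zero_mul] at h; omega
    · exact h0
  have h1 : D / d = e := by rw [← h]; exact Nat.mul_div_cancel_left e hd
  simp only [am, h1, Prod.mk.injEq, true_and]
  omega

/-- the data of an ambiguous form -/
theorem am_ex {D d : ℕ} (hd : d ∣ D) (hD : D % 4 = 1) :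
    ∃ (e : ℕ) (c : ℤ), d * e = D ∧ D / d = e ∧ 4 * c = (d : ℤ) - e ∧
      am D d = ((d : ℤ), (d : ℤ), c) := by
  obtain ⟨e, he⟩ := hd
  obtain ⟨c, hc⟩ := ab_mod4 (d := d) (e := e) (by rw [← he]; exact hD)
  have hd : 0 < d := by
    rcases Nat.eq_zero_or_pos d with h0 | h0
    · rw [h0, zero_mul] at he; omega
    · exact h0
  exact ⟨e, c, he.symm, by rw [he]; exact Nat.mul_div_cancel_left e hd, hc, am_eq he.symm hD hc⟩

theorem am_dsc {D d : ℕ} (hd : d ∣ D) (hD : D % 4 = 1) : dsc (am D d) = D := by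
  obtain ⟨e, c, h1, h2, h3, h4⟩ := am_ex hd hD
  rw [h4, ← h1]
  simp only [dsc]
  push_cast
  linear_combination (-(d : ℤ)) * h3

theorem am_amb {D d : ℕ} (hd : d ∣ D) (hD : D % 4 = 1) :
    Eqv 1 (am D d) ((am D d).1, -(am D d).2.1, (am D d).2.2) := by
  obtain ⟨e, c, h1, h2, h3, h4⟩ := am_ex hd hD
  rw [h4]
  refine ⟨1, -1, 0, 1, by norm_num, one_dvd _, ?_⟩
  simp only [act, ev, Prod.mk.injEq]
  refine ⟨by ring, by ring, by ring⟩

theorem am_chp {D d p : ℕ} (hd : d ∣ D) (hD : D % 4 = 1) (hp : p ∈ D.primeFactors) :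
    chp p (am D d) = if p ∣ d then jacobiSym (-((D / d : ℕ) : ℤ)) p else jacobiSym d p := by
  obtain ⟨e, c, h1, h2, h3, h4⟩ := am_ex hd hD
  have hpp := Nat.prime_of_mem_primeFactors hp
  have hpD := Nat.dvd_of_mem_primeFactors hp
  have hodd : Nat.Coprime 2 p := by
    rw [Nat.coprime_primes Nat.prime_two hpp]
    rintro rfl
    omega
  rw [h4, h2]
  unfold chp
  simp only [Int.natCast_dvd_natCast]
  by_cases hpd : p ∣ d
  · rw [if_pos hpd, if_pos hpd]
    have e1 : jacobiSym (4 * c) p = jacobiSym c p := by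
      rw [show (4 : ℤ) = 2 ^ 2 by norm_num, jacobiSym.mul_left, jacobiSym.sq_one', one_mul]
      have : Int.gcd 2 p = 1 := by
        rw [Int.gcd]; simpa using hodd
      exact this
    rw [← e1]
    rw [jacobiSym.mod_left (4 * c), jacobiSym.mod_left (-(e : ℤ))]
    congr 1
    apply Int.ModEq.symm
    rw [Int.modEq_iff_dvd]
    rw [h3]
    have : (p : ℤ) ∣ (d : ℤ) := by exact_mod_cast hpd
    simpa using this
  · rw [if_neg hpd, if_neg hpd]

theorem am_Hd {D d : ℕ} (hd : d ∣ D) (hD : D % 4 = 1) :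
    (∀ p ∈ D.primeFactors, chp p (am D d) = 1) ↔ Hd D d := by
  have hD0 : D ≠ 0 := by omega
  constructor
  · intro h
    refine ⟨hd, ?_, ?_⟩
    · intro p hp hpD hpd
      have := h p (Nat.mem_primeFactors.2 ⟨hp, hpD, hD0⟩)
      rw [am_chp hd hD (Nat.mem_primeFactors.2 ⟨hp, hpD, hD0⟩), if_neg hpd] at this
      exact this
    · intro p hp hpd
      have := h p (Nat.mem_primeFactors.2 ⟨hp, hpd.trans hd, hD0⟩)
      rw [am_chp hd hD (Nat.mem_primeFactors.2 ⟨hp, hpd.trans hd, hD0⟩), if_pos hpd] at this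
      exact this
  · rintro ⟨-, h1, h2⟩ p hp
    rw [am_chp hd hD hp]
    split_ifs with hpd
    · exact h2 p (Nat.prime_of_mem_primeFactors hp) hpd
    · exact h1 p (Nat.prime_of_mem_primeFactors hp) (Nat.dvd_of_mem_primeFactors hp) hpd

/-! ### ambiguous classes contain one of these forms -/

theorem ab_pos {D : ℕ} (hD : D % 4 = 1) {a c : ℤ} (h : a ^ 2 - 4 * (a * c) = D) (ha : 0 < a) :
    ∃ d : ℕ, d ∣ D ∧ am D d = (a, a, c) := by
  have h0 : 0 < a - 4 * c := by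
    by_contra hc
    have : a * (a - 4 * c) ≤ 0 := mul_nonpos_of_nonneg_of_nonpos ha.le (not_lt.1 hc)
    have h2 : (D : ℤ) ≤ 0 := by rw [← h]; linarith
    omega
  obtain ⟨d, hd⟩ := Int.eq_ofNat_of_zero_le ha.le
  obtain ⟨e, he⟩ := Int.eq_ofNat_of_zero_le h0.le
  have hde : d * e = D := by
    zify
    rw [← h, ← hd, ← he]; ring
  refine ⟨d, ⟨e, hde.symm⟩, ?_⟩
  rw [am_eq hde hD (c := c) (by rw [← hd, ← he]; ring), ← hd]

theorem ab_sign {D : ℕ} (hD : D % 4 = 1) {a c : ℤ} (h : a ^ 2 - 4 * (a * c) = D) :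
    ∃ d : ℕ, d ∣ D ∧ Eqv 1 (a, a, c) (am D d) := by
  rcases lt_trichotomy a 0 with ha | ha | ha
  · have h1 : 0 < 4 * c - a := by
      by_contra hc
      have : 0 ≤ a * (4 * c - a) := mul_nonneg_of_nonpos_of_nonpos ha.le (not_lt.1 hc)
      have h2 : (D : ℤ) ≤ 0 := by rw [← h]; linarith
      omega
    obtain ⟨d, hd, hd2⟩ := ab_pos hD (a := 4 * c - a) (c := c) (by rw [← h]; ring) h1
    refine ⟨d, hd, 1, 1, -2, -1, by norm_num, one_dvd _, ?_⟩
    rw [hd2]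
    simp only [act, ev, Prod.mk.injEq]
    refine ⟨by ring, by ring, by ring⟩
  · exfalso
    rw [ha] at h
    norm_num at h
    omega
  · obtain ⟨d, hd, hd2⟩ := ab_pos hD h ha
    exact ⟨d, hd, by rw [hd2]; exact lv_refl 1 _⟩

/-- a primitive fixed vector -/
theorem ab_fix {a b c : ℤ} (h : a ^ 2 - b * c = 1) :
    ∃ x y : ℤ, IsCoprime x y ∧ a * x - b * y = x ∧ c * x - a * y = y := by
  have key : ∀ X Y : ℤ, (X ≠ 0 ∨ Y ≠ 0) → a * X - b * Y = X → c * X - a * Y = Y →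
      ∃ x y : ℤ, IsCoprime x y ∧ a * x - b * y = x ∧ c * x - a * y = y := by
    intro X Y h0 h1 h2
    have hg : 0 < Int.gcd X Y := by
      rcases h0 with h0 | h0
      · exact Int.gcd_pos_of_ne_zero_left _ h0
      · exact Int.gcd_pos_of_ne_zero_right _ h0
    have hg' : ((Int.gcd X Y : ℕ) : ℤ) ≠ 0 := by exact_mod_cast hg.ne'
    obtain ⟨x, hx⟩ := Int.gcd_dvd_left X Y
    obtain ⟨y, hy⟩ := Int.gcd_dvd_right X Y
    refine ⟨x, y, ?_, ?_, ?_⟩
    · have h5 := Int.gcd_eq_gcd_ab X Y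
      refine ⟨Int.gcdA X Y, Int.gcdB X Y, ?_⟩
      apply mul_left_cancel₀ hg'
      linear_combination (-1 : ℤ) * h5 + (Int.gcdA X Y) * (-hx) + (Int.gcdB X Y) * (-hy)
    · apply mul_left_cancel₀ hg'
      linear_combination h1 - a * hx + b * hy + hx
    · apply mul_left_cancel₀ hg'
      linear_combination h2 - c * hx + a * hy + hy
  by_cases h0 : (a + 1 ≠ 0 ∨ c ≠ 0)
  · exact key (a + 1) c h0 (by linear_combination h) (by ring)
  · push Not at h0
    refine key (-b) (1 - a) (Or.inr ?_) (by ring) (by linear_combination h)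
    have := h0.1
    omega

theorem ab_amb {D : ℕ} (hD : D % 4 = 1) (hns : ¬ IsSquare (D : ℤ)) {Q : Fo} (hQ : dsc Q = D)
    (h : Eqv 1 Q (Q.1, -Q.2.1, Q.2.2)) : ∃ d : ℕ, d ∣ D ∧ Eqv 1 Q (am D d) := by
  obtain ⟨a, b, c, d', h0, -, he⟩ := h
  obtain ⟨A, B, C⟩ := Q
  simp only [act, ev, Prod.mk.injEq] at he
  obtain ⟨e1, e2, e3⟩ := he
  simp only [dsc] at hQ
  have hA : A ≠ 0 := by
    rintro rfl
    exact hns ⟨B, by rw [← hQ]; ring⟩
  have hR : A * b + B * d' + C * c = 0 := by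
    have h2 : 2 * (A * b + B * d' + C * c) = 0 := by
      linear_combination -(2 * A * b + B * d') * h0 - d' * e2 + 2 * c * e3
    linarith
  have hd : d' = a := by
    have h2 : 2 * (A * (d' - a)) = 0 := by
      linear_combination (2 * A * a + B * c) * h0 + 2 * d' * e1 - c * e2
    have h3 : A * (d' - a) = 0 := by linarith
    rcases mul_eq_zero.1 h3 with h1 | h1
    · exact absurd h1 hA
    · linarith
  rw [hd] at h0 hR
  obtain ⟨x, y, ⟨s, r', hco⟩, f1, f2⟩ := ab_fix (a := a) (b := b) (c := c) (by linarith)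
  -- `s x + r' y = 1`; the basis `(x, y), (-r', s)`
  obtain ⟨r, rfl⟩ : ∃ r, r' = -r := ⟨-r', by ring⟩
  have hdet : x * s - r * y = 1 := by linear_combination hco
  set k : ℤ := 2 * a * r * s - b * s ^ 2 - c * r ^ 2 with hk
  set A' : ℤ := A * x ^ 2 + B * (x * y) + C * y ^ 2 with hA'
  set B' : ℤ := 2 * (A * (x * r)) + B * (x * s + r * y) + 2 * (C * (y * s)) with hB'
  set C' : ℤ := A * r ^ 2 + B * (r * s) + C * s ^ 2 with hC'
  have hkA : B' = k * A' := by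
    have e1' : a - 1 = a - 1 := rfl
    have g1 : s * (a * x - b * y) - r * (c * x - a * y) = 1 := by
      rw [f1, f2]; linear_combination hdet
    have g2 : c * x ^ 2 - 2 * a * x * y + b * y ^ 2 = 0 := by
      linear_combination x * f2 - y * f1
    have g3 : B' * (s * (a * x - b * y) - r * (c * x - a * y)) +
        C' * (c * x ^ 2 - 2 * a * x * y + b * y ^ 2) - k * A' =
        (A * b + B * a + C * c) * (x * s - r * y) ^ 2 := by
      rw [hk, hA', hB', hC']; ring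
    rw [g1, g2, hR] at g3
    linarith
  have hD' : B' ^ 2 - 4 * (A' * C') = D := by
    rw [← hQ]
    have : B' ^ 2 - 4 * (A' * C') = (B ^ 2 - 4 * (A * C)) * (x * s - r * y) ^ 2 := by
      rw [hA', hB', hC']; ring
    rw [this, hdet]; ring
  have hDo : (D : ℤ) % 2 = 1 := by omega
  have hko : k % 2 = 1 := by
    rcases Int.emod_two_eq_zero_or_one k with h1 | h1
    · exfalso
      obtain ⟨k', hk'⟩ : ∃ k', k = 2 * k' := ⟨k / 2, by omega⟩
      rw [hkA, hk'] at hD'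
      have : (D : ℤ) = 2 * (2 * (k' * A') ^ 2 - 2 * (A' * C')) := by rw [← hD']; ring
      omega
    · exact h1
  obtain ⟨n, hn⟩ : ∃ n, k + 2 * n = 1 := ⟨(1 - k) / 2, by omega⟩
  have hQ1 : Eqv 1 (A, B, C) (A', B', C') := by
    refine ⟨x, r, y, s, hdet, one_dvd _, ?_⟩
    simp only [act, ev, Prod.mk.injEq]
    exact ⟨rfl, rfl, rfl⟩
  have hQ2 : Eqv 1 (A', B', C') (A', A', A' * n ^ 2 + B' * n + C') := by
    refine ⟨1, n, 0, 1, by ring, one_dvd _, ?_⟩
    simp only [act, ev, Prod.mk.injEq]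
    refine ⟨by ring, ?_, by ring⟩
    rw [hkA]; linear_combination (-A') * hn
  obtain ⟨d, hd1, hd2⟩ := ab_sign hD (a := A') (c := A' * n ^ 2 + B' * n + C') (by
    have := lv_dsc hQ2
    simp only [dsc] at this
    rw [this, hD'])
  exact ⟨d, hd1, lv_trans (lv_trans hQ1 hQ2) hd2⟩

/-! ### equivalences between these forms -/

theorem ab_z2 : ∀ g d m n x y : ZMod 2, g * d * m * n = 1 → g * m * x ^ 2 - d * n * y ^ 2 = 0 →
    m * x - d * y = 0 ∧ d * y + g * x = 0 := by decide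

theorem ab_z4 : ∀ g d m n : ZMod 4, g * d * m * n = 1 → ∀ x y : ZMod 4,
    g * m * x ^ 2 - d * n * y ^ 2 = 0 → (m - g) * x + (n - d) * y = 0 := by decide

/-- the equivalence given by a solution of `g m x² - d n y² = 4` -/
theorem ab_eqv {D g d m n : ℕ} (h : g * d * m * n = D) (hD : D % 4 = 1) {x y : ℤ}
    (he : (g : ℤ) * m * x ^ 2 - d * n * y ^ 2 = 4) : Eqv 1 (am D (g * d)) (am D (d * m)) := by
  have hz2 := ab_z2 g d m n x y (by
    have : ((g * d * m * n : ℕ) : ZMod 2) = ((1 : ℕ) : ZMod 2) :=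
      (ZMod.natCast_eq_natCast_iff _ _ 2).2 (by unfold Nat.ModEq; rw [h]; omega)
    push_cast at this
    exact this) (by
    have := congrArg (Int.cast : ℤ → ZMod 2) he
    push_cast at this
    rw [this]; decide)
  have hz4 := ab_z4 g d m n (by
    have : ((g * d * m * n : ℕ) : ZMod 4) = ((1 : ℕ) : ZMod 4) :=
      (ZMod.natCast_eq_natCast_iff _ _ 4).2 (by unfold Nat.ModEq; rw [h]; omega)
    push_cast at this
    exact this) x y (by
    have := congrArg (Int.cast : ℤ → ZMod 4) he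
    push_cast at this
    rw [this]; decide)
  obtain ⟨p, hp⟩ : (2 : ℤ) ∣ (m : ℤ) * x - d * y :=
    (ZMod.intCast_zmod_eq_zero_iff_dvd _ 2).1 (by push_cast; exact hz2.1)
  obtain ⟨v, hv⟩ : (2 : ℤ) ∣ (d : ℤ) * y + g * x :=
    (ZMod.intCast_zmod_eq_zero_iff_dvd _ 2).1 (by push_cast; exact hz2.2)
  obtain ⟨q, hq⟩ : (4 : ℤ) ∣ ((m : ℤ) - g) * x + (n - d) * y :=
    (ZMod.intCast_zmod_eq_zero_iff_dvd _ 4).1 (by push_cast; exact hz4)
  obtain ⟨c, hc⟩ := ab_mod4 (d := g * d) (e := m * n) (by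
    rw [show g * d * (m * n) = g * d * m * n by ring, h]; exact hD)
  obtain ⟨c', hc'⟩ := ab_mod4 (d := d * m) (e := g * n) (by
    rw [show d * m * (g * n) = g * d * m * n by ring, h]; exact hD)
  rw [am_eq (by rw [← h]; ring) hD hc, am_eq (by rw [← h]; ring) hD hc']
  push_cast at hc hc' ⊢
  have p1 : (p : ℚ) = ((m : ℚ) * x - d * y) / 2 := by
    have : ((m : ℚ) * x - d * y) = 2 * p := by exact_mod_cast hp
    rw [this]; ring
  have v1 : (v : ℚ) = ((d : ℚ) * y + g * x) / 2 := by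
    have : ((d : ℚ) * y + g * x) = 2 * v := by exact_mod_cast hv
    rw [this]; ring
  have q1 : (q : ℚ) = (((m : ℚ) - g) * x + (n - d) * y) / 4 := by
    have : (((m : ℚ) - g) * x + (n - d) * y) = 4 * q := by exact_mod_cast hq
    rw [this]; ring
  have c1 : (c : ℚ) = ((g : ℚ) * d - m * n) / 4 := by
    have : 4 * (c : ℚ) = (g : ℚ) * d - m * n := by exact_mod_cast hc
    rw [← this]; ring
  have c1' : (c' : ℚ) = ((d : ℚ) * m - g * n) / 4 := by
    have : 4 * (c' : ℚ) = (d : ℚ) * m - g * n := by exact_mod_cast hc'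
    rw [← this]; ring
  have e1 : (g : ℚ) * m * x ^ 2 - d * n * y ^ 2 = 4 := by exact_mod_cast he
  refine ⟨p, q, d * y, v, ?_, one_dvd _, ?_⟩
  · have : ((p * v - q * (d * y) : ℤ) : ℚ) = 1 := by
      push_cast
      rw [p1, v1, q1]
      linear_combination (1 / 4 : ℚ) * e1
    exact_mod_cast this
  · simp only [act, ev, Prod.mk.injEq]
    refine ⟨?_, ?_, ?_⟩
    · have : (((d : ℤ) * m : ℤ) : ℚ) =
          (((g : ℤ) * d * p ^ 2 + g * d * (p * (d * y)) + c * (d * y) ^ 2 : ℤ) : ℚ) := by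
        push_cast
        rw [p1, c1]
        linear_combination (-((d : ℚ) * m) / 4) * e1
      exact_mod_cast this
    · have : (((d : ℤ) * m : ℤ) : ℚ) =
          ((2 * ((g : ℤ) * d * (p * q)) + g * d * (p * v + q * (d * y)) +
            2 * (c * (d * y * v)) : ℤ) : ℚ) := by
        push_cast
        rw [p1, c1, v1, q1]
        linear_combination (-((d : ℚ) * m) / 4) * e1
      exact_mod_cast this
    · have : ((c' : ℤ) : ℚ) =
          (((g : ℤ) * d * q ^ 2 + g * d * (q * v) + c * v ^ 2 : ℤ) : ℚ) := by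
        push_cast
        rw [c1, v1, q1, c1']
        linear_combination (-((d : ℚ) * m - g * n) / 16) * e1
      exact_mod_cast this

/-- an equivalence gives a solution -/
theorem ab_sol {D d d' : ℕ} (hsq : Squarefree D) (hD : D % 4 = 1) (hd : d ∣ D) (hd' : d' ∣ D)
    (h : Eqv 1 (am D d) (am D d')) : ∃ (e' : ℕ) (X Y : ℤ),
      (d / d.gcd d') * (d' / d.gcd d') * e' = D ∧
      (((d / d.gcd d') * (d' / d.gcd d') : ℕ) : ℤ) * X ^ 2 - e' * Y ^ 2 = 4 := by
  have hD0 : D ≠ 0 := by omega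
  have hd0 : d ≠ 0 := by rintro rfl; exact hD0 (zero_dvd_iff.1 hd)
  have hg : 0 < d.gcd d' := Nat.gcd_pos_of_pos_left _ (Nat.pos_of_ne_zero hd0)
  obtain ⟨g, d1, d2, hg', hcop, h1, h2⟩ := Nat.exists_coprime' hg
  have hgg : d.gcd d' = g := by
    rw [h1, h2, Nat.gcd_mul_right, hcop.gcd_eq_one, one_mul]
  rw [hgg]
  subst h1 h2
  rw [Nat.mul_div_cancel _ hg', Nat.mul_div_cancel _ hg']
  -- the lcm divides `D`
  obtain ⟨n, hn⟩ : d1 * d2 * g ∣ D := by
    have := Nat.lcm_dvd hd hd'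
    rw [Nat.lcm_mul_right, hcop.lcm_eq_mul] at this
    exact this
  have hsq1 : Squarefree (d1 * d2 * g * n) := by rw [← hn]; exact hsq
  obtain ⟨c, hc⟩ := ab_mod4 (d := d1 * g) (e := d2 * n) (by
    rw [show d1 * g * (d2 * n) = d1 * d2 * g * n by ring, ← hn]; exact hD)
  obtain ⟨c', hc'⟩ := ab_mod4 (d := d2 * g) (e := d1 * n) (by
    rw [show d2 * g * (d1 * n) = d1 * d2 * g * n by ring, ← hn]; exact hD)
  rw [am_eq (by rw [hn]; ring) hD hc, am_eq (by rw [hn]; ring) hD hc'] at h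
  obtain ⟨p, q, r, v, k1, -, k2⟩ := h
  simp only [act, ev, Prod.mk.injEq] at k2
  obtain ⟨k3, -, -⟩ := k2
  push_cast at hc hc' k3
  -- `4 g d2 = g d1 X² - d2 n Y²`
  have k4 : (d1 : ℤ) * g * (2 * p + r) ^ 2 - d2 * n * r ^ 2 = 4 * (d2 * g) := by
    linear_combination (-4) * k3 - r ^ 2 * hc
  have hcop1 : Nat.Coprime d2 (d1 * g) := by
    have h3 : Squarefree (d2 * (d1 * g)) :=
      hsq1.squarefree_of_dvd ⟨n, by ring⟩
    exact (Nat.squarefree_mul_iff.1 h3).1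
  have hcop2 : Nat.Coprime g (d2 * n) := by
    have h3 : Squarefree (g * (d2 * n)) :=
      hsq1.squarefree_of_dvd ⟨d1, by ring⟩
    exact (Nat.squarefree_mul_iff.1 h3).1
  have hs2 : Squarefree (d2 : ℤ) := Int.squarefree_natCast.2
    (hsq1.squarefree_of_dvd ⟨d1 * g * n, by ring⟩)
  have hsg : Squarefree (g : ℤ) := Int.squarefree_natCast.2
    (hsq1.squarefree_of_dvd ⟨d1 * d2 * n, by ring⟩)
  obtain ⟨X, hX⟩ : (d2 : ℤ) ∣ 2 * p + r := by
    have h3 : (d2 : ℤ) ∣ ((d1 * g : ℕ) : ℤ) * (2 * p + r) ^ 2 := by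
      refine ⟨4 * g + n * r ^ 2, ?_⟩
      push_cast
      linear_combination k4
    have h4 : (d2 : ℤ) ∣ (2 * p + r) ^ 2 :=
      (Nat.isCoprime_iff_coprime.2 hcop1).dvd_of_dvd_mul_left h3
    exact (hs2.dvd_pow_iff_dvd (by norm_num)).1 h4
  obtain ⟨Y, hY⟩ : (g : ℤ) ∣ r := by
    have h3 : (g : ℤ) ∣ ((d2 * n : ℕ) : ℤ) * r ^ 2 := by
      refine ⟨d1 * (2 * p + r) ^ 2 - 4 * d2, ?_⟩
      push_cast
      linear_combination -k4
    have h4 : (g : ℤ) ∣ r ^ 2 :=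
      (Nat.isCoprime_iff_coprime.2 hcop2).dvd_of_dvd_mul_left h3
    exact (hsg.dvd_pow_iff_dvd (by norm_num)).1 h4
  refine ⟨g * n, X, Y, by rw [hn]; ring, ?_⟩
  have hne : ((d2 : ℤ) * g) ≠ 0 := by
    have : d2 ≠ 0 := by rintro rfl; simp at hs2
    have : g ≠ 0 := hg'.ne'
    positivity
  apply mul_left_cancel₀ hne
  rw [hX, hY] at k4
  push_cast
  linear_combination k4

theorem ab_sqf {a b : ℕ} (ha : Squarefree a) (hb : Squarefree b) {x y : ℤ}
    (h0 : (a : ℤ) * x ^ 2 ≠ 0) (h : (a : ℤ) * x ^ 2 = b * y ^ 2) : a = b := by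
  have ha0 : a ≠ 0 := ha.ne_zero
  have hb0 : b ≠ 0 := hb.ne_zero
  have hx : x.natAbs ≠ 0 := by
    intro hx
    rw [Int.natAbs_eq_zero] at hx
    rw [hx] at h0
    simp at h0
  have hy : y.natAbs ≠ 0 := by
    intro hy
    rw [Int.natAbs_eq_zero] at hy
    rw [h, hy] at h0
    simp at h0
  have h1 : a * x.natAbs ^ 2 = b * y.natAbs ^ 2 := by
    zify
    rw [sq_abs, sq_abs]
    exact h
  apply Nat.eq_of_factorization_eq ha0 hb0
  intro p
  have h2 := congrArg (fun n => n.factorization p) h1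
  rw [Nat.factorization_mul ha0 (pow_ne_zero 2 hx), Nat.factorization_mul hb0 (pow_ne_zero 2 hy),
    Nat.factorization_pow, Nat.factorization_pow] at h2
  simp only [Finsupp.add_apply, Finsupp.smul_apply, smul_eq_mul] at h2
  have h3 := ha.natFactorization_le_one p
  have h4 := hb.natFactorization_le_one p
  omega

/-- the product modulo squares -/
def stp (m d : ℕ) : ℕ := (d / d.gcd m) * (m / d.gcd m)

theorem ab_star {D d m m' : ℕ} (hsq : Squarefree D) (hD : D % 4 = 1) (hd : d ∣ D)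
    (hm : m * m' = D) {x y : ℤ} (he : (m : ℤ) * x ^ 2 - m' * y ^ 2 = 4) :
    stp m d ∣ D ∧ Eqv 1 (am D d) (am D (stp m d)) := by
  have hD0 : D ≠ 0 := by omega
  have hd0 : d ≠ 0 := by rintro rfl; exact hD0 (zero_dvd_iff.1 hd)
  have hg : 0 < d.gcd m := Nat.gcd_pos_of_pos_left _ (Nat.pos_of_ne_zero hd0)
  unfold stp
  obtain ⟨g, d1, m1, hg', hcop, h1, h2⟩ := Nat.exists_coprime' hg
  have hgg : d.gcd m = g := by
    rw [h1, h2, Nat.gcd_mul_right, hcop.gcd_eq_one, one_mul]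
  rw [hgg]
  subst h1 h2
  rw [Nat.mul_div_cancel _ hg', Nat.mul_div_cancel _ hg']
  obtain ⟨n, hn⟩ : d1 * m1 * g ∣ D := by
    have := Nat.lcm_dvd hd ⟨m', hm.symm⟩
    rw [Nat.lcm_mul_right, hcop.lcm_eq_mul] at this
    exact this
  have hm' : m' = d1 * n := by
    have hne : m1 * g ≠ 0 := by
      intro h0
      rw [h0, zero_mul] at hm
      exact hD0 hm.symm
    apply Nat.eq_of_mul_eq_mul_left (Nat.pos_of_ne_zero hne)
    rw [hm, hn]; ring
  refine ⟨⟨g * n, by rw [hn]; ring⟩, ?_⟩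
  have := ab_eqv (D := D) (g := g) (d := d1) (m := m1) (n := n) (by rw [hn]; ring) hD
    (x := x) (y := y) (by
      rw [hm'] at he
      push_cast at he
      linear_combination he)
  rw [mul_comm d1 g]
  exact this

theorem ab_ne {D d m : ℕ} (hsq : Squarefree D) (hd : d ∣ D) (hm : m ∣ D) (h1 : m ≠ 1) :
    stp m d ≠ d := by
  have hD0 : D ≠ 0 := hsq.ne_zero
  have hd0 : d ≠ 0 := by rintro rfl; exact hD0 (zero_dvd_iff.1 hd)
  have hg : 0 < d.gcd m := Nat.gcd_pos_of_pos_left _ (Nat.pos_of_ne_zero hd0)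
  unfold stp
  obtain ⟨g, d1, m1, hg', hcop, e1, e2⟩ := Nat.exists_coprime' hg
  have hgg : d.gcd m = g := by
    rw [e1, e2, Nat.gcd_mul_right, hcop.gcd_eq_one, one_mul]
  rw [hgg]
  subst e1 e2
  rw [Nat.mul_div_cancel _ hg', Nat.mul_div_cancel _ hg']
  intro he
  have hd1 : 0 < d1 := Nat.pos_of_ne_zero (by rintro rfl; simp at hd0)
  have hmg : m1 = g := Nat.eq_of_mul_eq_mul_left hd1 he
  subst hmg
  have := (hsq.squarefree_of_dvd hm) m1 ⟨1, by ring⟩
  rw [Nat.isUnit_iff] at this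
  rw [this] at h1
  exact h1 rfl

theorem ab_fib {D d d0 m : ℕ} (hsq : Squarefree D) (hD : D % 4 = 1) (hd : d ∣ D) (hd0 : d0 ∣ D)
    (hm : m ∣ D)
    (hu : ∀ e e' : ℕ, e * e' = D → (∃ X Y : ℤ, (e : ℤ) * X ^ 2 - e' * Y ^ 2 = 4) → e = 1 ∨ e = m)
    (h : Eqv 1 (am D d0) (am D d)) : d = d0 ∨ d = stp m d0 := by
  obtain ⟨e', X, Y, h1, h2⟩ := ab_sol hsq hD hd0 hd h
  have h3 := hu _ e' h1 ⟨X, Y, h2⟩
  have hD0 : D ≠ 0 := by omega
  have hd00 : d0 ≠ 0 := by rintro rfl; exact hD0 (zero_dvd_iff.1 hd0)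
  have hg : 0 < d0.gcd d := Nat.gcd_pos_of_pos_left _ (Nat.pos_of_ne_zero hd00)
  obtain ⟨g, a, b, hg', hcop, e1, e2⟩ := Nat.exists_coprime' hg
  have hgg : d0.gcd d = g := by
    rw [e1, e2, Nat.gcd_mul_right, hcop.gcd_eq_one, one_mul]
  rw [hgg] at h3
  subst e1 e2
  rw [Nat.mul_div_cancel _ hg', Nat.mul_div_cancel _ hg'] at h3
  rcases h3 with h3 | h3
  · left
    have ha1 : a = 1 := Nat.dvd_one.1 ⟨b, h3.symm⟩
    have hb1 : b = 1 := Nat.dvd_one.1 ⟨a, by rw [mul_comm, h3]⟩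
    rw [ha1, hb1]
  · right
    obtain ⟨n, hn⟩ : a * b * g ∣ D := by
      have := Nat.lcm_dvd hd0 hd
      rw [Nat.lcm_mul_right, hcop.lcm_eq_mul] at this
      exact this
    have hbg : Nat.Coprime g b := by
      have h4 : Squarefree (g * b) := hsq.squarefree_of_dvd ⟨a * n, by rw [hn]; ring⟩
      exact (Nat.squarefree_mul_iff.1 h4).1
    have ha : 0 < a := Nat.pos_of_ne_zero (by rintro rfl; simp at hd00)
    have h5 : (a * g).gcd m = a := by
      rw [← h3, Nat.gcd_mul_left, hbg.gcd_eq_one, mul_one]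
    unfold stp
    rw [h5, ← h3, Nat.mul_div_cancel_left _ ha, Nat.mul_div_cancel_left _ ha, mul_comm]

theorem ab_conj {Q Q' : Fo} (h : Eqv 1 Q Q') :
    Eqv 1 (Q.1, -Q.2.1, Q.2.2) (Q'.1, -Q'.2.1, Q'.2.2) := by
  obtain ⟨a, b, c, d, h1, -, h3⟩ := h
  refine ⟨a, -b, -c, d, by linarith, one_dvd _, ?_⟩
  rw [h3]
  simp only [act, ev, Prod.mk.injEq]
  refine ⟨by ring, by ring, by ring⟩

theorem ab_inv {Q Q' : Fo} (h : Eqv 1 Q Q') (h' : Eqv 1 Q (Q.1, -Q.2.1, Q.2.2)) :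
    Eqv 1 Q' (Q'.1, -Q'.2.1, Q'.2.2) :=
  lv_trans (lv_trans (lv_symm h) h') (ab_conj h)

theorem t_AMB : S_AMB := by
  intro hPM D hsq hfm hne t u hF m hm hx
  have hD := ab_fm4 hfm
  have hns := lv_nsq hsq hne
  obtain ⟨m0, m0', x0, y0, g1, g2, g3, g4, g5, g6, g7⟩ := hPM D hsq hfm hne t u hF
  have hmm : m = m0 := by
    obtain ⟨x, hx⟩ := hx
    have hpos := hF.post
    refine ab_sqf (hsq.squarefree_of_dvd hm) (hsq.squarefree_of_dvd ⟨m0', g1.symm⟩)
      (x := x) (y := x0) ?_ ?_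
    · rw [← hx]; omega
    · rw [← hx, g3]
  rw [← hmm] at g1 g2 g3 g6 g7
  have hchi : ∀ {Q Q' : Fo}, dsc Q = D → Eqv 1 Q Q' → ∀ p ∈ D.primeFactors, chp p Q' = chp p Q :=
    fun h1 h2 p hp => (t_CHI D hsq hD _ _ h1 h2 p hp).1
  -- the class of `m`
  have h1D : Hd D 1 := by
    refine ⟨one_dvd _, ?_, ?_⟩
    · intro p _ _ _
      simp
    · intro p hp h1
      exact absurd (Nat.dvd_one.1 h1) hp.one_lt.ne'
  have hstH : ∀ d : ℕ, Hd D d → Hd D (stp m d) := by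
    intro d hd
    have h1 := ab_star hsq hD hd.1 g1 g6
    rw [← am_Hd h1.1 hD]
    intro p hp
    rw [hchi (am_dsc hd.1 hD) h1.2 p hp]
    exact (am_Hd hd.1 hD).2 hd p hp
  have hmH : Hd D m := by
    have := hstH 1 h1D
    simpa [stp] using this
  refine ⟨hmH, ?_⟩
  intro R hR
  have hex : ∀ d : ℕ, Hd D d → ∃ Q, Q ∈ R ∧ Eqv 1 (am D d) Q := by
    intro d hd
    obtain ⟨Q, hQ, -⟩ := hR.2 (am D d) (am_dsc hd.1 hD)
    exact ⟨Q, hQ⟩
  choose! f hf using hex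
  set H : Finset ℕ := D.divisors.filter (Hd D) with hH
  set T : Finset Fo := R.filter fun Q => (∀ p ∈ D.primeFactors, chp p Q = 1) ∧
    Eqv 1 Q (Q.1, -Q.2.1, Q.2.2) with hT
  have hmaps : ∀ d ∈ H, f d ∈ T := by
    intro d hd
    have hd' : Hd D d := (Finset.mem_filter.1 hd).2
    refine Finset.mem_filter.2 ⟨(hf d hd').1, ?_, ?_⟩
    · intro p hp
      rw [hchi (am_dsc hd'.1 hD) (hf d hd').2 p hp]
      exact (am_Hd hd'.1 hD).2 hd' p hp
    · exact ab_inv (hf d hd').2 (am_amb hd'.1 hD)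
  rw [Finset.card_eq_sum_card_fiberwise (f := f) (s := H) (t := T) hmaps]
  have h2 : ∀ Q ∈ T, (H.filter fun d => f d = Q).card = 2 := by
    intro Q hQ
    obtain ⟨hQR, hQ1, hQ2⟩ := Finset.mem_filter.1 hQ
    have hQD : dsc Q = D := hR.1 Q hQR
    obtain ⟨d0, hd0, he⟩ := ab_amb hD hns hQD hQ2
    have hd0H : Hd D d0 := by
      rw [← am_Hd hd0 hD]
      intro p hp
      rw [hchi hQD he p hp]
      exact hQ1 p hp
    have huniq : ∀ d : ℕ, Hd D d → Eqv 1 (am D d) Q → f d = Q := by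
      intro d hd h
      obtain ⟨Q', -, h3⟩ := hR.2 (am D d) (am_dsc hd.1 hD)
      rw [h3 (f d) (hf d hd), h3 Q ⟨hQR, h⟩]
    have hst := ab_star hsq hD hd0 g1 g6
    have heq : (H.filter fun d => f d = Q) = {d0, stp m d0} := by
      ext d
      simp only [Finset.mem_filter, Finset.mem_insert, Finset.mem_singleton, hH, Nat.mem_divisors]
      constructor
      · rintro ⟨⟨⟨hd, _⟩, hdH⟩, hfd⟩
        have h4 := (hf d hdH).2
        rw [hfd] at h4
        exact ab_fib hsq hD hd hd0 hm g7 (lv_trans (lv_symm he) (lv_symm h4))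
      · rintro (rfl | rfl)
        · exact ⟨⟨⟨hd0, by omega⟩, hd0H⟩, huniq _ hd0H (lv_symm he)⟩
        · exact ⟨⟨⟨hst.1, by omega⟩, hstH _ hd0H⟩,
            huniq _ (hstH _ hd0H) (lv_trans (lv_symm hst.2) (lv_symm he))⟩
    rw [heq, Finset.card_pair (ab_ne hsq hd0 hm g2).symm]
  rw [Finset.sum_congr rfl h2, Finset.sum_const, smul_eq_mul, mul_comm]

end

end Pool.Agent.H757_X15.CC
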