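import Pool.Agent.H757_X15.StmC

/-!
# Project X15-C, task C3: the forms and the cusps as factorizations, assembly of DIAG (helper623)
-/

set_option autoImplicit false
set_option linter.unusedVariables false

namespace Pool.Agent.H757_X15.CC

open Finset
open Pool.Agent.Y687 (SS rr mem_rr)
open Pool.Agent.H757_X15 (Symb15)
open Pool.Agent.H757_X15.DD (Fm Crit)
open Pool.Agent.H757_X15.BB (chi4 wt c2 loc dis RR pii rg S_BIL Ad)

open scoped Classical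

noncomputable section

/-! ### the assembly -/

theorem c3_WW (hA : S_C1A) (hB : S_C1B) {D : ℕ} (hs : Squarefree D) (hF : Fm D) (h1 : D ≠ 1) :
    ∑ u ∈ rr D, jacobiSym u D * NN u D = 2 * ∑ T ∈ TT D, WW D (4 * D - T) T := by
  rw [hA D hs hF h1]
  congr 1
  refine Finset.sum_congr rfl fun T hT => ?_
  rw [WW]
  refine Finset.sum_congr rfl fun α hα => ?_
  refine Finset.sum_congr rfl fun γ hγ => ?_
  congr 1
  have hT1 : T < 4 * D := Finset.mem_range.1 (Finset.mem_filter.1 hT).1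
  have h3 : α ∣ 4 * D - T := Nat.dvd_of_mem_divisors (Finset.mem_filter.1 hα).1
  have h4 : γ ∣ T := Nat.dvd_of_mem_divisors (Finset.mem_filter.1 hγ).1
  refine hB D hs hF h1 α γ (T / γ) ((4 * D - T) / α) ?_
  rw [Nat.mul_div_cancel' h3, Nat.mul_div_cancel' h4]
  omega

theorem c3_mod3 {D : ℕ} (hF : Fm D) : D % 3 = 1 := by
  unfold Fm at hF
  omega

theorem c3_mod4 {D : ℕ} (hF : Fm D) : D % 4 = 1 := by
  unfold Fm at hF
  omega

theorem c3_Ad {D : ℕ} (hF : Fm D) {b : ℤ} (hb : b % 3 = 1) : Ad (D * D) b := by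
  refine ⟨hb, Or.inr ?_⟩
  have h4 := c3_mod4 hF
  have h8 : D % 8 = 1 ∨ D % 8 = 5 := by omega
  rcases h8 with h | h <;> rw [Nat.mul_mod, h]

theorem c3_mod5 {D : ℕ} (b : ℤ) : (b : ZMod 5) = 2 * (D : ZMod 5) ↔ (5 : ℤ) ∣ 2 * (D : ℤ) - b := by
  have h := ZMod.intCast_eq_intCast_iff_dvd_sub b (2 * (D : ℤ)) 5
  push_cast at h
  exact h

theorem c3_RR {D : ℕ} (hF : Fm D) :
    ∑ T ∈ TT D, 4 * (wt (D * D) (2 * D - T) *
      (c2 D ((4 * D - T) * T) (2 * D - T) * loc D ((4 * D - T) * T))) =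
      RR D D (2 * (D : ZMod 5)) := by
  have h3 := c3_mod3 hF
  have hD1 : 1 ≤ D := by omega
  unfold RR TT
  refine Finset.sum_nbij (fun T : ℕ => 2 * (D : ℤ) - T) ?_ ?_ ?_ ?_
  · intro T hT
    rw [mem_filter, mem_range] at hT
    obtain ⟨h1, ⟨k, hk⟩, l, hl⟩ := hT
    have hM : (1 : ℤ) ≤ (D : ℤ) := by exact_mod_cast hD1
    have h1' : (T : ℤ) < 4 * (D : ℤ) := by exact_mod_cast h1
    have h2' : (0 : ℤ) < T := by
      have : 0 < T := by omega
      exact_mod_cast this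
    rw [mem_filter]
    refine ⟨?_, c3_Ad hF (by omega), ?_, ?_⟩
    · unfold rg
      rw [mem_Ioo]
      push_cast
      constructor <;> nlinarith
    · rw [c3_mod5]
      refine ⟨k, ?_⟩
      rw [hk]
      push_cast
      ring
    · unfold dis
      rw [Int.lt_toNat]
      push_cast
      nlinarith
  · intro T _ T' _ h
    have h' : 2 * (D : ℤ) - (T : ℤ) = 2 * (D : ℤ) - (T' : ℤ) := h
    omega
  · intro b hb
    rw [mem_coe, mem_filter] at hb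
    obtain ⟨-, ⟨hb3, -⟩, h5, hd⟩ := hb
    rw [c3_mod5] at h5
    unfold dis at hd
    rw [Int.lt_toNat] at hd
    push_cast at hd
    have hM : (1 : ℤ) ≤ (D : ℤ) := by exact_mod_cast hD1
    have hb1 : b < 2 * (D : ℤ) := by nlinarith
    have hb2 : -(2 * (D : ℤ)) < b := by nlinarith
    refine ⟨(2 * (D : ℤ) - b).toNat, ?_, ?_⟩
    · rw [mem_coe, mem_filter, mem_range]
      refine ⟨by omega, by omega, by omega⟩
    · change 2 * (D : ℤ) - (((2 * (D : ℤ) - b).toNat : ℕ) : ℤ) = b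
      omega
  · intro T hT
    rw [mem_filter, mem_range] at hT
    obtain ⟨h1, -, -⟩ := hT
    have h2 : dis D D (2 * (D : ℤ) - T) = (4 * D - T) * T := by
      unfold dis
      have h3 : 4 * (D : ℤ) * (D : ℤ) - (2 * (D : ℤ) - T) ^ 2 =
          (((4 * D - T) * T : ℕ) : ℤ) := by
        rw [Nat.cast_mul, Nat.cast_sub h1.le]
        push_cast
        ring
      rw [h3, Int.toNat_natCast]
    rw [h2]

theorem t_DIAGA : S_DIAGA := by
  intro hA hB hC hBIL D hs hF h1 β hβ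
  rw [c3_WW hA hB hs hF h1]
  have k1 := hBIL D D hs hF hs hF (Or.inl h1) β β (Or.inr ⟨rfl, rfl⟩) hβ hβ
  have k2 : 4 * ∑ T ∈ TT D, WW D (4 * D - T) T = RR D D (2 * (D : ZMod 5)) := by
    rw [← c3_RR hF, Finset.mul_sum]
    refine Finset.sum_congr rfl fun T hT => ?_
    rw [hC D hs hF h1 T hT]
  have k3 : -2 * (β * β) = 2 * (D : ZMod 5) := by
    rw [← sq, hβ]; ring
  rw [k3, ← k2] at k1
  rw [sq, k1]
  ring

/-! ### factorizations -/

/-- the form `(α x + β y) (γ x + δ y)` -/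
def c3_fm (α β γ δ : ℤ) : Fo := (α * γ, α * δ + β * γ, β * δ)

theorem c3_ev_fm (α β γ δ x y : ℤ) :
    ev (c3_fm α β γ δ) x y = (α * x + β * y) * (γ * x + δ * y) := by
  unfold ev c3_fm
  simp only
  ring

/-- `β` and `δ` -/
def c3_be (D u α X : ℤ) : ℤ := -((α * u + X) / D)

def c3_de (D u γ Y : ℤ) : ℤ := -((γ * u - Y) / D)

/-- the triples `(T, α, γ)` -/
def c3_Z (D : ℕ) : Finset (Σ _ : ℕ, Σ _ : ℕ, ℕ) :=
  (TT D).sigma fun T => ((4 * D - T).divisors.filter (3 ∣ ·)).sigma fun _ =>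
    T.divisors.filter (5 ∣ ·)

/-- the condition for `u` -/
def c3_cond (D u : ℕ) (z : Σ _ : ℕ, Σ _ : ℕ, ℕ) : Prop :=
  (D : ℤ) ∣ (z.2.1 : ℤ) * (u : ℤ) + ((z.1 / z.2.2 : ℕ) : ℤ) ∧
    (D : ℤ) ∣ (z.2.2 : ℤ) * (u : ℤ) - (((4 * D - z.1) / z.2.1 : ℕ) : ℤ)

/-- the summand -/
def c3_G (D u : ℕ) (z : Σ _ : ℕ, Σ _ : ℕ, ℕ) : ℤ :=
  if c3_cond D u z then ps4 z.2.1 z.2.2 (z.1 / z.2.2) ((4 * D - z.1) / z.2.1) else 0

/-- the form attached to a triple -/
def c3_Phi (D u : ℕ) (z : Σ _ : ℕ, Σ _ : ℕ, ℕ) : Fo :=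
  c3_fm z.2.1 (c3_be D u z.2.1 ((z.1 / z.2.2 : ℕ) : ℤ)) z.2.2
    (c3_de D u z.2.2 (((4 * D - z.1) / z.2.1 : ℕ) : ℤ))

/-- the forms with `b = 14` -/
def c3_F (u D : ℤ) (q : Fo) : ℤ :=
  if Fq q ∧ q.2.1 % 30 = 14 ∧ 0 < q.1 ∧ ev q u D < 0 then cQ q else 0

theorem c3_chi4_even {n : ℤ} (h : n % 2 = 0) : chi4 n = 0 := by
  unfold chi4
  rw [if_neg (by omega), if_neg (by omega)]

theorem c3_chi4_congr {m n : ℤ} (h : m % 4 = n % 4) : chi4 m = chi4 n := by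
  unfold chi4
  rw [h]

/-- the facts about a triple with nonzero summand -/
structure c3_Tr (D u : ℕ) (T α γ : ℕ) (β δ X Y : ℤ) : Prop where
  αpos : 0 < α
  γpos : 0 < γ
  Xpos : 0 < X
  Ypos : 0 < Y
  h3 : 3 ∣ α
  h5 : 5 ∣ γ
  hX : X = -((α : ℤ) * u + β * D)
  hY : Y = (γ : ℤ) * u + δ * D
  hT : (T : ℤ) = γ * X
  hS : (4 * D - T : ℤ) = α * Y
  det : (α : ℤ) * δ - β * γ = 4

theorem c3_tr {D u : ℕ} (hD : 0 < D) {z : Σ _ : ℕ, Σ _ : ℕ, ℕ} (hz : z ∈ c3_Z D) (hF : Fm D)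
    (hc : c3_cond D u z) :
    c3_Tr D u z.1 z.2.1 z.2.2 (c3_be D u z.2.1 ((z.1 / z.2.2 : ℕ) : ℤ))
      (c3_de D u z.2.2 (((4 * D - z.1) / z.2.1 : ℕ) : ℤ)) ((z.1 / z.2.2 : ℕ) : ℤ)
      (((4 * D - z.1) / z.2.1 : ℕ) : ℤ) := by
  obtain ⟨T, α, γ⟩ := z
  simp only [c3_Z, mem_sigma, TT, mem_filter, mem_range, Nat.mem_divisors] at hz
  obtain ⟨⟨hT1, hT5, hT3⟩, ⟨⟨hα, hα0⟩, hα3⟩, ⟨hγ, hγ0⟩, hγ5⟩ := hz
  unfold c3_cond at hc
  simp only at hc ⊢
  obtain ⟨hc1, hc2⟩ := hc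
  obtain ⟨X, hX⟩ := hγ
  obtain ⟨Y, hY⟩ := hα
  have hm3 := c3_mod3 hF
  have hγp : 0 < γ := Nat.pos_of_ne_zero (by rintro rfl; simp at hX; omega)
  have hαp : 0 < α := Nat.pos_of_ne_zero (by rintro rfl; simp at hY; omega)
  have hXd : T / γ = X := by rw [hX, Nat.mul_div_cancel_left _ hγp]
  have hYd : (4 * D - T) / α = Y := by rw [hY, Nat.mul_div_cancel_left _ hαp]
  rw [hXd] at hc1 ⊢
  rw [hYd] at hc2 ⊢
  have hXp : 0 < X := Nat.pos_of_ne_zero (by rintro rfl; simp at hX; omega)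
  have hYp : 0 < Y := Nat.pos_of_ne_zero (by rintro rfl; simp at hY; omega)
  have hD' : (D : ℤ) ≠ 0 := by exact_mod_cast hD.ne'
  have e1 : c3_be D u α X * D = -((α : ℤ) * u + X) := by
    unfold c3_be
    rw [neg_mul, Int.ediv_mul_cancel hc1]
  have e2 : c3_de D u γ Y * D = -((γ : ℤ) * u - Y) := by
    unfold c3_de
    rw [neg_mul, Int.ediv_mul_cancel hc2]
  have e3 : (4 * D - T : ℤ) = α * Y := by
    have : ((4 * D - T : ℕ) : ℤ) = ((α * Y : ℕ) : ℤ) := by rw [hY]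
    rw [Nat.cast_sub hT1.le] at this
    push_cast at this
    exact this
  have e4 : (T : ℤ) = γ * X := by rw [hX]; push_cast; ring
  refine ⟨hαp, hγp, by exact_mod_cast hXp, by exact_mod_cast hYp, hα3, hγ5, ?_, ?_, e4, e3, ?_⟩
  · linarith
  · linarith
  · have h4 : ((α : ℤ) * c3_de D u γ Y - c3_be D u α X * γ) * D = 4 * D := by
      have : ((α : ℤ) * c3_de D u γ Y - c3_be D u α X * γ) * D =
        α * (c3_de D u γ Y * D) - (c3_be D u α X * D) * γ := by ring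
      rw [this, e1, e2]
      have h5 : (4 * D : ℤ) = α * Y + γ * X := by linarith
      rw [h5]
      ring
    exact mul_right_cancel₀ hD' h4

/-- the form attached to a triple -/
theorem c3_tr_F {D u T α γ : ℕ} {β δ X Y : ℤ} (h : c3_Tr D u T α γ β δ X Y) :
    Fq (c3_fm α β γ δ) ∧ (c3_fm α β γ δ).2.1 % 30 = 14 ∧ 0 < (c3_fm α β γ δ).1 ∧
      ev (c3_fm α β γ δ) u D < 0 := by
  have hdet := h.det
  obtain ⟨a, ha⟩ := h.h3
  obtain ⟨g, hg⟩ := h.h5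
  have ha' : (α : ℤ) = 3 * a := by exact_mod_cast ha
  have hg' : (γ : ℤ) = 5 * g := by exact_mod_cast hg
  have hb14 : ((α : ℤ) * δ + β * γ) % 30 = 14 := by
    have h2 : ((α : ℤ) * δ + β * γ) = 4 + 2 * (β * γ) := by linarith
    have h3 : ((α : ℤ) * δ + β * γ) = 2 * (α * δ) - 4 := by linarith
    have h4 : (α : ℤ) * δ = 3 * (a * δ) := by rw [ha']; ring
    have h5 : β * (γ : ℤ) = 5 * (β * g) := by rw [hg']; ring
    omega
  refine ⟨⟨?_, ?_, Or.inl hb14⟩, hb14, ?_, ?_⟩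
  · unfold dsc c3_fm
    simp only
    have : ((α : ℤ) * δ + β * γ) ^ 2 - 4 * (α * γ * (β * δ)) = ((α : ℤ) * δ - β * γ) ^ 2 := by ring
    rw [this, hdet]
    norm_num
  · unfold c3_fm
    simp only
    exact ⟨a * g, by rw [ha', hg']; ring⟩
  · unfold c3_fm
    simp only
    have h1 : (0 : ℤ) < α := by exact_mod_cast h.αpos
    have h2 : (0 : ℤ) < γ := by exact_mod_cast h.γpos
    positivity
  · rw [c3_ev_fm]
    have h1 : (α : ℤ) * u + β * D = -X := by linarith [h.hX]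
    have h2 : (γ : ℤ) * u + δ * D = Y := h.hY.symm
    rw [h1, h2]
    have := mul_pos h.Xpos h.Ypos
    linarith

/-- the weights agree -/
theorem c3_disc {q : Fo} (h : dsc q = 16) (ha : q.1 % 2 = 0) :
    (q.2.1 % 4 = 0) ∧ (q.2.2 % 2 = 1 → q.1 % 4 = 0) := by
  obtain ⟨a, b, c⟩ := q
  simp only [dsc] at *
  obtain ⟨a', rfl⟩ : ∃ a', a = 2 * a' := ⟨a / 2, by omega⟩
  have hb2 : b % 2 = 0 := by
    rcases Int.emod_two_eq_zero_or_one b with hb | hb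
    · exact hb
    · exfalso
      obtain ⟨k, rfl⟩ : ∃ k, b = 2 * k + 1 := ⟨b / 2, by omega⟩
      have : 4 * (k ^ 2 + k) + 1 - 8 * (a' * c) = 16 := by nlinarith
      omega
  obtain ⟨b', rfl⟩ : ∃ b', b = 2 * b' := ⟨b / 2, by omega⟩
  have h1 : b' ^ 2 = 4 + 2 * (a' * c) := by nlinarith
  have hb4 : b' % 2 = 0 := by
    rcases Int.emod_two_eq_zero_or_one b' with hb | hb
    · exact hb
    · exfalso
      obtain ⟨k, rfl⟩ : ∃ k, b' = 2 * k + 1 := ⟨b' / 2, by omega⟩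
      have : 4 * (k ^ 2 + k) + 1 = 4 + 2 * (a' * c) := by nlinarith
      omega
  refine ⟨by omega, fun hc => ?_⟩
  obtain ⟨b'', rfl⟩ : ∃ b'', b' = 2 * b'' := ⟨b' / 2, by omega⟩
  obtain ⟨k, rfl⟩ : ∃ k, c = 2 * k + 1 := ⟨c / 2, by omega⟩
  have h2 : a' = 2 * (b'' ^ 2 - 1 - a' * k) := by nlinarith
  omega

theorem c3_wt {D u T α γ : ℕ} {β δ X Y : ℤ} (hD : D % 2 = 1) (h : c3_Tr D u T α γ β δ X Y) :
    cQ (c3_fm α β γ δ) = ps4 α γ X.toNat Y.toNat := by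
  obtain ⟨hF, hb, ha, he⟩ := c3_tr_F h
  have hX := h.Xpos
  have hY := h.Ypos
  have hXn : (X.toNat : ℤ) = X := Int.toNat_of_nonneg hX.le
  have hYn : (Y.toNat : ℤ) = Y := Int.toNat_of_nonneg hY.le
  have hev : ev (c3_fm α β γ δ) u D = -(X * Y) := by
    rw [c3_ev_fm]
    have h1 : (α : ℤ) * u + β * D = -X := by linarith [h.hX]
    have h2 : (γ : ℤ) * u + δ * D = Y := h.hY.symm
    rw [h1, h2]; ring
  have hev2 : ev (c3_fm α β γ δ) (u + 1) D = ((α : ℤ) - X) * (γ + Y) := by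
    rw [c3_ev_fm]
    have h1 : (α : ℤ) * (u + 1) + β * D = α - X := by linarith [h.hX]
    have h2 : (γ : ℤ) * (u + 1) + δ * D = γ + Y := by linarith [h.hY]
    rw [h1, h2]
  unfold cQ ps4
  by_cases hodd : (α * γ) % 2 = 1
  · have h1 : (c3_fm α β γ δ).1 % 2 = 1 := by
      unfold c3_fm; simp only; exact_mod_cast hodd
    rw [if_pos hodd, if_pos h1]
    unfold c3_fm; simp only; push_cast; rfl
  · have h1 : ¬ (c3_fm α β γ δ).1 % 2 = 1 := by
      unfold c3_fm; simp only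
      intro hh
      exact hodd (by exact_mod_cast hh)
    rw [if_neg hodd, if_neg h1]
    have h0 : (c3_fm α β γ δ).1 % 2 = 0 := by omega
    obtain ⟨hb4, hc4⟩ := c3_disc hF.1 h0
    obtain ⟨q, hq⟩ : ∃ q, q = c3_fm α β γ δ := ⟨_, rfl⟩
    rw [← hq] at hb4 hc4 h0 hev hev2 ⊢
    obtain ⟨a, b, c⟩ := q
    simp only at hb4 hc4 h0 ⊢
    simp only [ev] at hev hev2
    obtain ⟨a', rfl⟩ : ∃ a', a = 2 * a' := ⟨a / 2, by omega⟩
    obtain ⟨b', rfl⟩ : ∃ b', b = 4 * b' := ⟨b / 4, by omega⟩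
    obtain ⟨d, hd⟩ : ∃ d, D = 2 * d + 1 := ⟨D / 2, by omega⟩
    have hd' : (D : ℤ) = 2 * d + 1 := by exact_mod_cast hd
    by_cases hXY : (X.toNat * Y.toNat) % 2 = 1
    · rw [if_pos hXY]
      push_cast
      rw [hXn, hYn]
      have hXY' : (X * Y) % 2 = 1 := by
        rw [← hXn, ← hYn]; exact_mod_cast hXY
      have hc : c % 2 = 1 := by
        have : -(X * Y) = 2 * (a' * u ^ 2 + 2 * (b' * (u * D))) + c * (4 * (d ^ 2 + d) + 1) := by
          rw [← hev, hd']; ring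
        have h5 : c * (4 * ((d : ℤ) ^ 2 + d) + 1) = 2 * (2 * (c * (d ^ 2 + d))) + c := by ring
        omega
      have ha4 := hc4 hc
      obtain ⟨a'', rfl⟩ : ∃ a'', a' = 2 * a'' := ⟨a' / 2, by omega⟩
      apply c3_chi4_congr
      have : -(X * Y) = 4 * (a'' * u ^ 2 + b' * (u * D) + c * (d ^ 2 + d)) + c := by
        rw [← hev, hd']; ring
      rw [this]
      omega
    · rw [if_neg hXY]
      have hXY' : ¬ (X * Y) % 2 = 1 := by
        intro hh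
        rw [← hXn, ← hYn] at hh
        exact hXY (by exact_mod_cast hh)
      have hc : c % 2 = 0 := by
        have : -(X * Y) = 2 * (a' * u ^ 2 + 2 * (b' * (u * D))) + c * (4 * (d ^ 2 + d) + 1) := by
          rw [← hev, hd']; ring
        have h5 : c * (4 * ((d : ℤ) ^ 2 + d) + 1) = 2 * (2 * (c * (d ^ 2 + d))) + c := by ring
        omega
      rw [hXn, hYn, c3_chi4_even hc, ← hev2]
      refine (c3_chi4_even ?_).symm
      obtain ⟨c', rfl⟩ : ∃ c', c = 2 * c' := ⟨c / 2, by omega⟩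
      have : 2 * a' * ((u : ℤ) + 1) ^ 2 + 4 * b' * (((u : ℤ) + 1) * D) + 2 * c' * (D : ℤ) ^ 2 =
        2 * (a' * ((u : ℤ) + 1) ^ 2 + 2 * b' * (((u : ℤ) + 1) * D) + c' * (D : ℤ) ^ 2) := by ring
      omega


theorem c3_prim {q : Fo} (h : dsc q = 16) (hc : cQ q ≠ 0) {k : ℤ} (hk : Prime k) (h1 : k ∣ q.1)
    (h2 : k ∣ q.2.1) (h3 : k ∣ q.2.2) : False := by
  have h4 : k ∣ 16 := by
    rw [← h]
    unfold dsc
    exact dvd_sub (dvd_pow h2 two_ne_zero) (Dvd.dvd.mul_left (Dvd.dvd.mul_right h1 _) _)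
  have h5 : k ∣ 2 := by
    have : (16 : ℤ) = 2 ^ 4 := by norm_num
    rw [this] at h4
    exact hk.dvd_of_dvd_pow h4
  have h6 : (2 : ℤ) ∣ k := by
    have := (Int.prime_two.dvd_prime_iff_associated hk)
    rw [this]
    exact ((hk.dvd_prime_iff_associated Int.prime_two).1 h5).symm
  have e1 : q.1 % 2 = 0 := Int.emod_eq_zero_of_dvd (h6.trans h1)
  have e3 : q.2.2 % 2 = 0 := Int.emod_eq_zero_of_dvd (h6.trans h3)
  apply hc
  unfold cQ
  rw [if_neg (by omega), c3_chi4_even e3]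

theorem c3_copr {α β γ δ : ℤ} (h : dsc (c3_fm α β γ δ) = 16) (hc : cQ (c3_fm α β γ δ) ≠ 0) :
    IsCoprime α β := by
  rw [Int.isCoprime_iff_gcd_eq_one]
  by_contra hne
  obtain ⟨k, hk, hkd⟩ := Nat.exists_prime_and_dvd hne
  have hk' : Prime (k : ℤ) := Nat.prime_iff_prime_int.1 hk
  have h1 : (k : ℤ) ∣ α := (Int.natCast_dvd_natCast.2 hkd).trans (Int.gcd_dvd_left _ _)
  have h2 : (k : ℤ) ∣ β := (Int.natCast_dvd_natCast.2 hkd).trans (Int.gcd_dvd_right _ _)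
  refine c3_prim h hc hk' ?_ ?_ ?_
  · exact Dvd.dvd.mul_right h1 _
  · exact dvd_add (Dvd.dvd.mul_right h1 _) (Dvd.dvd.mul_right h2 _)
  · exact Dvd.dvd.mul_right h2 _

/-- uniqueness of the factorization -/
theorem c3_uniq {α β γ δ α' β' γ' δ' : ℤ} (hα : 0 < α) (hγ : 0 < γ) (hα' : 0 < α') (hγ' : 0 < γ')
    (hd : α * δ - β * γ = 4) (hd' : α' * δ' - β' * γ' = 4)
    (h : c3_fm α β γ δ = c3_fm α' β' γ' δ') (h1 : dsc (c3_fm α β γ δ) = 16)
    (hc : cQ (c3_fm α β γ δ) ≠ 0) : α = α' ∧ β = β' ∧ γ = γ' ∧ δ = δ' := by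
  have c1 := c3_copr h1 hc
  have c2 : IsCoprime α' β' := c3_copr (by rw [← h]; exact h1) (by rw [← h]; exact hc)
  unfold c3_fm at h
  rw [Prod.mk.injEq, Prod.mk.injEq] at h
  obtain ⟨e1, e2, e3⟩ := h
  have e4 : β * γ = β' * γ' := by linarith
  have e5 : α * δ = α' * δ' := by linarith
  have e6 : α * β' = α' * β := by
    have : (γ * γ') * (α * β') = (γ * γ') * (α' * β) := by
      calc (γ * γ') * (α * β') = (α * γ) * (β' * γ') := by ring
        _ = (α' * γ') * (β * γ) := by rw [e1, e4]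
        _ = _ := by ring
    exact mul_left_cancel₀ (mul_pos hγ hγ').ne' this
  have e7 : α = α' := by
    have d1 : α ∣ α' := c1.dvd_of_dvd_mul_right (Dvd.intro _ e6)
    have d2 : α' ∣ α := c2.dvd_of_dvd_mul_right (Dvd.intro _ e6.symm)
    exact Int.dvd_antisymm hα.le hα'.le d1 d2
  subst e7
  have e8 : γ = γ' := mul_left_cancel₀ hα.ne' e1
  subst e8
  exact ⟨rfl, mul_right_cancel₀ hγ.ne' e4, rfl, mul_left_cancel₀ hα.ne' e5⟩

/-- existence of the factorization -/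
theorem c3_exist {q : Fo} (hq : Fq q) (hb : q.2.1 % 30 = 14) (ha : 0 < q.1) (hc : cQ q ≠ 0) :
    ∃ (α γ : ℕ) (β δ : ℤ), 0 < α ∧ 0 < γ ∧ 3 ∣ α ∧ 5 ∣ γ ∧ (α : ℤ) * δ - β * γ = 4 ∧
      q = c3_fm α β γ δ := by
  obtain ⟨hd, h15, -⟩ := hq
  have hprim := fun (k : ℤ) (hk : Prime k) => c3_prim hd hc (k := k) hk
  obtain ⟨a, b, c⟩ := q
  simp only [dsc] at hd hprim hb ha h15
  obtain ⟨e, rfl⟩ : ∃ e, b = 30 * e + 14 := ⟨b / 30, by omega⟩
  obtain ⟨a0, rfl⟩ := h15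
  -- `b₁ = 15 e + 9`, `b₂ = 15 e + 5`
  have hac : (15 * a0) * c = (15 * e + 9) * (15 * e + 5) := by nlinarith
  obtain ⟨g, hg⟩ : ∃ g, g = Int.gcd (15 * a0) (15 * e + 5) := ⟨_, rfl⟩
  have hgpos : 0 < g := by
    rw [hg]
    exact Int.gcd_pos_of_ne_zero_left _ ha.ne'
  have hg' : (g : ℤ) ≠ 0 := by exact_mod_cast hgpos.ne'
  have hgpos' : (0 : ℤ) < g := by exact_mod_cast hgpos
  have hgd1 : (g : ℤ) ∣ 15 * a0 := by rw [hg]; exact Int.gcd_dvd_left _ _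
  have hgd2 : (g : ℤ) ∣ 15 * e + 5 := by rw [hg]; exact Int.gcd_dvd_right _ _
  obtain ⟨A, hA⟩ := hgd1
  obtain ⟨β, hβ⟩ := hgd2
  have hA0 : 0 < A := by
    have : 0 < (g : ℤ) * A := by rw [← hA]; exact ha
    exact (mul_pos_iff_of_pos_left hgpos').1 this
  have hcop : IsCoprime A β := by
    have h1 : Int.gcd ((g : ℤ) * A) ((g : ℤ) * β) = g * Int.gcd A β := by
      rw [Int.gcd_mul_left]
      simp
    rw [← hA, ← hβ, ← hg] at h1
    rw [Int.isCoprime_iff_gcd_eq_one]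
    have h2 : g * 1 = g * Int.gcd A β := by omega
    exact (Nat.eq_of_mul_eq_mul_left hgpos h2).symm
  have h1 : A * c = (15 * e + 9) * β := by
    have : (g : ℤ) * (A * c) = (g : ℤ) * ((15 * e + 9) * β) := by
      calc (g : ℤ) * (A * c) = ((g : ℤ) * A) * c := by ring
        _ = (15 * e + 9) * (15 * e + 5) := by rw [← hA]; exact hac
        _ = _ := by rw [hβ]; ring
    exact mul_left_cancel₀ hg' this
  have h2 : A ∣ 15 * e + 9 := hcop.dvd_of_dvd_mul_right (Dvd.intro _ h1)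
  obtain ⟨δ, hδ⟩ := h2
  have h3 : c = δ * β := by
    have : A * c = A * (δ * β) := by rw [h1, hδ]; ring
    exact mul_left_cancel₀ hA0.ne' this
  have h5g : (5 : ℤ) ∣ g := by
    rw [hg]
    exact Int.dvd_coe_gcd (by omega) (by omega)
  have h3A : (3 : ℤ) ∣ A := by
    have h3g : IsCoprime (3 : ℤ) g := by
      rw [Int.isCoprime_iff_gcd_eq_one]
      have hp : Nat.Prime 3 := by norm_num
      have h4 : Int.gcd 3 g = 1 ∨ Int.gcd 3 g = 3 := by
        have : Int.gcd 3 (g : ℤ) ∣ 3 := by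
          have := Int.gcd_dvd_left (3 : ℤ) (g : ℤ)
          exact_mod_cast this
        exact (Nat.dvd_prime hp).1 this
      rcases h4 with h4 | h4
      · exact h4
      · exfalso
        have h5 : ((3 : ℕ) : ℤ) ∣ (g : ℤ) := by
          rw [← h4]; exact Int.gcd_dvd_right _ _
        have h6 : (3 : ℤ) ∣ 15 * e + 5 := by
          rw [hβ]; exact Dvd.dvd.mul_right (by exact_mod_cast h5) _
        omega
    exact h3g.dvd_of_dvd_mul_left (by rw [← hA]; omega)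
  refine ⟨A.toNat, g, β, δ, by omega, hgpos, by omega, by omega, ?_, ?_⟩
  · rw [Int.toNat_of_nonneg hA0.le, ← hδ, mul_comm β, ← hβ]
    ring
  · unfold c3_fm
    rw [Int.toNat_of_nonneg hA0.le, ← hδ, mul_comm β (g : ℤ), ← hβ, Prod.mk.injEq, Prod.mk.injEq]
    refine ⟨by rw [hA]; ring, by ring, by rw [h3]; ring⟩

theorem c3_main {D u : ℕ} (hD : 0 < D) (hF : Fm D) :
    (Function.support (c3_F u D)).Finite ∧
    ∑ᶠ q : Fo, c3_F u D q = ∑ z ∈ c3_Z D, c3_G D u z := by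
  have hD2 : D % 2 = 1 := by have := c3_mod4 hF; omega
  -- triples with nonzero summand
  have hG : ∀ z ∈ (c3_Z D).filter (fun z => c3_G D u z ≠ 0),
      c3_Tr D u z.1 z.2.1 z.2.2 (c3_be D u z.2.1 ((z.1 / z.2.2 : ℕ) : ℤ))
      (c3_de D u z.2.2 (((4 * D - z.1) / z.2.1 : ℕ) : ℤ)) ((z.1 / z.2.2 : ℕ) : ℤ)
      (((4 * D - z.1) / z.2.1 : ℕ) : ℤ) ∧ c3_F u D (c3_Phi D u z) = c3_G D u z ∧
      dsc (c3_Phi D u z) = 16 ∧ cQ (c3_Phi D u z) ≠ 0 := by
    intro z hz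
    rw [mem_filter] at hz
    obtain ⟨hz1, hz2⟩ := hz
    have hc : c3_cond D u z := by
      by_contra hc
      apply hz2
      unfold c3_G
      rw [if_neg hc]
    have tr := c3_tr hD hz1 hF hc
    have hF' := c3_tr_F tr
    have hw := c3_wt hD2 tr
    rw [Int.toNat_natCast, Int.toNat_natCast] at hw
    have e1 : c3_F u D (c3_Phi D u z) = c3_G D u z := by
      unfold c3_F c3_G c3_Phi
      rw [if_pos hF', if_pos hc]
      exact hw
    refine ⟨tr, e1, hF'.1.1, ?_⟩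
    intro h0
    apply hz2
    rw [← e1]
    unfold c3_F
    rw [h0]
    simp
  have hsub : Function.support (c3_F u D) ⊆
      ↑(((c3_Z D).filter (fun z => c3_G D u z ≠ 0)).image (c3_Phi D u)) := by
    intro q hq
    rw [Function.mem_support] at hq
    have hcond : Fq q ∧ q.2.1 % 30 = 14 ∧ 0 < q.1 ∧ ev q u D < 0 := by
      by_contra hcon
      apply hq
      unfold c3_F
      rw [if_neg hcon]
    have hcQ : cQ q ≠ 0 := by
      intro h0
      apply hq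
      unfold c3_F
      rw [if_pos hcond, h0]
    obtain ⟨h1, h2, h3, h4⟩ := hcond
    obtain ⟨α, γ, β, δ, hα, hγ, h3α, h5γ, hdet, hqe⟩ := c3_exist h1 h2 h3 hcQ
    rw [hqe, c3_ev_fm] at h4
    have hDp : (0 : ℤ) < D := by exact_mod_cast hD
    have hα' : (0 : ℤ) < α := by exact_mod_cast hα
    have hγ' : (0 : ℤ) < γ := by exact_mod_cast hγ
    obtain ⟨X, hX⟩ : ∃ X : ℤ, X = -((α : ℤ) * u + β * D) := ⟨_, rfl⟩
    obtain ⟨Y, hY⟩ : ∃ Y : ℤ, Y = (γ : ℤ) * u + δ * D := ⟨_, rfl⟩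
    have hXY : 0 < X * Y := by
      rw [hX, hY]
      nlinarith
    have hsum : (α : ℤ) * Y + γ * X = 4 * D := by
      rw [hX, hY]
      linear_combination (D : ℤ) * hdet
    have hXpos : 0 < X := by
      by_contra hneg
      push Not at hneg
      have hX0 : X < 0 := lt_of_le_of_ne hneg (by rintro rfl; simp at hXY)
      have hY0 : Y < 0 := by
        by_contra hY1
        push Not at hY1
        nlinarith
      nlinarith [mul_neg_of_pos_of_neg hα' hY0, mul_neg_of_pos_of_neg hγ' hX0]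
    have hYpos : 0 < Y := (mul_pos_iff_of_pos_left hXpos).1 hXY
    obtain ⟨x, rfl⟩ : ∃ x : ℕ, X = x := ⟨X.toNat, (Int.toNat_of_nonneg hXpos.le).symm⟩
    obtain ⟨y, rfl⟩ : ∃ y : ℕ, Y = y := ⟨Y.toNat, (Int.toNat_of_nonneg hYpos.le).symm⟩
    have hx : 0 < x := by exact_mod_cast hXpos
    have hy : 0 < y := by exact_mod_cast hYpos
    have hsum' : α * y + γ * x = 4 * D := by exact_mod_cast hsum
    have hαy : 0 < α * y := Nat.mul_pos hα hy
    have hγx : 0 < γ * x := Nat.mul_pos hγ hx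
    have hS : 4 * D - γ * x = α * y := by omega
    have hx1 : γ * x / γ = x := Nat.mul_div_cancel_left _ hγ
    have hy1 : α * y / α = y := Nat.mul_div_cancel_left _ hα
    have hzmem : (⟨γ * x, α, γ⟩ : Σ _ : ℕ, Σ _ : ℕ, ℕ) ∈ c3_Z D := by
      simp only [c3_Z, mem_sigma, TT, mem_filter, mem_range, Nat.mem_divisors]
      rw [hS]
      refine ⟨⟨by omega, Dvd.dvd.mul_right h5γ _, Dvd.dvd.mul_right h3α _⟩,
        ⟨⟨Dvd.intro _ rfl, hαy.ne'⟩, h3α⟩, ⟨Dvd.intro _ rfl, hγx.ne'⟩, h5γ⟩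
    have hcnd : c3_cond D u ⟨γ * x, α, γ⟩ := by
      unfold c3_cond
      simp only
      rw [hS, hx1, hy1]
      exact ⟨⟨-β, by linarith⟩, ⟨-δ, by linarith⟩⟩
    have hbe : c3_be D u α x = β := by
      unfold c3_be
      have : (α : ℤ) * u + x = D * (-β) := by linarith
      rw [this, Int.mul_ediv_cancel_left _ hDp.ne', neg_neg]
    have hde : c3_de D u γ y = δ := by
      unfold c3_de
      have : (γ : ℤ) * u - y = D * (-δ) := by linarith
      rw [this, Int.mul_ediv_cancel_left _ hDp.ne', neg_neg]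
    have hPhi : c3_Phi D u ⟨γ * x, α, γ⟩ = q := by
      unfold c3_Phi
      simp only
      rw [hS, hx1, hy1, hbe, hde, hqe]
    have tr := c3_tr hD hzmem hF hcnd
    have hw := c3_wt hD2 tr
    rw [Int.toNat_natCast, Int.toNat_natCast] at hw
    rw [Finset.coe_image]
    refine ⟨⟨γ * x, α, γ⟩, ?_, hPhi⟩
    rw [mem_coe, mem_filter]
    refine ⟨hzmem, ?_⟩
    unfold c3_G
    rw [if_pos hcnd, ← hw]
    have e9 : c3_fm ((⟨γ * x, α, γ⟩ : Σ _ : ℕ, Σ _ : ℕ, ℕ).2.1 : ℤ) (c3_be D u (⟨γ * x, α, γ⟩ : Σ _ : ℕ, Σ _ : ℕ, ℕ).2.1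
        (((⟨γ * x, α, γ⟩ : Σ _ : ℕ, Σ _ : ℕ, ℕ).1 / (⟨γ * x, α, γ⟩ : Σ _ : ℕ, Σ _ : ℕ, ℕ).2.2 : ℕ) : ℤ))
        ((⟨γ * x, α, γ⟩ : Σ _ : ℕ, Σ _ : ℕ, ℕ).2.2 : ℤ)
        (c3_de D u (⟨γ * x, α, γ⟩ : Σ _ : ℕ, Σ _ : ℕ, ℕ).2.2
        (((4 * D - (⟨γ * x, α, γ⟩ : Σ _ : ℕ, Σ _ : ℕ, ℕ).1) / (⟨γ * x, α, γ⟩ : Σ _ : ℕ, Σ _ : ℕ, ℕ).2.1 : ℕ) : ℤ)) =
        q := hPhi
    rw [e9]
    exact hcQ
  refine ⟨(Finset.finite_toSet _).subset hsub, ?_⟩
  rw [finsum_eq_sum_of_support_subset _ hsub, Finset.sum_image]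
  · have e0 : ∑ z ∈ c3_Z D, c3_G D u z =
        ∑ z ∈ (c3_Z D).filter (fun z => c3_G D u z ≠ 0), c3_G D u z :=
      (Finset.sum_filter_ne_zero _).symm
    rw [e0]
    exact Finset.sum_congr rfl fun z hz => (hG z hz).2.1
  · intro z hz z' hz' heq
    obtain ⟨t1, -, d1, n1⟩ := hG z hz
    obtain ⟨t2, -, d2, n2⟩ := hG z' hz'
    obtain ⟨k1, k2, k3, k4⟩ := c3_uniq (by exact_mod_cast t1.αpos) (by exact_mod_cast t1.γpos)
      (by exact_mod_cast t2.αpos) (by exact_mod_cast t2.γpos) t1.det t2.det heq d1 n1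
    have hT : z.1 = z'.1 := by
      have e1 := t1.hT
      have e2 := t2.hT
      have e3 := t1.hX
      have e4 := t2.hX
      rw [k2, k1] at e3
      rw [k3, e3.trans e4.symm, ← e2] at e1
      exact_mod_cast e1
    have hα : z.2.1 = z'.2.1 := by exact_mod_cast k1
    have hγ : z.2.2 = z'.2.2 := by exact_mod_cast k3
    obtain ⟨T, α, γ⟩ := z
    obtain ⟨T', α', γ'⟩ := z'
    simp only at hT hα hγ
    subst hT hα hγ
    rfl


/-! ### the other half of the forms -/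

/-- the forms with `b = 16` -/
def c3_F' (u D : ℤ) (q : Fo) : ℤ :=
  if Fq q ∧ q.2.1 % 30 = 16 ∧ 0 < q.1 ∧ ev q u D < 0 then cQ q else 0

/-- the substitution `(x, y) ↦ (y - x, y)` -/
def c3_inv (q : Fo) : Fo := (q.1, -(2 * q.1 + q.2.1), q.1 + q.2.1 + q.2.2)

theorem c3_inv_inv : Function.Involutive c3_inv := by
  rintro ⟨a, b, c⟩
  unfold c3_inv
  simp only [Prod.mk.injEq, true_and]
  constructor <;> ring

theorem c3_cQ_inv {q : Fo} (h : dsc q = 16) : cQ (c3_inv q) = cQ q := by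
  unfold cQ
  by_cases ha : q.1 % 2 = 1
  · rw [if_pos ha, if_pos (show (c3_inv q).1 % 2 = 1 from ha)]
    rfl
  · rw [if_neg ha, if_neg (show ¬ (c3_inv q).1 % 2 = 1 from ha)]
    obtain ⟨h1, h2⟩ := c3_disc h (by omega)
    change chi4 (q.1 + q.2.1 + q.2.2) = chi4 q.2.2
    by_cases hc : q.2.2 % 2 = 1
    · have h3 := h2 hc
      apply c3_chi4_congr
      omega
    · rw [c3_chi4_even (by omega), c3_chi4_even (by omega)]

theorem c3_dsc_inv (q : Fo) : dsc (c3_inv q) = dsc q := by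
  unfold dsc c3_inv
  simp only
  ring

theorem c3_F'_eq (u D : ℤ) (q : Fo) : c3_F' (D - u) D q = c3_F u D (c3_inv q) := by
  unfold c3_F' c3_F
  have hev : ev (c3_inv q) u D = ev q (D - u) D := by
    unfold ev c3_inv
    simp only
    ring
  have hiff : (Fq q ∧ q.2.1 % 30 = 16 ∧ 0 < q.1 ∧ ev q (D - u) D < 0) ↔
      (Fq (c3_inv q) ∧ (c3_inv q).2.1 % 30 = 14 ∧ 0 < (c3_inv q).1 ∧ ev (c3_inv q) u D < 0) := by
    rw [hev]
    unfold Fq
    rw [c3_dsc_inv]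
    change (_ ∧ _ ∧ _ ∧ _) ↔ ((_ ∧ 15 ∣ q.1 ∧ ((-(2 * q.1 + q.2.1)) % 30 = 14 ∨
      (-(2 * q.1 + q.2.1)) % 30 = 16)) ∧ (-(2 * q.1 + q.2.1)) % 30 = 14 ∧ 0 < q.1 ∧ _)
    constructor
    · rintro ⟨⟨h1, h2, h3⟩, h4, h5, h6⟩
      have : (-(2 * q.1 + q.2.1)) % 30 = 14 := by omega
      exact ⟨⟨h1, h2, Or.inl this⟩, this, h5, h6⟩
    · rintro ⟨⟨h1, h2, h3⟩, h4, h5, h6⟩
      have : q.2.1 % 30 = 16 := by omega
      exact ⟨⟨h1, h2, Or.inr this⟩, this, h5, h6⟩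
  by_cases hc : Fq q ∧ q.2.1 % 30 = 16 ∧ 0 < q.1 ∧ ev q (D - u) D < 0
  · rw [if_pos hc, if_pos (hiff.1 hc), c3_cQ_inv hc.1.1]
  · rw [if_neg hc, if_neg (fun h => hc (hiff.2 h))]

theorem c3_NN {D u : ℕ} (hD : 0 < D) (hF : Fm D) (hu : u < D) :
    NN u D = ∑ z ∈ c3_Z D, c3_G D u z + ∑ z ∈ c3_Z D, c3_G D (D - u) z := by
  obtain ⟨f1, m1⟩ := c3_main (u := u) hD hF
  obtain ⟨f2, m2⟩ := c3_main (u := D - u) hD hF
  rw [← m1, ← m2]
  have e1 : ∀ q, c3_F' u D q = c3_F ((D - u : ℕ) : ℤ) D (c3_inv q) := by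
    intro q
    rw [← c3_F'_eq]
    congr 1
    rw [Nat.cast_sub hu.le]
    ring
  have e2 : ∑ᶠ q : Fo, c3_F' u D q = ∑ᶠ q : Fo, c3_F ((D - u : ℕ) : ℤ) D q := by
    rw [finsum_congr e1]
    exact finsum_comp_equiv c3_inv_inv.toPerm
  have f3 : (Function.support (c3_F' u D)).Finite := by
    have : Function.support (c3_F' u D) = c3_inv ⁻¹' Function.support (c3_F ((D - u : ℕ) : ℤ) D) := by
      ext q
      rw [Set.mem_preimage, Function.mem_support, Function.mem_support, e1]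
    rw [this]
    exact f2.preimage c3_inv_inv.injective.injOn
  rw [← e2, ← finsum_add_distrib f1 f3]
  unfold NN
  refine finsum_congr fun q => ?_
  unfold c3_F c3_F'
  by_cases hq : Fq q ∧ 0 < q.1 ∧ ev q u D < 0
  · rw [if_pos hq]
    obtain ⟨h1, h2, h3⟩ := hq
    rcases h1.2.2 with h4 | h4
    · rw [if_pos ⟨h1, h4, h2, h3⟩, if_neg (by rintro ⟨-, h5, -⟩; omega), add_zero]
    · rw [if_neg (by rintro ⟨-, h5, -⟩; omega), if_pos ⟨h1, h4, h2, h3⟩, zero_add]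
  · rw [if_neg hq, if_neg (fun h => hq ⟨h.1, h.2.2.1, h.2.2.2⟩),
      if_neg (fun h => hq ⟨h.1, h.2.2.1, h.2.2.2⟩), add_zero]

theorem c3_rr_pos {D u : ℕ} (h1 : D ≠ 1) (hu : u ∈ rr D) : 0 < u := by
  rw [mem_rr] at hu
  rcases Nat.eq_zero_or_pos u with h | h
  · exfalso
    rw [h, Nat.coprime_zero_left] at hu
    exact h1 hu.2
  · exact h

theorem c3_rr_sub {D u : ℕ} (h1 : D ≠ 1) (hu : u ∈ rr D) : D - u ∈ rr D := by
  have h0 := c3_rr_pos h1 hu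
  rw [mem_rr] at hu ⊢
  refine ⟨by omega, ?_⟩
  rw [Nat.coprime_comm]
  exact (Nat.coprime_self_sub_right hu.1.le).2 hu.2.symm

theorem c3_jac {D u : ℕ} (hF : Fm D) (hu : u < D) :
    jacobiSym ((D - u : ℕ) : ℤ) D = jacobiSym u D := by
  have h4 := c3_mod4 hF
  have hodd : Odd D := by rw [Nat.odd_iff]; omega
  rw [Nat.cast_sub hu.le]
  have e1 : jacobiSym ((D : ℤ) - u) D = jacobiSym (-1 * u) D := by
    apply jacobiSym.mod_left'
    rw [show -1 * (u : ℤ) = ((D : ℤ) - u) - D by ring, Int.sub_emod_right]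
  rw [e1, jacobiSym.mul_left, jacobiSym.at_neg_one hodd, ZMod.χ₄_nat_one_mod_four h4, one_mul]

theorem t_C1A : S_C1A := by
  intro D hs hF h1
  have hD : 0 < D := by have := c3_mod4 hF; omega
  have k1 : ∑ u ∈ rr D, jacobiSym u D * NN u D =
      ∑ u ∈ rr D, jacobiSym u D * ∑ z ∈ c3_Z D, c3_G D u z +
      ∑ u ∈ rr D, jacobiSym u D * ∑ z ∈ c3_Z D, c3_G D (D - u) z := by
    rw [← Finset.sum_add_distrib]
    refine Finset.sum_congr rfl fun u hu => ?_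
    rw [c3_NN hD hF (mem_rr.1 hu).1, mul_add]
  have k2 : ∑ u ∈ rr D, jacobiSym u D * ∑ z ∈ c3_Z D, c3_G D (D - u) z =
      ∑ u ∈ rr D, jacobiSym u D * ∑ z ∈ c3_Z D, c3_G D u z := by
    refine Finset.sum_nbij' (fun u => D - u) (fun u => D - u) (fun u hu => c3_rr_sub h1 hu)
      (fun u hu => c3_rr_sub h1 hu) ?_ ?_ ?_
    · intro u hu
      have := (mem_rr.1 hu).1
      omega
    · intro u hu
      have := (mem_rr.1 hu).1
      omega
    · intro u hu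
      rw [c3_jac hF (mem_rr.1 hu).1]
  rw [k1, k2, ← two_mul]
  congr 1
  -- exchange the sums
  have k3 : ∀ u ∈ rr D, jacobiSym u D * ∑ z ∈ c3_Z D, c3_G D u z =
      ∑ z ∈ c3_Z D, ps4 z.2.1 z.2.2 (z.1 / z.2.2) ((4 * D - z.1) / z.2.1) *
        (if c3_cond D u z then jacobiSym u D else 0) := by
    intro u _
    rw [Finset.mul_sum]
    refine Finset.sum_congr rfl fun z _ => ?_
    unfold c3_G
    split_ifs
    · ring
    · ring
  rw [Finset.sum_congr rfl k3, Finset.sum_comm]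
  have k4 : ∀ z ∈ c3_Z D, ∑ u ∈ rr D, ps4 z.2.1 z.2.2 (z.1 / z.2.2) ((4 * D - z.1) / z.2.1) *
        (if c3_cond D u z then jacobiSym u D else 0) =
      ps4 z.2.1 z.2.2 (z.1 / z.2.2) ((4 * D - z.1) / z.2.1) *
        ∑ u ∈ (rr D).filter (fun u : ℕ => c3_cond D u z), jacobiSym u D := by
    intro z _
    rw [← Finset.mul_sum, Finset.sum_filter]
  rw [Finset.sum_congr rfl k4]
  unfold c3_Z
  rw [Finset.sum_sigma]
  refine Finset.sum_congr rfl fun T _ => ?_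
  rw [Finset.sum_sigma]
  refine Finset.sum_congr rfl fun α _ => ?_
  refine Finset.sum_congr rfl fun γ _ => ?_
  congr 1
  refine Finset.sum_congr ?_ fun _ _ => rfl
  ext u
  simp only [mem_filter, c3_cond]


end

end Pool.Agent.H757_X15.CC
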