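import Pool.Agent.H757_X15.StmC

/-!
# X15-C11 (GENUS): the sum over the divisors as a sum over two genera
-/

set_option autoImplicit false
set_option linter.unusedVariables false

namespace Pool.Agent.H757_X15.CC

open Finset
open Pool.Agent.H757_X15.DD (Fm Crit)
open Pool.Agent.H757_X15.BB (chi4 wt c2 loc dis RR pii rg S_BIL)

open scoped Classical

namespace GENaux

/-! ### equivalence -/

theorem act_act (q : Fo) (a b c d a' b' c' d' : ℤ) :
    act (act q a b c d) a' b' c' d' =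
      act q (a * a' + b * c') (a * b' + b * d') (c * a' + d * c') (c * b' + d * d') := by
  simp only [act, ev]
  refine Prod.ext ?_ (Prod.ext ?_ ?_) <;> dsimp only <;> ring

theorem act_one (q : Fo) : act q 1 0 0 1 = q := by
  simp only [act, ev]
  refine Prod.ext ?_ (Prod.ext ?_ ?_) <;> dsimp only <;> ring

theorem dsc_act (q : Fo) (a b c d : ℤ) : dsc (act q a b c d) = (a * d - b * c) ^ 2 * dsc q := by
  simp only [act, ev, dsc]
  ring

theorem eqv_refl (N : ℤ) (Q : Fo) : Eqv N Q Q :=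
  ⟨1, 0, 0, 1, by norm_num, dvd_zero _, (act_one Q).symm⟩

theorem eqv_symm {N : ℤ} {Q Q' : Fo} (h : Eqv N Q Q') : Eqv N Q' Q := by
  obtain ⟨a, b, c, d, h1, h2, rfl⟩ := h
  refine ⟨d, -b, -c, a, by linarith, (dvd_neg).2 h2, ?_⟩
  rw [act_act]
  have e1 : a * d + b * -c = 1 := by linarith
  have e2 : a * -b + b * a = 0 := by ring
  have e3 : c * d + d * -c = 0 := by ring
  have e4 : c * -b + d * a = 1 := by linarith
  rw [e1, e2, e3, e4, act_one]

theorem eqv_trans {N : ℤ} {Q Q' Q'' : Fo} (h : Eqv N Q Q') (h' : Eqv N Q' Q'') : Eqv N Q Q'' := by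
  obtain ⟨a, b, c, d, h1, h2, rfl⟩ := h
  obtain ⟨a', b', c', d', h1', h2', rfl⟩ := h'
  refine ⟨a * a' + b * c', a * b' + b * d', c * a' + d * c', c * b' + d * d', ?_, ?_, act_act _ _ _ _ _ _ _ _ _⟩
  · have : (a * a' + b * c') * (c * b' + d * d') - (a * b' + b * d') * (c * a' + d * c') =
        (a * d - b * c) * (a' * d' - b' * c') := by ring
    rw [this, h1, h1', one_mul]
  · exact dvd_add (h2.mul_right _) (h2'.mul_left _)

/-- an involution of the classes does not change the sum of a class function -/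
theorem sum_rep {N : ℤ} {S : Set Fo} {R : Finset Fo} (hR : IsRep N S R) (σ : Fo → Fo)
    (hS : ∀ Q ∈ S, σ Q ∈ S) (hE : ∀ Q ∈ S, ∀ Q', Eqv N Q Q' → Eqv N (σ Q) (σ Q'))
    (hI : ∀ Q ∈ S, σ (σ Q) = Q) (f : Fo → ℤ) (hf : ∀ Q ∈ S, ∀ Q', Eqv N Q Q' → f Q' = f Q) :
    ∑ Q ∈ R, f (σ Q) = ∑ Q ∈ R, f Q := by
  have hex : ∀ Q : Fo, ∃ Q', Q ∈ S → (Q' ∈ R ∧ Eqv N Q Q') := by
    intro Q
    by_cases h : Q ∈ S
    · obtain ⟨Q', h1, _⟩ := hR.2 Q h
      exact ⟨Q', fun _ => h1⟩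
    · exact ⟨Q, fun h' => absurd h' h⟩
  choose π hπ using hex
  have huniq : ∀ Q ∈ S, ∀ Q' ∈ R, Eqv N Q Q' → Q' = π Q := by
    intro Q hQ Q' hQ' he
    obtain ⟨Q₀, h1, h2⟩ := hR.2 Q hQ
    rw [h2 Q' ⟨hQ', he⟩, h2 (π Q) (hπ Q hQ)]
  have hinv : ∀ Q ∈ R, π (σ (π (σ Q))) = Q := by
    intro Q hQ
    have hQS := hR.1 Q hQ
    obtain ⟨h1, h2⟩ := hπ (σ Q) (hS Q hQS)
    have h3 : Eqv N (σ (σ Q)) (σ (π (σ Q))) := hE _ (hS Q hQS) _ h2
    rw [hI Q hQS] at h3
    exact (huniq _ (hS _ (hR.1 _ h1)) Q hQ (eqv_symm h3)).symm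
  refine Finset.sum_nbij' (fun Q => π (σ Q)) (fun Q => π (σ Q)) ?_ ?_ ?_ ?_ ?_
  · intro Q hQ
    exact (hπ _ (hS Q (hR.1 Q hQ))).1
  · intro Q hQ
    exact (hπ _ (hS Q (hR.1 Q hQ))).1
  · intro Q hQ
    exact hinv Q hQ
  · intro Q hQ
    exact hinv Q hQ
  · intro Q hQ
    exact (hf _ (hS Q (hR.1 Q hQ)) _ (hπ _ (hS Q (hR.1 Q hQ))).2).symm

/-! ### the two involutions -/

/-- the first involution -/
def s1 (Q : Fo) : Fo := (-Q.1, Q.2.1, -Q.2.2)

/-- the second involution -/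
def s2 (Q : Fo) : Fo := (15 * Q.2.2, Q.2.1, Q.1 / 15)

theorem s1_mem {D : ℕ} {r : ZMod 5} {Q : Fo} (hQ : Q ∈ FQ D r) : s1 Q ∈ FQ D r := by
  obtain ⟨h1, h2, h3, h4⟩ := hQ
  refine ⟨?_, (dvd_neg).2 h2, h3, h4⟩
  rw [← h1]
  simp only [s1, dsc]
  ring

theorem s1_inv (Q : Fo) : s1 (s1 Q) = Q := by
  simp only [s1, neg_neg]

theorem s1_act (Q : Fo) (a b c d : ℤ) : s1 (act Q a b c d) = act (s1 Q) a (-b) (-c) d := by
  simp only [s1, act, ev]
  refine Prod.ext ?_ (Prod.ext ?_ ?_) <;> dsimp only <;> ring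

theorem s1_eqv {N : ℤ} {Q Q' : Fo} (h : Eqv N Q Q') : Eqv N (s1 Q) (s1 Q') := by
  obtain ⟨a, b, c, d, h1, h2, rfl⟩ := h
  exact ⟨a, -b, -c, d, by linarith, (dvd_neg).2 h2, s1_act Q a b c d⟩

theorem s2_mem {D : ℕ} {r : ZMod 5} {Q : Fo} (hQ : Q ∈ FQ D r) : s2 Q ∈ FQ D r := by
  obtain ⟨h1, h2, h3, h4⟩ := hQ
  obtain ⟨k, hk⟩ := h2
  have e : Q.1 / 15 = k := by rw [hk, Int.mul_ediv_cancel_left _ (by norm_num)]
  refine ⟨?_, dvd_mul_right _ _, h3, h4⟩
  rw [← h1]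
  simp only [s2, dsc]
  rw [e, hk]
  ring

theorem s2_inv {Q : Fo} (h : 15 ∣ Q.1) : s2 (s2 Q) = Q := by
  obtain ⟨k, hk⟩ := h
  have e : Q.1 / 15 = k := by rw [hk, Int.mul_ediv_cancel_left _ (by norm_num)]
  simp only [s2]
  rw [e, Int.mul_ediv_cancel_left _ (by norm_num), ← hk]

theorem s2_eqv {Q Q' : Fo} (hQ : 15 ∣ Q.1) (h : Eqv 15 Q Q') : Eqv 15 (s2 Q) (s2 Q') := by
  obtain ⟨a, b, c, d, h1, h2, rfl⟩ := h
  obtain ⟨c', rfl⟩ := h2
  obtain ⟨k, hk⟩ := hQ
  refine ⟨d, c', 15 * b, a, by linarith, dvd_mul_right _ _, ?_⟩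
  have e : Q.1 / 15 = k := by rw [hk, Int.mul_ediv_cancel_left _ (by norm_num)]
  have e2 : (act Q a b (15 * c') d).1 / 15 =
      k * a ^ 2 + Q.2.1 * (a * c') + 15 * (Q.2.2 * c' ^ 2) := by
    have : (act Q a b (15 * c') d).1 =
        15 * (k * a ^ 2 + Q.2.1 * (a * c') + 15 * (Q.2.2 * c' ^ 2)) := by
      simp only [act, ev]
      rw [hk]
      ring
    rw [this, Int.mul_ediv_cancel_left _ (by norm_num)]
  unfold s2
  rw [e2, e]
  simp only [act, ev]
  rw [hk]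
  refine Prod.ext ?_ (Prod.ext ?_ ?_) <;> dsimp only <;> ring

theorem NG_s1 (hNC : S_NC) (t u : ℤ) (Q : Fo) : NG t u (s1 Q) = NG t u Q := by
  have h := (hNC.2.2.2.2.2.2 (-(Q.2.2 * u)) (dQ t u Q)).1
  unfold NG
  rw [← h]
  have e1 : -((s1 Q).2.2 * u) = - -(Q.2.2 * u) := by
    simp only [s1]
    ring
  have e2 : dQ t u (s1 Q) = dQ t u Q := rfl
  rw [e1, e2]

/-- the entries of the automorph are integers and the determinant is one -/
theorem dQ_mul {D : ℕ} (hD : D % 4 = 1) {t u : ℤ} (h : t ^ 2 - D * u ^ 2 = 4) {Q : Fo}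
    (hQ : dsc Q = D) : 2 * dQ t u Q = t + Q.2.1 * u ∧
      dQ t u Q * (t - dQ t u Q) + Q.1 * Q.2.2 * u ^ 2 = 1 := by
  unfold dsc at hQ
  have h1 : (t + Q.2.1 * u) * (t - Q.2.1 * u) = 4 * (1 - Q.1 * Q.2.2 * u ^ 2) := by
    have : (D : ℤ) = Q.2.1 ^ 2 - 4 * (Q.1 * Q.2.2) := hQ.symm
    rw [this] at h
    linarith
  have h2 : 2 ∣ t + Q.2.1 * u := by
    have h3 : (t + Q.2.1 * u) % 2 = (t - Q.2.1 * u) % 2 := by
      have : t + Q.2.1 * u = t - Q.2.1 * u + 2 * (Q.2.1 * u) := by ring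
      rw [this]
      exact Int.add_mul_emod_self_left _ _ _
    by_contra hne
    have h4 : (t + Q.2.1 * u) % 2 = 1 := by omega
    have h5 : (t - Q.2.1 * u) % 2 = 1 := by omega
    have h6 : ((t + Q.2.1 * u) * (t - Q.2.1 * u)) % 2 = 1 := by
      rw [Int.mul_emod, h4, h5]
      rfl
    rw [h1] at h6
    omega
  have h7 : 2 * dQ t u Q = t + Q.2.1 * u := by
    unfold dQ
    exact Int.mul_ediv_cancel' h2
  refine ⟨h7, ?_⟩
  have h8 : 2 * (t - dQ t u Q) = t - Q.2.1 * u := by linarith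
  have h9 : (2 * dQ t u Q) * (2 * (t - dQ t u Q)) = 4 * (1 - Q.1 * Q.2.2 * u ^ 2) := by
    rw [h7, h8, h1]
  linarith

theorem NG_s2 (hinv : ∀ M b d : ℤ, M ∣ 15 * b * d - 1 → NN b M = NN d M) {D : ℕ}
    (hD : D % 4 = 1) {t u : ℤ} (h : t ^ 2 - D * u ^ 2 = 4) {Q : Fo}
    (hQ : dsc Q = D) (h15 : 15 ∣ Q.1) : NG t u (s2 Q) = NG t u Q := by
  obtain ⟨k, hk⟩ := h15
  have e : Q.1 / 15 = k := by rw [hk, Int.mul_ediv_cancel_left _ (by norm_num)]
  have e2 : dQ t u (s2 Q) = dQ t u Q := rfl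
  unfold NG
  rw [e2]
  refine hinv _ _ _ ?_
  obtain ⟨h1, h2⟩ := dQ_mul hD h hQ
  have e3 : 15 * -((s2 Q).2.2 * u) * -(Q.2.2 * u) - 1 = -(dQ t u Q * (t - dQ t u Q)) := by
    simp only [s2]
    rw [e]
    have : Q.1 * Q.2.2 * u ^ 2 = 15 * k * Q.2.2 * u ^ 2 := by rw [hk]
    rw [this] at h2
    linarith
  rw [e3]
  exact (dvd_neg).2 (dvd_mul_right _ _)

/-! ### characters -/

theorem jac_mul_left (m n : ℤ) (p : ℕ) : jacobiSym (m * n) p = jacobiSym m p * jacobiSym n p :=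
  jacobiSym.mul_left m n p

theorem chp_s1 (p : ℕ) (Q : Fo) : chp p (s1 Q) = jacobiSym (-1) p * chp p Q := by
  unfold chp
  have h : ((p : ℤ) ∣ (s1 Q).1) ↔ (p : ℤ) ∣ Q.1 := dvd_neg
  by_cases hp : (p : ℤ) ∣ Q.1
  · rw [if_pos (h.2 hp), if_pos hp, ← jac_mul_left]
    congr 1
    simp only [s1]
    ring
  · rw [if_neg (fun h' => hp (h.1 h')), if_neg hp, ← jac_mul_left]
    congr 1
    simp only [s1]
    ring

theorem jac_ne_zero {p : ℕ} (hp : p.Prime) {a : ℤ} (h : ¬ (p : ℤ) ∣ a) : jacobiSym a p ≠ 0 := by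
  have : Fact p.Prime := ⟨hp⟩
  rw [← jacobiSym.legendreSym.to_jacobiSym, Ne, legendreSym.eq_zero_iff]
  rwa [ZMod.intCast_zmod_eq_zero_iff_dvd]

theorem jac_sq {p : ℕ} (hp : p.Prime) {a : ℤ} (h : ¬ (p : ℤ) ∣ a) : jacobiSym a p ^ 2 = 1 := by
  have h1 := jacobiSym.trichotomy a p
  rcases h1 with h1 | h1 | h1
  · exact absurd h1 (jac_ne_zero hp h)
  · rw [h1]; norm_num
  · rw [h1]; norm_num

theorem jac_eq_of_mul_sq {p : ℕ} (hp : p.Prime) {a c : ℤ} (ha : ¬ (p : ℤ) ∣ a) (hc : ¬ (p : ℤ) ∣ c)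
    {b : ℤ} (hp2 : p ≠ 2) (h : (p : ℤ) ∣ b ^ 2 - 4 * (a * c)) : jacobiSym a p = jacobiSym c p := by
  have hpp : Fact p.Prime := ⟨hp⟩
  have h4 : ¬ (p : ℤ) ∣ 4 := by
    intro h5
    have h6 : p ∣ 4 := by exact_mod_cast h5
    have h7 : p ∣ 2 := by
      have : (4 : ℕ) = 2 ^ 2 := by norm_num
      rw [this] at h6
      exact hp.dvd_of_dvd_pow h6
    exact hp2 ((Nat.prime_dvd_prime_iff_eq hp Nat.prime_two).1 h7)
  have h1 : jacobiSym (4 * (a * c)) p = jacobiSym (b ^ 2) p := by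
    rw [jacobiSym.mod_left (4 * (a * c)) p, jacobiSym.mod_left (b ^ 2) p]
    congr 1
    exact (Int.emod_emod_of_dvd _ dvd_rfl).symm.trans
      ((Int.emod_emod_of_dvd _ dvd_rfl).trans (Int.ModEq.symm ((Int.modEq_iff_dvd).2 (by
        have : 4 * (a * c) - b ^ 2 = -(b ^ 2 - 4 * (a * c)) := by ring
        rw [this]
        exact (dvd_neg).2 h))))
  have hb : ¬ (p : ℤ) ∣ b := by
    intro hb
    have h5 : (p : ℤ) ∣ 4 * (a * c) := by
      have h6 : (p : ℤ) ∣ b ^ 2 := by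
        rw [sq]
        exact hb.mul_right _
      have := dvd_sub h6 h
      rwa [sub_sub_cancel] at this
    have hpi : Prime (p : ℤ) := Nat.prime_iff_prime_int.1 hp
    rcases hpi.dvd_or_dvd h5 with h6 | h6
    · exact h4 h6
    · rcases hpi.dvd_or_dvd h6 with h7 | h7
      · exact ha h7
      · exact hc h7
  have h2 : jacobiSym (4 * (a * c)) p = jacobiSym a p * jacobiSym c p := by
    rw [jac_mul_left, jac_mul_left]
    have : jacobiSym 4 p = 1 := by
      have e : (4 : ℤ) = 2 * 2 := by norm_num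
      rw [e, jac_mul_left, ← sq]
      refine jac_sq hp ?_
      intro h5
      apply h4
      rw [e]
      exact h5.mul_right _
    rw [this, one_mul]
  have h3 : jacobiSym (b ^ 2) p = 1 := by
    rw [sq, jac_mul_left, ← sq]
    exact jac_sq hp hb
  rw [h2, h3] at h1
  have h5 := jac_sq hp hc
  calc jacobiSym a p = jacobiSym a p * jacobiSym c p ^ 2 := by rw [h5, mul_one]
    _ = (jacobiSym a p * jacobiSym c p) * jacobiSym c p := by ring
    _ = jacobiSym c p := by rw [h1, one_mul]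

theorem chp_s2 {D : ℕ} (hs : Squarefree D) {p : ℕ} (hp : p.Prime) (hpD : p ∣ D) (hp2 : p ≠ 2)
    (hp15 : ¬ p ∣ 15) {Q : Fo} (hQ : dsc Q = D) (h15 : 15 ∣ Q.1) :
    chp p (s2 Q) = jacobiSym 15 p * chp p Q := by
  have hpi : Prime (p : ℤ) := Nat.prime_iff_prime_int.1 hp
  have h15' : ¬ (p : ℤ) ∣ 15 := by exact_mod_cast hp15
  obtain ⟨k, hk⟩ := h15
  have e : Q.1 / 15 = k := by rw [hk, Int.mul_ediv_cancel_left _ (by norm_num)]
  have hdD : (p : ℤ) ∣ Q.2.1 ^ 2 - 4 * (Q.1 * Q.2.2) := by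
    have h1 : Q.2.1 ^ 2 - 4 * (Q.1 * Q.2.2) = (D : ℤ) := hQ
    rw [h1]
    exact_mod_cast hpD
  -- not both divisible
  have hnot : ¬ ((p : ℤ) ∣ Q.1 ∧ (p : ℤ) ∣ Q.2.2) := by
    rintro ⟨h1, h2⟩
    have h3 : (p : ℤ) ∣ Q.2.1 := by
      have h4 : (p : ℤ) ∣ Q.2.1 ^ 2 := by
        have h5 := dvd_add hdD ((h1.mul_right Q.2.2).mul_left 4)
        rwa [sub_add_cancel] at h5
      exact hpi.dvd_of_dvd_pow h4
    have h4 : ((p * p : ℕ) : ℤ) ∣ (D : ℤ) := by
      have h1' : (D : ℤ) = Q.2.1 ^ 2 - 4 * (Q.1 * Q.2.2) := hQ.symm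
      rw [h1']
      push_cast
      refine dvd_sub ?_ ((mul_dvd_mul h1 h2).mul_left 4)
      rw [sq]
      exact mul_dvd_mul h3 h3
    have h5 : p * p ∣ D := by exact_mod_cast h4
    have h6 := hs p h5
    exact hp.one_lt.ne' (Nat.isUnit_iff.1 h6)
  have hC : ((p : ℤ) ∣ (s2 Q).1) ↔ (p : ℤ) ∣ Q.2.2 := by
    change (p : ℤ) ∣ 15 * Q.2.2 ↔ _
    constructor
    · intro h
      rcases hpi.dvd_or_dvd h with h | h
      · exact absurd h h15'
      · exact h
    · intro h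
      exact h.mul_left _
  unfold chp
  by_cases hA : (p : ℤ) ∣ Q.1
  · have hC' : ¬ (p : ℤ) ∣ Q.2.2 := fun h => hnot ⟨hA, h⟩
    rw [if_neg (fun h => hC' (hC.1 h)), if_pos hA]
    change jacobiSym (15 * Q.2.2) p = _
    rw [jac_mul_left]
  · rw [if_neg hA]
    by_cases hC' : (p : ℤ) ∣ Q.2.2
    · rw [if_pos (hC.2 hC')]
      change jacobiSym (Q.1 / 15) p = _
      rw [e, hk, jac_mul_left]
      have h1 := jac_sq hp h15'
      rw [← mul_assoc, ← sq, h1, one_mul]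
    · rw [if_neg (fun h => hC' (hC.1 h))]
      change jacobiSym (15 * Q.2.2) p = _
      rw [jac_mul_left, jac_eq_of_mul_sq hp hA hC' hp2 hdD]

/-! ### orthogonality -/

theorem jac_prod (n : ℤ) (s : Finset ℕ) (hs : ∀ p ∈ s, p ≠ 0) :
    jacobiSym n (∏ p ∈ s, p) = ∏ p ∈ s, jacobiSym n p := by
  induction s using Finset.induction_on with
  | empty => simp
  | insert a s ha ih =>
    rw [Finset.prod_insert ha, Finset.prod_insert ha, jacobiSym.mul_right',
      ih (fun p hp => hs p (mem_insert_of_mem hp))]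
    · exact hs a (mem_insert_self a s)
    · exact Finset.prod_ne_zero_iff.2 fun p hp => hs p (mem_insert_of_mem hp)

theorem jac_sf (n : ℤ) {d : ℕ} (hd : Squarefree d) :
    jacobiSym n d = ∏ p ∈ d.primeFactors, jacobiSym n p := by
  conv_lhs => rw [← Nat.prod_primeFactors_of_squarefree hd]
  exact jac_prod n _ fun p hp => (Nat.prime_of_mem_primeFactors hp).ne_zero

theorem sum_div {D : ℕ} (hs : Squarefree D) (g : ℕ → ℤ) :
    ∑ d ∈ D.divisors, ∏ p ∈ d.primeFactors, g p = ∏ p ∈ D.primeFactors, (1 + g p) := by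
  have h := (ArithmeticFunction.IsMultiplicative.prodPrimeFactors
    g).prodPrimeFactors_one_add_of_squarefree hs
  have h1 : ∏ p ∈ D.primeFactors, (1 + (ArithmeticFunction.prodPrimeFactors g) p) =
      ∏ p ∈ D.primeFactors, (1 + g p) := by
    refine Finset.prod_congr rfl fun p hp => ?_
    have hpp := Nat.prime_of_mem_primeFactors hp
    rw [ArithmeticFunction.prodPrimeFactors_apply hpp.ne_zero, hpp.primeFactors,
      Finset.prod_singleton]
  rw [← h1, h]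
  refine Finset.sum_congr rfl fun d hd => ?_
  rw [ArithmeticFunction.prodPrimeFactors_apply]
  exact (Nat.pos_of_mem_divisors hd).ne'

/-- the eight characters -/
def ns : Finset ℤ := {1, -1, 3, -3, 5, -5, 15, -15}

theorem sum_ns (f : ℤ → ℤ) : ∑ n ∈ ns, f n =
    f 1 + f (-1) + f 3 + f (-3) + f 5 + f (-5) + f 15 + f (-15) := by
  unfold ns
  rw [Finset.sum_insert (by decide), Finset.sum_insert (by decide), Finset.sum_insert (by decide),
    Finset.sum_insert (by decide), Finset.sum_insert (by decide), Finset.sum_insert (by decide),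
    Finset.sum_insert (by decide), Finset.sum_singleton]
  ring

theorem jac_ns (d : ℕ) : ∑ n ∈ ns, jacobiSym n d =
    (1 + jacobiSym (-1) d) * (1 + jacobiSym 3 d) * (1 + jacobiSym 5 d) := by
  rw [sum_ns]
  have e1 : jacobiSym (-3) d = jacobiSym (-1) d * jacobiSym 3 d := by
    rw [← jac_mul_left]; norm_num
  have e2 : jacobiSym (-5) d = jacobiSym (-1) d * jacobiSym 5 d := by
    rw [← jac_mul_left]; norm_num
  have e3 : jacobiSym 15 d = jacobiSym 3 d * jacobiSym 5 d := by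
    rw [← jac_mul_left]; norm_num
  have e4 : jacobiSym (-15) d = jacobiSym (-1) d * (jacobiSym 3 d * jacobiSym 5 d) := by
    rw [← jac_mul_left, ← jac_mul_left]; norm_num
  rw [e1, e2, e3, e4, jacobiSym.one_left]
  ring

theorem Fm_iff {d : ℕ} (h2 : d % 2 = 1) (h3 : d % 3 ≠ 0) (h5 : d % 5 ≠ 0) :
    ∑ n ∈ ns, jacobiSym n d = if Fm d then 8 else 0 := by
  rw [jac_ns]
  have hodd : Odd d := Nat.odd_iff.2 h2
  have j5 : jacobiSym 5 d = if d % 5 = 1 ∨ d % 5 = 4 then 1 else -1 := by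
    have h := jacobiSym.quadratic_reciprocity_one_mod_four (a := 5) (b := d) (by norm_num) hodd
    have h' : jacobiSym 5 d = jacobiSym (d : ℤ) 5 := by exact_mod_cast h
    rw [h', jacobiSym.mod_left]
    have e : (d : ℤ) % ((5 : ℕ) : ℤ) = ((d % 5 : ℕ) : ℤ) := by norm_cast
    rw [e]
    have h6 : d % 5 = 1 ∨ d % 5 = 2 ∨ d % 5 = 3 ∨ d % 5 = 4 := by omega
    rcases h6 with h6 | h6 | h6 | h6 <;> rw [h6] <;> norm_num
  have h4 : d % 4 = 1 ∨ d % 4 = 3 := by omega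
  rcases h4 with h4 | h4
  · have jm : jacobiSym (-1) d = 1 := by
      rw [jacobiSym.at_neg_one hodd, ZMod.χ₄_nat_one_mod_four h4]
    have j3 : jacobiSym 3 d = if d % 3 = 1 then 1 else -1 := by
      have h := jacobiSym.quadratic_reciprocity_one_mod_four' (a := 3) (b := d)
        (by decide) h4
      have h' : jacobiSym 3 d = jacobiSym (d : ℤ) 3 := by exact_mod_cast h
      rw [h', jacobiSym.mod_left]
      have e : (d : ℤ) % ((3 : ℕ) : ℤ) = ((d % 3 : ℕ) : ℤ) := by norm_cast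
      rw [e]
      have h6 : d % 3 = 1 ∨ d % 3 = 2 := by omega
      rcases h6 with h6 | h6 <;> rw [h6] <;> norm_num
    rw [jm, j3, j5]
    by_cases hF : Fm d
    · rw [if_pos hF]
      have h7 : d % 3 = 1 := by
        rcases hF with h | h <;> omega
      have h8 : d % 5 = 1 ∨ d % 5 = 4 := by
        rcases hF with h | h <;> omega
      rw [if_pos h7, if_pos h8]
      norm_num
    · rw [if_neg hF]
      by_cases h7 : d % 3 = 1
      · have h8 : ¬ (d % 5 = 1 ∨ d % 5 = 4) := by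
          intro h8
          apply hF
          unfold Fm
          omega
        rw [if_neg h8]
        norm_num
      · rw [if_neg h7]
        norm_num
  · have jm : jacobiSym (-1) d = -1 := by
      rw [jacobiSym.at_neg_one hodd, ZMod.χ₄_nat_three_mod_four h4]
    have hF : ¬ Fm d := by
      unfold Fm
      omega
    rw [jm, if_neg hF]
    norm_num

theorem orth {D : ℕ} (hs : Squarefree D) (hD : Fm D) (Q : Fo) :
    8 * ∑ d ∈ D.divisors.filter Fm, chD d Q =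
      ∑ n ∈ ns, ∏ p ∈ D.primeFactors, (1 + jacobiSym n p * chp p Q) := by
  have h1 : ∀ n ∈ ns, ∏ p ∈ D.primeFactors, (1 + jacobiSym n p * chp p Q) =
      ∑ d ∈ D.divisors, jacobiSym n d * chD d Q := by
    intro n _
    rw [← sum_div hs]
    refine Finset.sum_congr rfl fun d hd => ?_
    rw [Finset.prod_mul_distrib, ← jac_sf n (hs.squarefree_of_dvd (Nat.dvd_of_mem_divisors hd))]
    rfl
  rw [Finset.sum_congr rfl h1, Finset.sum_comm, Finset.sum_filter, Finset.mul_sum]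
  refine Finset.sum_congr rfl fun d hd => ?_
  rw [← Finset.sum_mul]
  have hdD := Nat.dvd_of_mem_divisors hd
  have a2 : d % 2 = 1 := by
    by_contra h
    have h2 : 2 ∣ D := (Nat.dvd_of_mod_eq_zero (by omega)).trans hdD
    rcases hD with h4 | h4 <;> omega
  have a3 : d % 3 ≠ 0 := by
    intro h
    have h2 : 3 ∣ D := (Nat.dvd_of_mod_eq_zero h).trans hdD
    rcases hD with h4 | h4 <;> omega
  have a5 : d % 5 ≠ 0 := by
    intro h
    have h2 : 5 ∣ D := (Nat.dvd_of_mod_eq_zero h).trans hdD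
    rcases hD with h4 | h4 <;> omega
  rw [Fm_iff a2 a3 a5]
  split_ifs <;> ring

theorem prod_genus {D : ℕ} (hD : Fm D) (n : ℤ) (hn : ∀ p ∈ D.primeFactors, ¬ (p : ℤ) ∣ n) (Q : Fo)
    (hc : ∀ p ∈ D.primeFactors, chp p Q = 1 ∨ chp p Q = -1) :
    ∏ p ∈ D.primeFactors, (1 + jacobiSym n p * chp p Q) =
      if (∀ p ∈ D.primeFactors, chp p Q = jacobiSym n p) then 2 ^ D.primeFactors.card else 0 := by
  split_ifs with h
  · rw [Finset.prod_congr rfl (g := fun _ => (2 : ℤ)), Finset.prod_const]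
    intro p hp
    rw [h p hp, ← sq, jac_sq (Nat.prime_of_mem_primeFactors hp) (hn p hp)]
    norm_num
  · push Not at h
    obtain ⟨p, hp, hne⟩ := h
    refine Finset.prod_eq_zero hp ?_
    have h1 := jacobiSym.trichotomy n p
    have h2 := jac_ne_zero (Nat.prime_of_mem_primeFactors hp) (hn p hp)
    rcases h1 with h1 | h1 | h1
    · exact absurd h1 h2
    · rcases hc p hp with h3 | h3
      · exact absurd (h3.trans h1.symm) hne
      · rw [h1, h3]; norm_num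
    · rcases hc p hp with h3 | h3
      · rw [h1, h3]; norm_num
      · exact absurd (h3.trans h1.symm) hne

end GENaux

open GENaux in
theorem t_GENUS : S_GENUS := by
  intro hCHI hNC hinv hNGI hNHOM D hs hD hD1 r hr t u hF R hR
  have hD4 : D % 4 = 1 := by
    rcases hD with h | h <;> omega
  have hprime : ∀ p ∈ D.primeFactors, p.Prime ∧ p ∣ D ∧ p ≠ 2 ∧ ¬ p ∣ 15 := by
    intro p hp
    have hpp := Nat.prime_of_mem_primeFactors hp
    have hpD := Nat.dvd_of_mem_primeFactors hp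
    refine ⟨hpp, hpD, ?_, ?_⟩
    · rintro rfl
      rcases hD with h | h <;> omega
    · intro h15
      have h1 : p ∣ 3 * 5 := h15
      rcases (hpp.dvd_mul).1 h1 with h2 | h2
      · have h3 := (Nat.prime_dvd_prime_iff_eq hpp Nat.prime_three).1 h2
        subst h3
        rcases hD with h | h <;> omega
      · have h3 := (Nat.prime_dvd_prime_iff_eq hpp Nat.prime_five).1 h2
        subst h3
        rcases hD with h | h <;> omega
  have hchp : ∀ Q ∈ FQ D r, ∀ p ∈ D.primeFactors, chp p Q = 1 ∨ chp p Q = -1 := by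
    intro Q hQ p hp
    exact (hCHI D hs hD4 Q Q hQ.1 (eqv_refl 1 Q) p hp).2
  have hcop : ∀ n : ℤ, (∀ p : ℕ, p.Prime → p ≠ 2 → ¬ p ∣ 15 → ¬ (p : ℤ) ∣ n) →
      ∀ p ∈ D.primeFactors, ¬ (p : ℤ) ∣ n := by
    intro n hn p hp
    obtain ⟨h1, h2, h3, h4⟩ := hprime p hp
    exact hn p h1 h3 h4
  have h15n : ∀ p : ℕ, p.Prime → p ≠ 2 → ¬ p ∣ 15 → ¬ (p : ℤ) ∣ 15 := by
    intro p _ _ h h'
    exact h (by exact_mod_cast h')
  have hdv : ∀ n : ℤ, n ∣ 15 → ∀ p : ℕ, p.Prime → p ≠ 2 → ¬ p ∣ 15 → ¬ (p : ℤ) ∣ n := by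
    intro n hn p h1 h2 h3 h4
    exact h15n p h1 h2 h3 (h4.trans hn)
  have hns : ∀ n ∈ ns, ∀ p ∈ D.primeFactors, ¬ (p : ℤ) ∣ n := by
    intro n hn
    refine hcop n (hdv n ?_)
    unfold ns at hn
    simp only [mem_insert, mem_singleton] at hn
    rcases hn with h | h | h | h | h | h | h | h <;> rw [h] <;> norm_num
  -- the class function
  set f : ℤ → Fo → ℤ := fun n Q =>
    if (∀ p ∈ D.primeFactors, chp p Q = jacobiSym n p) then NG t u Q else 0 with hf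
  have hSG : ∀ n, SG D t u R n = ∑ Q ∈ R, f n Q := by
    intro n
    unfold SG
    rw [Finset.sum_filter]
  have hcl : ∀ n, ∀ Q ∈ FQ D r, ∀ Q', Eqv 15 Q Q' → f n Q' = f n Q := by
    intro n Q hQ Q' he
    have he1 : Eqv 1 Q Q' := by
      obtain ⟨a, b, c, d, h1, _, h3⟩ := he
      exact ⟨a, b, c, d, h1, one_dvd _, h3⟩
    have h1 : NG t u Q' = NG t u Q := hNGI hNC hNHOM D hs hD hD1 t u hF Q Q' hQ.1 hQ.2.1 he
    have h2 : (∀ p ∈ D.primeFactors, chp p Q' = jacobiSym n p) ↔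
        ∀ p ∈ D.primeFactors, chp p Q = jacobiSym n p := by
      refine forall₂_congr fun p hp => ?_
      rw [(hCHI D hs hD4 Q Q' hQ.1 he1 p hp).1]
    simp only [hf]
    rw [h1]
    by_cases h3 : ∀ p ∈ D.primeFactors, chp p Q = jacobiSym n p
    · rw [if_pos h3, if_pos (h2.2 h3)]
    · rw [if_neg h3, if_neg (fun h => h3 (h2.1 h))]
  have hneg1 : ∀ p ∈ D.primeFactors, jacobiSym (-1) p ≠ 0 := by
    intro p hp
    refine jac_ne_zero (hprime p hp).1 ?_
    intro h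
    have h1 : (p : ℤ) ∣ 1 := (dvd_neg).1 h
    have h2 : p ∣ 1 := by exact_mod_cast h1
    exact (hprime p hp).1.one_lt.ne' (Nat.dvd_one.1 h2)
  have h15ne : ∀ p ∈ D.primeFactors, jacobiSym 15 p ≠ 0 := by
    intro p hp
    exact jac_ne_zero (hprime p hp).1 (hcop 15 (hdv 15 dvd_rfl) p hp)
  have hS1 : ∀ n, SG D t u R (-n) = SG D t u R n := by
    intro n
    rw [hSG, hSG, ← sum_rep hR s1 (fun Q hQ => s1_mem hQ) (fun Q _ Q' he => s1_eqv he)
      (fun Q _ => s1_inv Q) (f (-n)) (hcl (-n))]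
    refine Finset.sum_congr rfl fun Q hQ => ?_
    simp only [hf]
    have h2 : (∀ p ∈ D.primeFactors, chp p (s1 Q) = jacobiSym (-n) p) ↔
        ∀ p ∈ D.primeFactors, chp p Q = jacobiSym n p := by
      refine forall₂_congr fun p hp => ?_
      have e : (-n : ℤ) = -1 * n := by ring
      rw [chp_s1, e, jac_mul_left]
      exact mul_right_inj' (hneg1 p hp)
    rw [NG_s1 hNC]
    by_cases h3 : ∀ p ∈ D.primeFactors, chp p Q = jacobiSym n p
    · rw [if_pos h3, if_pos (h2.2 h3)]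
    · rw [if_neg h3, if_neg (fun h => h3 (h2.1 h))]
  have hS2 : ∀ n, SG D t u R (15 * n) = SG D t u R n := by
    intro n
    rw [hSG, hSG, ← sum_rep hR s2 (fun Q hQ => s2_mem hQ) (fun Q hQ Q' he => s2_eqv hQ.2.1 he)
      (fun Q hQ => s2_inv hQ.2.1) (f (15 * n)) (hcl (15 * n))]
    refine Finset.sum_congr rfl fun Q hQ => ?_
    have hQS := hR.1 Q hQ
    simp only [hf]
    have h2 : (∀ p ∈ D.primeFactors, chp p (s2 Q) = jacobiSym (15 * n) p) ↔
        ∀ p ∈ D.primeFactors, chp p Q = jacobiSym n p := by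
      refine forall₂_congr fun p hp => ?_
      obtain ⟨g1, g2, g3, g4⟩ := hprime p hp
      rw [chp_s2 hs g1 g2 g3 g4 hQS.1 hQS.2.1, jac_mul_left]
      exact mul_right_inj' (h15ne p hp)
    rw [NG_s2 hinv hD4 hF.eq hQS.1 hQS.2.1]
    by_cases h3 : ∀ p ∈ D.primeFactors, chp p Q = jacobiSym n p
    · rw [if_pos h3, if_pos (h2.2 h3)]
    · rw [if_neg h3, if_neg (fun h => h3 (h2.1 h))]
  have h45 : SG D t u R 45 = SG D t u R 5 := by
    rw [hSG, hSG]
    refine Finset.sum_congr rfl fun Q hQ => ?_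
    simp only [hf]
    have h2 : (∀ p ∈ D.primeFactors, chp p Q = jacobiSym 45 p) ↔
        ∀ p ∈ D.primeFactors, chp p Q = jacobiSym 5 p := by
      refine forall₂_congr fun p hp => ?_
      have e : (45 : ℤ) = 3 * (3 * 5) := by norm_num
      have h3 := jac_sq (hprime p hp).1 (hcop 3 (hdv 3 ⟨5, by norm_num⟩) p hp)
      rw [e, jac_mul_left, jac_mul_left, ← mul_assoc, ← sq, h3, one_mul]
    by_cases h3 : ∀ p ∈ D.primeFactors, chp p Q = jacobiSym 5 p
    · rw [if_pos h3, if_pos (h2.2 h3)]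
    · rw [if_neg h3, if_neg (fun h => h3 (h2.1 h))]
  -- the sum over the genera
  have hsum : ∑ n ∈ ns, SG D t u R n = 4 * (SG D t u R 1 + SG D t u R 3) := by
    rw [sum_ns]
    have a1 := hS1 1
    have a3 := hS1 3
    have a5 := hS1 5
    have a15 := hS1 15
    have b1 := hS2 1
    have b3 := hS2 3
    norm_num at b1 b3
    rw [h45] at b3
    rw [a1, a3, a5, a15, b1, b3]
    ring
  have hmain : 8 * ∑ d ∈ D.divisors.filter Fm, ∑ Q ∈ R, chD d Q * NG t u Q =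
      2 ^ D.primeFactors.card * ∑ n ∈ ns, SG D t u R n := by
    rw [Finset.sum_comm]
    have e1 : ∀ Q ∈ R, ∑ d ∈ D.divisors.filter Fm, chD d Q * NG t u Q =
        (∑ d ∈ D.divisors.filter Fm, chD d Q) * NG t u Q := fun Q _ => (Finset.sum_mul _ _ _).symm
    rw [Finset.sum_congr rfl e1, Finset.mul_sum]
    have e2 : ∀ Q ∈ R, 8 * ((∑ d ∈ D.divisors.filter Fm, chD d Q) * NG t u Q) =
        ∑ n ∈ ns, 2 ^ D.primeFactors.card * f n Q := by
      intro Q hQ
      rw [← mul_assoc, orth hs hD Q, Finset.sum_mul]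
      refine Finset.sum_congr rfl fun n hn => ?_
      rw [prod_genus hD n (hns n hn) Q (hchp Q (hR.1 Q hQ))]
      simp only [hf]
      split_ifs <;> ring
    rw [Finset.sum_congr rfl e2, Finset.sum_comm, Finset.mul_sum]
    refine Finset.sum_congr rfl fun n _ => ?_
    rw [hSG, Finset.mul_sum]
  rw [hsum] at hmain
  linarith

end Pool.Agent.H757_X15.CC
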