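import Pool.Agent.H757_X15.StmC2
import Pool.Agent.H757_X15.CS.Chi
import Pool.Agent.H757_X15.CS.GENUS

/-!
# X15-C20 (CG): the converse: if the principal genus is odd and the logarithm of the unit is odd then
the criterion holds
-/

set_option autoImplicit false
set_option linter.unusedVariables false

namespace Pool.Agent.H757_X15.CC

open Finset
open Pool.Agent.Y687 (SS rr)
open Pool.Agent.H757_X15 (Symb15)
open Pool.Agent.H757_X15.DD (Fm Crit)

open scoped Classical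

namespace CGaux

open GENaux

/-- the opposite form -/
def bar (Q : Fo) : Fo := (Q.1, -Q.2.1, Q.2.2)

theorem bar_mem {D : ℕ} {Q : Fo} (h : Q ∈ F1 D) : bar Q ∈ F1 D := by
  have h1 : dsc Q = D := h
  change dsc (bar Q) = D
  rw [← h1]
  simp only [dsc, bar]
  ring

theorem bar_bar (Q : Fo) : bar (bar Q) = Q := by
  simp only [bar, neg_neg]

theorem bar_act (Q : Fo) (a b c d : ℤ) : bar (act Q a b c d) = act (bar Q) a (-b) (-c) d := by
  simp only [bar, act, ev]
  refine Prod.ext ?_ (Prod.ext ?_ ?_) <;> dsimp only <;> ring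

theorem bar_eqv {N : ℤ} {Q Q' : Fo} (h : Eqv N Q Q') : Eqv N (bar Q) (bar Q') := by
  obtain ⟨a, b, c, d, h1, h2, rfl⟩ := h
  exact ⟨a, -b, -c, d, by linarith, (dvd_neg).2 h2, bar_act Q a b c d⟩

/-- the parity of a finite set with an involution -/
theorem card_invol {α : Type*} [DecidableEq α] (G : Finset α) (ι : α → α) (h1 : ∀ x ∈ G, ι x ∈ G)
    (h2 : ∀ x ∈ G, ι (ι x) = x) : (G.card : ZMod 2) = ((G.filter fun x => ι x = x).card : ZMod 2) := by
  have h3 : (G.filter fun x => ι x = x).card + (G.filter fun x => ¬ ι x = x).card = G.card :=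
    Finset.card_filter_add_card_filter_not _
  have h4 : ((G.filter fun x => ¬ ι x = x).card : ZMod 2) = 0 := by
    have h5 : ∑ x ∈ G.filter (fun x => ¬ ι x = x), (1 : ZMod 2) = 0 := by
      refine Finset.sum_involution (fun x _ => ι x) ?_ ?_ ?_ ?_
      · intro x hx
        decide
      · intro x hx _
        exact (mem_filter.1 hx).2
      · intro x hx
        rw [mem_filter] at hx ⊢
        refine ⟨h1 x hx.1, fun h => hx.2 ?_⟩
        have h6 := h2 x hx.1
        rw [h] at h6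
        exact h6
      · intro x hx
        exact h2 x (mem_filter.1 hx).1
    rw [Finset.sum_const, nsmul_eq_mul, mul_one] at h5
    exact h5
  rw [← h3]
  push_cast
  rw [h4, add_zero]

/-- the number of the ambiguous classes in the principal genus has the parity of its order -/
theorem odd_fixed {D : ℕ} (hs : Squarefree D) (hD4 : D % 4 = 1) {R : Finset Fo}
    (hR : IsRep 1 (F1 D) R)
    (hodd : Odd (R.filter fun Q => ∀ p ∈ D.primeFactors, chp p Q = 1).card) :
    Odd (R.filter fun Q => (∀ p ∈ D.primeFactors, chp p Q = 1) ∧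
      Eqv 1 Q (Q.1, -Q.2.1, Q.2.2)).card := by
  have hex : ∀ Q : Fo, ∃ Q', Q ∈ F1 D → (Q' ∈ R ∧ Eqv 1 Q Q') := by
    intro Q
    by_cases h : Q ∈ F1 D
    · obtain ⟨Q', h1, _⟩ := hR.2 Q h
      exact ⟨Q', fun _ => h1⟩
    · exact ⟨Q, fun h' => absurd h' h⟩
  choose π hπ using hex
  have huniq : ∀ Q ∈ F1 D, ∀ Q' ∈ R, Eqv 1 Q Q' → Q' = π Q := by
    intro Q hQ Q' hQ' he
    obtain ⟨Q₀, h1, h2⟩ := hR.2 Q hQ
    rw [h2 Q' ⟨hQ', he⟩, h2 (π Q) (hπ Q hQ)]
  set G := R.filter fun Q => ∀ p ∈ D.primeFactors, chp p Q = 1 with hG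
  have hι1 : ∀ Q ∈ G, π (bar Q) ∈ G := by
    intro Q hQ
    rw [hG, mem_filter] at hQ ⊢
    have hQ1 := hR.1 Q hQ.1
    obtain ⟨h1, h2⟩ := hπ (bar Q) (bar_mem hQ1)
    refine ⟨h1, fun p hp => ?_⟩
    rw [(t_CHI D hs hD4 (bar Q) (π (bar Q)) (bar_mem hQ1) h2 p hp).1]
    exact hQ.2 p hp
  have hι2 : ∀ Q ∈ G, π (bar (π (bar Q))) = Q := by
    intro Q hQ
    rw [hG, mem_filter] at hQ
    have hQ1 := hR.1 Q hQ.1
    obtain ⟨h1, h2⟩ := hπ (bar Q) (bar_mem hQ1)
    have h3 : Eqv 1 (bar (bar Q)) (bar (π (bar Q))) := bar_eqv h2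
    rw [bar_bar] at h3
    exact (huniq _ (bar_mem (hR.1 _ h1)) Q hQ.1 (eqv_symm h3)).symm
  have h := card_invol G (fun Q => π (bar Q)) hι1 hι2
  have h5 : (G.filter fun Q => π (bar Q) = Q) = R.filter fun Q =>
      (∀ p ∈ D.primeFactors, chp p Q = 1) ∧ Eqv 1 Q (Q.1, -Q.2.1, Q.2.2) := by
    ext Q
    rw [hG, mem_filter, mem_filter, mem_filter, and_assoc]
    refine and_congr_right fun hQR => and_congr_right fun _ => ?_
    have hQ1 := hR.1 Q hQR
    constructor
    · intro h6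
      have h7 := (hπ (bar Q) (bar_mem hQ1)).2
      rw [h6] at h7
      exact eqv_symm h7
    · intro h6
      exact (huniq _ (bar_mem hQ1) Q hQR (eqv_symm h6)).symm
  rw [h5] at h
  rw [← ZMod.natCast_eq_one_iff_odd] at hodd ⊢
  rw [← h]
  exact hodd

/-- the entries modulo `15` -/
theorem dQ_inv {D : ℕ} (hD4 : D % 4 = 1) {t u : ℤ} (h : t ^ 2 - D * u ^ 2 = 4) {Q : Fo}
    (hQ : dsc Q = D) (h15 : 15 ∣ Q.1) : (15 : ℤ) ∣ dQ t u Q * (t - dQ t u Q) - 1 := by
  obtain ⟨_, h2⟩ := dQ_mul hD4 h hQ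
  have h3 : dQ t u Q * (t - dQ t u Q) - 1 = -(Q.1 * (Q.2.2 * u ^ 2)) := by linarith
  rw [h3]
  exact (dvd_neg).2 (h15.mul_right _)

theorem log4_odd {e f : ℤ} (h : (15 : ℤ) ∣ e * f - 1) (ho : Odd (log4 e)) :
    (e : ZMod 5) = 2 ∨ (e : ZMod 5) = 3 := by
  have h5 : (5 : ℤ) ∣ e * f - 1 := dvd_trans ⟨3, by norm_num⟩ h
  have h3 : ¬ (3 : ℤ) ∣ e := by
    intro h3
    have h6 : (3 : ℤ) ∣ e * f - 1 := dvd_trans ⟨5, by norm_num⟩ h
    have h7 : (3 : ℤ) ∣ e * f := h3.mul_right _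
    have h8 : (3 : ℤ) ∣ 1 := by
      have := dvd_sub h7 h6
      rwa [sub_sub_cancel] at this
    norm_num at h8
  have h5' : ¬ (5 : ℤ) ∣ e := by
    intro h3
    have h7 : (5 : ℤ) ∣ e * f := h3.mul_right _
    have h8 : (5 : ℤ) ∣ 1 := by
      have := dvd_sub h7 h5
      rwa [sub_sub_cancel] at this
    norm_num at h8
  have h9 : e % 5 = 2 ∨ e % 5 = 3 := by
    unfold log4 at ho
    split_ifs at ho with g1 g2 g3
    · exact absurd ho (by decide)
    · rcases g2 with g2 | g2 <;> omega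
    · exact absurd ho (by decide)
    · omega
  have e1 : (e : ZMod 5) = ((e % 5 : ℤ) : ZMod 5) := by
    rw [← ZMod.intCast_mod e 5]
    rfl
  rw [e1]
  rcases h9 with h9 | h9 <;> rw [h9]
  · left; rfl
  · right; rfl

theorem dec5 : ∀ e m x : ZMod 5, (e = 2 ∨ e = 3) → (e + 1) ^ 2 = e * (m * x ^ 2) → m = 2 ∨ m = 3 := by
  decide

theorem jac5 {m : ℕ} (h : (m : ZMod 5) = 2 ∨ (m : ZMod 5) = 3) : jacobiSym m 5 = -1 := by
  have h1 : m % 5 = 2 ∨ m % 5 = 3 := by
    have h2 : ((m % 5 : ℕ) : ZMod 5) = (m : ZMod 5) := ZMod.natCast_mod m 5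
    rw [← h2] at h
    have h3 : m % 5 < 5 := Nat.mod_lt _ (by norm_num)
    interval_cases hm : m % 5 <;> revert h <;> decide
  rw [jacobiSym.mod_left]
  have e : (m : ℤ) % ((5 : ℕ) : ℤ) = ((m % 5 : ℕ) : ℤ) := by norm_cast
  rw [e]
  rcases h1 with h1 | h1 <;> rw [h1] <;> norm_num

end CGaux

open CGaux GENaux in
theorem t_CG : S_CG := by
  intro hPM0 hAMB hHG D hs hD hD1 r hr t u hF hlog hne R hR hodd
  have hD4 : D % 4 = 1 := by
    rcases hD with h | h <;> omega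
  have hD0 : D ≠ 0 := hs.ne_zero
  obtain ⟨m, m', x, y, hmm, hm1, ht2, -, -, -, -⟩ := hPM0 D hs hD hD1 t u hF
  have hmD : m ∣ D := ⟨m', hmm.symm⟩
  obtain ⟨hHm, hcard⟩ := hAMB hPM0 D hs hD hD1 t u hF m hmD ⟨x, ht2⟩
  have hc := hcard R hR
  have hfix := odd_fixed hs hD4 hR hodd
  obtain ⟨-, h, hh⟩ := hHG D hs hD
  rw [hh] at hc
  -- the group has order two
  have hh1 : h = 1 := by
    obtain ⟨k, hk⟩ := hfix
    rw [hk] at hc
    rcases Nat.lt_or_ge h 2 with h2 | h2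
    · interval_cases h
      · omega
      · rfl
    · exfalso
      obtain ⟨j, rfl⟩ : ∃ j, h = j + 2 := ⟨h - 2, by omega⟩
      have : 2 ^ (j + 2) = 4 * 2 ^ j := by ring
      omega
  have hcard2 : (D.divisors.filter (Hd D)).card = 2 := by rw [hh, hh1]; norm_num
  have h1mem : Hd D 1 := by
    refine ⟨one_dvd _, fun p _ _ _ => ?_, fun p hp h1 => ?_⟩
    · rw [Nat.cast_one, jacobiSym.one_left]
    · exact absurd (Nat.dvd_one.1 h1) hp.one_lt.ne'
  have hmemf : ∀ d, Hd D d → d ∈ D.divisors.filter (Hd D) := fun d hd =>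
    mem_filter.2 ⟨Nat.mem_divisors.2 ⟨hd.1, hD0⟩, hd⟩
  have hall : ∀ d, Hd D d → d = 1 ∨ d = m := by
    intro d hd
    by_contra hcon
    rw [not_or] at hcon
    have h3 : ({1, m, d} : Finset ℕ) ⊆ D.divisors.filter (Hd D) := by
      intro z hz
      simp only [mem_insert, mem_singleton] at hz
      rcases hz with rfl | rfl | rfl
      · exact hmemf _ h1mem
      · exact hmemf _ hHm
      · exact hmemf _ hd
    have h4 : ({1, m, d} : Finset ℕ).card = 3 := by
      rw [card_insert_of_notMem, card_insert_of_notMem, card_singleton]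
      · rw [mem_singleton]
        exact fun h => hcon.2 h.symm
      · simp only [mem_insert, mem_singleton, not_or]
        exact ⟨fun h => hm1 h.symm, fun h => hcon.1 h.symm⟩
    have h5 := card_le_card h3
    omega
  -- the symbol of `m` modulo `5`
  have hm5 : jacobiSym m 5 = -1 := by
    obtain ⟨Q, hQ⟩ := hne
    have h6 := dQ_inv hD4 hF.eq hQ.1 hQ.2.1
    have h7 := log4_odd h6 (hlog Q hQ)
    have h8 : (5 : ℤ) ∣ dQ t u Q * (t - dQ t u Q) - 1 := by
      obtain ⟨k, hk⟩ := h6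
      exact ⟨3 * k, by rw [hk]; ring⟩
    have h9 : ((dQ t u Q : ℤ) : ZMod 5) * ((t : ZMod 5) - ((dQ t u Q : ℤ) : ZMod 5)) - 1 = 0 := by
      have := (ZMod.intCast_zmod_eq_zero_iff_dvd (dQ t u Q * (t - dQ t u Q) - 1) 5).2
        (by exact_mod_cast h8)
      push_cast at this
      exact this
    have h10 : ((t : ZMod 5)) + 2 = (m : ZMod 5) * (x : ZMod 5) ^ 2 := by
      have := congrArg (fun z : ℤ => (z : ZMod 5)) ht2
      push_cast at this
      exact this
    apply jac5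
    refine dec5 ((dQ t u Q : ℤ) : ZMod 5) (m : ZMod 5) (x : ZMod 5) h7 ?_
    rw [← h10]
    linear_combination (-1 : ZMod 5) * h9
  intro d hd1 hd2 hd3 hd5
  rcases hall d ⟨hd1, hd2, hd3⟩ with h11 | h11
  · exact h11
  · rw [h11] at hd5
    rw [hm5] at hd5
    norm_num at hd5

end Pool.Agent.H757_X15.CC
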