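import Pool.Agent.H757_X15.CS.U34

/-!
# C8: the genus characters and `W` (helper266)
-/

set_option autoImplicit false

namespace Pool.Agent.H757_X15.CC

open Finset
open Pool.Agent.H757_X15.DD (Fm)

namespace C8

lemma gcd_one {p : ℕ} (hp : p.Prime) {a : ℤ} (h : ¬ (p : ℤ) ∣ a) : a.gcd p = 1 := by
  rw [Int.gcd_comm, ← Int.isCoprime_iff_gcd_eq_one]
  exact (Int.prime_iff_natAbs_prime.2 (by simpa using hp)).coprime_iff_not_dvd.2 h

lemma jac_sq {p : ℕ} (hp : p.Prime) {a : ℤ} (h : ¬ (p : ℤ) ∣ a) : jacobiSym (a ^ 2) p = 1 :=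
  jacobiSym.sq_one' (gcd_one hp h)

lemma jac_congr {p : ℕ} {a b : ℤ} (h : (p : ℤ) ∣ a - b) : jacobiSym a p = jacobiSym b p := by
  have h1 : a % p = b % p :=
    Int.emod_eq_emod_iff_emod_sub_eq_zero.2 (Int.emod_eq_zero_of_dvd h)
  rw [jacobiSym.mod_left a, jacobiSym.mod_left b, h1]

/-- all the values prime to `p` have the same character -/
lemma chp_val {p : ℕ} (hp : p.Prime) (hp2 : p ≠ 2) {Q : Fo} (hd : (p : ℤ) ∣ dsc Q) {x y : ℤ}
    (hv : ¬ (p : ℤ) ∣ ev Q x y) : jacobiSym (ev Q x y) p = chp p Q := by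
  have hpp : Prime (p : ℤ) := Int.prime_iff_natAbs_prime.2 (by simpa using hp)
  obtain ⟨A, B, C⟩ := Q
  obtain ⟨v, hv'⟩ : ∃ v, v = ev (A, B, C) x y := ⟨_, rfl⟩
  rw [← hv'] at hv ⊢
  unfold ev at hv'
  unfold dsc at hd
  unfold chp
  simp only at hd hv' ⊢
  have h2 : ¬ (p : ℤ) ∣ 2 := by
    intro h
    have h1 : p ∣ 2 := by exact_mod_cast h
    exact hp2 ((Nat.prime_dvd_prime_iff_eq hp Nat.prime_two).1 h1)
  split_ifs with hA
  · -- `p` divides `A` and `B`
    have hB : (p : ℤ) ∣ B := by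
      apply hpp.dvd_of_dvd_pow (n := 2)
      have h1 := dvd_add hd (Dvd.dvd.mul_left (Dvd.dvd.mul_right hA C) 4)
      rwa [sub_add_cancel] at h1
    have hy : ¬ (p : ℤ) ∣ y := by
      intro h
      apply hv
      rw [hv']
      exact dvd_add (dvd_add (Dvd.dvd.mul_right hA _) (Dvd.dvd.mul_right hB _))
        (Dvd.dvd.mul_left (dvd_pow h two_ne_zero) _)
    have e : jacobiSym v p = jacobiSym (C * y ^ 2) p := by
      apply jac_congr
      have : v - C * y ^ 2 = A * x ^ 2 + B * (x * y) := by rw [hv']; ring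
      rw [this]
      exact dvd_add (Dvd.dvd.mul_right hA _) (Dvd.dvd.mul_right hB _)
    rw [e, jacobiSym.mul_left, jac_sq hp hy, mul_one]
  · have e : jacobiSym (2 ^ 2 * (A * v)) p = jacobiSym ((2 * A * x + B * y) ^ 2) p := by
      apply jac_congr
      have : 2 ^ 2 * (A * v) - (2 * A * x + B * y) ^ 2 = -((B ^ 2 - 4 * (A * C)) * y ^ 2) := by
        rw [hv']; ring
      rw [this, dvd_neg]
      exact Dvd.dvd.mul_right hd _
    have hn : ¬ (p : ℤ) ∣ 2 * A * x + B * y := by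
      intro h
      have h1 : (p : ℤ) ∣ 2 ^ 2 * (A * v) := by
        have : 2 ^ 2 * (A * v) = (2 * A * x + B * y) ^ 2 - (B ^ 2 - 4 * (A * C)) * y ^ 2 := by
          rw [hv']; ring
        rw [this]
        exact dvd_sub (dvd_pow h two_ne_zero) (Dvd.dvd.mul_right hd _)
      rcases hpp.dvd_or_dvd h1 with h3 | h3
      · exact h2 (hpp.dvd_of_dvd_pow h3)
      · rcases hpp.dvd_or_dvd h3 with h4 | h4
        · exact hA h4
        · exact hv h4
    rw [jac_sq hp hn, jacobiSym.mul_left, jac_sq hp h2, one_mul, jacobiSym.mul_left] at e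
    have h3 : jacobiSym A p * jacobiSym A p = 1 := by
      rw [← jacobiSym.mul_left, ← sq]; exact jac_sq hp hA
    calc jacobiSym v p = (jacobiSym A p * jacobiSym A p) * jacobiSym v p := by rw [h3, one_mul]
      _ = jacobiSym A p * (jacobiSym A p * jacobiSym v p) := by ring
      _ = jacobiSym A p := by rw [e, mul_one]

lemma chp_Wi {D : ℕ} (hs : Squarefree D) {p : ℕ} (hp : p.Prime) (hp2 : p ≠ 2) (hp3 : p ≠ 3)
    (hpD : p ∣ D) {Q : Fo} (h15 : 15 ∣ Q.1) (hd : dsc Q = D) :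
    chp p (Wi Q) = jacobiSym 3 p * chp p Q := by
  have hpp : Prime (p : ℤ) := Int.prime_iff_natAbs_prime.2 (by simpa using hp)
  have hpd : (p : ℤ) ∣ dsc Q := by rw [hd]; exact_mod_cast hpD
  have h3 : ¬ (p : ℤ) ∣ 3 := by
    intro h
    have h1 : p ∣ 3 := by exact_mod_cast h
    exact hp3 ((Nat.prime_dvd_prime_iff_eq hp Nat.prime_three).1 h1)
  have h33 : jacobiSym 3 p * jacobiSym 3 p = 1 := by
    rw [← jacobiSym.mul_left, ← sq]; exact jac_sq hp h3
  have h4 : ∀ v x y : ℤ, ¬ (p : ℤ) ∣ v → 3 * v = ev Q x y →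
      jacobiSym v p = jacobiSym 3 p * chp p Q := by
    intro v x y hv he
    have hv' : ¬ (p : ℤ) ∣ ev Q x y := by
      rw [← he]
      intro h
      rcases hpp.dvd_or_dvd h with h5 | h5
      · exact h3 h5
      · exact hv h5
    rw [← chp_val hp hp2 hpd hv', ← he, jacobiSym.mul_left, ← mul_assoc, h33, one_mul]
  have hdW : dsc (Wi Q) = D := by
    obtain ⟨A, B, C⟩ := Q
    obtain ⟨A, rfl⟩ := h15
    rw [dsc_Wi]; exact hd
  have hW : 3 * (Wi Q).1 = ev Q 6 (-15) ∧ 3 * (Wi Q).2.2 = ev Q (-1) 3 := by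
    obtain ⟨A, B, C⟩ := Q
    obtain ⟨A, rfl⟩ := h15
    rw [Wi15]
    unfold ev
    constructor <;> simp only <;> ring
  obtain ⟨W, hWW⟩ : ∃ W, W = Wi Q := ⟨_, rfl⟩
  rw [← hWW] at hdW hW ⊢
  have h10 : chp p W = if (p : ℤ) ∣ W.1 then jacobiSym W.2.2 p else jacobiSym W.1 p := rfl
  rw [h10]
  split_ifs with h5
  · refine h4 _ _ _ ?_ hW.2
    · intro h6
      have hB : (p : ℤ) ∣ W.2.1 := by
        apply hpp.dvd_of_dvd_pow (n := 2)
        have h1 : (p : ℤ) ∣ dsc W := by rw [hdW]; exact_mod_cast hpD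
        unfold dsc at h1
        have h2 := dvd_add h1 (Dvd.dvd.mul_left (Dvd.dvd.mul_right h5 W.2.2) 4)
        rwa [sub_add_cancel] at h2
      have h7 : (p : ℤ) * p ∣ D := by
        rw [← hdW]
        unfold dsc
        apply dvd_sub
        · rw [sq]; exact mul_dvd_mul hB hB
        · exact Dvd.dvd.mul_left (mul_dvd_mul h5 h6) 4
      have h8 : p * p ∣ D := by exact_mod_cast h7
      exact hp.one_lt.ne' (Nat.isUnit_iff.1 (hs p h8))
  · exact h4 _ _ _ h5 hW.1

lemma jac_prod (a : ℤ) (S : Finset ℕ) (hS : ∀ p ∈ S, p ≠ 0) :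
    jacobiSym a (∏ p ∈ S, p) = ∏ p ∈ S, jacobiSym a p := by
  classical
  induction S using Finset.induction_on with
  | empty => simp
  | insert p S hp ih =>
    rw [Finset.prod_insert hp, Finset.prod_insert hp,
      jacobiSym.mul_right' a (hS p (Finset.mem_insert_self _ _))
        (Finset.prod_ne_zero_iff.2 fun q hq => hS q (Finset.mem_insert_of_mem hq)),
      ih fun q hq => hS q (Finset.mem_insert_of_mem hq)]

end C8

/-- the genus characters and `W` -/
theorem t_CHW : S_CHW := by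
  intro D hs hF r hr Q hQ d hd hFd
  unfold chD
  have hd0 : d ≠ 0 := by rintro rfl; rcases hFd with h | h <;> omega
  have hsd : Squarefree d := hs.squarefree_of_dvd hd
  have h1 : ∀ p ∈ d.primeFactors, chp p (Wi Q) = jacobiSym 3 p * chp p Q := by
    intro p hp
    have hpp := Nat.prime_of_mem_primeFactors hp
    have hpd := Nat.dvd_of_mem_primeFactors hp
    apply C8.chp_Wi hs hpp _ _ (hpd.trans hd) hQ.2.1 hQ.1
    · rintro rfl
      rcases hFd with h | h <;> omega
    · rintro rfl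
      rcases hFd with h | h <;> omega
  rw [Finset.prod_congr rfl h1, Finset.prod_mul_distrib, ← C8.jac_prod 3 d.primeFactors
    (fun p hp => (Nat.prime_of_mem_primeFactors hp).ne_zero),
    Nat.prod_primeFactors_of_squarefree hsd]
  have h2 : jacobiSym 3 d = 1 := by
    have h3 := jacobiSym.quadratic_reciprocity_one_mod_four (a := d) (b := 3)
      (by rcases hFd with h | h <;> omega) (by decide)
    have h4 : jacobiSym (d : ℤ) 3 = 1 := by
      rw [jacobiSym.mod_left]
      have : (d : ℤ) % ((3 : ℕ) : ℤ) = 1 := by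
        push_cast
        rcases hFd with h | h <;> omega
      rw [this, jacobiSym.one_left]
    have h5 : jacobiSym ((3 : ℕ) : ℤ) d = 1 := by rw [← h3]; exact h4
    exact_mod_cast h5
  rw [h2, one_mul]

end Pool.Agent.H757_X15.CC
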