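import Pool.Agent.H757_X15.CS.MUL

/-!
# Project X15-C: the evaluation for a fixed `b` (C10, EVAL2)
-/

set_option autoImplicit false

namespace Pool.Agent.H757_X15.CC

open Finset
open Pool.Agent.Z700 (fac hh)
open Pool.Agent.H757_X15.DD (Fm)
open Pool.Agent.H757_X15.BB (chi4 chim2 wt c2 kap loc dis rg)

namespace Ev

theorem chi4_one : chi4 1 = 1 := by unfold chi4; norm_num

theorem chi4_neg_one : chi4 (-1) = -1 := by unfold chi4; norm_num

theorem chi4_of_one {n : ℤ} (h : n % 4 = 1) : chi4 n = 1 := by unfold chi4; rw [if_pos h]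

theorem chi4_of_three {n : ℤ} (h : n % 4 = 3) : chi4 n = -1 := by
  unfold chi4
  rw [if_neg (by omega), if_pos h]

theorem chi4_sq {n : ℤ} (h : n % 2 = 1) : chi4 n * chi4 n = 1 := by
  have h' : n % 4 = 1 ∨ n % 4 = 3 := by omega
  rcases h' with h' | h'
  · rw [chi4_of_one h']; rfl
  · rw [chi4_of_three h']; rfl

theorem JJ_eq (b A A2 : ℤ) : JJ b A A2 =
    (if (A - b) % 2 = 0 ∧ (A2 - A - 2 * b * 1) % 16 = 0 then 1 else 0) +
      (if (A - b) % 2 = 0 ∧ (A2 - A - 2 * b * (-1)) % 16 = 0 then -1 else 0) := by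
  unfold JJ
  rw [Finset.sum_pair (by decide), chi4_one, chi4_neg_one]

theorem cond_iff {A A2 b j : ℤ} (hA : A % 2 = 1) (hb : b % 2 = 1) (hj : j = 1 ∨ j = -1)
    (h : (A * A2 - (4 - b * b)) % 16 = 0) :
    (A2 - A - 2 * b * j) % 16 = 0 ↔ (b + j * A) % 4 = 2 := by
  have hjj : j * j = 1 := by rcases hj with rfl | rfl <;> norm_num
  have hw : (b + j * A) % 2 = 0 := by rcases hj with rfl | rfl <;> omega
  obtain ⟨z, hz⟩ : ∃ z, b + j * A = 2 * z := ⟨(b + j * A) / 2, by omega⟩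
  obtain ⟨k, hk⟩ := Int.dvd_of_emod_eq_zero h
  have key : A * (A2 - A - 2 * b * j) = 16 * k + 4 - 4 * (z * z) := by
    have h1 : (b + j * A) * (b + j * A) = 4 * (z * z) := by rw [hz]; ring
    have h2 : (b + j * A) * (b + j * A) = b * b + 2 * b * j * A + (j * j) * (A * A) := by ring
    rw [hjj] at h2
    linarith
  constructor
  · intro h1
    obtain ⟨m, hm⟩ := Int.dvd_of_emod_eq_zero h1
    rw [hm] at key
    have h3 : z * z = 4 * (k - A * m) + 1 := by linarith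
    rw [hz]
    rcases Int.emod_two_eq_zero_or_one z with h4 | h4
    · exfalso
      obtain ⟨y, hy⟩ := Int.dvd_of_emod_eq_zero h4
      rw [hy] at h3
      have : 4 * (y * y) = 4 * (k - A * m) + 1 := by linarith
      omega
    · omega
  · intro h1
    rw [hz] at h1
    have h4 : z % 2 = 1 := by omega
    obtain ⟨y, hy⟩ : ∃ y, z = 2 * y + 1 := ⟨z / 2, by omega⟩
    have h5 : A * (A2 - A - 2 * b * j) = 16 * (k - y * y - y) := by
      rw [key, hy]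
      ring
    have h6 : IsCoprime (16 : ℤ) A := by
      have : IsCoprime (2 : ℤ) A := by
        rw [Int.isCoprime_iff_gcd_eq_one]
        have := (Int.prime_two.coprime_iff_not_dvd (n := A)).2 (by omega)
        exact Int.isCoprime_iff_gcd_eq_one.1 this
      have h7 := this.pow_left (m := 4)
      norm_num at h7
      exact h7
    exact Int.emod_eq_zero_of_dvd (h6.dvd_of_dvd_mul_left ⟨_, h5⟩)

theorem JJ_odd {b A A2 : ℤ} (hA : A % 2 = 1) (hb : b % 2 = 1)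
    (h : (A * A2 - (4 - b * b)) % 16 = 0) : JJ b A A2 = chi4 b * chi4 A := by
  rw [JJ_eq]
  have c1 := cond_iff hA hb (Or.inl rfl) h
  have c2 := cond_iff hA hb (Or.inr rfl) h
  have hb' : b % 4 = 1 ∨ b % 4 = 3 := by omega
  have hA' : A % 4 = 1 ∨ A % 4 = 3 := by omega
  rcases hb' with hb' | hb' <;> rcases hA' with hA' | hA'
  · rw [chi4_of_one hb', chi4_of_one hA', if_pos (by omega), if_neg (by omega)]; norm_num
  · rw [chi4_of_one hb', chi4_of_three hA', if_neg (by omega), if_pos (by omega)]; norm_num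
  · rw [chi4_of_three hb', chi4_of_one hA', if_neg (by omega), if_pos (by omega)]; norm_num
  · rw [chi4_of_three hb', chi4_of_three hA', if_pos (by omega), if_neg (by omega)]; norm_num

theorem JJ_four {b A A2 : ℤ} (hb : b % 4 = 0) : JJ b A A2 = 0 := by
  rw [JJ_eq]
  by_cases h : (A - b) % 2 = 0 ∧ (A2 - A - 2 * b * 1) % 16 = 0
  · rw [if_pos h, if_pos (by omega)]; norm_num
  · rw [if_neg h, if_neg (by omega)]; norm_num

/-- the values of `JJ` at multiples of `4` -/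
theorem JJ_mul {b1 x y : ℤ} (hb : b1 % 2 = 1) (hxy : (y - x) % 2 = 1) :
    JJ (2 * b1) (4 * x) (4 * y) = chi4 b1 * chi4 (y - x) := by
  rw [JJ_eq]
  have hb' : b1 % 4 = 1 ∨ b1 % 4 = 3 := by omega
  have hA' : (y - x) % 4 = 1 ∨ (y - x) % 4 = 3 := by omega
  rcases hb' with hb' | hb' <;> rcases hA' with hA' | hA'
  · rw [chi4_of_one hb', chi4_of_one hA', if_pos (by omega), if_neg (by omega)]; norm_num
  · rw [chi4_of_one hb', chi4_of_three hA', if_neg (by omega), if_pos (by omega)]; norm_num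
  · rw [chi4_of_three hb', chi4_of_one hA', if_neg (by omega), if_pos (by omega)]; norm_num
  · rw [chi4_of_three hb', chi4_of_three hA', if_pos (by omega), if_neg (by omega)]; norm_num

/-- `JJ ≠ 0` for `b ≡ 2` modulo `4` -/
theorem JJ_ne {b1 A A2 : ℤ} (hb : b1 % 2 = 1) (hne : JJ (2 * b1) A A2 ≠ 0)
    (h16 : (A * A2) % 16 = 0) : (A % 8 = 4 ∧ A2 % 8 = 0) ∨ (A % 8 = 0 ∧ A2 % 8 = 4) := by
  rw [JJ_eq] at hne
  have h1 : A % 2 = 0 ∧ (A2 - A) % 8 = 4 := by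
    by_contra hcon
    apply hne
    rw [if_neg (by omega), if_neg (by omega)]
    rfl
  obtain ⟨h2, h3⟩ := h1
  have h4 : A % 8 = 0 ∨ A % 8 = 2 ∨ A % 8 = 4 ∨ A % 8 = 6 := by omega
  rcases h4 with h4 | h4 | h4 | h4
  · right; omega
  · exfalso
    obtain ⟨x, hx⟩ : ∃ x, A = 8 * x + 2 := ⟨A / 8, by omega⟩
    obtain ⟨y, hy⟩ : ∃ y, A2 = 8 * y + 6 := ⟨A2 / 8, by omega⟩
    have : A * A2 = 16 * (4 * (x * y) + 3 * x + y) + 12 := by rw [hx, hy]; ring
    omega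
  · left; omega
  · exfalso
    obtain ⟨x, hx⟩ : ∃ x, A = 8 * x + 6 := ⟨A / 8, by omega⟩
    obtain ⟨y, hy⟩ : ∃ y, A2 = 8 * y + 2 := ⟨A2 / 8, by omega⟩
    have : A * A2 = 16 * (4 * (x * y) + x + 3 * y) + 12 := by rw [hx, hy]; ring
    omega

theorem jac_four_mul {p : ℕ} (hp : p % 2 = 1) (x : ℤ) : jacobiSym (4 * x) p = jacobiSym x p := by
  rw [jacobiSym.mul_left, jacobiSym.at_four (Nat.odd_iff.2 hp), one_mul]

theorem jac_two_sq {p : ℕ} (hp : p % 2 = 1) : jacobiSym 2 p * jacobiSym 2 p = 1 := by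
  rw [← jacobiSym.mul_left]
  exact jacobiSym.at_four (Nat.odd_iff.2 hp)

/-- the first type -/
theorem KK_one {d : ℕ} (hd : d % 2 = 1) (a c v : ℕ) (hv : 2 ≤ v) :
    KK d (4 * a) (2 ^ (v - 2) * c) = KK d a (2 ^ v * c) := by
  unfold KK
  refine Finset.prod_congr rfl fun p hp => ?_
  have hpp := Nat.prime_of_mem_primeFactors hp
  have hp2 : p % 2 = 1 := Mul.odd_of_dvd (Nat.dvd_of_mem_primeFactors hp) hd
  have h1 : p ∣ 4 * a ↔ p ∣ a := by
    constructor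
    · intro h
      refine Nat.Coprime.dvd_of_dvd_mul_left ?_ h
      rw [Nat.Prime.coprime_iff_not_dvd hpp]
      intro h4
      have h5 : p ∣ 2 ^ 2 := h4
      have h6 := (Nat.prime_dvd_prime_iff_eq hpp Nat.prime_two).1 (hpp.dvd_of_dvd_pow h5)
      omega
    · intro h
      exact Dvd.dvd.mul_left h 4
  obtain ⟨w, rfl⟩ : ∃ w, v = w + 2 := ⟨v - 2, by omega⟩
  by_cases h : p ∣ a
  · rw [if_pos (h1.2 h), if_pos h]
    have e : (-((2 ^ (w + 2) * c : ℕ) : ℤ)) = 4 * (-((2 ^ (w + 2 - 2) * c : ℕ) : ℤ)) := by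
      rw [Nat.add_sub_cancel]
      push_cast
      ring
    rw [e, jac_four_mul hp2]
  · rw [if_neg (fun h2 => h (h1.1 h2)), if_neg h]
    push_cast
    rw [jac_four_mul hp2]

/-- the second type -/
theorem KK_two {d : ℕ} (hsq : Squarefree d) (hd : d % 2 = 1) (a c v : ℕ) (hv : 2 ≤ v) :
    KK d (2 ^ (v - 2) * a) (4 * c) = KK d a (2 ^ v * c) * jacobiSym 2 d ^ v := by
  unfold KK
  rw [← Mul.jac_sqf 2 hsq, ← Finset.prod_pow, ← Finset.prod_mul_distrib]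
  refine Finset.prod_congr rfl fun p hp => ?_
  have hpp := Nat.prime_of_mem_primeFactors hp
  have hp2 : p % 2 = 1 := Mul.odd_of_dvd (Nat.dvd_of_mem_primeFactors hp) hd
  obtain ⟨w, rfl⟩ : ∃ w, v = w + 2 := ⟨v - 2, by omega⟩
  rw [Nat.add_sub_cancel]
  have h1 : p ∣ 2 ^ w * a ↔ p ∣ a := by
    constructor
    · intro h
      refine Nat.Coprime.dvd_of_dvd_mul_left ?_ h
      rw [Nat.Prime.coprime_iff_not_dvd hpp]
      intro h4
      have h6 := (Nat.prime_dvd_prime_iff_eq hpp Nat.prime_two).1 (hpp.dvd_of_dvd_pow h4)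
      omega
    · intro h
      exact Dvd.dvd.mul_left h _
  have hs := jac_two_sq hp2
  have hpow : jacobiSym 2 p ^ (w + 2) = jacobiSym 2 p ^ w := by
    rw [pow_add, sq, hs, mul_one]
  have hpw : jacobiSym 2 p ^ w * jacobiSym 2 p ^ w = 1 := by
    rw [← mul_pow, hs, one_pow]
  rw [hpow]
  by_cases h : p ∣ a
  · rw [if_pos (h1.2 h), if_pos h]
    have e : (-((2 ^ (w + 2) * c : ℕ) : ℤ)) = 2 ^ w * (-((4 * c : ℕ) : ℤ)) := by
      push_cast
      ring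
    rw [e, jacobiSym.mul_left, jacobiSym.pow_left, mul_comm (jacobiSym 2 p ^ w), mul_assoc, hpw,
      mul_one]
  · rw [if_neg (fun h2 => h (h1.1 h2)), if_neg h]
    push_cast
    rw [jacobiSym.mul_left, jacobiSym.pow_left, mul_comm]

theorem dis_cast {D1 D2 : ℕ} {b : ℤ} (h : 0 < dis D1 D2 b) :
    (dis D1 D2 b : ℤ) = 4 * D1 * D2 - b ^ 2 := by
  unfold dis at h ⊢
  exact Int.toNat_of_nonneg (by omega)

theorem dis_fac {D1 D2 : ℕ} (s1 : Squarefree D1) (s2 : Squarefree D2) (hc : Nat.Coprime D1 D2)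
    (h1 : D1 % 2 = 1) {b : ℤ} (h : 0 < dis D1 D2 b) :
    ∀ l ∈ D1.primeFactors, (dis D1 D2 b).factorization l ≤ 1 := by
  intro l hl
  have hlp := Nat.prime_of_mem_primeFactors hl
  have hlD := Nat.dvd_of_mem_primeFactors hl
  have hl2 : l % 2 = 1 := Mul.odd_of_dvd hlD h1
  by_contra hcon
  have h2 : l ^ 2 ∣ dis D1 D2 b := (hlp.pow_dvd_iff_le_factorization h.ne').2 (by omega)
  have h3 : (l : ℤ) ^ 2 ∣ 4 * D1 * D2 - b ^ 2 := by
    rw [← dis_cast h]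
    exact_mod_cast h2
  have hlpZ : Prime (l : ℤ) := Nat.prime_iff_prime_int.1 hlp
  have h4 : (l : ℤ) ∣ 4 * D1 * D2 := by
    have : (l : ℤ) ∣ D1 := by exact_mod_cast hlD
    obtain ⟨x, hx⟩ := this
    exact ⟨4 * x * D2, by rw [hx]; ring⟩
  have h5 : (l : ℤ) ∣ b ^ 2 := by
    have h6 : (l : ℤ) ∣ 4 * D1 * D2 - b ^ 2 := (Dvd.intro _ (sq (l : ℤ)).symm).trans h3
    have h7 := dvd_sub h4 h6
    rwa [sub_sub_cancel] at h7
  have h6 : (l : ℤ) ∣ b := hlpZ.dvd_of_dvd_pow h5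
  have h7 : (l : ℤ) ^ 2 ∣ b ^ 2 := pow_dvd_pow_of_dvd h6 2
  have h8 : (l : ℤ) ^ 2 ∣ 4 * D1 * D2 := by
    have := dvd_add h3 h7
    rwa [sub_add_cancel] at this
  have h9 : l ^ 2 ∣ 4 * (D1 * D2) := by
    have : ((l ^ 2 : ℕ) : ℤ) ∣ ((4 * (D1 * D2) : ℕ) : ℤ) := by
      push_cast
      rw [← mul_assoc]
      exact h8
    exact_mod_cast this
  have h10 : Nat.Coprime (l ^ 2) 4 := by
    have : Nat.Coprime l 2 := (Nat.Prime.coprime_iff_not_dvd hlp).2 fun h => by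
      have := (Nat.prime_dvd_prime_iff_eq hlp Nat.prime_two).1 h
      omega
    exact Nat.Coprime.pow 2 2 this
  have h11 : l ^ 2 ∣ D1 * D2 := h10.dvd_of_dvd_mul_left h9
  have hsq : Squarefree (D1 * D2) := (Nat.squarefree_mul hc).2 ⟨s1, s2⟩
  have h12 := hsq l (by rw [← sq]; exact h11)
  exact hlp.one_lt.ne' (Nat.isUnit_iff.1 h12)

/-- the odd divisors divisible by `15` -/
def Od (n : ℕ) : Finset ℕ := n.divisors.filter (fun a => a % 2 = 1 ∧ 15 ∣ a)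

theorem case_odd {D1 D2 : ℕ} {b : ℤ} (h1 : D1 % 4 = 1) (h2 : D2 % 4 = 1) (hb : b % 2 = 1)
    (hpos : 0 < dis D1 D2 b)
    (hM : ∑ a ∈ Od (dis D1 D2 b), chi4 a * KK D1 a (dis D1 D2 b / a) = -loc D1 (dis D1 D2 b)) :
    ∑ A ∈ (dis D1 D2 b).divisors.filter (15 ∣ ·),
      JJ b A (dis D1 D2 b / A : ℕ) * KK D1 A (dis D1 D2 b / A) =
      wt (D1 * D2) b * (c2 D1 (dis D1 D2 b) b * loc D1 (dis D1 D2 b)) := by
  set n := dis D1 D2 b with hn
  have hcast : (n : ℤ) = 4 * D1 * D2 - b ^ 2 := dis_cast hpos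
  have hDD : ∃ k : ℤ, 4 * (D1 : ℤ) * D2 = 16 * k + 4 := by
    obtain ⟨x, hx⟩ : ∃ x : ℤ, (D1 : ℤ) = 4 * x + 1 := ⟨D1 / 4, by omega⟩
    obtain ⟨y, hy⟩ : ∃ y : ℤ, (D2 : ℤ) = 4 * y + 1 := ⟨D2 / 4, by omega⟩
    exact ⟨4 * (x * y) + x + y, by rw [hx, hy]; ring⟩
  obtain ⟨k, hk⟩ := hDD
  have hodd : n % 2 = 1 := by
    obtain ⟨y, hy⟩ : ∃ y, b = 2 * y + 1 := ⟨b / 2, by omega⟩
    have : (n : ℤ) = 2 * (8 * k + 2 - 2 * y ^ 2 - 2 * y) - 1 := by
      rw [hcast, hk, hy]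
      ring
    omega
  have hset : n.divisors.filter (15 ∣ ·) = Od n := by
    unfold Od
    refine Finset.filter_congr fun a ha => ?_
    have := Mul.odd_of_dvd (Nat.dvd_of_mem_divisors ha) hodd
    tauto
  rw [hset]
  have hsum : ∑ A ∈ Od n, JJ b A (n / A : ℕ) * KK D1 A (n / A) =
      chi4 b * ∑ a ∈ Od n, chi4 a * KK D1 a (n / a) := by
    rw [Finset.mul_sum]
    refine Finset.sum_congr rfl fun a ha => ?_
    obtain ⟨ha1, ha2, -⟩ := Finset.mem_filter.1 ha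
    have h3 : (a : ℤ) * ((n / a : ℕ) : ℤ) = n := by
      exact_mod_cast Nat.mul_div_cancel' (Nat.dvd_of_mem_divisors ha1)
    rw [JJ_odd (by omega) hb, mul_assoc]
    rw [h3, hcast, hk]
    have : 16 * k + 4 - b ^ 2 - (4 - b * b) = 16 * k := by ring
    rw [this]
    omega
  rw [hsum, hM]
  unfold wt c2
  rw [if_pos hb, if_pos hb]
  ring

theorem case_zero {D1 D2 : ℕ} {b : ℤ} (hb : b % 4 = 0) :
    ∑ A ∈ (dis D1 D2 b).divisors.filter (15 ∣ ·),
      JJ b A (dis D1 D2 b / A : ℕ) * KK D1 A (dis D1 D2 b / A) = 0 :=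
  Finset.sum_eq_zero fun A _ => by rw [JJ_four hb, zero_mul]

theorem case_five {D1 D2 : ℕ} {b : ℤ} (hD : (D1 * D2) % 8 = 5) (hb : b % 4 = 2)
    (hpos : 0 < dis D1 D2 b) :
    ∑ A ∈ (dis D1 D2 b).divisors.filter (15 ∣ ·),
      JJ b A (dis D1 D2 b / A : ℕ) * KK D1 A (dis D1 D2 b / A) = 0 := by
  refine Finset.sum_eq_zero fun A hA => ?_
  obtain ⟨hA1, -⟩ := Finset.mem_filter.1 hA
  have hcast : (dis D1 D2 b : ℤ) = 4 * D1 * D2 - b ^ 2 := dis_cast hpos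
  have h3 : (A : ℤ) * ((dis D1 D2 b / A : ℕ) : ℤ) = dis D1 D2 b := by
    exact_mod_cast Nat.mul_div_cancel' (Nat.dvd_of_mem_divisors hA1)
  obtain ⟨b1, rfl⟩ : ∃ b1, b = 2 * b1 := ⟨b / 2, by omega⟩
  have hb1 : b1 % 2 = 1 := by omega
  obtain ⟨y, hy⟩ : ∃ y, b1 = 2 * y + 1 := ⟨b1 / 2, by omega⟩
  obtain ⟨m, hm⟩ : ∃ m : ℤ, (D1 : ℤ) * D2 = 8 * m + 5 := by
    refine ⟨((D1 * D2 : ℕ) : ℤ) / 8, ?_⟩
    have : ((D1 * D2 : ℕ) : ℤ) = (D1 : ℤ) * D2 := by push_cast; ring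
    omega
  have hyy : y * (y + 1) % 2 = 0 := by
    rcases Int.emod_two_eq_zero_or_one y with h | h
    · exact Int.emod_eq_zero_of_dvd (Dvd.dvd.mul_right (Int.dvd_of_emod_eq_zero h) _)
    · exact Int.emod_eq_zero_of_dvd (Dvd.dvd.mul_left (Int.dvd_of_emod_eq_zero (by omega)) _)
  obtain ⟨z, hz⟩ := Int.dvd_of_emod_eq_zero hyy
  have hval : (dis D1 D2 (2 * b1) : ℤ) = 32 * (m - z) + 16 := by
    rw [hcast]
    have e1 : 4 * (D1 : ℤ) * D2 = 4 * (D1 * D2) := by ring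
    rw [e1, hm, hy]
    linear_combination (-16) * hz
  by_cases hne : JJ (2 * b1) A (dis D1 D2 (2 * b1) / A : ℕ) = 0
  · rw [hne, zero_mul]
  exfalso
  rw [hval] at h3
  rcases JJ_ne hb1 hne (by rw [h3]; omega) with ⟨h4, h5⟩ | ⟨h4, h5⟩
  · obtain ⟨x, hx⟩ : ∃ x : ℤ, (A : ℤ) = 4 * x := ⟨A / 4, by omega⟩
    obtain ⟨w, hw⟩ : ∃ w : ℤ, ((dis D1 D2 (2 * b1) / A : ℕ) : ℤ) = 8 * w :=
      ⟨((dis D1 D2 (2 * b1) / A : ℕ) : ℤ) / 8, by omega⟩
    rw [hx, hw] at h3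
    have : 4 * x * (8 * w) = 32 * (x * w) := by ring
    omega
  · obtain ⟨x, hx⟩ : ∃ x : ℤ, (A : ℤ) = 8 * x := ⟨A / 8, by omega⟩
    obtain ⟨w, hw⟩ : ∃ w : ℤ, ((dis D1 D2 (2 * b1) / A : ℕ) : ℤ) = 4 * w :=
      ⟨((dis D1 D2 (2 * b1) / A : ℕ) : ℤ) / 4, by omega⟩
    rw [hx, hw] at h3
    have : 8 * x * (4 * w) = 32 * (x * w) := by ring
    omega

/-- the sign -/
def sgn5 (v : ℕ) : ℤ := if v = 5 then 1 else -1

theorem chi_first {v : ℕ} (hv : 5 ≤ v) {a c : ℤ} (ha : a % 2 = 1) (hc : c % 2 = 1) :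
    (2 ^ (v - 4) * c - a) % 2 = 1 ∧ chi4 (2 ^ (v - 4) * c - a) = sgn5 v * chi4 a := by
  unfold sgn5
  have ha' : a % 4 = 1 ∨ a % 4 = 3 := by omega
  by_cases h5 : v = 5
  · subst h5
    rw [if_pos rfl]
    norm_num
    refine ⟨by omega, ?_⟩
    rcases ha' with ha' | ha'
    · rw [chi4_of_one ha', chi4_of_one (by omega)]
    · rw [chi4_of_three ha', chi4_of_three (by omega)]
  · rw [if_neg h5]
    obtain ⟨w, rfl⟩ : ∃ w, v = w + 6 := ⟨v - 6, by omega⟩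
    have e : (2 : ℤ) ^ (w + 6 - 4) * c = 4 * (2 ^ w * c) := by
      have : w + 6 - 4 = w + 2 := by omega
      rw [this, pow_add]
      ring
    rw [e]
    refine ⟨by omega, ?_⟩
    rcases ha' with ha' | ha'
    · rw [chi4_of_one ha', chi4_of_three (by omega)]; rfl
    · rw [chi4_of_three ha', chi4_of_one (by omega)]; rfl

theorem chi_second {v : ℕ} (hv : 5 ≤ v) {a c : ℤ} (ha : a % 2 = 1) (hc : c % 2 = 1) :
    (c - 2 ^ (v - 4) * a) % 2 = 1 ∧ chi4 (c - 2 ^ (v - 4) * a) = -sgn5 v * chi4 c := by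
  unfold sgn5
  have hc' : c % 4 = 1 ∨ c % 4 = 3 := by omega
  by_cases h5 : v = 5
  · subst h5
    rw [if_pos rfl]
    norm_num
    refine ⟨by omega, ?_⟩
    rcases hc' with hc' | hc'
    · rw [chi4_of_one hc', chi4_of_three (by omega)]
    · rw [chi4_of_three hc', chi4_of_one (by omega)]; rfl
  · rw [if_neg h5]
    obtain ⟨w, rfl⟩ : ∃ w, v = w + 6 := ⟨v - 6, by omega⟩
    have e : (2 : ℤ) ^ (w + 6 - 4) * a = 4 * (2 ^ w * a) := by
      have : w + 6 - 4 = w + 2 := by omega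
      rw [this, pow_add]
      ring
    rw [e]
    refine ⟨by omega, ?_⟩
    rcases hc' with hc' | hc'
    · rw [chi4_of_one hc', chi4_of_one (by omega)]; rfl
    · rw [chi4_of_three hc', chi4_of_three (by omega)]; rfl

theorem sign_eq {M z b1 : ℤ} {k : ℕ} (hM : M = k) (hb : b1 ^ 2 = 8 * z + 1) {v : ℕ}
    (hv : v = 5 ↔ (M - z) % 2 = 1) :
    -(chi4 b1 * sgn5 v) = (-1) ^ k * chim2 b1 := by
  have hk : (-1 : ℤ) ^ k = if M % 2 = 0 then 1 else -1 := by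
    rcases Nat.even_or_odd k with h | h
    · rw [h.neg_one_pow, if_pos]
      obtain ⟨i, hi⟩ := h
      omega
    · rw [h.neg_one_pow, if_neg]
      obtain ⟨i, hi⟩ := h
      omega
  have hs : sgn5 v = if (M - z) % 2 = 1 then 1 else -1 := by
    unfold sgn5
    by_cases h : v = 5
    · rw [if_pos h, if_pos (hv.1 h)]
    · rw [if_neg h, if_neg (fun h2 => h (hv.2 h2))]
  rw [hk, hs]
  have hodd : b1 % 2 = 1 := by
    rcases Int.emod_two_eq_zero_or_one b1 with h | h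
    · exfalso
      obtain ⟨y, hy⟩ := Int.dvd_of_emod_eq_zero h
      have : b1 ^ 2 = 4 * y ^ 2 := by rw [hy]; ring
      omega
    · exact h
  have h8 : b1 % 8 = 1 ∨ b1 % 8 = 3 ∨ b1 % 8 = 5 ∨ b1 % 8 = 7 := by omega
  have hall : (chi4 b1 = 1 ∧ chim2 b1 = 1 ∧ z % 2 = 0) ∨ (chi4 b1 = -1 ∧ chim2 b1 = 1 ∧ z % 2 = 1) ∨
      (chi4 b1 = 1 ∧ chim2 b1 = -1 ∧ z % 2 = 1) ∨ (chi4 b1 = -1 ∧ chim2 b1 = -1 ∧ z % 2 = 0) := by
    rcases h8 with h | h | h | h
    · obtain ⟨t, ht⟩ : ∃ t, b1 = 8 * t + 1 := ⟨b1 / 8, by omega⟩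
      have : b1 ^ 2 = 8 * (2 * (4 * t ^ 2 + t)) + 1 := by rw [ht]; ring
      refine Or.inl ⟨chi4_of_one (by omega), ?_, by omega⟩
      unfold chim2
      rw [if_pos (Or.inl h)]
    · obtain ⟨t, ht⟩ : ∃ t, b1 = 8 * t + 3 := ⟨b1 / 8, by omega⟩
      have : b1 ^ 2 = 8 * (2 * (4 * t ^ 2 + 3 * t) + 1) + 1 := by rw [ht]; ring
      refine Or.inr (Or.inl ⟨chi4_of_three (by omega), ?_, by omega⟩)
      unfold chim2
      rw [if_pos (Or.inr h)]
    · obtain ⟨t, ht⟩ : ∃ t, b1 = 8 * t + 5 := ⟨b1 / 8, by omega⟩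
      have : b1 ^ 2 = 8 * (2 * (4 * t ^ 2 + 5 * t + 1) + 1) + 1 := by rw [ht]; ring
      refine Or.inr (Or.inr (Or.inl ⟨chi4_of_one (by omega), ?_, by omega⟩))
      unfold chim2
      rw [if_neg (by omega), if_pos (Or.inl h)]
    · obtain ⟨t, ht⟩ : ∃ t, b1 = 8 * t + 7 := ⟨b1 / 8, by omega⟩
      have : b1 ^ 2 = 8 * (2 * (4 * t ^ 2 + 7 * t + 3)) + 1 := by rw [ht]; ring
      refine Or.inr (Or.inr (Or.inr ⟨chi4_of_three (by omega), ?_, by omega⟩))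
      unfold chim2
      rw [if_neg (by omega), if_pos (Or.inr h)]
  rcases hall with ⟨h1, h2, h3⟩ | ⟨h1, h2, h3⟩ | ⟨h1, h2, h3⟩ | ⟨h1, h2, h3⟩ <;>
    rcases Int.emod_two_eq_zero_or_one M with hM2 | hM2 <;> rw [h1, h2]
  · rw [if_neg (by omega), if_pos hM2]; norm_num
  · rw [if_pos (by omega), if_neg (by omega)]; norm_num
  · rw [if_pos (by omega), if_pos hM2]; norm_num
  · rw [if_neg (by omega), if_neg (by omega)]; norm_num
  · rw [if_pos (by omega), if_pos hM2]; norm_num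
  · rw [if_neg (by omega), if_neg (by omega)]; norm_num
  · rw [if_neg (by omega), if_pos hM2]; norm_num
  · rw [if_pos (by omega), if_neg (by omega)]; norm_num

theorem case_one {D1 D2 : ℕ} {b1 : ℤ} (s1 : Squarefree D1) (h1 : D1 % 2 = 1)
    (hD : (D1 * D2) % 8 = 1) (hb : b1 % 2 = 1) (hpos : 0 < dis D1 D2 (2 * b1))
    (hM : ∑ a ∈ Od (dis D1 D2 (2 * b1)), chi4 a * KK D1 a (dis D1 D2 (2 * b1) / a) =
      -loc D1 (dis D1 D2 (2 * b1))) :
    ∑ A ∈ (dis D1 D2 (2 * b1)).divisors.filter (15 ∣ ·),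
      JJ (2 * b1) A (dis D1 D2 (2 * b1) / A : ℕ) * KK D1 A (dis D1 D2 (2 * b1) / A) =
      wt (D1 * D2) (2 * b1) * (c2 D1 (dis D1 D2 (2 * b1)) (2 * b1) *
        loc D1 (dis D1 D2 (2 * b1))) := by
  have hcast : (dis D1 D2 (2 * b1) : ℤ) = 4 * D1 * D2 - (2 * b1) ^ 2 := dis_cast hpos
  set n := dis D1 D2 (2 * b1) with hn
  obtain ⟨M, hMD⟩ : ∃ M : ℕ, D1 * D2 = 8 * M + 1 := ⟨D1 * D2 / 8, by omega⟩
  obtain ⟨y, hy⟩ : ∃ y, b1 = 2 * y + 1 := ⟨b1 / 2, by omega⟩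
  have hyy : y * (y + 1) % 2 = 0 := by
    rcases Int.emod_two_eq_zero_or_one y with h | h
    · exact Int.emod_eq_zero_of_dvd (Dvd.dvd.mul_right (Int.dvd_of_emod_eq_zero h) _)
    · exact Int.emod_eq_zero_of_dvd (Dvd.dvd.mul_left (Int.dvd_of_emod_eq_zero (by omega)) _)
  obtain ⟨z, hz⟩ := Int.dvd_of_emod_eq_zero hyy
  have hbz : b1 ^ 2 = 8 * z + 1 := by
    rw [hy]
    linear_combination 4 * hz
  have hMDZ : (D1 : ℤ) * D2 = 8 * M + 1 := by exact_mod_cast hMD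
  have hval : (n : ℤ) = 32 * ((M : ℤ) - z) := by
    rw [hcast]
    linear_combination 4 * hMDZ - 4 * hbz
  -- the power of two
  set v := n.factorization 2 with hv
  set δ := n / 2 ^ v with hδ
  have hnδ : 2 ^ v * δ = n := Nat.ordProj_mul_ordCompl_eq_self n 2
  have hδodd : δ % 2 = 1 := by
    have := Nat.not_dvd_ordCompl Nat.prime_two hpos.ne'
    have h3 : ¬ 2 ∣ δ := this
    omega
  have hv5 : 5 ≤ v := by
    refine (Nat.prime_two.pow_dvd_iff_le_factorization hpos.ne').1 ?_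
    have : (32 : ℤ) ∣ n := ⟨_, hval⟩
    exact_mod_cast this
  have hv5' : v = 5 ↔ ((M : ℤ) - z) % 2 = 1 := by
    have h6 : 2 ^ 6 ∣ n ↔ 6 ≤ v := Nat.prime_two.pow_dvd_iff_le_factorization hpos.ne'
    constructor
    · intro h
      by_contra hcon
      have : 2 ^ 6 ∣ n := by
        have h7 : (64 : ℤ) ∣ n := by
          obtain ⟨w, hw⟩ : ∃ w, (M : ℤ) - z = 2 * w := ⟨((M : ℤ) - z) / 2, by omega⟩
          exact ⟨w, by rw [hval, hw]; ring⟩
        exact_mod_cast h7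
      have := h6.1 this
      omega
    · intro h
      by_contra hcon
      have h7 := h6.2 (by omega)
      have h8 : ((2 ^ 6 : ℕ) : ℤ) ∣ n := by exact_mod_cast h7
      obtain ⟨w, hw⟩ := h8
      rw [hval] at hw
      push_cast at hw
      omega
  have hpow2 : (2 : ℕ) ^ v = 4 * 2 ^ (v - 2) := by
    obtain ⟨w, hw⟩ : ∃ w, v = w + 2 := ⟨v - 2, by omega⟩
    rw [hw, Nat.add_sub_cancel, pow_add]
    ring
  have hpow4 : (2 : ℤ) ^ (v - 2) = 4 * 2 ^ (v - 4) := by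
    obtain ⟨w, hw⟩ : ∃ w, v = w + 4 := ⟨v - 4, by omega⟩
    have e1 : v - 2 = w + 2 := by omega
    have e2 : v - 4 = w := by omega
    rw [e1, e2, pow_add]
    ring
  have hp0 : 0 < 2 ^ (v - 2) := Nat.pos_of_ne_zero (pow_ne_zero _ (by norm_num))
  have hpe : 2 ∣ 2 ^ (v - 2) := dvd_pow_self 2 (by omega)
  -- the odd divisors
  have hOd : ∀ a ∈ Od n, ∃ c : ℕ, δ = a * c ∧ a % 2 = 1 ∧ c % 2 = 1 ∧ 15 ∣ a ∧ 0 < a ∧ 0 < c := by
    intro a ha
    obtain ⟨ha1, ha2, ha3⟩ := Finset.mem_filter.1 ha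
    have h4 : a ∣ 2 ^ v * δ := by rw [hnδ]; exact Nat.dvd_of_mem_divisors ha1
    have h5 : Nat.Coprime a (2 ^ v) := by
      refine Nat.Coprime.pow_right v ?_
      rw [Nat.coprime_comm, Nat.Prime.coprime_iff_not_dvd Nat.prime_two]
      omega
    obtain ⟨c, hc⟩ := h5.dvd_of_dvd_mul_left h4
    refine ⟨c, hc, ha2, ?_, ha3, by omega, ?_⟩
    · exact Mul.odd_of_dvd (Dvd.intro_left a hc.symm) hδodd
    · rcases Nat.eq_zero_or_pos c with h | h
      · rw [h, mul_zero] at hc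
        omega
      · exact h
  set J := jacobiSym 2 D1 with hJ
  set F : ℕ → ℤ := fun A => JJ (2 * b1) A (n / A : ℕ) * KK D1 A (n / A) with hF
  have hF1 : ∀ a ∈ Od n, F (4 * a) = chi4 b1 * sgn5 v * (chi4 a * KK D1 a (n / a)) := by
    intro a ha
    obtain ⟨c, hc, ha2, hc2, -, ha0, hc0⟩ := hOd a ha
    have e1 : n / (4 * a) = 2 ^ (v - 2) * c := by
      refine Nat.div_eq_of_eq_mul_left (by omega) ?_
      rw [← hnδ, hc, hpow2]
      ring
    have e2 : n / a = 2 ^ v * c := by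
      refine Nat.div_eq_of_eq_mul_left ha0 ?_
      rw [← hnδ, hc]
      ring
    show JJ (2 * b1) (4 * a : ℕ) (n / (4 * a) : ℕ) * KK D1 (4 * a) (n / (4 * a)) = _
    rw [e1, e2, KK_one h1 a c v (by omega)]
    have e3 : ((2 ^ (v - 2) * c : ℕ) : ℤ) = 4 * (2 ^ (v - 4) * (c : ℤ)) := by
      push_cast
      rw [hpow4]
      ring
    have e4 : ((4 * a : ℕ) : ℤ) = 4 * (a : ℤ) := by push_cast; ring
    obtain ⟨q1, q2⟩ := chi_first hv5 (a := (a : ℤ)) (c := (c : ℤ)) (by omega) (by omega)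
    rw [e3, e4, JJ_mul hb q1, q2]
    ring
  have hF2 : ∀ a ∈ Od n, F (2 ^ (v - 2) * a) =
      -(chi4 b1 * sgn5 v * (chi4 δ * J ^ v)) * (chi4 a * KK D1 a (n / a)) := by
    intro a ha
    obtain ⟨c, hc, ha2, hc2, -, ha0, hc0⟩ := hOd a ha
    have e1 : n / (2 ^ (v - 2) * a) = 4 * c := by
      refine Nat.div_eq_of_eq_mul_left (Nat.mul_pos hp0 ha0) ?_
      rw [← hnδ, hc, hpow2]
      ring
    have e2 : n / a = 2 ^ v * c := by
      refine Nat.div_eq_of_eq_mul_left ha0 ?_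
      rw [← hnδ, hc]
      ring
    show JJ (2 * b1) (2 ^ (v - 2) * a : ℕ) (n / (2 ^ (v - 2) * a) : ℕ) *
      KK D1 (2 ^ (v - 2) * a) (n / (2 ^ (v - 2) * a)) = _
    rw [e1, e2, KK_two s1 h1 a c v (by omega)]
    have e3 : ((2 ^ (v - 2) * a : ℕ) : ℤ) = 4 * (2 ^ (v - 4) * (a : ℤ)) := by
      push_cast
      rw [hpow4]
      ring
    have e4 : ((4 * c : ℕ) : ℤ) = 4 * (c : ℤ) := by push_cast; ring
    obtain ⟨q1, q2⟩ := chi_second hv5 (a := (a : ℤ)) (c := (c : ℤ)) (by omega) (by omega)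
    have e5 : chi4 (δ : ℤ) = chi4 a * chi4 c := by
      rw [hc]
      exact Mul.chi4_mul a c ha2 hc2
    have e6 : chi4 (a : ℤ) * chi4 (a : ℤ) = 1 := Mul.chi4_sq a ha2
    rw [e3, e4, JJ_mul hb q1, q2, e5, ← hJ]
    linear_combination (-(chi4 b1 * sgn5 v * chi4 (c : ℤ) * KK D1 a (2 ^ v * c) * J ^ v)) * (-e6)
  have hF0 : ∀ A ∈ n.divisors.filter (15 ∣ ·), A ∉ (Od n).image (4 * ·) ∪
      (Od n).image (2 ^ (v - 2) * ·) → F A = 0 := by
    intro A hA hnot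
    obtain ⟨hA1, hA15⟩ := Finset.mem_filter.1 hA
    have hAn : A ∣ n := Nat.dvd_of_mem_divisors hA1
    have h3 : A * (n / A) = n := Nat.mul_div_cancel' hAn
    have h3Z : (A : ℤ) * ((n / A : ℕ) : ℤ) = n := by exact_mod_cast h3
    show JJ (2 * b1) A (n / A : ℕ) * KK D1 A (n / A) = 0
    by_cases hne : JJ (2 * b1) A (n / A : ℕ) = 0
    · rw [hne, zero_mul]
    exfalso
    apply hnot
    rcases JJ_ne hb hne (by rw [h3Z, hval]; omega) with ⟨h4, h5⟩ | ⟨h4, h5⟩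
    · refine Finset.mem_union_left _ (Finset.mem_image.2 ⟨A / 4, ?_, by show 4 * (A / 4) = A; omega⟩)
      refine Finset.mem_filter.2 ⟨Nat.mem_divisors.2 ⟨?_, hpos.ne'⟩, by omega, by omega⟩
      exact (Nat.div_dvd_of_dvd (by omega)).trans hAn
    · obtain ⟨c, hc⟩ : ∃ c, n / A = 4 * c := ⟨(n / A) / 4, by omega⟩
      have hc2 : c % 2 = 1 := by omega
      rw [hc] at h3
      have h6 : 2 ^ (v - 2) * δ = A * c := by
        have h7 : 4 * (2 ^ (v - 2) * δ) = 4 * (A * c) := by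
          calc 4 * (2 ^ (v - 2) * δ) = 2 ^ v * δ := by rw [hpow2]; ring
            _ = A * (4 * c) := by rw [hnδ, h3]
            _ = 4 * (A * c) := by ring
        exact Nat.eq_of_mul_eq_mul_left (by norm_num) h7
      have h7 : Nat.Coprime (2 ^ (v - 2)) c := by
        refine Nat.Coprime.pow_left _ ?_
        rw [Nat.Prime.coprime_iff_not_dvd Nat.prime_two]
        omega
      obtain ⟨a, ha⟩ := h7.dvd_of_dvd_mul_right (Dvd.intro δ h6)
      have h8 : δ = a * c := by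
        rw [ha, mul_assoc] at h6
        exact Nat.eq_of_mul_eq_mul_left hp0 h6
      refine Finset.mem_union_right _ (Finset.mem_image.2 ⟨a, ?_, ha.symm⟩)
      refine Finset.mem_filter.2 ⟨Nat.mem_divisors.2 ⟨?_, hpos.ne'⟩, ?_, ?_⟩
      · rw [← hnδ, h8]
        exact ⟨2 ^ v * c, by ring⟩
      · exact Mul.odd_of_dvd (Dvd.intro c h8.symm) hδodd
      · rw [ha] at hA15
        refine Nat.Coprime.dvd_of_dvd_mul_left ?_ hA15
        exact Nat.Coprime.pow_right _ (by norm_num)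
  have hsub : (Od n).image (4 * ·) ∪ (Od n).image (2 ^ (v - 2) * ·) ⊆
      n.divisors.filter (15 ∣ ·) := by
    intro A hA
    rcases Finset.mem_union.1 hA with h | h
    · obtain ⟨a, ha, rfl⟩ := Finset.mem_image.1 h
      obtain ⟨c, hc, -, -, h15, -, -⟩ := hOd a ha
      refine Finset.mem_filter.2 ⟨Nat.mem_divisors.2 ⟨⟨2 ^ (v - 2) * c, ?_⟩, hpos.ne'⟩,
        Dvd.dvd.mul_left h15 4⟩
      rw [← hnδ, hc, hpow2]
      ring
    · obtain ⟨a, ha, rfl⟩ := Finset.mem_image.1 h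
      obtain ⟨c, hc, -, -, h15, -, -⟩ := hOd a ha
      refine Finset.mem_filter.2 ⟨Nat.mem_divisors.2 ⟨⟨4 * c, ?_⟩, hpos.ne'⟩,
        Dvd.dvd.mul_left h15 _⟩
      rw [← hnδ, hc, hpow2]
      ring
  have hdisj : Disjoint ((Od n).image (4 * ·)) ((Od n).image (2 ^ (v - 2) * ·)) := by
    rw [Finset.disjoint_left]
    intro A h h'
    obtain ⟨a, ha, rfl⟩ := Finset.mem_image.1 h
    obtain ⟨a', ha', haa⟩ := Finset.mem_image.1 h'
    obtain ⟨c, hc, ha2, -, -, -, -⟩ := hOd a ha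
    have h8 : (2 : ℕ) ^ (v - 2) = 8 * 2 ^ (v - 5) := by
      obtain ⟨w, hw⟩ : ∃ w, v = w + 5 := ⟨v - 5, by omega⟩
      have e1 : v - 2 = w + 3 := by omega
      have e2 : v - 5 = w := by omega
      rw [e1, e2, pow_add]
      ring
    have h9 : 8 * (2 ^ (v - 5) * a') = 4 * a := by
      rw [← mul_assoc, ← h8]
      exact haa
    omega
  have hsum : ∑ A ∈ n.divisors.filter (15 ∣ ·), F A =
      ∑ a ∈ Od n, F (4 * a) + ∑ a ∈ Od n, F (2 ^ (v - 2) * a) := by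
    rw [← Finset.sum_subset hsub hF0, Finset.sum_union hdisj, Finset.sum_image, Finset.sum_image]
    · intro a _ a' _ h
      exact Nat.eq_of_mul_eq_mul_left hp0 h
    · intro a _ a' _ h
      exact Nat.eq_of_mul_eq_mul_left (by norm_num) h
  show ∑ A ∈ n.divisors.filter (15 ∣ ·), F A = _
  rw [hsum, Finset.sum_congr rfl hF1, Finset.sum_congr rfl hF2, ← Finset.mul_sum,
    ← Finset.mul_sum, hM]
  have hJ1 : J ^ v = 1 ∨ J ^ v = -1 := by
    have h3 : J * J = 1 := jac_two_sq h1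
    have h4 : J ^ v * J ^ v = 1 := by rw [← mul_pow, h3, one_pow]
    exact mul_self_eq_one_iff.1 h4
  have hchi1 : chi4 (δ : ℤ) = 1 ∨ chi4 (δ : ℤ) = -1 := by
    have h' : (δ : ℤ) % 4 = 1 ∨ (δ : ℤ) % 4 = 3 := by omega
    rcases h' with h' | h'
    · exact Or.inl (chi4_of_one h')
    · exact Or.inr (chi4_of_three h')
  have hkap : 1 - chi4 (δ : ℤ) * J ^ v = 2 * kap D1 n := by
    unfold kap
    rw [← hv, ← hδ, ← hJ]
    rcases hJ1 with h3 | h3 <;> rcases hchi1 with h4 | h4 <;> rw [h3, h4] <;> norm_num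
  have hwt : wt (D1 * D2) (2 * b1) = (-1) ^ M * chim2 b1 := by
    unfold wt
    rw [if_neg (by omega), if_pos (by omega)]
    have e1 : (D1 * D2 - 1) / 8 = M := by omega
    have e2 : 2 * b1 / 2 = b1 := by omega
    rw [e1, e2]
  have hc2 : c2 D1 n (2 * b1) = 2 * kap D1 n := by
    unfold c2
    rw [if_neg (by omega), if_pos (by omega)]
  rw [hwt, hc2, ← sign_eq (M := (M : ℤ)) rfl hbz hv5', ← hkap]
  ring

end Ev

/-- C10 (EVAL2) -/
theorem t_EVAL2 : S_EVAL2 := by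
  intro hMUL D1 D2 s1 f1 s2 f2 hc hne r hr b hb
  obtain ⟨hb1, hb3, hb5, hpos⟩ := Finset.mem_filter.1 hb
  have h1 : D1 % 4 = 1 := by rcases f1 with h | h <;> omega
  have h2 : D2 % 4 = 1 := by rcases f2 with h | h <;> omega
  have hM := hMUL D1 s1 f1 (dis D1 D2 b) hpos (Ev.dis_fac s1 s2 hc (by omega) hpos)
  have hD4 : (D1 * D2) % 4 = 1 := by rw [Nat.mul_mod, h1, h2]
  rcases Int.emod_two_eq_zero_or_one b with hbe | hbo
  · have hb4 : b % 4 = 0 ∨ b % 4 = 2 := by omega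
    rcases hb4 with hb4 | hb4
    · rw [Ev.case_zero hb4]
      by_cases hcond : b % 2 = 1 ∨ (D1 * D2) % 8 = 1
      · rw [if_pos hcond]
        unfold wt
        rw [if_neg (by omega), if_neg (by omega), zero_mul]
      · rw [if_neg hcond]
    · have hD8 : (D1 * D2) % 8 = 1 ∨ (D1 * D2) % 8 = 5 := by omega
      rcases hD8 with hD8 | hD8
      · rw [if_pos (Or.inr hD8)]
        obtain ⟨b1, rfl⟩ : ∃ b1, b = 2 * b1 := ⟨b / 2, by omega⟩
        exact Ev.case_one s1 (by omega) hD8 (by omega) hpos hM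
      · rw [if_neg (by omega)]
        exact Ev.case_five hD8 hb4 hpos
  · rw [if_pos (Or.inl hbo)]
    exact Ev.case_odd h1 h2 hbo hpos hM

end Pool.Agent.H757_X15.CC
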