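import Pool.Agent.H757_X15.CS.EvC2c

/-!
# X15-C5 (helper621): evaluation of the divisor sums, `t_C2 : S_C2`
-/

set_option autoImplicit false

namespace Pool.Agent.H757_X15.CS5

open Finset
open Pool.Agent.Z700 (fac hh)
open Pool.Agent.Y574.Z7 (sum_local div_split chp chp_mul chp_one chp_self chp_nd chp_sq chp_pm jac_eq jac_prod)
open Pool.Agent.H757_X15.DD (Fm)
open Pool.Agent.H757_X15.BB (chi4 chim2 wt c2 loc kap pf3)
open Pool.Agent.H757_X15.CC (WW TT ps4 psp S_C2)

/-- the primes apart from `3` and `5` -/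
def Q' (D m n : ℕ) : Finset ℕ := ((QQ D m n).erase 3).erase 5

/-- the local factor or one -/
def Ff (D S T l : ℕ) : ℤ := if l ∈ (S * T).primeFactors then fac D (S * T) l else 1

section
variable {D S T s t m n : ℕ} (h : Dat D S T s t m n)
include h

theorem mem_Q' {l : ℕ} (hl : l ∈ Q' D m n) :
    l.Prime ∧ l ≠ 2 ∧ l ≠ 3 ∧ l ≠ 5 ∧ (l ∉ D.primeFactors → l ∈ (m * n).primeFactors) := by
  unfold Q' at hl
  have h1 := Finset.mem_erase.1 hl
  have h2 := Finset.mem_erase.1 h1.2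
  refine ⟨QQ_prime l h2.2, QQ_ne2 h l h2.2, h2.1, h1.1, fun h3 => ?_⟩
  unfold QQ at h2
  rcases Finset.mem_insert.1 h2.2 with h4 | h4
  · exact absurd h4 h2.1
  rcases Finset.mem_insert.1 h4 with h4 | h4
  · exact absurd h4 h1.1
  rcases Finset.mem_union.1 h4 with h4 | h4
  · exact absurd h4 h3
  · exact h4

theorem P_sub_Q' : D.primeFactors ⊆ Q' D m n := fun _ hp =>
  Finset.mem_erase.2 ⟨pf_ne5 h.fm hp, Finset.mem_erase.2 ⟨pf_ne3 h.fm hp, sub_QQ hp⟩⟩

theorem mem_D {l : ℕ} (hl : l.Prime) : l ∈ (S * T).primeFactors ↔ l ∣ S ∨ l ∣ T := by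
  rw [Nat.mem_primeFactors, Nat.Prime.dvd_mul hl]
  exact ⟨fun hh => hh.2.1, fun hh => ⟨hl, hh, mul_ne_zero (S0 h) (T0 h)⟩⟩

/-- the primes away from `D` divide `S` or `T` -/
theorem mem_D' {l : ℕ} (hl : l ∈ Q' D m n) (hD : l ∉ D.primeFactors) : l ∈ (S * T).primeFactors := by
  obtain ⟨hp, h2, h3, h5, hm⟩ := mem_Q' h hl
  have h6 := Nat.mem_primeFactors.1 (hm hD)
  rw [mem_D h hp]
  rcases (Nat.Prime.dvd_mul hp).1 h6.2.1 with h7 | h7
  · exact Or.inl ((dvdS h hp h2).2 h7)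
  · exact Or.inr ((dvdT h hp h2).2 h7)

theorem Ls_Q' {l : ℕ} (hl : l ∈ Q' D m n) :
    Ls D S T m n l = (if l ∈ D.primeFactors then Ps D l ^ S.factorization l * chp l S else 1) *
      Ff D S T l := by
  obtain ⟨hp, h2, h3, h5, hm⟩ := mem_Q' h hl
  by_cases hlD : l ∈ D.primeFactors
  · have hd := dd_iff h (Nat.dvd_of_mem_primeFactors hlD)
    have hD' : l ∈ (S * T).primeFactors ↔ l ∣ T := by rw [mem_D h hp, hd, or_self]
    rw [if_pos hlD, Ls_p h hlD]
    unfold Ff
    simp only [hD']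
  · have hlD' : ¬ l ∣ D := fun hd => hlD (Nat.mem_primeFactors.2 ⟨hp, hd, fm_ne h.fm⟩)
    rw [if_neg hlD, one_mul, Ls_gen h hp h2 h3 h5 hlD']
    unfold Ff
    rw [if_pos (mem_D' h hl hlD)]

/-- the product of the local factors -/
theorem prod_Ff : ∏ l ∈ Q' D m n, Ff D S T l = ∏ l ∈ (pf3 (S * T)).erase 5, fac D (S * T) l := by
  classical
  unfold Ff
  rw [Finset.prod_ite_mem]
  refine Finset.prod_congr ?_ fun _ _ => rfl
  ext l
  rw [Finset.mem_inter]
  unfold pf3
  constructor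
  · rintro ⟨h1, h2⟩
    obtain ⟨hp, l2, l3, l5, _⟩ := mem_Q' h h1
    exact Finset.mem_erase.2 ⟨l5, Finset.mem_erase.2 ⟨l3, Finset.mem_erase.2 ⟨l2, h2⟩⟩⟩
  · intro h1
    have h3 := Finset.mem_erase.1 h1
    have h4 := Finset.mem_erase.1 h3.2
    have h5 := Finset.mem_erase.1 h4.2
    refine ⟨?_, h5.2⟩
    have hp := Nat.prime_of_mem_primeFactors h5.2
    unfold Q'
    refine Finset.mem_erase.2 ⟨h3.1, Finset.mem_erase.2 ⟨h4.1, pf_QQ ?_⟩⟩
    refine Nat.mem_primeFactors.2 ⟨hp, (Nat.Prime.dvd_mul hp).2 ?_, mul_ne_zero (m0 h) (n0 h)⟩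
    rcases (mem_D h hp).1 h5.2 with h6 | h6
    · exact Or.inl ((dvdS h hp h5.1).1 h6)
    · exact Or.inr ((dvdT h hp h5.1).1 h6)

omit h in
theorem alt0 (k : ℕ) : ∑ j ∈ range (2 * k + 1 + 1), (-1 : ℤ) ^ j = 0 := by
  induction k with
  | zero => simp [Finset.sum_range_succ]
  | succ k ih =>
    rw [show 2 * (k + 1) + 1 + 1 = (2 * k + 1 + 1) + 1 + 1 by ring, Finset.sum_range_succ,
      Finset.sum_range_succ, ih, pow_succ (-1 : ℤ) (2 * k + 1 + 1)]
    ring

/-- the sign -/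
theorem sign_eq (hodd : Odd (S.factorization 3)) (hF : ∀ l ∈ Q' D m n, Ff D S T l ≠ 0) :
    ∏ l ∈ D.primeFactors, (Ps D l ^ S.factorization l * chp l m) = -chi4 m := by
  classical
  have e1 : Ps D m = chi4 m * ∏ l ∈ D.primeFactors, chp l m := rfl
  have hsub : m.primeFactors ⊆ QQ D m n :=
    (Nat.primeFactors_mono (dvd_mul_right m n) (mul_ne_zero (m0 h) (n0 h))).trans pf_QQ
  have f3 : m.factorization 3 = S.factorization 3 := (facS h Nat.prime_three (by norm_num)).symm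
  have e2 : Ps D m = -∏ l ∈ D.primeFactors, Ps D l ^ S.factorization l := by
    rw [Ps_fac D (QQ D m n) m (m0 h) hsub, ← Finset.mul_prod_erase _ _ (mem_QQ3 (D := D) (m := m) (n := n)),
      Ps_three h.sq h.fm, f3, hodd.neg_one_pow,
      ← Finset.mul_prod_erase _ _ (Finset.mem_erase.2 ⟨by norm_num, mem_QQ5 (D := D) (m := m) (n := n)⟩ :
        5 ∈ (QQ D m n).erase 3), Ps_five h.sq h.fm, one_pow, one_mul, neg_one_mul]
    congr 1
    have e3 : ∏ l ∈ D.primeFactors, Ps D l ^ S.factorization l = ∏ l ∈ D.primeFactors, Ps D l ^ m.factorization l :=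
      Finset.prod_congr rfl fun l hl => by
        rw [facS h (Nat.prime_of_mem_primeFactors hl) (pf_ne2 h.fm hl)]
    rw [e3]
    symm
    refine Finset.prod_subset (P_sub_Q' h) fun l hl hlP => ?_
    obtain ⟨hp, h2, h3, h5, hm⟩ := mem_Q' h hl
    have hn : ¬ l ∣ D := fun hd => hlP (Nat.mem_primeFactors.2 ⟨hp, hd, fm_ne h.fm⟩)
    have h6 := hF l hl
    unfold Ff at h6
    rw [if_pos (mem_D' h hl hlP), facg_eq h hp h2 hn] at h6
    by_cases hlS : l ∣ S
    · have hT0 : T.factorization l = 0 := by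
        apply Nat.factorization_eq_zero_of_not_dvd
        intro h7
        exact not_both h hp h2 hn ⟨hlS, h7⟩
      rw [hT0, add_zero, facS h hp h2] at h6
      rcases Ps_pm (D := D) (hp.odd_of_ne_two h2) with h7 | h7
      · rw [h7, one_pow]
      · rw [h7] at h6 ⊢
        rcases Nat.even_or_odd (m.factorization l) with h8 | h8
        · exact h8.neg_one_pow
        · exfalso
          apply h6
          obtain ⟨k, hk⟩ := h8
          rw [hk]
          exact alt0 k
    · rw [← facS h hp h2, Nat.factorization_eq_zero_of_not_dvd hlS, pow_zero]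
  have c1 : chi4 (m : ℤ) * chi4 m = 1 := chi4_sq (by exact_mod_cast h.om)
  have c2 : (∏ l ∈ D.primeFactors, Ps D l ^ S.factorization l) *
      (∏ l ∈ D.primeFactors, Ps D l ^ S.factorization l) = 1 := by
    rw [← Finset.prod_mul_distrib]
    refine Finset.prod_eq_one fun l hl => ?_
    rw [← mul_pow]
    rcases Ps_pm (D := D) (pf_odd h.fm hl) with h | h <;> rw [h] <;> norm_num
  rw [Finset.prod_mul_distrib]
  have e3 : ∏ l ∈ D.primeFactors, chp l m = -(chi4 m * ∏ l ∈ D.primeFactors, Ps D l ^ S.factorization l) := by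
    have e4 := e1.symm.trans e2
    linear_combination (chi4 m) * e4 - (∏ l ∈ D.primeFactors, chp l m) * c1
  rw [e3]
  linear_combination (-chi4 m) * c2

/-- the value of the core sum -/
theorem core_val : core D S T m n = chi4 m * jacobiSym 2 D ^ s * loc D (S * T) := by
  classical
  have e0 : ∀ l, ∑ i ∈ range (m.factorization l + 1), ∑ j ∈ range (n.factorization l + 1), Wl D S T l i j =
      Ls D S T m n l := fun l => rfl
  rw [core_eq h]
  simp only [e0]
  rw [← Finset.mul_prod_erase _ _ (mem_QQ3 (D := D) (m := m) (n := n)),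
    ← Finset.mul_prod_erase _ _ (Finset.mem_erase.2 ⟨by norm_num, mem_QQ5 (D := D) (m := m) (n := n)⟩ :
        5 ∈ (QQ D m n).erase 3), Ls_three h, Ls_five h]
  have e1 : ∏ l ∈ ((QQ D m n).erase 3).erase 5, Ls D S T m n l =
      (∏ l ∈ D.primeFactors, (Ps D l ^ S.factorization l * chp l S)) * ∏ l ∈ Q' D m n, Ff D S T l := by
    have e2 : ((QQ D m n).erase 3).erase 5 = Q' D m n := rfl
    rw [e2, Finset.prod_congr rfl fun l (hl : l ∈ Q' D m n) => Ls_Q' h hl,
      Finset.prod_mul_distrib, Finset.prod_ite_mem, Finset.inter_eq_right.2 (P_sub_Q' h)]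
  rw [e1]
  unfold loc
  have h5D : (S * T).factorization 5 = T.factorization 5 := by
    rw [fac_ST h, Nat.factorization_eq_zero_of_not_dvd (n5S h), zero_add]
  have h3D : (S * T).factorization 3 = S.factorization 3 := by
    rw [fac_ST h, Nat.factorization_eq_zero_of_not_dvd (n3T h), add_zero]
  rw [← prod_Ff h, h5D, h3D]
  by_cases hodd : Odd (S.factorization 3)
  · rw [if_pos hodd, if_pos hodd]
    by_cases hF : ∀ l ∈ Q' D m n, Ff D S T l ≠ 0
    · have e3 : ∏ l ∈ D.primeFactors, (Ps D l ^ S.factorization l * chp l S) =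
          jacobiSym 2 D ^ s * ∏ l ∈ D.primeFactors, (Ps D l ^ S.factorization l * chp l m) := by
        rw [jac_D h.sq, ← Finset.prod_pow, ← Finset.prod_mul_distrib]
        refine Finset.prod_congr rfl fun l hl => ?_
        have e4 : chp l S = jacobiSym 2 l ^ s * chp l m := by
          rw [h.eS, chp_mul, chp_two_pow (Nat.prime_of_mem_primeFactors hl) (pf_ne2 h.fm hl)]
        rw [e4]
        ring
      rw [e3, sign_eq h hodd hF]
      ring
    · push Not at hF
      obtain ⟨l, hl, hl0⟩ := hF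
      rw [Finset.prod_eq_zero hl hl0]
      ring
  · rw [if_neg hodd, if_neg hodd]
    ring

end

/-! ### the final comparison -/

theorem jac2_of {D : ℕ} (hF : Fm D) : (D % 8 = 1 ∧ jacobiSym 2 D = 1) ∨ (D % 8 = 5 ∧ jacobiSym 2 D = -1) := by
  have h4 := fm4 hF
  have hodd := fm_odd hF
  have h8 : D % 8 = 1 ∨ D % 8 = 5 := by omega
  rw [jacobiSym.at_two hodd, ZMod.χ₈_nat_eq_if_mod_eight]
  rcases h8 with h8 | h8
  · left
    refine ⟨h8, ?_⟩
    rw [if_neg (by omega), if_pos (by left; omega)]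
  · right
    refine ⟨h8, ?_⟩
    rw [if_neg (by omega), if_neg (by omega)]

theorem sgn_of {D : ℕ} (hF : Fm D) : (-1 : ℤ) ^ ((D * D - 1) / 8) = jacobiSym 2 D := by
  rcases jac2_of hF with ⟨h8, hJ⟩ | ⟨h8, hJ⟩
  · rw [hJ]
    obtain ⟨k, rfl⟩ : ∃ k, D = 8 * k + 1 := ⟨D / 8, by omega⟩
    have e : ((8 * k + 1) * (8 * k + 1) - 1) / 8 = 2 * (4 * k * k + k) := by
      have : (8 * k + 1) * (8 * k + 1) - 1 = 8 * (2 * (4 * k * k + k)) := by
        have : (8 * k + 1) * (8 * k + 1) = 8 * (2 * (4 * k * k + k)) + 1 := by ring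
        omega
      rw [this, Nat.mul_div_cancel_left _ (by norm_num)]
    rw [e, pow_mul]
    norm_num
  · rw [hJ]
    obtain ⟨k, rfl⟩ : ∃ k, D = 8 * k + 5 := ⟨D / 8, by omega⟩
    have e : ((8 * k + 5) * (8 * k + 5) - 1) / 8 = 2 * (4 * k * k + 5 * k + 1) + 1 := by
      have : (8 * k + 5) * (8 * k + 5) - 1 = 8 * (2 * (4 * k * k + 5 * k + 1) + 1) := by
        have : (8 * k + 5) * (8 * k + 5) = 8 * (2 * (4 * k * k + 5 * k + 1) + 1) + 1 := by ring
        omega
      rw [this, Nat.mul_div_cancel_left _ (by norm_num)]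
    rw [e, pow_succ, pow_mul]
    norm_num

/-- the weight at two -/
theorem wt_two {D S T s t m n : ℕ} (h : Dat D S T s t m n) (hT4 : T % 4 = 0)
    (hk : chi4 ((m * n : ℕ) : ℤ) = -jacobiSym 2 D ^ (s + t)) :
    chi4 m * jacobiSym 2 D ^ s = jacobiSym 2 D * chim2 ((2 * (D : ℤ) - T) / 2) := by
  have hJ := jac2_of h.fm
  have h4 := fm4 h.fm
  have hJ2 : jacobiSym 2 D * jacobiSym 2 D = 1 := by
    rcases hJ with ⟨_, hJ⟩ | ⟨_, hJ⟩ <;> rw [hJ] <;> norm_num
  have hsum := h.sum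
  obtain ⟨T1, hT1⟩ : ∃ T1, T = 4 * T1 := ⟨T / 4, by omega⟩
  obtain ⟨S1, hS1⟩ : ∃ S1, S = 4 * S1 := ⟨S / 4, by omega⟩
  have hsum1 : S1 + T1 = D := by omega
  have hmo := h.om
  have hno := h.on
  have key : ∀ (r k N : ℕ), Odd k → 4 * N = 2 ^ r * k → (Odd N → r = 2 ∧ k = N) ∧
      (Even N → ∃ w, N = 2 * w ∧ ((Odd w → r = 3 ∧ k = w) ∧ True)) := by
    intro r k N hk he
    have hr : 2 ≤ r := by
      by_contra hlt
      have : r = 0 ∨ r = 1 := by omega
      obtain ⟨j, rfl⟩ := hk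
      rcases this with rfl | rfl <;> omega
    obtain ⟨r', rfl⟩ : ∃ r', r = r' + 2 := ⟨r - 2, by omega⟩
    have he' : N = 2 ^ r' * k := by
      have he2 : 4 * N = 4 * (2 ^ r' * k) := by
        rw [he, pow_add]; ring
      omega
    constructor
    · intro hN
      have hr0 : r' = 0 := by
        by_contra hne
        have : Even N := by
          rw [he']
          exact ((Nat.even_pow.2 ⟨even_two, hne⟩)).mul_right k
        exact (Nat.not_odd_iff_even.2 this) hN
      subst hr0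
      exact ⟨rfl, by rw [he']; ring⟩
    · intro hN
      obtain ⟨r'', rfl⟩ : ∃ r'', r' = r'' + 1 := by
        cases r' with
        | zero =>
          exfalso
          rw [pow_zero, one_mul] at he'
          rw [he'] at hN
          exact (Nat.not_odd_iff_even.2 hN) hk
        | succ r'' => exact ⟨r'', rfl⟩
      refine ⟨2 ^ r'' * k, by rw [he']; ring, fun hw => ?_, trivial⟩
      have hr0 : r'' = 0 := by
        by_contra hne
        have : Even (2 ^ r'' * k) := ((Nat.even_pow.2 ⟨even_two, hne⟩)).mul_right k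
        exact (Nat.not_odd_iff_even.2 this) hw
      subst hr0
      exact ⟨rfl, by ring⟩
  have kS := key s m S1 hmo (by rw [← hS1]; exact h.eS)
  have kT := key t n T1 hno (by rw [← hT1]; exact h.eT)
  have hb : (2 * (D : ℤ) - T) / 2 = D - 2 * T1 := by
    rw [hT1]; push_cast; omega
  rw [hb]
  rcases Nat.even_or_odd S1 with hS1e | hS1o
  · -- `T1` is odd, `t = 2`
    have hT1o : Odd T1 := by
      have : Odd (S1 + T1) := by rw [hsum1]; exact fm_odd h.fm
      rw [Nat.odd_add'] at this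
      exact this.2 hS1e
    obtain ⟨t2, hn1⟩ := kT.1 hT1o
    obtain ⟨w, hw, hw2, _⟩ := kS.2 hS1e
    have hchi : chi4 ((m * n : ℕ) : ℤ) = chi4 m * chi4 n := by push_cast; rw [chi4_mul]
    have hn2 : chi4 (n : ℤ) * chi4 n = 1 := chi4_sq (by exact_mod_cast hno)
    have hm2 : chi4 (m : ℤ) * chi4 m = 1 := chi4_sq (by exact_mod_cast hmo)
    have hJs : (jacobiSym 2 D ^ s) * (jacobiSym 2 D ^ s) = 1 := by
      rw [← mul_pow, hJ2, one_pow]
    have hA : chi4 m * jacobiSym 2 D ^ s = -chi4 n := by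
      rw [hchi, t2, pow_add, sq, hJ2, mul_one] at hk
      linear_combination (jacobiSym 2 D ^ s * chi4 n) * hk -
        (chi4 m * jacobiSym 2 D ^ s) * hn2 - (chi4 n) * hJs
    rw [hA, hn1]
    have hT1w : (T1 : ℤ) = D - 2 * w := by omega
    rcases Nat.even_or_odd w with hwe | hwo
    · obtain ⟨v, hv⟩ := hwe
      rw [chi4_one_of (by omega)]
      unfold chim2
      rcases hJ with ⟨h8, hJ⟩ | ⟨h8, hJ⟩
      · rw [hJ, if_neg (by omega), if_pos (by omega)]
        norm_num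
      · rw [hJ, if_pos (by omega)]
        norm_num
    · obtain ⟨v, hv⟩ := hwo
      rw [chi4_three_of (by omega)]
      unfold chim2
      rcases hJ with ⟨h8, hJ⟩ | ⟨h8, hJ⟩
      · rw [hJ, if_pos (by omega)]
        norm_num
      · rw [hJ, if_neg (by omega), if_pos (by omega)]
        norm_num
  · -- `S1` is odd, `s = 2`
    have hT1e : Even T1 := by
      have : Odd (S1 + T1) := by rw [hsum1]; exact fm_odd h.fm
      rw [Nat.odd_add] at this
      exact this.1 hS1o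
    obtain ⟨s2, hm1⟩ := kS.1 hS1o
    obtain ⟨w, hw⟩ := hT1e
    rw [s2, sq, hJ2, mul_one, hm1]
    rcases Nat.even_or_odd w with hwe | hwo
    · obtain ⟨v, hv⟩ := hwe
      rw [chi4_one_of (by omega)]
      unfold chim2
      rcases hJ with ⟨h8, hJ⟩ | ⟨h8, hJ⟩
      · rw [hJ, if_pos (by omega)]
        norm_num
      · rw [hJ, if_neg (by omega), if_pos (by omega)]
        norm_num
    · obtain ⟨v, hv⟩ := hwo
      rw [chi4_three_of (by omega)]
      unfold chim2
      rcases hJ with ⟨h8, hJ⟩ | ⟨h8, hJ⟩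
      · rw [hJ, if_neg (by omega), if_pos (by omega)]
        norm_num
      · rw [hJ, if_pos (by omega)]
        norm_num

end Pool.Agent.H757_X15.CS5

namespace Pool.Agent.H757_X15.CC

open Finset Pool.Agent.H757_X15.CS5
open Pool.Agent.H757_X15.DD (Fm)
open Pool.Agent.H757_X15.BB (chi4 chim2 wt c2 loc kap pf3)

/-- the case `T = 2` modulo `4` -/
theorem ev_two {D S T : ℕ} (hs : Squarefree D) (hF : Fm D) (hST : S + T = 4 * D) (hT2 : T % 4 = 2) :
    WW D S T = 0 := by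
  have hD4 := fm4 hF
  have hS2 : S % 4 = 2 := by omega
  have eS2 : S = 2 ^ 1 * (S / 2) := by omega
  have eT2 : T = 2 ^ 1 * (T / 2) := by omega
  have oS2 : Odd (S / 2) := by rw [Nat.odd_iff]; omega
  have oT2 : Odd (T / 2) := by rw [Nat.odd_iff]; omega
  have hJ2 : jacobiSym 2 D * jacobiSym 2 D = 1 := by
    rcases jac2_of hF with ⟨_, hJ⟩ | ⟨_, hJ⟩ <;> rw [hJ] <;> norm_num
  have hc : chi4 (((S / 2 * (T / 2) : ℕ)) : ℤ) = 1 := by
    rw [Nat.cast_mul, chi4_mul]
    have a1 : ((S / 2 : ℕ) : ℤ) % 4 = 1 ∨ ((S / 2 : ℕ) : ℤ) % 4 = 3 := by omega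
    rcases a1 with a1 | a1
    · have a2 : ((T / 2 : ℕ) : ℤ) % 4 = 1 := by omega
      rw [chi4_one_of a1, chi4_one_of a2]; norm_num
    · have a2 : ((T / 2 : ℕ) : ℤ) % 4 = 3 := by omega
      rw [chi4_three_of a1, chi4_three_of a2]; norm_num
  rw [WW_even hs hF eS2 eT2 oS2 oT2 hST le_rfl le_rfl, hc]
  have hJ3 : jacobiSym 2 D ^ (1 + 1) = 1 := by
    rw [pow_succ, pow_one, hJ2]
  rw [hJ3]
  ring

/-- the case `T = 0` modulo `4` -/
theorem ev_zero {D S T s t m n : ℕ} (h : Dat D S T s t m n) (hs1 : 1 ≤ s) (ht1 : 1 ≤ t) (hT4 : T % 4 = 0)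
    (hv : (S * T).factorization 2 = s + t) (hq : S * T / 2 ^ (S * T).factorization 2 = m * n) :
    WW D S T = (jacobiSym 2 D * chim2 ((2 * (D : ℤ) - T) / 2)) * (2 * kap D (S * T) * loc D (S * T)) := by
  rw [WW_even h.sq h.fm h.eS h.eT h.om h.on h.sum hs1 ht1, core_val h]
  have hJ2 : jacobiSym 2 D * jacobiSym 2 D = 1 := by
    rcases jac2_of h.fm with ⟨_, hJ⟩ | ⟨_, hJ⟩ <;> rw [hJ] <;> norm_num
  have hJs : (jacobiSym 2 D ^ (s + t)) * (jacobiSym 2 D ^ (s + t)) = 1 := by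
    rw [← mul_pow, hJ2, one_pow]
  unfold kap
  rw [hq, hv]
  by_cases hk : chi4 ((m * n : ℕ) : ℤ) = -jacobiSym 2 D ^ (s + t)
  · rw [if_pos hk, ← wt_two h hT4 hk, hk]
    linear_combination (chi4 (m : ℤ) * jacobiSym 2 D ^ s * loc D (S * T)) * hJs
  · rw [if_neg hk]
    have hc : chi4 ((m * n : ℕ) : ℤ) = jacobiSym 2 D ^ (s + t) := by
      have q1 : chi4 ((m * n : ℕ) : ℤ) = 1 ∨ chi4 ((m * n : ℕ) : ℤ) = -1 := by
        apply mul_self_eq_one_iff.1
        exact chi4_sq (by exact_mod_cast h.om.mul h.on)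
      have q2 : jacobiSym 2 D ^ (s + t) = 1 ∨ jacobiSym 2 D ^ (s + t) = -1 :=
        mul_self_eq_one_iff.1 hJs
      rcases q1 with q1 | q1 <;> rcases q2 with q2 | q2 <;> rw [q1, q2] at hk ⊢ <;> norm_num at hk
    rw [hc, hJs]
    ring

/-- C2 for `S` and `T` -/
theorem C2_main {D S T : ℕ} (hs : Squarefree D) (hF : Fm D) (h5 : 5 ∣ T) (h3 : 3 ∣ S) (hS : S ≠ 0)
    (hT : T ≠ 0) (hST : S + T = 4 * D) : WW D S T = wt (D * D) (2 * (D : ℤ) - T) *
    (c2 D (S * T) (2 * (D : ℤ) - T) * loc D (S * T)) := by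
  have hD4 := fm4 hF
  rcases Nat.even_or_odd T with hTe | hTo
  · have hT2 : T % 2 = 0 := Nat.even_iff.1 hTe
    have hb1 : ¬ ((2 * (D : ℤ) - T) % 2 = 1) := by omega
    by_cases hT4 : T % 4 = 0
    · have hS2 : S % 2 = 0 := by omega
      have hb2 : (2 * (D : ℤ) - T) % 4 = 2 := by omega
      have eS : S = 2 ^ S.factorization 2 * (S / 2 ^ S.factorization 2) :=
        (Nat.ordProj_mul_ordCompl_eq_self S 2).symm
      have eT : T = 2 ^ T.factorization 2 * (T / 2 ^ T.factorization 2) :=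
        (Nat.ordProj_mul_ordCompl_eq_self T 2).symm
      have om : Odd (S / 2 ^ S.factorization 2) := by
        rw [← Nat.not_even_iff_odd, even_iff_two_dvd]
        exact Nat.not_dvd_ordCompl Nat.prime_two hS
      have on : Odd (T / 2 ^ T.factorization 2) := by
        rw [← Nat.not_even_iff_odd, even_iff_two_dvd]
        exact Nat.not_dvd_ordCompl Nat.prime_two hT
      have h : Dat D S T (S.factorization 2) (T.factorization 2) (S / 2 ^ S.factorization 2)
        (T / 2 ^ T.factorization 2) := ⟨hs, hF, eS, eT, om, on, hST, h5, h3⟩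
      have hs1 : 1 ≤ S.factorization 2 := (dvd_fac Nat.prime_two hS).1 (Nat.dvd_of_mod_eq_zero hS2)
      have ht1 : 1 ≤ T.factorization 2 := (dvd_fac Nat.prime_two hT).1 (Nat.dvd_of_mod_eq_zero hT2)
      rw [ev_zero h hs1 ht1 hT4 (fac_ST h) (Nat.ordCompl_mul S T 2)]
      unfold wt c2
      rw [if_neg hb1, if_pos hb2, if_neg hb1, if_pos hb2, sgn_of hF]
    · have hb2 : ¬ ((2 * (D : ℤ) - T) % 4 = 2) := by omega
      have hT2' : T % 4 = 2 := by omega
      rw [ev_two hs hF hST hT2']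
      unfold wt
      rw [if_neg hb1, if_neg hb2, zero_mul]
  · have hTo2 := Nat.odd_iff.1 hTo
    have hSo : Odd S := by
      rw [Nat.odd_iff]
      omega
    have h' : Dat D S T 0 0 S T := ⟨hs, hF, by simp, by simp, hSo, hTo, hST, h5, h3⟩
    rw [WW_odd hs hF hSo hTo hST, core_val h', pow_zero, mul_one]
    have hT2 : T % 4 = 1 ∨ T % 4 = 3 := by omega
    have hb1 : (2 * (D : ℤ) - T) % 2 = 1 := by omega
    unfold wt c2
    rw [if_pos hb1, if_pos hb1, one_mul]
    congr 1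
    rcases hT2 with hT2 | hT2
    · have a1 : (S : ℤ) % 4 = 3 := by omega
      have a2 : (2 * (D : ℤ) - T) % 4 = 1 := by omega
      rw [chi4_three_of a1, chi4_one_of a2]
    · have a1 : (S : ℤ) % 4 = 1 := by omega
      have a2 : (2 * (D : ℤ) - T) % 4 = 3 := by omega
      rw [chi4_one_of a1, chi4_three_of a2]
      norm_num

/-- C2 -/
theorem t_C2 : S_C2 := by
  intro D hs hF _ T hT
  unfold TT at hT
  rw [mem_filter, mem_range] at hT
  have hlt := hT.1
  have h5 := hT.2.1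
  have h3 := hT.2.2
  have hD3 := fm3 hF
  have hST : (4 * D - T) + T = 4 * D := Nat.sub_add_cancel hlt.le
  have hS : 4 * D - T ≠ 0 := (Nat.sub_pos_of_lt hlt).ne'
  have hT0 : T ≠ 0 := by
    rintro rfl
    rw [Nat.sub_zero] at h3
    omega
  exact C2_main hs hF h5 h3 hS hT0 hST

end Pool.Agent.H757_X15.CC
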