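import Pool.Agent.H757_X15.StmC

/-!
# X15-C9: reindexing of the sum over the forms (EVAL1) and assembly of GEO
-/

set_option autoImplicit false

namespace Pool.Agent.H757_X15.CC

namespace C9

open Finset
open Pool.Agent.H757_X15.DD (Fm)
open Pool.Agent.H757_X15.BB (chi4 wt c2 loc dis RR pii rg S_BIL Ad)

open scoped Classical

noncomputable section

theorem Fm_mul {a b : ℕ} (ha : Fm a) (hb : Fm b) : Fm (a * b) := by
  unfold Fm at *
  rcases ha with h | h <;> rcases hb with h' | h' <;> rw [Nat.mul_mod, h, h'] <;> norm_num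

theorem Fm_mod4 {a : ℕ} (ha : Fm a) : a % 4 = 1 := by
  unfold Fm at ha; omega

theorem Fm_pos {a : ℕ} (ha : Fm a) : 0 < a := by
  unfold Fm at ha; omega

theorem Eqv_one {N : ℤ} {Q Q' : Fo} (h : Eqv N Q Q') : Eqv 1 Q Q' := by
  obtain ⟨a, b, c, d, h1, h2, h3⟩ := h
  exact ⟨a, b, c, d, h1, one_dvd _, h3⟩

theorem geoa : S_GEOA := by
  intro hU hC hW hE1 hE2 hM hB D1 D2 s1 f1 s2 f2 hc hne β1 β2 e1 e2 t u hF R hR
  set D := D1 * D2 with hD
  have hsD : Squarefree D := (Nat.squarefree_mul hc).2 ⟨s1, s2⟩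
  have hfD : Fm D := Fm_mul f1 f2
  have hD1 : D ≠ 1 := by
    intro h
    rcases hne with h' | h'
    · exact h' (Nat.eq_one_of_mul_eq_one_right h)
    · exact h' (Nat.eq_one_of_mul_eq_one_left h)
  set r : ZMod 5 := -(β1 * β2) with hr
  have hr2 : r ^ 2 = (D : ZMod 5) := by
    rw [hr, neg_sq, mul_pow, e1, e2, hD]; push_cast; ring
  have hinv : ∀ Q ∈ FQ D r, ∀ Q', Eqv 15 Q Q' → chD D1 Q' = chD D1 Q := by
    intro Q hQ Q' hQQ
    unfold chD
    refine Finset.prod_congr rfl fun p hp => ?_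
    have hp' : p ∈ D.primeFactors :=
      Nat.primeFactors_mono (Dvd.intro D2 rfl) (Fm_pos hfD).ne' hp
    exact (hC D hsD (Fm_mod4 hfD) Q Q' hQ.1 (Eqv_one hQQ) p hp').1
  have h1 := hU D hsD hfD hD1 r hr2 t u hF R hR (chD D1) hinv
  have h2 : ∀ j : ℤ, (∑ᶠ Q : Fo, if Q ∈ FQ' D r ∧ Q.1 * ev Q (-j) 4 < 0 then
      Q.1.sign * chD D1 (Wi Q) else 0) = ∑ᶠ Q : Fo, if Q ∈ FQ' D r ∧ Q.1 * ev Q (-j) 4 < 0 then
      Q.1.sign * chD D1 Q else 0 := by
    intro j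
    refine finsum_congr fun Q => ?_
    split_ifs with h
    · rw [hW D hsD hfD r hr2 Q h.1 D1 (Dvd.intro D2 rfl) f1]
    · rfl
  simp only [h2] at h1
  have h3 := hE1 D1 D2 s1 f1 s2 f2 hc hne r hr2
  rw [← hD] at h3
  rw [h1, h3, Finset.sum_congr rfl (hE2 hM D1 D2 s1 f1 s2 f2 hc hne r hr2),
    hB D1 D2 s1 f1 s2 f2 hne β1 β2 (Or.inl hc) e1 e2, ← mul_assoc, ← Finset.sum_filter,
    Finset.mul_sum]
  unfold RR
  refine Finset.sum_congr ?_ fun b _ => by norm_num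
  ext b
  have e3 : -2 * (β1 * β2) = 2 * r := by rw [hr]; ring
  unfold rb
  rw [Finset.mem_filter, Finset.mem_filter, Finset.mem_filter, e3]
  unfold Ad
  tauto

/-! ### the parameters of the forms -/

/-- the conditions on `b`, `a = ε A` and `ε A''` -/
def Cd (b : ℤ) (a a2 : ℕ) (j : ℤ) : Prop :=
  ((a : ℤ) - b) % 2 = 0 ∧ ((a2 : ℤ) - a - 2 * b * j) % 16 = 0

/-- the parameters -/
def Xs (D1 D2 : ℕ) (r : ZMod 5) (j : ℤ) : Finset (ℤ × ℕ × ℤ) :=
  (rb D1 D2 r ×ˢ range (4 * (D1 * D2) + 1) ×ˢ ({1, -1} : Finset ℤ)).filter fun q =>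
    (q.2.1 ∣ dis D1 D2 q.1 ∧ 15 ∣ q.2.1) ∧ Cd q.1 q.2.1 (dis D1 D2 q.1 / q.2.1) (q.2.2 * j)

/-- the form with given parameters -/
def mk (D1 D2 : ℕ) (j : ℤ) (q : ℤ × ℕ × ℤ) : Fo :=
  (q.2.2 * q.2.1, (q.1 + q.2.2 * q.2.1 * j) / 2,
    (q.2.2 * q.2.1 + 2 * q.1 * j - q.2.2 * ((dis D1 D2 q.1 / q.2.1 : ℕ) : ℤ)) / 16)

theorem dis_eq {D1 D2 : ℕ} {b : ℤ} (h : 0 < dis D1 D2 b) :
    (dis D1 D2 b : ℤ) = 4 * ((D1 * D2 : ℕ) : ℤ) - b ^ 2 := by
  unfold dis at *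
  rw [Int.toNat_of_nonneg (by omega)]
  push_cast; ring

/-- the properties of the form attached to parameters -/
theorem mk_spec {D1 D2 : ℕ} {r : ZMod 5} {j : ℤ} (hj : j = 1 ∨ j = -1) {b : ℤ} {a : ℕ} {ε : ℤ}
    (h : (b, a, ε) ∈ Xs D1 D2 r j) :
    (ε = 1 ∨ ε = -1) ∧ 0 < a ∧ 15 ∣ a ∧ a * (dis D1 D2 b / a) = dis D1 D2 b ∧
    (dis D1 D2 b : ℤ) = 4 * ((D1 * D2 : ℕ) : ℤ) - b ^ 2 ∧ 0 < dis D1 D2 b ∧
    b % 3 = 1 ∧ (b : ZMod 5) = 2 * r ∧
    2 * (mk D1 D2 j (b, a, ε)).2.1 = b + ε * a * j ∧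
    16 * (mk D1 D2 j (b, a, ε)).2.2 = ε * a + 2 * b * j - ε * ((dis D1 D2 b / a : ℕ) : ℤ) := by
  unfold Xs at h
  rw [mem_filter, mem_product, mem_product] at h
  obtain ⟨⟨h1, h2, h3⟩, ⟨h4, h5⟩, h6, h7⟩ := h
  simp only at h1 h2 h3 h4 h5 h6 h7
  unfold rb at h1
  rw [mem_filter] at h1
  obtain ⟨h8, h9, h10, h11⟩ := h1
  have hε : ε = 1 ∨ ε = -1 := by simpa using h3
  have ha : 0 < a := Nat.pos_of_dvd_of_pos h4 h11
  refine ⟨hε, ha, h5, Nat.mul_div_cancel' h4, dis_eq h11, h11, h9, h10, ?_, ?_⟩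
  · unfold mk
    simp only
    refine Int.mul_ediv_cancel' ?_
    rcases hε with rfl | rfl <;> rcases hj with rfl | rfl <;> omega
  · unfold mk
    simp only
    refine Int.mul_ediv_cancel' ?_
    set a2 := dis D1 D2 b / a with ha2
    rcases hε with rfl | rfl <;> rcases hj with rfl | rfl <;>
      simp only [mul_one, mul_neg, one_mul, neg_mul, neg_neg] at h7 ⊢ <;> omega

theorem mk_mem {D1 D2 : ℕ} {r : ZMod 5} {j : ℤ} (hj : j = 1 ∨ j = -1) {q : ℤ × ℕ × ℤ}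
    (h : q ∈ Xs D1 D2 r j) : mk D1 D2 j q ∈ FQ' (D1 * D2) r ∧
      (mk D1 D2 j q).1 * ev (mk D1 D2 j q) (-j) 4 < 0 := by
  obtain ⟨b, a, ε⟩ := q
  obtain ⟨hε, ha, h15, hn, hd, hpos, hb3, hb5, hB, hC⟩ := mk_spec hj h
  have hA : (mk D1 D2 j (b, a, ε)).1 = ε * a := rfl
  have hn' : (a : ℤ) * ((dis D1 D2 b / a : ℕ) : ℤ) = dis D1 D2 b := by exact_mod_cast hn
  have hpos' : (0 : ℤ) < dis D1 D2 b := by exact_mod_cast hpos
  set a2 := dis D1 D2 b / a with ha2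
  set B := (mk D1 D2 j (b, a, ε)).2.1 with hBdef
  set C := (mk D1 D2 j (b, a, ε)).2.2 with hCdef
  have hε2 : ε ^ 2 = 1 := by rcases hε with rfl | rfl <;> norm_num
  have hj2 : j ^ 2 = 1 := by rcases hj with rfl | rfl <;> norm_num
  have h15' : (15 : ℤ) ∣ a := by exact_mod_cast h15
  obtain ⟨k, hk⟩ := h15'
  refine ⟨⟨?_, ?_, ?_, ?_⟩, ?_⟩
  · unfold dsc
    rw [hA, ← hBdef, ← hCdef]
    have h1 : 4 * (B ^ 2 - 4 * (ε * a * C)) = 4 * ((D1 * D2 : ℕ) : ℤ) := by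
      calc 4 * (B ^ 2 - 4 * (ε * a * C)) = (2 * B) ^ 2 - ε * a * (16 * C) := by ring
        _ = (b + ε * a * j) ^ 2 - ε * a * (ε * a + 2 * b * j - ε * (a2 : ℤ)) := by rw [hB, hC]
        _ = b ^ 2 + ε ^ 2 * a ^ 2 * j ^ 2 - ε ^ 2 * a ^ 2 + ε ^ 2 * (a * a2) := by ring
        _ = 4 * ((D1 * D2 : ℕ) : ℤ) := by rw [hε2, hj2, hn', hd]; ring
    linarith
  · rw [hA, hk]
    exact ⟨ε * k, by ring⟩
  · rw [← hBdef]
    rcases hε with rfl | rfl <;> rcases hj with rfl | rfl <;> omega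
  · rw [← hBdef]
    have h2 : (2 : ZMod 5) * (B : ZMod 5) = 2 * r := by
      rw [← hb5]
      have h3 : ((2 * B : ℤ) : ZMod 5) = ((b + ε * a * j : ℤ) : ZMod 5) := by rw [hB]
      have h4 : ((a : ℤ) : ZMod 5) = 0 := by
        rw [hk]
        push_cast
        have : (15 : ZMod 5) = 0 := by decide
        rw [this, zero_mul]
      push_cast at h3 h4
      rw [h3, h4]
      ring
    have h5 : (3 : ZMod 5) * (2 * (B : ZMod 5)) = 3 * (2 * r) := by rw [h2]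
    have h6 : (3 : ZMod 5) * 2 = 1 := by decide
    rwa [← mul_assoc, ← mul_assoc, h6, one_mul, one_mul] at h5
  · unfold ev
    rw [hA, ← hBdef, ← hCdef]
    have h1 : ε * a * (ε * a * (-j) ^ 2 + B * (-j * 4) + C * 4 ^ 2) = -(a * a2) := by
      calc ε * a * (ε * a * (-j) ^ 2 + B * (-j * 4) + C * 4 ^ 2)
          = ε * a * (ε * a * j ^ 2 - 2 * j * (2 * B) + 16 * C) := by ring
        _ = ε * a * (ε * a * j ^ 2 - 2 * j * (b + ε * a * j) +
            (ε * a + 2 * b * j - ε * (a2 : ℤ))) := by rw [hB, hC]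
        _ = ε ^ 2 * a ^ 2 * (1 - j ^ 2) - ε ^ 2 * (a * a2) := by ring
        _ = -(a * a2) := by rw [hε2, hj2]; ring
    rw [h1, hn']
    linarith

theorem mk_inj {D1 D2 : ℕ} {r : ZMod 5} {j : ℤ} (hj : j = 1 ∨ j = -1) :
    Set.InjOn (mk D1 D2 j) (Xs D1 D2 r j : Set (ℤ × ℕ × ℤ)) := by
  rintro ⟨b, a, ε⟩ h ⟨b', a', ε'⟩ h' heq
  obtain ⟨hε, ha, -, -, -, -, -, -, hB, -⟩ := mk_spec hj h
  obtain ⟨hε', ha', -, -, -, -, -, -, hB', -⟩ := mk_spec hj h'
  have h1 : ε * a = ε' * a' := congrArg (fun q : Fo => q.1) heq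
  rw [heq] at hB
  rw [hB] at hB'
  have h2 : ε = ε' ∧ a = a' := by
    rcases hε with rfl | rfl <;> rcases hε' with rfl | rfl <;> omega
  obtain ⟨rfl, rfl⟩ := h2
  have h3 : b = b' := by linarith
  rw [h3]

theorem mk_surj {D1 D2 : ℕ} (hD : 0 < D1 * D2) {r : ZMod 5} {j : ℤ} (hj : j = 1 ∨ j = -1) {Q : Fo}
    (hQ : Q ∈ FQ' (D1 * D2) r) (hneg : Q.1 * ev Q (-j) 4 < 0) :
    ∃ q ∈ Xs D1 D2 r j, mk D1 D2 j q = Q := by
  obtain ⟨A, B, C⟩ := Q
  obtain ⟨h1, h2, h3, h4⟩ := hQ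
  simp only [dsc] at h1 h2 h3 h4
  unfold ev at hneg
  simp only at hneg
  have hj2 : j ^ 2 = 1 := by rcases hj with rfl | rfl <;> norm_num
  set A2 : ℤ := -(A - 4 * B * j + 16 * C) with hA2
  have hneg' : 0 < A * A2 := by
    have : A * (A * (-j) ^ 2 + B * (-j * 4) + C * 4 ^ 2) = -(A * A2) := by
      rw [hA2, neg_sq, hj2]; ring
    rw [this] at hneg
    linarith
  set b : ℤ := 2 * B - A * j with hb
  have hAA : A * A2 = 4 * ((D1 * D2 : ℕ) : ℤ) - b ^ 2 := by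
    rw [← h1, hA2, hb]
    linear_combination (A ^ 2) * hj2
  have hdis : (dis D1 D2 b : ℤ) = A * A2 := by
    unfold dis
    rw [Int.toNat_of_nonneg, hAA]
    · push_cast; ring
    · have : 4 * (D1 : ℤ) * D2 - b ^ 2 = A * A2 := by rw [hAA]; push_cast; ring
      rw [this]; exact hneg'.le
  have hpos : 0 < dis D1 D2 b := by
    have : (0 : ℤ) < dis D1 D2 b := by rw [hdis]; exact hneg'
    exact_mod_cast this
  have hA0 : A ≠ 0 := by rintro rfl; simp at hneg'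
  -- the sign and the absolute values
  obtain ⟨ε, a, a2, hε, ha, ha2, hap⟩ : ∃ (ε : ℤ) (a a2 : ℕ), (ε = 1 ∨ ε = -1) ∧ A = ε * a ∧
      A2 = ε * a2 ∧ 0 < a := by
    rcases lt_or_gt_of_ne hA0 with h | h
    · have h5 : A2 < 0 := by
        by_contra h6
        push Not at h6
        nlinarith
      refine ⟨-1, A.natAbs, A2.natAbs, Or.inr rfl, ?_, ?_, Int.natAbs_pos.2 hA0⟩ <;> omega
    · have h5 : 0 < A2 := by
        by_contra h6
        push Not at h6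
        nlinarith
      refine ⟨1, A.natAbs, A2.natAbs, Or.inl rfl, ?_, ?_, Int.natAbs_pos.2 hA0⟩ <;> omega
  have hε2 : ε ^ 2 = 1 := by rcases hε with rfl | rfl <;> norm_num
  have hn : a * a2 = dis D1 D2 b := by
    have : (a : ℤ) * a2 = dis D1 D2 b := by
      rw [hdis, ha, ha2]
      linear_combination (-(a : ℤ) * a2) * hε2
    exact_mod_cast this
  have hdiv : dis D1 D2 b / a = a2 := by
    rw [← hn]; exact Nat.mul_div_cancel_left a2 hap
  have hDle : (dis D1 D2 b : ℤ) ≤ 4 * ((D1 * D2 : ℕ) : ℤ) := by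
    rw [hdis, hAA]; nlinarith [sq_nonneg b]
  have hale : a ≤ 4 * (D1 * D2) := by
    have h5 : a ≤ dis D1 D2 b := Nat.le_of_dvd hpos ⟨a2, hn.symm⟩
    have h6 : dis D1 D2 b ≤ 4 * (D1 * D2) := by exact_mod_cast hDle
    exact h5.trans h6
  have h15 : 15 ∣ a := by
    have h5 : (15 : ℤ) ∣ a := by
      rcases hε with rfl | rfl <;> omega
    exact_mod_cast h5
  refine ⟨(b, a, ε), ?_, ?_⟩
  · unfold Xs
    rw [mem_filter, mem_product, mem_product]
    refine ⟨⟨?_, ?_, ?_⟩, ⟨⟨a2, hn.symm⟩, h15⟩, ?_⟩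
    · simp only
      unfold rb
      rw [mem_filter]
      refine ⟨?_, ?_, ?_, hpos⟩
      · unfold rg
        rw [mem_Ioo]
        have h5 : b ^ 2 < 4 * ((D1 * D2 : ℕ) : ℤ) := by linarith
        have h6 : (1 : ℤ) ≤ ((D1 * D2 : ℕ) : ℤ) := by exact_mod_cast hD
        constructor <;> nlinarith
      · rcases hj with rfl | rfl <;> omega
      · rw [hb]
        push_cast
        have h5 : (A : ZMod 5) = 0 := by
          obtain ⟨k, hk⟩ := h2
          rw [hk]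
          push_cast
          have : (15 : ZMod 5) = 0 := by decide
          rw [this, zero_mul]
        rw [h5, h4]
        ring
    · simp only [mem_range]; omega
    · simpa using hε
    · simp only
      rw [hdiv]
      unfold Cd
      constructor
      · rcases hε with rfl | rfl <;> rcases hj with rfl | rfl <;> omega
      · have h5 : (a2 : ℤ) = ε * A2 := by
          rw [ha2, ← mul_assoc, ← sq, hε2, one_mul]
        have h6 : (a : ℤ) = ε * A := by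
          rw [ha, ← mul_assoc, ← sq, hε2, one_mul]
        have h7 : (a2 : ℤ) - a - 2 * b * (ε * j) = 16 * (-(ε * C)) := by
          rw [h5, h6, hA2, hb]
          linear_combination (2 * ε * A) * hj2
        rw [h7]
        exact Int.mul_emod_right _ _
  · unfold mk
    simp only [hdiv]
    rw [← ha, ← ha2]
    have h5 : (b + A * j) / 2 = B := by
      have : b + A * j = 2 * B := by rw [hb]; ring
      rw [this]; exact Int.mul_ediv_cancel_left B (by norm_num)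
    have h6 : (A + 2 * b * j - A2) / 16 = C := by
      have : A + 2 * b * j - A2 = 16 * C := by
        rw [hb, hA2]
        linear_combination (-2 * A) * hj2
      rw [this]; exact Int.mul_ediv_cancel_left C (by norm_num)
    rw [h5, h6]

/-! ### the characters -/

theorem prod_neg_one {D1 : ℕ} (s1 : Squarefree D1) (f1 : Fm D1) :
    ∏ p ∈ D1.primeFactors, jacobiSym (-1) p = 1 := by
  have hodd : Odd D1 := by
    rw [Nat.odd_iff]; unfold Fm at f1; omega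
  have h1 : ∀ p ∈ D1.primeFactors, jacobiSym (-1) p = ZMod.χ₄ (p : ZMod 4) := by
    intro p hp
    exact jacobiSym.at_neg_one (hodd.of_dvd_nat (Nat.dvd_of_mem_primeFactors hp))
  rw [Finset.prod_congr rfl h1, ← map_prod]
  have h2 : (∏ p ∈ D1.primeFactors, (p : ZMod 4)) = (D1 : ZMod 4) := by
    rw [← Nat.cast_prod, Nat.prod_primeFactors_of_squarefree s1]
  rw [h2]
  exact ZMod.χ₄_nat_one_mod_four (Fm_mod4 f1)

theorem chD_mk {D1 D2 : ℕ} (s1 : Squarefree D1) (f1 : Fm D1) {r : ZMod 5} {j : ℤ}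
    (hj : j = 1 ∨ j = -1) {b : ℤ} {a : ℕ} {ε : ℤ} (h : (b, a, ε) ∈ Xs D1 D2 r j) :
    chD D1 (mk D1 D2 j (b, a, ε)) = KK D1 a (dis D1 D2 b / a) := by
  obtain ⟨hε, ha, h15, hn, hd, hpos, hb3, hb5, hB, hC⟩ := mk_spec hj h
  have hA : (mk D1 D2 j (b, a, ε)).1 = ε * a := rfl
  have hn' : (a : ℤ) * ((dis D1 D2 b / a : ℕ) : ℤ) = dis D1 D2 b := by exact_mod_cast hn
  set a2 := dis D1 D2 b / a with ha2
  set C := (mk D1 D2 j (b, a, ε)).2.2 with hCdef
  have hodd : Odd D1 := by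
    rw [Nat.odd_iff]; unfold Fm at f1; omega
  have hε' : ∏ p ∈ D1.primeFactors, jacobiSym ε p = 1 := by
    rcases hε with rfl | rfl
    · simp
    · exact prod_neg_one s1 f1
  have key : ∀ p ∈ D1.primeFactors, chp p (mk D1 D2 j (b, a, ε)) =
      jacobiSym ε p * (if p ∣ a then jacobiSym (-(a2 : ℤ)) p else jacobiSym a p) := by
    intro p hp
    have hpp : p.Prime := Nat.prime_of_mem_primeFactors hp
    have hpD : p ∣ D1 := Nat.dvd_of_mem_primeFactors hp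
    have hpodd : Odd p := hodd.of_dvd_nat hpD
    have hdvd : (p : ℤ) ∣ ε * a ↔ p ∣ a := by
      rcases hε with rfl | rfl
      · rw [one_mul, Int.natCast_dvd_natCast]
      · rw [neg_one_mul, dvd_neg, Int.natCast_dvd_natCast]
    unfold chp
    rw [hA, ← hCdef]
    by_cases hpa : p ∣ a
    · rw [if_pos (hdvd.2 hpa), if_pos hpa]
      have hpa' : (p : ℤ) ∣ a := by exact_mod_cast hpa
      have hpb : (p : ℤ) ∣ b := by
        have h1 : (p : ℤ) ∣ b ^ 2 := by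
          have h2 : b ^ 2 = 4 * ((D1 * D2 : ℕ) : ℤ) - a * a2 := by
            rw [hn', hd]; ring
          rw [h2]
          refine dvd_sub (Dvd.dvd.mul_left ?_ 4) (Dvd.dvd.mul_right hpa' _)
          exact_mod_cast hpD.mul_right D2
        exact Int.Prime.dvd_pow' hpp h1
      have h16 : jacobiSym 16 p = 1 := by
        have h3 : (16 : ℤ) = 4 ^ 2 := by norm_num
        rw [h3]
        refine jacobiSym.sq_one' ?_
        rw [Int.gcd_eq_natAbs]
        have h4 : Nat.Coprime (2 ^ 2) p := Nat.Coprime.pow_left 2 (Nat.coprime_two_left.2 hpodd)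
        simpa using h4
      have h5 : jacobiSym C p = jacobiSym (16 * C) p := by
        rw [jacobiSym.mul_left, h16, one_mul]
      have h6 : jacobiSym (16 * C) p = jacobiSym (ε * (-(a2 : ℤ))) p := by
        apply jacobiSym.mod_left'
        rw [hC]
        apply Int.ModEq.symm
        rw [Int.modEq_iff_dvd]
        obtain ⟨k, hk⟩ := hpa'
        obtain ⟨l, hl⟩ := hpb
        exact ⟨ε * k + 2 * l * j, by rw [hk, hl]; ring⟩
      rw [h5, h6, jacobiSym.mul_left]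
    · rw [if_neg (fun h => hpa (hdvd.1 h)), if_neg hpa, jacobiSym.mul_left]
  unfold chD KK
  rw [Finset.prod_congr rfl key, Finset.prod_mul_distrib, hε', one_mul]

/-! ### the sum for fixed `j` -/

theorem core {D1 D2 : ℕ} (s1 : Squarefree D1) (f1 : Fm D1) (f2 : Fm D2) {r : ZMod 5} {j : ℤ}
    (hj : j = 1 ∨ j = -1) :
    (∑ᶠ Q : Fo, if Q ∈ FQ' (D1 * D2) r ∧ Q.1 * ev Q (-j) 4 < 0 then Q.1.sign * chD D1 Q else 0) =
      ∑ b ∈ rb D1 D2 r, ∑ a ∈ (dis D1 D2 b).divisors.filter (15 ∣ ·), ∑ ε ∈ ({1, -1} : Finset ℤ),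
        if Cd b a (dis D1 D2 b / a) (ε * j) then ε * KK D1 a (dis D1 D2 b / a) else 0 := by
  have hD : 0 < D1 * D2 := Nat.mul_pos (Fm_pos f1) (Fm_pos f2)
  have hset : {Q : Fo | Q ∈ FQ' (D1 * D2) r ∧ Q.1 * ev Q (-j) 4 < 0} =
      mk D1 D2 j '' (Xs D1 D2 r j : Set (ℤ × ℕ × ℤ)) := by
    ext Q
    constructor
    · rintro ⟨h1, h2⟩
      obtain ⟨q, hq, rfl⟩ := mk_surj hD hj h1 h2
      exact ⟨q, hq, rfl⟩
    · rintro ⟨q, hq, rfl⟩
      exact mk_mem hj hq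
  have h1 : (∑ᶠ Q : Fo, if Q ∈ FQ' (D1 * D2) r ∧ Q.1 * ev Q (-j) 4 < 0 then
      Q.1.sign * chD D1 Q else 0) = ∑ q ∈ Xs D1 D2 r j,
        (mk D1 D2 j q).1.sign * chD D1 (mk D1 D2 j q) := by
    have h3 := finsum_mem_image (f := fun Q : Fo => Q.1.sign * chD D1 Q)
      (mk_inj (D1 := D1) (D2 := D2) (r := r) hj)
    rw [← finsum_mem_coe_finset]
    refine Eq.trans ?_ h3
    rw [← hset]
    refine finsum_congr fun Q => ?_
    rw [finsum_eq_if]
    rfl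
  have h2 : ∀ q ∈ Xs D1 D2 r j, (mk D1 D2 j q).1.sign * chD D1 (mk D1 D2 j q) =
      q.2.2 * KK D1 q.2.1 (dis D1 D2 q.1 / q.2.1) := by
    rintro ⟨b, a, ε⟩ hq
    rw [chD_mk s1 f1 hj hq]
    obtain ⟨hε, ha, -⟩ := mk_spec hj hq
    have h3 : (mk D1 D2 j (b, a, ε)).1 = ε * a := rfl
    have h4 : (ε * a).sign = ε := by
      have ha' : (0 : ℤ) < a := by exact_mod_cast ha
      rw [Int.sign_mul, Int.sign_eq_one_of_pos ha', mul_one]
      rcases hε with rfl | rfl <;> rfl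
    rw [h3, h4]
  rw [h1, Finset.sum_congr rfl h2]
  unfold Xs
  rw [Finset.sum_filter, Finset.sum_product]
  refine Finset.sum_congr rfl fun b hb => ?_
  have hpos : 0 < dis D1 D2 b := by
    unfold rb at hb
    exact (Finset.mem_filter.1 hb).2.2.2
  rw [Finset.sum_product]
  have hsub : (dis D1 D2 b).divisors.filter (15 ∣ ·) ⊆ range (4 * (D1 * D2) + 1) := by
    intro a ha
    have h3 := Nat.dvd_of_mem_divisors (Finset.mem_filter.1 ha).1
    have h4 := Nat.le_of_dvd hpos h3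
    have h5 : (dis D1 D2 b : ℤ) ≤ 4 * ((D1 * D2 : ℕ) : ℤ) := by
      rw [dis_eq hpos]; nlinarith [sq_nonneg b]
    have h6 : dis D1 D2 b ≤ 4 * (D1 * D2) := by exact_mod_cast h5
    rw [mem_range]; omega
  rw [← Finset.sum_subset hsub]
  · refine Finset.sum_congr rfl fun a ha => Finset.sum_congr rfl fun ε _ => ?_
    rw [Finset.mem_filter, Nat.mem_divisors] at ha
    simp only [ha.1.1, ha.2, true_and, and_self]
  · intro a _ ha
    refine Finset.sum_eq_zero fun ε _ => ?_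
    rw [if_neg]
    rintro ⟨⟨h3, h4⟩, -⟩
    exact ha (Finset.mem_filter.2 ⟨Nat.mem_divisors.2 ⟨h3, hpos.ne'⟩, h4⟩)

theorem eval1 : S_EVAL1 := by
  intro D1 D2 s1 f1 s2 f2 hc hne r hr
  have e1 : chi4 1 = 1 := rfl
  have e2 : chi4 (-1) = -1 := rfl
  have hne' : (1 : ℤ) ≠ -1 := by norm_num
  rw [Finset.sum_pair hne', core s1 f1 f2 (Or.inl rfl), core s1 f1 f2 (Or.inr rfl), e1, e2,
    one_mul, neg_one_mul, ← sub_eq_add_neg, ← Finset.sum_sub_distrib, Finset.mul_sum]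
  refine Finset.sum_congr rfl fun b _ => ?_
  rw [← Finset.sum_sub_distrib, Finset.mul_sum]
  refine Finset.sum_congr rfl fun a _ => ?_
  unfold JJ
  rw [Finset.sum_pair hne', Finset.sum_pair hne', Finset.sum_pair hne', e1, e2]
  simp only [one_mul, neg_mul, mul_one, neg_neg, mul_neg]
  have h1 : ∀ j : ℤ, Cd b a (dis D1 D2 b / a) j ↔
      (((a : ℤ) - b) % 2 = 0 ∧ (((dis D1 D2 b / a : ℕ) : ℤ) - a - 2 * b * j) % 16 = 0) :=
    fun j => Iff.rfl
  have h2 : (((a : ℤ) - b) % 2 = 0 ∧ (((dis D1 D2 b / a : ℕ) : ℤ) - a - 2 * b) % 16 = 0) ↔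
      Cd b a (dis D1 D2 b / a) 1 := by rw [h1, mul_one]
  have h3 : (((a : ℤ) - b) % 2 = 0 ∧ (((dis D1 D2 b / a : ℕ) : ℤ) - a - -(2 * b)) % 16 = 0) ↔
      Cd b a (dis D1 D2 b / a) (-1) := by rw [h1, mul_neg, mul_one]
  rw [if_congr h2 rfl rfl, if_congr h3 rfl rfl]
  split_ifs <;> ring

end

end C9

/-- C9: the reindexing -/
theorem t_EVAL1 : S_EVAL1 := C9.eval1

/-- C9: assembly of GEO -/
theorem t_GEOA : S_GEOA := C9.geoa

end Pool.Agent.H757_X15.CC
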