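import Pool.Agent.H757_X15.StmC2

/-!
# Project X15-C, task C19b: the conditions at the primes define a 2-group (HG)
-/

set_option autoImplicit false
set_option linter.unusedVariables false

namespace Pool.Agent.H757_X15.CC

open Finset
open Pool.Agent.H757_X15.DD (Fm Crit)

namespace HG

theorem J3 {p : ℕ} (hp : p.Prime) {x y z c : ℤ} (hx : jacobiSym x p = 1) (hy : jacobiSym y p = 1)
    (h : x * y = z * c ^ 2) (hc : ¬ (p : ℤ) ∣ c) : jacobiSym z p = 1 := by
  have h1 : jacobiSym (x * y) p = 1 := by rw [jacobiSym.mul_left, hx, hy, one_mul]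
  have hg : c.gcd p = 1 := by
    rw [← Int.isCoprime_iff_gcd_eq_one]
    exact ((Nat.prime_iff_prime_int.1 hp).coprime_iff_not_dvd.2 hc).symm
  rw [h, jacobiSym.mul_left, jacobiSym.pow_left, jacobiSym.sq_one hg, mul_one] at h1
  exact h1

/-- the decomposition of two divisors -/
theorem decomp {D d d' : ℕ} (hD : Squarefree D) (hd : d ∣ D) (hd' : d' ∣ D) :
    ∃ g a b k : ℕ, d = g * a ∧ d' = g * b ∧ d * d' / Nat.gcd d d' ^ 2 = a * b ∧ D = g * a * b * k ∧
      0 < g ∧ 0 < a ∧ 0 < b ∧ 0 < k ∧ Nat.Coprime g a ∧ Nat.Coprime g b ∧ Nat.Coprime a b ∧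
      Nat.Coprime (g * a * b) k := by
  have hD0 : 0 < D := Nat.pos_of_ne_zero hD.ne_zero
  have hd0 : 0 < d := Nat.pos_of_dvd_of_pos hd hD0
  have hd0' : 0 < d' := Nat.pos_of_dvd_of_pos hd' hD0
  obtain ⟨a, ha⟩ := Nat.gcd_dvd_left d d'
  obtain ⟨b, hb⟩ := Nat.gcd_dvd_right d d'
  have hg0 : 0 < Nat.gcd d d' := Nat.gcd_pos_of_pos_left _ hd0
  have ha0 : 0 < a := by
    rcases Nat.eq_zero_or_pos a with h | h
    · rw [h, mul_zero] at ha; omega
    · exact h
  have hb0 : 0 < b := by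
    rcases Nat.eq_zero_or_pos b with h | h
    · rw [h, mul_zero] at hb; omega
    · exact h
  have hsd : Squarefree (Nat.gcd d d' * a) := ha ▸ hD.squarefree_of_dvd hd
  have hsd' : Squarefree (Nat.gcd d d' * b) := hb ▸ hD.squarefree_of_dvd hd'
  have hga : Nat.Coprime (Nat.gcd d d') a := (Nat.squarefree_mul_iff.1 hsd).1
  have hgb : Nat.Coprime (Nat.gcd d d') b := (Nat.squarefree_mul_iff.1 hsd').1
  have hab : Nat.Coprime a b := by
    have h1 := Nat.coprime_div_gcd_div_gcd hg0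
    rwa [Nat.div_eq_of_eq_mul_right hg0 ha, Nat.div_eq_of_eq_mul_right hg0 hb] at h1
  have hdiv : Nat.gcd d d' * a * b ∣ D := by
    rw [← ha]
    have : d * b = Nat.lcm d d' := by
      apply Nat.eq_of_mul_eq_mul_left hg0
      rw [Nat.gcd_mul_lcm, mul_left_comm, ← hb]
    rw [this]
    exact Nat.lcm_dvd hd hd'
  obtain ⟨k, hk⟩ := hdiv
  have hk0 : 0 < k := by
    rcases Nat.eq_zero_or_pos k with h | h
    · rw [h, mul_zero] at hk; omega
    · exact h
  refine ⟨Nat.gcd d d', a, b, k, ha, hb, ?_, hk, hg0, ha0, hb0, hk0, hga, hgb, hab, ?_⟩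
  · have e : d * d' = Nat.gcd d d' ^ 2 * (a * b) := by
      calc d * d' = (Nat.gcd d d' * a) * (Nat.gcd d d' * b) := by rw [← ha, ← hb]
        _ = Nat.gcd d d' ^ 2 * (a * b) := by ring
    rw [e, Nat.mul_div_cancel_left _ (by positivity)]
  · rw [hk] at hD
    exact (Nat.squarefree_mul_iff.1 hD).1

theorem ndvd {p m n : ℕ} (hp : p.Prime) (hc : Nat.Coprime m n) (h : p ∣ m) : ¬ p ∣ n := fun h' =>
  hp.one_lt.ne' (Nat.dvd_one.1 (hc ▸ Nat.dvd_gcd h h'))

theorem ndvdZ {p n : ℕ} (h : ¬ p ∣ n) : ¬ (p : ℤ) ∣ (n : ℤ) := fun h' => h (Int.natCast_dvd_natCast.1 h')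

theorem closed {D : ℕ} (hD : Squarefree D) {d d' : ℕ} (h : Hd D d) (h' : Hd D d') :
    Hd D (d * d' / Nat.gcd d d' ^ 2) := by
  obtain ⟨hd, h1, h2⟩ := h
  obtain ⟨hd', h1', h2'⟩ := h'
  obtain ⟨g, a, b, k, ea, eb, e, eD, hg0, ha0, hb0, hk0, hga, hgb, hab, hk⟩ := decomp hD hd hd'
  rw [e]
  have q1 : D / d = b * k := by
    rw [eD, ea, show g * a * b * k = g * a * (b * k) by ring]
    exact Nat.mul_div_cancel_left _ (by positivity)
  have q2 : D / d' = a * k := by
    rw [eD, eb, show g * a * b * k = g * b * (a * k) by ring]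
    exact Nat.mul_div_cancel_left _ (by positivity)
  have q3 : D / (a * b) = g * k := by
    rw [eD, show g * a * b * k = a * b * (g * k) by ring]
    exact Nat.mul_div_cancel_left _ (by positivity)
  have hka : Nat.Coprime k a := (Nat.Coprime.coprime_dvd_left ⟨g * b, by ring⟩ hk).symm
  have hkb : Nat.Coprime k b := (Nat.Coprime.coprime_dvd_left ⟨g * a, by ring⟩ hk).symm
  have hkg : Nat.Coprime k g := (Nat.Coprime.coprime_dvd_left ⟨a * b, by ring⟩ hk).symm
  rw [q1] at h2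
  rw [q2] at h2'
  rw [ea] at h1 h2
  rw [eb] at h1' h2'
  refine ⟨?_, ?_, ?_⟩
  · rw [eD]; exact ⟨g * k, by ring⟩
  · intro p hp hpD hpab
    rw [eD] at hpD
    have hpa : ¬ p ∣ a := fun hh => hpab (Dvd.dvd.mul_right hh b)
    have hpb : ¬ p ∣ b := fun hh => hpab (Dvd.dvd.mul_left hh a)
    have hgk : p ∣ g ∨ p ∣ k := by
      rcases (Nat.Prime.dvd_mul hp).1 hpD with hh | hh
      · rcases (Nat.Prime.dvd_mul hp).1 hh with hh | hh
        · rcases (Nat.Prime.dvd_mul hp).1 hh with hh | hh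
          · exact Or.inl hh
          · exact absurd hh hpa
        · exact absurd hh hpb
      · exact Or.inr hh
    rcases hgk with hh | hh
    · have hpk : ¬ p ∣ k := ndvd hp hkg.symm hh
      refine J3 hp (h2 p hp (Dvd.dvd.mul_right hh a)) (h2' p hp (Dvd.dvd.mul_right hh b)) (c := k) ?_ (ndvdZ hpk)
      push_cast; ring
    · have hpg : ¬ p ∣ g := ndvd hp hkg hh
      have hpD' : p ∣ D := by rw [eD]; exact Dvd.dvd.mul_left hh _
      refine J3 hp (h1 p hp hpD' ?_) (h1' p hp hpD' ?_) (c := g) ?_ (ndvdZ hpg)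
      · intro hx
        rcases (Nat.Prime.dvd_mul hp).1 hx with hx | hx
        · exact hpg hx
        · exact hpa hx
      · intro hx
        rcases (Nat.Prime.dvd_mul hp).1 hx with hx | hx
        · exact hpg hx
        · exact hpb hx
      · push_cast; ring
  · intro p hp hpab
    rw [q3]
    have hpD' : p ∣ D := by rw [eD]; exact dvd_trans hpab ⟨g * k, by ring⟩
    rcases (Nat.Prime.dvd_mul hp).1 hpab with hh | hh
    · -- `p ∣ a`
      have hpb : ¬ p ∣ b := ndvd hp hab hh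
      have hpg : ¬ p ∣ g := ndvd hp hga.symm hh
      refine J3 hp (h2 p hp (Dvd.dvd.mul_left hh g)) (h1' p hp hpD' ?_) (c := b) ?_ (ndvdZ hpb)
      · intro hx
        rcases (Nat.Prime.dvd_mul hp).1 hx with hx | hx
        · exact hpg hx
        · exact hpb hx
      · push_cast; ring
    · have hpa : ¬ p ∣ a := ndvd hp hab.symm hh
      have hpg : ¬ p ∣ g := ndvd hp hgb.symm hh
      refine J3 hp (h2' p hp (Dvd.dvd.mul_left hh g)) (h1 p hp hpD' ?_) (c := a) ?_ (ndvdZ hpa)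
      · intro hx
        rcases (Nat.Prime.dvd_mul hp).1 hx with hx | hx
        · exact hpg hx
        · exact hpa hx
      · push_cast; ring

theorem one (D : ℕ) : Hd D 1 := by
  refine ⟨one_dvd D, fun p _ _ _ => by rw [Nat.cast_one, jacobiSym.one_left], fun p hp h => ?_⟩
  exact absurd (Nat.dvd_one.1 h) hp.one_lt.ne'

/-- the indicator of the prime factors -/
def ind (D d : ℕ) : D.primeFactors → ZMod 2 := fun p => if (p : ℕ) ∣ d then 1 else 0

theorem ind_add {D : ℕ} (hD : Squarefree D) {d d' : ℕ} (hd : d ∣ D) (hd' : d' ∣ D) :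
    ind D (d * d' / Nat.gcd d d' ^ 2) = ind D d + ind D d' := by
  obtain ⟨g, a, b, k, ea, eb, e, eD, hg0, ha0, hb0, hk0, hga, hgb, hab, hk⟩ := decomp hD hd hd'
  rw [e]
  funext p
  have hp : (p : ℕ).Prime := Nat.prime_of_mem_primeFactors p.2
  unfold ind
  rw [Pi.add_apply, ea, eb]
  simp only [Nat.Prime.dvd_mul hp]
  have n1 : (p : ℕ) ∣ g → ¬ (p : ℕ) ∣ a := fun h => ndvd hp hga h
  have n2 : (p : ℕ) ∣ g → ¬ (p : ℕ) ∣ b := fun h => ndvd hp hgb h
  have n3 : (p : ℕ) ∣ a → ¬ (p : ℕ) ∣ b := fun h => ndvd hp hab h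
  have h11 : (1 : ZMod 2) + 1 = 0 := by decide
  by_cases hg : (p : ℕ) ∣ g
  · simp [hg, n1 hg, n2 hg, h11]
  · by_cases ha : (p : ℕ) ∣ a
    · simp [hg, ha, n3 ha]
    · by_cases hb : (p : ℕ) ∣ b
      · simp [hg, ha, hb]
      · simp [hg, ha, hb]

theorem ind_inj {D : ℕ} (hD : Squarefree D) {d d' : ℕ} (hd : d ∣ D) (hd' : d' ∣ D)
    (h : ind D d = ind D d') : d = d' := by
  have hpf : d.primeFactors = d'.primeFactors := by
    have key : ∀ {x y : ℕ}, x ∣ D → y ∣ D → ind D x = ind D y → x.primeFactors ⊆ y.primeFactors := by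
      intro x y hx hy he p hp
      have hpp := Nat.prime_of_mem_primeFactors hp
      have hpx := Nat.dvd_of_mem_primeFactors hp
      have hpD : p ∈ D.primeFactors := Nat.mem_primeFactors.2 ⟨hpp, hpx.trans hx, hD.ne_zero⟩
      have := congrFun he ⟨p, hpD⟩
      unfold ind at this
      simp only [hpx, if_true] at this
      by_cases hpy : p ∣ y
      · exact Nat.mem_primeFactors.2 ⟨hpp, hpy, fun h0 => hD.ne_zero (Nat.eq_zero_of_zero_dvd (h0 ▸ hy))⟩
      · rw [if_neg hpy] at this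
        exact absurd this one_ne_zero
    exact Finset.Subset.antisymm (key hd hd' h) (key hd' hd h.symm)
  rw [← Nat.prod_primeFactors_of_squarefree (hD.squarefree_of_dvd hd),
    ← Nat.prod_primeFactors_of_squarefree (hD.squarefree_of_dvd hd'), hpf]

/-- the subgroup -/
def K {D : ℕ} (hD : Squarefree D) : AddSubgroup (D.primeFactors → ZMod 2) where
  carrier := ind D '' {d | Hd D d}
  zero_mem' := by
    refine ⟨1, one D, ?_⟩
    funext p
    have hp : (p : ℕ).Prime := Nat.prime_of_mem_primeFactors p.2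
    unfold ind
    rw [if_neg (fun h => hp.one_lt.ne' (Nat.dvd_one.1 h))]
    rfl
  add_mem' := by
    rintro _ _ ⟨d, hd, rfl⟩ ⟨d', hd', rfl⟩
    exact ⟨_, closed hD hd hd', ind_add hD hd.1 hd'.1⟩
  neg_mem' := by
    rintro _ ⟨d, hd, rfl⟩
    refine ⟨d, hd, ?_⟩
    funext p
    rw [Pi.neg_apply]
    exact (CharTwo.neg_eq _).symm

end HG

open scoped Classical in
/-- C19b -/
theorem t_HG : S_HG := by
  intro D hD hFm
  refine ⟨fun d d' h h' => HG.closed hD h h', ?_⟩
  have h1 : Nat.card (HG.K hD) = (D.divisors.filter (Hd D)).card := by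
    have e : {d | Hd D d} = ((D.divisors.filter (Hd D) : Finset ℕ) : Set ℕ) := by
      ext d
      simp only [Set.mem_ofPred_eq, Finset.coe_filter, Nat.mem_divisors]
      exact ⟨fun h => ⟨⟨h.1, hD.ne_zero⟩, h⟩, fun h => h.2⟩
    have h2 : Nat.card (HG.K hD) = (HG.ind D '' {d | Hd D d}).ncard := rfl
    rw [h2, Set.InjOn.ncard_image (fun d hd d' hd' h => HG.ind_inj hD hd.1 hd'.1 h), e, Set.ncard_coe_finset]
  have h2 : Nat.card (HG.K hD) ∣ 2 ^ D.primeFactors.card := by
    have := AddSubgroup.card_addSubgroup_dvd_card (HG.K hD)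
    rwa [Nat.card_eq_fintype_card (α := D.primeFactors → ZMod 2), Fintype.card_fun, ZMod.card,
      Fintype.card_coe] at this
  obtain ⟨h, _, hh⟩ := (Nat.dvd_prime_pow Nat.prime_two).1 h2
  exact ⟨h, by rw [← h1, hh]⟩

end Pool.Agent.H757_X15.CC
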