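import Pool.Agent.H757_X15.StmC2

/-!
# X15-C18 (IND0): the divisibility of the Gross sums, by induction over the divisors
-/

set_option autoImplicit false
set_option linter.unusedVariables false

namespace Pool.Agent.H757_X15.CC

open Finset
open Pool.Agent.Y687 (SS rr)
open Pool.Agent.H757_X15 (Symb15)
open Pool.Agent.H757_X15.DD (Fm Crit)
open Pool.Agent.H757_X15.BB (chi4 wt c2 loc dis RR pii rg S_BIL)

open scoped Classical

/-- the conclusion of `S_GENUS` -/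
def INDG : Prop := ∀ D : ℕ, Squarefree D → Fm D → D ≠ 1 →
    ∀ r : ZMod 5, r ^ 2 = (D : ZMod 5) → ∀ t u : ℤ, Fund D t u →
    ∀ R : Finset Fo, IsRep 15 (FQ D r) R →
    2 * ∑ d ∈ D.divisors.filter Fm, ∑ Q ∈ R, chD d Q * NG t u Q =
      2 ^ D.primeFactors.card * (SG D t u R 1 + SG D t u R 3)

/-- the conclusion of `S_TT8` -/
def INDT : Prop := ∀ D : ℕ, Squarefree D → Fm D → D ≠ 1 → ∀ r : ZMod 5, r ^ 2 = (D : ZMod 5) →
    ∀ t u : ℤ, Fund D t u → ∀ R : Finset Fo, IsRep 15 (FQ D r) R →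
    ∀ ℓ : ℤ, (∀ Q ∈ FQ D r, log4 (dQ t u Q) = ℓ) →
    (8 : ℤ) ∣ SG D t u R 1 + SG D t u R 3 -
      4 * ℓ * (R.filter fun Q => ∀ p ∈ D.primeFactors, chp p Q = 1).card

namespace INDaux

theorem fm_div {D d : ℕ} (hD : Fm D) (hd : Fm d) (h : d ∣ D) : Fm (D / d) := by
  obtain ⟨e, rfl⟩ := h
  have hd0 : 0 < d := by
    rcases hd with h | h <;> omega
  rw [Nat.mul_div_cancel_left _ hd0]
  have h1 : (d * e) % 60 = ((d % 60) * (e % 60)) % 60 := Nat.mul_mod d e 60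
  have h2 : e % 60 < 60 := Nat.mod_lt _ (by norm_num)
  unfold Fm at *
  generalize e % 60 = x at *
  generalize hy : (d * e) % 60 = y at *
  rcases hd with h | h <;> rw [h] at h1
  · rw [one_mul, Nat.mod_eq_of_lt h2] at h1
    rcases hD with h3 | h3
    · left; omega
    · right; omega
  · rcases hD with h3 | h3
    · right; omega
    · left; omega

/-- the product for a divisor -/
theorem geo (hGEO : S_GEO) (hR5 : S_R5) {D : ℕ} (hs : Squarefree D) (hD : Fm D) (hD1 : D ≠ 1)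
    {t u : ℤ} (hF : Fund D t u) {R : Finset Fo} (hR : IsRep 15 (FQ D (r5 D)) R)
    {d : ℕ} (hdD : d ∣ D) (hd : Fm d) :
    2 * ∑ Q ∈ R, chD d Q * NG t u Q = PI d * PI (D / d) := by
  have he := fm_div hD hd hdD
  obtain ⟨e, rfl⟩ := hdD
  have hd0 : 0 < d := by
    rcases hd with h | h <;> omega
  rw [Nat.mul_div_cancel_left _ hd0] at he ⊢
  have hc : Nat.Coprime d e := Nat.coprime_of_squarefree_mul hs
  have hsd : Squarefree d := hs.of_mul_left
  have hse : Squarefree e := hs.of_mul_right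
  have hne : d ≠ 1 ∨ e ≠ 1 := by
    by_contra h
    push Not at h
    exact hD1 (by rw [h.1, h.2])
  have h4 : (2 : ZMod 5) ^ 2 = -1 := by decide
  have hb1 : (2 * r5 d) ^ 2 = -(d : ZMod 5) := by
    rw [mul_pow, hR5.1 d hsd hd, h4, neg_one_mul]
  have hb2 : (2 * r5 e) ^ 2 = -(e : ZMod 5) := by
    rw [mul_pow, hR5.1 e hse he, h4, neg_one_mul]
  have hb : -((2 * r5 d) * (2 * r5 e)) = r5 (d * e) := by
    rw [hR5.2.1 d e hsd hd hse he hc]
    have h5 : -((2 * r5 d) * (2 * r5 e)) = -(2 ^ 2) * (r5 d * r5 e) := by ring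
    rw [h5, h4]
    ring
  have h6 := hGEO d e hsd hd hse he hc hne (2 * r5 d) (2 * r5 e) hb1 hb2 t u hF R (by rw [hb]; exact hR)
  rw [h6]
  rfl

/-- a sum over a fixed point free involution -/
theorem even_sum (D : ℕ) (S : Finset ℕ) (f : ℕ → ℤ) (hS : ∀ d ∈ S, D / d ∈ S)
    (hf : ∀ d ∈ S, f (D / d) = f d) (hfix : ∀ d ∈ S, D / d ≠ d) (hinv : ∀ d ∈ S, D / (D / d) = d) :
    ∃ w : ℤ, ∑ d ∈ S, f d = 2 * w := by
  have h1 : ((∑ d ∈ S, f d : ℤ) : ZMod 2) = 0 := by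
    rw [Int.cast_sum]
    refine Finset.sum_involution (fun d _ => D / d) ?_ ?_ ?_ ?_
    · intro d hd
      rw [hf d hd, ← two_mul]
      have : (2 : ZMod 2) = 0 := by decide
      rw [this, zero_mul]
    · intro d hd _
      exact hfix d hd
    · intro d hd
      exact hS d hd
    · intro d hd
      exact hinv d hd
  have h2 := (ZMod.intCast_zmod_eq_zero_iff_dvd _ 2).1 h1
  obtain ⟨w, hw⟩ := h2
  exact ⟨w, by rw [hw]; norm_num⟩

/-- the step -/
theorem step (hGEO : S_GEO) (hR5 : S_R5) (hG : INDG) (hT : INDT) {D : ℕ} (hs : Squarefree D)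
    (hD : Fm D) (hD1 : D ≠ 1)
    (IH : ∀ d : ℕ, d ∣ D → d ≠ D → Fm d → d ≠ 1 → ∃ y : ℤ, PI d = 2 ^ (d.primeFactors.card + 1) * y)
    {t u : ℤ} (hF : Fund D t u) {R : Finset Fo} (hR : IsRep 15 (FQ D (r5 D)) R)
    {ℓ : ℤ} (hℓ : ∀ Q ∈ FQ D (r5 D), log4 (dQ t u Q) = ℓ) :
    ∃ y : ℤ, PI D = 2 ^ (D.primeFactors.card + 1) * y ∧
    (Odd y ↔ (Odd ℓ ∧ Odd (R.filter fun Q => ∀ p ∈ D.primeFactors, chp p Q = 1).card)) := by
  have hr := hR5.1 D hs hD
  have hD0 : D ≠ 0 := hs.ne_zero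
  have hg := hG D hs hD hD1 (r5 D) hr t u hF R hR
  obtain ⟨z, hz⟩ := hT D hs hD hD1 (r5 D) hr t u hF R hR ℓ hℓ
  set g : ℕ := (R.filter fun Q => ∀ p ∈ D.primeFactors, chp p Q = 1).card with hgdef
  set k : ℕ := D.primeFactors.card with hk
  have h1 : ∑ d ∈ D.divisors.filter Fm, PI d * PI (D / d) = 2 ^ (k + 2) * (ℓ * g + 2 * z) := by
    have h2 : ∑ d ∈ D.divisors.filter Fm, PI d * PI (D / d) =
        2 * ∑ d ∈ D.divisors.filter Fm, ∑ Q ∈ R, chD d Q * NG t u Q := by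
      rw [Finset.mul_sum]
      refine Finset.sum_congr rfl fun d hd => ?_
      rw [mem_filter, Nat.mem_divisors] at hd
      exact (geo hGEO hR5 hs hD hD1 hF hR hd.1.1 hd.2).symm
    rw [h2, hg]
    have h3 : SG D t u R 1 + SG D t u R 3 = 4 * ℓ * g + 8 * z := by
      linarith
    rw [h3]
    ring
  -- choose the quotients
  have hY : ∀ d : ℕ, ∃ y : ℤ, d ∣ D → d ≠ D → Fm d → d ≠ 1 →
      PI d = 2 ^ (d.primeFactors.card + 1) * y := by
    intro d
    by_cases h : d ∣ D ∧ d ≠ D ∧ Fm d ∧ d ≠ 1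
    · obtain ⟨y, hy⟩ := IH d h.1 h.2.1 h.2.2.1 h.2.2.2
      exact ⟨y, fun _ _ _ _ => hy⟩
    · exact ⟨0, fun a b c e => absurd ⟨a, b, c, e⟩ h⟩
  choose Y hY using hY
  set S : Finset ℕ := (D.divisors.filter Fm).filter (fun d => d ≠ 1 ∧ d ≠ D) with hS
  have memS : ∀ d, d ∈ S ↔ d ∣ D ∧ Fm d ∧ d ≠ 1 ∧ d ≠ D := by
    intro d
    rw [hS, mem_filter, mem_filter, Nat.mem_divisors]
    tauto
  have hinv : ∀ d ∈ S, D / (D / d) = d := by
    intro d hd
    exact Nat.div_div_self ((memS d).1 hd).1 hD0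
  have hSS : ∀ d ∈ S, D / d ∈ S := by
    intro d hd
    obtain ⟨a, b, c, e⟩ := (memS d).1 hd
    rw [memS]
    refine ⟨Nat.div_dvd_of_dvd a, fm_div hD b a, ?_, ?_⟩
    · intro h
      have h1 := hinv d hd
      rw [h, Nat.div_one] at h1
      exact e h1.symm
    · intro h
      have h1 := hinv d hd
      rw [h, Nat.div_self (Nat.pos_of_ne_zero hD0)] at h1
      exact c h1.symm
  have hfix : ∀ d ∈ S, D / d ≠ d := by
    intro d hd h
    obtain ⟨a, b, c, e⟩ := (memS d).1 hd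
    have h1 : D = d * d := by
      have := Nat.mul_div_cancel' a
      rw [h] at this
      exact this.symm
    have h2 : IsUnit d := hs d ⟨1, by rw [mul_one]; exact h1⟩
    rw [Nat.isUnit_iff] at h2
    exact c h2
  obtain ⟨w, hw⟩ := even_sum D S (fun d => Y d * Y (D / d)) hSS
    (fun d hd => by show Y (D / d) * Y (D / (D / d)) = Y d * Y (D / d); rw [hinv d hd, mul_comm]) hfix hinv
  have h5 : ∑ d ∈ S, PI d * PI (D / d) = 2 ^ (k + 2) * (2 * w) := by
    rw [← hw, Finset.mul_sum]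
    refine Finset.sum_congr rfl fun d hd => ?_
    obtain ⟨a, b, c, e⟩ := (memS d).1 hd
    obtain ⟨a', b', c', e'⟩ := (memS _).1 (hSS d hd)
    rw [hY d a e b c, hY (D / d) a' e' b' c']
    have hkk : k = d.primeFactors.card + (D / d).primeFactors.card := by
      have h6 : D = d * (D / d) := (Nat.mul_div_cancel' a).symm
      have hc : Nat.Coprime d (D / d) := by
        rw [h6] at hs
        exact Nat.coprime_of_squarefree_mul hs
      rw [hk]
      conv_lhs => rw [h6]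
      rw [hc.primeFactors_mul, Finset.card_union_of_disjoint hc.disjoint_primeFactors]
    rw [hkk]
    ring
  have h7 : ∑ d ∈ D.divisors.filter Fm, PI d * PI (D / d) = 2 * PI D + ∑ d ∈ S, PI d * PI (D / d) := by
    rw [← Finset.sum_filter_add_sum_filter_not (D.divisors.filter Fm) (fun d => d ≠ 1 ∧ d ≠ D),
      add_comm]
    congr 1
    have h8 : (D.divisors.filter Fm).filter (fun d => ¬ (d ≠ 1 ∧ d ≠ D)) = {1, D} := by
      ext d
      rw [mem_filter, mem_filter, Nat.mem_divisors, mem_insert, mem_singleton]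
      constructor
      · rintro ⟨-, h⟩
        tauto
      · rintro (rfl | rfl)
        · exact ⟨⟨⟨one_dvd _, hD0⟩, Or.inl rfl⟩, by tauto⟩
        · exact ⟨⟨⟨dvd_rfl, hD0⟩, hD⟩, by tauto⟩
    rw [h8, Finset.sum_pair (Ne.symm hD1), Nat.div_one, Nat.div_self (Nat.pos_of_ne_zero hD0), hR5.2.2]
    ring
  refine ⟨ℓ * g + 2 * z - 2 * w, ?_, ?_⟩
  · rw [h7, h5] at h1
    have h9 : (2 : ℤ) * PI D = 2 * (2 ^ (k + 1) * (ℓ * g + 2 * z - 2 * w)) := by
      have h10 : (2 : ℤ) ^ (k + 2) = 2 * 2 ^ (k + 1) := by ring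
      rw [h10] at h1
      linear_combination h1
    exact mul_left_cancel₀ (by norm_num) h9
  · have h11 : Odd (ℓ * g + 2 * z - 2 * w) ↔ Odd (ℓ * (g : ℤ)) := by
      simp only [Int.odd_iff]
      omega
    rw [h11, Int.odd_mul]
    have h12 : Odd (g : ℤ) ↔ Odd g := by
      exact_mod_cast Iff.rfl
    rw [h12]

/-- the divisibility -/
theorem dvd_all (hGEO : S_GEO) (hR5 : S_R5) (hFUND : S_FUND) (hFIN : S_FIN) (hELL : S_ELL)
    (hG : INDG) (hT : INDT) : ∀ D : ℕ, Squarefree D → Fm D → D ≠ 1 →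
    ∃ y : ℤ, PI D = 2 ^ (D.primeFactors.card + 1) * y := by
  intro D
  induction D using Nat.strong_induction_on with
  | _ D IH =>
    intro hs hD hD1
    have hD0 : 0 < D := Nat.pos_of_ne_zero hs.ne_zero
    have hD2 : 1 < D := by omega
    have hr := hR5.1 D hs hD
    obtain ⟨t, u, hF⟩ := hFUND D hs hD2
    obtain ⟨R, hR⟩ := hFIN D hs hD hD1 (r5 D) hr
    obtain ⟨ℓ, hℓ⟩ := hELL D hs hD hD1 (r5 D) hr t u hF
    obtain ⟨y, hy, -⟩ := step hGEO hR5 hG hT hs hD hD1 (fun d h1 h2 h3 h4 =>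
      IH d (lt_of_le_of_ne (Nat.le_of_dvd hD0 h1) h2) (hs.squarefree_of_dvd h1) h3 h4) hF hR hℓ
    exact ⟨y, hy⟩

end INDaux

/-- C18 (IND0) -/
theorem ind0_of (hGEO : S_GEO) (hR5 : S_R5) (hFUND : S_FUND) (hFIN : S_FIN) (hELL : S_ELL)
    (hG : INDG) (hT : INDT) : S_IND0 := by
  intro D hs hD hD1 t u hF R hR ℓ hℓ
  exact INDaux.step hGEO hR5 hG hT hs hD hD1 (fun d h1 h2 h3 h4 =>
    INDaux.dvd_all hGEO hR5 hFUND hFIN hELL hG hT d (hs.squarefree_of_dvd h1) h3 h4) hF hR hℓ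

end Pool.Agent.H757_X15.CC
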