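import Pool.Agent.H757_X15.StmC2
import Pool.Agent.H757_X15.CS.CG

/-!
# X15-C20 (IND2, MAINC2): the assembly of the converse, the character sum of the modular symbol
-/

set_option autoImplicit false
set_option linter.unusedVariables false

namespace Pool.Agent.H757_X15.CC

open Finset
open Pool.Agent.Y687 (SS rr)
open Pool.Agent.H757_X15 (Symb15)
open Pool.Agent.H757_X15.DD (Fm Crit)
open Pool.Agent.H757_X15.BB (pii)

open scoped Classical

namespace IND2aux

theorem mem_rr {M a : ℕ} : a ∈ rr M ↔ a < M ∧ Nat.Coprime a M := by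
  simp [rr]

/-- a residue with symbol `-1` -/
theorem exists_neg {D : ℕ} (hs : Squarefree D) (hodd : D % 2 = 1) (hD1 : D ≠ 1) :
    ∃ n : ℕ, jacobiSym (n : ℤ) D = -1 := by
  obtain ⟨p, hpp, hpD⟩ := Nat.exists_prime_and_dvd hD1
  have : Fact p.Prime := ⟨hpp⟩
  obtain ⟨Q, hQ⟩ := hpD
  have hcop : Nat.Coprime p Q := by
    rw [hQ] at hs
    exact Nat.coprime_of_squarefree_mul hs
  have hp2 : p ≠ 2 := by
    rintro rfl
    omega
  have hchar : ringChar (ZMod p) ≠ 2 := by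
    rw [ZMod.ringChar_zmod_n]; exact hp2
  obtain ⟨t, ht⟩ := quadraticChar_exists_neg_one hchar
  obtain ⟨n, hn1, hn2⟩ := Nat.chineseRemainder hcop t.val 1
  have hjp : jacobiSym (n : ℤ) p = -1 := by
    have h3 : jacobiSym (t.val : ℤ) p = -1 := by
      rw [← jacobiSym.legendreSym.to_jacobiSym, legendreSym]
      simpa using ht
    rw [← h3]
    refine jacobiSym.mod_left' ?_
    exact_mod_cast hn1
  have hjQ : jacobiSym (n : ℤ) Q = 1 := by
    have h3 : jacobiSym ((1 : ℕ) : ℤ) Q = 1 := by simp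
    rw [← h3]
    refine jacobiSym.mod_left' ?_
    exact_mod_cast hn2
  have hQ0 : Q ≠ 0 := by
    rintro rfl
    rw [mul_zero] at hQ
    omega
  exact ⟨n, by rw [hQ, jacobiSym.mul_right' _ hpp.ne_zero hQ0, hjp, hjQ, mul_one]⟩

theorem sum_jac {D : ℕ} (hs : Squarefree D) (hodd : D % 2 = 1) (hD1 : D ≠ 1) :
    ∑ u ∈ rr D, jacobiSym (u : ℤ) D = 0 := by
  have hD0 : 0 < D := Nat.pos_of_ne_zero hs.ne_zero
  have : NeZero D := ⟨hD0.ne'⟩
  obtain ⟨n, hn⟩ := exists_neg hs hodd hD1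
  have hcn : Nat.Coprime n D := by
    by_contra h
    have h0 : jacobiSym (n : ℤ) D = 0 := by
      rw [jacobiSym.eq_zero_iff_not_coprime]
      intro hg
      rw [Int.gcd_natCast_natCast] at hg
      exact h hg
    rw [hn] at h0
    norm_num at h0
  have hmaps : ∀ a ∈ rr D, n * a % D ∈ rr D := by
    intro a ha
    rw [mem_rr] at ha ⊢
    refine ⟨Nat.mod_lt _ hD0, ?_⟩
    have h1 : Nat.Coprime (n * a) D := hcn.mul_left ha.2
    rw [Nat.Coprime, ← Nat.gcd_rec, Nat.gcd_comm]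
    exact h1
  have hinj : Set.InjOn (fun a => n * a % D) (rr D : Set ℕ) := by
    intro a ha b hb hab
    rw [mem_coe, mem_rr] at ha hb
    have h1 : n * a ≡ n * b [MOD D] := hab
    have h2 : a ≡ b [MOD D] := Nat.ModEq.cancel_left_of_coprime (Nat.coprime_comm.1 hcn) h1
    have h3 : a % D = b % D := h2
    rwa [Nat.mod_eq_of_lt ha.1, Nat.mod_eq_of_lt hb.1] at h3
  have himg : (rr D).image (fun a => n * a % D) = rr D := by
    refine Finset.eq_of_subset_of_card_le ?_ ?_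
    · intro b hb
      obtain ⟨a, ha, rfl⟩ := mem_image.1 hb
      exact hmaps a ha
    · rw [Finset.card_image_of_injOn hinj]
  have h1 : ∑ u ∈ rr D, jacobiSym (u : ℤ) D = - ∑ u ∈ rr D, jacobiSym (u : ℤ) D := by
    conv_lhs => rw [← himg]
    rw [Finset.sum_image hinj, ← Finset.sum_neg_distrib]
    refine Finset.sum_congr rfl fun a _ => ?_
    have h2 : jacobiSym ((n * a % D : ℕ) : ℤ) D = jacobiSym ((n * a : ℕ) : ℤ) D := by
      refine jacobiSym.mod_left' ?_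
      push_cast
      exact Int.emod_emod_of_dvd _ dvd_rfl
    rw [h2]
    push_cast
    rw [jacobiSym.mul_left, hn]
    ring
  linarith

/-- the character sum of the modular symbol is `s 0` times the square of the Gross sum -/
theorem SS_eq (hNC : S_NC) (hNHOM : S_NHOM) (hSYM : S_SYM) (hDIAG : S_DIAG) (hR5 : S_R5)
    {s : ℚ → ℤ} {a : ℕ → ℤ} (h : Symb15 s a) {D : ℕ} (hs : Squarefree D) (hD : Fm D)
    (hD1 : D ≠ 1) : SS s D D = s 0 * PI D ^ 2 := by
  have hD0 : 0 < D := Nat.pos_of_ne_zero hs.ne_zero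
  have hodd : D % 2 = 1 := by
    rcases hD with h | h <;> omega
  have h15 : Nat.Coprime D 15 := by
    rw [show (15 : ℕ) = 3 * 5 by norm_num]
    refine Nat.Coprime.mul_right ?_ ?_
    · rw [Nat.coprime_comm, Nat.Prime.coprime_iff_not_dvd Nat.prime_three]
      intro hd
      rcases hD with h | h <;> omega
    · rw [Nat.coprime_comm, Nat.Prime.coprime_iff_not_dvd Nat.prime_five]
      intro hd
      rcases hD with h | h <;> omega
  have hβ : (2 * r5 D) ^ 2 = -(D : ZMod 5) := by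
    rw [mul_pow, hR5.1 D hs hD]
    have h4 : (2 : ZMod 5) ^ 2 = -1 := by decide
    rw [h4, neg_one_mul]
  have h1 := hDIAG D hs hD hD1 (2 * r5 D) hβ
  have h2 : ∀ u ∈ rr D, jacobiSym (u : ℤ) D * s ((u : ℚ) / D) =
      s 0 * (jacobiSym (u : ℤ) D + 2 * (jacobiSym (u : ℤ) D * NN u D)) := by
    intro u hu
    have hc : IsCoprime (u : ℤ) (D : ℤ) := Nat.isCoprime_iff_coprime.2 (mem_rr.1 hu).2
    have h3 := hSYM hNC hNHOM s a h (u : ℤ) D hD0 h15 hc
    have h4 : ((u : ℚ) / D) = (((u : ℤ) : ℚ) / (D : ℚ)) := by push_cast; rfl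
    rw [h4, h3]
    ring
  unfold SS
  rw [Finset.sum_congr rfl h2, ← Finset.mul_sum, Finset.sum_add_distrib, sum_jac hs hodd hD1,
    zero_add, ← Finset.mul_sum, h1]
  rfl

end IND2aux

open IND2aux in
/-- the assembly of the final statement from the divisibility and the parity -/
theorem mainc2_of (hNC : S_NC) (hNHOM : S_NHOM) (hSYM : S_SYM) (hDIAG : S_DIAG) (hIND : S_IND2)
    (hR5 : S_R5) : S_MAINC2 := by
  intro s a h D hs hD hD1
  obtain ⟨y, hy, hc⟩ := hIND D hs hD hD1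
  refine ⟨y, ?_, hc⟩
  rw [SS_eq hNC hNHOM hSYM hDIAG hR5 h hs hD hD1, hy, mul_pow, ← pow_mul]
  congr 2
  rw [mul_comm, pow_mul]
  norm_num

/-- the same for the weaker statement -/
theorem mainc_of (hNC : S_NC) (hNHOM : S_NHOM) (hSYM : S_SYM) (hDIAG : S_DIAG) (hIND : S_IND)
    (hR5 : S_R5) : S_MAINC := by
  intro s a h D hs hD hD1
  obtain ⟨y, hy, hc⟩ := hIND D hs hD hD1
  refine ⟨y, ?_, hc⟩
  rw [IND2aux.SS_eq hNC hNHOM hSYM hDIAG hR5 h hs hD hD1, hy, mul_pow, ← pow_mul]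
  congr 2
  rw [mul_comm, pow_mul]
  norm_num

/-- IND2 from IND0, the criterion (`S_PELL`, `S_ODDG`) and the converse (`t_CG`) -/
theorem ind2_of (h0 : S_IND0) (hR5 : S_R5) (hFUND : S_FUND) (hFIN : S_FIN) (hLEV : S_LEV)
    (hELL : S_ELL) (hPM : S_PM) (hPELL : S_PELL) (hODDG : S_ODDG) (hPM0 : S_PM0) (hAMB : S_AMB)
    (hHG : S_HG) : S_IND2 := by
  intro D hs hD hD1
  have hD2 : 1 < D := by
    have := Nat.pos_of_ne_zero hs.ne_zero
    omega
  have hr : r5 D ^ 2 = (D : ZMod 5) := hR5.1 D hs hD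
  obtain ⟨t, u, hF⟩ := hFUND D hs hD2
  obtain ⟨R, hR⟩ := hFIN D hs hD hD1 (r5 D) hr
  obtain ⟨ℓ, hℓ⟩ := hELL D hs hD hD1 (r5 D) hr t u hF
  obtain ⟨-, hR1, -, -⟩ := hLEV D hs hD hD1 (r5 D) hr R hR
  obtain ⟨y, hy, hodd⟩ := h0 D hs hD hD1 t u hF R hR ℓ hℓ
  refine ⟨y, hy, ?_⟩
  rw [hodd]
  constructor
  · rintro ⟨h1, h2⟩
    have hne : (FQ D (r5 D)).Nonempty := by
      have h3 : (R.filter fun Q => ∀ p ∈ D.primeFactors, chp p Q = 1).card ≠ 0 := by
        intro h4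
        rw [h4] at h2
        exact absurd h2 (by decide)
      obtain ⟨Q, hQ⟩ := Finset.card_ne_zero.1 h3
      exact ⟨Q, hR.1 Q (mem_filter.1 hQ).1⟩
    exact t_CG hPM0 hAMB hHG D hs hD hD1 (r5 D) hr t u hF
      (fun Q hQ => by rw [hℓ Q hQ]; exact h1) hne R hR1 h2
  · intro hC
    have h2 := hODDG hPM hFUND D hs hD hD1 hC R hR1
    refine ⟨?_, h2⟩
    have h3 : (R.filter fun Q => ∀ p ∈ D.primeFactors, chp p Q = 1).card ≠ 0 := by
      intro h4
      rw [h4] at h2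
      exact absurd h2 (by decide)
    obtain ⟨Q, hQ⟩ := Finset.card_ne_zero.1 h3
    have h4 := hR.1 Q (mem_filter.1 hQ).1
    rw [← hℓ Q h4]
    exact hPELL hPM D hs hD hD1 hC (r5 D) hr t u hF Q h4

/-- IND from IND2 -/
theorem ind_of (h : S_IND2) : S_IND := by
  intro D hs hD hD1
  obtain ⟨y, hy, hc⟩ := h D hs hD hD1
  exact ⟨y, hy, fun hC => hc.2 hC⟩

end Pool.Agent.H757_X15.CC
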