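import Pool.Agent.H757_X15.StmC

/-!
# Project X15-C: the multiplicative divisor sum (C10, MUL)
-/

set_option autoImplicit false

namespace Pool.Agent.H757_X15.CC

open Finset
open Pool.Agent.Z700 (fac hh)
open Pool.Agent.H757_X15.DD (Fm)
open Pool.Agent.H757_X15.BB (chi4 loc pf3)

namespace Mul

theorem chi4_eq (a : ℕ) (ha : a % 2 = 1) : chi4 (a : ℤ) = ZMod.χ₄ (a : ZMod 4) := by
  rw [ZMod.χ₄_nat_eq_if_mod_four]
  unfold chi4
  have h : a % 4 = 1 ∨ a % 4 = 3 := by omega
  rcases h with h | h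
  · rw [if_pos (by omega), if_neg (by omega), if_pos h]
  · rw [if_neg (by omega), if_pos (by omega), if_neg (by omega), if_neg (by omega)]

theorem chi4_mul (a b : ℕ) (ha : a % 2 = 1) (hb : b % 2 = 1) :
    chi4 ((a * b : ℕ) : ℤ) = chi4 a * chi4 b := by
  have hab : (a * b) % 2 = 1 := by
    rw [Nat.mul_mod, ha, hb]
  rw [chi4_eq _ hab, chi4_eq a ha, chi4_eq b hb]
  push_cast
  rw [map_mul]

theorem chi4_sq (a : ℕ) (ha : a % 2 = 1) : chi4 (a : ℤ) * chi4 (a : ℤ) = 1 := by
  unfold chi4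
  have h : a % 4 = 1 ∨ a % 4 = 3 := by omega
  rcases h with h | h
  · rw [if_pos (by omega)]; rfl
  · rw [if_neg (by omega), if_pos (by omega)]; rfl

theorem jac_prod (a : ℤ) (s : Finset ℕ) (hs : ∀ p ∈ s, p ≠ 0) :
    jacobiSym a (∏ p ∈ s, p) = ∏ p ∈ s, jacobiSym a p := by
  induction s using Finset.induction_on with
  | empty => simp
  | insert p s hp ih =>
    rw [Finset.prod_insert hp, Finset.prod_insert hp, jacobiSym.mul_right' _
      (hs p (mem_insert_self _ _)) (Finset.prod_ne_zero_iff.2 fun q hq => hs q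
        (mem_insert_of_mem hq)), ih fun q hq => hs q (mem_insert_of_mem hq)]

theorem jac_sqf (a : ℤ) {d : ℕ} (hd : Squarefree d) :
    ∏ p ∈ d.primeFactors, jacobiSym a p = jacobiSym a d := by
  rw [← jac_prod a d.primeFactors fun p hp => (Nat.prime_of_mem_primeFactors hp).ne_zero,
    Nat.prod_primeFactors_of_squarefree hd]

theorem odd_of_dvd {a b : ℕ} (h : a ∣ b) (hb : b % 2 = 1) : a % 2 = 1 := by
  obtain ⟨c, rfl⟩ := h
  rcases Nat.mod_two_eq_zero_or_one a with h | h
  · rw [Nat.mul_mod, h] at hb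
    simp at hb
  · exact h

/-- the symbol in a single factor -/
theorem hh_eq {d n e d' x p : ℕ} (hp : p.Prime) (hpe : p ∣ e) (he : Squarefree e)
    (hd : d = d' * e) (hn : n = x * e) (hf : n.factorization p = 1) :
    hh d n p = jacobiSym (-((d' * x : ℕ) : ℤ)) p := by
  obtain ⟨k, rfl⟩ := hpe
  have hk : ¬ p ∣ k := by
    intro h
    obtain ⟨j, rfl⟩ := h
    have h1 : p * p ∣ p * (p * j) := ⟨j, by ring⟩
    exact hp.one_lt.ne' (Nat.isUnit_iff.1 (he p h1))
  have hcop : IsCoprime (k : ℤ) (p : ℤ) :=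
    Nat.isCoprime_iff_coprime.2 ((Nat.Prime.coprime_iff_not_dvd hp).2 hk).symm
  unfold hh
  rw [hf, if_neg (by decide), pow_one]
  have h1 : d / p = d' * k := by
    rw [hd]
    exact Nat.div_eq_of_eq_mul_left hp.pos (by ring)
  have h2 : n / p = x * k := by
    rw [hn]
    exact Nat.div_eq_of_eq_mul_left hp.pos (by ring)
  rw [h1, h2]
  have h3 : (-((d' * k * (x * k) : ℕ) : ℤ)) = (-((d' * x : ℕ) : ℤ)) * (k : ℤ) ^ 2 := by
    push_cast
    ring
  rw [h3, jacobiSym.mul_left, jacobiSym.sq_one' (Int.isCoprime_iff_gcd_eq_one.1 hcop), mul_one]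

/-- the term of the divisor sum -/
def fM (d n a : ℕ) : ℤ :=
  if a % 2 = 1 then
    jacobiSym (-(d : ℤ)) (a / a.gcd d) * ∏ p ∈ (a.gcd d).primeFactors, hh d n p
  else 0

theorem fM_eq {d n a : ℕ} (hd : Squarefree d) (hd4 : d % 4 = 1) (hn : 0 < n) (han : a ∣ n)
    (hf : ∀ l ∈ d.primeFactors, n.factorization l ≤ 1) (ha : a % 2 = 1) :
    chi4 a * KK d a (n / a) = fM d n a := by
  obtain ⟨m, rfl⟩ := han
  have ha0 : 0 < a := Nat.pos_of_ne_zero (by rintro rfl; simp at ha)
  have hm0 : 0 < m := Nat.pos_of_ne_zero (by rintro rfl; simp at hn)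
  have hma : a * m / a = m := Nat.mul_div_cancel_left m ha0
  rw [hma]
  set e := a.gcd d with he
  have he0 : 0 < e := Nat.gcd_pos_of_pos_left d ha0
  obtain ⟨a', ha'⟩ : e ∣ a := Nat.gcd_dvd_left a d
  obtain ⟨d', hd'⟩ : e ∣ d := Nat.gcd_dvd_right a d
  have hdiv : a / e = a' := by
    rw [ha']
    exact Nat.mul_div_cancel_left a' he0
  have hesq : Squarefree e := hd.squarefree_of_dvd ⟨d', hd'⟩
  have hd'sq : Squarefree d' := hd.squarefree_of_dvd ⟨e, by rw [hd']; ring⟩
  have hcop : Nat.Coprime e d' := by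
    rw [hd'] at hd
    exact Nat.coprime_of_squarefree_mul hd
  have hd0 : d ≠ 0 := hd.ne_zero
  have hdodd : d % 2 = 1 := by omega
  have heodd : e % 2 = 1 := odd_of_dvd ⟨a', ha'⟩ ha
  have ha'odd : a' % 2 = 1 := odd_of_dvd (Dvd.intro_left e ha'.symm) ha
  have hd'odd : d' % 2 = 1 := odd_of_dvd (Dvd.intro_left e hd'.symm) hdodd
  have ha'0 : a' ≠ 0 := by rintro rfl; simp at ha'odd
  have hd'0 : d' ≠ 0 := by rintro rfl; simp at hd'odd
  -- primes dividing `e` divide `a m` exactly once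
  have hone : ∀ p, p.Prime → p ∣ e → (a * m).factorization p = 1 := by
    intro p hp hpe
    have h1 := hf p (Nat.mem_primeFactors.2 ⟨hp, hpe.trans ⟨d', hd'⟩, hd0⟩)
    have h2 : 0 < (a * m).factorization p :=
      hp.factorization_pos_of_dvd (by positivity) ((hpe.trans ⟨a', ha'⟩).trans (Dvd.intro m rfl))
    omega
  have hcopa : Nat.Coprime a' e := by
    refine Nat.coprime_of_dvd fun p hp h1 h2 => ?_
    have h3 := hone p hp h2
    have h4 : p ^ 2 ∣ a * m := by
      obtain ⟨x, hx⟩ := h1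
      obtain ⟨y, hy⟩ := h2
      rw [ha', hx, hy]
      exact ⟨y * x * m, by ring⟩
    have h5 := (hp.pow_dvd_iff_le_factorization (by positivity)).1 h4
    omega
  have hcopad : Nat.Coprime a' d' := by
    refine Nat.coprime_of_dvd fun p hp h1 h2 => ?_
    have h3 : p ∣ e := by
      rw [he]
      exact Nat.dvd_gcd (h1.trans (Dvd.intro_left e ha'.symm))
        (h2.trans (Dvd.intro_left e hd'.symm))
    exact hp.one_lt.ne' (Nat.eq_one_of_dvd_coprimes hcop h3 h2)
  have hcopm : Nat.Coprime a' e := hcopa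
  -- the product over the primes of `d`
  have hpf : d.primeFactors = e.primeFactors ∪ d'.primeFactors := by
    rw [hd', hcop.primeFactors_mul]
  have hdisj : Disjoint e.primeFactors d'.primeFactors := hcop.disjoint_primeFactors
  have hK : KK d a m = jacobiSym (-(m : ℤ)) e * jacobiSym a d' := by
    unfold KK
    rw [hpf, Finset.prod_union hdisj, ← jac_sqf _ hesq, ← jac_sqf _ hd'sq]
    congr 1
    · refine Finset.prod_congr rfl fun p hp => ?_
      rw [if_pos ((Nat.dvd_of_mem_primeFactors hp).trans ⟨a', ha'⟩)]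
    · refine Finset.prod_congr rfl fun p hp => ?_
      rw [if_neg]
      intro h
      have hpp := Nat.prime_of_mem_primeFactors hp
      have h3 : p ∣ e := by
        rw [he]
        exact Nat.dvd_gcd h ((Nat.dvd_of_mem_primeFactors hp).trans (Dvd.intro_left e hd'.symm))
      exact hpp.one_lt.ne' (Nat.eq_one_of_dvd_coprimes hcop h3 (Nat.dvd_of_mem_primeFactors hp))
  have hJa : jacobiSym (a : ℤ) d' = jacobiSym (e : ℤ) d' * jacobiSym (a' : ℤ) d' := by
    rw [← jacobiSym.mul_left]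
    congr 1
    rw [ha']
    push_cast
    ring
  have hsq : jacobiSym (a' : ℤ) e * jacobiSym (a' : ℤ) e = 1 := by
    have := jacobiSym.sq_one (a := (a' : ℤ)) (b := e)
      (by rw [Int.gcd_natCast_natCast]; exact hcopa)
    rwa [sq] at this
  have hJm : jacobiSym (-(m : ℤ)) e = jacobiSym (-((m * a' : ℕ) : ℤ)) e * jacobiSym (a' : ℤ) e := by
    have : (-((m * a' : ℕ) : ℤ)) = (-(m : ℤ)) * a' := by push_cast; ring
    rw [this, jacobiSym.mul_left, mul_assoc, hsq, mul_one]
  have hJd : jacobiSym (a' : ℤ) e * jacobiSym (a' : ℤ) d' = jacobiSym (a' : ℤ) d := by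
    rw [← jacobiSym.mul_right' _ he0.ne' hd'0, ← hd']
  have hrec1 : chi4 a' * jacobiSym (a' : ℤ) d = jacobiSym (-(d : ℤ)) a' := by
    rw [jacobiSym.quadratic_reciprocity_one_mod_four' (Nat.odd_iff.2 ha'odd) hd4,
      jacobiSym.neg _ (Nat.odd_iff.2 ha'odd), chi4_eq a' ha'odd]
  have hrec2 : chi4 e * jacobiSym (e : ℤ) d' = jacobiSym (d' : ℤ) e := by
    have h : e % 4 = 1 ∨ e % 4 = 3 := by omega
    rcases h with h | h
    · rw [jacobiSym.quadratic_reciprocity_one_mod_four h (Nat.odd_iff.2 hd'odd)]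
      unfold chi4
      rw [if_pos (by omega), one_mul]
    · have h4 : d' % 4 = 3 := by
        have h5 : (e * d') % 4 = 1 := by rw [← hd']; exact hd4
        rw [Nat.mul_mod, h] at h5
        have h6 : d' % 4 = 0 ∨ d' % 4 = 1 ∨ d' % 4 = 2 ∨ d' % 4 = 3 := by omega
        rcases h6 with h6 | h6 | h6 | h6 <;> rw [h6] at h5 <;> omega
      rw [jacobiSym.quadratic_reciprocity_three_mod_four h h4]
      unfold chi4
      rw [if_neg (by omega), if_pos (by omega)]
      ring
  have hprod : ∏ p ∈ e.primeFactors, hh d (a * m) p = jacobiSym (-((d' * (m * a') : ℕ) : ℤ)) e := by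
    rw [← jac_sqf _ hesq]
    refine Finset.prod_congr rfl fun p hp => ?_
    have hpp := Nat.prime_of_mem_primeFactors hp
    have hpe := Nat.dvd_of_mem_primeFactors hp
    exact hh_eq hpp hpe hesq (by rw [hd']; ring) (by rw [ha']; ring) (hone p hpp hpe)
  have hchi : chi4 (a : ℤ) = chi4 (e : ℤ) * chi4 (a' : ℤ) := by
    rw [← chi4_mul e a' heodd ha'odd, ← ha']
  unfold fM
  rw [if_pos ha, ← he, hdiv, hprod, hK, hJa, hJm, hchi]
  have h9 : (-((d' * (m * a') : ℕ) : ℤ)) = (d' : ℤ) * (-((m * a' : ℕ) : ℤ)) := by push_cast; ring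
  rw [h9, jacobiSym.mul_left, ← hrec1, ← hrec2, ← hJd]
  ring

theorem fM_one (d n : ℕ) : fM d n 1 = 1 := by
  unfold fM
  simp

theorem fM_mul {d n a b : ℕ} (hd : d ≠ 0) (ha0 : a ≠ 0) (hb0 : b ≠ 0) (h : Nat.Coprime a b) :
    fM d n (a * b) = fM d n a * fM d n b := by
  unfold fM
  by_cases ha : a % 2 = 1
  · by_cases hb : b % 2 = 1
    · have hab : (a * b) % 2 = 1 := by rw [Nat.mul_mod, ha, hb]
      rw [if_pos ha, if_pos hb, if_pos hab]
      have hg : (a * b).gcd d = a.gcd d * b.gcd d := by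
        rw [Nat.gcd_comm, h.gcd_mul, Nat.gcd_comm d a, Nat.gcd_comm d b]
      have hga : 0 < a.gcd d := Nat.gcd_pos_of_pos_right a (Nat.pos_of_ne_zero hd)
      have hgb : 0 < b.gcd d := Nat.gcd_pos_of_pos_right b (Nat.pos_of_ne_zero hd)
      have hcop : Nat.Coprime (a.gcd d) (b.gcd d) :=
        Nat.Coprime.coprime_dvd_left (Nat.gcd_dvd_left a d)
          (Nat.Coprime.coprime_dvd_right (Nat.gcd_dvd_left b d) h)
      rw [hg, Nat.mul_div_mul_comm (Nat.gcd_dvd_left a d) (Nat.gcd_dvd_left b d),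
        jacobiSym.mul_right' _ (Nat.div_pos (Nat.le_of_dvd (Nat.pos_of_ne_zero ha0)
          (Nat.gcd_dvd_left a d)) hga).ne' (Nat.div_pos (Nat.le_of_dvd (Nat.pos_of_ne_zero hb0)
          (Nat.gcd_dvd_left b d)) hgb).ne', hcop.primeFactors_mul,
        Finset.prod_union hcop.disjoint_primeFactors]
      ring
    · have hab : ¬ (a * b) % 2 = 1 := by
        intro h1
        exact hb (odd_of_dvd (Dvd.intro_left a rfl) h1)
      rw [if_neg hb, if_neg hab, mul_zero]
  · have hab : ¬ (a * b) % 2 = 1 := by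
      intro h1
      exact ha (odd_of_dvd (Dvd.intro b rfl) h1)
    rw [if_neg ha, if_neg hab, zero_mul]

theorem fM_fifteen {d n b : ℕ} (hd : Fm d) : fM d n (15 * b) = -fM d n b := by
  unfold fM
  have h3 : Nat.Coprime 15 d := by
    have h4 : Nat.Coprime 3 d := by
      rw [Nat.Prime.coprime_iff_not_dvd Nat.prime_three]
      rcases hd with h | h <;> omega
    have h5 : Nat.Coprime 5 d := by
      rw [Nat.Prime.coprime_iff_not_dvd Nat.prime_five]
      rcases hd with h | h <;> omega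
    exact Nat.Coprime.mul_left h4 h5
  by_cases hb : b % 2 = 1
  · rw [if_pos hb, if_pos (by omega)]
    have hg : (15 * b).gcd d = b.gcd d := Nat.Coprime.gcd_mul_left_cancel b h3
    have hb0 : b ≠ 0 := by rintro rfl; simp at hb
    have hd0 : 0 < d := by rcases hd with h | h <;> omega
    have hgb : 0 < b.gcd d := Nat.gcd_pos_of_pos_right b hd0
    have hq : b / b.gcd d ≠ 0 := (Nat.div_pos (Nat.le_of_dvd (Nat.pos_of_ne_zero hb0)
          (Nat.gcd_dvd_left b d)) hgb).ne'
    rw [hg, Nat.mul_div_assoc 15 (Nat.gcd_dvd_left b d), jacobiSym.mul_right' _ (by norm_num) hq]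
    have h15 : jacobiSym (-(d : ℤ)) 15 = -1 := by
      rw [jacobiSym.mod_left]
      rcases hd with h | h
      · have e : (-(d : ℤ)) % ((15 : ℕ) : ℤ) = 14 := by omega
        rw [e]
        norm_num
      · have e : (-(d : ℤ)) % ((15 : ℕ) : ℤ) = 11 := by omega
        rw [e]
        norm_num
    rw [h15]
    ring
  · rw [if_neg hb, if_neg (by omega), neg_zero]

/-- the multiplicative function -/
noncomputable def aF (d n : ℕ) : ArithmeticFunction ℤ := ⟨fun a => if a = 0 then 0 else fM d n a, if_pos rfl⟩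

theorem aF_apply {d n a : ℕ} (ha : a ≠ 0) : aF d n a = fM d n a := by
  show (if a = 0 then 0 else fM d n a) = _
  rw [if_neg ha]

theorem aF_mult {d : ℕ} (hd : d ≠ 0) (n : ℕ) : (aF d n).IsMultiplicative := by
  rw [ArithmeticFunction.IsMultiplicative.iff_ne_zero]
  refine ⟨by rw [aF_apply one_ne_zero, fM_one], ?_⟩
  intro a b ha hb hab
  rw [aF_apply (mul_ne_zero ha hb), aF_apply ha, aF_apply hb, fM_mul hd ha hb hab]

/-- the sum over the divisors is the product of the local sums -/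
theorem sum_eq_prod {d : ℕ} (hd : d ≠ 0) (n : ℕ) {m : ℕ} (hm : m ≠ 0) :
    ∑ b ∈ m.divisors, fM d n b =
      m.factorization.prod fun p k => ∑ j ∈ range (k + 1), fM d n (p ^ j) := by
  have h1 : ((aF d n) * (ArithmeticFunction.zeta : ArithmeticFunction ℤ)).IsMultiplicative :=
    (aF_mult hd n).mul ArithmeticFunction.isMultiplicative_zeta.natCast
  have h2 := h1.multiplicative_factorization _ hm
  rw [ArithmeticFunction.coe_mul_zeta_apply] at h2
  have h3 : ∑ b ∈ m.divisors, fM d n b = ∑ b ∈ m.divisors, aF d n b :=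
    Finset.sum_congr rfl fun b hb => (aF_apply (Nat.pos_of_mem_divisors hb).ne').symm
  rw [h3, h2]
  refine Finset.prod_congr rfl fun p hp => ?_
  have hpp : p.Prime := Nat.prime_of_mem_primeFactors (by simpa using hp)
  show (aF d n * ↑ArithmeticFunction.zeta) (p ^ m.factorization p) = _
  rw [ArithmeticFunction.coe_mul_zeta_apply, Nat.sum_divisors_prime_pow hpp]
  exact Finset.sum_congr rfl fun j _ => aF_apply (pow_ne_zero _ hpp.ne_zero)

theorem loc_two (d n k : ℕ) : ∑ j ∈ range (k + 1), fM d n (2 ^ j) = 1 := by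
  rw [Finset.sum_eq_single 0]
  · rw [pow_zero, fM_one]
  · intro j _ hj
    unfold fM
    rw [if_neg]
    obtain ⟨i, rfl⟩ := Nat.exists_eq_succ_of_ne_zero hj
    rw [pow_succ]
    omega
  · intro h
    exact absurd (Finset.mem_range.2 (Nat.succ_pos k)) h

theorem fM_pow {d n l : ℕ} (hl : l.Prime) (hl2 : l ≠ 2) (hld : ¬ l ∣ d) (j : ℕ) :
    fM d n (l ^ j) = (jacobiSym (-(d : ℤ)) l) ^ j := by
  unfold fM
  have hodd : l ^ j % 2 = 1 := by
    rw [← Nat.odd_iff]
    exact (hl.odd_of_ne_two hl2).pow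
  have hg : (l ^ j).gcd d = 1 := (Nat.Coprime.pow_left j ((Nat.Prime.coprime_iff_not_dvd hl).2 hld))
  rw [if_pos hodd, hg, Nat.div_one, jacobiSym.pow_right]
  simp

theorem loc_other {d n l : ℕ} (hl : l.Prime) (hl2 : l ≠ 2) (k : ℕ) (hk : k = n.factorization l)
    (hk1 : 0 < k) (hf : l ∣ d → n.factorization l ≤ 1) :
    ∑ j ∈ range (k + 1), fM d n (l ^ j) = fac d n l := by
  unfold fac
  by_cases hld : l ∣ d
  · rw [if_pos hld]
    have h1 : k = 1 := by
      have := hf hld
      omega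
    rw [h1, Finset.sum_range_succ, Finset.sum_range_one, pow_zero, fM_one, pow_one]
    congr 1
    unfold fM
    have hodd : l % 2 = 1 := Nat.odd_iff.1 (hl.odd_of_ne_two hl2)
    rw [if_pos hodd, Nat.gcd_eq_left hld, Nat.div_self hl.pos, jacobiSym.one_right, one_mul,
      hl.primeFactors, Finset.prod_singleton]
  · rw [if_neg hld, ← hk]
    exact Finset.sum_congr rfl fun j _ => fM_pow hl hl2 hld j

theorem loc_three {d n : ℕ} (hd : Fm d) (k : ℕ) :
    ∑ j ∈ range (k + 1), fM d n (3 ^ j) = if Even k then 1 else 0 := by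
  have h3 : ¬ 3 ∣ d := by rcases hd with h | h <;> omega
  have hJ : jacobiSym (-(d : ℤ)) 3 = -1 := by
    rw [jacobiSym.mod_left]
    have e : (-(d : ℤ)) % ((3 : ℕ) : ℤ) = 2 := by rcases hd with h | h <;> omega
    rw [e]
    norm_num
  have h1 : ∑ j ∈ range (k + 1), fM d n (3 ^ j) = ∑ j ∈ range (k + 1), (-1 : ℤ) ^ j :=
    Finset.sum_congr rfl fun j _ => by
      rw [fM_pow Nat.prime_three (by norm_num) h3, hJ]
  rw [h1]
  induction k with
  | zero => simp
  | succ k ih =>
    have ih' : ∑ j ∈ range (k + 1), (-1 : ℤ) ^ j = if Even k then 1 else 0 := by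
      refine ih ?_
      exact Finset.sum_congr rfl fun j _ => by
        rw [fM_pow Nat.prime_three (by norm_num) h3, hJ]
    rw [Finset.sum_range_succ, ih']
    by_cases hk : Even k
    · have hk1 : ¬ Even (k + 1) := by
        rw [Nat.even_add_one]
        exact fun h => h hk
      rw [if_pos hk, if_neg hk1, pow_succ, hk.neg_one_pow]
      norm_num
    · have hk1 : Even (k + 1) := by
        rw [Nat.even_add_one]
        exact hk
      rw [if_neg hk, if_pos hk1, hk1.neg_one_pow, zero_add]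

theorem loc_five {d n : ℕ} (hd : Fm d) (k : ℕ) :
    ∑ j ∈ range (k + 1), fM d n (5 ^ j) = ((k + 1 : ℕ) : ℤ) := by
  have h5 : ¬ 5 ∣ d := by rcases hd with h | h <;> omega
  have hJ : jacobiSym (-(d : ℤ)) 5 = 1 := by
    rw [jacobiSym.mod_left]
    rcases hd with h | h
    · have e : (-(d : ℤ)) % ((5 : ℕ) : ℤ) = 4 := by omega
      rw [e]
      norm_num
    · have e : (-(d : ℤ)) % ((5 : ℕ) : ℤ) = 1 := by omega
      rw [e]
      norm_num
  have h1 : ∑ j ∈ range (k + 1), fM d n (5 ^ j) = ∑ j ∈ range (k + 1), (1 : ℤ) :=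
    Finset.sum_congr rfl fun j _ => by
      rw [fM_pow Nat.prime_five (by norm_num) h5, hJ, one_pow]
  rw [h1]
  simp

theorem sum_fM {d n : ℕ} (hd : Fm d) (hn : 0 < n) (h15 : 15 ∣ n)
    (hf : ∀ l ∈ d.primeFactors, n.factorization l ≤ 1) :
    ∑ b ∈ (n / 15).divisors, fM d n b = loc d n := by
  obtain ⟨m, rfl⟩ := h15
  have hm : 0 < m := by omega
  have hd0 : d ≠ 0 := by rcases hd with h | h <;> omega
  rw [Nat.mul_div_cancel_left m (by norm_num), sum_eq_prod hd0 _ hm.ne']
  have hfac : ∀ l : ℕ, (15 * m).factorization l = (15 : ℕ).factorization l + m.factorization l := by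
    intro l
    rw [Nat.factorization_mul (by norm_num) hm.ne']
    rfl
  have f15 : (15 : ℕ) = 3 * 5 := rfl
  have h15f : ∀ l : ℕ, (15 : ℕ).factorization l = (if l = 3 then 1 else 0) + if l = 5 then 1 else 0 := by
    intro l
    rw [f15, Nat.factorization_mul (by norm_num) (by norm_num), Nat.prime_three.factorization,
      Nat.prime_five.factorization, Finsupp.add_apply, Finsupp.single_apply, Finsupp.single_apply]
    simp only [eq_comm]
  have e3 : (15 * m).factorization 3 = m.factorization 3 + 1 := by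
    rw [hfac, h15f]
    simp [add_comm]
  have e5 : (15 * m).factorization 5 = m.factorization 5 + 1 := by
    rw [hfac, h15f]
    simp [add_comm]
  have el : ∀ l, l ≠ 3 → l ≠ 5 → (15 * m).factorization l = m.factorization l := by
    intro l h3 h5
    rw [hfac, h15f, if_neg h3, if_neg h5, zero_add, zero_add]
  set G : ℕ → ℕ → ℤ := fun p k => ∑ j ∈ range (k + 1), fM d (15 * m) (p ^ j) with hG
  have hG0 : ∀ p, G p 0 = 1 := by
    intro p
    simp [hG, fM_one]
  have hsub : m.factorization.support ⊆ insert 2 (15 * m).primeFactors := by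
    intro p hp
    rw [Nat.support_factorization] at hp
    refine mem_insert_of_mem ?_
    exact Nat.primeFactors_mono (Dvd.intro_left 15 rfl) (by omega) hp
  rw [Finsupp.prod_of_support_subset _ hsub _ (fun p _ => hG0 p)]
  have hbase : insert 2 (15 * m).primeFactors = insert 2 ((15 * m).primeFactors.erase 2) := by
    ext p
    simp only [mem_insert, mem_erase]
    tauto
  rw [hbase, Finset.prod_insert (by simp)]
  have hG2 : G 2 (m.factorization 2) = 1 := loc_two _ _ _
  rw [hG2, one_mul]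
  have m3 : 3 ∈ (15 * m).primeFactors.erase 2 := by
    rw [mem_erase]
    exact ⟨by norm_num, Nat.mem_primeFactors.2 ⟨Nat.prime_three, ⟨5 * m, by ring⟩, by omega⟩⟩
  have m5 : 5 ∈ ((15 * m).primeFactors.erase 2).erase 3 := by
    rw [mem_erase, mem_erase]
    exact ⟨by norm_num, by norm_num, Nat.mem_primeFactors.2 ⟨Nat.prime_five, ⟨3 * m, by ring⟩, by omega⟩⟩
  rw [← Finset.mul_prod_erase _ _ m3, ← Finset.mul_prod_erase _ _ m5]
  have hG3 : G 3 (m.factorization 3) = if Even (m.factorization 3) then 1 else 0 := loc_three hd _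
  have hG5 : G 5 (m.factorization 5) = ((m.factorization 5 + 1 : ℕ) : ℤ) := loc_five hd _
  rw [hG3, hG5]
  have hrest : ∏ p ∈ (((15 * m).primeFactors.erase 2).erase 3).erase 5, G p (m.factorization p) =
      ∏ l ∈ (pf3 (15 * m)).erase 5, fac d (15 * m) l := by
    refine Finset.prod_congr rfl fun p hp => ?_
    obtain ⟨hp5, hp⟩ := mem_erase.1 hp
    obtain ⟨hp3, hp⟩ := mem_erase.1 hp
    obtain ⟨hp2, hp⟩ := mem_erase.1 hp
    have hpp := Nat.prime_of_mem_primeFactors hp
    refine loc_other hpp hp2 _ (el p hp3 hp5).symm ?_ fun h => hf p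
      (Nat.mem_primeFactors.2 ⟨hpp, h, hd0⟩)
    rw [← el p hp3 hp5]
    exact hpp.factorization_pos_of_dvd (by omega) (Nat.dvd_of_mem_primeFactors hp)
  rw [hrest]
  unfold loc
  rw [e3, e5]
  by_cases hev : Even (m.factorization 3)
  · rw [if_pos hev, if_pos hev.add_one, one_mul]
  · rw [if_neg hev, if_neg, zero_mul]
    rw [Nat.not_odd_iff_even, Nat.even_add_one]
    exact hev

end Mul

/-- C10 (MUL) -/
theorem t_MUL : S_MUL := by
  intro d hsq hd n hn hf
  have hd4 : d % 4 = 1 := by rcases hd with h | h <;> omega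
  have h1 : ∑ a ∈ n.divisors.filter (fun a => a % 2 = 1 ∧ 15 ∣ a), chi4 a * KK d a (n / a) =
      ∑ a ∈ n.divisors.filter (fun a => a % 2 = 1 ∧ 15 ∣ a), Mul.fM d n a := by
    refine Finset.sum_congr rfl fun a ha => ?_
    obtain ⟨ha1, ha2, ha3⟩ := Finset.mem_filter.1 ha
    exact Mul.fM_eq hsq hd4 hn (Nat.dvd_of_mem_divisors ha1) hf ha2
  rw [h1]
  by_cases h15 : 15 ∣ n
  · rw [← Mul.sum_fM hd hn h15 hf, ← Finset.sum_neg_distrib]
    have hinj : Set.InjOn (fun b => 15 * b) ((n / 15).divisors : Set ℕ) := by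
      intro a _ b _ hab
      simp only at hab
      omega
    have h2 : ∑ b ∈ (n / 15).divisors, -Mul.fM d n b = ∑ b ∈ (n / 15).divisors, Mul.fM d n (15 * b) :=
      Finset.sum_congr rfl fun b _ => (Mul.fM_fifteen hd).symm
    rw [h2, ← Finset.sum_image (f := Mul.fM d n) hinj]
    refine Finset.sum_subset_zero_on_sdiff ?_ ?_ fun _ _ => rfl
    · intro a ha
      obtain ⟨ha1, ha2, ha3⟩ := Finset.mem_filter.1 ha
      obtain ⟨b, rfl⟩ := ha3
      refine Finset.mem_image.2 ⟨b, ?_, rfl⟩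
      obtain ⟨m, rfl⟩ := h15
      rw [Nat.mul_div_cancel_left m (by norm_num)]
      refine Nat.mem_divisors.2 ⟨?_, by omega⟩
      exact Nat.dvd_of_mul_dvd_mul_left (by norm_num) (Nat.dvd_of_mem_divisors ha1)
    · intro a ha
      obtain ⟨ha1, ha2⟩ := Finset.mem_sdiff.1 ha
      obtain ⟨b, hb, rfl⟩ := Finset.mem_image.1 ha1
      have hb2 : ¬ (15 * b) % 2 = 1 := by
        intro h
        refine ha2 (Finset.mem_filter.2 ⟨?_, h, Dvd.intro b rfl⟩)
        obtain ⟨m, rfl⟩ := h15
        rw [Nat.mul_div_cancel_left m (by norm_num)] at hb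
        exact Nat.mem_divisors.2 ⟨Nat.mul_dvd_mul_left 15 (Nat.dvd_of_mem_divisors hb), by omega⟩
      unfold Mul.fM
      rw [if_neg hb2]
  · have h2 : n.divisors.filter (fun a => a % 2 = 1 ∧ 15 ∣ a) = ∅ := by
      refine Finset.filter_eq_empty_iff.2 fun a ha h => ?_
      exact h15 (h.2.trans (Nat.dvd_of_mem_divisors ha))
    rw [h2, Finset.sum_empty]
    unfold loc
    by_cases h3 : Odd (n.factorization 3)
    · rw [if_pos h3]
      have h5 : ¬ 5 ∣ n := by
        intro h5
        have h4 : 3 ∣ n := by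
          by_contra h4
          rw [Nat.factorization_eq_zero_of_not_dvd h4] at h3
          exact absurd h3 (by decide)
        exact h15 (Nat.Coprime.mul_dvd_of_dvd_of_dvd (by norm_num) h4 h5)
      rw [Nat.factorization_eq_zero_of_not_dvd h5]
      simp
    · rw [if_neg h3, neg_zero]

end Pool.Agent.H757_X15.CC
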