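import Pool.Agent.H757_X15.CS.Basic

/-!
# X15-C1: the crossing numbers of the forms of discriminant `16`
-/

set_option autoImplicit false
set_option linter.unusedVariables false

namespace Pool.Agent.H757_X15.CC

open Pool.Agent.H757_X15.BB (chi4)

open scoped Classical

namespace NCaux

/-! ### nonvanishing at the cusps -/

theorem ev_ne {q : Fo} (hq : Fq q) {x y : ℤ} (h : Cu x y) : ev q x y ≠ 0 := by
  obtain ⟨hxy, h15 | h15⟩ := h
  · obtain ⟨y', rfl⟩ := h15
    obtain ⟨u, v, huv⟩ := hxy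
    have hdet : x * u - (-v) * (15 * y') = 1 := by linarith
    exact Fq_fst_ne ((Fq_act_iff q hdet).2 hq)
  · have h1 : IsCoprime y (15 * x) := h15.mul_right hxy.symm
    obtain ⟨u, v, huv⟩ := h1
    have hdet : u * y - x * (15 * (-v)) = 1 := by linarith
    exact Fq_snd_ne ((Fq_act_iff q hdet).2 hq)

theorem sign_ne {a b : ℤ} (ha : a ≠ 0) (hb : b ≠ 0) (h : a.sign ≠ b.sign) : a * b < 0 := by
  rcases lt_trichotomy a 0 with h1 | h1 | h1
  · rcases lt_trichotomy b 0 with h2 | h2 | h2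
    · exact absurd (by rw [Int.sign_eq_neg_one_of_neg h1, Int.sign_eq_neg_one_of_neg h2]) h
    · exact absurd h2 hb
    · exact mul_neg_of_neg_of_pos h1 h2
  · exact absurd h1 ha
  · rcases lt_trichotomy b 0 with h2 | h2 | h2
    · exact mul_neg_of_pos_of_neg h1 h2
    · exact absurd h2 hb
    · exact absurd (by rw [Int.sign_eq_one_of_pos h1, Int.sign_eq_one_of_pos h2]) h

/-! ### finiteness -/

theorem fin_neg (x y : ℤ) (hy : y ≠ 0) : {q : Fo | Fq q ∧ q.1 * ev q x y < 0}.Finite := by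
  set A : ℤ := 4 * y ^ 2 with hA
  set B : ℤ := 4 * |y| + 2 * A * |x| with hB
  refine ((Set.finite_Icc (-A) A).prod ((Set.finite_Icc (-B) B).prod
    (Set.finite_Icc (-(B ^ 2 + 16)) (B ^ 2 + 16)))).subset ?_
  rintro ⟨a, b, c⟩ ⟨hq, hneg⟩
  have ha0 : a ≠ 0 := Fq_fst_ne hq
  have hc0 : c ≠ 0 := Fq_snd_ne hq
  have hd : b ^ 2 - 4 * (a * c) = 16 := hq.1
  have hev : ev (a, b, c) x y = a * x ^ 2 + b * (x * y) + c * y ^ 2 := rfl
  rw [hev] at hneg
  change a * (a * x ^ 2 + b * (x * y) + c * y ^ 2) < 0 at hneg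
  set n : ℤ := a * x ^ 2 + b * (x * y) + c * y ^ 2 with hn
  have key : 4 * (a * n) = (2 * a * x + b * y) ^ 2 - 16 * y ^ 2 := by
    rw [hn]; linear_combination -(y ^ 2) * hd
  have h1 : (2 * a * x + b * y) ^ 2 < (4 * |y|) ^ 2 := by
    rw [mul_pow, sq_abs]; linarith
  have h2 : |2 * a * x + b * y| < 4 * |y| := by
    have := sq_lt_sq.1 h1
    rwa [abs_mul, abs_abs, abs_of_pos (by norm_num : (0 : ℤ) < 4)] at this
  -- |a| ≤ |a * n| ≤ 4 y²
  have hn0 : n ≠ 0 := by rintro h; rw [h] at hneg; simp at hneg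
  have h3 : |a| ≤ A := by
    have h4 : 4 * |a * n| ≤ 16 * y ^ 2 := by
      rw [abs_of_neg hneg]
      nlinarith [sq_nonneg (2 * a * x + b * y)]
    have h5 : |a| ≤ |a * n| := by
      rw [abs_mul]
      have : 1 ≤ |n| := Int.one_le_abs hn0
      nlinarith [abs_nonneg a]
    rw [hA]; linarith
  have h6 : |b| ≤ B := by
    have h7 : |b| ≤ |b * y| := by
      rw [abs_mul]
      have : 1 ≤ |y| := Int.one_le_abs hy
      nlinarith [abs_nonneg b]
    have h8 : |b * y| ≤ |2 * a * x + b * y| + |2 * a * x| := by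
      have : b * y = (2 * a * x + b * y) - 2 * a * x := by ring
      calc |b * y| = |(2 * a * x + b * y) - 2 * a * x| := by rw [← this]
        _ ≤ |2 * a * x + b * y| + |2 * a * x| := abs_sub _ _
    have h9 : |2 * a * x| ≤ 2 * A * |x| := by
      rw [abs_mul, abs_mul, abs_of_pos (by norm_num : (0 : ℤ) < 2)]
      have := mul_le_mul_of_nonneg_right h3 (abs_nonneg x)
      linarith
    rw [hB]; linarith
  have h10 : |c| ≤ B ^ 2 + 16 := by
    have h11 : |c| ≤ |4 * (a * c)| := by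
      rw [abs_mul, abs_mul, abs_of_pos (by norm_num : (0 : ℤ) < 4)]
      have : 1 ≤ |a| := Int.one_le_abs ha0
      nlinarith [abs_nonneg c]
    have h12 : 4 * (a * c) = b ^ 2 - 16 := by linarith
    have h13 : b ^ 2 ≤ B ^ 2 := by
      have := sq_le_sq' (by linarith [neg_abs_le b] : -B ≤ b) ((le_abs_self b).trans h6)
      exact this
    rw [h12] at h11
    refine h11.trans ?_
    rw [abs_le]
    constructor
    · nlinarith [sq_nonneg b, sq_nonneg B]
    · linarith
  exact ⟨abs_le.1 h3, abs_le.1 h6, abs_le.1 h10⟩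

theorem fin_inf {x y : ℤ} (h : Cu x y) : {q : Fo | Fq q ∧ (ev q 1 0).sign ≠ (ev q x y).sign}.Finite := by
  have e : ∀ q : Fo, ev q 1 0 = q.1 := fun q => by simp [ev]
  by_cases hy : y = 0
  · subst hy
    convert Set.finite_empty
    ext q
    simp only [Set.mem_ofPred_eq, Set.mem_empty_iff_false, iff_false, not_and, not_not]
    intro _
    have hx : IsUnit x := by
      have := h.1
      rwa [isCoprime_zero_right] at this
    have : x ^ 2 = 1 := by
      rcases Int.isUnit_iff.1 hx with h | h <;> rw [h] <;> norm_num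
    congr 1
    simp [ev, this]
  · refine (fin_neg x y hy).subset ?_
    rintro q ⟨hq, hs⟩
    refine ⟨hq, ?_⟩
    rw [e] at hs
    exact sign_ne (Fq_fst_ne hq) (ev_ne hq h) hs

theorem fin_two {x y x' y' : ℤ} (h : Cu x y) (h' : Cu x' y') :
    {q : Fo | Fq q ∧ (ev q x y).sign ≠ (ev q x' y').sign}.Finite := by
  refine ((fin_inf h).union (fin_inf h')).subset ?_
  rintro q ⟨hq, hs⟩
  by_contra hc
  simp only [Set.mem_union, Set.mem_ofPred_eq, not_or, not_and, not_not] at hc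
  exact hs ((hc.1 hq).symm.trans (hc.2 hq))

/-! ### the terms -/

/-- the terms of `NC` -/
noncomputable def tm (x y x' y' : ℤ) (q : Fo) : ℤ :=
  if Fq q then cQ q * ((ev q x y).sign - (ev q x' y').sign) else 0

theorem NC_eq (x y x' y' : ℤ) : NC x y x' y' = ∑ᶠ q : Fo, tm x y x' y' q := rfl

theorem tm_supp {x y x' y' : ℤ} (h : Cu x y) (h' : Cu x' y') : (Function.support (tm x y x' y')).Finite := by
  refine (fin_two h h').subset ?_
  intro q hq
  rw [Function.mem_support] at hq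
  unfold tm at hq
  by_cases h1 : Fq q
  · rw [if_pos h1] at hq
    refine ⟨h1, fun h2 => hq ?_⟩
    rw [h2, sub_self, mul_zero]
  · rw [if_neg h1] at hq
    exact absurd rfl hq

theorem NC_add {x y x' y' x'' y'' : ℤ} (h : Cu x y) (h' : Cu x' y') (h'' : Cu x'' y'') :
    NC x y x' y' + NC x' y' x'' y'' = NC x y x'' y'' := by
  rw [NC_eq, NC_eq, NC_eq, ← finsum_add_distrib (tm_supp h h') (tm_supp h' h'')]
  apply finsum_congr
  intro q
  unfold tm
  split_ifs <;> ring

theorem NC_act {a b c d : ℤ} (hdet : a * d - b * (15 * c) = 1) (x y x' y' : ℤ) :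
    NC (a * x + b * y) (15 * c * x + d * y) (a * x' + b * y') (15 * c * x' + d * y') = NC x y x' y' := by
  rw [NC_eq, NC_eq, ← finsum_comp_equiv (actE a b (15 * c) d hdet) (f := tm x y x' y')]
  apply finsum_congr
  intro q
  unfold tm
  rw [actE_apply]
  by_cases h : Fq q
  · rw [if_pos h, if_pos ((Fq_act_iff q hdet).2 h), cQ_act h.1 hdet, ev_act, ev_act]
  · rw [if_neg h, if_neg (fun h' => h ((Fq_act_iff q hdet).1 h'))]

theorem NC_zero : NC 1 0 0 1 = 0 := by
  rw [NC_eq]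
  apply finsum_eq_zero_of_forall_eq_zero
  intro q
  unfold tm
  split_ifs with h
  · have e1 : ev q 1 0 = q.1 := by simp [ev]
    have e2 : ev q 0 1 = q.2.2 := by simp [ev]
    have h1 := Fq_pos h
    have : q.1.sign = q.2.2.sign := by
      rcases (mul_pos_iff.1 h1) with ⟨h2, h3⟩ | ⟨h2, h3⟩
      · rw [Int.sign_eq_one_of_pos h2, Int.sign_eq_one_of_pos h3]
      · rw [Int.sign_eq_neg_one_of_neg h2, Int.sign_eq_neg_one_of_neg h3]
    rw [e1, e2, this, sub_self, mul_zero]
  · rfl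

/-- the terms of `NN` -/
noncomputable def tn (x M : ℤ) (q : Fo) : ℤ := if Fq q ∧ 0 < q.1 ∧ ev q x M < 0 then cQ q else 0

theorem NN_eq (x M : ℤ) : NN x M = ∑ᶠ q : Fo, tn x M q := rfl

theorem tn_supp {x M : ℤ} (h : Cu x M) : (Function.support (tn x M)).Finite := by
  refine (fin_inf h).subset ?_
  intro q hq
  rw [Function.mem_support] at hq
  unfold tn at hq
  by_cases h1 : Fq q ∧ 0 < q.1 ∧ ev q x M < 0
  · refine ⟨h1.1, ?_⟩
    have e1 : ev q 1 0 = q.1 := by simp [ev]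
    rw [e1, Int.sign_eq_one_of_pos h1.2.1, Int.sign_eq_neg_one_of_neg h1.2.2]
    norm_num
  · rw [if_neg h1] at hq
    exact absurd rfl hq

theorem tm_tn {x M : ℤ} (h : Cu x M) (q : Fo) : tm 1 0 x M q = 2 * tn x M q + 2 * tn x M (ng q) := by
  unfold tm tn
  have e1 : ev q 1 0 = q.1 := by simp [ev]
  have e2 : (ng q).1 = -q.1 := rfl
  rw [e1, e2, ev_ng, cQ_ng]
  by_cases hq : Fq q
  · have hq' : Fq (ng q) := Fq_ng.2 hq
    rw [if_pos hq]
    have h1 := Fq_fst_ne hq
    have h2 := ev_ne hq h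
    rcases lt_or_gt_of_ne h1 with h3 | h3 <;> rcases lt_or_gt_of_ne h2 with h4 | h4
    · rw [if_neg (by rintro ⟨_, h5, _⟩; omega), if_neg (by rintro ⟨_, _, h5⟩; omega),
        Int.sign_eq_neg_one_of_neg h3, Int.sign_eq_neg_one_of_neg h4]
      ring
    · rw [if_neg (by rintro ⟨_, h5, _⟩; omega), if_pos ⟨hq', by omega, by omega⟩,
        Int.sign_eq_neg_one_of_neg h3, Int.sign_eq_one_of_pos h4]
      ring
    · rw [if_pos ⟨hq, h3, h4⟩, if_neg (by rintro ⟨_, _, h5⟩; omega),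
        Int.sign_eq_one_of_pos h3, Int.sign_eq_neg_one_of_neg h4]
      ring
    · rw [if_neg (by rintro ⟨_, _, h5⟩; omega), if_neg (by rintro ⟨_, h5, _⟩; omega),
        Int.sign_eq_one_of_pos h3, Int.sign_eq_one_of_pos h4]
      ring
  · have hq' : ¬ Fq (ng q) := fun h => hq (Fq_ng.1 h)
    rw [if_neg hq, if_neg (fun h => hq h.1), if_neg (fun h => hq' h.1)]
    ring

theorem NC_NN {x M : ℤ} (h : Cu x M) : NC 1 0 x M = 4 * NN x M := by
  have hs := tn_supp h
  have hs1 : (Function.support fun q => 2 * tn x M q).Finite :=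
    hs.subset fun q hq => by
      rw [Function.mem_support] at hq ⊢
      intro h0; exact hq (by rw [h0, mul_zero])
  have hs2 : (Function.support fun q => 2 * tn x M (ng q)).Finite := by
    refine (hs.preimage (ngE.injective.injOn)).subset ?_
    intro q hq
    rw [Function.mem_support] at hq
    change tn x M (ng q) ≠ 0
    intro h0; exact hq (by rw [h0, mul_zero])
  have key : ∑ᶠ q : Fo, 2 * tn x M (ng q) = ∑ᶠ q : Fo, 2 * tn x M q :=
    finsum_comp_equiv ngE (f := fun q => 2 * tn x M q)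
  rw [NC_eq, NN_eq, finsum_congr (tm_tn h), finsum_add_distrib hs1 hs2, key, ← mul_finsum (tn x M) 2]
  ring

theorem NN_refl (x M : ℤ) : NN (-x) M = NN x M ∧ NN x (-M) = NN x M := by
  constructor
  · rw [NN_eq, NN_eq, ← finsum_comp_equiv rfE (f := tn x M)]
    apply finsum_congr
    intro q
    change tn (-x) M q = tn x M (rf q)
    unfold tn
    rw [ev_rf, cQ_rf]
    have e : (rf q).1 = q.1 := rfl
    rw [e]
    by_cases hq : Fq q ∧ 0 < q.1 ∧ ev q (-x) M < 0
    · rw [if_pos hq, if_pos ⟨Fq_rf.2 hq.1, hq.2⟩]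
    · rw [if_neg hq, if_neg (fun h => hq ⟨Fq_rf.1 h.1, h.2⟩)]
  · rw [NN_eq, NN_eq, ← finsum_comp_equiv rfE (f := tn x M)]
    apply finsum_congr
    intro q
    change tn x (-M) q = tn x M (rf q)
    unfold tn
    rw [ev_rf', cQ_rf]
    have e : (rf q).1 = q.1 := rfl
    rw [e]
    by_cases hq : Fq q ∧ 0 < q.1 ∧ ev q x (-M) < 0
    · rw [if_pos hq, if_pos ⟨Fq_rf.2 hq.1, hq.2⟩]
    · rw [if_neg hq, if_neg (fun h => hq ⟨Fq_rf.1 h.1, h.2⟩)]

theorem Cu_inf : Cu 1 0 := ⟨isCoprime_one_left, Or.inl (dvd_zero _)⟩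

theorem Cu_zero : Cu 0 1 := ⟨isCoprime_one_right, Or.inr isCoprime_one_left⟩

/-- `Γ₀(15)` preserves the cusps -/
theorem Cu_act {a b c d x y : ℤ} (hdet : a * d - b * (15 * c) = 1) (h : Cu x y) :
    Cu (a * x + b * y) (15 * c * x + d * y) := by
  obtain ⟨⟨u, v, huv⟩, h2⟩ := h
  constructor
  · refine ⟨u * d - v * (15 * c), -(u * b) + v * a, ?_⟩
    linear_combination (u * x + v * y) * hdet + huv
  · have hd : IsCoprime d 15 := ⟨a, -(b * c), by linarith⟩
    rcases h2 with h2 | h2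
    · left
      exact dvd_add (Dvd.intro (c * x) (by ring)) (h2.mul_left d)
    · right
      have h3 : IsCoprime (d * y) 15 := hd.mul_left h2
      have : 15 * c * x + d * y = d * y + 15 * (c * x) := by ring
      rw [this]
      exact IsCoprime.add_mul_left_left h3 _

end NCaux

open NCaux

theorem t_NC : S_NC :=
  ⟨fun _ hq _ _ h => ev_ne hq h, fun _ _ _ _ h h' => fin_two h h', fun _ _ _ _ _ _ h h' h'' => NC_add h h' h'',
    fun _ _ _ _ hdet x y x' y' => NC_act hdet x y x' y', NC_zero,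
    fun _ _ h1 h2 => NC_NN ⟨h1, Or.inr h2⟩, NN_refl⟩

theorem t_NHOM : S_NHOM := by
  intro a b c d hdet
  have hbd : IsCoprime b d := ⟨-(15 * c), a, by linarith⟩
  have hd : IsCoprime d 15 := ⟨a, -(b * c), by linarith⟩
  have e2 : 4 * NN b d = NC 1 0 a (15 * c) := by
    rw [← NC_NN (x := b) (M := d) ⟨hbd, Or.inr hd⟩]
    have h1 := NC_act hdet 1 0 0 1
    have h2 := NC_add Cu_inf (Cu_act hdet Cu_inf) (Cu_act hdet Cu_zero)
    rw [h1, NC_zero] at h2
    simp only [mul_one, mul_zero, add_zero, zero_add] at h2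
    exact h2.symm
  refine ⟨fun x M hM hxM => ?_, e2⟩
  have hw : Cu x M := ⟨hxM, Or.inr hM⟩
  have hgw := Cu_act hdet hw
  have h1 := NC_act hdet 1 0 x M
  have h2 := NC_add Cu_inf (Cu_act hdet Cu_inf) hgw
  rw [h1, NC_NN hw, NC_NN hgw] at h2
  simp only [mul_one, mul_zero, add_zero] at h2
  rw [← e2] at h2
  linarith

end Pool.Agent.H757_X15.CC
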