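import Pool.Agent.H757_X15.StmC

/-!
# X15-C17: the number of classes in the principal genus is odd

Under `Crit D` the only class of the principal genus which is fixed by `(A, B, C) ↦ (A, -B, C)` is
the principal class.
-/

set_option autoImplicit false
set_option linter.unusedVariables false

namespace Pool.Agent.H757_X15.CC
namespace OG

open Finset
open Pool.Agent.H757_X15.DD (Fm Crit)
open scoped Classical

/-! ### action -/

theorem act_act (q : Fo) (a b c d a' b' c' d' : ℤ) :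
    act (act q a b c d) a' b' c' d' =
      act q (a * a' + b * c') (a * b' + b * d') (c * a' + d * c') (c * b' + d * d') := by
  simp only [act, ev, Prod.mk.injEq]
  refine ⟨by ring, by ring, by ring⟩

theorem act_one (q : Fo) : act q 1 0 0 1 = q := by
  obtain ⟨A, B, C⟩ := q
  simp [act, ev]

theorem dsc_act (q : Fo) {a b c d : ℤ} (h : a * d - b * c = 1) :
    dsc (act q a b c d) = dsc q := by
  have h1 : dsc (act q a b c d) = dsc q * (a * d - b * c) ^ 2 := by
    simp only [act, ev, dsc]; ring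
  rw [h1, h]; ring

theorem ev_act (q : Fo) (a b c d x y : ℤ) :
    ev (act q a b c d) x y = ev q (a * x + b * y) (c * x + d * y) := by
  simp only [act, ev]; ring

theorem eqv_refl (q : Fo) : Eqv 1 q q :=
  ⟨1, 0, 0, 1, by norm_num, one_dvd _, (act_one q).symm⟩

theorem eqv_trans {q q' q'' : Fo} (h1 : Eqv 1 q q') (h2 : Eqv 1 q' q'') : Eqv 1 q q'' := by
  obtain ⟨a, b, c, d, e, _, rfl⟩ := h1
  obtain ⟨a', b', c', d', e', _, rfl⟩ := h2
  refine ⟨_, _, _, _, ?_, one_dvd _, act_act q a b c d a' b' c' d'⟩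
  linear_combination (a' * d' - b' * c') * e + e'

theorem eqv_symm {q q' : Fo} (h1 : Eqv 1 q q') : Eqv 1 q' q := by
  obtain ⟨a, b, c, d, e, _, rfl⟩ := h1
  refine ⟨d, -b, -c, a, by linear_combination e, one_dvd _, ?_⟩
  rw [act_act]
  have h1 : a * d + b * -c = 1 := by linear_combination e
  have h2 : a * -b + b * a = 0 := by ring
  have h3 : c * d + d * -c = 0 := by ring
  have h4 : c * -b + d * a = 1 := by linear_combination e
  rw [h1, h2, h3, h4, act_one]

theorem dsc_eqv {q q' : Fo} (h : Eqv 1 q q') : dsc q' = dsc q := by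
  obtain ⟨a, b, c, d, e, _, rfl⟩ := h
  exact dsc_act q e

/-- the opposite form -/
def op (q : Fo) : Fo := (q.1, -q.2.1, q.2.2)

theorem op_op (q : Fo) : op (op q) = q := by simp [op]

theorem op_act (q : Fo) (a b c d : ℤ) : op (act q a b c d) = act (op q) a (-b) (-c) d := by
  simp only [op, act, ev, Prod.mk.injEq]
  refine ⟨by ring, by ring, by ring⟩

theorem eqv_op {q q' : Fo} (h : Eqv 1 q q') : Eqv 1 (op q) (op q') := by
  obtain ⟨a, b, c, d, e, _, rfl⟩ := h
  exact ⟨a, -b, -c, d, by linear_combination e, one_dvd _, op_act q a b c d⟩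

theorem dsc_op (q : Fo) : dsc (op q) = dsc q := by simp [op, dsc]

theorem chp_op (p : ℕ) (q : Fo) : chp p (op q) = chp p q := rfl

/-! ### the genus characters -/

theorem jac_sq {p : ℕ} (hp : p.Prime) {y : ℤ} (hy : ¬ (p : ℤ) ∣ y) : jacobiSym (y ^ 2) p = 1 := by
  apply jacobiSym.sq_one'
  rw [Int.gcd_comm]
  have : IsCoprime (p : ℤ) y := (Nat.prime_iff_prime_int.1 hp).coprime_iff_not_dvd.2 hy
  exact Int.isCoprime_iff_gcd_eq_one.1 this

theorem jac_congr {p : ℕ} {a b : ℤ} (h : (p : ℤ) ∣ a - b) : jacobiSym a p = jacobiSym b p := by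
  apply jacobiSym.mod_left'
  exact (Int.emod_emod_of_dvd _ (dvd_refl _)).symm ▸ (Int.emod_emod_of_dvd _ (dvd_refl (p:ℤ))).symm ▸
    (Int.ModEq.symm (Int.modEq_iff_dvd.2 h))

theorem chp_val {D p : ℕ} (hD2 : D % 2 = 1) (hp : p.Prime) (hpD : p ∣ D) {Q : Fo}
    (hQ : dsc Q = D) {x y : ℤ} (h : ¬ (p : ℤ) ∣ ev Q x y) :
    chp p Q = jacobiSym (ev Q x y) p := by
  obtain ⟨A, B, C⟩ := Q
  simp only [dsc, ev, chp] at *
  have hpI : Prime (p : ℤ) := Nat.prime_iff_prime_int.1 hp
  have hpDI : (p : ℤ) ∣ (D : ℤ) := by exact_mod_cast hpD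
  have hp2 : ¬ (p : ℤ) ∣ 2 := by
    intro h2
    have h3 : p ∣ 2 := by exact_mod_cast h2
    have h4 : p = 2 := (Nat.prime_dvd_prime_iff_eq hp Nat.prime_two).1 h3
    subst h4
    omega
  split_ifs with hA
  · have hB : (p : ℤ) ∣ B := by
      apply hpI.dvd_of_dvd_pow (n := 2)
      have : B ^ 2 = D + 4 * (A * C) := by linarith
      rw [this]
      exact dvd_add hpDI (Dvd.dvd.mul_left (Dvd.dvd.mul_right hA C) 4)
    have hy : ¬ (p : ℤ) ∣ y := by
      intro hy
      apply h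
      refine dvd_add (dvd_add (Dvd.dvd.mul_right hA _) (Dvd.dvd.mul_right hB _)) ?_
      exact Dvd.dvd.mul_left (dvd_pow hy (by norm_num)) _
    have h1 : jacobiSym (A * x ^ 2 + B * (x * y) + C * y ^ 2) p = jacobiSym (C * y ^ 2) p := by
      apply jac_congr
      have : A * x ^ 2 + B * (x * y) + C * y ^ 2 - C * y ^ 2 = A * x ^ 2 + B * (x * y) := by ring
      rw [this]
      exact dvd_add (Dvd.dvd.mul_right hA _) (Dvd.dvd.mul_right hB _)
    rw [h1, jacobiSym.mul_left, jac_sq hp hy, mul_one]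
  · set v := A * x ^ 2 + B * (x * y) + C * y ^ 2 with hv
    have h1 : jacobiSym (2 ^ 2 * (A * v)) p = jacobiSym ((2 * A * x + B * y) ^ 2) p := by
      apply jac_congr
      have : 2 ^ 2 * (A * v) - (2 * A * x + B * y) ^ 2 = -(D * y ^ 2) := by
        rw [hv]; linear_combination (-y ^ 2) * hQ
      rw [this]
      exact (Dvd.dvd.mul_right hpDI _).neg_right
    have h2 : ¬ (p : ℤ) ∣ 2 * A * x + B * y := by
      intro h3
      have h4 : (p : ℤ) ∣ 2 ^ 2 * (A * v) := by
        have : 2 ^ 2 * (A * v) = (2 * A * x + B * y) ^ 2 - D * y ^ 2 := by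
          rw [hv]; linear_combination (-y ^ 2) * hQ
        rw [this]
        exact dvd_sub (dvd_pow h3 (by norm_num)) (Dvd.dvd.mul_right hpDI _)
      rcases hpI.dvd_or_dvd h4 with h5 | h5
      · exact hp2 (hpI.dvd_of_dvd_pow h5)
      · rcases hpI.dvd_or_dvd h5 with h6 | h6
        · exact hA h6
        · exact h h6
    rw [jac_sq hp h2, jacobiSym.mul_left, jacobiSym.mul_left, jac_sq hp hp2, one_mul] at h1
    have h7 : jacobiSym A p ^ 2 = 1 := by
      rw [← jacobiSym.pow_left]; exact jac_sq hp hA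
    calc jacobiSym A p = jacobiSym A p * (jacobiSym A p * jacobiSym v p) := by rw [h1, mul_one]
      _ = jacobiSym A p ^ 2 * jacobiSym v p := by ring
      _ = jacobiSym v p := by rw [h7, one_mul]

theorem not_both {D p : ℕ} (hD : Squarefree D) (hp : p.Prime) (hpD : p ∣ D) {Q : Fo}
    (hQ : dsc Q = D) (h1 : (p : ℤ) ∣ Q.1) : ¬ (p : ℤ) ∣ Q.2.2 := by
  intro h2
  obtain ⟨A, B, C⟩ := Q
  simp only [dsc] at *
  have hpI : Prime (p : ℤ) := Nat.prime_iff_prime_int.1 hp
  have hpDI : (p : ℤ) ∣ (D : ℤ) := by exact_mod_cast hpD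
  have hB : (p : ℤ) ∣ B := by
    apply hpI.dvd_of_dvd_pow (n := 2)
    have : B ^ 2 = D + 4 * (A * C) := by linarith
    rw [this]
    exact dvd_add hpDI (Dvd.dvd.mul_left (Dvd.dvd.mul_right h1 C) 4)
  have h3 : (p : ℤ) * p ∣ D := by
    rw [← hQ]
    refine dvd_sub ?_ (Dvd.dvd.mul_left (mul_dvd_mul h1 h2) 4)
    rw [sq]; exact mul_dvd_mul hB hB
  have h4 : p * p ∣ D := by exact_mod_cast h3
  exact hp.one_lt.ne' (Nat.isUnit_iff.1 (hD p h4))

theorem exists_val {D p : ℕ} (hD : Squarefree D) (hp : p.Prime) (hpD : p ∣ D) {Q : Fo}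
    (hQ : dsc Q = D) : ∃ x y : ℤ, ¬ (p : ℤ) ∣ ev Q x y := by
  by_cases h1 : (p : ℤ) ∣ Q.1
  · refine ⟨0, 1, ?_⟩
    have : ev Q 0 1 = Q.2.2 := by simp [ev]
    rw [this]
    exact not_both hD hp hpD hQ h1
  · refine ⟨1, 0, ?_⟩
    have : ev Q 1 0 = Q.1 := by simp [ev]
    rw [this]
    exact h1

theorem chp_eqv {D p : ℕ} (hD : Squarefree D) (hD2 : D % 2 = 1) (hp : p.Prime) (hpD : p ∣ D)
    {Q Q' : Fo} (hQ : dsc Q = D) (h : Eqv 1 Q Q') : chp p Q' = chp p Q := by
  have hQ' : dsc Q' = D := by rw [dsc_eqv h, hQ]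
  obtain ⟨x, y, hxy⟩ := exists_val hD hp hpD hQ'
  obtain ⟨a, b, c, d, e, _, rfl⟩ := h
  rw [chp_val hD2 hp hpD hQ' hxy]
  rw [ev_act] at hxy ⊢
  rw [← chp_val hD2 hp hpD hQ hxy]

/-! ### ambiguous classes -/

theorem prim_vec {X Y : ℤ} (h : X ≠ 0 ∨ Y ≠ 0) : ∃ g x y : ℤ, g ≠ 0 ∧ IsCoprime x y ∧
    X = g * x ∧ Y = g * y := by
  have hg : 0 < Int.gcd X Y := Int.gcd_pos_iff.2 h
  obtain ⟨x, y, h1, h2, h3⟩ := Int.exists_gcd_one hg
  refine ⟨(Int.gcd X Y : ℤ), x, y, by exact_mod_cast hg.ne', Int.isCoprime_iff_gcd_eq_one.2 h1, ?_, ?_⟩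
  · rw [mul_comm]; exact h2
  · rw [mul_comm]; exact h3

/-- a fixed primitive vector of an improper automorph -/
theorem fixed_vec {p q r : ℤ} (h : p * p - q * r = 1) :
    ∃ x y : ℤ, IsCoprime x y ∧ (p - 1) * x = q * y ∧ r * x = (p + 1) * y := by
  by_cases hr : p + 1 ≠ 0 ∨ r ≠ 0
  · obtain ⟨g, x, y, hg, hc, hx, hy⟩ := prim_vec hr
    refine ⟨x, y, hc, ?_, ?_⟩
    · apply mul_left_cancel₀ hg
      have h1 : (p - 1) * (p + 1) = q * r := by linear_combination h
      rw [hx] at h1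
      linear_combination h1 + q * hy
    · apply mul_left_cancel₀ hg
      linear_combination (-r) * hx + (p + 1) * hy
  · push Not at hr
    obtain ⟨h1, h2⟩ := hr
    obtain ⟨g, x, y, hg, hc, hx, hy⟩ := prim_vec (X := q) (Y := -2) (Or.inr (by norm_num))
    have hp : p = -1 := by linarith
    refine ⟨x, y, hc, ?_, ?_⟩
    · apply mul_left_cancel₀ hg
      rw [hp]
      have h3 : q * (g * y) = -2 * (g * x) := by rw [← hy, ← hx]; ring
      linear_combination (-1 : ℤ) * h3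
    · rw [h2, h1]; ring

/-- ambiguous classes contain forms `(a, a, c)` -/
theorem amb0 {D : ℕ} (hns : ¬ IsSquare (D : ℤ)) (hodd : D % 2 = 1) {Q : Fo} (hQ : dsc Q = D)
    (h : Eqv 1 Q (op Q)) : ∃ a c : ℤ, a * (a - 4 * c) = D ∧ Eqv 1 Q (a, a, c) := by
  obtain ⟨A, B, C⟩ := Q
  obtain ⟨p, q, r, s, e0, _, e⟩ := h
  simp only [op, act, ev, Prod.mk.injEq, dsc] at e hQ
  obtain ⟨e1, e2, e3⟩ := e
  have hA : A ≠ 0 := by
    intro hA
    apply hns
    refine ⟨B, ?_⟩
    rw [← hQ, hA]; ring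
  have hps : s = p := by
    have h1 : 2 * A * (p - s) = 0 := by
      linear_combination (-2 * s) * e1 + r * e2 - (2 * A * p + B * r) * e0
    have h2 : p - s = 0 := by
      rcases mul_eq_zero.1 h1 with h3 | h3
      · rcases mul_eq_zero.1 h3 with h4 | h4
        · norm_num at h4
        · exact absurd h4 hA
      · exact h3
    linarith
  subst hps
  have hk : A * q + B * s + C * r = 0 := by
    by_cases hr : r = 0
    · subst hr
      have hp2 : s ≠ 0 := by
        rintro rfl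
        norm_num at e0
      have h1 : 2 * s * (A * q + B * s + C * 0) = 0 := by
        linear_combination (-1 : ℤ) * e2 + B * e0
      rcases mul_eq_zero.1 h1 with h3 | h3
      · rcases mul_eq_zero.1 h3 with h4 | h4
        · norm_num at h4
        · exact absurd h4 hp2
      · exact h3
    · have h1 : r * (A * q + B * s + C * r) = 0 := by
        linear_combination (-1 : ℤ) * e1 - A * e0
      rcases mul_eq_zero.1 h1 with h3 | h3
      · exact absurd h3 hr
      · exact h3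
  obtain ⟨x, y, hc, f1, f2⟩ := fixed_vec e0
  obtain ⟨u, v, huv⟩ := hc
  -- second basis vector `(z, w)`
  obtain ⟨z, w, hzw⟩ : ∃ z w : ℤ, x * w - z * y = 1 := ⟨-v, u, by linear_combination huv⟩
  set k : ℤ := ((s + 1) * z - q * w) * w - (r * z - (s - 1) * w) * z with hkdef
  have hk1 : (s + 1) * z - q * w = k * x := by
    rw [hkdef]
    linear_combination (-((s + 1) * z - q * w)) * hzw + z * (z * f2 - w * f1)
  have hk2 : r * z - (s - 1) * w = k * y := by
    rw [hkdef]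
    linear_combination (-(r * z - (s - 1) * w)) * hzw + w * (z * f2 - w * f1)
  set A1 : ℤ := A * x ^ 2 + B * (x * y) + C * y ^ 2 with hA1
  set B1 : ℤ := 2 * (A * (x * z)) + B * (x * w + z * y) + 2 * (C * (y * w)) with hB1
  set C1 : ℤ := A * z ^ 2 + B * (z * w) + C * w ^ 2 with hC1
  have hB : B1 = k * A1 := by
    -- `bil (v, h w) = bil (v, w)`
    have g1 : s * x - q * y = x := by linear_combination f1
    have g2 : r * x - s * y = y := by linear_combination f2
    have inv : 2 * (A * ((s * x - q * y) * (s * z - q * w))) +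
        B * ((s * x - q * y) * (r * z - s * w) + (s * z - q * w) * (r * x - s * y)) +
        2 * (C * ((r * x - s * y) * (r * z - s * w))) = B1 := by
      rw [hB1]
      linear_combination (2 * r * (x * z) - 2 * s * (x * w + z * y) + 2 * q * (y * w)) * hk +
        (2 * (A * (x * z)) + B * (x * w + z * y) + 2 * (C * (y * w))) * e0
    rw [g1, g2] at inv
    have g3 : s * z - q * w = k * x - z := by linear_combination hk1
    have g4 : r * z - s * w = k * y - w := by linear_combination hk2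
    rw [g3, g4] at inv
    have h2 : 2 * B1 = 2 * (k * A1) := by
      rw [hA1]
      linear_combination (-1 : ℤ) * inv + hB1
    linarith
  have hD1 : B1 ^ 2 - 4 * (A1 * C1) = D := by
    rw [← hQ, hA1, hB1, hC1]
    linear_combination (B ^ 2 - 4 * (A * C)) * (x * w - z * y + 1) * hzw
  have hkodd : k % 2 = 1 := by
    rcases Int.emod_two_eq_zero_or_one k with h0 | h0
    · exfalso
      obtain ⟨j, hj⟩ : (2 : ℤ) ∣ k := Int.dvd_of_emod_eq_zero h0
      have : (D : ℤ) = 2 * (2 * (j * A1) ^ 2 - 2 * (A1 * C1)) := by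
        rw [← hD1, hB, hj]; ring
      have hD3 : (D : ℤ) % 2 = 1 := by exact_mod_cast congrArg (Nat.cast : ℕ → ℤ) hodd
      omega
    · exact h0
  obtain ⟨m, hm⟩ : ∃ m, k = 2 * m + 1 := ⟨k / 2, by omega⟩
  refine ⟨A1, A1 * m ^ 2 - B1 * m + C1, ?_, x, z - m * x, y, w - m * y, ?_, one_dvd _, ?_⟩
  · rw [← hD1, hB, hm]; ring
  · linear_combination hzw
  · have hB2 := hB
    rw [hm] at hB2
    simp only [act, ev, Prod.mk.injEq]
    refine ⟨by rw [hA1], ?_, ?_⟩
    · rw [hA1, hB1] at hB2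
      rw [hA1]
      linear_combination (-1 : ℤ) * hB2
    · rw [hA1, hB1, hC1]
      ring

theorem amb {D : ℕ} (hns : ¬ IsSquare (D : ℤ)) (hodd : D % 2 = 1) {Q : Fo} (hQ : dsc Q = D)
    (h : Eqv 1 Q (op Q)) : ∃ a c : ℤ, 0 < a ∧ a * (a - 4 * c) = D ∧ Eqv 1 Q (a, a, c) := by
  obtain ⟨a, c, h1, h2⟩ := amb0 hns hodd hQ h
  have hD : (0 : ℤ) < D := by
    have : 0 < D := by omega
    exact_mod_cast this
  rcases lt_trichotomy a 0 with ha | ha | ha
  · refine ⟨4 * c - a, c, ?_, by linear_combination h1, eqv_trans h2 ⟨1, 1, -2, -1, by norm_num, one_dvd _, ?_⟩⟩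
    · by_contra h3
      push Not at h3
      have : a * (a - 4 * c) ≤ 0 := mul_nonpos_of_nonpos_of_nonneg ha.le (by linarith)
      linarith
    · simp only [act, ev, Prod.mk.injEq]
      refine ⟨by ring, by ring, by ring⟩
  · rw [ha] at h1
    exfalso; linarith
  · exact ⟨a, c, ha, h1, h2⟩

/-- a form which represents `1` is equivalent to the principal form -/
theorem princ {D : ℕ} (hodd : D % 2 = 1) {Q : Fo} (hQ : dsc Q = D) {x y : ℤ}
    (h : ev Q x y = 1) : ∃ c : ℤ, 1 - 4 * c = D ∧ Eqv 1 Q (1, 1, c) := by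
  obtain ⟨A, B, C⟩ := Q
  simp only [ev, dsc] at *
  obtain ⟨z, w, hzw⟩ : ∃ z w : ℤ, x * w - z * y = 1 :=
    ⟨-(C * y), A * x + B * y, by linear_combination h⟩
  set B1 : ℤ := 2 * (A * (x * z)) + B * (x * w + z * y) + 2 * (C * (y * w)) with hB1
  set C1 : ℤ := A * z ^ 2 + B * (z * w) + C * w ^ 2 with hC1
  have hD1 : B1 ^ 2 - 4 * C1 = D := by
    rw [← hQ, hB1, hC1]
    linear_combination (B ^ 2 - 4 * (A * C)) * (x * w - z * y + 1) * hzw +
      4 * (A * z ^ 2 + B * (z * w) + C * w ^ 2) * h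
  have hB1odd : B1 % 2 = 1 := by
    rcases Int.emod_two_eq_zero_or_one B1 with h0 | h0
    · exfalso
      obtain ⟨j, hj⟩ : (2 : ℤ) ∣ B1 := Int.dvd_of_emod_eq_zero h0
      have : (D : ℤ) = 2 * (2 * j ^ 2 - 2 * C1) := by
        rw [← hD1, hj]; ring
      have hD3 : (D : ℤ) % 2 = 1 := by exact_mod_cast congrArg (Nat.cast : ℕ → ℤ) hodd
      omega
    · exact h0
  obtain ⟨m, hm⟩ : ∃ m, B1 = 2 * m + 1 := ⟨B1 / 2, by omega⟩
  refine ⟨m ^ 2 - B1 * m + C1, ?_, x, z - m * x, y, w - m * y, ?_, one_dvd _, ?_⟩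
  · rw [← hD1, hm]; ring
  · linear_combination hzw
  · have hm2 := hm
    simp only [act, ev, Prod.mk.injEq]
    refine ⟨h.symm, ?_, ?_⟩
    · rw [hB1] at hm2
      linear_combination (-1 : ℤ) * hm2 + 2 * m * h
    · rw [hB1, hC1]
      linear_combination (-m ^ 2) * h

/-! ### the local conditions -/

/-- the local conditions of `Crit` -/
def LC (D d : ℕ) : Prop := d ∣ D ∧ (∀ p : ℕ, p.Prime → p ∣ D → ¬ p ∣ d → jacobiSym d p = 1) ∧
  (∀ p : ℕ, p.Prime → p ∣ d → jacobiSym (-((D / d : ℕ) : ℤ)) p = 1)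

theorem jac_pm {p : ℕ} (hp : p.Prime) {y : ℤ} (hy : ¬ (p : ℤ) ∣ y) :
    jacobiSym y p * jacobiSym y p = 1 := by
  rw [← jacobiSym.mul_left, ← sq]; exact jac_sq hp hy

theorem lc_mul {D a m : ℕ} (hD : Squarefree D) (ha : LC D a) (hm : LC D m) :
    LC D ((a / a.gcd m) * (m / a.gcd m)) := by
  obtain ⟨⟨a', haa⟩, ha1, ha2⟩ := ha
  obtain ⟨⟨m', hmm⟩, hm1, hm2⟩ := hm
  have hD0 : 0 < D := Nat.pos_of_ne_zero hD.ne_zero
  have ha0 : 0 < a := Nat.pos_of_ne_zero (by rintro rfl; simp at haa; omega)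
  have hm0 : 0 < m := Nat.pos_of_ne_zero (by rintro rfl; simp at hmm; omega)
  have hg0 : 0 < a.gcd m := Nat.gcd_pos_of_pos_left _ ha0
  obtain ⟨g, a1, m1, hg, hcop, ha3, hm3⟩ : ∃ g a1 m1 : ℕ, 0 < g ∧ a1.Coprime m1 ∧ a = a1 * g ∧
      m = m1 * g := by
    obtain ⟨g, a1, m1, h1, h2, h3, h4⟩ := Nat.exists_coprime' hg0
    exact ⟨g, a1, m1, h1, h2, h3, h4⟩
  have hgcd : a.gcd m = g := by
    rw [ha3, hm3, Nat.gcd_mul_right, hcop.gcd_eq_one, one_mul]
  rw [hgcd, ha3, hm3, Nat.mul_div_cancel _ hg, Nat.mul_div_cancel _ hg]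
  -- `D = a1 * g * a' = m1 * g * m'`, so `a1 * a' = m1 * m'`
  have h1 : a1 * a' = m1 * m' := by
    apply Nat.eq_of_mul_eq_mul_left hg
    have e1 : g * (a1 * a') = D := by rw [haa, ha3]; ring
    have e2 : g * (m1 * m') = D := by rw [hmm, hm3]; ring
    rw [e1, e2]
  obtain ⟨k, hk⟩ : m1 ∣ a' := by
    apply (Nat.Coprime.symm hcop).dvd_of_dvd_mul_left
    exact ⟨m', h1⟩
  -- `a' = m1 k`, `m' = a1 k`
  have hm1p : 0 < m1 := Nat.pos_of_ne_zero (by rintro rfl; simp at hm3; omega)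
  have ha1p : 0 < a1 := Nat.pos_of_ne_zero (by rintro rfl; simp at ha3; omega)
  have hk2 : m' = a1 * k := by
    apply Nat.eq_of_mul_eq_mul_left hm1p
    rw [← h1, hk]; ring
  have hDf : D = a1 * m1 * (g * k) := by rw [haa, ha3, hk]; ring
  have hda : D / a = m1 * k := by
    rw [haa, Nat.mul_div_cancel_left _ ha0, hk]
  have hdm : D / m = a1 * k := by
    rw [hmm, Nat.mul_div_cancel_left _ hm0, hk2]
  have hde : D / (a1 * m1) = g * k := by
    rw [hDf, Nat.mul_div_cancel_left _ (Nat.mul_pos ha1p hm1p)]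
  rw [hda] at ha2
  rw [hdm] at hm2
  -- coprimality of the four factors
  have hsq : ∀ p : ℕ, p.Prime → ∀ x y : ℕ, x * y ∣ D → p ∣ x → ¬ p ∣ y := by
    intro p hp x y hxy hx hy
    have h4 : p * p ∣ D := (mul_dvd_mul hx hy).trans hxy
    exact hp.one_lt.ne' (Nat.isUnit_iff.1 (hD p h4))
  have c1 : a1 * m1 ∣ D := ⟨g * k, hDf⟩
  have c2 : a1 * g ∣ D := ⟨m1 * k, by rw [hDf]; ring⟩
  have c3 : a1 * k ∣ D := ⟨m1 * g, by rw [hDf]; ring⟩
  have c4 : m1 * g ∣ D := ⟨a1 * k, by rw [hDf]; ring⟩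
  have c5 : m1 * k ∣ D := ⟨a1 * g, by rw [hDf]; ring⟩
  have c6 : g * k ∣ D := ⟨a1 * m1, by rw [hDf]; ring⟩
  refine ⟨c1, ?_, ?_⟩
  · intro p hp hpD hpe
    have hpa1 : ¬ p ∣ a1 := fun h => hpe (Dvd.dvd.mul_right h _)
    have hpm1 : ¬ p ∣ m1 := fun h => hpe (Dvd.dvd.mul_left h _)
    have hpa1' : ¬ (p : ℤ) ∣ (a1 : ℤ) := by exact_mod_cast hpa1
    have hpm1' : ¬ (p : ℤ) ∣ (m1 : ℤ) := by exact_mod_cast hpm1
    by_cases hpg : p ∣ g
    · have hpk : ¬ p ∣ k := hsq p hp g k c6 hpg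
      have hpk' : ¬ (p : ℤ) ∣ -(k : ℤ) := by
        rw [dvd_neg]; exact_mod_cast hpk
      have e1 := ha2 p hp (by rw [ha3]; exact Dvd.dvd.mul_left hpg _)
      have e2 := hm2 p hp (by rw [hm3]; exact Dvd.dvd.mul_left hpg _)
      have e1' : jacobiSym (m1 : ℤ) p * jacobiSym (-(k : ℤ)) p = 1 := by
        rw [← jacobiSym.mul_left, ← e1]; congr 1; push_cast; ring
      have e2' : jacobiSym (a1 : ℤ) p * jacobiSym (-(k : ℤ)) p = 1 := by
        rw [← jacobiSym.mul_left, ← e2]; congr 1; push_cast; ring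
      have e3 := jac_pm hp hpk'
      push_cast
      rw [jacobiSym.mul_left]
      calc jacobiSym (a1 : ℤ) p * jacobiSym (m1 : ℤ) p
          = (jacobiSym (a1 : ℤ) p * jacobiSym (-(k : ℤ)) p) *
            (jacobiSym (m1 : ℤ) p * jacobiSym (-(k : ℤ)) p) := by
              linear_combination (-(jacobiSym (a1 : ℤ) p * jacobiSym (m1 : ℤ) p)) * e3
        _ = 1 := by rw [e1', e2', one_mul]
    · have hpg' : ¬ (p : ℤ) ∣ (g : ℤ) := by exact_mod_cast hpg
      have hpa : ¬ p ∣ a := by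
        rw [ha3]; intro h; rcases (Nat.Prime.dvd_mul hp).1 h with h | h
        · exact hpa1 h
        · exact hpg h
      have hpm : ¬ p ∣ m := by
        rw [hm3]; intro h; rcases (Nat.Prime.dvd_mul hp).1 h with h | h
        · exact hpm1 h
        · exact hpg h
      have e1 := ha1 p hp hpD hpa
      have e2 := hm1 p hp hpD hpm
      rw [ha3] at e1
      rw [hm3] at e2
      push_cast at e1 e2 ⊢
      rw [jacobiSym.mul_left] at e1 e2 ⊢
      have e3 := jac_pm hp hpg'
      calc jacobiSym (a1 : ℤ) p * jacobiSym (m1 : ℤ) p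
          = (jacobiSym (a1 : ℤ) p * jacobiSym (g : ℤ) p) *
            (jacobiSym (m1 : ℤ) p * jacobiSym (g : ℤ) p) := by
              linear_combination (-(jacobiSym (a1 : ℤ) p * jacobiSym (m1 : ℤ) p)) * e3
        _ = 1 := by rw [e1, e2, one_mul]
  · intro p hp hpe
    rw [hde]
    rcases (Nat.Prime.dvd_mul hp).1 hpe with h | h
    · -- `p ∣ a1`
      have hpm1 : ¬ p ∣ m1 := hsq p hp a1 m1 c1 h
      have hpg : ¬ p ∣ g := hsq p hp a1 g c2 h
      have hpk : ¬ p ∣ k := hsq p hp a1 k c3 h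
      have hpm1' : ¬ (p : ℤ) ∣ (m1 : ℤ) := by exact_mod_cast hpm1
      have e1 := ha2 p hp (by rw [ha3]; exact Dvd.dvd.mul_right h _)
      have e2 := hm1 p hp (h.trans ((dvd_mul_right a1 m1).trans c1)) (by
        rw [hm3]; intro h; rcases (Nat.Prime.dvd_mul hp).1 h with h | h
        · exact hpm1 h
        · exact hpg h)
      rw [hm3] at e2
      have e1' : jacobiSym (m1 : ℤ) p * jacobiSym (-(k : ℤ)) p = 1 := by
        rw [← jacobiSym.mul_left, ← e1]; congr 1; push_cast; ring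
      push_cast at e2
      rw [jacobiSym.mul_left] at e2
      have e3 := jac_pm hp hpm1'
      have e4 : jacobiSym (-((g * k : ℕ) : ℤ)) p = jacobiSym (g : ℤ) p * jacobiSym (-(k : ℤ)) p := by
        rw [← jacobiSym.mul_left]; congr 1; push_cast; ring
      rw [e4]
      calc jacobiSym (g : ℤ) p * jacobiSym (-(k : ℤ)) p
          = (jacobiSym (m1 : ℤ) p * jacobiSym (g : ℤ) p) *
            (jacobiSym (m1 : ℤ) p * jacobiSym (-(k : ℤ)) p) := by
              linear_combination (-(jacobiSym (g : ℤ) p * jacobiSym (-(k : ℤ)) p)) * e3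
        _ = 1 := by rw [e1', e2, one_mul]
    · -- `p ∣ m1`
      have hpa1 : ¬ p ∣ a1 := fun h2 => hsq p hp a1 m1 c1 h2 h
      have hpg : ¬ p ∣ g := hsq p hp m1 g c4 h
      have hpk : ¬ p ∣ k := hsq p hp m1 k c5 h
      have hpa1' : ¬ (p : ℤ) ∣ (a1 : ℤ) := by exact_mod_cast hpa1
      have e1 := hm2 p hp (by rw [hm3]; exact Dvd.dvd.mul_right h _)
      have e2 := ha1 p hp (h.trans ((dvd_mul_left m1 a1).trans c1)) (by
        rw [ha3]; intro h; rcases (Nat.Prime.dvd_mul hp).1 h with h | h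
        · exact hpa1 h
        · exact hpg h)
      rw [ha3] at e2
      have e1' : jacobiSym (a1 : ℤ) p * jacobiSym (-(k : ℤ)) p = 1 := by
        rw [← jacobiSym.mul_left, ← e1]; congr 1; push_cast; ring
      push_cast at e2
      rw [jacobiSym.mul_left] at e2
      have e3 := jac_pm hp hpa1'
      have e4 : jacobiSym (-((g * k : ℕ) : ℤ)) p = jacobiSym (g : ℤ) p * jacobiSym (-(k : ℤ)) p := by
        rw [← jacobiSym.mul_left]; congr 1; push_cast; ring
      rw [e4]
      calc jacobiSym (g : ℤ) p * jacobiSym (-(k : ℤ)) p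
          = (jacobiSym (a1 : ℤ) p * jacobiSym (g : ℤ) p) *
            (jacobiSym (a1 : ℤ) p * jacobiSym (-(k : ℤ)) p) := by
              linear_combination (-(jacobiSym (g : ℤ) p * jacobiSym (-(k : ℤ)) p)) * e3
        _ = 1 := by rw [e1', e2, one_mul]

/-- the local conditions for the ambiguous forms of the principal genus -/
theorem lc_amb {D : ℕ} (hodd : D % 2 = 1) {a c : ℤ} (ha : 0 < a)
    (haD : a * (a - 4 * c) = D) (hch : ∀ p ∈ D.primeFactors, chp p (a, a, c) = 1) :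
    LC D a.toNat := by
  have hD0 : D ≠ 0 := by omega
  have haN : (a.toNat : ℤ) = a := Int.toNat_of_nonneg ha.le
  have hb : 0 < a - 4 * c := by
    by_contra h
    push Not at h
    have h1 : a * (a - 4 * c) ≤ 0 := mul_nonpos_of_nonneg_of_nonpos ha.le h
    have h2 : (0 : ℤ) < D := by exact_mod_cast Nat.pos_of_ne_zero hD0
    linarith
  have hbN : ((a - 4 * c).toNat : ℤ) = a - 4 * c := Int.toNat_of_nonneg hb.le
  have hDf : D = a.toNat * (a - 4 * c).toNat := by
    have : (D : ℤ) = a.toNat * (a - 4 * c).toNat := by rw [haN, hbN, haD]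
    exact_mod_cast this
  have haP : 0 < a.toNat := by omega
  have hdiv : D / a.toNat = (a - 4 * c).toNat := by
    conv_lhs => rw [hDf]
    exact Nat.mul_div_cancel_left _ haP
  refine ⟨⟨_, hDf⟩, ?_, ?_⟩
  · intro p hp hpD hpa
    have h1 := hch p (Nat.mem_primeFactors.2 ⟨hp, hpD, hD0⟩)
    have h2 : ¬ (p : ℤ) ∣ a := by
      intro h; apply hpa
      rw [← haN] at h
      exact_mod_cast h
    simp only [chp, if_neg h2] at h1
    rw [haN]; exact h1
  · intro p hp hpa
    have hpD : p ∣ D := by rw [hDf]; exact Dvd.dvd.mul_right hpa _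
    have h1 := hch p (Nat.mem_primeFactors.2 ⟨hp, hpD, hD0⟩)
    have h2 : (p : ℤ) ∣ a := by
      rw [← haN]; exact_mod_cast hpa
    have hp2 : ¬ (p : ℤ) ∣ 2 := by
      intro h2
      have h3 : p ∣ 2 := by exact_mod_cast h2
      have h4 : p = 2 := (Nat.prime_dvd_prime_iff_eq hp Nat.prime_two).1 h3
      subst h4
      omega
    simp only [chp, if_pos h2] at h1
    rw [hdiv, hbN]
    have h3 : jacobiSym (-(a - 4 * c)) p = jacobiSym (2 ^ 2 * c) p := by
      apply jac_congr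
      have : -(a - 4 * c) - 2 ^ 2 * c = -a := by ring
      rw [this]
      exact h2.neg_right
    rw [h3, jacobiSym.mul_left, jac_sq hp hp2, one_mul, h1]

/-- the local conditions for the splitting of the unit equation -/
theorem lc_pm {D m m' : ℕ} (hodd : D % 2 = 1) (hD : m * m' = D) {x y : ℤ}
    (h : (m : ℤ) * x ^ 2 - m' * y ^ 2 = 4) : LC D m := by
  have hD0 : 0 < D := by omega
  have hm0 : 0 < m := Nat.pos_of_ne_zero (by rintro rfl; simp at hD; omega)
  have hdiv : D / m = m' := by rw [← hD]; exact Nat.mul_div_cancel_left _ hm0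
  have hp2' : ∀ p : ℕ, p.Prime → p ∣ D → ¬ (p : ℤ) ∣ 2 := by
    intro p hp hpD h2
    have h3 : p ∣ 2 := by exact_mod_cast h2
    have h4 : p = 2 := (Nat.prime_dvd_prime_iff_eq hp Nat.prime_two).1 h3
    subst h4
    omega
  refine ⟨⟨m', hD.symm⟩, ?_, ?_⟩
  · intro p hp hpD hpm
    have hpI : Prime (p : ℤ) := Nat.prime_iff_prime_int.1 hp
    have hp2 := hp2' p hp hpD
    have hpm' : (p : ℤ) ∣ m' := by
      rw [← hD] at hpD
      rcases (Nat.Prime.dvd_mul hp).1 hpD with h1 | h1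
      · exact absurd h1 hpm
      · exact_mod_cast h1
    have hx : ¬ (p : ℤ) ∣ x := by
      intro hx
      have h4 : (p : ℤ) ∣ 2 ^ 2 := by
        have : (2 : ℤ) ^ 2 = (m : ℤ) * x ^ 2 - m' * y ^ 2 := by rw [h]; norm_num
        rw [this]
        exact dvd_sub (Dvd.dvd.mul_left (dvd_pow hx (by norm_num)) _) (Dvd.dvd.mul_right hpm' _)
      exact hp2 (hpI.dvd_of_dvd_pow h4)
    have h1 : jacobiSym ((m : ℤ) * x ^ 2) p = jacobiSym (2 ^ 2) p := by
      apply jac_congr
      have : (m : ℤ) * x ^ 2 - 2 ^ 2 = m' * y ^ 2 := by linear_combination h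
      rw [this]
      exact Dvd.dvd.mul_right hpm' _
    rwa [jacobiSym.mul_left, jac_sq hp hx, mul_one, jac_sq hp hp2] at h1
  · intro p hp hpm
    rw [hdiv]
    have hpD : p ∣ D := by rw [← hD]; exact Dvd.dvd.mul_right hpm _
    have hpI : Prime (p : ℤ) := Nat.prime_iff_prime_int.1 hp
    have hp2 := hp2' p hp hpD
    have hpm' : (p : ℤ) ∣ m := by exact_mod_cast hpm
    have hy : ¬ (p : ℤ) ∣ y := by
      intro hy
      have h4 : (p : ℤ) ∣ 2 ^ 2 := by
        have : (2 : ℤ) ^ 2 = (m : ℤ) * x ^ 2 - m' * y ^ 2 := by rw [h]; norm_num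
        rw [this]
        exact dvd_sub (Dvd.dvd.mul_right hpm' _) (Dvd.dvd.mul_left (dvd_pow hy (by norm_num)) _)
      exact hp2 (hpI.dvd_of_dvd_pow h4)
    have h1 : jacobiSym (-(m' : ℤ) * y ^ 2) p = jacobiSym (2 ^ 2) p := by
      apply jac_congr
      have : -(m' : ℤ) * y ^ 2 - 2 ^ 2 = -(m * x ^ 2) := by linear_combination h
      rw [this]
      exact (Dvd.dvd.mul_right hpm' _).neg_right
    rwa [jacobiSym.mul_left, jac_sq hp hy, mul_one, jac_sq hp hp2] at h1

/-- the only ambiguous class of the principal genus is the principal class -/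
theorem amb_princ (hPM : S_PM) (hFU : S_FUND) {D : ℕ} (hD : Squarefree D) (hF : Fm D) (hD1 : D ≠ 1)
    (hC : Crit D) {Q : Fo} (hQ : dsc Q = D) (hch : ∀ p ∈ D.primeFactors, chp p Q = 1)
    (h : Eqv 1 Q (op Q)) : ∃ c : ℤ, 1 - 4 * c = D ∧ Eqv 1 Q (1, 1, c) := by
  have hodd : D % 2 = 1 := by rcases hF with h | h <;> omega
  have h5 : ¬ 5 ∣ D := by rcases hF with h | h <;> omega
  have hgt : 1 < D := by omega
  have hns : ¬ IsSquare (D : ℤ) := by
    intro hs
    have hs' : IsSquare D := by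
      obtain ⟨r, hr⟩ := hs
      refine ⟨r.natAbs, ?_⟩
      have := congrArg Int.natAbs hr
      rw [Int.natAbs_mul] at this
      simpa using this
    obtain ⟨r, hr⟩ := hs'
    have : IsUnit r := hD r ⟨1, by rw [hr, mul_one]⟩
    rw [Nat.isUnit_iff.1 this] at hr
    exact hD1 hr
  obtain ⟨a, c, ha, hac, hE⟩ := amb hns hodd hQ h
  have hch' : ∀ p ∈ D.primeFactors, chp p (a, a, c) = 1 := by
    intro p hp
    rw [chp_eqv hD hodd (Nat.prime_of_mem_primeFactors hp) (Nat.dvd_of_mem_primeFactors hp) hQ hE]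
    exact hch p hp
  have hLa : LC D a.toNat := lc_amb hodd ha hac hch'
  have haN : (a.toNat : ℤ) = a := Int.toNat_of_nonneg ha.le
  have hprime5 : Nat.Prime 5 := by norm_num
  have h5d : ∀ d : ℕ, d ∣ D → ¬ ((5 : ℕ) : ℤ) ∣ (d : ℤ) := by
    intro d hd h6
    apply h5
    have : 5 ∣ d := by exact_mod_cast h6
    exact this.trans hd
  by_cases hJ : jacobiSym (a.toNat : ℤ) 5 = 1
  · have h1 := hC a.toNat hLa.1 hLa.2.1 hLa.2.2 hJ
    have h2 : a = 1 := by rw [← haN, h1]; rfl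
    subst h2
    exact ⟨c, by linear_combination hac, hE⟩
  · obtain ⟨t, u, hFund⟩ := hFU D hD hgt
    obtain ⟨m, m', x, y, hmm, -, -, -, hxy, hm5, -⟩ := hPM D hD hF hD1 hC t u hFund
    have hLm : LC D m := lc_pm hodd hmm hxy
    have hLe := lc_mul hD hLa hLm
    have hm0 : 0 < m := Nat.pos_of_ne_zero (by rintro rfl; simp at hmm; omega)
    have haP : 0 < a.toNat := by omega
    have hJa : jacobiSym (a.toNat : ℤ) 5 = -1 := by
      have h1 := jac_pm hprime5 (h5d _ hLa.1)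
      rcases mul_self_eq_one_iff.1 h1 with h2 | h2
      · exact absurd h2 hJ
      · exact h2
    have hg0 : 0 < (a.toNat).gcd m := Nat.gcd_pos_of_pos_left _ haP
    have ea : a.toNat / (a.toNat).gcd m * (a.toNat).gcd m = a.toNat :=
      Nat.div_mul_cancel (Nat.gcd_dvd_left _ _)
    have em : m / (a.toNat).gcd m * (a.toNat).gcd m = m :=
      Nat.div_mul_cancel (Nat.gcd_dvd_right _ _)
    have hJe : jacobiSym ((a.toNat / (a.toNat).gcd m * (m / (a.toNat).gcd m) : ℕ) : ℤ) 5 = 1 := by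
      have h1 : jacobiSym (((a.toNat / (a.toNat).gcd m * (a.toNat).gcd m : ℕ)) : ℤ) 5 = -1 := by
        rw [ea]; exact hJa
      have h2 : jacobiSym (((m / (a.toNat).gcd m * (a.toNat).gcd m : ℕ)) : ℤ) 5 = -1 := by
        rw [em]; exact hm5
      have h3 := jac_pm hprime5 (h5d _ ((Nat.gcd_dvd_left a.toNat m).trans hLa.1))
      generalize a.toNat / (a.toNat).gcd m = a1 at h1 ⊢
      generalize m / (a.toNat).gcd m = m1 at h2 ⊢
      generalize (a.toNat).gcd m = g at h1 h2 h3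
      rw [Nat.cast_mul, jacobiSym.mul_left] at h1 h2 ⊢
      have h4 : (jacobiSym (a1 : ℤ) 5 * jacobiSym (g : ℤ) 5) *
          (jacobiSym (m1 : ℤ) 5 * jacobiSym (g : ℤ) 5) = 1 := by rw [h1, h2]; norm_num
      linear_combination h4 - (jacobiSym (a1 : ℤ) 5 * jacobiSym (m1 : ℤ) 5) * h3
    have he1 := hC _ hLe.1 hLe.2.1 hLe.2.2 hJe
    have hea : a.toNat / (a.toNat).gcd m = 1 := Nat.eq_one_of_mul_eq_one_right he1
    have hem : m / (a.toNat).gcd m = 1 := Nat.eq_one_of_mul_eq_one_left he1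
    have ham : a.toNat = m := by
      rw [hea, one_mul] at ea
      rw [hem, one_mul] at em
      exact ea.symm.trans em
    have ham' : a = m := by rw [← haN, ham]
    -- the form `(m, m, c)` represents `1`
    have hm4 : (m' : ℤ) = m - 4 * c := by
      have h1 : (m : ℤ) * m' = m * (m - 4 * c) := by
        rw [ham'] at hac
        rw [hac]
        exact_mod_cast hmm
      exact mul_left_cancel₀ (by exact_mod_cast hm0.ne') h1
    have hpar : (x - y) % 2 = 0 := by
      have hmo : (m : ℤ) % 2 = 1 := by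
        have : m % 2 = 1 := by
          rcases Nat.mod_two_eq_zero_or_one m with h0 | h0
          · exfalso
            have : 2 ∣ D := (Nat.dvd_of_mod_eq_zero h0).trans ⟨m', hmm.symm⟩
            omega
          · exact h0
        omega
      have h1 : (m : ℤ) * ((x - y) * (x + y)) = 2 * (2 - 2 * c * y ^ 2) := by
        rw [hm4] at hxy
        linear_combination hxy
      have h2 : (2 : ℤ) ∣ (x - y) * (x + y) := by
        have h3 : (2 : ℤ) ∣ (m : ℤ) * ((x - y) * (x + y)) := ⟨_, h1⟩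
        rcases Int.prime_two.dvd_or_dvd h3 with h4 | h4
        · omega
        · exact h4
      rcases Int.prime_two.dvd_or_dvd h2 with h4 | h4 <;> omega
    obtain ⟨X, hX⟩ : ∃ X, x - y = 2 * X := ⟨(x - y) / 2, by omega⟩
    have hev : ev (a, a, c) X y = 1 := by
      have h1 : 4 * ev (a, a, c) X y = 4 := by
        have hx : x = 2 * X + y := by linarith
        rw [hm4, hx] at hxy
        simp only [ev]
        rw [ham']
        linear_combination hxy
      linarith
    obtain ⟨c', hc', hE'⟩ := princ hodd (by rw [dsc_eqv hE, hQ]) hev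
    exact ⟨c', hc', eqv_trans hE hE'⟩

end OG

open Finset
open Pool.Agent.H757_X15.DD (Fm Crit)
open scoped Classical

/-- C17 (ODDG) -/
theorem t_ODDG : S_ODDG := by
  intro hPM hFU D hD hF hD1 hC R hR
  have hodd : D % 2 = 1 := by rcases hF with h | h <;> omega
  obtain ⟨c0, hc0⟩ : ∃ c0 : ℤ, 1 - 4 * c0 = D := by
    refine ⟨(1 - (D : ℤ)) / 4, ?_⟩
    rcases hF with h | h <;> omega
  obtain ⟨hR1, hR2⟩ := hR
  choose! rep hrep using hR2
  have hP : ((1, 1, c0) : Fo) ∈ F1 D := by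
    show dsc (1, 1, c0) = D
    simp only [dsc]
    linear_combination hc0
  have hrepR : ∀ Q ∈ F1 D, rep Q ∈ R := fun Q hQ => (hrep Q hQ).1.1
  have hrepE : ∀ Q ∈ F1 D, Eqv 1 Q (rep Q) := fun Q hQ => (hrep Q hQ).1.2
  have hrepU : ∀ Q ∈ F1 D, ∀ Q' ∈ R, Eqv 1 Q Q' → Q' = rep Q :=
    fun Q hQ Q' hQ' h => (hrep Q hQ).2 Q' ⟨hQ', h⟩
  have hop : ∀ Q ∈ F1 D, OG.op Q ∈ F1 D := by
    intro Q hQ
    show dsc (OG.op Q) = D
    rw [OG.dsc_op]; exact hQ
  have hopP : Eqv 1 (OG.op (1, 1, c0)) (1, 1, c0) := by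
    obtain ⟨c, h1, h2⟩ := OG.princ (D := D) hodd (Q := OG.op (1, 1, c0)) (hop _ hP)
      (x := 1) (y := 0) (by simp [OG.op, ev])
    have : c = c0 := by linarith
    rwa [this] at h2
  set R0 : Finset Fo := R.filter fun Q => ∀ p ∈ D.primeFactors, chp p Q = 1 with hR0
  have hP0 : rep (1, 1, c0) ∈ R0 := by
    rw [hR0, mem_filter]
    refine ⟨hrepR _ hP, fun p hp => ?_⟩
    have hpp := Nat.prime_of_mem_primeFactors hp
    rw [OG.chp_eqv hD hodd hpp (Nat.dvd_of_mem_primeFactors hp) hP (hrepE _ hP)]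
    have h1 : ¬ (p : ℤ) ∣ 1 := by
      intro h
      have h2 : p ∣ 1 := by exact_mod_cast h
      exact hpp.one_lt.ne' (Nat.dvd_one.1 h2)
    simp only [chp, if_neg h1]
    exact jacobiSym.one_left p
  have heven : Even (R0.erase (rep (1, 1, c0))).card := by
    have hsum : ∑ Q ∈ R0.erase (rep (1, 1, c0)), (1 : ZMod 2) = 0 := by
      refine Finset.sum_involution (fun Q _ => rep (OG.op Q)) ?_ ?_ ?_ ?_
      · intro Q hQ; decide
      · intro Q hQ _ hfix
        rw [mem_erase, hR0, mem_filter] at hQ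
        have hQF : Q ∈ F1 D := hR1 Q hQ.2.1
        have h1 : Eqv 1 Q (OG.op Q) := by
          have := hrepE _ (hop Q hQF)
          rw [hfix] at this
          exact OG.eqv_symm this
        obtain ⟨c, h2, h3⟩ := OG.amb_princ hPM hFU hD hF hD1 hC hQF hQ.2.2 h1
        have h4 : c = c0 := by linarith
        rw [h4] at h3
        exact hQ.1 (hrepU _ hP Q hQ.2.1 (OG.eqv_symm h3))
      · intro Q hQ
        rw [mem_erase, hR0, mem_filter] at hQ
        have hQF : Q ∈ F1 D := hR1 Q hQ.2.1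
        rw [mem_erase, hR0, mem_filter]
        refine ⟨?_, hrepR _ (hop Q hQF), ?_⟩
        · intro h1
          have h2 : Eqv 1 (OG.op Q) (1, 1, c0) := by
            have := hrepE _ (hop Q hQF)
            rw [h1] at this
            exact OG.eqv_trans this (OG.eqv_symm (hrepE _ hP))
          have h3 : Eqv 1 Q (1, 1, c0) := by
            have := OG.eqv_op h2
            rw [OG.op_op] at this
            exact OG.eqv_trans this hopP
          exact hQ.1 (hrepU _ hP Q hQ.2.1 (OG.eqv_symm h3))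
        · intro p hp
          have hpp := Nat.prime_of_mem_primeFactors hp
          rw [OG.chp_eqv hD hodd hpp (Nat.dvd_of_mem_primeFactors hp) (hop Q hQF)
            (hrepE _ (hop Q hQF)), OG.chp_op]
          exact hQ.2.2 p hp
      · intro Q hQ
        rw [mem_erase, hR0, mem_filter] at hQ
        have hQF : Q ∈ F1 D := hR1 Q hQ.2.1
        have hQF' : rep (OG.op Q) ∈ F1 D := hR1 _ (hrepR _ (hop Q hQF))
        refine (hrepU _ (hop _ hQF') Q hQ.2.1 ?_).symm
        have := OG.eqv_op (hrepE _ (hop Q hQF))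
        rw [OG.op_op] at this
        exact OG.eqv_symm this
    rw [Finset.sum_const, nsmul_eq_mul, mul_one] at hsum
    exact (ZMod.natCast_eq_zero_iff_even).1 hsum
  have hcard : R0.card = (R0.erase (rep (1, 1, c0))).card + 1 :=
    (Finset.card_erase_add_one hP0).symm
  rw [hcard]
  exact heven.add_one

end Pool.Agent.H757_X15.CC
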