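import Pool.Agent.H757_X15.StmC2

/-!
# Project X15-C, task C19a: the splitting of `t² - 4 = D u²` and its uniqueness (PM0)
-/

set_option autoImplicit false
set_option linter.unusedVariables false

namespace Pool.Agent.H757_X15.CC

open Finset
open Pool.Agent.H757_X15.DD (Fm Crit)

namespace PM0

theorem sq_parts {a b u : ℕ} (hc : Nat.Coprime a b) (h : a * b = u ^ 2) :
    ∃ x y : ℕ, a = x ^ 2 ∧ b = y ^ 2 ∧ u = x * y := by
  obtain ⟨x, hx⟩ := exists_eq_pow_of_mul_eq_pow (a := a) (b := b) (c := u) (k := 2)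
    (Nat.isUnit_iff.2 hc) h
  obtain ⟨y, hy⟩ := exists_eq_pow_of_mul_eq_pow (a := b) (b := a) (c := u) (k := 2)
    (Nat.isUnit_iff.2 hc.symm) (by rw [mul_comm]; exact h)
  refine ⟨x, y, hx, hy, ?_⟩
  have : u ^ 2 = (x * y) ^ 2 := by rw [← h, hx, hy, mul_pow]
  exact Nat.pow_left_injective (by norm_num : 2 ≠ 0) this

/-- splitting of `D u²` -/
theorem split {D : ℕ} (hD0 : 0 < D) {a b u : ℕ} (hc : Nat.Coprime a b)
    (h : a * b = D * u ^ 2) : ∃ m m' x y : ℕ, m * m' = D ∧ a = m * x ^ 2 ∧ b = m' * y ^ 2 ∧ u = x * y := by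
  have hm : Nat.gcd D a * Nat.gcd D b = D := by
    rw [← Nat.Coprime.gcd_mul D hc, h, Nat.gcd_mul_right_right]
  obtain ⟨a', ha'⟩ := Nat.gcd_dvd_right D a
  obtain ⟨b', hb'⟩ := Nat.gcd_dvd_right D b
  have hsq : a' * b' = u ^ 2 := by
    apply Nat.eq_of_mul_eq_mul_left hD0
    rw [← h]
    conv_rhs => rw [ha', hb']
    conv_lhs => rw [← hm]
    ring
  have hc' : Nat.Coprime a' b' :=
    Nat.Coprime.coprime_dvd_left (Dvd.intro_left _ ha'.symm) (Nat.Coprime.coprime_dvd_right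
      (Dvd.intro_left _ hb'.symm) hc)
  obtain ⟨x, y, hx, hy, hu⟩ := sq_parts hc' hsq
  exact ⟨Nat.gcd D a, Nat.gcd D b, x, y, hm, by rw [← hx]; exact ha', by rw [← hy]; exact hb', hu⟩

/-- parity -/
theorem par {e e' X Y : ℤ} (he : e % 2 = 1) (he' : e' % 2 = 1) (h : e * X ^ 2 - e' * Y ^ 2 = 4) :
    ∃ a : ℤ, X = Y + 2 * a := by
  have h1 : Even (e * X ^ 2 - e' * Y ^ 2) := by rw [h]; decide
  have h2 : ¬ Even e := by rw [Int.even_iff]; omega
  have h3 : ¬ Even e' := by rw [Int.even_iff]; omega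
  rw [Int.even_sub, Int.even_mul, Int.even_mul, Int.even_pow' two_ne_zero, Int.even_pow' two_ne_zero] at h1
  have h4 : Even (X - Y) := by
    rw [Int.even_sub]
    tauto
  obtain ⟨a, ha⟩ := h4
  exact ⟨a, by linarith⟩

/-- the splitting of `t² - D u² = 4` -/
theorem splitting {D : ℕ} (hD0 : 0 < D) (hD4 : D % 4 = 1) {t u : ℤ} (ht : 2 < t) (hu : 0 < u)
    (h : t ^ 2 - D * u ^ 2 = 4) : ∃ (m m' : ℕ) (x y : ℤ), m * m' = D ∧ t + 2 = m * x ^ 2 ∧ t - 2 = m' * y ^ 2 ∧
      u = x * y := by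
  rcases Int.even_or_odd' t with ⟨k, hk | hk⟩
  · -- even
    obtain ⟨a, ha⟩ := par (e := 1) (e' := D) (X := t) (Y := u) (by norm_num) (by omega) (by rw [one_mul]; exact h)
    obtain ⟨l, hl⟩ : ∃ l, u = 2 * l := ⟨k - a, by omega⟩
    have h1 : k ^ 2 - D * l ^ 2 = 1 := by
      subst hk hl
      nlinarith
    have hl2 : l % 2 = 0 := by
      by_contra hcon
      obtain ⟨c, hc⟩ : ∃ c : ℤ, l = 2 * c + 1 := ⟨l / 2, by omega⟩
      obtain ⟨n, hn⟩ : ∃ n : ℤ, (D : ℤ) = 4 * n + 1 := ⟨D / 4, by omega⟩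
      rw [hn, hc] at h1
      have h2 : k ^ 2 = 4 * (n * (2 * c + 1) ^ 2 + c ^ 2 + c) + 2 := by linear_combination h1
      rcases Int.even_or_odd' k with ⟨j, hj | hj⟩
      · rw [hj] at h2
        have : 4 * j ^ 2 = 4 * (n * (2 * c + 1) ^ 2 + c ^ 2 + c) + 2 := by linear_combination h2
        omega
      · rw [hj] at h2
        have : 4 * (j ^ 2 + j) + 1 = 4 * (n * (2 * c + 1) ^ 2 + c ^ 2 + c) + 2 := by linear_combination h2
        omega
    obtain ⟨w, hw⟩ : ∃ w, l = 2 * w := ⟨l / 2, by omega⟩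
    have hk2 : k % 2 = 1 := by
      by_contra hcon
      obtain ⟨c, hc⟩ : ∃ c : ℤ, k = 2 * c := ⟨k / 2, by omega⟩
      rw [hc, hw] at h1
      have : 4 * (c ^ 2 - D * w ^ 2) = 1 := by linear_combination h1
      omega
    obtain ⟨c, hc⟩ : ∃ c : ℤ, k = 2 * c + 1 := ⟨k / 2, by omega⟩
    have hc0 : 0 < c := by omega
    have hw0 : 0 < w := by omega
    obtain ⟨C, rfl⟩ := Int.eq_ofNat_of_zero_le hc0.le
    obtain ⟨W, rfl⟩ := Int.eq_ofNat_of_zero_le hw0.le
    have h3 : (C + 1) * C = D * W ^ 2 := by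
      rw [hc, hw] at h1
      have : 4 * (((C + 1) * C : ℕ) : ℤ) = 4 * ((D * W ^ 2 : ℕ) : ℤ) := by
        push_cast
        linear_combination h1
      exact_mod_cast (mul_left_cancel₀ (by norm_num : (4 : ℤ) ≠ 0) this)
    obtain ⟨m, m', x, y, hm, ha', hb', huxy⟩ := split hD0 (by simp) h3
    refine ⟨m, m', 2 * x, 2 * y, hm, ?_, ?_, ?_⟩
    · have : ((C + 1 : ℕ) : ℤ) = ((m * x ^ 2 : ℕ) : ℤ) := by rw [ha']
      push_cast at this
      rw [hk, hc]
      linear_combination 4 * this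
    · have : ((C : ℕ) : ℤ) = ((m' * y ^ 2 : ℕ) : ℤ) := by rw [← hb']
      push_cast at this
      rw [hk, hc]
      linear_combination 4 * this
    · have : ((W : ℕ) : ℤ) = ((x * y : ℕ) : ℤ) := by rw [huxy]
      push_cast at this
      rw [hl, hw]
      linear_combination 4 * this
  · -- odd
    obtain ⟨A, hA⟩ := Int.eq_ofNat_of_zero_le (show 0 ≤ t + 2 by omega)
    obtain ⟨B, hB⟩ := Int.eq_ofNat_of_zero_le (show 0 ≤ t - 2 by omega)
    obtain ⟨W, rfl⟩ := Int.eq_ofNat_of_zero_le hu.le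
    have h3 : A * B = D * W ^ 2 := by
      have : ((A * B : ℕ) : ℤ) = ((D * W ^ 2 : ℕ) : ℤ) := by
        push_cast
        rw [← hA, ← hB]
        linear_combination h
      exact_mod_cast this
    have hAB : A = B + 4 := by omega
    have hBodd : B % 2 = 1 := by omega
    have hcop : Nat.Coprime A B := by
      rw [hAB, Nat.coprime_self_add_left, show (4 : ℕ) = 2 ^ 2 by norm_num]
      apply Nat.Coprime.pow_left
      exact (Nat.coprime_two_left).2 (Nat.odd_iff.2 hBodd)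
    obtain ⟨m, m', x, y, hm, ha', hb', huxy⟩ := split hD0 hcop h3
    refine ⟨m, m', x, y, hm, ?_, ?_, ?_⟩
    · rw [hA, ha']; push_cast; ring
    · rw [hB, hb']; push_cast; ring
    · rw [huxy]; push_cast; ring

/-- the class of a solution -/
def Cls (D m m' : ℕ) (t' u' : ℤ) : Prop := ∃ z w : ℤ,
  (z ^ 2 - D * w ^ 2 = 4 ∧ t' + 2 = z ^ 2 ∧ u' = z * w) ∨
  (m * z ^ 2 - m' * w ^ 2 = 4 ∧ t' + 2 = m * z ^ 2 ∧ u' = z * w)

/-- multiplication by the fundamental unit exchanges the classes -/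
theorem cls_step {D m m' : ℕ} (hD2 : (D : ℤ) % 2 = 1) (hm : m * m' = D) {t u x y : ℤ}
    (h1 : t + 2 = m * x ^ 2) (h2 : t - 2 = m' * y ^ 2) (h3 : u = x * y) {t'' u'' t' u' : ℤ}
    (hc : Cls D m m' t'' u'') (ht : 2 * t' = t * t'' + D * u * u'') (hu : 2 * u' = t * u'' + u * t'') :
    Cls D m m' t' u' := by
  have hm2 : (m : ℤ) % 2 = 1 ∧ (m' : ℤ) % 2 = 1 := by
    have hD' : D % 2 = 1 := by omega
    rw [← hm, Nat.mul_mod] at hD'
    have a1 : m % 2 = 0 ∨ m % 2 = 1 := by omega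
    have a2 : m' % 2 = 0 ∨ m' % 2 = 1 := by omega
    rcases a1 with a1 | a1 <;> rcases a2 with a2 | a2 <;> rw [a1, a2] at hD' <;> omega
  have hmD : (m : ℤ) * m' = D := by exact_mod_cast hm
  obtain ⟨b, hb⟩ := par hm2.1 hm2.2 (X := x) (Y := y) (by linarith)
  obtain ⟨z, w, ⟨g1, g2, g3⟩ | ⟨g1, g2, g3⟩⟩ := hc
  · -- class of one to the class of `m`
    obtain ⟨a, ha⟩ := par (e := 1) (e' := D) (X := z) (Y := w) (by norm_num) hD2 (by rw [one_mul]; exact g1)
    obtain ⟨c, hcm⟩ : ∃ c : ℤ, (m' : ℤ) = 2 * c + 1 := ⟨m' / 2, by omega⟩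
    obtain ⟨c', hcm'⟩ : ∃ c' : ℤ, (m : ℤ) = 2 * c' + 1 := ⟨m / 2, by omega⟩
    obtain ⟨Z, hZ⟩ : ∃ Z : ℤ, 2 * Z = x * z + m' * y * w :=
      ⟨y * w + a * y + b * w + 2 * a * b + c * y * w, by rw [ha, hb, hcm]; ring⟩
    obtain ⟨W, hW⟩ : ∃ W : ℤ, 2 * W = m * x * w + y * z :=
      ⟨y * w + b * w + c' * x * w + a * y, by rw [ha, hb, hcm']; ring⟩
    have key : (m : ℤ) * Z ^ 2 - m' * W ^ 2 = 4 := by
      have e1 : 4 * ((m : ℤ) * Z ^ 2 - m' * W ^ 2) = 4 * 4 := by
        have : 4 * ((m : ℤ) * Z ^ 2 - m' * W ^ 2) = m * (2 * Z) ^ 2 - m' * (2 * W) ^ 2 := by ring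
        rw [this, hZ, hW]
        have h4 : (m : ℤ) * x ^ 2 - m' * y ^ 2 = 4 := by linarith
        have g1' : z ^ 2 - (m * m') * w ^ 2 = 4 := by rw [hmD]; exact g1
        linear_combination (z ^ 2 - m * m' * w ^ 2) * h4 + 4 * g1'
      linarith
    refine ⟨Z, W, Or.inr ⟨key, ?_, ?_⟩⟩
    · have e2 : 4 * (2 * t') = 4 * ((m : ℤ) * Z ^ 2 + m' * W ^ 2) := by
        have : 4 * ((m : ℤ) * Z ^ 2 + m' * W ^ 2) = m * (2 * Z) ^ 2 + m' * (2 * W) ^ 2 := by ring
        rw [this, hZ, hW, ht, h3, g3]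
        have t1 : 2 * t = m * x ^ 2 + m' * y ^ 2 := by linarith
        have t2 : 2 * t'' = z ^ 2 + (m * m') * w ^ 2 := by rw [hmD]; linarith
        rw [← hmD]
        linear_combination (2 * t'') * t1 + (m * x ^ 2 + m' * y ^ 2) * t2
      linarith
    · have e3 : 4 * (2 * u') = 4 * (2 * (Z * W)) := by
        have : 4 * (2 * (Z * W)) = 2 * ((2 * Z) * (2 * W)) := by ring
        rw [this, hZ, hW, hu, h3, g3]
        have t1 : 2 * t = m * x ^ 2 + m' * y ^ 2 := by linarith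
        have t2 : 2 * t'' = z ^ 2 + (m * m') * w ^ 2 := by rw [hmD]; linarith
        linear_combination (2 * z * w) * t1 + (2 * x * y) * t2
      linarith
  · -- class of `m` to the class of one
    obtain ⟨a, ha⟩ := par hm2.1 hm2.2 (X := z) (Y := w) g1
    obtain ⟨c, hcm⟩ : ∃ c : ℤ, (m' : ℤ) = 2 * c + 1 := ⟨m' / 2, by omega⟩
    obtain ⟨c', hcm'⟩ : ∃ c' : ℤ, (m : ℤ) = 2 * c' + 1 := ⟨m / 2, by omega⟩
    obtain ⟨Z, hZ⟩ : ∃ Z : ℤ, 2 * Z = m * x * z + m' * y * w :=
      ⟨y * w + c' * x * z + c * y * w + a * y + b * w + 2 * a * b, by rw [ha, hb, hcm, hcm']; ring⟩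
    obtain ⟨W, hW⟩ : ∃ W : ℤ, 2 * W = x * w + y * z :=
      ⟨y * w + b * w + a * y, by rw [ha, hb]; ring⟩
    have key : Z ^ 2 - (D : ℤ) * W ^ 2 = 4 := by
      have e1 : 4 * (Z ^ 2 - (D : ℤ) * W ^ 2) = 4 * 4 := by
        have : 4 * (Z ^ 2 - (D : ℤ) * W ^ 2) = (2 * Z) ^ 2 - D * (2 * W) ^ 2 := by ring
        rw [this, hZ, hW, ← hmD]
        have h4 : (m : ℤ) * x ^ 2 - m' * y ^ 2 = 4 := by linarith
        linear_combination (m * z ^ 2 - m' * w ^ 2) * h4 + 4 * g1
      linarith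
    refine ⟨Z, W, Or.inl ⟨key, ?_, ?_⟩⟩
    · have e2 : 4 * (2 * t') = 4 * (Z ^ 2 + (D : ℤ) * W ^ 2) := by
        have : 4 * (Z ^ 2 + (D : ℤ) * W ^ 2) = (2 * Z) ^ 2 + D * (2 * W) ^ 2 := by ring
        rw [this, hZ, hW, ht, h3, g3, ← hmD]
        have t1 : 2 * t = m * x ^ 2 + m' * y ^ 2 := by linarith
        have t2 : 2 * t'' = m * z ^ 2 + m' * w ^ 2 := by linarith
        linear_combination (2 * t'') * t1 + (m * x ^ 2 + m' * y ^ 2) * t2
      linarith
    · have e3 : 4 * (2 * u') = 4 * (2 * (Z * W)) := by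
        have : 4 * (2 * (Z * W)) = 2 * ((2 * Z) * (2 * W)) := by ring
        rw [this, hZ, hW, hu, h3, g3]
        have t1 : 2 * t = m * x ^ 2 + m' * y ^ 2 := by linarith
        have t2 : 2 * t'' = m * z ^ 2 + m' * w ^ 2 := by linarith
        linear_combination (2 * z * w) * t1 + (2 * x * y) * t2
      linarith

theorem lt_of_sq_lt_sq {a b : ℤ} (h : a ^ 2 < b ^ 2) (hb : 0 ≤ b) : a < b := by
  by_contra hcon
  push Not at hcon
  nlinarith

theorem le_of_sq_le_sq' {a b : ℤ} (h : a ^ 2 ≤ b ^ 2) (hb : 0 ≤ b) : a ≤ b := by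
  by_contra hcon
  push Not at hcon
  nlinarith

/-- every solution has a class -/
theorem cls_all {D m m' : ℕ} (hD2 : (D : ℤ) % 2 = 1) (hm : m * m' = D) {t u x y : ℤ} (hF : Fund D t u)
    (h1 : t + 2 = m * x ^ 2) (h2 : t - 2 = m' * y ^ 2) (h3 : u = x * y) :
    ∀ (n : ℕ) (t' u' : ℤ), u'.natAbs = n → 0 < t' → 0 ≤ u' → t' ^ 2 - D * u' ^ 2 = 4 → Cls D m m' t' u' := by
  have hD0 : (0 : ℤ) < D := by omega
  intro n
  induction n using Nat.strong_induction_on with
  | _ n ih =>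
    intro t' u' hn ht' hu' h
    rcases hu'.eq_or_lt with hu0 | hu0
    · -- `u' = 0`
      subst hu0
      have ht2 : t' = 2 := by nlinarith
      subst ht2
      exact ⟨2, 0, Or.inl ⟨by norm_num, by norm_num, by norm_num⟩⟩
    · have htt : t ≤ t' := hF.min t' u' ht' hu0 h
      have huu : u ≤ u' := by
        by_contra hcon
        push Not at hcon
        have e1 := hF.eq
        have : t' ^ 2 < t ^ 2 := by nlinarith [mul_pos hD0 (show (0 : ℤ) < u ^ 2 - u' ^ 2 by nlinarith)]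
        nlinarith [hF.post]
      have htp := hF.post
      have hup := hF.posu
      have hFe := hF.eq
      obtain ⟨a, ha⟩ := par (e := 1) (e' := D) (X := t) (Y := u) (by norm_num) hD2 (by rw [one_mul]; exact hFe)
      obtain ⟨b, hb⟩ := par (e := 1) (e' := D) (X := t') (Y := u') (by norm_num) hD2 (by rw [one_mul]; exact h)
      obtain ⟨c, hcD⟩ : ∃ c : ℤ, (D : ℤ) = 2 * c + 1 := ⟨D / 2, by omega⟩
      obtain ⟨T, hT⟩ : ∃ T : ℤ, 2 * T = t * t' - D * u * u' :=
        ⟨a * u' + b * u + 2 * a * b - c * u * u', by rw [ha, hb, hcD]; ring⟩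
      obtain ⟨U, hU⟩ : ∃ U : ℤ, 2 * U = t * u' - u * t' :=
        ⟨a * u' - b * u, by rw [ha, hb]; ring⟩
      have hTU : T ^ 2 - D * U ^ 2 = 4 := by
        have : 4 * (T ^ 2 - D * U ^ 2) = 4 * 4 := by
          have : 4 * (T ^ 2 - D * U ^ 2) = (2 * T) ^ 2 - D * (2 * U) ^ 2 := by ring
          rw [this, hT, hU]
          linear_combination (t' ^ 2 - D * u' ^ 2) * hFe + 4 * h
        linarith
      -- positivity of T
      have hTpos : 0 < T := by
        have q1 : (D * u * u') ^ 2 < (t * t') ^ 2 := by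
          have : (t * t') ^ 2 = (4 + D * u ^ 2) * (4 + D * u' ^ 2) := by
            rw [mul_pow, show t ^ 2 = 4 + D * u ^ 2 by linarith, show t' ^ 2 = 4 + D * u' ^ 2 by linarith]
          rw [this]
          nlinarith [mul_nonneg hD0.le (sq_nonneg u), mul_nonneg hD0.le (sq_nonneg u')]
        have q2 : D * u * u' < t * t' := by
          exact lt_of_sq_lt_sq q1 (by positivity)
        linarith
      have hUnn : 0 ≤ U := by
        have q1 : (u * t') ^ 2 ≤ (t * u') ^ 2 := by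
          rw [mul_pow, mul_pow, show t ^ 2 = 4 + D * u ^ 2 by linarith, show t' ^ 2 = 4 + D * u' ^ 2 by linarith]
          nlinarith
        have q2 : u * t' ≤ t * u' := by
          exact le_of_sq_le_sq' q1 (by positivity)
        linarith
      have hUlt : U < u' := by
        have q1 : ((t - 2) * u') ^ 2 < (u * t') ^ 2 := by
          rw [mul_pow, mul_pow, show t' ^ 2 = 4 + D * u' ^ 2 by linarith]
          have ht2 : 2 < t := by nlinarith [mul_pos hD0 (mul_pos hup hup)]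
          have A1 : (t - 2) ^ 2 < D * u ^ 2 := by nlinarith
          have A2 : (t - 2) ^ 2 * u' ^ 2 < D * u ^ 2 * u' ^ 2 := mul_lt_mul_of_pos_right A1 (by positivity)
          have A3 : u ^ 2 * (4 + D * u' ^ 2) = D * u ^ 2 * u' ^ 2 + 4 * u ^ 2 := by ring
          have A4 : 0 < u ^ 2 := by positivity
          linarith
        have q2 : (t - 2) * u' < u * t' := by
          exact lt_of_sq_lt_sq q1 (by positivity)
        linarith
      have hIH := ih U.natAbs (by omega) T U rfl hTpos hUnn hTU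
      refine cls_step hD2 hm h1 h2 h3 hIH ?_ ?_
      · have : 2 * (2 * t') = 2 * (t * T + D * u * U) := by
          have e1 : 2 * (t * T + D * u * U) = t * (2 * T) + D * u * (2 * U) := by ring
          rw [e1, hT, hU]
          linear_combination (-t') * hFe
        linarith
      · have : 2 * (2 * u') = 2 * (t * U + u * T) := by
          have e1 : 2 * (t * U + u * T) = t * (2 * U) + u * (2 * T) := by ring
          rw [e1, hT, hU]
          linear_combination (-u') * hFe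
        linarith

/-- squarefree parts, natural numbers -/
theorem sqf_dvd {e m X z : ℕ} (he : Squarefree e) (hX : 0 < X) (hz : 0 < z)
    (h : e * X ^ 2 = m * z ^ 2) (hm0 : 0 < m) : e ∣ m := by
  rw [← Nat.factorization_le_iff_dvd he.ne_zero hm0.ne']
  intro p
  have h1 : (e * X ^ 2).factorization p = (m * z ^ 2).factorization p := by rw [h]
  rw [Nat.factorization_mul he.ne_zero (pow_ne_zero 2 hX.ne'), Nat.factorization_mul hm0.ne' (pow_ne_zero 2 hz.ne'),
    Nat.factorization_pow, Nat.factorization_pow] at h1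
  simp only [Finsupp.add_apply, Finsupp.smul_apply, smul_eq_mul] at h1
  have h2 := he.natFactorization_le_one p
  omega

theorem sqf_nat {e m X z : ℕ} (he : Squarefree e) (hm : Squarefree m) (hX : 0 < X) (hz : 0 < z)
    (h : e * X ^ 2 = m * z ^ 2) : e = m :=
  Nat.dvd_antisymm (sqf_dvd he hX hz h (Nat.pos_of_ne_zero hm.ne_zero))
    (sqf_dvd hm hz hX h.symm (Nat.pos_of_ne_zero he.ne_zero))

/-- squarefree parts -/
theorem sqf_eq {e m : ℕ} (he : Squarefree e) (hm : Squarefree m) {X z : ℤ} (hX : X ≠ 0)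
    (h : (e : ℤ) * X ^ 2 = m * z ^ 2) : e = m := by
  have hz : z ≠ 0 := by
    rintro rfl
    have : (e : ℤ) * X ^ 2 = 0 := by rw [h]; ring
    rcases mul_eq_zero.1 this with h0 | h0
    · exact he.ne_zero (by exact_mod_cast h0)
    · exact hX (pow_eq_zero_iff (two_ne_zero) |>.1 h0)
  have hN : e * X.natAbs ^ 2 = m * z.natAbs ^ 2 := by
    have : ((e * X.natAbs ^ 2 : ℕ) : ℤ) = ((m * z.natAbs ^ 2 : ℕ) : ℤ) := by
      push_cast
      rw [sq_abs, sq_abs]
      exact h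
    exact_mod_cast this
  exact sqf_nat he hm (by omega) (by omega) hN

end PM0

/-- C19a: the splitting and its uniqueness -/
theorem t_PM0 : S_PM0 := by
  intro D hsq hFm hD1 t u hF
  have hD4 : D % 4 = 1 := by
    rcases hFm with h | h <;> omega
  have hD0 : 0 < D := by omega
  have hD0' : (0 : ℤ) < D := by exact_mod_cast hD0
  have hup := hF.posu
  have htp := hF.post
  have ht2 : 2 < t := by
    have := hF.eq
    nlinarith [mul_pos hD0' (mul_pos hup hup)]
  obtain ⟨m, m', x, y, hm, h1, h2, h3⟩ := PM0.splitting hD0 hD4 ht2 hup hF.eq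
  have hmsq : Squarefree m := hsq.squarefree_of_dvd (Dvd.intro _ hm)
  refine ⟨m, m', x, y, hm, ?_, h1, h2, h3, by linarith, ?_⟩
  · -- `m ≠ 1` by minimality
    rintro rfl
    have hm' : m' = D := by rw [← hm, one_mul]
    subst hm'
    rw [Nat.cast_one, one_mul] at h1
    have hy0 : y ≠ 0 := by
      rintro rfl
      rw [mul_zero] at h3
      omega
    have hx0 : x ≠ 0 := by
      rintro rfl
      rw [zero_mul] at h3
      omega
    have h4 := hF.min |x| |y| (abs_pos.2 hx0) (abs_pos.2 hy0) (by rw [sq_abs, sq_abs]; linarith)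
    have h5 : |x| ^ 2 = t + 2 := by rw [sq_abs, h1]
    nlinarith
  · intro e e' he ⟨X, Y, hXY⟩
    have hesq : Squarefree e := hsq.squarefree_of_dvd (Dvd.intro _ he)
    have heD : (e : ℤ) * e' = D := by exact_mod_cast he
    have hX0 : X ≠ 0 := by
      rintro rfl
      have : (0 : ℤ) ≤ (e' : ℤ) * Y ^ 2 := by positivity
      linarith
    have hXY' : (e : ℤ) * |X| ^ 2 - e' * |Y| ^ 2 = 4 := by rw [sq_abs, sq_abs]; exact hXY
    have hc := PM0.cls_all (D := D) (m := m) (m' := m') (by omega) hm hF h1 h2 h3 (|X| * |Y|).natAbs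
      ((e : ℤ) * |X| ^ 2 - 2) (|X| * |Y|) rfl
      (by have : (0 : ℤ) ≤ (e' : ℤ) * |Y| ^ 2 := by positivity
          linarith)
      (by positivity)
      (by rw [← heD]; linear_combination ((e : ℤ) * |X| ^ 2) * hXY')
    have hX0' : |X| ≠ 0 := abs_ne_zero.2 hX0
    obtain ⟨z, w, ⟨_, g, _⟩ | ⟨_, g, _⟩⟩ := hc
    · left
      exact PM0.sqf_eq hesq squarefree_one hX0' (z := z) (by rw [Nat.cast_one, one_mul]; linarith)
    · right
      exact PM0.sqf_eq hesq hmsq hX0' (z := z) (by linarith)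

end Pool.Agent.H757_X15.CC
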