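import Pool.Agent.H757_X15.StmC

/-!
# C16: the fundamental unit and the criterion
-/

set_option autoImplicit false

namespace Pool.Agent.H757_X15.CC

open Pool.Agent.H757_X15.DD (Fm Crit)

namespace Pm

/-- squares from a product of naturals -/
theorem split {a b U : ℕ} (ha : 0 < a) (h : a * b = U ^ 2) :
    ∃ d r s : ℕ, a = d * r ^ 2 ∧ b = d * s ^ 2 ∧ U = d * (r * s) := by
  set d := Nat.gcd a b with hd
  have hd0 : 0 < d := Nat.gcd_pos_of_pos_left _ ha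
  obtain ⟨a1, ha1⟩ := Nat.gcd_dvd_left a b
  obtain ⟨b1, hb1⟩ := Nat.gcd_dvd_right a b
  rw [← hd] at ha1 hb1
  have hcop : Nat.Coprime a1 b1 := by
    have h1 : Nat.gcd (d * a1) (d * b1) = d := by rw [← ha1, ← hb1]
    rw [Nat.gcd_mul_left] at h1
    exact Nat.eq_of_mul_eq_mul_left hd0 (by rw [h1, mul_one])
  have h2 : d ^ 2 ∣ U ^ 2 := ⟨a1 * b1, by rw [← h]; nth_rewrite 1 [ha1]; nth_rewrite 1 [hb1]; ring⟩
  obtain ⟨w, hw⟩ := (Nat.pow_dvd_pow_iff two_ne_zero).1 h2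
  have h3 : a1 * b1 = w ^ 2 := by
    have h4 : d ^ 2 * (a1 * b1) = d ^ 2 * w ^ 2 := by
      have : a * b = d ^ 2 * (a1 * b1) := by nth_rewrite 1 [ha1]; nth_rewrite 1 [hb1]; ring
      rw [← this, h, hw]; ring
    exact Nat.eq_of_mul_eq_mul_left (by positivity) h4
  have u1 : IsUnit (gcd a1 b1) := by
    rw [Nat.isUnit_iff]; exact hcop
  have u2 : IsUnit (gcd b1 a1) := by
    rw [Nat.isUnit_iff]; exact hcop.symm
  obtain ⟨r, hr⟩ := exists_eq_pow_of_mul_eq_pow u1 h3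
  obtain ⟨s, hs⟩ := exists_eq_pow_of_mul_eq_pow u2 (by rw [mul_comm]; exact h3)
  refine ⟨d, r, s, by rw [← hr]; exact ha1, by rw [← hs]; exact hb1, ?_⟩
  have h5 : w ^ 2 = (r * s) ^ 2 := by rw [← h3, hr, hs]; ring
  have h6 : w = r * s := Nat.pow_left_injective two_ne_zero h5
  rw [hw, h6]

theorem dvd4 {d : ℕ} (h : d ∣ 4) : d = 1 ∨ d = 2 ∨ d = 4 := by
  have h0 : 0 < d := Nat.pos_of_dvd_of_pos h (by norm_num)
  have h4 : d ≤ 4 := Nat.le_of_dvd (by norm_num) h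
  interval_cases d
  · left; rfl
  · right; left; rfl
  · omega
  · right; right; rfl

theorem mod4 {m m' : ℕ} (h : m * m' % 4 = 1) : m % 4 = m' % 4 ∧ (m % 4 = 1 ∨ m % 4 = 3) := by
  rw [Nat.mul_mod] at h
  have e1 : m % 4 = 0 ∨ m % 4 = 1 ∨ m % 4 = 2 ∨ m % 4 = 3 := by omega
  have e2 : m' % 4 = 0 ∨ m' % 4 = 1 ∨ m' % 4 = 2 ∨ m' % 4 = 3 := by omega
  rcases e1 with e1 | e1 | e1 | e1 <;> rcases e2 with e2 | e2 | e2 | e2 <;> rw [e1, e2] at h ⊢ <;>
    omega

theorem sq4 (r : ℕ) : r ^ 2 % 4 = 0 ∨ r ^ 2 % 4 = 1 := by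
  rw [Nat.pow_mod]
  have e1 : r % 4 = 0 ∨ r % 4 = 1 ∨ r % 4 = 2 ∨ r % 4 = 3 := by omega
  rcases e1 with e1 | e1 | e1 | e1 <;> rw [e1] <;> norm_num

theorem no2 {m m' r s : ℕ} (h8 : m * m' % 4 = 1) (h6 : m * r ^ 2 = m' * s ^ 2 + 2) : False := by
  obtain ⟨k1, k2⟩ := mod4 h8
  have h9 : (m * r ^ 2) % 4 = (m' * s ^ 2 + 2) % 4 := by rw [h6]
  rw [Nat.mul_mod, Nat.add_mod, Nat.mul_mod m', ← k1] at h9
  rcases k2 with k2 | k2 <;> rcases sq4 r with h10 | h10 <;> rcases sq4 s with h11 | h11 <;>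
    rw [k2, h10, h11] at h9 <;> omega

theorem core_nat {D P N U : ℕ} (hsq : Squarefree D) (h4 : D % 4 = 1) (hN : 0 < N)
    (hPN : P = N + 4) (h : P * N = D * U ^ 2) :
    ∃ m m' x y : ℕ, m * m' = D ∧ P = m * x ^ 2 ∧ N = m' * y ^ 2 ∧ U = x * y := by
  have hD0 : 0 < D := by omega
  obtain ⟨m, hm⟩ : ∃ m, m = Nat.gcd D P := ⟨_, rfl⟩
  have hm0 : 0 < m := by rw [hm]; exact Nat.gcd_pos_of_pos_left _ hD0
  obtain ⟨m', hm'⟩ := Nat.gcd_dvd_left D P
  obtain ⟨a, ha⟩ := Nat.gcd_dvd_right D P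
  rw [← hm] at hm' ha
  have hcop : Nat.Coprime m m' := Nat.coprime_of_squarefree_mul (by rw [← hm']; exact hsq)
  have hcP : Nat.Coprime m' P := by
    have h1 : Nat.gcd m' P ∣ m := by
      rw [hm]
      exact Nat.dvd_gcd ((Nat.gcd_dvd_left _ _).trans ⟨m, by rw [mul_comm]; exact hm'⟩)
        (Nat.gcd_dvd_right _ _)
    have h2 : Nat.gcd m' P ∣ m' := Nat.gcd_dvd_left _ _
    exact Nat.eq_one_of_dvd_coprimes hcop h1 h2
  have hmN : m' ∣ N := by
    have h1 : m' ∣ P * N := by rw [h, hm']; exact ⟨m * U ^ 2, by ring⟩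
    exact hcP.dvd_of_dvd_mul_left h1
  obtain ⟨b, hb⟩ := hmN
  have hm'0 : 0 < m' := Nat.pos_of_ne_zero (by rintro rfl; omega)
  have ha0 : 0 < a := Nat.pos_of_ne_zero (by rintro rfl; omega)
  have hab : a * b = U ^ 2 := by
    have h1 : (m * m') * (a * b) = (m * m') * U ^ 2 := by
      calc (m * m') * (a * b) = (m * a) * (m' * b) := by ring
        _ = P * N := by rw [← ha, ← hb]
        _ = D * U ^ 2 := h
        _ = (m * m') * U ^ 2 := by rw [← hm']
    exact Nat.eq_of_mul_eq_mul_left (by positivity) h1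
  obtain ⟨d, r, s, hr, hs, hU⟩ := split ha0 hab
  have h5 : m * (d * r ^ 2) = m' * (d * s ^ 2) + 4 := by
    rw [← hr, ← hs, ← ha, ← hb]; exact hPN
  have hd4 : d ∣ 4 := by
    have e1 : d ∣ m' * (d * s ^ 2) + 4 := by rw [← h5]; exact ⟨m * r ^ 2, by ring⟩
    have e2 : d ∣ m' * (d * s ^ 2) := ⟨m' * s ^ 2, by ring⟩
    exact (Nat.dvd_add_right e2).1 e1
  rcases dvd4 hd4 with rfl | rfl | rfl
  · exact ⟨m, m', r, s, hm'.symm, by rw [ha, hr, one_mul], by rw [hb, hs, one_mul],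
      by rw [hU, one_mul]⟩
  · exfalso
    refine no2 (m := m) (m' := m') (r := r) (s := s) (by rw [← hm']; exact h4) ?_
    nlinarith
  · exact ⟨m, m', 2 * r, 2 * s, hm'.symm, by rw [ha, hr]; ring, by rw [hb, hs]; ring,
      by rw [hU]; ring⟩

/-- `m x² ≡ 4` modulo `p` -/
theorem jac_one {p : ℕ} (hp : p.Prime) (hp2 : p ≠ 2) {m x : ℤ} (h : (p : ℤ) ∣ m * x ^ 2 - 4) :
    jacobiSym m p = 1 := by
  have h1 : jacobiSym (m * x ^ 2) p = jacobiSym (2 ^ 2) p := by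
    apply jacobiSym.mod_left'
    have h2 : (2 : ℤ) ^ 2 ≡ m * x ^ 2 [ZMOD p] := Int.modEq_iff_dvd.2 (by norm_num; exact h)
    exact h2.symm
  have h3 : jacobiSym (2 ^ 2) p = 1 := by
    apply jacobiSym.sq_one'
    have : Nat.Coprime 2 p := (Nat.coprime_primes Nat.prime_two hp).2 (Ne.symm hp2)
    exact this
  rw [h3, jacobiSym.mul_left, jacobiSym.pow_left] at h1
  rcases jacobiSym.trichotomy x p with h4 | h4 | h4 <;> rw [h4] at h1 <;> norm_num at h1 <;> exact h1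

theorem jac5 (D : ℕ) (h : Fm D) : jacobiSym D 5 = 1 := by
  have h1 : (D : ℤ) % 5 = 1 ∨ (D : ℤ) % 5 = 4 := by
    rcases h with h | h <;> omega
  rw [jacobiSym.mod_left]
  rcases h1 with h1 | h1
  · have : (D : ℤ) % ((5 : ℕ) : ℤ) = 1 := h1
    rw [this]; norm_num
  · have : (D : ℤ) % ((5 : ℕ) : ℤ) = 4 := h1
    rw [this]; norm_num

end Pm

theorem t_PM : S_PM := by
  intro D hsq hFm hD1 hCrit t u hF
  have hDm : D % 4 = 1 := by rcases hFm with h | h <;> omega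
  have hD5 : 5 ≤ D := by
    rcases hFm with h | h <;> omega
  have ht2 : 2 < t := by
    have h1 := hF.eq
    have h2 := hF.post
    have h3 := hF.posu
    have h4 : (5 : ℤ) ≤ D := by exact_mod_cast hD5
    have h5 : 1 ≤ u ^ 2 := by nlinarith
    nlinarith
  obtain ⟨N, hN⟩ : ∃ N : ℕ, (N : ℤ) = t - 2 := ⟨(t - 2).toNat, by omega⟩
  obtain ⟨U, hU⟩ : ∃ U : ℕ, (U : ℤ) = u := ⟨u.toNat, by have := hF.posu; omega⟩
  have hprod : (N + 4) * N = D * U ^ 2 := by
    have h1 : (((N + 4) * N : ℕ) : ℤ) = ((D * U ^ 2 : ℕ) : ℤ) := by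
      push_cast
      rw [hN, hU]
      linear_combination hF.eq
    exact_mod_cast h1
  obtain ⟨m, m', x, y, hmm, hx, hy, hxy⟩ := Pm.core_nat hsq hDm (by omega) rfl hprod
  have hx' : t + 2 = m * (x : ℤ) ^ 2 := by
    have : ((N + 4 : ℕ) : ℤ) = ((m * x ^ 2 : ℕ) : ℤ) := by rw [hx]
    push_cast at this
    linarith
  have hy' : t - 2 = m' * (y : ℤ) ^ 2 := by
    have : ((N : ℕ) : ℤ) = ((m' * y ^ 2 : ℕ) : ℤ) := by rw [← hy]
    push_cast at this
    linarith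
  have hu' : u = (x : ℤ) * y := by
    rw [← hU, hxy]; push_cast; ring
  have h4 : (m : ℤ) * (x : ℤ) ^ 2 - m' * (y : ℤ) ^ 2 = 4 := by linarith
  have hodd : ∀ p : ℕ, p ∣ D → p ≠ 2 := by
    rintro p hp rfl
    omega
  -- the criterion
  have hm5 : jacobiSym m 5 ≠ 1 := by
    intro h5
    have hm1 : m = 1 := by
      refine hCrit m ⟨m', hmm.symm⟩ ?_ ?_ h5
      · intro p hp hpD hpm
        have hpm' : p ∣ m' := by
          rw [← hmm] at hpD
          exact (hp.dvd_mul.1 hpD).resolve_left hpm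
        refine Pm.jac_one hp (hodd p hpD) (x := x) ?_
        have : (m : ℤ) * (x : ℤ) ^ 2 - 4 = m' * (y : ℤ) ^ 2 := by linarith
        rw [this]
        exact Dvd.dvd.mul_right (by exact_mod_cast hpm') _
      · intro p hp hpm
        have hpD : p ∣ D := by rw [← hmm]; exact Dvd.dvd.mul_right hpm _
        have hdiv : D / m = m' := by
          rw [← hmm]
          exact Nat.mul_div_cancel_left _ (Nat.pos_of_ne_zero (by rintro rfl; omega))
        rw [hdiv]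
        refine Pm.jac_one hp (hodd p hpD) (x := y) ?_
        have : -(m' : ℤ) * (y : ℤ) ^ 2 - 4 = -(m * (x : ℤ) ^ 2) := by linarith
        rw [this, dvd_neg]
        exact Dvd.dvd.mul_right (by exact_mod_cast hpm) _
    have hm'D : m' = D := by rw [← hmm, hm1, one_mul]
    rw [hm1, hm'D] at h4
    have hx0 : 0 < (x : ℤ) := by
      have : u ≠ 0 := hF.posu.ne'
      rw [hu'] at this
      have h6 := left_ne_zero_of_mul this
      positivity
    have hy0 : 0 < (y : ℤ) := by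
      have : u ≠ 0 := hF.posu.ne'
      rw [hu'] at this
      have h6 := right_ne_zero_of_mul this
      positivity
    have hle := hF.min x y hx0 hy0 (by push_cast at h4; linarith)
    rw [hm1] at hx'
    push_cast at hx'
    nlinarith
  have hprod5 : jacobiSym m 5 * jacobiSym m' 5 = 1 := by
    rw [← jacobiSym.mul_left, ← Nat.cast_mul, hmm]
    exact Pm.jac5 D hFm
  have hm5' : jacobiSym m 5 = -1 := by
    rcases jacobiSym.trichotomy m 5 with h | h | h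
    · rw [h, zero_mul] at hprod5; omega
    · exact absurd h hm5
    · exact h
  refine ⟨m, m', x, y, hmm, hx', hy', hu', h4, hm5', ?_⟩
  rw [hm5'] at hprod5
  linarith

theorem t_PELL : S_PELL := by
  intro hPM D hsq hFm hD1 hCrit r hr t u hF Q hQ
  obtain ⟨m, m', x, y, hmm, hx, hy, hu, h4, hm5, hm5'⟩ := hPM D hsq hFm hD1 hCrit t u hF
  obtain ⟨A, B, C⟩ := Q
  obtain ⟨hd, hA, hB3, hB5⟩ := hQ
  simp only [dsc] at hd
  simp only at hA
  have hDm : D % 4 = 1 := by rcases hFm with h | h <;> omega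
  have hBodd : B % 2 = 1 := by
    have h1 : (B ^ 2) % 2 = 1 := by
      have : B ^ 2 = D + 4 * (A * C) := by linarith
      rw [this]; omega
    rcases Int.emod_two_eq_zero_or_one B with h | h
    · exfalso
      obtain ⟨k, hk⟩ : ∃ k, B = 2 * k := ⟨B / 2, by omega⟩
      rw [hk] at h1
      have : (2 * k) ^ 2 = 2 * (2 * k ^ 2) := by ring
      rw [this] at h1
      omega
    · exact h
  have htu : t % 2 = u % 2 := by
    have h1 := hF.eq
    have h2 : (t ^ 2 - D * u ^ 2) % 2 = 0 := by rw [h1]; norm_num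
    have h3 : (D : ℤ) = 2 * ((D : ℤ) / 2) + 1 := by omega
    have h5 : t ^ 2 - D * u ^ 2 = t ^ 2 - u ^ 2 - 2 * ((D : ℤ) / 2 * u ^ 2) := by
      nth_rewrite 1 [h3]; ring
    rcases Int.emod_two_eq_zero_or_one t with ht | ht <;>
      rcases Int.emod_two_eq_zero_or_one u with hu | hu
    · rw [ht, hu]
    · exfalso
      obtain ⟨k, hk⟩ : ∃ k, t = 2 * k := ⟨t / 2, by omega⟩
      obtain ⟨l, hl⟩ : ∃ l, u = 2 * l + 1 := ⟨u / 2, by omega⟩
      rw [h5, hk, hl] at h2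
      have : (2 * k) ^ 2 - (2 * l + 1) ^ 2 - 2 * ((D : ℤ) / 2 * (2 * l + 1) ^ 2) =
        2 * (2 * k ^ 2 - 2 * l ^ 2 - 2 * l - ((D : ℤ) / 2 * (2 * l + 1) ^ 2)) - 1 := by ring
      rw [this] at h2
      omega
    · exfalso
      obtain ⟨k, hk⟩ : ∃ k, t = 2 * k + 1 := ⟨t / 2, by omega⟩
      obtain ⟨l, hl⟩ : ∃ l, u = 2 * l := ⟨u / 2, by omega⟩
      rw [h5, hk, hl] at h2
      have : (2 * k + 1) ^ 2 - (2 * l) ^ 2 - 2 * ((D : ℤ) / 2 * (2 * l) ^ 2) =
        2 * (2 * k ^ 2 + 2 * k - 2 * l ^ 2 - ((D : ℤ) / 2 * (2 * l) ^ 2)) + 1 := by ring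
      rw [this] at h2
      omega
    · rw [ht, hu]
  obtain ⟨e, he⟩ : ∃ e, t + B * u = 2 * e := by
    refine ⟨(t + B * u) / 2, ?_⟩
    have : (t + B * u) % 2 = 0 := by
      rw [Int.add_emod, Int.mul_emod, hBodd, htu, one_mul, Int.emod_emod_of_dvd _ (dvd_refl _)]
      omega
    omega
  have hdQ : dQ t u (A, B, C) = e := by
    simp only [dQ]
    rw [he]; omega
  rw [hdQ]
  -- the congruence
  have hcong : (5 : ℤ) ∣ e ^ 2 - t * e + 1 := by
    obtain ⟨A', hA'⟩ := hA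
    have h1 : 4 * (e ^ 2 - t * e + 1) = 4 * (5 * (3 * A' * C * u ^ 2)) := by
      have e1 : B * u = 2 * e - t := by linarith
      have e2 : (B * u) ^ 2 = D * u ^ 2 + 4 * (A * C) * u ^ 2 := by
        have : B ^ 2 = D + 4 * (A * C) := by linarith
        rw [mul_pow, this]; ring
      rw [e1, hA'] at e2
      have e3 := hF.eq
      linear_combination e2 - e3
    exact ⟨3 * A' * C * u ^ 2, by linarith⟩
  by_contra hodd
  have he15 : e % 15 = 1 ∨ e % 15 = 14 ∨ e % 15 = 4 ∨ e % 15 = 11 := by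
    by_contra hne
    push Not at hne
    apply hodd
    unfold log4
    rw [if_neg (by omega)]
    by_cases h2 : e % 15 = 2 ∨ e % 15 = 13
    · rw [if_pos h2]; exact odd_one
    · rw [if_neg h2, if_neg (by omega)]; decide
  have he5 : e % 5 = 1 ∨ e % 5 = 4 := by omega
  rcases he5 with he5 | he5
  · -- `m x² = 4`
    have h1 : jacobiSym m 5 = 1 := by
      refine Pm.jac_one (p := 5) (by norm_num) (by norm_num) (x := x) ?_
      rw [← hx]
      obtain ⟨k, hk⟩ : ∃ k, e = 5 * k + 1 := ⟨e / 5, by omega⟩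
      rw [hk] at hcong
      have h2 : (5 * k + 1) ^ 2 - t * (5 * k + 1) + 1 = 5 * (5 * k ^ 2 + 2 * k - t * k) - (t - 2) := by
        ring
      rw [h2] at hcong
      push_cast
      omega
    rw [h1] at hm5
    omega
  · have h1 : jacobiSym m' 5 = 1 := by
      refine Pm.jac_one (p := 5) (by norm_num) (by norm_num) (x := 2 * y) ?_
      have h3 : (m' : ℤ) * (2 * y) ^ 2 - 4 = 4 * (t - 2) - 4 := by rw [hy]; ring
      rw [h3]
      obtain ⟨k, hk⟩ : ∃ k, e = 5 * k - 1 := ⟨e / 5 + 1, by omega⟩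
      rw [hk] at hcong
      have h2 : (5 * k - 1) ^ 2 - t * (5 * k - 1) + 1 = 5 * (5 * k ^ 2 - 2 * k - t * k) + (t + 2) := by
        ring
      rw [h2] at hcong
      push_cast
      omega
    rw [h1] at hm5'
    omega

end Pool.Agent.H757_X15.CC
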