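import Pool.Agent.H757_X15.StmC

/-!
# X15-C11 (R5): the coherent choice of the square roots modulo `5`
-/

set_option autoImplicit false
set_option linter.unusedVariables false

namespace Pool.Agent.H757_X15.CC

open Finset
open Pool.Agent.H757_X15.DD (Fm Crit)
open Pool.Agent.H757_X15.BB (chi4 wt c2 loc dis RR pii rg S_BIL)

open scoped Classical

namespace R5aux

/-- the number of the prime factors which are `± 2` modulo `5` -/
noncomputable def nn (D : ℕ) : ℕ := (D.primeFactors.filter fun p => p % 5 = 2 ∨ p % 5 = 3).card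

theorem cast_mod5 (p : ℕ) : (p : ZMod 5) = ((p % 5 : ℕ) : ZMod 5) := by
  rw [ZMod.natCast_mod]

theorem sq5_sq (p : ℕ) (hp : p % 5 ≠ 0) :
    (p : ZMod 5) = sq5 p ^ 2 * (if p % 5 = 2 ∨ p % 5 = 3 then 2 else 1) := by
  rw [cast_mod5 p]
  unfold sq5
  have h : p % 5 = 1 ∨ p % 5 = 2 ∨ p % 5 = 3 ∨ p % 5 = 4 := by omega
  rcases h with h | h | h | h <;> rw [h] <;> decide

theorem not_dvd {D : ℕ} (hD : Fm D) {p : ℕ} (hp : p ∈ D.primeFactors) : p % 5 ≠ 0 := by
  intro h
  have h1 : 5 ∣ p := Nat.dvd_of_mod_eq_zero h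
  have h2 : p ∣ D := Nat.dvd_of_mem_primeFactors hp
  have h3 : 5 ∣ D := h1.trans h2
  rcases hD with h4 | h4 <;> omega

theorem prod_eq {D : ℕ} (hs : Squarefree D) (hD : Fm D) :
    (D : ZMod 5) = (∏ p ∈ D.primeFactors, sq5 p) ^ 2 * 2 ^ nn D := by
  have h1 : (D : ZMod 5) = ∏ p ∈ D.primeFactors, (p : ZMod 5) := by
    conv_lhs => rw [← Nat.prod_primeFactors_of_squarefree hs]
    rw [Nat.cast_prod]
  rw [h1, Finset.prod_congr rfl (fun p hp => sq5_sq p (not_dvd hD hp)), Finset.prod_mul_distrib,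
    Finset.prod_pow]
  congr 1
  rw [Finset.prod_ite, Finset.prod_const, Finset.prod_const_one, mul_one]
  rfl

theorem prod_sq (s : Finset ℕ) : (∏ p ∈ s, sq5 p) ^ 2 = 1 ∨ (∏ p ∈ s, sq5 p) ^ 2 = 4 := by
  induction s using Finset.induction_on with
  | empty => left; simp
  | insert a s ha ih =>
    rw [Finset.prod_insert ha, mul_pow]
    have h1 : sq5 a ^ 2 = 1 ∨ sq5 a ^ 2 = 4 := by
      unfold sq5
      split_ifs
      · left; decide
      · right; decide
    rcases h1 with h1 | h1 <;> rcases ih with ih | ih <;> rw [h1, ih]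
    · left; decide
    · right; decide
    · right; decide
    · left; decide

theorem even_nn {D : ℕ} (hs : Squarefree D) (hD : Fm D) : nn D % 2 = 0 := by
  have h1 := prod_eq hs hD
  have h2 : (D : ZMod 5) = 1 ∨ (D : ZMod 5) = 4 := by
    rw [cast_mod5 D]
    rcases hD with h | h
    · left
      have : D % 5 = 1 := by omega
      rw [this]
      rfl
    · right
      have : D % 5 = 4 := by omega
      rw [this]
      rfl
  by_contra hne
  obtain ⟨k, hk⟩ : ∃ k, nn D = 2 * k + 1 := ⟨nn D / 2, by omega⟩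
  have h3 : ∀ k : ℕ, (4 : ZMod 5) ^ k = 1 ∨ (4 : ZMod 5) ^ k = 4 := by
    intro k
    induction k with
    | zero => left; rfl
    | succ k ih =>
      rw [pow_succ]
      rcases ih with ih | ih <;> rw [ih]
      · right; rfl
      · left; rfl
  have h4 : (2 : ZMod 5) ^ nn D = 4 ^ k * 2 := by
    rw [hk, pow_succ, pow_mul]
    congr 2
  rw [h4] at h1
  rcases h2 with h2 | h2 <;> rcases prod_sq D.primeFactors with h5 | h5 <;>
    rcases h3 k with h6 | h6 <;> rw [h2, h5, h6] at h1 <;> revert h1 <;> decide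

theorem r5_eq (D : ℕ) : r5 D = (∏ p ∈ D.primeFactors, sq5 p) * 2 ^ (nn D / 2) := rfl

theorem r5_sq {D : ℕ} (hs : Squarefree D) (hD : Fm D) : r5 D ^ 2 = (D : ZMod 5) := by
  rw [prod_eq hs hD, r5_eq, mul_pow, ← pow_mul]
  congr 2
  have := even_nn hs hD
  omega

theorem nn_mul {D1 D2 : ℕ} (h1 : Squarefree D1) (h2 : Squarefree D2) (hc : Nat.Coprime D1 D2) :
    nn (D1 * D2) = nn D1 + nn D2 := by
  unfold nn
  rw [hc.primeFactors_mul, Finset.filter_union, Finset.card_union_of_disjoint]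
  exact Finset.disjoint_filter_filter hc.disjoint_primeFactors

theorem r5_mul {D1 D2 : ℕ} (h1 : Squarefree D1) (f1 : Fm D1) (h2 : Squarefree D2) (f2 : Fm D2)
    (hc : Nat.Coprime D1 D2) : r5 (D1 * D2) = r5 D1 * r5 D2 := by
  rw [r5_eq, r5_eq, r5_eq, nn_mul h1 h2 hc, hc.primeFactors_mul,
    Finset.prod_union hc.disjoint_primeFactors]
  have e1 := even_nn h1 f1
  have e2 := even_nn h2 f2
  have e3 : (nn D1 + nn D2) / 2 = nn D1 / 2 + nn D2 / 2 := by omega
  rw [e3, pow_add]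
  ring

theorem PI_one : PI 1 = 1 := by
  have h1 : r5 1 = 1 := by
    rw [r5_eq]
    simp [nn]
  unfold PI
  rw [h1, mul_one]
  decide +kernel

end R5aux

theorem t_R5 : S_R5 :=
  ⟨fun _ hs hD => R5aux.r5_sq hs hD, fun _ _ h1 f1 h2 f2 hc => R5aux.r5_mul h1 f1 h2 f2 hc,
    R5aux.PI_one⟩

end Pool.Agent.H757_X15.CC
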