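import Pool.Agent.H757_X15.StmC

/-!
# Project X15-C, C12b: the parity of the crossing homomorphism of `Γ₀(5)`

`t_RPAR : S_RPAR`, `t_RQ : S_RQ`.
-/

set_option autoImplicit false
set_option linter.unusedVariables false

namespace Pool.Agent.H757_X15.CC

open Finset

noncomputable section

namespace RPar

/-- the sign of a matrix modulo `2` -/
def s2 (a b c d : ZMod 2) : ℤ := if a + d = 1 ∨ (b = 0 ∧ c = 0) then 1 else -1

theorem s2_mul : ∀ a b c d a' b' c' d' : ZMod 2, a * d - b * c = 1 → a' * d' - b' * c' = 1 →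
    s2 (a * a' + b * c') (a * b' + b * d') (c * a' + d * c') (c * b' + d * d') =
      s2 a b c d * s2 a' b' c' d' := by
  unfold s2
  decide

/-- the sign of `rho` -/
def e1 (a b c d : ℤ) : ℤ := if Even (rho a b c d) then 1 else -1

/-- the expected sign -/
def e2 (a b c d : ℤ) : ℤ := jacobiSym d 5 * s2 a b c d

/-- the matrices of `Γ₀(5)` for which the signs agree -/
def P (a b c d : ℤ) : Prop := e1 a b c d = e2 a b c d

theorem e1_mul (h : S_RHO) (a b c d a' b' c' d' : ℤ) (hd : a * d - b * c = 1) (hc : 5 ∣ c)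
    (hd' : a' * d' - b' * c' = 1) (hc' : 5 ∣ c') :
    e1 (a * a' + b * c') (a * b' + b * d') (c * a' + d * c') (c * b' + d * d') =
      e1 a b c d * e1 a' b' c' d' := by
  have hr := h.1 a b c d a' b' c' d' hd hc hd' hc'
  unfold e1
  rw [hr]
  generalize rho a b c d = x
  generalize rho a' b' c' d' = y
  by_cases h1 : Even x <;> by_cases h2 : Even y <;> simp [h1, h2, Int.even_add]

theorem e2_mul (a b c d a' b' c' d' : ℤ) (hd : a * d - b * c = 1) (hc : 5 ∣ c)
    (hd' : a' * d' - b' * c' = 1) :
    e2 (a * a' + b * c') (a * b' + b * d') (c * a' + d * c') (c * b' + d * d') =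
      e2 a b c d * e2 a' b' c' d' := by
  unfold e2
  have h1 : jacobiSym (c * b' + d * d') 5 = jacobiSym d 5 * jacobiSym d' 5 := by
    rw [← jacobiSym.mul_left]
    apply jacobiSym.mod_left'
    obtain ⟨k, rfl⟩ := hc
    push_cast
    rw [show 5 * k * b' + d * d' = d * d' + 5 * (k * b') by ring, Int.add_mul_emod_self_left]
  have h2 := s2_mul (a : ZMod 2) b c d a' b' c' d' (by exact_mod_cast congrArg (Int.cast : ℤ → ZMod 2) hd)
    (by exact_mod_cast congrArg (Int.cast : ℤ → ZMod 2) hd')
  push_cast
  rw [h1, h2]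
  ring

theorem e1_ne (a b c d : ℤ) : e1 a b c d ≠ 0 := by
  unfold e1
  split_ifs <;> norm_num

/-- cancellation -/
theorem P_cancel (h : S_RHO) (a b c d a' b' c' d' : ℤ) (hd : a * d - b * c = 1) (hc : 5 ∣ c)
    (hd' : a' * d' - b' * c' = 1) (hc' : 5 ∣ c') (h' : P a' b' c' d')
    (hp : P (a * a' + b * c') (a * b' + b * d') (c * a' + d * c') (c * b' + d * d')) :
    P a b c d := by
  unfold P at *
  rw [e1_mul h a b c d a' b' c' d' hd hc hd' hc', e2_mul a b c d a' b' c' d' hd hc hd', h'] at hp
  exact mul_right_cancel₀ (by rw [← h']; exact e1_ne _ _ _ _) hp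

theorem P_mul (h : S_RHO) (a b c d a' b' c' d' : ℤ) (hd : a * d - b * c = 1) (hc : 5 ∣ c)
    (hd' : a' * d' - b' * c' = 1) (hc' : 5 ∣ c') (h1 : P a b c d) (h' : P a' b' c' d') :
    P (a * a' + b * c') (a * b' + b * d') (c * a' + d * c') (c * b' + d * d') := by
  unfold P at *
  rw [e1_mul h a b c d a' b' c' d' hd hc hd' hc', e2_mul a b c d a' b' c' d' hd hc hd', h', h1]

theorem rho_one (h : S_RHO) : rho 1 0 0 1 = 0 := by
  have := h.1 1 0 0 1 1 0 0 1 (by norm_num) (by norm_num) (by norm_num) (by norm_num)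
  norm_num at this
  omega

theorem jac_one : jacobiSym 1 5 = 1 := jacobiSym.one_left 5

theorem P_T (h : S_RHO) : P 1 1 0 1 := by
  unfold P e1 e2 s2
  rw [h.2.1, jac_one]
  simp

theorem P_one (h : S_RHO) : P 1 0 0 1 := by
  unfold P e1 e2 s2
  rw [rho_one h, jac_one]
  simp

theorem P_Tinv (h : S_RHO) : P 1 (-1) 0 1 := by
  refine P_cancel h 1 (-1) 0 1 1 1 0 1 (by norm_num) (by norm_num) (by norm_num) (by norm_num)
    (P_T h) ?_
  norm_num
  exact P_one h

theorem P_Tn (h : S_RHO) (n : ℤ) : P 1 n 0 1 := by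
  induction n using Int.induction_on with
  | zero => exact P_one h
  | succ n ih =>
    have := P_mul h 1 n 0 1 1 1 0 1 (by norm_num) (by norm_num) (by norm_num) (by norm_num) ih
      (P_T h)
    norm_num at this
    rwa [add_comm] at this
  | pred n ih =>
    have := P_mul h 1 (-n) 0 1 1 (-1) 0 1 (by norm_num) (by norm_num) (by norm_num) (by norm_num)
      ih (P_Tinv h)
    norm_num at this
    convert this using 1
    ring

theorem jac_neg1 : jacobiSym (-1) 5 = 1 := by decide +kernel
theorem jac_2 : jacobiSym 2 5 = -1 := by decide +kernel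
theorem jac_neg2 : jacobiSym (-2) 5 = -1 := by decide +kernel

theorem P_neg (h : S_RHO) : P (-1) 0 0 (-1) := by
  unfold P e1 e2 s2
  rw [h.2.2.1, jac_neg1]
  simp

theorem P_e1 (h : S_RHO) : P 2 (-1) 5 (-2) := by
  unfold P e1 e2 s2
  rw [h.2.2.2.1, jac_neg2]
  simp
  decide

theorem P_e2 (h : S_RHO) : P (-2) (-1) 5 2 := by
  unfold P e1 e2 s2
  rw [h.2.2.2.2, jac_2]
  simp
  decide

theorem P_L (h : S_RHO) : P 1 0 5 1 := by
  have h1 := P_mul h 2 (-1) 5 (-2) 1 1 0 1 (by norm_num) (by norm_num) (by norm_num) (by norm_num)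
    (P_e1 h) (P_T h)
  norm_num at h1
  have h2 := P_mul h 2 1 5 3 (-2) (-1) 5 2 (by norm_num) (by norm_num) (by norm_num)
    (by norm_num) h1 (P_e2 h)
  norm_num at h2
  exact h2

theorem P_Linv (h : S_RHO) : P 1 0 (-5) 1 := by
  refine P_cancel h 1 0 (-5) 1 1 0 5 1 (by norm_num) (by norm_num) (by norm_num) (by norm_num)
    (P_L h) ?_
  norm_num
  exact P_one h

/-- one step of the descent: `(x, y; z, w)` is one of the four matrices -/
theorem step (h : S_RHO) (x y z w : ℤ) (hdet : x * w - y * z = 1) (hz : 5 ∣ z) (hP : P x y z w)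
    (a b c d n : ℤ) (hd : a * d - b * c = 1) (hc : 5 ∣ c)
    (ih : ∀ a' b' c' d' : ℤ, c'.natAbs < c.natAbs → a' * d' - b' * c' = 1 → 5 ∣ c' → P a' b' c' d')
    (hlt : (c * x + (d + n * c) * z).natAbs < c.natAbs) : P a b c d := by
  have hd1 : a * (d + n * c) - (b + n * a) * c = 1 := by linear_combination hd
  have h1 : P a (b + n * a) c (d + n * c) := by
    refine P_cancel h a (b + n * a) c (d + n * c) x y z w hd1 hc hdet hz hP ?_
    refine ih _ _ _ _ hlt ?_ (dvd_add (Dvd.dvd.mul_right hc _) (Dvd.dvd.mul_left hz _))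
    linear_combination (x * w - y * z) * hd1 + hdet
  have h2 := P_mul h a (b + n * a) c (d + n * c) 1 (-n) 0 1 hd1 hc (by norm_num) (by norm_num) h1
    (P_Tn h (-n))
  have e1 : a * 1 + (b + n * a) * 0 = a := by ring
  have e2 : a * (-n) + (b + n * a) * 1 = b := by ring
  have e3 : c * 1 + (d + n * c) * 0 = c := by ring
  have e4 : c * (-n) + (d + n * c) * 1 = d := by ring
  rwa [e1, e2, e3, e4] at h2

theorem main (h : S_RHO) : ∀ (k : ℕ) (a b c d : ℤ), c.natAbs = k → a * d - b * c = 1 → 5 ∣ c →
    P a b c d := by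
  intro k
  induction k using Nat.strong_induction_on with
  | _ k ih =>
    intro a b c d hk hd hc
    have ih' : ∀ a' b' c' d' : ℤ, c'.natAbs < c.natAbs → a' * d' - b' * c' = 1 → 5 ∣ c' →
        P a' b' c' d' := fun a' b' c' d' hlt h1 h2 => ih _ (hk ▸ hlt) a' b' c' d' rfl h1 h2
    by_cases hc0 : c = 0
    · subst hc0
      have had : a * d = 1 := by linear_combination hd
      rcases Int.eq_one_or_neg_one_of_mul_eq_one had with rfl | rfl
      · have : d = 1 := by linarith
        subst this
        exact P_Tn h b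
      · have : d = -1 := by linarith
        subst this
        have := P_mul h (-1) 0 0 (-1) 1 (-b) 0 1 (by norm_num) (by norm_num) (by norm_num)
          (by norm_num) (P_neg h) (P_Tn h (-b))
        norm_num at this
        exact this
    · -- the remainder of `d` modulo `|c|`
      have hcpos : 0 < |c| := abs_pos.2 hc0
      obtain ⟨n, r, hr, hr0, hr1⟩ : ∃ n r : ℤ, d + n * c = r ∧ 0 ≤ r ∧ r < |c| := by
        refine ⟨-(d / c), d % c, ?_, Int.emod_nonneg _ hc0, Int.emod_lt_abs _ hc0⟩
        have := Int.emod_add_mul_ediv d c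
        linarith [mul_comm (d / c) c]
      have hr2 : r ≠ 0 := by
        intro h0
        have h1 : c ∣ d := ⟨-n, by rw [h0] at hr; linarith⟩
        have h2 : c ∣ 1 := by
          rw [← hd]
          exact dvd_sub (Dvd.dvd.mul_left h1 _) (Dvd.intro_left _ rfl)
        have h3 : (5 : ℤ) ∣ 1 := hc.trans h2
        norm_num at h3
      have hrpos : 0 < r := lt_of_le_of_ne hr0 (Ne.symm hr2)
      have key : ∀ (x y z w : ℤ) (m : ℤ), x * w - y * z = 1 → 5 ∣ z → P x y z w →
          |c * x + (d + m * c) * z| < |c| → P a b c d := by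
        intro x y z w m h1 h2 h3 h4
        refine step h x y z w h1 h2 h3 a b c d m hd hc ih' ?_
        zify
        exact h4
      rcases lt_or_gt_of_ne hc0 with hneg | hpos
      · -- `c < 0`
        rw [abs_of_neg hneg] at hr1
        by_cases q1 : 5 * r < -2 * c
        · -- `0 < r/|c| < 2/5`
          refine key 1 0 5 1 n (by norm_num) (by norm_num) (P_L h) ?_
          rw [hr, abs_of_neg hneg, abs_lt]
          constructor <;> linarith
        · by_cases q2 : 5 * r < -3 * c
          · refine key 2 (-1) 5 (-2) n (by norm_num) (by norm_num) (P_e1 h) ?_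
            rw [hr, abs_of_neg hneg, abs_lt]
            constructor <;> linarith
          · by_cases q3 : 5 * r < -4 * c
            · refine key (-2) (-1) 5 2 (n + 1) (by norm_num) (by norm_num) (P_e2 h) ?_
              rw [show d + (n + 1) * c = r + c by rw [← hr]; ring, abs_of_neg hneg, abs_lt]
              constructor <;> linarith
            · refine key 1 0 (-5) 1 (n + 1) (by norm_num) (by norm_num) (P_Linv h) ?_
              rw [show d + (n + 1) * c = r + c by rw [← hr]; ring, abs_of_neg hneg, abs_lt]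
              constructor <;> linarith
      · rw [abs_of_pos hpos] at hr1
        by_cases q1 : 5 * r < 2 * c
        · refine key 1 0 (-5) 1 n (by norm_num) (by norm_num) (P_Linv h) ?_
          rw [hr, abs_of_pos hpos, abs_lt]
          constructor <;> linarith
        · by_cases q2 : 5 * r < 3 * c
          · refine key (-2) (-1) 5 2 n (by norm_num) (by norm_num) (P_e2 h) ?_
            rw [hr, abs_of_pos hpos, abs_lt]
            constructor <;> linarith
          · by_cases q3 : 5 * r < 4 * c
            · refine key 2 (-1) 5 (-2) (n - 1) (by norm_num) (by norm_num) (P_e1 h) ?_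
              rw [show d + (n - 1) * c = r - c by rw [← hr]; ring, abs_of_pos hpos, abs_lt]
              constructor <;> linarith
            · refine key 1 0 5 1 (n - 1) (by norm_num) (by norm_num) (P_L h) ?_
              rw [show d + (n - 1) * c = r - c by rw [← hr]; ring, abs_of_pos hpos, abs_lt]
              constructor <;> linarith

theorem cast2 (x : ℤ) : (x : ZMod 2) = 0 ↔ Even x := by
  rw [even_iff_two_dvd]
  exact_mod_cast ZMod.intCast_zmod_eq_zero_iff_dvd x 2

theorem cast2' (x : ℤ) : (x : ZMod 2) = 1 ↔ ¬ Even x := by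
  rw [← cast2]
  generalize (x : ZMod 2) = y
  revert y
  decide

end RPar

open RPar in
theorem t_RPAR : S_RPAR := by
  intro h a b c d hd hc
  have hP := main h _ a b c d rfl hd hc
  unfold P e1 e2 s2 at hP
  have h1 : ((a : ZMod 2) + d = 1 ∨ ((b : ZMod 2) = 0 ∧ (c : ZMod 2) = 0)) ↔
      (¬ Even (a + d) ∨ (Even b ∧ Even c)) := by
    rw [cast2, cast2, ← cast2']
    push_cast
    rfl
  have hd5 : jacobiSym d 5 ≠ 0 := by
    rw [Ne, jacobiSym.eq_zero_iff_not_coprime, not_not]
    have h2 : IsCoprime d (5 : ℤ) := by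
      obtain ⟨k, rfl⟩ := hc
      exact ⟨a, -(b * k), by linear_combination hd⟩
    exact_mod_cast Int.isCoprime_iff_gcd_eq_one.1 h2
  have h3 : jacobiSym d 5 = 1 ∨ jacobiSym d 5 = -1 := by
    rcases jacobiSym.trichotomy d 5 with h | h | h
    · exact absurd h hd5
    · exact Or.inl h
    · exact Or.inr h
  by_cases h5 : ((a : ZMod 2) + d = 1 ∨ ((b : ZMod 2) = 0 ∧ (c : ZMod 2) = 0))
  · rw [if_pos h5] at hP
    rw [h1] at h5
    by_cases h4 : Even (rho a b c d)
    · rw [if_pos h4] at hP
      rcases h3 with h3 | h3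
      · exact iff_of_true h4 (iff_of_true h3 h5)
      · rw [h3] at hP; norm_num at hP
    · rw [if_neg h4] at hP
      rcases h3 with h3 | h3
      · rw [h3] at hP; norm_num at hP
      · refine iff_of_false h4 ?_
        rw [h3]
        intro h
        have := h.2 h5
        norm_num at this
  · rw [if_neg h5] at hP
    rw [h1] at h5
    by_cases h4 : Even (rho a b c d)
    · rw [if_pos h4] at hP
      rcases h3 with h3 | h3
      · rw [h3] at hP; norm_num at hP
      · refine iff_of_true h4 (iff_of_false ?_ h5)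
        rw [h3]; norm_num
    · rw [if_neg h4] at hP
      rcases h3 with h3 | h3
      · exact iff_of_false h4 (fun h => h5 (h.1 h3))
      · rw [h3] at hP; norm_num at hP

open RPar in
theorem t_RQ : S_RQ := by
  intro hpar hrho D hD t u htu Q hQ h5
  obtain ⟨A, B, C⟩ := Q
  simp only [dsc] at hQ
  simp only [dQ] at *
  have hDodd : (D : ℤ) % 2 = 1 := by omega
  have hB : B % 2 = 1 := by
    rcases Int.emod_two_eq_zero_or_one B with h | h
    · exfalso
      obtain ⟨k, hk⟩ := Int.dvd_of_emod_eq_zero h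
      rw [hk] at hQ
      have : (D : ℤ) = 2 * (2 * k ^ 2 - 2 * (A * C)) := by linear_combination -hQ
      omega
    · exact h
  have htu2 : t % 2 = u % 2 := by
    have h1 : (t ^ 2 - D * u ^ 2) % 2 = 0 := by rw [htu]; norm_num
    rcases Int.emod_two_eq_zero_or_one t with h | h <;>
      rcases Int.emod_two_eq_zero_or_one u with h' | h' <;>
      simp [h, h', sq, Int.sub_emod, Int.mul_emod, hDodd] at h1 ⊢
  have he1 : 2 ∣ t - B * u := by
    rw [Int.dvd_iff_emod_eq_zero, Int.sub_emod, Int.mul_emod, hB, htu2]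
    rcases Int.emod_two_eq_zero_or_one u with h' | h' <;> simp [h']
  have he2 : 2 ∣ t + B * u := by
    rw [Int.dvd_iff_emod_eq_zero, Int.add_emod, Int.mul_emod, hB, htu2]
    rcases Int.emod_two_eq_zero_or_one u with h' | h' <;> simp [h']
  obtain ⟨x, hx⟩ := he1
  obtain ⟨y, hy⟩ := he2
  rw [hx, hy, Int.mul_ediv_cancel_left _ (by norm_num), Int.mul_ediv_cancel_left _ (by norm_num)]
  have hdet : x * y - -(C * u) * (A * u) = 1 := by
    have : 4 * (x * y - -(C * u) * (A * u)) = 4 * 1 := by
      have e : (2 * x) * (2 * y) = (t - B * u) * (t + B * u) := by rw [← hx, ← hy]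
      linear_combination e + htu - u ^ 2 * hQ
    linarith
  rw [hpar hrho x (-(C * u)) (A * u) y hdet (Dvd.dvd.mul_right h5 u)]
  have htr : ¬ Even (x + y) ∨ (Even (-(C * u)) ∧ Even (A * u)) := by
    have e : x + y = t := by linarith
    rw [e]
    by_cases ht : Even t
    · right
      have hu : Even u := by
        rw [Int.even_iff] at ht ⊢
        omega
      exact ⟨(hu.mul_left C).neg, hu.mul_left A⟩
    · exact Or.inl ht
  constructor
  · intro hh
    exact hh.2 htr
  · intro hh
    exact ⟨fun _ => htr, fun _ => hh⟩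

end

end Pool.Agent.H757_X15.CC
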