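import Pool.Agent.H757_X15.StmC

/-!
# C12a: the crossing homomorphism of `Γ₀(5)`
-/

set_option autoImplicit false

namespace Pool.Agent.H757_X15.CC

open scoped Classical

namespace Rho

theorem ev_def (q : Fo) (x y : ℤ) : ev q x y = q.1 * x ^ 2 + q.2.1 * (x * y) + q.2.2 * y ^ 2 := rfl

theorem act_one (q : Fo) : act q 1 0 0 1 = q := by
  obtain ⟨A, B, C⟩ := q
  simp [act, ev]

theorem act_act (q : Fo) (a b c d a' b' c' d' : ℤ) :
    act (act q a b c d) a' b' c' d' =
      act q (a * a' + b * c') (a * b' + b * d') (c * a' + d * c') (c * b' + d * d') := by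
  obtain ⟨A, B, C⟩ := q
  simp only [act, ev, Prod.mk.injEq]
  refine ⟨?_, ?_, ?_⟩ <;> ring

theorem dsc_act (q : Fo) (a b c d : ℤ) (h : a * d - b * c = 1) : dsc (act q a b c d) = dsc q := by
  obtain ⟨A, B, C⟩ := q
  have : dsc (act (A, B, C) a b c d) = (a * d - b * c) ^ 2 * dsc (A, B, C) := by
    simp only [act, ev, dsc]; ring
  rw [this, h]; ring

theorem G5_act {q : Fo} (hq : G5 q) {a b c d : ℤ} (h : a * d - b * c = 1) (hc : 5 ∣ c) :
    G5 (act q a b c d) := by
  obtain ⟨h1, h2, h3⟩ := hq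
  obtain ⟨A, B, C⟩ := q
  refine ⟨by rw [dsc_act _ _ _ _ _ h]; exact h1, ?_, ?_⟩
  · simp only [act, ev]
    simp only at h2
    obtain ⟨A', rfl⟩ := h2
    obtain ⟨c', rfl⟩ := hc
    exact ⟨A' * a ^ 2 + B * (a * c') + C * (5 * c' ^ 2), by ring⟩
  · simp only [act]
    simp only at h2 h3
    obtain ⟨A', rfl⟩ := h2
    obtain ⟨c', rfl⟩ := hc
    have h4 : 2 * (5 * A' * (a * b)) + B * (a * d + b * (5 * c')) + 2 * (C * (5 * c' * d)) =
        B + 10 * (A' * (a * b) + B * (b * c') + C * (c' * d)) := by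
      have : a * d = 1 + b * (5 * c') := by linarith
      rw [this]; ring
    rw [h4]
    omega

theorem G5_act_iff {q : Fo} {a b c d : ℤ} (h : a * d - b * c = 1) (hc : 5 ∣ c) :
    G5 (act q a b c d) ↔ G5 q := by
  constructor
  · intro h1
    have h2 := G5_act (a := d) (b := -b) (c := -c) (d := a) h1 (by linarith) (dvd_neg.2 hc)
    rw [act_act] at h2
    have e1 : a * d + b * -c = 1 := by linarith
    have e2 : a * -b + b * a = 0 := by ring
    have e3 : c * d + d * -c = 0 := by ring
    have e4 : c * -b + d * a = 1 := by linarith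
    rw [e1, e2, e3, e4, act_one] at h2
    exact h2
  · intro h1; exact G5_act h1 h hc

/-- the action as a permutation of the forms -/
def perm (a b c d : ℤ) (h : a * d - b * c = 1) : Fo ≃ Fo where
  toFun q := act q a b c d
  invFun q := act q d (-b) (-c) a
  left_inv q := by
    show act (act q a b c d) d (-b) (-c) a = q
    rw [act_act]
    have e1 : a * d + b * -c = 1 := by linarith
    have e2 : a * -b + b * a = 0 := by ring
    have e3 : c * d + d * -c = 0 := by ring
    have e4 : c * -b + d * a = 1 := by linarith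
    rw [e1, e2, e3, e4, act_one]
  right_inv q := by
    show act (act q d (-b) (-c) a) a b c d = q
    rw [act_act]
    have e1 : d * a + -b * c = 1 := by linarith
    have e2 : d * b + -b * d = 0 := by ring
    have e3 : -c * a + a * c = 0 := by ring
    have e4 : -c * b + a * d = 1 := by linarith
    rw [e1, e2, e3, e4, act_one]

theorem s5_ne {q : Fo} (hq : G5 q) : s5 q ≠ 0 := by
  obtain ⟨A, B, C⟩ := q
  obtain ⟨h1, h2, h3⟩ := hq
  simp only [dsc] at h1
  simp only at h2 h3
  simp only [s5]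
  intro h
  have hA : A = -(B + 2 * C) := by linarith
  have h4 : (B + 2 * C) ^ 2 + 4 * C ^ 2 = 1 := by rw [hA] at h1; linarith
  have hC : C = 0 := by
    by_contra hne
    have : 1 ≤ C ^ 2 := by
      have := sq_nonneg C
      have h5 : C ^ 2 ≠ 0 := pow_ne_zero 2 hne
      omega
    nlinarith [sq_nonneg (B + 2 * C)]
  subst hC
  have hB : A = -B := by linarith
  omega

/-- the sign of `s5` -/
theorem s5_sign {q : Fo} (hq : G5 q) (hA : q.1 ≠ 0) : 0 < q.1 * s5 q := by
  obtain ⟨A, B, C⟩ := q
  obtain ⟨h1, h2, h3⟩ := hq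
  simp only [dsc] at h1
  simp only at hA
  simp only [s5]
  have h4 : 2 * (A * (A + B + 2 * C)) = (A + B) ^ 2 + A ^ 2 - 1 := by linear_combination -h1
  have h5 : 1 ≤ A ^ 2 := by
    have := sq_nonneg A
    have h5 : A ^ 2 ≠ 0 := pow_ne_zero 2 hA
    omega
  have h6 : 0 ≤ A * (A + B + 2 * C) := by nlinarith [sq_nonneg (A + B)]
  rcases lt_or_eq_of_le h6 with h7 | h7
  · exact h7
  · exfalso
    have := s5_ne (q := (A, B, C)) ⟨h1, h2, h3⟩
    simp only [s5] at this
    rcases mul_eq_zero.1 h7.symm with h8 | h8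
    · exact hA h8
    · exact this h8

/-- the summand of `rho` -/
noncomputable def tm (a b c d : ℤ) (q : Fo) : ℤ :=
  if G5 q ∧ 0 < s5 q ∧ s5 (act q a b c d) < 0 then 1
  else if G5 q ∧ s5 q < 0 ∧ 0 < s5 (act q a b c d) then -1 else 0

theorem rho_eq (a b c d : ℤ) : rho a b c d = ∑ᶠ q : Fo, tm a b c d q := rfl

theorem tm_mul {a b c d : ℤ} (h : a * d - b * c = 1) (hc : 5 ∣ c)
    {a' b' c' d' : ℤ} (h' : a' * d' - b' * c' = 1) (hc' : 5 ∣ c') (q : Fo) :
    tm (a * a' + b * c') (a * b' + b * d') (c * a' + d * c') (c * b' + d * d') q =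
      tm a b c d q + tm a' b' c' d' (act q a b c d) := by
  unfold tm
  rw [← act_act]
  by_cases hq : G5 q
  · have hq' : G5 (act q a b c d) := G5_act hq h hc
    have n1 := s5_ne hq
    have n2 := s5_ne hq'
    have n3 := s5_ne (G5_act hq' h' hc')
    simp only [hq, hq', true_and]
    split_ifs <;> omega
  · have hq' : ¬ G5 (act q a b c d) := fun h1 => hq ((G5_act_iff h hc).1 h1)
    simp only [hq, hq', false_and, if_false, add_zero]

/-- the bounds for `A ≠ 0` -/
theorem bnd (A B C p r n : ℤ) (h1 : B ^ 2 - 4 * (A * C) = 1) (hA : A ≠ 0) (hB0 : B ≠ 0)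
    (hpn : p * n - r ^ 2 = 1) (hn0 : 0 < n) (hAl : A * (p * A + r * B + n * C) < 0) :
    |A| ≤ n ∧ |B| ≤ 2 * |r| * n + n ∧ |C| ≤ (2 * |r| * n + n) ^ 2 := by
  have hid : 4 * n * (A * (p * A + r * B + n * C)) =
      (2 * r * A + n * B) ^ 2 + 4 * A ^ 2 - n ^ 2 := by
    linear_combination 4 * A ^ 2 * hpn - n ^ 2 * h1
  have hlt : (2 * r * A + n * B) ^ 2 + 4 * A ^ 2 < n ^ 2 := by
    have h2 : 4 * n * (A * (p * A + r * B + n * C)) < 0 :=
      mul_neg_of_pos_of_neg (by linarith) hAl
    linarith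
  clear hAl hid hpn
  have hAn : |A| ≤ n := by
    apply abs_le_of_sq_le_sq _ hn0.le
    have := sq_nonneg (2 * r * A + n * B)
    have := sq_nonneg A
    linarith
  have hBn : |2 * r * A + n * B| ≤ n := by
    apply abs_le_of_sq_le_sq _ hn0.le
    have := sq_nonneg A
    linarith
  have hB : |B| ≤ 2 * |r| * n + n := by
    have e1 : |n * B| ≤ |2 * r * A + n * B| + |2 * r * A| := by
      have : n * B = (2 * r * A + n * B) - 2 * r * A := by ring
      calc |n * B| = |(2 * r * A + n * B) - 2 * r * A| := by rw [← this]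
        _ ≤ _ := abs_sub _ _
    have e2 : |n * B| = n * |B| := by rw [abs_mul, abs_of_pos hn0]
    have e3 : |2 * r * A| ≤ 2 * |r| * n := by
      rw [abs_mul, abs_mul, abs_two]
      exact mul_le_mul_of_nonneg_left hAn (by positivity)
    have e4 : |B| ≤ n * |B| := le_mul_of_one_le_left (abs_nonneg B) hn0
    linarith
  have hC : |C| ≤ B ^ 2 := by
    have e1 : |4 * (A * C)| = 4 * (|A| * |C|) := by rw [abs_mul, abs_mul]; norm_num
    have e2 : 4 * (A * C) = B ^ 2 - 1 := by linarith
    have e3 : 1 ≤ |A| := Int.one_le_abs hA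
    have hB1 : 1 ≤ B ^ 2 := by
      have := sq_nonneg B
      have h5 : B ^ 2 ≠ 0 := pow_ne_zero 2 hB0
      omega
    have e4 : |B ^ 2 - 1| = B ^ 2 - 1 := abs_of_nonneg (by linarith)
    rw [e2, e4] at e1
    have e5 : |C| ≤ |A| * |C| := le_mul_of_one_le_left (abs_nonneg C) e3
    have := abs_nonneg C
    linarith
  have hB2 : B ^ 2 ≤ (2 * |r| * n + n) ^ 2 := by
    rw [← sq_abs B]
    exact pow_le_pow_left₀ (abs_nonneg _) hB 2
  exact ⟨hAn, hB, hC.trans hB2⟩

theorem supp (a b c d : ℤ) (h : a * d - b * c = 1) :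
    (Function.support (tm a b c d)).Finite := by
  set p : ℤ := a ^ 2 + 2 * (a * b) + 2 * b ^ 2 with hp
  set r : ℤ := a * c + a * d + b * c + 2 * (b * d) with hr
  set n : ℤ := c ^ 2 + 2 * (c * d) + 2 * d ^ 2 with hn
  have hpn : p * n - r ^ 2 = 1 := by
    have : p * n - r ^ 2 = (a * d - b * c) ^ 2 := by rw [hp, hr, hn]; ring
    rw [this, h]; ring
  have hn0 : 0 < n := by
    have h1 : n = (c + d) ^ 2 + d ^ 2 := by rw [hn]; ring
    have h2 : 0 ≤ n := by rw [h1]; positivity
    rcases lt_or_eq_of_le h2 with h3 | h3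
    · exact h3
    · exfalso
      rw [← h3] at hpn
      nlinarith [sq_nonneg r]
  set K : ℤ := n + 2 * |r| * n + (2 * |r| * n + n) ^ 2 + |r| + 1 with hK
  refine Set.Finite.subset (Set.finite_Icc ((-K, -K, -K) : Fo) (K, K, K)) ?_
  rintro ⟨A, B, C⟩ hq
  rw [Function.mem_support] at hq
  have hlin : s5 (act (A, B, C) a b c d) = p * A + r * B + n * C := by
    simp only [s5, act, ev]; rw [hp, hr, hn]; ring
  have hG : G5 (A, B, C) := by
    by_contra hG
    apply hq
    unfold tm
    simp [hG]
  have hneg : s5 (A, B, C) * s5 (act (A, B, C) a b c d) < 0 := by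
    unfold tm at hq
    split_ifs at hq with h1 h2
    · exact mul_neg_of_pos_of_neg h1.2.1 h1.2.2
    · exact mul_neg_of_neg_of_pos h2.2.1 h2.2.2
    · exact absurd rfl hq
  rw [hlin] at hneg
  have h1 := hG.1
  have h2 := hG.2.1
  have h3 := hG.2.2
  simp only [dsc] at h1
  simp only at h2 h3
  have hr0 : 0 ≤ |r| := abs_nonneg r
  have key : |A| ≤ K ∧ |B| ≤ K ∧ |C| ≤ K := by
    by_cases hA : A = 0
    · subst hA
      have hB2 : B ^ 2 = 1 := by linarith
      have hB : B = 1 := by
        have hb1 : B ≤ 1 := by nlinarith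
        have hb2 : -1 ≤ B := by nlinarith
        omega
      subst hB
      simp only [s5] at hneg
      have hC : |C| ≤ |r| := by
        rcases le_or_gt 0 C with hc | hc
        · have h5 : r + n * C < 0 := by nlinarith
          have h6 : C ≤ n * C := by nlinarith
          rw [abs_of_nonneg hc]
          have := neg_abs_le r
          linarith
        · have h5 : 0 < r + n * C := by nlinarith
          have h6 : n * C ≤ C := by nlinarith
          rw [abs_of_neg hc]
          have := le_abs_self r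
          linarith
      have e1 : 0 ≤ 2 * |r| * n := by positivity
      have e2 : 0 ≤ (2 * |r| * n + n) ^ 2 := sq_nonneg _
      refine ⟨?_, ?_, ?_⟩
      · rw [abs_zero]; linarith
      · rw [abs_one]; linarith
      · linarith
    · have hs := s5_sign hG hA
      simp only at hs
      have hAl : A * (p * A + r * B + n * C) < 0 := by
        by_contra h6
        push Not at h6
        have h7 := mul_nonneg hs.le h6
        have h8 : A * s5 (A, B, C) * (A * (p * A + r * B + n * C)) =
          A ^ 2 * (s5 (A, B, C) * (p * A + r * B + n * C)) := by ring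
        rw [h8] at h7
        have h9 : 0 < A ^ 2 := by positivity
        have h10 := mul_neg_of_pos_of_neg h9 hneg
        linarith
      obtain ⟨b1, b2, b3⟩ := bnd A B C p r n h1 hA (by omega) hpn hn0 hAl
      have e1 : 0 ≤ 2 * |r| * n := by positivity
      have e2 : 0 ≤ (2 * |r| * n + n) ^ 2 := sq_nonneg _
      refine ⟨?_, ?_, ?_⟩ <;> linarith
  obtain ⟨k1, k2, k3⟩ := key
  rw [abs_le] at k1 k2 k3
  exact ⟨⟨k1.1, k2.1, k3.1⟩, ⟨k1.2, k2.2, k3.2⟩⟩

theorem rho_mul (a b c d a' b' c' d' : ℤ) (h : a * d - b * c = 1) (hc : 5 ∣ c)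
    (h' : a' * d' - b' * c' = 1) (hc' : 5 ∣ c') :
    rho (a * a' + b * c') (a * b' + b * d') (c * a' + d * c') (c * b' + d * d') =
      rho a b c d + rho a' b' c' d' := by
  rw [rho_eq, rho_eq, rho_eq]
  have e1 : (∑ᶠ q : Fo, tm a' b' c' d' q) = ∑ᶠ q : Fo, tm a' b' c' d' (act q a b c d) :=
    (finsum_comp_equiv (perm a b c d h) (f := tm a' b' c' d')).symm
  rw [e1, ← finsum_add_distrib]
  · exact finsum_congr fun q => tm_mul h hc h' hc' q
  · exact supp a b c d h
  · have h1 := supp a' b' c' d' h'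
    have h2 : Function.support (fun q => tm a' b' c' d' (act q a b c d)) =
        (perm a b c d h) ⁻¹' Function.support (tm a' b' c' d') := by
      ext q
      simp only [Function.mem_support, Set.mem_preimage]
      rfl
    show (Function.support (fun q => tm a' b' c' d' (act q a b c d))).Finite
    rw [h2]
    exact h1.preimage ((perm a b c d h).injective.injOn)

theorem rho_neg_one : rho (-1) 0 0 (-1) = 0 := by
  rw [rho_eq]
  apply finsum_eq_zero_of_forall_eq_zero
  intro q
  have : act q (-1) 0 0 (-1) = q := by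
    obtain ⟨A, B, C⟩ := q
    simp [act, ev]
  unfold tm
  rw [this]
  split_ifs with h1 h2
  · omega
  · omega
  · rfl

theorem rho_T : rho 1 1 0 1 = -1 := by
  rw [rho_eq, finsum_eq_single _ ((0, 1, -1) : Fo)]
  · unfold tm
    have h1 : s5 (0, 1, -1) = -1 := by norm_num [s5]
    have h2 : s5 (act (0, 1, -1) 1 1 0 1) = 1 := by norm_num [s5, act, ev]
    have h3 : G5 (0, 1, -1) := ⟨by norm_num [dsc], by norm_num, by norm_num⟩
    rw [h1, h2, if_neg (by omega), if_pos ⟨h3, by omega, by omega⟩]
  · rintro ⟨A, B, C⟩ hne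
    by_contra hq
    have hlin : s5 (act (A, B, C) 1 1 0 1) = 5 * A + 3 * B + 2 * C := by
      simp only [s5, act, ev]; ring
    have hG : G5 (A, B, C) := by
      by_contra hG
      apply hq
      unfold tm
      simp [hG]
    have hneg : s5 (A, B, C) * s5 (act (A, B, C) 1 1 0 1) < 0 := by
      unfold tm at hq
      split_ifs at hq with h1 h2
      · exact mul_neg_of_pos_of_neg h1.2.1 h1.2.2
      · exact mul_neg_of_neg_of_pos h2.2.1 h2.2.2
      · exact absurd rfl hq
    rw [hlin] at hneg
    have h1 := hG.1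
    have h2 := hG.2.1
    have h3 := hG.2.2
    simp only [dsc] at h1
    simp only at h2 h3
    by_cases hA : A = 0
    · subst hA
      have hB2 : B ^ 2 = 1 := by linarith
      have hB : B = 1 := by
        have hb1 : B ≤ 1 := by nlinarith
        have hb2 : -1 ≤ B := by nlinarith
        omega
      subst hB
      simp only [s5] at hneg
      have hC : C = -1 := by
        rcases lt_trichotomy C (-1) with hc | hc | hc
        · exfalso
          nlinarith
        · exact hc
        · exfalso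
          nlinarith
      exact hne (by rw [hC])
    · have hs := s5_sign hG hA
      simp only at hs
      have hid : 8 * (A * (5 * A + 3 * B + 2 * C)) = (6 * A + 2 * B) ^ 2 + 4 * A ^ 2 - 4 := by
        linear_combination (-4) * h1
      have hA1 : 1 ≤ A ^ 2 := by
        have := sq_nonneg A
        have h5 : A ^ 2 ≠ 0 := pow_ne_zero 2 hA
        omega
      have hl : 0 ≤ A * (5 * A + 3 * B + 2 * C) := by nlinarith [sq_nonneg (6 * A + 2 * B)]
      have h5 : 0 ≤ (A * s5 (A, B, C)) * (A * (5 * A + 3 * B + 2 * C)) := mul_nonneg hs.le hl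
      have h6 : (A * s5 (A, B, C)) * (A * (5 * A + 3 * B + 2 * C)) =
        A ^ 2 * (s5 (A, B, C) * (5 * A + 3 * B + 2 * C)) := by ring
      rw [h6] at h5
      have h9 : 0 < A ^ 2 := by positivity
      have h10 := mul_neg_of_pos_of_neg h9 hneg
      linarith

end Rho

theorem t_RHO : S_RHO := by
  refine ⟨fun a b c d a' b' c' d' h hc h' hc' => Rho.rho_mul a b c d a' b' c' d' h hc h' hc',
    Rho.rho_T, Rho.rho_neg_one, ?_, ?_⟩
  · have h := Rho.rho_mul 2 (-1) 5 (-2) 2 (-1) 5 (-2) (by norm_num) (by norm_num)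
      (by norm_num) (by norm_num)
    norm_num at h
    have h2 := Rho.rho_neg_one
    rw [h2] at h
    omega
  · have h := Rho.rho_mul (-2) (-1) 5 2 (-2) (-1) 5 2 (by norm_num) (by norm_num)
      (by norm_num) (by norm_num)
    norm_num at h
    have h2 := Rho.rho_neg_one
    rw [h2] at h
    omega

end Pool.Agent.H757_X15.CC
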