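import Pool.Agent.H757_X15.StmC

/-!
# Project X15-C, part C2: the modular symbol is given by the crossing numbers

`nhom_of_nc : S_NC → S_NHOM`, `t_SYM : S_SYM`, `t_NINV : S_NINV`.
-/

set_option autoImplicit false

namespace Pool.Agent.H757_X15.CC

open Finset
open Pool.Agent.H757_X15 (Symb15)
open Pool.Agent.H757_X15.BB (chi4)

open scoped Classical

namespace SYMaux

/-! ### `S_NC` implies `S_NHOM` -/

theorem cop_lower {a b c d x M : ℤ} (h : a * d - b * (15 * c) = 1) (hM : IsCoprime M 15) :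
    IsCoprime (15 * c * x + d * M) 15 := by
  have hd : IsCoprime d 15 := ⟨a, -(b * c), by linear_combination h⟩
  have h1 : IsCoprime (d * M) 15 := hd.mul_left hM
  have h2 : IsCoprime (d * M + c * x * 15) 15 := IsCoprime.add_mul_right_left h1 (c * x)
  have e : 15 * c * x + d * M = d * M + c * x * 15 := by ring
  rw [e]
  exact h2

theorem cop_new {a b c d x M : ℤ} (h : a * d - b * (15 * c) = 1) (hx : IsCoprime x M) :
    IsCoprime (a * x + b * M) (15 * c * x + d * M) := by
  obtain ⟨u, v, huv⟩ := hx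
  refine ⟨u * d - v * (15 * c), v * a - u * b, ?_⟩
  linear_combination (a * d - b * (15 * c)) * huv + h

theorem nhom_of_nc (h : S_NC) : S_NHOM := by
  obtain ⟨-, -, hadd, hinv, h01, hNN, -⟩ := h
  intro a b c d hdet
  have hd : IsCoprime d 15 := ⟨a, -(b * c), by linear_combination hdet⟩
  have cu0 : Cu 1 0 := ⟨isCoprime_one_left, Or.inl (dvd_zero _)⟩
  have cu1 : Cu a (15 * c) := ⟨⟨d, -b, by linear_combination hdet⟩, Or.inl (dvd_mul_right _ _)⟩
  have key : ∀ x M : ℤ, IsCoprime M 15 → IsCoprime x M →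
      4 * NN (a * x + b * M) (15 * c * x + d * M) = NC 1 0 a (15 * c) + 4 * NN x M := by
    intro x M hM hx
    have hM' := cop_lower (x := x) hdet hM
    have hx' := cop_new hdet hx
    have e1 := hNN _ _ hx' hM'
    have e2 := hNN _ _ hx hM
    have e3 := hadd 1 0 a (15 * c) (a * x + b * M) (15 * c * x + d * M) cu0 cu1
      ⟨hx', Or.inr hM'⟩
    have e4 := hinv a b c d hdet 1 0 x M
    simp only [mul_one, mul_zero, add_zero] at e4
    rw [← e1, ← e2, ← e3, e4]
  have k01 := key 0 1 isCoprime_one_left isCoprime_one_right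
  simp only [mul_zero, mul_one, zero_add] at k01
  have n01 := hNN 0 1 isCoprime_one_right isCoprime_one_left
  rw [h01] at n01
  refine ⟨fun x M hM hx => ?_, by linarith⟩
  have := key x M hM hx
  linarith

/-! ### the values -/

theorem NN_eq (x M : ℤ) (S : Finset Fo)
    (h : ∀ q, (Fq q ∧ 0 < q.1 ∧ ev q x M < 0) ↔ q ∈ S) : NN x M = ∑ q ∈ S, cQ q := by
  unfold NN
  rw [finsum_eq_sum_of_support_subset (s := S)]
  · refine Finset.sum_congr rfl fun q hq => ?_
    rw [if_pos ((h q).mpr hq)]
  · intro q hq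
    rw [Function.mem_support] at hq
    by_contra hne
    apply hq
    rw [if_neg]
    intro h3
    exact hne ((h q).mp h3)

theorem bounds {a b c x M : ℤ} (hd : b ^ 2 - 4 * (a * c) = 16) (ha : 0 < a)
    (hn : a * x ^ 2 + b * (x * M) + c * M ^ 2 < 0) :
    (2 * a * x + b * M) ^ 2 < (4 * M) ^ 2 ∧ a ≤ 4 * M ^ 2 := by
  have e : 4 * a * (a * x ^ 2 + b * (x * M) + c * M ^ 2) =
      (2 * a * x + b * M) ^ 2 - (4 * M) ^ 2 := by
    linear_combination -(M ^ 2) * hd
  have h1 : 4 * a * (a * x ^ 2 + b * (x * M) + c * M ^ 2) ≤ -(4 * a) := by nlinarith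
  constructor
  · nlinarith
  · nlinarith [sq_nonneg (2 * a * x + b * M)]

theorem NN_one (x : ℤ) : NN x 1 = 0 := by
  rw [NN_eq x 1 ∅]
  · simp
  · rintro ⟨a, b, c⟩
    simp only [Finset.notMem_empty, iff_false, not_and, not_lt]
    rintro ⟨hd, ⟨k, hk⟩, -⟩ ha
    simp only [dsc, ev] at *
    by_contra hn
    push Not at hn
    have h := bounds (M := 1) hd ha hn
    omega

theorem NN12 : NN 1 2 = -2 := by
  rw [NN_eq 1 2 {(15, -16, 4), (15, -14, 3)}]
  · simp [cQ, chi4]
  · rintro ⟨a, b, c⟩
    simp only [Fq, Finset.mem_insert, Finset.mem_singleton, Prod.mk.injEq, dsc, ev]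
    constructor
    · rintro ⟨⟨hd, ⟨k, hk⟩, hb⟩, ha, hn⟩
      obtain ⟨h1, h2⟩ := bounds hd ha hn
      have h3 := abs_lt_of_sq_lt_sq h1 (by norm_num)
      rw [abs_lt] at h3
      have hd' : b * b - 4 * (a * c) = 16 := by rw [← hd]; ring
      subst hk
      obtain ⟨j, hj⟩ : ∃ j, b = 30 * j + 14 ∨ b = 30 * j + 16 := ⟨b / 30, by omega⟩
      have hk1 : 1 ≤ k := by omega
      have hk2 : k ≤ 1 := by omega
      have hj1 : -1 ≤ j := by omega
      have hj2 : j ≤ 0 := by omega
      interval_cases k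
      interval_cases j <;> rcases hj with rfl | rfl <;> omega
    · rintro (⟨rfl, rfl, rfl⟩ | ⟨rfl, rfl, rfl⟩) <;> norm_num

theorem NN14 : NN 1 4 = 0 := by
  rw [NN_eq 1 4 {(30, -16, 2)}]
  · simp [cQ, chi4]
  · rintro ⟨a, b, c⟩
    simp only [Fq, Finset.mem_singleton, Prod.mk.injEq, dsc, ev]
    constructor
    · rintro ⟨⟨hd, ⟨k, hk⟩, hb⟩, ha, hn⟩
      obtain ⟨h1, h2⟩ := bounds hd ha hn
      have h3 := abs_lt_of_sq_lt_sq h1 (by norm_num)
      rw [abs_lt] at h3
      have hd' : b * b - 4 * (a * c) = 16 := by rw [← hd]; ring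
      subst hk
      obtain ⟨j, hj⟩ : ∃ j, b = 30 * j + 14 ∨ b = 30 * j + 16 := ⟨b / 30, by omega⟩
      have hk1 : 1 ≤ k := by omega
      have hk2 : k ≤ 4 := by omega
      have hj1 : -2 ≤ j := by omega
      have hj2 : j ≤ 0 := by omega
      interval_cases k <;>
      interval_cases j <;> rcases hj with rfl | rfl <;> omega
    · rintro ⟨rfl, rfl, rfl⟩
      norm_num

theorem NN38 : NN 3 8 = -2 := by
  rw [NN_eq 3 8 {(15, -14, 3), (60, -44, 8), (135, -104, 20)}]
  · simp [cQ, chi4]
  · rintro ⟨a, b, c⟩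
    simp only [Fq, Finset.mem_insert, Finset.mem_singleton, Prod.mk.injEq, dsc, ev]
    constructor
    · rintro ⟨⟨hd, ⟨k, hk⟩, hb⟩, ha, hn⟩
      obtain ⟨h1, h2⟩ := bounds hd ha hn
      have h3 := abs_lt_of_sq_lt_sq h1 (by norm_num)
      rw [abs_lt] at h3
      have hd' : b * b - 4 * (a * c) = 16 := by rw [← hd]; ring
      subst hk
      obtain ⟨j, hj⟩ : ∃ j, b = 30 * j + 14 ∨ b = 30 * j + 16 := ⟨b / 30, by omega⟩
      have hk1 : 1 ≤ k := by omega
      have hk2 : k ≤ 17 := by omega
      have hj1 : -7 ≤ j := by omega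
      have hj2 : j ≤ 0 := by omega
      interval_cases k <;>
      interval_cases j <;> rcases hj with rfl | rfl <;> omega
    · rintro (⟨rfl, rfl, rfl⟩ | ⟨rfl, rfl, rfl⟩ | ⟨rfl, rfl, rfl⟩) <;> norm_num

/-! ### the descent -/

section Descent

variable {s : ℚ → ℤ} {a : ℕ → ℤ}

/-- the assertion for `x / M` -/
def PP (s : ℚ → ℤ) (x M : ℤ) : Prop := s ((x : ℚ) / (M : ℚ)) = s 0 * (1 + 2 * NN x M)

theorem PP_neg_left (hs : Symb15 s a) (hN : S_NC) {x M : ℤ} (h : PP s x M) : PP s (-x) M := by
  unfold PP at *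
  rw [(hN.2.2.2.2.2.2 x M).1, ← h]
  push_cast
  rw [neg_div, hs.neg]

theorem PP_neg_right (hs : Symb15 s a) (hN : S_NC) {x M : ℤ} (h : PP s x M) : PP s x (-M) := by
  unfold PP at *
  rw [(hN.2.2.2.2.2.2 x M).2, ← h]
  push_cast
  rw [div_neg, hs.neg]

/-- the step: if the assertion holds for `B / D` then it holds for `x / M` if it holds for the
image of `x / M` -/
theorem PP_step (hs : Symb15 s a) (hH : S_NHOM) {A B C D x M : ℤ}
    (hdet : A * D - B * (15 * C) = 1) (hM : IsCoprime M 15) (hx : IsCoprime x M)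
    (hBD : PP s B D) (h : PP s (A * x + B * M) (15 * C * x + D * M)) : PP s x M := by
  unfold PP at *
  rw [((hH A B C D hdet).1 x M hM hx)] at h
  have hc : IsCoprime (15 * x) M := hM.symm.mul_left hx
  have e := hs.aff hdet hc
  rw [h, hBD] at e
  linear_combination -e

theorem val_half (hs : Symb15 s a) : s ((1 : ℚ) / 2) = -3 * s 0 := by
  have h := hs.hecke 2 Nat.prime_two (by norm_num) 0
  rw [hs.a2, Finset.sum_range_succ, Finset.sum_range_one] at h
  norm_num at h ⊢
  linarith

theorem val_quarter (hs : Symb15 s a) : s ((1 : ℚ) / 4) = s 0 := by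
  have h := hs.hecke 2 Nat.prime_two (by norm_num) (1 / 2)
  rw [hs.a2, Finset.sum_range_succ, Finset.sum_range_one, val_half hs] at h
  have h1 : s (3 / 4) = s (1 / 4) := by
    rw [← hs.neg (3 / 4), ← hs.per (-(3 / 4))]
    norm_num
  have h2 : s 1 = s 0 := by
    have := hs.per 0
    simpa using this
  norm_num at h ⊢
  rw [h1, h2] at h
  linarith

theorem val_eighth (hs : Symb15 s a) : s ((1 : ℚ) / 8) = 5 * s 0 := by
  have h := hs.aff (A := 2) (B := 1) (C' := 1) (D := 8) (by norm_num) (x := -1) (c := 2)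
    ⟨1, 8, by norm_num⟩
  have h1 : s (-1 / 2) = -3 * s 0 := by
    rw [← val_half hs, ← hs.neg (1 / 2)]
    norm_num
  norm_num at h h1 ⊢
  rw [h1] at h
  linarith

theorem val_three_eighths (hs : Symb15 s a) : s ((3 : ℚ) / 8) = -3 * s 0 := by
  have h := hs.hecke 2 Nat.prime_two (by norm_num) (1 / 4)
  rw [hs.a2, Finset.sum_range_succ, Finset.sum_range_one, val_quarter hs] at h
  have h1 : s (5 / 8) = s (3 / 8) := by
    rw [← hs.neg (5 / 8), ← hs.per (-(5 / 8))]
    norm_num
  have h2 := val_half hs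
  have h3 := val_eighth hs
  norm_num at h h2 h3 ⊢
  rw [h1, h2, h3] at h
  linarith

theorem PP_base (hs : Symb15 s a) (hN : S_NC) (x : ℤ) : PP s x 1 := by
  unfold PP
  rw [NN_one]
  have : ∀ n : ℕ, s (n : ℚ) = s 0 := by
    intro n
    induction n with
    | zero => simp
    | succ n ih => rw [← ih, Nat.cast_succ, hs.per]
  have h2 : s (x : ℚ) = s 0 := by
    obtain ⟨n, hn | hn⟩ := Int.eq_nat_or_neg x
    · rw [hn]
      exact_mod_cast this n
    · rw [hn]
      push_cast
      rw [hs.neg]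
      exact this n
  simp [h2]

theorem PP12 (hs : Symb15 s a) : PP s 1 2 := by
  unfold PP
  rw [NN12]
  have := val_half hs
  push_cast
  rw [this]
  ring

theorem PP14 (hs : Symb15 s a) : PP s 1 4 := by
  unfold PP
  rw [NN14]
  have := val_quarter hs
  push_cast
  rw [this]
  ring

theorem PP38 (hs : Symb15 s a) : PP s 3 8 := by
  unfold PP
  rw [NN38]
  have := val_three_eighths hs
  push_cast
  rw [this]
  ring

/-- the reverse step -/
theorem PP_step' (hs : Symb15 s a) (hH : S_NHOM) {A B C D x M : ℤ}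
    (hdet : A * D - B * (15 * C) = 1) (hM : IsCoprime M 15) (hx : IsCoprime x M)
    (hxM : PP s x M) (h : PP s (A * x + B * M) (15 * C * x + D * M)) : PP s B D := by
  unfold PP at *
  rw [((hH A B C D hdet).1 x M hM hx)] at h
  have hc : IsCoprime (15 * x) M := hM.symm.mul_left hx
  have e := hs.aff hdet hc
  rw [h, hxM] at e
  linear_combination -e

theorem PP17 (hs : Symb15 s a) (hN : S_NC) (hH : S_NHOM) : PP s (-1) 7 := by
  have h12 := PP_neg_left hs hN (PP12 hs)
  refine PP_step' (A := -2) (B := -1) (C := 1) (D := 7) (x := -1) (M := 2) hs hH (by norm_num)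
    ⟨8, -1, by norm_num⟩ ⟨1, 1, by norm_num⟩ h12 ?_
  have := PP_neg_right hs hN (PP_base hs hN 0)
  norm_num
  exact this

theorem PP411 (hs : Symb15 s a) (hN : S_NC) (hH : S_NHOM) : PP s 4 11 := by
  have h12 := PP_neg_left hs hN (PP12 hs)
  refine PP_step' (A := 11) (B := 4) (C := 2) (D := 11) (x := -1) (M := 2) hs hH (by norm_num)
    ⟨8, -1, by norm_num⟩ ⟨1, 1, by norm_num⟩ h12 ?_
  have := PP_neg_left hs hN (PP_neg_right hs hN (PP38 hs))
  norm_num
  exact this

theorem descent (hs : Symb15 s a) (hN : S_NC) (hH : S_NHOM) : ∀ (m : ℕ) (M : ℤ), M.natAbs = m →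
    IsCoprime M 15 → ∀ x : ℤ, IsCoprime x M → PP s x M := by
  intro m
  induction m using Nat.strong_induction_on with
  | _ m ih =>
    -- the shift
    have hshift : ∀ (x M k : ℤ), IsCoprime M 15 → IsCoprime x M → PP s (x + k * M) M →
        PP s x M := by
      intro x M k hM hx h
      refine PP_step (A := 1) (B := k) (C := 0) (D := 1) hs hH (by norm_num) hM hx
        (PP_base hs hN k) ?_
      have e1 : 1 * x + k * M = x + k * M := by ring
      have e2 : 15 * 0 * x + 1 * M = M := by ring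
      rw [e1, e2]
      exact h
    -- the step with a given matrix
    have hstep : ∀ (A B C D x M : ℤ), A * D - B * (15 * C) = 1 → PP s B D → M.natAbs = m →
        IsCoprime M 15 → IsCoprime x M → |15 * C * x + D * M| < M → PP s x M := by
      intro A B C D x M hdet hBD hm hM hx hlt
      refine PP_step hs hH hdet hM hx hBD ?_
      refine ih (15 * C * x + D * M).natAbs ?_ _ rfl (cop_lower hdet hM) _ (cop_new hdet hx)
      have h0 := abs_lt.mp hlt
      omega
    have n3 : ∀ M : ℤ, IsCoprime M 15 → ¬ (3 : ℤ) ∣ M := by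
      rintro M ⟨u, v, huv⟩ ⟨k, rfl⟩
      have h : (3 : ℤ) ∣ 1 := ⟨u * k + v * 5, by linear_combination -huv⟩
      norm_num at h
    have n5 : ∀ M : ℤ, IsCoprime M 15 → ¬ (5 : ℤ) ∣ M := by
      rintro M ⟨u, v, huv⟩ ⟨k, rfl⟩
      have h : (5 : ℤ) ∣ 1 := ⟨u * k + v * 3, by linear_combination -huv⟩
      norm_num at h
    -- the case `0 < t ≤ M / 2`
    have hhalf : ∀ (M t : ℤ), M.natAbs = m → IsCoprime M 15 → IsCoprime t M → 0 < t → 2 * t ≤ M →
        PP s t M := by
      intro M t hm hM ht ht0 ht2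
      have h3 := n3 M hM
      have h5 := n5 M hM
      have c1 : (15 * t < 2 * M) ∨ (2 * M ≤ 15 * t ∧ 15 * t < 3 * M) ∨
          (3 * M < 15 * t ∧ 15 * t < 5 * M) ∨ (5 * M < 15 * t ∧ 15 * t < 6 * M) ∨
          (6 * M < 15 * t ∧ 15 * t < 8 * M) := by omega
      rcases c1 with c | c | c | c | c
      · refine hstep (-1) 0 1 (-1) t M (by norm_num) (PP_neg_right hs hN (PP_base hs hN 0)) hm hM
          ht ?_
        rw [abs_lt]
        constructor <;> linarith
      · refine hstep 7 (-1) 1 (-2) t M (by norm_num)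
          (PP_neg_right hs hN (PP_neg_left hs hN (PP12 hs))) hm hM ht ?_
        rw [abs_lt]
        constructor <;> linarith
      · refine hstep (-4) 1 1 (-4) t M (by norm_num) (PP_neg_right hs hN (PP14 hs)) hm hM ht ?_
        rw [abs_lt]
        constructor <;> linarith
      · refine hstep (-11) 4 2 (-11) t M (by norm_num)
          (PP_neg_right hs hN (PP411 hs hN hH)) hm hM ht ?_
        rw [abs_lt]
        constructor <;> linarith
      · refine hstep 2 (-1) 1 (-7) t M (by norm_num)
          (PP_neg_right hs hN (PP17 hs hN hH)) hm hM ht ?_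
        rw [abs_lt]
        constructor <;> linarith
    have hpos : ∀ (M x : ℤ), 0 < M → M.natAbs = m → IsCoprime M 15 → IsCoprime x M →
        PP s x M := by
      intro M x hM0 hm hM hx
      rcases eq_or_lt_of_le (show 1 ≤ M by omega) with h1 | h1
      · rw [← h1]
        exact PP_base hs hN x
      -- reduce modulo `M`
      obtain ⟨t, k, hxt, ht0, htM⟩ : ∃ t k : ℤ, x = t + k * M ∧ 0 ≤ t ∧ t < M :=
        ⟨x % M, x / M, by rw [mul_comm]; exact (Int.emod_add_mul_ediv x M).symm,
          Int.emod_nonneg x hM0.ne', Int.emod_lt_of_pos x hM0⟩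
      have htc : IsCoprime t M := by
        rw [hxt] at hx
        exact IsCoprime.of_add_mul_right_left hx
      have ht1 : t ≠ 0 := by
        rintro rfl
        rw [isCoprime_zero_left] at htc
        rcases Int.isUnit_iff.mp htc with h2 | h2 <;> omega
      have htP : PP s t M := by
        rcases le_total (2 * t) M with h2 | h2
        · exact hhalf M t hm hM htc (by omega) h2
        · have htc' : IsCoprime (M - t) M := by
            have h3 : IsCoprime (-t + 1 * M) M := IsCoprime.add_mul_right_left htc.neg_left 1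
            have e : M - t = -t + 1 * M := by ring
            rw [e]
            exact h3
          have h3 := PP_neg_left hs hN (hhalf M (M - t) hm hM htc' (by omega) (by omega))
          refine hshift t M (-1) hM htc ?_
          have e : t + -1 * M = -(M - t) := by ring
          rw [e]
          exact h3
      refine hshift x M (-k) hM hx ?_
      have e : x + -k * M = t := by rw [hxt]; ring
      rw [e]
      exact htP
    intro M hm hM x hx
    rcases lt_trichotomy M 0 with h0 | h0 | h0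
    · have h1 := hpos (-M) x (by omega) (by omega) hM.neg_left hx.neg_right
      have h2 := PP_neg_right hs hN h1
      rw [neg_neg] at h2
      exact h2
    · rw [h0, isCoprime_zero_left] at hM
      rcases Int.isUnit_iff.mp hM with h2 | h2 <;> omega
    · exact hpos M x h0 hm hM hx

end Descent

end SYMaux

/-- C2: the modular symbol is given by the crossing numbers -/
theorem t_SYM : S_SYM := by
  intro hN hH s a hs x M hM0 hM hx
  have hM' : IsCoprime (M : ℤ) 15 := by
    have := Nat.isCoprime_iff_coprime.mpr hM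
    exact_mod_cast this
  have h := SYMaux.descent hs hN hH _ (M : ℤ) rfl hM' x hx
  unfold SYMaux.PP at h
  exact_mod_cast h

/-- C2: the crossing numbers of `b / M` and `d / M` agree when `15 b d = 1` modulo `M` -/
theorem t_NINV : S_NINV := by
  intro hN hS ⟨s, a, hs⟩ M b d hdvd
  have hH := SYMaux.nhom_of_nc hN
  have hcop : IsCoprime M 15 ∧ IsCoprime b M ∧ IsCoprime d M := by
    obtain ⟨k, hk⟩ := hdvd
    exact ⟨⟨-k, b * d, by linear_combination hk⟩, ⟨15 * d, -k, by linear_combination hk⟩,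
      ⟨15 * b, -k, by linear_combination hk⟩⟩
  have hs0 : s 0 ≠ 0 := by
    intro h0
    have := hs.odd0
    rw [h0] at this
    simp at this
  -- the positive case
  have hpos : ∀ M : ℕ, 0 < M → (M : ℤ) ∣ 15 * b * d - 1 → IsCoprime (M : ℤ) 15 →
      IsCoprime b (M : ℤ) → IsCoprime d (M : ℤ) → NN b M = NN d M := by
    intro M hM0 hdvd h15 hb hd
    have hM : Nat.Coprime M 15 := by
      rw [← Nat.isCoprime_iff_coprime]
      exact_mod_cast h15
    have e1 := hS hN hH s a hs b M hM0 hM hb
    have e2 := hS hN hH s a hs d M hM0 hM hd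
    have e3 := hs.inv M b d hM0 hdvd
    rw [e1, e2] at e3
    have e4 := mul_left_cancel₀ hs0 e3
    linarith
  rcases lt_trichotomy M 0 with h0 | h0 | h0
  · obtain ⟨m, hm⟩ : ∃ m : ℕ, -M = m := ⟨(-M).toNat, by omega⟩
    have h1 := hpos m (by omega) (by rw [← hm]; exact (neg_dvd).mpr hdvd)
      (by rw [← hm]; exact hcop.1.neg_left) (by rw [← hm]; exact hcop.2.1.neg_right)
      (by rw [← hm]; exact hcop.2.2.neg_right)
    rw [← hm, (hN.2.2.2.2.2.2 b M).2, (hN.2.2.2.2.2.2 d M).2] at h1
    exact h1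
  · have h1 := hcop.1
    rw [h0, isCoprime_zero_left] at h1
    rcases Int.isUnit_iff.mp h1 with h2 | h2 <;> omega
  · obtain ⟨m, hm⟩ : ∃ m : ℕ, M = m := ⟨M.toNat, by omega⟩
    have h1 := hpos m (by omega) (by rw [← hm]; exact hdvd) (by rw [← hm]; exact hcop.1)
      (by rw [← hm]; exact hcop.2.1) (by rw [← hm]; exact hcop.2.2)
    rw [← hm] at h1
    exact h1

end Pool.Agent.H757_X15.CC
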