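import Pool.Agent.H757_X15.CS.Chi

/-!
# Project X15-C: C6a (t_FUND, t_STAB)
-/

set_option autoImplicit false

namespace Pool.Agent.H757_X15.CC

open Finset Matrix

theorem stab_not_sq {D : ℕ} (hsq : Squarefree D) (hD : 1 < D) : ¬ IsSquare (D : ℤ) := by
  rintro ⟨r, hr⟩
  have h1 : D = r.natAbs * r.natAbs := by
    have := congrArg Int.natAbs hr
    rwa [Int.natAbs_natCast, Int.natAbs_mul] at this
  have h2 := hsq r.natAbs ⟨1, by rw [mul_one]; exact h1⟩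
  rw [Nat.isUnit_iff] at h2
  rw [h2] at h1
  omega

theorem t_FUND : S_FUND := by
  intro D hsq hD
  classical
  obtain ⟨x, y, hxy, hy⟩ := Pell.exists_of_not_isSquare (by exact_mod_cast (by omega : 0 < D))
    (stab_not_sq hsq hD)
  have hDpos : (0 : ℤ) < D := by exact_mod_cast (by omega : 0 < D)
  have hx0 : x ≠ 0 := by
    rintro rfl
    nlinarith [sq_nonneg y]
  have hex : ∃ n : ℕ, 0 < n ∧ ∃ u : ℤ, 0 < u ∧ (n : ℤ) ^ 2 - D * u ^ 2 = 4 := by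
    refine ⟨(2 * x).natAbs, Int.natAbs_pos.2 (by omega), |2 * y|, abs_pos.2 (by omega), ?_⟩
    rw [Int.natCast_natAbs, sq_abs, sq_abs]
    linear_combination 4 * hxy
  obtain ⟨h1, u, hu, h2⟩ := Nat.find_spec hex
  refine ⟨(Nat.find hex : ℤ), u, ⟨by exact_mod_cast h1, hu, h2, ?_⟩⟩
  intro t' u' ht' hu' h3
  have h4 : Nat.find hex ≤ t'.toNat := by
    apply Nat.find_min'
    refine ⟨by omega, u', hu', ?_⟩
    rw [Int.toNat_of_nonneg ht'.le]
    exact h3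
  omega

/-- the parameters of an automorph -/
def Par (Q : Fo) (g : Matrix.SpecialLinearGroup (Fin 2) ℤ) (s k : ℤ) : Prop :=
  2 * g 0 0 = s - Q.2.1 * k ∧ g 0 1 = -(Q.2.2 * k) ∧ g 1 0 = Q.1 * k ∧ 2 * g 1 1 = s + Q.2.1 * k

theorem sl_det (g : Matrix.SpecialLinearGroup (Fin 2) ℤ) : g 0 0 * g 1 1 - g 0 1 * g 1 0 = 1 := by
  have := g.2
  rw [Matrix.det_fin_two] at this
  exact this

theorem Par.eq {Q : Fo} {D : ℤ} (hQ : dsc Q = D) {g : Matrix.SpecialLinearGroup (Fin 2) ℤ}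
    {s k : ℤ} (h : Par Q g s k) : s ^ 2 - D * k ^ 2 = 4 := by
  obtain ⟨h1, h2, h3, h4⟩ := h
  have hd := sl_det g
  have e : 4 * (g 0 0 * g 1 1 - g 0 1 * g 1 0) = (2 * g 0 0) * (2 * g 1 1) - 4 * (g 0 1 * g 1 0) := by
    ring
  rw [hd, h1, h2, h3, h4] at e
  rw [← hQ]
  unfold dsc
  linear_combination -e

theorem Par.act {Q : Fo} {g : Matrix.SpecialLinearGroup (Fin 2) ℤ}
    {s k : ℤ} (h : Par Q g s k) : act Q (g 0 0) (g 0 1) (g 1 0) (g 1 1) = Q := by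
  have h0 := Par.eq rfl h
  obtain ⟨h1, h2, h3, h4⟩ := h
  unfold dsc at h0
  obtain ⟨A, B, C⟩ := Q
  simp only at h0 h1 h2 h3 h4
  unfold CC.act ev
  simp only [Prod.mk.injEq]
  refine ⟨?_, ?_, ?_⟩
  · have e : 4 * (A * g 0 0 ^ 2 + B * (g 0 0 * g 1 0) + C * g 1 0 ^ 2) = 4 * A := by
      have : 4 * (A * g 0 0 ^ 2 + B * (g 0 0 * g 1 0) + C * g 1 0 ^ 2) =
        A * (2 * g 0 0) ^ 2 + 2 * B * ((2 * g 0 0) * g 1 0) + 4 * C * g 1 0 ^ 2 := by ring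
      rw [this, h1, h3]
      linear_combination A * h0
    linarith
  · have e : 4 * (2 * (A * (g 0 0 * g 0 1)) + B * (g 0 0 * g 1 1 + g 0 1 * g 1 0) +
      2 * (C * (g 1 0 * g 1 1))) = 4 * B := by
      have : 4 * (2 * (A * (g 0 0 * g 0 1)) + B * (g 0 0 * g 1 1 + g 0 1 * g 1 0) +
        2 * (C * (g 1 0 * g 1 1))) = 4 * (A * ((2 * g 0 0) * g 0 1)) +
        B * ((2 * g 0 0) * (2 * g 1 1) + 4 * (g 0 1 * g 1 0)) + 4 * (C * (g 1 0 * (2 * g 1 1))) := by ring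
      rw [this, h1, h2, h3, h4]
      linear_combination B * h0
    linarith
  · have e : 4 * (A * g 0 1 ^ 2 + B * (g 0 1 * g 1 1) + C * g 1 1 ^ 2) = 4 * C := by
      have : 4 * (A * g 0 1 ^ 2 + B * (g 0 1 * g 1 1) + C * g 1 1 ^ 2) =
        4 * A * g 0 1 ^ 2 + 2 * B * (g 0 1 * (2 * g 1 1)) + C * (2 * g 1 1) ^ 2 := by ring
      rw [this, h2, h4]
      linear_combination C * h0
    linarith

theorem stab_prim {D : ℕ} (hsq : Squarefree D) {Q : Fo} (hQ : dsc Q = D) :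
    ∃ x y z : ℤ, x * Q.1 + y * Q.2.1 + z * Q.2.2 = 1 := by
  obtain ⟨A, B, C⟩ := Q
  unfold dsc at hQ
  simp only at hQ ⊢
  obtain ⟨e, he⟩ : ∃ e : ℕ, e = Int.gcd (Int.gcd A B : ℤ) C := ⟨_, rfl⟩
  have hA : (e : ℤ) ∣ A := by
    rw [he]; exact (Int.gcd_dvd_left _ _).trans (Int.gcd_dvd_left _ _)
  have hB : (e : ℤ) ∣ B := by
    rw [he]; exact (Int.gcd_dvd_left _ _).trans (Int.gcd_dvd_right _ _)
  have hC : (e : ℤ) ∣ C := by
    rw [he]; exact Int.gcd_dvd_right _ _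
  have h2 : (e : ℤ) * e ∣ (D : ℤ) := by
    rw [← hQ]
    obtain ⟨x, hx⟩ := hA
    obtain ⟨y, hy⟩ := hB
    obtain ⟨z, hz⟩ := hC
    rw [hx, hy, hz]
    exact ⟨y ^ 2 - 4 * (x * z), by ring⟩
  have h3 : e * e ∣ D := by exact_mod_cast h2
  have h4 := Nat.isUnit_iff.1 (hsq e h3)
  have b1 := Int.gcd_eq_gcd_ab A B
  have b2 := Int.gcd_eq_gcd_ab (Int.gcd A B : ℤ) C
  rw [← he, h4] at b2
  refine ⟨Int.gcdA A B * Int.gcdA (Int.gcd A B : ℤ) C, Int.gcdB A B * Int.gcdA (Int.gcd A B : ℤ) C,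
    Int.gcdB (Int.gcd A B : ℤ) C, ?_⟩
  rw [show (1 : ℤ) = ((1 : ℕ) : ℤ) from rfl, b2]
  linear_combination (-(Int.gcdA (Int.gcd A B : ℤ) C)) * b1

theorem stab_par {D : ℕ} (hsq : Squarefree D) {Q : Fo} (hQ : dsc Q = D)
    {g : Matrix.SpecialLinearGroup (Fin 2) ℤ}
    (h : act Q (g 0 0) (g 0 1) (g 1 0) (g 1 1) = Q) : ∃ s k, Par Q g s k := by
  obtain ⟨x, y, z, hxyz⟩ := stab_prim hsq hQ
  obtain ⟨A, B, C⟩ := Q
  have hd := sl_det g
  unfold act ev at h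
  simp only [Prod.mk.injEq] at h hxyz
  obtain ⟨h1, h2, h3⟩ := h
  obtain ⟨a, ha⟩ : ∃ a, a = g 0 0 := ⟨_, rfl⟩
  obtain ⟨b, hb⟩ : ∃ b, b = g 0 1 := ⟨_, rfl⟩
  obtain ⟨c, hc⟩ : ∃ c, c = g 1 0 := ⟨_, rfl⟩
  obtain ⟨d, hd'⟩ : ∃ d, d = g 1 1 := ⟨_, rfl⟩
  rw [← ha, ← hb, ← hc, ← hd'] at hd
  rw [← ha, ← hc] at h1
  rw [← ha, ← hb, ← hc, ← hd'] at h2
  rw [← hb, ← hd'] at h3
  -- `S g = g^{-T} S`
  have k1 : A * (d - a) = B * c := by
    have : 2 * (A * (d - a) - B * c) = 0 := by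
      linear_combination (-2 * d) * h1 + c * h2 + (2 * A * a + B * c) * hd
    linarith
  have k2 : -(A * b) = C * c := by
    have : 2 * (A * b + C * c) = 0 := by
      linear_combination d * h2 - 2 * c * h3 - (2 * A * b + B * d) * hd
    linarith
  have k3 : -(B * b) = C * (d - a) := by
    have : 2 * (B * b + C * (d - a)) = 0 := by
      linear_combination (-b) * h2 + 2 * a * h3 - (B * b + 2 * C * d) * hd
    linarith
  have hA : A * (x * c + y * (d - a) - z * b) = c := by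
    linear_combination y * k1 + z * k2 + c * hxyz
  have hB : B * (x * c + y * (d - a) - z * b) = d - a := by
    linear_combination (-x) * k1 + z * k3 + (d - a) * hxyz
  have hC : C * (x * c + y * (d - a) - z * b) = -b := by
    linear_combination (-x) * k2 - y * k3 - b * hxyz
  refine ⟨a + d, x * c + y * (d - a) - z * b, ?_, ?_, ?_, ?_⟩
  · rw [← ha]
    simp only
    linarith
  · rw [← hb]
    simp only
    linarith
  · rw [← hc]
    simp only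
    linarith
  · rw [← hd']
    simp only
    linarith

theorem stab_inv {Q : Fo} {g : Matrix.SpecialLinearGroup (Fin 2) ℤ} {s k : ℤ} (h : Par Q g s k) :
    Par Q g⁻¹ s (-k) := by
  obtain ⟨h1, h2, h3, h4⟩ := h
  have e : ((g⁻¹ : Matrix.SpecialLinearGroup (Fin 2) ℤ) : Matrix (Fin 2) (Fin 2) ℤ) =
      !![g 1 1, -g 0 1; -g 1 0, g 0 0] := by
    rw [Matrix.SpecialLinearGroup.coe_inv, Matrix.adjugate_fin_two]
  unfold Par
  rw [e]
  simp
  refine ⟨?_, ?_, ?_, ?_⟩ <;> linarith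

theorem stab_neg {Q : Fo} {g : Matrix.SpecialLinearGroup (Fin 2) ℤ} {s k : ℤ} (h : Par Q g s k) :
    Par Q (-g) (-s) (-k) := by
  obtain ⟨h1, h2, h3, h4⟩ := h
  unfold Par
  rw [Matrix.SpecialLinearGroup.coe_neg]
  simp only [Matrix.neg_apply]
  refine ⟨?_, ?_, ?_, ?_⟩ <;> linarith

theorem stab_step {Q : Fo} {D : ℤ} (hQ : dsc Q = D) {h g : Matrix.SpecialLinearGroup (Fin 2) ℤ}
    {t u s k s' k' : ℤ} (hh : Par Q h t u) (hg : Par Q g s k) (e1 : 2 * s' = t * s - D * (u * k))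
    (e2 : 2 * k' = t * k - u * s) : Par Q (h⁻¹ * g) s' k' := by
  obtain ⟨i1, i2, i3, i4⟩ := stab_inv hh
  obtain ⟨g1, g2, g3, g4⟩ := hg
  unfold dsc at hQ
  have hm : ∀ i j, (h⁻¹ * g) i j = h⁻¹ i 0 * g 0 j + h⁻¹ i 1 * g 1 j := by
    intro i j
    rw [Matrix.SpecialLinearGroup.coe_mul, Matrix.mul_apply, Fin.sum_univ_two]
  refine ⟨?_, ?_, ?_, ?_⟩
  · rw [hm]
    have : 2 * (2 * (h⁻¹ 0 0 * g 0 0 + h⁻¹ 0 1 * g 1 0)) = 2 * (s' - Q.2.1 * k') := by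
      have x : 2 * (2 * (h⁻¹ 0 0 * g 0 0 + h⁻¹ 0 1 * g 1 0)) =
        (2 * h⁻¹ 0 0) * (2 * g 0 0) + 4 * (h⁻¹ 0 1 * g 1 0) := by ring
      rw [x, i1, g1, i2, g3]
      linear_combination (-(u * k)) * hQ - e1 + Q.2.1 * e2
    linarith
  · rw [hm]
    have : 2 * (h⁻¹ 0 0 * g 0 1 + h⁻¹ 0 1 * g 1 1) = 2 * (-(Q.2.2 * k')) := by
      have x : 2 * (h⁻¹ 0 0 * g 0 1 + h⁻¹ 0 1 * g 1 1) =
        (2 * h⁻¹ 0 0) * g 0 1 + h⁻¹ 0 1 * (2 * g 1 1) := by ring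
      rw [x, i1, g2, i2, g4]
      linear_combination Q.2.2 * e2
    linarith
  · rw [hm]
    have : 2 * (h⁻¹ 1 0 * g 0 0 + h⁻¹ 1 1 * g 1 0) = 2 * (Q.1 * k') := by
      have x : 2 * (h⁻¹ 1 0 * g 0 0 + h⁻¹ 1 1 * g 1 0) =
        h⁻¹ 1 0 * (2 * g 0 0) + (2 * h⁻¹ 1 1) * g 1 0 := by ring
      rw [x, i3, g1, i4, g3]
      linear_combination (-Q.1) * e2
    linarith
  · rw [hm]
    have : 2 * (2 * (h⁻¹ 1 0 * g 0 1 + h⁻¹ 1 1 * g 1 1)) = 2 * (s' + Q.2.1 * k') := by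
      have x : 2 * (2 * (h⁻¹ 1 0 * g 0 1 + h⁻¹ 1 1 * g 1 1)) =
        4 * (h⁻¹ 1 0 * g 0 1) + (2 * h⁻¹ 1 1) * (2 * g 1 1) := by ring
      rw [x, i3, g2, i4, g4]
      linear_combination (-(u * k)) * hQ - e1 - Q.2.1 * e2
    linarith

theorem stab_main {Q : Fo} {D : ℕ} (hD1 : 1 < D) (hD : D % 2 = 1) (hQ : dsc Q = D)
    {h : Matrix.SpecialLinearGroup (Fin 2) ℤ} {t u : ℤ} (hh : Par Q h t u) (hF : Fund D t u) :
    ∀ (n : ℕ) (g : Matrix.SpecialLinearGroup (Fin 2) ℤ) (s k : ℤ), Par Q g s k → 0 < s → 0 ≤ k →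
      k ≤ n → ∃ m : ℕ, g = h ^ m := by
  intro n
  induction n with
  | zero =>
    intro g s k hg hs hk hkn
    have hk0 : k = 0 := by
      have : (((0 : ℕ)) : ℤ) = 0 := rfl
      omega
    have he := Par.eq hQ hg
    subst hk0
    have hs2 : s = 2 := by nlinarith
    subst hs2
    obtain ⟨h1, h2, h3, h4⟩ := hg
    refine ⟨0, ?_⟩
    rw [pow_zero]
    ext i j
    fin_cases i <;> fin_cases j
    · simp only [Fin.zero_eta, Matrix.SpecialLinearGroup.coe_one, Matrix.one_apply_eq]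
      show g 0 0 = 1
      linarith
    · show g 0 1 = _
      rw [h2]
      simp
    · show g 1 0 = _
      rw [h3]
      simp
    · show g 1 1 = _
      simp
      linarith
  | succ n ih =>
    intro g s k hg hs hk hkn
    rcases hk.eq_or_lt with hk0 | hk0
    · exact ih g s k hg hs hk (by omega)
    have he := Par.eq hQ hg
    have hf := hF.eq
    have hDp : (0 : ℤ) < D := by exact_mod_cast (by omega : 0 < D)
    have hD' : (D : ℤ) % 2 = 1 := by omega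
    have hts : t ≤ s := hF.min s k hs hk0 he
    have hu := hF.posu
    have ht := hF.post
    have hku : u ≤ k := by
      by_contra hlt
      push Not at hlt
      have : t ^ 2 ≤ s ^ 2 := by nlinarith
      have h2 : D * u ^ 2 ≤ D * k ^ 2 := by linarith
      have h3 : u ^ 2 ≤ k ^ 2 := le_of_mul_le_mul_left h2 hDp
      nlinarith
    have ht2 : 2 < t := by nlinarith
    have p1 := chi_par hD' he
    have p2 := chi_par hD' hf
    obtain ⟨x, hx⟩ : ∃ x, s = k + 2 * x := ⟨(s - k) / 2, by omega⟩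
    obtain ⟨y, hy⟩ : ∃ y, t = u + 2 * y := ⟨(t - u) / 2, by omega⟩
    obtain ⟨z, hz⟩ : ∃ z, (D : ℤ) = 2 * z + 1 := ⟨(D : ℤ) / 2, by omega⟩
    obtain ⟨s', hs'⟩ : ∃ s', 2 * s' = t * s - D * (u * k) := by
      refine ⟨u * x + y * k + 2 * (x * y) - z * (u * k), ?_⟩
      rw [hz, hx, hy]; ring
    obtain ⟨k', hk'⟩ : ∃ k', 2 * k' = t * k - u * s := by
      refine ⟨y * k - u * x, ?_⟩
      rw [hx, hy]; ring
    have hg' := stab_step (D := (D : ℤ)) hQ hh hg hs' hk'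
    have hs'0 : 0 < s' := by
      have h1 : D * (u * k) < t * s := by
        apply lt_of_pow_lt_pow_left₀ 2 (by positivity)
        have e : (t * s) ^ 2 = (D * u ^ 2 + 4) * (D * k ^ 2 + 4) := by
          rw [mul_pow, show t ^ 2 = D * u ^ 2 + 4 by linarith, show s ^ 2 = D * k ^ 2 + 4 by linarith]
        rw [e]
        nlinarith [mul_pos hDp (pow_pos hu 2), mul_pos hDp (pow_pos hk0 2)]
      linarith
    have hk'0 : 0 ≤ k' := by
      have h1 : u * s ≤ t * k := by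
        apply (pow_le_pow_iff_left₀ (by positivity) (by positivity) two_ne_zero).1
        have e : (t * k) ^ 2 - (u * s) ^ 2 = 4 * (k ^ 2 - u ^ 2) := by
          linear_combination k ^ 2 * hf - u ^ 2 * he
        nlinarith
      linarith
    have hk'k : k' < k := by
      have h1 : (t - 2) * k < u * s := by
        apply lt_of_pow_lt_pow_left₀ 2 (by positivity)
        have e : (u * s) ^ 2 - ((t - 2) * k) ^ 2 = 4 * (t - 2) * k ^ 2 + 4 * u ^ 2 := by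
          linear_combination u ^ 2 * he - k ^ 2 * hf
        have : 0 < 4 * (t - 2) * k ^ 2 + 4 * u ^ 2 := by
          have : 0 < t - 2 := by linarith
          positivity
        linarith
      linarith
    obtain ⟨m, hm⟩ := ih (h⁻¹ * g) s' k' hg' hs'0 hk'0 (by push_cast at hkn; omega)
    refine ⟨m + 1, ?_⟩
    rw [pow_succ', ← hm, mul_inv_cancel_left]

theorem stab_pos {Q : Fo} {D : ℕ} (hD1 : 1 < D) (hD : D % 2 = 1) (hQ : dsc Q = D)
    {h : Matrix.SpecialLinearGroup (Fin 2) ℤ} {t u : ℤ} (hh : Par Q h t u) (hF : Fund D t u)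
    (g : Matrix.SpecialLinearGroup (Fin 2) ℤ) (s k : ℤ) (hg : Par Q g s k) (hs : 0 < s) :
    ∃ m : ℤ, g = h ^ m := by
  rcases le_or_gt 0 k with hk | hk
  · obtain ⟨m, hm⟩ := stab_main hD1 hD hQ hh hF k.toNat g s k hg hs hk (by omega)
    exact ⟨m, by rw [zpow_natCast]; exact hm⟩
  · obtain ⟨m, hm⟩ := stab_main hD1 hD hQ hh hF (-k).toNat g⁻¹ s (-k) (stab_inv hg) hs (by omega)
      (by omega)
    refine ⟨-m, ?_⟩
    rw [_root_.zpow_neg, zpow_natCast, ← hm, inv_inv]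

theorem t_STAB : S_STAB := by
  intro D hsq hD4 hD1 t u hF Q hQ
  have hD : D % 2 = 1 := by omega
  obtain ⟨k1, k2, k3⟩ := chi_halves hD hQ hF.eq
  let h : Matrix.SpecialLinearGroup (Fin 2) ℤ :=
    ⟨!![(t - Q.2.1 * u) / 2, -(Q.2.2 * u); Q.1 * u, (t + Q.2.1 * u) / 2], by
      rw [Matrix.det_fin_two_of]; exact k3⟩
  have hh : Par Q h t u := ⟨k2.symm, rfl, rfl, k1.symm⟩
  refine ⟨h, rfl, hh.act, ?_⟩
  intro g hg
  obtain ⟨s, k, hsk⟩ := stab_par hsq hQ hg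
  have he := Par.eq hQ hsk
  have hs0 : s ≠ 0 := by
    rintro rfl
    nlinarith [sq_nonneg k, (by exact_mod_cast (by omega : 0 ≤ D) : (0 : ℤ) ≤ D),
      mul_nonneg (by exact_mod_cast (by omega : 0 ≤ D) : (0 : ℤ) ≤ D) (sq_nonneg k)]
  rcases lt_or_gt_of_ne hs0 with hs | hs
  · obtain ⟨n, hn⟩ := stab_pos hD1 hD hQ hh hF (-g) (-s) (-k) (stab_neg hsk) (by omega)
    exact ⟨n, Or.inr (by rw [← hn, neg_neg])⟩
  · obtain ⟨n, hn⟩ := stab_pos hD1 hD hQ hh hF g s k hsk hs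
    exact ⟨n, Or.inl hn⟩

end Pool.Agent.H757_X15.CC
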