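import Pool.Agent.H757_X15.StmC

/-!
# Project X15-C, task C13: the congruence modulo `8` (STAR)

Both sides are homomorphisms on `Γ₀(15)`; they are compared on the generators
`-1, T, U, h2, h2', h4, h11`, by a descent on the lower right entry.
-/

set_option autoImplicit false
set_option linter.unusedVariables false

namespace Pool.Agent.H757_X15.CC

open Finset
open Pool.Agent.H757_X15.BB (chi4)

namespace Star

/-! ### the values of `rho` on words -/

/-- the multiplicativity of `rho` -/
def RM : Prop := ∀ a b c d a' b' c' d' : ℤ, a * d - b * c = 1 → 5 ∣ c → a' * d' - b' * c' = 1 → 5 ∣ c' →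
    rho (a * a' + b * c') (a * b' + b * d') (c * a' + d * c') (c * b' + d * d') =
      rho a b c d + rho a' b' c' d'

/-- a matrix of `Γ₀(5)` with the value of `rho` -/
def Val (a b c d n : ℤ) : Prop := a * d - b * c = 1 ∧ 5 ∣ c ∧ rho a b c d = n

theorem Val.mul (h : RM) {a b c d n a' b' c' d' n' : ℤ} (h1 : Val a b c d n) (h2 : Val a' b' c' d' n') :
    Val (a * a' + b * c') (a * b' + b * d') (c * a' + d * c') (c * b' + d * d') (n + n') := by
  obtain ⟨e1, f1, g1⟩ := h1
  obtain ⟨e2, f2, g2⟩ := h2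
  refine ⟨?_, ?_, ?_⟩
  · linear_combination (a' * d' - b' * c') * e1 + e2
  · exact dvd_add (Dvd.dvd.mul_right f1 _) (Dvd.dvd.mul_left f2 _)
  · rw [h a b c d a' b' c' d' e1 f1 e2 f2, g1, g2]

/-- multiplication, with the entries to be checked -/
theorem Val.mul' (h : RM) {a b c d n a' b' c' d' n' A B C D N : ℤ} (h1 : Val a b c d n)
    (h2 : Val a' b' c' d' n') (hA : a * a' + b * c' = A) (hB : a * b' + b * d' = B)
    (hC : c * a' + d * c' = C) (hD : c * b' + d * d' = D) (hN : n + n' = N) : Val A B C D N := by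
  subst hA hB hC hD hN
  exact Val.mul h h1 h2

/-! ### the values of `NN` -/

theorem NN_eval (x M : ℤ) (F : Finset Fo)
    (hF : ∀ q : Fo, (Fq q ∧ 0 < q.1 ∧ ev q x M < 0) ↔ q ∈ F) : NN x M = ∑ q ∈ F, cQ q := by
  classical
  unfold NN
  rw [finsum_eq_sum_of_support_subset _ (s := F)]
  · apply Finset.sum_congr rfl
    intro q hq
    rw [if_pos ((hF q).2 hq)]
  · intro q hq
    rw [Function.mem_support] at hq
    by_contra hcon
    apply hq
    rw [if_neg (fun h => hcon ((hF q).1 h))]

theorem bounds {q : Fo} {x M : ℤ} (hq : Fq q) (hp : 0 < q.1) (hn : ev q x M < 0) :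
    (2 * q.1 * x + q.2.1 * M) ^ 2 < 16 * M ^ 2 ∧ q.1 ≤ 4 * M ^ 2 := by
  obtain ⟨A, B, C⟩ := q
  obtain ⟨hd, _, _⟩ := hq
  simp only [dsc, ev] at *
  have e : (2 * A * x + B * M) ^ 2 - 16 * M ^ 2 = 4 * A * (A * x ^ 2 + B * (x * M) + C * M ^ 2) := by
    linear_combination M ^ 2 * hd
  have h1 : 4 * A * (A * x ^ 2 + B * (x * M) + C * M ^ 2) ≤ - (4 * A) := by nlinarith
  constructor
  · nlinarith
  · nlinarith [sq_nonneg (2 * A * x + B * M)]

theorem abs_lt_of {s M : ℤ} (hM : 0 < M) (h : s ^ 2 < 16 * M ^ 2) : -(4 * M) < s ∧ s < 4 * M := by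
  have : |s| < |4 * M| := by
    rw [← sq_lt_sq]; linarith [mul_pow (4 : ℤ) M 2]
  rw [abs_of_pos (show (0 : ℤ) < 4 * M by linarith)] at this
  exact abs_lt.1 this

theorem NN_one (x : ℤ) : NN x 1 = 0 := by
  rw [NN_eval x 1 ∅]
  · simp
  · intro q
    refine ⟨fun ⟨h1, h2, h3⟩ => ?_, fun h => absurd h (by simp)⟩
    exfalso
    have hb := abs_lt_of one_pos (bounds h1 h2 h3).1
    obtain ⟨_, ⟨k, hk⟩, hm⟩ := h1
    rw [hk] at hb
    have h4 : 2 * (15 * k) * x + q.2.1 * 1 = 30 * (k * x) + q.2.1 := by ring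
    rw [h4] at hb
    generalize k * x = y at hb
    omega

theorem NN_1_2 : NN 1 2 = -2 := by
  rw [NN_eval 1 2 {(15, -16, 4), (15, -14, 3)}]
  · decide
  · intro q
    constructor
    · rintro ⟨h1, h2, h3⟩
      have hb := abs_lt_of two_pos (bounds h1 h2 h3).1
      have hA := (bounds h1 h2 h3).2
      obtain ⟨A, B, C⟩ := q
      obtain ⟨hd, ⟨k, hk⟩, hm⟩ := h1
      simp only [dsc, ev] at *
      have hA15 : A = 15 := by omega
      subst hA15
      have hB : B = -16 ∨ B = -14 := by omega
      rcases hB with rfl | rfl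
      · have : C = 4 := by omega
        subst this; simp
      · have : C = 3 := by omega
        subst this; simp
    · intro h
      simp only [Finset.mem_insert, Finset.mem_singleton] at h
      rcases h with rfl | rfl <;> (unfold Fq dsc ev; norm_num)

theorem NN_1_4 : NN 1 4 = 0 := by
  rw [NN_eval 1 4 {(30, -16, 2)}]
  · decide
  · intro q
    constructor
    · rintro ⟨h1, h2, h3⟩
      have hb := abs_lt_of (by norm_num) (bounds h1 h2 h3).1
      have hA := (bounds h1 h2 h3).2
      obtain ⟨A, B, C⟩ := q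
      obtain ⟨hd, ⟨k, hk⟩, hm⟩ := h1
      simp only [dsc, ev] at *
      have hB : (A = 30 ∧ (B = -16 ∨ B = -14)) := by omega
      obtain ⟨rfl, rfl | rfl⟩ := hB
      · have : C = 2 := by omega
        subst this; simp
      · exfalso; omega
    · intro h
      simp only [Finset.mem_singleton] at h
      subst h
      unfold Fq dsc ev; norm_num

theorem box : ∀ k ∈ Finset.Icc (1 : ℤ) 32, ∀ j ∈ Finset.Icc (-4 : ℤ) 4,
    ((-(120 * k) / 11 + j) % 30 = 14 ∨ (-(120 * k) / 11 + j) % 30 = 16) →
    ((-(120 * k) / 11 + j) ^ 2 - 16) % (60 * k) = 0 →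
    ((15 * k, -(120 * k) / 11 + j, ((-(120 * k) / 11 + j) ^ 2 - 16) / (60 * k)) : Fo) ∈
      ({(15, -14, 3), (60, -44, 8), (105, -74, 13)} : Finset Fo) ∨
      ¬ (ev (15 * k, -(120 * k) / 11 + j, ((-(120 * k) / 11 + j) ^ 2 - 16) / (60 * k)) 4 11 < 0) := by
  decide +kernel

theorem NN_4_11 : NN 4 11 = 0 := by
  rw [NN_eval 4 11 {(15, -14, 3), (60, -44, 8), (105, -74, 13)}]
  · decide
  · intro q
    constructor
    · rintro ⟨h1, h2, h3⟩
      have hb := abs_lt_of (by norm_num) (bounds h1 h2 h3).1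
      have hA := (bounds h1 h2 h3).2
      obtain ⟨A, B, C⟩ := q
      obtain ⟨hd, ⟨k, hk⟩, hm⟩ := h1
      simp only [dsc] at hd hA hb hm h2 hk
      subst hk
      have hk1 : 1 ≤ k ∧ k ≤ 32 := by omega
      have hj : -4 ≤ B - -(120 * k) / 11 ∧ B - -(120 * k) / 11 ≤ 4 := by omega
      have hx := box k (Finset.mem_Icc.2 hk1) (B - -(120 * k) / 11) (Finset.mem_Icc.2 hj)
      rw [add_sub_cancel] at hx
      have e : B ^ 2 - 16 = C * (60 * k) := by linear_combination hd
      rw [e, Int.mul_emod_left, Int.mul_ediv_cancel _ (by omega)] at hx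
      rcases hx hm rfl with hx | hx
      · exact hx
      · exact absurd h3 hx
    · intro h
      simp only [Finset.mem_insert, Finset.mem_singleton] at h
      rcases h with rfl | rfl | rfl <;> (unfold Fq dsc ev; norm_num)

/-! ### the homomorphism modulo `8` -/

/-- the difference of both sides modulo `8` -/
noncomputable def Ph (a b c d : ℤ) : ZMod 8 :=
  ((NN b d + 2 * log4 d - 2 * rho a b (15 * c) d - 2 * rho a (3 * b) (5 * c) d : ℤ) : ZMod 8)

theorem log4_mod (d : ℤ) : log4 d = log4 (d % 15) := by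
  unfold log4
  rw [Int.emod_emod_of_dvd _ (dvd_refl _)]

theorem log4_mul {d d' : ℤ} (h : IsCoprime d 15) (h' : IsCoprime d' 15) :
    ((2 * log4 (d * d') : ℤ) : ZMod 8) = ((2 * log4 d + 2 * log4 d' : ℤ) : ZMod 8) := by
  have key : ∀ x ∈ Finset.Ico (0 : ℤ) 15, ∀ y ∈ Finset.Ico (0 : ℤ) 15, x % 3 ≠ 0 → x % 5 ≠ 0 → y % 3 ≠ 0 →
      y % 5 ≠ 0 → (8 : ℤ) ∣ 2 * log4 ((x * y) % 15) - (2 * log4 x + 2 * log4 y) := by
    unfold log4
    decide +kernel
  have h3 : ∀ {d : ℤ}, IsCoprime d 15 → (d % 15) % 3 ≠ 0 ∧ (d % 15) % 5 ≠ 0 := by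
    intro d hd
    obtain ⟨u, v, huv⟩ := hd
    constructor
    · intro h0
      have : (3 : ℤ) ∣ d := by omega
      have h1 : (3 : ℤ) ∣ 1 := by
        rw [← huv]; exact dvd_add (Dvd.dvd.mul_left this _) (Dvd.dvd.mul_left (by norm_num) _)
      norm_num at h1
    · intro h0
      have : (5 : ℤ) ∣ d := by omega
      have h1 : (5 : ℤ) ∣ 1 := by
        rw [← huv]; exact dvd_add (Dvd.dvd.mul_left this _) (Dvd.dvd.mul_left (by norm_num) _)
      norm_num at h1
  have hx : d % 15 ∈ Finset.Ico (0 : ℤ) 15 := Finset.mem_Ico.2 ⟨by omega, by omega⟩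
  have hy : d' % 15 ∈ Finset.Ico (0 : ℤ) 15 := Finset.mem_Ico.2 ⟨by omega, by omega⟩
  have := key _ hx _ hy (h3 h).1 (h3 h).2 (h3 h').1 (h3 h').2
  rw [← Int.mul_emod, ← log4_mod, ← log4_mod, ← log4_mod] at this
  rw [← sub_eq_zero, ← Int.cast_sub]
  exact (ZMod.intCast_zmod_eq_zero_iff_dvd _ 8).2 (by exact_mod_cast this)

theorem Ph_mul (hH : ∀ a b c d : ℤ, a * d - b * (15 * c) = 1 →
    (∀ x M : ℤ, IsCoprime M 15 → IsCoprime x M →
    NN (a * x + b * M) (15 * c * x + d * M) = NN b d + NN x M)) (hR : RM)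
    {a b c d a' b' c' d' : ℤ} (e : a * d - b * (15 * c) = 1) (e' : a' * d' - b' * (15 * c') = 1) :
    Ph (a * a' + b * (15 * c')) (a * b' + b * d') (c * a' + d * c') (15 * c * b' + d * d') =
      Ph a b c d + Ph a' b' c' d' := by
  have cop : ∀ {a b c d : ℤ}, a * d - b * (15 * c) = 1 → IsCoprime d 15 := by
    intro a b c d h
    exact ⟨a, -(b * c), by linear_combination h⟩
  have h1 : NN (a * b' + b * d') (15 * c * b' + d * d') = NN b d + NN b' d' :=
    hH a b c d e b' d' (cop e') ⟨-(15 * c'), a', by linear_combination e'⟩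
  have h2 : rho (a * a' + b * (15 * c')) (a * b' + b * d') (15 * (c * a' + d * c')) (15 * c * b' + d * d') =
      rho a b (15 * c) d + rho a' b' (15 * c') d' := by
    have := hR a b (15 * c) d a' b' (15 * c') d' e ⟨3 * c, by ring⟩ e' ⟨3 * c', by ring⟩
    rw [← this]
    congr 1
    ring
  have h3 : rho (a * a' + b * (15 * c')) (3 * (a * b' + b * d')) (5 * (c * a' + d * c')) (15 * c * b' + d * d') =
      rho a (3 * b) (5 * c) d + rho a' (3 * b') (5 * c') d' := by
    have := hR a (3 * b) (5 * c) d a' (3 * b') (5 * c') d' (by linear_combination e) ⟨c, rfl⟩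
      (by linear_combination e') ⟨c', rfl⟩
    rw [← this]
    congr 1 <;> ring
  have h4 : ((2 * log4 (15 * c * b' + d * d') : ℤ) : ZMod 8) = ((2 * log4 d + 2 * log4 d' : ℤ) : ZMod 8) := by
    have hm : (15 * c * b' + d * d') % 15 = (d * d') % 15 := by
      rw [show 15 * c * b' + d * d' = d * d' + 15 * (c * b') by ring, Int.add_mul_emod_self_left]
    rw [← log4_mul (cop e) (cop e'), log4_mod (15 * c * b' + d * d'), hm, ← log4_mod (d * d')]
  unfold Ph
  rw [h1, h2, h3]
  push_cast at h4 ⊢
  linear_combination h4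

/-- the data: `Ph` is a homomorphism which vanishes on the generators -/
structure Hyp : Prop where
  mul : ∀ {a b c d a' b' c' d' : ℤ}, a * d - b * (15 * c) = 1 → a' * d' - b' * (15 * c') = 1 →
    Ph (a * a' + b * (15 * c')) (a * b' + b * d') (c * a' + d * c') (15 * c * b' + d * d') =
      Ph a b c d + Ph a' b' c' d'
  t : Ph 1 1 0 1 = 0
  u : Ph 1 0 1 1 = 0
  m : Ph (-1) 0 0 (-1) = 0
  h2 : Ph (-7) (-1) 1 2 = 0
  h2' : Ph 7 (-1) 1 (-2) = 0
  h4 : Ph 4 1 1 4 = 0
  h11 : Ph 11 4 2 11 = 0

namespace Hyp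

variable (H : Hyp)
include H

theorem mul' {a b c d a' b' c' d' A B C D : ℤ} (e : a * d - b * (15 * c) = 1)
    (e' : a' * d' - b' * (15 * c') = 1) (hA : a * a' + b * (15 * c') = A) (hB : a * b' + b * d' = B)
    (hC : c * a' + d * c' = C) (hD : 15 * c * b' + d * d' = D) :
    Ph A B C D = Ph a b c d + Ph a' b' c' d' := by
  subst hA hB hC hD
  exact H.mul e e'

theorem one : Ph 1 0 0 1 = 0 := by
  have := H.mul' (a := 1) (b := 0) (c := 0) (d := 1) (a' := 1) (b' := 0) (c' := 0) (d' := 1)
    (A := 1) (B := 0) (C := 0) (D := 1) (by norm_num) (by norm_num) (by norm_num) (by norm_num)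
    (by norm_num) (by norm_num)
  have h2 : Ph 1 0 0 1 + 0 = Ph 1 0 0 1 + Ph 1 0 0 1 := by rw [add_zero]; exact this
  exact (add_left_cancel h2).symm

theorem neg {a b c d : ℤ} (e : a * d - b * (15 * c) = 1) : Ph (-a) (-b) (-c) (-d) = Ph a b c d := by
  rw [H.mul' (a := -1) (b := 0) (c := 0) (d := -1) (by norm_num) e (by ring) (by ring) (by ring) (by ring),
    H.m, zero_add]

theorem inv {a b c d : ℤ} (e : a * d - b * (15 * c) = 1) : Ph d (-b) (-c) a = - Ph a b c d := by
  have := H.mul' (A := 1) (B := 0) (C := 0) (D := 1) e (a' := d) (b' := -b) (c' := -c) (d' := a)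
    (by linear_combination e) (by linear_combination e) (by ring) (by ring) (by linear_combination e)
  rw [H.one] at this
  exact eq_neg_of_add_eq_zero_right this.symm

theorem tp (k : ℤ) : Ph 1 k 0 1 = 0 := by
  induction k using Int.induction_on with
  | zero => exact H.one
  | succ k ih =>
    rw [H.mul' (a := 1) (b := k) (c := 0) (d := 1) (a' := 1) (b' := 1) (c' := 0) (d' := 1) (by ring) (by ring)
      (by ring) (by ring) (by ring) (by ring), ih, H.t, add_zero]
  | pred k ih =>
    have h1 := H.inv (a := 1) (b := 1) (c := 0) (d := 1) (by norm_num)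
    rw [H.t, neg_zero, neg_zero] at h1
    rw [H.mul' (a := 1) (b := -(k : ℤ)) (c := 0) (d := 1) (a' := 1) (b' := -1) (c' := 0) (d' := 1) (by ring)
      (by ring) (by ring) (by ring) (by ring) (by ring), ih, h1, add_zero]

theorem up (k : ℤ) : Ph 1 0 k 1 = 0 := by
  induction k using Int.induction_on with
  | zero => exact H.one
  | succ k ih =>
    rw [H.mul' (a := 1) (b := 0) (c := k) (d := 1) (a' := 1) (b' := 0) (c' := 1) (d' := 1) (by ring) (by ring)
      (by ring) (by ring) (by ring) (by ring), ih, H.u, add_zero]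
  | pred k ih =>
    have h1 := H.inv (a := 1) (b := 0) (c := 1) (d := 1) (by norm_num)
    rw [H.u, neg_zero, neg_zero] at h1
    rw [H.mul' (a := 1) (b := 0) (c := -(k : ℤ)) (d := 1) (a' := 1) (b' := 0) (c' := -1) (d' := 1) (by ring)
      (by ring) (by ring) (by ring) (by ring) (by ring), ih, h1, add_zero]

/-- one step of the descent -/
theorem step {a b c d A B C D : ℤ} (e : a * d - b * (15 * c) = 1) (E : A * D - B * (15 * C) = 1)
    (hP : Ph A B C D = 0)
    (ih : ∀ a' b' c' : ℤ, a' * (15 * C * b + D * d) - b' * (15 * c') = 1 →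
      Ph a' b' c' (15 * C * b + D * d) = 0) : Ph a b c d = 0 := by
  have h1 := H.mul E e
  have h2 := ih (A * a + B * (15 * c)) (A * b + B * d) (C * a + D * c)
    (by linear_combination (A * D - B * (15 * C)) * e + E)
  rw [h2, hP, zero_add] at h1
  exact h1.symm

theorem main : ∀ (n : ℕ) (a b c d : ℤ), a * d - b * (15 * c) = 1 → d.natAbs = n → Ph a b c d = 0 := by
  intro n
  induction n using Nat.strong_induction_on with
  | _ n ih =>
    -- it is enough to treat `0 < d`
    suffices key : ∀ (a b c d : ℤ), 0 < d → a * d - b * (15 * c) = 1 → d.natAbs = n → Ph a b c d = 0 by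
      intro a b c d e hn
      rcases lt_trichotomy d 0 with hd | hd | hd
      · rw [← H.neg e]
        exact key _ _ _ _ (by linarith) (by linear_combination e) (by rw [Int.natAbs_neg]; exact hn)
      · exfalso
        subst hd
        have : (15 : ℤ) * (b * c) = -1 := by linear_combination -e
        omega
      · exact key a b c d hd e hn
    intro a b c d hd e hn
    -- reduce `b` modulo `d`
    suffices key2 : ∀ (a b c : ℤ), a * d - b * (15 * c) = 1 → -d ≤ 2 * b → 2 * b ≤ d → Ph a b c d = 0 by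
      obtain ⟨k, hk⟩ : ∃ k : ℤ, -d ≤ 2 * (b + k * d) ∧ 2 * (b + k * d) ≤ d := by
        refine ⟨-((2 * b + d) / (2 * d)), ?_⟩
        have h1 := Int.emod_add_mul_ediv (2 * b + d) (2 * d)
        have h2 := Int.emod_nonneg (2 * b + d) (show 2 * d ≠ 0 by omega)
        have h3 := Int.emod_lt_of_pos (2 * b + d) (show 0 < 2 * d by omega)
        constructor <;> nlinarith
      have h1 := key2 (a + k * (15 * c)) (b + k * d) c (by linear_combination e) hk.1 hk.2
      rw [H.mul' (a := 1) (b := k) (c := 0) (d := 1) (by ring) e (by ring) (by ring) (by ring) (by ring),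
        H.tp, zero_add] at h1
      exact h1
    intro a b c e hb1 hb2
    have go : ∀ (A B C D : ℤ), A * D - B * (15 * C) = 1 → Ph A B C D = 0 →
        -d < 15 * C * b + D * d → 15 * C * b + D * d < d → Ph a b c d = 0 := by
      intro A B C D E hP hl hu
      refine H.step e E hP (fun a' b' c' e' => ?_)
      refine ih (15 * C * b + D * d).natAbs ?_ a' b' c' _ e' rfl
      omega
    have d3 : d % 3 ≠ 0 := by
      intro h0
      obtain ⟨m, hm⟩ : (3 : ℤ) ∣ d := Int.dvd_of_emod_eq_zero h0
      rw [hm] at e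
      have : 3 * (a * m - b * (5 * c)) = 1 := by linear_combination e
      omega
    have d5 : d % 5 ≠ 0 := by
      intro h0
      obtain ⟨m, hm⟩ : (5 : ℤ) ∣ d := Int.dvd_of_emod_eq_zero h0
      rw [hm] at e
      have : 5 * (a * m - b * (3 * c)) = 1 := by linear_combination e
      omega
    by_cases hb0 : b = 0
    · subst hb0
      have hd1 : d = 1 := by
        have : d ∣ 1 := ⟨a, by linear_combination -e⟩
        exact Int.eq_one_of_dvd_one hd.le this
      subst hd1
      have ha : a = 1 := by linear_combination e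
      subst ha
      exact H.up c
    · -- the intervals
      rcases lt_or_gt_of_ne hb0 with hneg | hpos
      · by_cases c1 : -2 * d < 15 * b
        · exact go 1 0 1 1 (by norm_num) H.u (by omega) (by omega)
        by_cases c2 : -3 * d < 15 * b
        · exact go (-7) (-1) 1 2 (by norm_num) H.h2 (by omega) (by omega)
        by_cases c3 : -5 * d < 15 * b
        · exact go 4 1 1 4 (by norm_num) H.h4 (by omega) (by omega)
        by_cases c4 : -6 * d < 15 * b
        · exact go 11 4 2 11 (by norm_num) H.h11 (by omega) (by omega)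
        · refine go (-2) (-1) 1 7 (by norm_num) ?_ (by omega) (by omega)
          have h1 := H.inv (a := -7) (b := -1) (c := 1) (d := 2) (by norm_num)
          rw [H.h2, neg_zero] at h1
          have h2 := H.neg (a := 2) (b := 1) (c := -1) (d := -7) (by norm_num)
          norm_num at h1 h2
          rw [h2, h1]
      · by_cases c1 : 15 * b < 2 * d
        · refine go (-1) 0 1 (-1) (by norm_num) ?_ (by omega) (by omega)
          have h1 := H.inv (a := 1) (b := 0) (c := 1) (d := 1) (by norm_num)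
          rw [H.u, neg_zero, neg_zero] at h1
          have h2 := H.neg (a := 1) (b := 0) (c := -1) (d := 1) (by norm_num)
          norm_num at h1 h2
          rw [h2, h1]
        by_cases c2 : 15 * b < 3 * d
        · exact go 7 (-1) 1 (-2) (by norm_num) H.h2' (by omega) (by omega)
        by_cases c3 : 15 * b < 5 * d
        · refine go (-4) 1 1 (-4) (by norm_num) ?_ (by omega) (by omega)
          have h1 := H.inv (a := 4) (b := 1) (c := 1) (d := 4) (by norm_num)
          rw [H.h4, neg_zero] at h1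
          have h2 := H.neg (a := 4) (b := -1) (c := -1) (d := 4) (by norm_num)
          norm_num at h1 h2
          rw [h2, h1]
        by_cases c4 : 15 * b < 6 * d
        · refine go (-11) 4 2 (-11) (by norm_num) ?_ (by omega) (by omega)
          have h1 := H.inv (a := 11) (b := 4) (c := 2) (d := 11) (by norm_num)
          rw [H.h11, neg_zero] at h1
          have h2 := H.neg (a := 11) (b := -4) (c := -2) (d := 11) (by norm_num)
          norm_num at h1 h2
          rw [h2, h1]
        · refine go 2 (-1) 1 (-7) (by norm_num) ?_ (by omega) (by omega)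
          have h1 := H.inv (a := 7) (b := -1) (c := 1) (d := -2) (by norm_num)
          rw [H.h2', neg_zero] at h1
          have h2 := H.neg (a := -2) (b := 1) (c := -1) (d := 7) (by norm_num)
          norm_num at h1 h2
          rw [h2, h1]

end Hyp

theorem Ph_eq {a b c d n r1 r2 l : ℤ} (hn : NN b d = n) (hl : log4 d = l)
    (h1 : Val a b (15 * c) d r1) (h2 : Val a (3 * b) (5 * c) d r2) (h8 : (8 : ℤ) ∣ n + 2 * l - 2 * r1 - 2 * r2) :
    Ph a b c d = 0 := by
  unfold Ph
  rw [hn, hl, h1.2.2, h2.2.2]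
  exact (ZMod.intCast_zmod_eq_zero_iff_dvd _ 8).2 (by exact_mod_cast h8)

theorem hyp (hNC : S_NC) (hNH : S_NHOM) (hR : S_RHO) : Hyp := by
  have h := hR.1
  obtain ⟨_, hT, hm, hE, hF⟩ := hR
  have hsym := hNC.2.2.2.2.2.2
  have T : Val 1 1 0 1 (-1) := ⟨by norm_num, by norm_num, hT⟩
  have E : Val 2 (-1) 5 (-2) 0 := ⟨by norm_num, by norm_num, hE⟩
  have F : Val (-2) (-1) 5 2 0 := ⟨by norm_num, by norm_num, hF⟩
  have m : Val (-1) 0 0 (-1) 0 := ⟨by norm_num, by norm_num, hm⟩
  have one : Val 1 0 0 1 0 := Val.mul' h m m (by norm_num) (by norm_num) (by norm_num) (by norm_num) (by norm_num)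
  have t : Val 1 (-1) 0 1 1 := by
    refine ⟨by norm_num, by norm_num, ?_⟩
    have h1 := h 1 1 0 1 1 (-1) 0 1 (by norm_num) (by norm_num) (by norm_num) (by norm_num)
    norm_num at h1
    rw [one.2.2, hT] at h1
    linarith
  have T3 : Val 1 3 0 1 (-3) := by
    have h1 : Val 1 2 0 1 (-2) := Val.mul' h T T (by norm_num) (by norm_num) (by norm_num) (by norm_num) (by norm_num)
    exact Val.mul' h h1 T (by norm_num) (by norm_num) (by norm_num) (by norm_num) (by norm_num)
  have ET : Val 2 1 5 3 (-1) := Val.mul' h E T (by norm_num) (by norm_num) (by norm_num) (by norm_num) (by norm_num)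
  have U5 : Val 1 0 5 1 (-1) := Val.mul' h ET F (by norm_num) (by norm_num) (by norm_num) (by norm_num) (by norm_num)
  have U10 : Val 1 0 10 1 (-2) := Val.mul' h U5 U5 (by norm_num) (by norm_num) (by norm_num) (by norm_num) (by norm_num)
  have U15 : Val 1 0 15 1 (-3) := Val.mul' h U10 U5 (by norm_num) (by norm_num) (by norm_num) (by norm_num) (by norm_num)
  -- h2 = F U5, h2_3 = t F
  have A1 : Val (-7) (-1) 15 2 (-1) := Val.mul' h F U5 (by norm_num) (by norm_num) (by norm_num) (by norm_num) (by norm_num)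
  have A2 : Val (-7) (-3) 5 2 1 := Val.mul' h t F (by norm_num) (by norm_num) (by norm_num) (by norm_num) (by norm_num)
  -- h2' = E F t E, h2'_3 = T E
  have tE : Val (-3) 1 5 (-2) 1 := Val.mul' h t E (by norm_num) (by norm_num) (by norm_num) (by norm_num) (by norm_num)
  have FtE : Val 1 0 (-5) 1 1 := Val.mul' h F tE (by norm_num) (by norm_num) (by norm_num) (by norm_num) (by norm_num)
  have B1 : Val 7 (-1) 15 (-2) 1 := Val.mul' h E FtE (by norm_num) (by norm_num) (by norm_num) (by norm_num) (by norm_num)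
  have B2 : Val 7 (-3) 5 (-2) (-1) := Val.mul' h T E (by norm_num) (by norm_num) (by norm_num) (by norm_num) (by norm_num)
  -- h4 = - U5 t U5
  have C0 : Val 1 (-1) 5 (-4) 0 := Val.mul' h U5 t (by norm_num) (by norm_num) (by norm_num) (by norm_num) (by norm_num)
  have C1 : Val (-4) (-1) (-15) (-4) (-1) := Val.mul' h C0 U5 (by norm_num) (by norm_num) (by norm_num) (by norm_num) (by norm_num)
  have C2 : Val 4 1 15 4 (-1) := Val.mul' h m C1 (by norm_num) (by norm_num) (by norm_num) (by norm_num) (by norm_num)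
  -- h4_3 = - T F t E T
  have D0 : Val 1 1 (-5) (-4) 0 := Val.mul' h FtE T (by norm_num) (by norm_num) (by norm_num) (by norm_num) (by norm_num)
  have D1 : Val (-4) (-3) (-5) (-4) (-1) := Val.mul' h T D0 (by norm_num) (by norm_num) (by norm_num) (by norm_num) (by norm_num)
  have D2 : Val 4 3 5 4 (-1) := Val.mul' h m D1 (by norm_num) (by norm_num) (by norm_num) (by norm_num) (by norm_num)
  -- h11 = E T T F
  have G0 : Val 3 1 5 2 (-1) := Val.mul' h T F (by norm_num) (by norm_num) (by norm_num) (by norm_num) (by norm_num)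
  have G1 : Val 11 4 30 11 (-2) := Val.mul' h ET G0 (by norm_num) (by norm_num) (by norm_num) (by norm_num) (by norm_num)
  -- h11_3 = T U5 U5 T
  have J0 : Val 1 1 10 11 (-3) := Val.mul' h U10 T (by norm_num) (by norm_num) (by norm_num) (by norm_num) (by norm_num)
  have J1 : Val 11 12 10 11 (-4) := Val.mul' h T J0 (by norm_num) (by norm_num) (by norm_num) (by norm_num) (by norm_num)
  refine ⟨fun e e' => Ph_mul (fun a b c d e => (hNH a b c d e).1) h e e', ?_, ?_, ?_, ?_, ?_, ?_, ?_⟩
  · exact Ph_eq (NN_one 1) (show log4 1 = 0 by decide) (by norm_num; exact T) (by norm_num; exact T3) (by norm_num)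
  · exact Ph_eq (NN_one 0) (show log4 1 = 0 by decide) (by norm_num; exact U15) (by norm_num; exact U5) (by norm_num)
  · have h0 : NN 0 (-1) = 0 := by rw [(hsym 0 1).2, NN_one]
    exact Ph_eq h0 (show log4 (-1) = 0 by decide) (by norm_num; exact m) (by norm_num; exact m) (by norm_num)
  · have h0 : NN (-1) 2 = -2 := by rw [(hsym 1 2).1, NN_1_2]
    exact Ph_eq h0 (show log4 2 = 1 by decide) (by norm_num; exact A1) (by norm_num; exact A2) (by norm_num)
  · have h0 : NN (-1) (-2) = -2 := by rw [(hsym (-1) 2).2, (hsym 1 2).1, NN_1_2]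
    exact Ph_eq h0 (show log4 (-2) = 1 by decide) (by norm_num; exact B1) (by norm_num; exact B2) (by norm_num)
  · exact Ph_eq NN_1_4 (show log4 4 = 2 by decide) (by norm_num; exact C2) (by norm_num; exact D2) (by norm_num)
  · exact Ph_eq NN_4_11 (show log4 11 = 2 by decide) (by norm_num; exact G1) (by norm_num; exact J1) (by norm_num)

end Star

/-- C13: the congruence modulo `8` -/
theorem t_STAR : S_STAR := by
  intro hNC hNH hR a b c d e
  have h := (Star.hyp hNC hNH hR).main d.natAbs a b c d e rfl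
  unfold Star.Ph at h
  have h8 := (ZMod.intCast_zmod_eq_zero_iff_dvd _ 8).1 h
  exact_mod_cast h8

end Pool.Agent.H757_X15.CC
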