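import Pool.Agent.H757_X15.StmC

/-!
# C15: the congruence for the sum over two genera
-/

set_option autoImplicit false

namespace Pool.Agent.H757_X15.CC

open Finset
open Pool.Agent.H757_X15.DD (Fm Crit)

open scoped Classical

/-- parity of the entries of the automorph -/
theorem tt8_dvd {D : ℕ} (hD : D % 4 = 1) {t u : ℤ} (ht : t ^ 2 - D * u ^ 2 = 4) {Q : Fo}
    (hQ : dsc Q = D) : (2 : ℤ) ∣ t + Q.2.1 * u ∧ (2 : ℤ) ∣ t - Q.2.1 * u := by
  obtain ⟨k, hk⟩ : ∃ k : ℤ, (D : ℤ) = 4 * k + 1 := ⟨(D / 4 : ℕ), by omega⟩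
  have hB : Q.2.1 % 2 = 1 := by
    unfold dsc at hQ
    rw [hk] at hQ
    rcases Int.emod_two_eq_zero_or_one Q.2.1 with h | h
    · exfalso
      obtain ⟨m, hm⟩ : ∃ m, Q.2.1 = 2 * m := ⟨Q.2.1 / 2, by omega⟩
      rw [hm] at hQ
      have : 4 * (m ^ 2 - Q.1 * Q.2.2 - k) = 1 := by linear_combination hQ
      omega
    · exact h
  have htu : (t - u) % 2 = 0 := by
    rw [hk] at ht
    have h1 : (t - u) * (t + u) = 2 * (2 + 2 * k * u ^ 2) := by linear_combination ht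
    have h2 : (2 : ℤ) ∣ (t - u) * (t + u) := ⟨_, h1⟩
    rcases Int.prime_two.dvd_or_dvd h2 with h | h <;> omega
  obtain ⟨m, hm⟩ : ∃ m, Q.2.1 = 2 * m + 1 := ⟨Q.2.1 / 2, by omega⟩
  obtain ⟨n, hn⟩ : ∃ n, t = u + 2 * n := ⟨(t - u) / 2, by omega⟩
  rw [hm, hn]
  exact ⟨⟨u + n + m * u, by ring⟩, ⟨n - m * u, by ring⟩⟩

theorem tt8_mod {D : ℕ} (hD : Fm D) {r : ZMod 5} {t u : ℤ} (ht : t ^ 2 - D * u ^ 2 = 4)
    {Q Q' : Fo} (hQ : Q ∈ FQ D r) (hQ' : Q' ∈ FQ D r) : (15 : ℤ) ∣ dQ t u Q - dQ t u Q' := by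
  have hD4 : D % 4 = 1 := by
    unfold Fm at hD
    omega
  obtain ⟨h1, -, h3, h5⟩ := hQ
  obtain ⟨h1', -, h3', h5'⟩ := hQ'
  obtain ⟨d, hd⟩ := (tt8_dvd hD4 ht h1).1
  obtain ⟨d', hd'⟩ := (tt8_dvd hD4 ht h1').1
  have e : dQ t u Q = d := by unfold dQ; omega
  have e' : dQ t u Q' = d' := by unfold dQ; omega
  have h5'' : (5 : ℤ) ∣ Q.2.1 - Q'.2.1 := by
    have h := (ZMod.intCast_zmod_eq_zero_iff_dvd (Q.2.1 - Q'.2.1) 5).1 (by
      push_cast
      rw [h5, h5', sub_self])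
    exact_mod_cast h
  have h15 : (15 : ℤ) ∣ Q.2.1 - Q'.2.1 := by omega
  rw [e, e']
  obtain ⟨k, hk⟩ := h15
  have h2 : 2 * (d - d') = 15 * (k * u) := by
    linear_combination u * hk - hd + hd'
  omega

theorem tt8_log4 {d d' : ℤ} (h : (15 : ℤ) ∣ d - d') : log4 d = log4 d' := by
  have : d % 15 = d' % 15 := by omega
  unfold log4
  rw [this]

theorem t_ELL : S_ELL := by
  intro D _ hF _ r _ t u hf
  by_cases hne : (FQ D r).Nonempty
  · obtain ⟨Q0, hQ0⟩ := hne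
    exact ⟨log4 (dQ t u Q0), fun Q hQ => tt8_log4 (tt8_mod hF hf.eq hQ hQ0)⟩
  · exact ⟨0, fun Q hQ => (hne ⟨Q, hQ⟩).elim⟩

/-- the crossing number of the automorph at level `5` -/
noncomputable def rhoQ (t u : ℤ) (Q : Fo) : ℤ :=
  rho ((t - Q.2.1 * u) / 2) (-(Q.2.2 * u)) (Q.1 * u) (dQ t u Q)

theorem tt8_one (h : S_RHO) : rho 1 0 0 1 = 0 := by
  have := h.1 1 0 0 1 1 0 0 1 (by norm_num) (by norm_num) (by norm_num) (by norm_num)
  simp only [mul_one, mul_zero, add_zero, zero_add] at this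
  omega

theorem tt8_conj (h : S_RHO) {D : ℕ} (hD : D % 4 = 1) {t u : ℤ} (ht : t ^ 2 - D * u ^ 2 = 4)
    {Q Q' : Fo} (hQ : dsc Q = D) (h5 : 5 ∣ Q.1) (he : Eqv 5 Q Q') :
    rhoQ t u Q' = rhoQ t u Q := by
  obtain ⟨a, b, c, d, hdet, hc, rfl⟩ := he
  obtain ⟨A, B, C⟩ := Q
  obtain ⟨⟨δ, hδ⟩, ⟨α, hα⟩⟩ := tt8_dvd hD ht hQ
  simp only at hδ hα h5
  have hα' : (t - B * u) / 2 = α := by omega
  have hδ' : (t + B * u) / 2 = δ := by omega
  have hQ2 : B ^ 2 - 4 * (A * C) = D := hQ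
  have h4 : α * δ - -(C * u) * (A * u) = 1 := by
    have : 4 * (α * δ - -(C * u) * (A * u)) = 4 * 1 := by
      linear_combination (-(2 * δ)) * hα + (B * u - t) * hδ + ht - u ^ 2 * hQ2
    omega
  have k1 := h.1 α (-(C * u)) (A * u) δ a b c d h4 (h5.mul_right u) hdet hc
  have k2 := h.1 d (-b) (-c) a (α * a + -(C * u) * c) (α * b + -(C * u) * d)
    (A * u * a + δ * c) (A * u * b + δ * d) (by linear_combination hdet)
    ((dvd_neg).2 hc) (by linear_combination (α * δ - -(C * u) * (A * u)) * hdet + h4)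
    (dvd_add ((h5.mul_right u).mul_right a) (hc.mul_left δ))
  have k3 := h.1 d (-b) (-c) a a b c d (by linear_combination hdet) ((dvd_neg).2 hc) hdet hc
  have e1 : d * a + -b * c = 1 := by linear_combination hdet
  have e2 : d * b + -b * d = 0 := by ring
  have e3 : -c * a + a * c = 0 := by ring
  have e4 : -c * b + a * d = 1 := by linear_combination hdet
  rw [e1, e2, e3, e4, tt8_one h] at k3
  have g1 : ((t - (act (A, B, C) a b c d).2.1 * u) / 2) =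
      d * (α * a + -(C * u) * c) + -b * (A * u * a + δ * c) := by
    apply Int.ediv_eq_of_eq_mul_right (by norm_num)
    simp only [act]
    linear_combination (-t) * hdet + (a * d) * hα - (b * c) * hδ
  have g4 : dQ t u (act (A, B, C) a b c d) =
      -c * (α * b + -(C * u) * d) + a * (A * u * b + δ * d) := by
    unfold dQ
    apply Int.ediv_eq_of_eq_mul_right (by norm_num)
    simp only [act]
    linear_combination (-t) * hdet - (b * c) * hα + (a * d) * hδ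
  have g2 : -((act (A, B, C) a b c d).2.2 * u) =
      d * (α * b + -(C * u) * d) + -b * (A * u * b + δ * d) := by
    simp only [act, ev]
    have : B * u = δ - α := by linarith
    linear_combination (-(b * d)) * this
  have g3 : (act (A, B, C) a b c d).1 * u =
      -c * (α * a + -(C * u) * c) + a * (A * u * a + δ * c) := by
    simp only [act, ev]
    have : B * u = δ - α := by linarith
    linear_combination (a * c) * this
  unfold rhoQ
  rw [g1, g2, g3, g4, k2, k1]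
  have : dQ t u (A, B, C) = δ := hδ'
  rw [this]
  simp only
  rw [hα']
  omega

theorem tt8_symm {N : ℤ} {Q Q' : Fo} (h : Eqv N Q Q') : Eqv N Q' Q := by
  obtain ⟨a, b, c, d, hdet, hc, rfl⟩ := h
  obtain ⟨A, B, C⟩ := Q
  refine ⟨d, -b, -c, a, by linear_combination hdet, (dvd_neg).2 hc, ?_⟩
  simp only [act, ev, Prod.mk.injEq]
  refine ⟨?_, ?_, ?_⟩
  · linear_combination (-(A * (a * d - b * c + 1))) * hdet
  · linear_combination (-(B * (a * d - b * c + 1))) * hdet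
  · linear_combination (-(C * (a * d - b * c + 1))) * hdet

theorem tt8_dsc {Q : Fo} {a b c d : ℤ} (hdet : a * d - b * c = 1) : dsc (act Q a b c d) = dsc Q := by
  obtain ⟨A, B, C⟩ := Q
  simp only [act, ev, dsc]
  linear_combination ((B ^ 2 - 4 * (A * C)) * (a * d - b * c + 1)) * hdet

/-- the genus characters of `q3 Q` -/
theorem tt8_chp {D : ℕ} (hF : Fm D) {p : ℕ} (hp : p ∈ D.primeFactors) {Q : Fo} (h3 : 3 ∣ Q.1) :
    chp p (q3 Q) = jacobiSym 3 p * chp p Q := by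
  obtain ⟨A, B, C⟩ := Q
  obtain ⟨k, hk⟩ := h3
  simp only at hk
  subst hk
  have hpp := Nat.prime_of_mem_primeFactors hp
  have hpD := Nat.dvd_of_mem_primeFactors hp
  have hp3 : ¬ (p : ℤ) ∣ 3 := by
    intro h
    have h1 : p ∣ 3 := by exact_mod_cast h
    rcases (Nat.dvd_prime Nat.prime_three).1 h1 with h2 | h2
    · exact hpp.one_lt.ne' h2
    · subst h2
      unfold Fm at hF
      omega
  have hpZ : Prime (p : ℤ) := Nat.prime_iff_prime_int.1 hpp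
  have e1 : (3 * k) / 3 = k := by omega
  have e2 : (p : ℤ) ∣ 3 * k ↔ (p : ℤ) ∣ k :=
    ⟨fun h => (hpZ.dvd_or_dvd h).resolve_left hp3, fun h => h.mul_left _⟩
  simp only [chp, q3, e1, e2]
  split_ifs with h
  · rw [jacobiSym.mul_left]
  · rw [jacobiSym.mul_left, ← mul_assoc, ← pow_two, jacobiSym.sq_one, one_mul]
    have : IsCoprime (3 : ℤ) (p : ℤ) := (Int.isCoprime_iff_gcd_eq_one).2 (by
      have := (Nat.coprime_primes Nat.prime_three hpp).2 (by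
        rintro rfl
        exact hp3 dvd_rfl)
      simpa [Int.gcd] using this)
    exact Int.isCoprime_iff_gcd_eq_one.1 this

/-- the sum over a genus of the crossing numbers of `q3 Q` -/
theorem tt8_pi {D : ℕ} {r : ZMod 5} {R : Finset Fo} (h1 : IsRep 5 (F5 D r) R)
    (h2 : IsRep 5 (F5 D r) (R.image q3)) (h3 : Set.InjOn q3 R) : ∃ π : Fo → Fo,
    (∀ Q ∈ R, π Q ∈ R ∧ Eqv 5 (q3 Q) (π Q)) ∧ Set.InjOn π R := by
  have key : ∀ Q ∈ R, ∃ Q', Q' ∈ R ∧ Eqv 5 (q3 Q) Q' := by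
    intro Q hQ
    obtain ⟨Q', h, -⟩ := h1.2 (q3 Q) (h2.1 _ (mem_image_of_mem _ hQ))
    exact ⟨Q', h⟩
  choose! π hπ using key
  refine ⟨π, hπ, ?_⟩
  intro Q1 hQ1 Q2 hQ2 he
  obtain ⟨a1, b1⟩ := hπ Q1 hQ1
  obtain ⟨a2, b2⟩ := hπ Q2 hQ2
  obtain ⟨Q'', -, hu⟩ := h2.2 (π Q1) (h1.1 _ a1)
  have u1 := hu (q3 Q1) ⟨mem_image_of_mem _ hQ1, tt8_symm b1⟩
  have u2 := hu (q3 Q2) ⟨mem_image_of_mem _ hQ2, by rw [he]; exact tt8_symm b2⟩
  exact h3 hQ1 hQ2 (u1.trans u2.symm)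

theorem t_TT8 : S_TT8 := by
  intro hS hNC hNH hR hP hRQ hL hC _ D hsq hF hD1 r hr t u hf R hRep ℓ hℓ
  obtain ⟨hL1, -, hL2, hL3⟩ := hL D hsq hF hD1 r hr R hRep
  obtain ⟨π, hπ, hinj⟩ := tt8_pi hL1 hL2 hL3
  have hD4 : D % 4 = 1 := by
    unfold Fm at hF
    omega
  have hFQ : ∀ Q ∈ R, Q ∈ FQ D r := hRep.1
  have hF5 : ∀ Q ∈ R, Q ∈ F5 D r := hL1.1
  have h35 : ∀ Q ∈ R, q3 Q ∈ F5 D r := fun Q hQ => hL2.1 _ (mem_image_of_mem _ hQ)
  -- crossing numbers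
  have hrho : ∀ Q ∈ R, rhoQ t u (π Q) = rhoQ t u (q3 Q) := fun Q hQ =>
    tt8_conj hR hD4 hf.eq (h35 Q hQ).1 (h35 Q hQ).2.1 (hπ Q hQ).2
  -- genus characters
  have hchi : ∀ Q ∈ R, ∀ p ∈ D.primeFactors, chp p (π Q) = jacobiSym 3 p * chp p Q := by
    intro Q hQ p hp
    obtain ⟨a, b, c, d, h1, -, h3⟩ := (hπ Q hQ).2
    rw [(hC D hsq hD4 (q3 Q) (π Q) (h35 Q hQ).1 ⟨a, b, c, d, h1, one_dvd _, h3⟩ p hp).1]
    refine tt8_chp hF hp ?_
    exact (show (3 : ℤ) ∣ 15 by norm_num).trans (hFQ Q hQ).2.1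
  -- the star congruence
  have hstar : ∀ Q ∈ R, (8 : ℤ) ∣ NG t u Q + 2 * ℓ - 2 * rhoQ t u Q - 2 * rhoQ t u (q3 Q) := by
    intro Q hQ
    have hQF := hFQ Q hQ
    obtain ⟨k, hk⟩ := hQF.2.1
    obtain ⟨⟨δ, hδ⟩, ⟨α, hα⟩⟩ := tt8_dvd hD4 hf.eq hQF.1
    have hα' : (t - Q.2.1 * u) / 2 = α := by omega
    have hδ' : dQ t u Q = δ := by unfold dQ; omega
    have hQ2 : Q.2.1 ^ 2 - 4 * (Q.1 * Q.2.2) = D := hQF.1
    have ht := hf.eq
    have hdet : α * δ - -(Q.2.2 * u) * (15 * (k * u)) = 1 := by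
      have : 4 * (α * δ - -(Q.2.2 * u) * (15 * (k * u))) = 4 * 1 := by
        linear_combination (-(2 * δ)) * hα + (Q.2.1 * u - t) * hδ + ht - u ^ 2 * hQ2 -
          4 * Q.2.2 * u ^ 2 * hk
      omega
    have h := hS hNC hNH hR α (-(Q.2.2 * u)) (k * u) δ hdet
    have e1 : rhoQ t u Q = rho α (-(Q.2.2 * u)) (15 * (k * u)) δ := by
      unfold rhoQ
      rw [hα', hδ', hk]
      congr 1
      ring
    have e2 : rhoQ t u (q3 Q) = rho α (3 * -(Q.2.2 * u)) (5 * (k * u)) δ := by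
      unfold rhoQ
      have i1 : (t - (q3 Q).2.1 * u) / 2 = α := hα'
      have i2 : dQ t u (q3 Q) = δ := hδ'
      have i3 : (q3 Q).1 = 5 * k := by
        simp only [q3]
        omega
      have i4 : (q3 Q).2.2 = 3 * Q.2.2 := rfl
      rw [i1, i2, i3, i4]
      congr 1 <;> ring
    have e3 : NG t u Q = NN (-(Q.2.2 * u)) δ := by
      unfold NG
      rw [hδ']
    have e4 : log4 δ = ℓ := by
      rw [← hδ']
      exact hℓ Q hQF
    rw [e4] at h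
    rw [e1, e2, e3]
    exact h
  -- parity
  have hpar : ∃ ε : ℤ, ∀ Q ∈ R, (2 : ℤ) ∣ rhoQ t u Q - ε := by
    rcases R.eq_empty_or_nonempty with he | ⟨Q0, hQ0⟩
    · exact ⟨0, fun Q hQ => by rw [he] at hQ; simp at hQ⟩
    · refine ⟨rhoQ t u Q0, fun Q hQ => ?_⟩
      have a1 := hRQ hP hR D hD4 t u hf.eq Q (hF5 Q hQ).1 (hF5 Q hQ).2.1
      have a2 := hRQ hP hR D hD4 t u hf.eq Q0 (hF5 Q0 hQ0).1 (hF5 Q0 hQ0).2.1
      have a3 : jacobiSym (dQ t u Q) 5 = jacobiSym (dQ t u Q0) 5 := by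
        have h15 := tt8_mod hF hf.eq (hFQ Q hQ) (hFQ Q0 hQ0)
        rw [jacobiSym.mod_left (dQ t u Q), jacobiSym.mod_left (dQ t u Q0)]
        congr 1
        omega
      rw [a3, ← a2] at a1
      have a4 : Even (rhoQ t u Q) ↔ Even (rhoQ t u Q0) := a1
      rw [Int.even_iff, Int.even_iff] at a4
      omega
  obtain ⟨ε, hε⟩ := hpar
  -- the genera
  set G1 := R.filter fun Q => ∀ p ∈ D.primeFactors, chp p Q = jacobiSym 1 p with hG1
  set G3 := R.filter fun Q => ∀ p ∈ D.primeFactors, chp p Q = jacobiSym 3 p with hG3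
  have hG1' : (R.filter fun Q => ∀ p ∈ D.primeFactors, chp p Q = 1) = G1 := by
    rw [hG1]
    simp only [jacobiSym.one_left]
  have hcop : ∀ p ∈ D.primeFactors, jacobiSym 3 p * jacobiSym 3 p = 1 := by
    intro p hp
    have hpp := Nat.prime_of_mem_primeFactors hp
    have hpD := Nat.dvd_of_mem_primeFactors hp
    rw [← pow_two]
    refine jacobiSym.sq_one ?_
    have := (Nat.coprime_primes Nat.prime_three hpp).2 (by
      rintro rfl
      unfold Fm at hF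
      omega)
    simpa [Int.gcd] using this
  have m1 : ∀ Q ∈ G1, π Q ∈ G3 := by
    intro Q hQ
    rw [hG1, mem_filter] at hQ
    rw [hG3, mem_filter]
    refine ⟨(hπ Q hQ.1).1, fun p hp => ?_⟩
    rw [hchi Q hQ.1 p hp, hQ.2 p hp, jacobiSym.one_left, mul_one]
  have m3 : ∀ Q ∈ G3, π Q ∈ G1 := by
    intro Q hQ
    rw [hG3, mem_filter] at hQ
    rw [hG1, mem_filter]
    refine ⟨(hπ Q hQ.1).1, fun p hp => ?_⟩
    rw [hchi Q hQ.1 p hp, hQ.2 p hp, jacobiSym.one_left, hcop p hp]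
  have s1 : G1 ⊆ R := filter_subset _ _
  have s3 : G3 ⊆ R := filter_subset _ _
  have i1 : Set.InjOn π G1 := hinj.mono (by exact_mod_cast s1)
  have i3 : Set.InjOn π G3 := hinj.mono (by exact_mod_cast s3)
  have sub1 : G1.image π ⊆ G3 := fun x hx => by
    obtain ⟨Q, hQ, rfl⟩ := mem_image.1 hx
    exact m1 Q hQ
  have sub3 : G3.image π ⊆ G1 := fun x hx => by
    obtain ⟨Q, hQ, rfl⟩ := mem_image.1 hx
    exact m3 Q hQ
  have c1 : (G1.image π).card = G1.card := card_image_of_injOn i1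
  have c3 : (G3.image π).card = G3.card := card_image_of_injOn i3
  have l1 := card_le_card sub1
  have l3 := card_le_card sub3
  have hcard : G3.card = G1.card := by omega
  have eq1 : G1.image π = G3 := eq_of_subset_of_card_le sub1 (by omega)
  have eq3 : G3.image π = G1 := eq_of_subset_of_card_le sub3 (by omega)
  have t1 : ∑ Q ∈ G1, rhoQ t u (q3 Q) = ∑ Q ∈ G3, rhoQ t u Q := by
    rw [← eq1, sum_image i1]
    exact sum_congr rfl fun Q hQ => (hrho Q (s1 hQ)).symm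
  have t3 : ∑ Q ∈ G3, rhoQ t u (q3 Q) = ∑ Q ∈ G1, rhoQ t u Q := by
    rw [← eq3, sum_image i3]
    exact sum_congr rfl fun Q hQ => (hrho Q (s3 hQ)).symm
  have u1 : (8 : ℤ) ∣ ∑ Q ∈ G1, (NG t u Q + 2 * ℓ - 2 * rhoQ t u Q - 2 * rhoQ t u (q3 Q)) :=
    dvd_sum fun Q hQ => hstar Q (s1 hQ)
  have u3 : (8 : ℤ) ∣ ∑ Q ∈ G3, (NG t u Q + 2 * ℓ - 2 * rhoQ t u Q - 2 * rhoQ t u (q3 Q)) :=
    dvd_sum fun Q hQ => hstar Q (s3 hQ)
  have v1 : (2 : ℤ) ∣ ∑ Q ∈ G1, (rhoQ t u Q - ε) := dvd_sum fun Q hQ => hε Q (s1 hQ)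
  have v3 : (2 : ℤ) ∣ ∑ Q ∈ G3, (rhoQ t u Q - ε) := dvd_sum fun Q hQ => hε Q (s3 hQ)
  simp only [sum_sub_distrib, sum_add_distrib, ← mul_sum, sum_const, nsmul_eq_mul] at u1 u3 v1 v3
  rw [t1] at u1
  rw [t3] at u3
  rw [hcard] at u3 v3
  have w1 : SG D t u R 1 = ∑ Q ∈ G1, NG t u Q := rfl
  have w3 : SG D t u R 3 = ∑ Q ∈ G3, NG t u Q := rfl
  rw [hG1', w1, w3]
  generalize (∑ Q ∈ G1, NG t u Q) = N1 at *
  generalize (∑ Q ∈ G3, NG t u Q) = N3 at *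
  generalize (∑ Q ∈ G1, rhoQ t u Q) = R1 at *
  generalize (∑ Q ∈ G3, rhoQ t u Q) = R3 at *
  generalize (G1.card : ℤ) = n at *
  obtain ⟨x1, hx1⟩ := u1
  obtain ⟨x3, hx3⟩ := u3
  obtain ⟨y1, hy1⟩ := v1
  obtain ⟨y3, hy3⟩ := v3
  exact ⟨x1 + x3 + y1 + y3 + n * ε - n * ℓ, by
    linear_combination hx1 + hx3 + 4 * hy1 + 4 * hy3⟩

end Pool.Agent.H757_X15.CC
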