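import Pool.Agent.H757_X15.StmC

/-!
# C8: the unfolded sum, conjugation by `W = (3, 1; 15, 6)` (helper266)
-/

set_option autoImplicit false

namespace Pool.Agent.H757_X15.CC

open Finset
open Pool.Agent.H757_X15.DD (Fm)
open Pool.Agent.H757_X15.BB (chi4)

namespace C8

lemma Wi15 (A B C : ℤ) :
    Wi (15 * A, B, C) = (15 * (12 * A - 2 * B + 5 * C), -60 * A + 11 * B - 30 * C,
      5 * A - B + 3 * C) := by
  unfold Wi act ev
  refine Prod.ext ?_ (Prod.ext ?_ ?_)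
  · simp only; omega
  · simp only; omega
  · simp only; omega

/-- the inverse of `Wi` -/
def Wf (Q : Fo) : Fo := (3 * Q.1 + 15 * Q.2.1 + 75 * Q.2.2, 2 * Q.1 + 11 * Q.2.1 + 60 * Q.2.2,
  Q.1 / 3 + 2 * Q.2.1 + 12 * Q.2.2)

lemma Wf15 (A B C : ℤ) :
    Wf (15 * A, B, C) = (15 * (3 * A + B + 5 * C), 30 * A + 11 * B + 60 * C,
      5 * A + 2 * B + 12 * C) := by
  unfold Wf
  refine Prod.ext ?_ (Prod.ext ?_ ?_)
  · simp only; omega
  · simp only; omega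
  · simp only; omega

lemma WiWf (A B C : ℤ) : Wi (Wf (15 * A, B, C)) = (15 * A, B, C) := by
  rw [Wf15, Wi15]
  refine Prod.ext ?_ (Prod.ext ?_ ?_) <;> simp only <;> ring

lemma WfWi (A B C : ℤ) : Wf (Wi (15 * A, B, C)) = (15 * A, B, C) := by
  rw [Wi15, Wf15]
  refine Prod.ext ?_ (Prod.ext ?_ ?_) <;> simp only <;> ring

lemma dsc_Wi (A B C : ℤ) : dsc (Wi (15 * A, B, C)) = dsc (15 * A, B, C) := by
  rw [Wi15]; unfold dsc; simp only; ring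

lemma dsc_Wf (A B C : ℤ) : dsc (Wf (15 * A, B, C)) = dsc (15 * A, B, C) := by
  rw [Wf15]; unfold dsc; simp only; ring

lemma dsc_act (Q : Fo) (a b c d : ℤ) (h : a * d - b * c = 1) : dsc (act Q a b c d) = dsc Q := by
  have e : dsc (act Q a b c d) = (a * d - b * c) ^ 2 * dsc Q := by
    unfold dsc act ev; simp only; ring
  rw [e, h]; ring

lemma act_act (Q : Fo) (a b c d a' b' c' d' : ℤ) :
    act (act Q a b c d) a' b' c' d' =
      act Q (a * a' + b * c') (a * b' + b * d') (c * a' + d * c') (c * b' + d * d') := by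
  unfold act ev
  refine Prod.ext ?_ (Prod.ext ?_ ?_) <;> simp only <;> ring

lemma act_one (Q : Fo) : act Q 1 0 0 1 = Q := by
  unfold act ev
  refine Prod.ext ?_ (Prod.ext ?_ ?_) <;> simp only <;> ring

lemma Eqv_symm {N : ℤ} {Q Q' : Fo} (h : Eqv N Q Q') : Eqv N Q' Q := by
  obtain ⟨a, b, c, d, h1, h2, rfl⟩ := h
  refine ⟨d, -b, -c, a, by linarith, (dvd_neg).2 h2, ?_⟩
  rw [act_act]
  have e1 : a * d + b * -c = 1 := by linarith
  have e2 : a * -b + b * a = 0 := by ring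
  have e3 : c * d + d * -c = 0 := by ring
  have e4 : c * -b + d * a = 1 := by linarith
  rw [e1, e2, e3, e4, act_one]

lemma Eqv_trans {N : ℤ} {Q Q' Q'' : Fo} (h : Eqv N Q Q') (h' : Eqv N Q' Q'') : Eqv N Q Q'' := by
  obtain ⟨a, b, c, d, h1, h2, rfl⟩ := h
  obtain ⟨a', b', c', d', h1', h2', rfl⟩ := h'
  refine ⟨_, _, _, _, ?_, ?_, act_act _ _ _ _ _ _ _ _ _⟩
  · linear_combination (a' * d' - b' * c') * h1 + h1'
  · exact dvd_add (Dvd.dvd.mul_right h2 _) (Dvd.dvd.mul_left h2' _)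

lemma Eqv_fst {Q Q' : Fo} (h : Eqv 15 Q Q') (hQ : 15 ∣ Q.1) : 15 ∣ Q'.1 := by
  obtain ⟨a, b, c, d, h1, ⟨c, rfl⟩, rfl⟩ := h
  obtain ⟨A, B, C⟩ := Q
  obtain ⟨A, rfl⟩ := hQ
  unfold act ev
  exact ⟨A * a ^ 2 + B * (a * c) + C * (15 * c ^ 2), by ring⟩

lemma Eqv_snd {Q Q' : Fo} (h : Eqv 15 Q Q') (hQ : 15 ∣ Q.1) : Q'.2.1 % 30 = Q.2.1 % 30 := by
  obtain ⟨a, b, c, d, h1, ⟨c, rfl⟩, rfl⟩ := h
  obtain ⟨A, B, C⟩ := Q
  obtain ⟨A, rfl⟩ := hQ
  unfold act ev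
  simp only
  have e : 2 * (15 * A * (a * b)) + B * (a * d + b * (15 * c)) + 2 * (C * (15 * c * d)) =
      B + 30 * (A * (a * b) + B * (b * c) + C * (c * d)) := by linear_combination B * h1
  rw [e, Int.add_mul_emod_self_left]

lemma Eqv_Wi {Q Q' : Fo} (h : Eqv 15 Q Q') (hQ : 15 ∣ Q.1) : Eqv 15 (Wi Q) (Wi Q') := by
  have hQ' := Eqv_fst h hQ
  obtain ⟨a, b, c, d, h1, ⟨c, rfl⟩, hQQ⟩ := h
  obtain ⟨A, B, C⟩ := Q
  obtain ⟨A, rfl⟩ := hQ
  obtain ⟨A', B', C'⟩ := Q'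
  obtain ⟨A', rfl⟩ := hQ'
  unfold act ev at hQQ
  simp only [Prod.mk.injEq] at hQQ
  obtain ⟨e1, e2, e3⟩ := hQQ
  have e1' : A' = A * a ^ 2 + B * (a * c) + C * (15 * c ^ 2) := by linarith
  refine ⟨6 * a + 30 * c - 15 * b - 5 * d, -a - 5 * c + 3 * b + d,
    30 * a + 180 * c - 75 * b - 30 * d, -5 * a - 30 * c + 15 * b + 6 * d, ?_, ?_, ?_⟩
  · linear_combination h1
  · exact ⟨2 * a + 12 * c - 5 * b - 2 * d, by ring⟩
  · rw [Wi15, Wi15, e1', e2, e3]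
    unfold act ev
    refine Prod.ext ?_ (Prod.ext ?_ ?_) <;> simp only <;> ring

lemma Eqv_Wf {Q Q' : Fo} (h : Eqv 15 Q Q') (hQ : 15 ∣ Q.1) : Eqv 15 (Wf Q) (Wf Q') := by
  have hQ' := Eqv_fst h hQ
  obtain ⟨a, b, c, d, h1, ⟨c, rfl⟩, hQQ⟩ := h
  obtain ⟨A, B, C⟩ := Q
  obtain ⟨A, rfl⟩ := hQ
  obtain ⟨A', B', C'⟩ := Q'
  obtain ⟨A', rfl⟩ := hQ'
  unfold act ev at hQQ
  simp only [Prod.mk.injEq] at hQQ
  obtain ⟨e1, e2, e3⟩ := hQQ
  have e1' : A' = A * a ^ 2 + B * (a * c) + C * (15 * c ^ 2) := by linarith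
  refine ⟨6 * a - 15 * c + 30 * b - 5 * d, 2 * a - 5 * c + 12 * b - 2 * d,
    -15 * a + 45 * c - 75 * b + 15 * d, -5 * a + 15 * c - 30 * b + 6 * d, ?_, ?_, ?_⟩
  · linear_combination h1
  · exact ⟨-a + 3 * c - 5 * b + d, by ring⟩
  · rw [Wf15, Wf15, e1', e2, e3]
    unfold act ev
    refine Prod.ext ?_ (Prod.ext ?_ ?_) <;> simp only <;> ring

/-- the opposite form -/
def ng (Q : Fo) : Fo := (-Q.1, -Q.2.1, -Q.2.2)

lemma ng_ng (Q : Fo) : ng (ng Q) = Q := by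
  unfold ng
  refine Prod.ext ?_ (Prod.ext ?_ ?_) <;> simp only <;> ring

lemma Eqv_ng {N : ℤ} {Q Q' : Fo} (h : Eqv N Q Q') : Eqv N (ng Q) (ng Q') := by
  obtain ⟨a, b, c, d, h1, h2, rfl⟩ := h
  refine ⟨a, b, c, d, h1, h2, ?_⟩
  unfold ng act ev
  refine Prod.ext ?_ (Prod.ext ?_ ?_) <;> simp only <;> ring

/-- the representatives -/
def qj (j : ℤ) : Fo := (75 * j - 120, 44 - 30 * j, 3 * j - 4)

lemma Wi_qj (j : ℤ) : Wi (0, 4, j) = qj j := by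
  have := Wi15 0 4 j
  rw [mul_zero] at this
  rw [this]
  unfold qj
  refine Prod.ext ?_ (Prod.ext ?_ ?_) <;> simp only <;> ring

lemma Wf_qj (j : ℤ) : Wf (qj j) = (0, 4, j) := by
  rw [← Wi_qj]
  have := WfWi 0 4 j
  rwa [mul_zero] at this

/-- reduction of the forms with `b = 4` modulo `30` -/
lemma ex_rep' {Q : Fo} (hd : dsc Q = 16) (h15 : 15 ∣ Q.1) (hb : Q.2.1 % 30 = 4) :
    ∃ j : ℤ, (j = -1 ∨ j = 0 ∨ j = 1 ∨ j = 2) ∧ Eqv 15 Q (0, 4, j) := by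
  obtain ⟨A, B, C⟩ := Q
  obtain ⟨a, rfl⟩ := h15
  simp only at hb
  obtain ⟨k, rfl⟩ : ∃ k, B = 30 * k + 4 := ⟨B / 30, by omega⟩
  unfold dsc at hd
  simp only at hd
  have hk : a * C = k * (15 * k + 4) := by
    have : 60 * (a * C) = 60 * (k * (15 * k + 4)) := by linear_combination -hd
    linarith
  -- the primitive vector
  have h0 : (15 * k + 4 : ℤ) ≠ 0 := by omega
  have hgp : 0 < Int.gcd (15 * k + 4) (15 * a) := by
    apply Nat.pos_of_ne_zero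
    intro h
    exact h0 (Int.gcd_eq_zero_iff.1 h).1
  obtain ⟨x, y, hxy, hx, hy⟩ := Int.exists_gcd_one hgp
  obtain ⟨g, hg⟩ : ∃ g : ℤ, g = Int.gcd (15 * k + 4) (15 * a) := ⟨_, rfl⟩
  rw [← hg] at hx hy
  rw [mul_comm x g] at hx
  rw [mul_comm y g] at hy
  have hg0 : g ≠ 0 := by rw [hg]; exact_mod_cast hgp.ne'
  have hcop : IsCoprime (-x) y := by
    rw [IsCoprime.neg_left_iff, Int.isCoprime_iff_gcd_eq_one]
    exact hxy
  have hg15 : IsCoprime (15 : ℤ) g := by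
    have h1 : IsCoprime (15 : ℤ) (15 * k + 4) := by
      refine ⟨-k * 4 - 1, 4, ?_⟩
      ring
    rw [hx] at h1
    exact h1.of_mul_right_left
  have hy15 : 15 ∣ y := by
    apply hg15.dvd_of_dvd_mul_left
    exact ⟨a, hy.symm⟩
  obtain ⟨e, f, hef⟩ := hcop
  -- `e * (-x) + f * y = 1`
  have hz : (15 * a) * (-x) ^ 2 + (30 * k + 4) * ((-x) * y) + C * y ^ 2 = 0 := by
    have h1 : g ^ 2 * ((15 * a) * (-x) ^ 2 + (30 * k + 4) * ((-x) * y) + C * y ^ 2) = 0 := by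
      have : g ^ 2 * ((15 * a) * (-x) ^ 2 + (30 * k + 4) * ((-x) * y) + C * y ^ 2) =
          (15 * a) * (g * x) ^ 2 - (30 * k + 4) * ((g * x) * (g * y)) + C * (g * y) ^ 2 := by ring
      rw [this, ← hx, ← hy]
      linear_combination 225 * a * hk
    rcases mul_eq_zero.1 h1 with h2 | h2
    · exact absurd (pow_eq_zero_iff (two_ne_zero) |>.1 h2) hg0
    · exact h2
  have hE : Eqv 15 (15 * a, 30 * k + 4, C) (act (15 * a, 30 * k + 4, C) (-x) (-f) y e) :=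
    ⟨-x, -f, y, e, by linarith, hy15, rfl⟩
  obtain ⟨Q1, hQ1⟩ : ∃ Q1, Q1 = act (15 * a, 30 * k + 4, C) (-x) (-f) y e := ⟨_, rfl⟩
  rw [← hQ1] at hE
  have f1 : Q1.1 = 0 := by rw [hQ1]; exact hz
  have f2 : Q1.2.1 % 30 = 4 := by
    rw [Eqv_snd hE ⟨a, rfl⟩]
    simp only
    omega
  have f3 : dsc Q1 = 16 := by
    rw [hQ1, dsc_act _ _ _ _ _ (by linarith)]
    unfold dsc
    simp only
    exact hd
  obtain ⟨A1, B1, C1⟩ := Q1
  simp only at f1 f2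
  subst f1
  unfold dsc at f3
  simp only [zero_mul, mul_zero, sub_zero] at f3
  have f4 : B1 = 4 := by
    have h1 : B1 ≤ 4 := by nlinarith
    have h2 : -4 ≤ B1 := by nlinarith
    interval_cases B1 <;> omega
  subst f4
  -- translation
  obtain ⟨j, m, hj, hjm⟩ : ∃ j m : ℤ, (j = -1 ∨ j = 0 ∨ j = 1 ∨ j = 2) ∧ j = C1 + 4 * m := by
    refine ⟨(C1 + 1) % 4 - 1, -((C1 + 1) / 4), ?_, ?_⟩ <;> omega
  refine ⟨j, hj, Eqv_trans hE ⟨1, m, 0, 1, by ring, dvd_zero _, ?_⟩⟩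
  unfold act ev
  refine Prod.ext ?_ (Prod.ext ?_ ?_)
  · simp only; ring
  · simp only; ring
  · simp only; rw [hjm]; ring

lemma uniq' {i j : ℤ} (h : Eqv 15 (0, 4, i) (0, 4, j)) : (4 : ℤ) ∣ j - i := by
  obtain ⟨a, b, c, d, h1, ⟨c, rfl⟩, h2⟩ := h
  unfold act ev at h2
  simp only [Prod.mk.injEq] at h2
  obtain ⟨e1, e2, e3⟩ := h2
  have e4 : c * (4 * a + i * (15 * c)) = 0 := by
    have : 15 * (c * (4 * a + i * (15 * c))) = 0 := by linear_combination -e1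
    linarith
  rcases mul_eq_zero.1 e4 with hc | hc
  · subst hc
    rw [mul_zero, mul_zero, sub_zero] at h1
    have hd : d ^ 2 = 1 := by
      have hd1 : d ∣ 1 := ⟨a, by linarith⟩
      rcases Int.isUnit_iff.1 (isUnit_of_dvd_one hd1) with h | h <;> rw [h] <;> norm_num
    refine ⟨b * d, ?_⟩
    rw [e3, hd]; ring
  · exfalso
    have h3 : (15 : ℤ) ∣ 1 := by
      have h4 : (15 : ℤ) ∣ 4 * a := ⟨-(i * c), by linarith⟩
      have h5 : (15 : ℤ) ∣ a := by omega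
      obtain ⟨a', rfl⟩ := h5
      exact ⟨a' * d - b * c, by linarith⟩
    norm_num at h3

/-- the finite set of the representatives -/
def RF : Finset Fo :=
  {qj (-1), qj 0, qj 1, qj 2, ng (qj (-1)), ng (qj 0), ng (qj 1), ng (qj 2)}

lemma mem_RF (Q : Fo) : Q ∈ RF ↔ ∃ j : ℤ, (j = -1 ∨ j = 0 ∨ j = 1 ∨ j = 2) ∧
    (Q = qj j ∨ Q = ng (qj j)) := by
  unfold RF
  simp only [Finset.mem_insert, Finset.mem_singleton]
  constructor
  · rintro (h | h | h | h | h | h | h | h)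
    · exact ⟨-1, by norm_num, Or.inl h⟩
    · exact ⟨0, by norm_num, Or.inl h⟩
    · exact ⟨1, by norm_num, Or.inl h⟩
    · exact ⟨2, by norm_num, Or.inl h⟩
    · exact ⟨-1, by norm_num, Or.inr h⟩
    · exact ⟨0, by norm_num, Or.inr h⟩
    · exact ⟨1, by norm_num, Or.inr h⟩
    · exact ⟨2, by norm_num, Or.inr h⟩
  · rintro ⟨j, (rfl | rfl | rfl | rfl), h | h⟩ <;> simp [h]

lemma qj_snd (j : ℤ) : (qj j).2.1 % 30 = 14 := by
  unfold qj; simp only; omega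

lemma ng_qj_snd (j : ℤ) : (ng (qj j)).2.1 % 30 = 16 := by
  unfold ng qj; simp only; omega

lemma Fq_qj (j : ℤ) : Fq (qj j) := by
  refine ⟨?_, ?_, Or.inl (qj_snd j)⟩
  · unfold dsc qj; simp only; ring
  · unfold qj; simp only; omega

lemma Fq_ng {Q : Fo} (h : Fq Q) : Fq (ng Q) := by
  obtain ⟨h1, h2, h3⟩ := h
  refine ⟨?_, ?_, ?_⟩
  · unfold dsc ng at *; simp only at *; linarith
  · unfold ng; simp only; exact (dvd_neg).2 h2
  · unfold ng; simp only; omega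

lemma ex_rep {Q : Fo} (h : Fq Q) (hb : Q.2.1 % 30 = 14) :
    ∃ j : ℤ, (j = -1 ∨ j = 0 ∨ j = 1 ∨ j = 2) ∧ Eqv 15 Q (qj j) := by
  obtain ⟨h1, h2, -⟩ := h
  obtain ⟨A, B, C⟩ := Q
  obtain ⟨A, rfl⟩ := h2
  simp only at hb
  obtain ⟨j, hj, hE⟩ := ex_rep' (Q := Wf (15 * A, B, C)) (by rw [dsc_Wf]; exact h1)
    (by rw [Wf15]; exact ⟨_, rfl⟩) (by rw [Wf15]; simp only; omega)
  refine ⟨j, hj, ?_⟩
  have := Eqv_Wi hE (by rw [Wf15]; exact ⟨_, rfl⟩)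
  rwa [WiWf, Wi_qj] at this

lemma uniq {i j : ℤ} (hi : i = -1 ∨ i = 0 ∨ i = 1 ∨ i = 2) (hj : j = -1 ∨ j = 0 ∨ j = 1 ∨ j = 2)
    (h : Eqv 15 (qj i) (qj j)) : i = j := by
  have h1 := Eqv_Wf h (by unfold qj; simp only; omega)
  rw [Wf_qj, Wf_qj] at h1
  have h2 := uniq' h1
  omega

theorem isRep_RF : IsRep 15 {q | Fq q} RF := by
  constructor
  · intro Q hQ
    obtain ⟨j, -, h | h⟩ := (mem_RF Q).1 hQ
    · rw [h]; exact Fq_qj j
    · rw [h]; exact Fq_ng (Fq_qj j)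
  · intro Q hQ
    have hQ' : Fq Q := hQ
    have huniq : ∀ Q' Q'' : Fo, Q' ∈ RF → Eqv 15 Q Q' → Q'' ∈ RF → Eqv 15 Q Q'' → Q' = Q'' := by
      intro Q' Q'' h1 h2 h3 h4
      have e1 := Eqv_snd h2 hQ'.2.1
      have e2 := Eqv_snd h4 hQ'.2.1
      have e3 : Eqv 15 Q' Q'' := Eqv_trans (Eqv_symm h2) h4
      obtain ⟨i, hi, hi'⟩ := (mem_RF _).1 h1
      obtain ⟨j, hj, hj'⟩ := (mem_RF _).1 h3
      rcases hi' with rfl | rfl <;> rcases hj' with rfl | rfl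
      · rw [uniq hi hj e3]
      · have := qj_snd i; have := ng_qj_snd j; omega
      · have := qj_snd j; have := ng_qj_snd i; omega
      · have e4 := Eqv_ng e3
        rw [ng_ng, ng_ng] at e4
        rw [uniq hi hj e4]
    obtain ⟨Q', hQ1, hQ2⟩ : ∃ Q', Q' ∈ RF ∧ Eqv 15 Q Q' := by
      rcases hQ'.2.2 with hb | hb
      · obtain ⟨j, hj, hE⟩ := ex_rep hQ' hb
        exact ⟨qj j, (mem_RF _).2 ⟨j, hj, Or.inl rfl⟩, hE⟩
      · obtain ⟨j, hj, hE⟩ := ex_rep (Fq_ng hQ') (by unfold ng; simp only; omega)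
        have := Eqv_ng hE
        rw [ng_ng] at this
        exact ⟨ng (qj j), (mem_RF _).2 ⟨j, hj, Or.inr rfl⟩, this⟩
    exact ⟨Q', ⟨hQ1, hQ2⟩, fun Q'' h => huniq Q'' Q' h.1 h.2 hQ1 hQ2⟩

/-! ### the real roots -/

lemma not_sq {D : ℕ} (hs : Squarefree D) (h1 : D ≠ 1) : ¬ IsSquare D := by
  rintro ⟨k, hk⟩
  have := hs k ⟨1, by rw [hk, mul_one]⟩
  rw [Nat.isUnit_iff] at this
  subst this
  exact h1 (by simpa using hk)

lemma fst_ne {D : ℕ} (hD : ¬ IsSquare D) {Q : Fo} (hd : dsc Q = D) : Q.1 ≠ 0 := by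
  intro h
  apply hD
  unfold dsc at hd
  rw [h, zero_mul, mul_zero, sub_zero] at hd
  refine ⟨Q.2.1.natAbs, ?_⟩
  have h1 : ((Q.2.1.natAbs * Q.2.1.natAbs : ℕ) : ℤ) = D := by
    rw [← hd, Nat.cast_mul, ← sq, Int.natCast_natAbs, sq_abs]
  exact_mod_cast h1.symm

lemma lin_ne {D : ℕ} (hD : ¬ IsSquare D) {Q : Fo} (hA : Q.1 ≠ 0) {ε : ℝ} (hε : ε = 1 ∨ ε = -1)
    {c d : ℤ} (hc : c ≠ 0) : (c : ℝ) * rt ε D Q + d ≠ 0 := by
  intro h
  have hirr : Irrational (Real.sqrt D) := irrational_sqrt_natCast_iff.2 hD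
  have hA' : (Q.1 : ℝ) ≠ 0 := by exact_mod_cast hA
  have hc' : (c : ℝ) ≠ 0 := by exact_mod_cast hc
  unfold rt at h
  have h1 : (c : ℝ) * (-(Q.2.1 : ℝ) + ε * Real.sqrt D) + d * (2 * Q.1) = 0 := by
    have h2 : (c : ℝ) * ((-(Q.2.1 : ℝ) + ε * Real.sqrt D) / (2 * Q.1)) + d =
        ((c : ℝ) * (-(Q.2.1 : ℝ) + ε * Real.sqrt D) + d * (2 * Q.1)) / (2 * Q.1) := by
      field_simp
    rw [h2, div_eq_zero_iff] at h
    rcases h with h | h
    · exact h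
    · exact absurd h (by positivity)
  rcases hε with rfl | rfl
  · apply hirr
    refine ⟨((c * Q.2.1 - 2 * Q.1 * d : ℤ) : ℚ) / (c : ℚ), ?_⟩
    push_cast
    field_simp
    linarith
  · apply hirr
    refine ⟨(-(c * Q.2.1 - 2 * Q.1 * d : ℤ) : ℚ) / (c : ℚ), ?_⟩
    push_cast
    field_simp
    linarith

lemma sg_qj (j : ℤ) (z : ℝ) (hz : 15 * z + 6 ≠ 0) :
    sg (qj j) ((3 * z + 1) / (15 * z + 6)) = (SignType.sign (4 * z + j) : ℤ) := by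
  unfold sg qj
  simp only
  push_cast
  have e : (75 * (j : ℝ) - 120) * ((3 * z + 1) / (15 * z + 6)) ^ 2 +
      (44 - 30 * (j : ℝ)) * ((3 * z + 1) / (15 * z + 6)) + (3 * j - 4) =
      (3 / (15 * z + 6) ^ 2) * (4 * z + j) := by
    obtain ⟨w, hw⟩ : ∃ w, w = 15 * z + 6 := ⟨_, rfl⟩
    rw [← hw] at hz ⊢
    field_simp
    rw [hw]
    ring
  rw [e, sign_mul, sign_pos (by positivity), one_mul]

lemma rt_Wi {D : ℕ} {A B C : ℤ} (hd : dsc (15 * A, B, C) = D) (hA : A ≠ 0)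
    (hA' : (Wi (15 * A, B, C)).1 ≠ 0) {ε : ℝ} (hε : ε = 1 ∨ ε = -1)
    (hz : 15 * rt ε D (15 * A, B, C) + 6 ≠ 0) :
    rt ε D (Wi (15 * A, B, C)) = (3 * rt ε D (15 * A, B, C) + 1) /
      (15 * rt ε D (15 * A, B, C) + 6) := by
  obtain ⟨z, hz'⟩ : ∃ z, z = rt ε D (15 * A, B, C) := ⟨_, rfl⟩
  rw [← hz'] at hz ⊢
  have hA1 : (A : ℝ) ≠ 0 := by exact_mod_cast hA
  have hz2 : 30 * A * z = -(B : ℝ) + ε * Real.sqrt D := by
    rw [hz']
    unfold rt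
    push_cast
    field_simp
    ring
  obtain ⟨σ, hσ⟩ : ∃ σ, σ = ε * Real.sqrt D := ⟨_, rfl⟩
  have hσ2 : σ ^ 2 = (B : ℝ) ^ 2 - 60 * A * C := by
    have h1 : (Real.sqrt D) ^ 2 = D := Real.sq_sqrt (Nat.cast_nonneg D)
    have h2 : ((B ^ 2 - 4 * (15 * A * C) : ℤ) : ℝ) = ((D : ℤ) : ℝ) := by
      have : B ^ 2 - 4 * (15 * A * C) = D := hd
      exact_mod_cast this
    push_cast at h2
    rw [hσ, mul_pow, h1, ← h2]
    rcases hε with rfl | rfl <;> ring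
  rw [← hσ] at hz2
  rw [Wi15] at hA' ⊢
  simp only at hA'
  have hA2 : ((15 * (12 * A - 2 * B + 5 * C) : ℤ) : ℝ) ≠ 0 := by exact_mod_cast hA'
  unfold rt
  simp only
  rw [← hσ]
  rw [div_eq_div_iff (by simpa using hA2) hz]
  have h30 : (30 * A : ℝ) ≠ 0 := mul_ne_zero (by norm_num) hA1
  apply mul_left_cancel₀ h30
  push_cast
  linear_combination (15 * (-(-60 * A + 11 * B - 30 * C) + σ) -
    6 * (15 * (12 * A - 2 * B + 5 * C))) * hz2 + 15 * hσ2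

lemma sig_eval {D : ℕ} (hD : ¬ IsSquare D) {Q : Fo} (hd : dsc Q = D) (j : ℤ) :
    (SignType.sign (4 * rt (-1) D Q + j) : ℤ) - (SignType.sign (4 * rt 1 D Q + j) : ℤ) =
      if Q.1 * ev Q (-j) 4 < 0 then -2 * Q.1.sign else 0 := by
  have hA := fst_ne hD hd
  have hA' : (Q.1 : ℝ) ≠ 0 := by exact_mod_cast hA
  have hm0 : 4 * rt (-1) D Q + j ≠ 0 := by
    have := lin_ne hD hA (Or.inr rfl) (c := 4) (d := j) (by norm_num)
    simpa using this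
  have hp0 : 4 * rt 1 D Q + j ≠ 0 := by
    have := lin_ne hD hA (Or.inl rfl) (c := 4) (d := j) (by norm_num)
    simpa using this
  obtain ⟨m, hm⟩ : ∃ m, m = 4 * rt (-1) D Q + j := ⟨_, rfl⟩
  obtain ⟨p, hp⟩ : ∃ p, p = 4 * rt 1 D Q + j := ⟨_, rfl⟩
  have hm1 : Q.1 * m = -2 * Q.2.1 - 2 * Real.sqrt D + Q.1 * j := by
    rw [hm]; unfold rt; field_simp; ring
  have hp1 : Q.1 * p = -2 * Q.2.1 + 2 * Real.sqrt D + Q.1 * j := by
    rw [hp]; unfold rt; field_simp; ring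
  rw [← hm, ← hp]
  rw [← hm] at hm0
  rw [← hp] at hp0
  have hs : 0 < Real.sqrt D := by
    apply Real.sqrt_pos.2
    rcases Nat.eq_zero_or_pos D with h | h
    · exact absurd (by rw [h]; exact ⟨0, rfl⟩) hD
    · exact_mod_cast h
  have hs2 : (Real.sqrt D) ^ 2 = D := Real.sq_sqrt (Nat.cast_nonneg D)
  have h2 : ((Q.2.1 ^ 2 - 4 * (Q.1 * Q.2.2) : ℤ) : ℝ) = ((D : ℤ) : ℝ) := by
    have : Q.2.1 ^ 2 - 4 * (Q.1 * Q.2.2) = D := hd
    exact_mod_cast this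
  push_cast at h2
  have hev : ((Q.1 * ev Q (-j) 4 : ℤ) : ℝ) = (Q.1 * m) * (Q.1 * p) := by
    rw [hm1, hp1]
    unfold ev
    push_cast
    linear_combination 4 * hs2 - 4 * h2
  have hdiff : Q.1 * p - Q.1 * m = 4 * Real.sqrt D := by rw [hm1, hp1]; ring
  have hcond : Q.1 * ev Q (-j) 4 < 0 ↔ m * p < 0 := by
    rw [← Int.cast_lt (R := ℝ), hev, Int.cast_zero]
    have : (Q.1 : ℝ) * m * (Q.1 * p) = (Q.1 : ℝ) ^ 2 * (m * p) := by ring
    rw [this]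
    have h3 : 0 < (Q.1 : ℝ) ^ 2 := by positivity
    constructor
    · intro h; by_contra h4
      push Not at h4
      have := mul_nonneg h3.le h4
      linarith
    · intro h; exact mul_neg_of_pos_of_neg h3 h
  rcases lt_or_gt_of_ne hA with hA1 | hA1
  · have hA2 : (Q.1 : ℝ) < 0 := by exact_mod_cast hA1
    have hlt : p < m := by
      by_contra h
      push Not at h
      have := mul_le_mul_of_nonpos_left h hA2.le
      linarith
    rw [Int.sign_eq_neg_one_of_neg hA1]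
    rcases lt_or_gt_of_ne hm0 with h3 | h3
    · have h4 : p < 0 := hlt.trans h3
      have h5 : ¬ Q.1 * ev Q (-j) 4 < 0 := by
        rw [hcond]; exact not_lt.2 (mul_pos_of_neg_of_neg h3 h4).le
      rw [if_neg h5, sign_neg h3, sign_neg h4]; simp
    · rcases lt_or_gt_of_ne hp0 with h4 | h4
      · have h5 : Q.1 * ev Q (-j) 4 < 0 := by
          rw [hcond]; exact mul_neg_of_pos_of_neg h3 h4
        rw [if_pos h5, sign_pos h3, sign_neg h4]; simp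
      · have h5 : ¬ Q.1 * ev Q (-j) 4 < 0 := by
          rw [hcond]; exact not_lt.2 (mul_pos h3 h4).le
        rw [if_neg h5, sign_pos h3, sign_pos h4]; simp
  · have hA2 : 0 < (Q.1 : ℝ) := by exact_mod_cast hA1
    have hlt : m < p := by
      by_contra h
      push Not at h
      have := mul_le_mul_of_nonneg_left h hA2.le
      linarith
    rw [Int.sign_eq_one_of_pos hA1]
    rcases lt_or_gt_of_ne hp0 with h3 | h3
    · have h4 : m < 0 := hlt.trans h3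
      have h5 : ¬ Q.1 * ev Q (-j) 4 < 0 := by
        rw [hcond]; exact not_lt.2 (mul_pos_of_neg_of_neg h4 h3).le
      rw [if_neg h5, sign_neg h3, sign_neg h4]; simp
    · rcases lt_or_gt_of_ne hm0 with h4 | h4
      · have h5 : Q.1 * ev Q (-j) 4 < 0 := by
          rw [hcond]; exact mul_neg_of_neg_of_pos h4 h3
        rw [if_pos h5, sign_pos h3, sign_neg h4]; simp
      · have h5 : ¬ Q.1 * ev Q (-j) 4 < 0 := by
          rw [hcond]; exact not_lt.2 (mul_pos h4 h3).le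
        rw [if_neg h5, sign_pos h3, sign_pos h4]; simp

lemma sig_Wi {D : ℕ} (hD : ¬ IsSquare D) {Q : Fo} (h15 : 15 ∣ Q.1) (hd : dsc Q = D) (j : ℤ) :
    sig D (Wi Q) (qj j) = if Q.1 * ev Q (-j) 4 < 0 then -2 * Q.1.sign else 0 := by
  rw [← sig_eval hD hd j]
  obtain ⟨A, B, C⟩ := Q
  obtain ⟨A, rfl⟩ := h15
  have hA := fst_ne hD hd
  simp only at hA
  have hA0 : A ≠ 0 := by rintro rfl; exact hA (by norm_num)
  have hA' : (Wi (15 * A, B, C)).1 ≠ 0 := by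
    apply fst_ne hD
    rw [dsc_Wi]; exact hd
  have h1 : ∀ ε : ℝ, (ε = 1 ∨ ε = -1) → 15 * rt ε D (15 * A, B, C) + 6 ≠ 0 := by
    intro ε hε
    have := lin_ne hD (Q := (15 * A, B, C)) hA hε (c := 15) (d := 6) (by norm_num)
    simpa using this
  unfold sig
  rw [rt_Wi hd hA0 hA' (Or.inl rfl) (h1 1 (Or.inl rfl)),
    rt_Wi hd hA0 hA' (Or.inr rfl) (h1 (-1) (Or.inr rfl)), sg_qj _ _ (h1 1 (Or.inl rfl)),
    sg_qj _ _ (h1 (-1) (Or.inr rfl))]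

lemma sg_ng (q : Fo) (x : ℝ) : sg (ng q) x = - sg q x := by
  unfold sg ng
  simp only
  push_cast
  have : -(q.1 : ℝ) * x ^ 2 + -(q.2.1 : ℝ) * x + -(q.2.2 : ℝ) =
      -((q.1 : ℝ) * x ^ 2 + q.2.1 * x + q.2.2) := by ring
  rw [this, Left.sign_neg]
  simp

lemma sig_ng (D : ℕ) (Q q : Fo) : sig D Q (ng q) = - sig D Q q := by
  unfold sig; rw [sg_ng, sg_ng]; ring

/-! ### finiteness and the bijection -/

lemma fin_set {D : ℕ} (hD : ¬ IsSquare D) {j : ℤ} (hj : |j| ≤ 2) :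
    {Q : Fo | dsc Q = D ∧ Q.1 * ev Q (-j) 4 < 0}.Finite := by
  have hD1 : 1 ≤ D := by
    rcases Nat.eq_zero_or_pos D with h | h
    · exact absurd (by rw [h]; exact ⟨0, rfl⟩) hD
    · exact h
  have hD2 : (1 : ℤ) ≤ D := by exact_mod_cast hD1
  obtain ⟨n, hn⟩ : ∃ n : ℤ, n = D := ⟨_, rfl⟩
  apply (Set.finite_Icc ((-(26 * n ^ 2), -(26 * n ^ 2), -(26 * n ^ 2)) : ℤ × ℤ × ℤ)
    (26 * n ^ 2, 26 * n ^ 2, 26 * n ^ 2)).subset
  rintro Q ⟨hd, hQ⟩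
  have hA := fst_ne hD hd
  obtain ⟨A, B, C⟩ := Q
  unfold dsc at hd
  unfold ev at hQ
  simp only at hd hQ hA
  rw [← hn] at hd hD2
  obtain ⟨b, hb⟩ : ∃ b, b = A * j - 2 * B := ⟨_, rfl⟩
  have e1 : A * (A * (-j) ^ 2 + B * (-j * 4) + C * 4 ^ 2) = b ^ 2 - 4 * n := by
    rw [hb, ← hd]; ring
  rw [e1] at hQ
  have hA1 : |A| ≤ 4 * n := by
    have h1 : A ∣ 4 * n - b ^ 2 := ⟨-(A * (-j) ^ 2 + B * (-j * 4) + C * 4 ^ 2), by
      rw [mul_neg, e1]; ring⟩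
    have h2 := Int.le_of_dvd (by linarith) ((abs_dvd _ _).2 h1)
    nlinarith [sq_nonneg b]
  have hb1 : |b| ≤ 2 * n := by
    apply abs_le_of_sq_le_sq
    · nlinarith
    · linarith
  have hB : |B| ≤ 5 * n := by
    have h1 : 2 * B = A * j - b := by rw [hb]; ring
    have h2 : |A * j| ≤ 8 * n := by
      rw [abs_mul]
      have := mul_le_mul hA1 hj (abs_nonneg j) (by linarith)
      linarith
    have h3 : |2 * B| ≤ |A * j| + |b| := by rw [h1]; exact abs_sub _ _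
    have h4 : |2 * B| = 2 * |B| := by rw [abs_mul]; norm_num
    rw [h4] at h3
    linarith
  have hC : |C| ≤ 26 * n ^ 2 := by
    have h1 : 4 * (A * C) = B ^ 2 - n := by linarith
    have h2 : |C| ≤ |4 * (A * C)| := by
      rw [abs_mul, abs_mul]
      have h3 : 1 ≤ |A| := Int.one_le_abs hA
      have h4 := abs_nonneg C
      norm_num
      nlinarith
    have h5 : |B ^ 2 - n| ≤ 26 * n ^ 2 := by
      have h6 : B ^ 2 ≤ (5 * n) ^ 2 := sq_le_sq' (by linarith [neg_abs_le B]) (by linarith [le_abs_self B])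
      rw [abs_le]
      constructor <;> nlinarith [sq_nonneg B]
    rw [h1] at h2
    linarith
  have k1 := abs_le.1 hA1
  have k2 := abs_le.1 hB
  have k3 := abs_le.1 hC
  have k4 : n ≤ n ^ 2 := by nlinarith
  refine ⟨⟨?_, ?_, ?_⟩, ?_, ?_, ?_⟩ <;> simp only <;> nlinarith [k1.1, k1.2, k2.1, k2.2, k3.1, k3.2]

lemma bij {D : ℕ} {r : ZMod 5} : Set.BijOn Wi (FQ' D r) (FQ D r) := by
  have h5 : ((5 : ℤ) : ZMod 5) = 0 := by decide
  refine ⟨?_, ?_, ?_⟩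
  · rintro ⟨A, B, C⟩ ⟨h1, ⟨A, rfl⟩, h3, h4⟩
    simp only at h3 h4
    refine ⟨by rw [dsc_Wi]; exact h1, by rw [Wi15]; exact ⟨_, rfl⟩, ?_, ?_⟩
    · rw [Wi15]; simp only; omega
    · rw [Wi15]; simp only
      have : -60 * A + 11 * B - 30 * C = B + 5 * (-12 * A + 2 * B - 6 * C) := by ring
      rw [this, Int.cast_add, Int.cast_mul, h5, zero_mul, add_zero, h4]
  · rintro ⟨A, B, C⟩ ⟨h1, ⟨A, rfl⟩, h3, h4⟩ ⟨A', B', C'⟩ ⟨h1', ⟨A', rfl⟩, h3', h4'⟩ h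
    have := congrArg Wf h
    rwa [WfWi, WfWi] at this
  · rintro ⟨A, B, C⟩ ⟨h1, ⟨A, rfl⟩, h3, h4⟩
    simp only at h3 h4
    refine ⟨Wf (15 * A, B, C), ⟨by rw [dsc_Wf]; exact h1, by rw [Wf15]; exact ⟨_, rfl⟩, ?_, ?_⟩,
      WiWf _ _ _⟩
    · rw [Wf15]; simp only; omega
    · rw [Wf15]; simp only
      have : 30 * A + 11 * B + 60 * C = B + 5 * (6 * A + 2 * B + 12 * C) := by ring
      rw [this, Int.cast_add, Int.cast_mul, h5, zero_mul, add_zero, h4]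

lemma fin_sig {D : ℕ} (hD : ¬ IsSquare D) {r : ZMod 5} {j : ℤ} (hj : |j| ≤ 2) :
    {Q : Fo | Q ∈ FQ D r ∧ sig D Q (qj j) ≠ 0}.Finite := by
  apply ((fin_set hD hj).image Wi).subset
  rintro Q ⟨hQ, hs⟩
  obtain ⟨Q', hQ', rfl⟩ := bij.surjOn hQ
  refine ⟨Q', ⟨hQ'.1, ?_⟩, rfl⟩
  by_contra h
  rw [sig_Wi hD hQ'.2.1 hQ'.1, if_neg h] at hs
  exact hs rfl

open scoped Classical in
lemma F_eq {D : ℕ} (hD : ¬ IsSquare D) {r : ZMod 5} (f : Fo → ℤ) (j : ℤ) :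
    (∑ᶠ Q : Fo, if Q ∈ FQ D r then f Q * sig D Q (qj j) else 0) =
      -2 * ∑ᶠ Q : Fo, if Q ∈ FQ' D r ∧ Q.1 * ev Q (-j) 4 < 0 then Q.1.sign * f (Wi Q) else 0 := by
  have h1 : (∑ᶠ Q : Fo, if Q ∈ FQ D r then f Q * sig D Q (qj j) else 0) =
      ∑ᶠ Q ∈ FQ D r, f Q * sig D Q (qj j) := by
    apply finsum_congr
    intro Q
    rw [finsum_eq_if]
  have h2 : (∑ᶠ Q : Fo, if Q ∈ FQ' D r ∧ Q.1 * ev Q (-j) 4 < 0 then Q.1.sign * f (Wi Q) else 0) =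
      ∑ᶠ Q ∈ FQ' D r, if Q.1 * ev Q (-j) 4 < 0 then Q.1.sign * f (Wi Q) else 0 := by
    apply finsum_congr
    intro Q
    rw [finsum_eq_if, ite_and]
  rw [h1, h2]
  rw [← finsum_mem_eq_of_bijOn (f := fun Q => f (Wi Q) * sig D (Wi Q) (qj j)) Wi bij
    (fun Q _ => rfl)]
  have h3 : ∀ g : Fo → ℤ, -2 * ∑ᶠ Q ∈ FQ' D r, g Q = ∑ᶠ Q ∈ FQ' D r, -2 * g Q := by
    intro g
    have := smul_finsum (-2 : ℤ) (fun Q => ∑ᶠ (_ : Q ∈ FQ' D r), g Q)
    simp only [smul_eq_mul] at this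
    rw [this]
    apply finsum_congr
    intro Q
    have := smul_finsum (-2 : ℤ) (fun _ : Q ∈ FQ' D r => g Q)
    simpa only [smul_eq_mul] using this
  rw [h3]
  apply finsum_mem_congr rfl
  intro Q hQ
  rw [sig_Wi hD hQ.2.1 hQ.1]
  split_ifs <;> ring

end C8

open scoped Classical in
/-- the unfolded sum -/
theorem t_U34 : S_U34 := by
  intro hNC hU12 hSTAB hNHOM D hs hF h1 r hr t u hfund R hR f hf
  have hD := C8.not_sq hs h1
  have hfin : ∀ q ∈ C8.RF, {Q : Fo | Q ∈ FQ D r ∧ sig D Q q ≠ 0}.Finite := by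
    intro q hq
    obtain ⟨j, hj, h⟩ := (C8.mem_RF q).1 hq
    have hj' : |j| ≤ 2 := by
      rcases hj with rfl | rfl | rfl | rfl <;> norm_num
    rcases h with rfl | rfl
    · exact C8.fin_sig hD hj'
    · have := C8.fin_sig hD (r := r) hj'
      apply this.subset
      rintro Q ⟨h1, h2⟩
      refine ⟨h1, fun h3 => h2 ?_⟩
      rw [C8.sig_ng, h3, neg_zero]
  have key := hU12 hNC hNHOM hSTAB D hs hF h1 r hr t u hfund R C8.RF hR C8.isRep_RF f hf hfin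
  have hneg : ∀ j : ℤ, (∑ᶠ Q : Fo, if Q ∈ FQ D r then f Q * sig D Q (C8.ng (C8.qj j)) else 0) =
      -∑ᶠ Q : Fo, if Q ∈ FQ D r then f Q * sig D Q (C8.qj j) else 0 := by
    intro j
    rw [← finsum_neg_distrib]
    apply finsum_congr
    intro Q
    rw [C8.sig_ng]
    split_ifs <;> ring
  unfold C8.RF at key
  rw [Finset.sum_insert (by decide), Finset.sum_insert (by decide), Finset.sum_insert (by decide),
    Finset.sum_insert (by decide), Finset.sum_insert (by decide), Finset.sum_insert (by decide),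
    Finset.sum_insert (by decide), Finset.sum_singleton, hneg, hneg, hneg, hneg,
    C8.F_eq hD, C8.F_eq hD, C8.F_eq hD, C8.F_eq hD] at key
  have c1 : cQ (C8.qj (-1)) = 1 := by norm_num [cQ, chi4, C8.qj]
  have c2 : cQ (C8.qj 0) = 0 := by norm_num [cQ, chi4, C8.qj]
  have c3 : cQ (C8.qj 1) = -1 := by norm_num [cQ, chi4, C8.qj]
  have c4 : cQ (C8.qj 2) = 0 := by norm_num [cQ, chi4, C8.qj]
  have c5 : cQ (C8.ng (C8.qj (-1))) = -1 := by norm_num [cQ, chi4, C8.qj, C8.ng]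
  have c6 : cQ (C8.ng (C8.qj 0)) = 0 := by norm_num [cQ, chi4, C8.qj, C8.ng]
  have c7 : cQ (C8.ng (C8.qj 1)) = 1 := by norm_num [cQ, chi4, C8.qj, C8.ng]
  have c8 : cQ (C8.ng (C8.qj 2)) = 0 := by norm_num [cQ, chi4, C8.qj, C8.ng]
  rw [c1, c2, c3, c4, c5, c6, c7, c8] at key
  rw [Finset.sum_insert (by decide), Finset.sum_singleton]
  have d1 : chi4 1 = 1 := by norm_num [chi4]
  have d2 : chi4 (-1) = -1 := by norm_num [chi4]
  rw [d1, d2]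
  linarith

end Pool.Agent.H757_X15.CC
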