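import Pool.Agent.H757_X15.StmC2
import Pool.Agent.H757_X15.CS.AMB
import Pool.Agent.H757_X15.CS.C1B
import Pool.Agent.H757_X15.CS.C3
import Pool.Agent.H757_X15.CS.CG
import Pool.Agent.H757_X15.CS.CHW
import Pool.Agent.H757_X15.CS.Chi
import Pool.Agent.H757_X15.CS.EVAL2
import Pool.Agent.H757_X15.CS.EvC2
import Pool.Agent.H757_X15.CS.Eval1
import Pool.Agent.H757_X15.CS.GENUS
import Pool.Agent.H757_X15.CS.HG
import Pool.Agent.H757_X15.CS.LEV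
import Pool.Agent.H757_X15.CS.MUL
import Pool.Agent.H757_X15.CS.NC
import Pool.Agent.H757_X15.CS.ODDG
import Pool.Agent.H757_X15.CS.PM0
import Pool.Agent.H757_X15.CS.Pm
import Pool.Agent.H757_X15.CS.R5
import Pool.Agent.H757_X15.CS.RPar
import Pool.Agent.H757_X15.CS.Rho
import Pool.Agent.H757_X15.CS.SYM
import Pool.Agent.H757_X15.CS.Stab
import Pool.Agent.H757_X15.CS.Star
import Pool.Agent.H757_X15.CS.TT8
import Pool.Agent.H757_X15.CS.U12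
import Pool.Agent.H757_X15.CS.U34
import Pool.Agent.H757_X15.CS.IND
import Pool.Agent.H757_X15.CS.IND2

/-!
# X15-C (FinC): the final statements of part C, from the bilinear identity `S_BIL`
-/

set_option autoImplicit false
set_option linter.unusedVariables false

namespace Pool.Agent.H757_X15.CC

open Finset
open Pool.Agent.H757_X15 (Symb15)
open Pool.Agent.H757_X15.DD (Fm Crit)
open Pool.Agent.H757_X15.BB (S_BIL)

open scoped Classical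

theorem t_DIAG (hBIL : S_BIL) : S_DIAG := t_DIAGA t_C1A t_C1B t_C2 hBIL

theorem t_UNF : S_UNF := t_U34 t_NC t_U12 t_STAB t_NHOM

theorem t_GEO (hBIL : S_BIL) : S_GEO := t_GEOA t_UNF t_CHI t_CHW t_EVAL1 t_EVAL2 t_MUL hBIL

theorem t_INDG (h : ∃ (s : ℚ → ℤ) (a : ℕ → ℤ), Symb15 s a) : INDG :=
  t_GENUS t_CHI t_NC (t_NINV t_NC t_SYM h) t_NGI t_NHOM

theorem t_INDT : INDT := t_TT8 t_STAR t_NC t_NHOM t_RHO t_RPAR t_RQ t_LEV t_CHI t_ELL

/-- C18 (IND0) -/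
theorem t_IND0 (hBIL : S_BIL) (h : ∃ (s : ℚ → ℤ) (a : ℕ → ℤ), Symb15 s a) : S_IND0 :=
  ind0_of (t_GEO hBIL) t_R5 t_FUND t_FIN t_ELL (t_INDG h) t_INDT

/-- IND2: the divisibility and the parity of the Gross sums -/
theorem t_IND2 (hBIL : S_BIL) (h : ∃ (s : ℚ → ℤ) (a : ℕ → ℤ), Symb15 s a) : S_IND2 :=
  ind2_of (t_IND0 hBIL h) t_R5 t_FUND t_FIN t_LEV t_ELL t_PM t_PELL t_ODDG t_PM0 t_AMB t_HG

/-- IND -/
theorem t_IND (hBIL : S_BIL) (h : ∃ (s : ℚ → ℤ) (a : ℕ → ℤ), Symb15 s a) : S_IND :=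
  ind_of (t_IND2 hBIL h)

/-- FINAL C2 -/
theorem t_MAINC2 (hBIL : S_BIL) : S_MAINC2 := fun s a h =>
  mainc2_of t_NC t_NHOM t_SYM (t_DIAG hBIL) (t_IND2 hBIL ⟨s, a, h⟩) t_R5 s a h

/-- FINAL C -/
theorem t_MAINC (hBIL : S_BIL) : S_MAINC := fun s a h =>
  mainc_of t_NC t_NHOM t_SYM (t_DIAG hBIL) (t_IND hBIL ⟨s, a, h⟩) t_R5 s a h

end Pool.Agent.H757_X15.CC
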