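import Pool.Agent.H757_X15.StmC

/-!
# X15-C: shared small lemmas on forms

Composition of substitutions, values, discriminants, invariance of the sets of forms under `Γ₀(N)`,
the genus character `cQ`, and the character `chi4`.
-/

set_option autoImplicit false
set_option linter.unusedVariables false

namespace Pool.Agent.H757_X15.CC

open Pool.Agent.H757_X15.BB (chi4)

/-! ### the character modulo `4` -/

theorem chi4_zero {n : ℤ} (h : n % 2 = 0) : chi4 n = 0 := by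
  unfold chi4; split_ifs <;> omega

theorem chi4_one {n : ℤ} (h : n % 4 = 1) : chi4 n = 1 := by
  unfold chi4; rw [if_pos h]

theorem chi4_three {n : ℤ} (h : n % 4 = 3) : chi4 n = -1 := by
  unfold chi4; rw [if_neg (by omega), if_pos h]

theorem chi4_odd {n : ℤ} (h : n % 2 = 1) : chi4 n = 1 ∨ chi4 n = -1 := by
  rcases (by omega : n % 4 = 1 ∨ n % 4 = 3) with h1 | h1
  · exact Or.inl (chi4_one h1)
  · exact Or.inr (chi4_three h1)

theorem chi4_ne_zero {n : ℤ} (h : n % 2 = 1) : chi4 n ≠ 0 := by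
  rcases chi4_odd h with h | h <;> rw [h] <;> norm_num

theorem chi4_neg (n : ℤ) : chi4 (-n) = -chi4 n := by
  unfold chi4; split_ifs <;> omega

theorem chi4_congr {m n : ℤ} (h : (4 : ℤ) ∣ m - n) : chi4 m = chi4 n := by
  unfold chi4; split_ifs <;> omega

theorem chi4_emod (n : ℤ) : chi4 (n % 4) = chi4 n := chi4_congr (by omega)

theorem chi4_mul (m n : ℤ) : chi4 (m * n) = chi4 m * chi4 n := by
  have key : chi4 ((m % 4) * (n % 4)) = chi4 (m % 4) * chi4 (n % 4) := by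
    have hm : m % 4 = 0 ∨ m % 4 = 1 ∨ m % 4 = 2 ∨ m % 4 = 3 := by omega
    have hn : n % 4 = 0 ∨ n % 4 = 1 ∨ n % 4 = 2 ∨ n % 4 = 3 := by omega
    rcases hm with h | h | h | h <;> rcases hn with h' | h' | h' | h' <;> rw [h, h'] <;> decide
  rw [chi4_emod, chi4_emod] at key
  rw [← key]
  apply chi4_congr
  exact Int.ModEq.dvd ((Int.mod_modEq m 4).mul (Int.mod_modEq n 4))

theorem chi4_sq {n : ℤ} (h : n % 2 = 1) : chi4 n * chi4 n = 1 := by
  rcases chi4_odd h with h | h <;> rw [h] <;> norm_num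

/-- two odd numbers whose product is an odd square modulo `4` have the same character -/
theorem chi4_eq_of_mul {m n : ℤ} (h : (m * n) % 4 = 1) : chi4 m = chi4 n := by
  have h1 := chi4_one h
  rw [chi4_mul] at h1
  have hm : m % 2 = 1 := by
    by_contra hc
    have : chi4 m = 0 := chi4_zero (by omega)
    rw [this] at h1; simp at h1
  rcases chi4_odd hm with h2 | h2 <;> rw [h2] at h1 ⊢ <;> linarith

/-! ### substitutions -/

theorem ev_act (q : Fo) (a b c d x y : ℤ) : ev (act q a b c d) x y = ev q (a * x + b * y) (c * x + d * y) := by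
  simp only [ev, act]; ring

theorem dsc_act (q : Fo) (a b c d : ℤ) : dsc (act q a b c d) = (a * d - b * c) ^ 2 * dsc q := by
  simp only [dsc, act, ev]; ring

theorem dsc_act' (q : Fo) {a b c d : ℤ} (h : a * d - b * c = 1) : dsc (act q a b c d) = dsc q := by
  rw [dsc_act, h]; ring

theorem act_act (q : Fo) (a b c d a' b' c' d' : ℤ) :
    act (act q a b c d) a' b' c' d' = act q (a * a' + b * c') (a * b' + b * d') (c * a' + d * c') (c * b' + d * d') := by
  simp only [act, ev, Prod.mk.injEq]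
  refine ⟨by ring, by ring, by ring⟩

theorem act_one (q : Fo) : act q 1 0 0 1 = q := by
  obtain ⟨a, b, c⟩ := q
  simp only [act, ev, Prod.mk.injEq]
  refine ⟨by ring, by ring, by ring⟩

theorem act_neg (q : Fo) (a b c d : ℤ) : act q (-a) (-b) (-c) (-d) = act q a b c d := by
  simp only [act, ev, Prod.mk.injEq]
  refine ⟨by ring, by ring, by ring⟩

theorem act_inv (q : Fo) {a b c d : ℤ} (h : a * d - b * c = 1) : act (act q a b c d) d (-b) (-c) a = q := by
  rw [act_act, show a * d + b * -c = 1 by linarith, show a * -b + b * a = 0 by ring,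
    show c * d + d * -c = 0 by ring, show c * -b + d * a = 1 by linarith, act_one]

theorem act_inv' (q : Fo) {a b c d : ℤ} (h : a * d - b * c = 1) : act (act q d (-b) (-c) a) a b c d = q := by
  rw [act_act, show d * a + -b * c = 1 by linarith, show d * b + -b * d = 0 by ring,
    show -c * a + a * c = 0 by ring, show -c * b + a * d = 1 by linarith, act_one]

/-- the substitution as a permutation of the forms -/
def actE (a b c d : ℤ) (h : a * d - b * c = 1) : Fo ≃ Fo where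
  toFun q := act q a b c d
  invFun q := act q d (-b) (-c) a
  left_inv q := act_inv q h
  right_inv q := act_inv' q h

@[simp] theorem actE_apply (a b c d : ℤ) (h : a * d - b * c = 1) (q : Fo) : actE a b c d h q = act q a b c d := rfl

theorem act_fst (q : Fo) (a b c d : ℤ) : (act q a b c d).1 = ev q a c := rfl
theorem act_snd (q : Fo) (a b c d : ℤ) : (act q a b c d).2.2 = ev q b d := rfl

/-- the first coefficient modulo the level -/
theorem act_level {N : ℤ} {q : Fo} {a b c d : ℤ} (hq : N ∣ q.1) (hc : N ∣ c) : N ∣ (act q a b c d).1 := by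
  obtain ⟨k, hk⟩ := hq
  obtain ⟨l, rfl⟩ := hc
  refine ⟨k * a ^ 2 + q.2.1 * (a * l) + q.2.2 * (N * l ^ 2), ?_⟩
  rw [act_fst, ev, hk]; ring

/-- the middle coefficient modulo twice the level -/
theorem act_mid {N : ℤ} {q : Fo} {a b c d : ℤ} (h : a * d - b * c = 1) (hq : N ∣ q.1) (hc : N ∣ c) :
    2 * N ∣ (act q a b c d).2.1 - q.2.1 := by
  obtain ⟨k, hk⟩ := hq
  obtain ⟨l, rfl⟩ := hc
  refine ⟨k * (a * b) + q.2.1 * (b * l) + q.2.2 * (l * d), ?_⟩
  have : (act q a b (N * l) d).2.1 = 2 * (q.1 * (a * b)) + q.2.1 * (a * d + b * (N * l)) + 2 * (q.2.2 * (N * l * d)) := rfl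
  rw [this, hk]
  linear_combination q.2.1 * h

theorem Eqv.refl (N : ℤ) (Q : Fo) : Eqv N Q Q := ⟨1, 0, 0, 1, by ring, dvd_zero N, (act_one Q).symm⟩

theorem Eqv.symm {N : ℤ} {Q Q' : Fo} (h : Eqv N Q Q') : Eqv N Q' Q := by
  obtain ⟨a, b, c, d, h1, h2, rfl⟩ := h
  exact ⟨d, -b, -c, a, by linarith, (dvd_neg).2 h2, (act_inv Q h1).symm⟩

theorem Eqv.trans {N : ℤ} {Q Q' Q'' : Fo} (h : Eqv N Q Q') (h' : Eqv N Q' Q'') : Eqv N Q Q'' := by
  obtain ⟨a, b, c, d, h1, h2, rfl⟩ := h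
  obtain ⟨a', b', c', d', h1', h2', rfl⟩ := h'
  refine ⟨_, _, _, _, ?_, ?_, act_act Q a b c d a' b' c' d'⟩
  · linear_combination h1' * (a * d - b * c) + h1
  · exact dvd_add (h2.mul_right _) (h2'.mul_left _)

theorem Eqv.act {N : ℤ} (Q : Fo) {a b c d : ℤ} (h : a * d - b * c = 1) (hc : N ∣ c) : Eqv N Q (act Q a b c d) :=
  ⟨a, b, c, d, h, hc, rfl⟩

theorem Eqv.mono {M N : ℤ} (hMN : M ∣ N) {Q Q' : Fo} (h : Eqv N Q Q') : Eqv M Q Q' := by
  obtain ⟨a, b, c, d, h1, h2, h3⟩ := h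
  exact ⟨a, b, c, d, h1, hMN.trans h2, h3⟩

theorem Eqv.dsc {N : ℤ} {Q Q' : Fo} (h : Eqv N Q Q') : dsc Q' = dsc Q := by
  obtain ⟨a, b, c, d, h1, _, rfl⟩ := h
  exact dsc_act' Q h1

theorem Eqv.level {N : ℤ} {Q Q' : Fo} (h : Eqv N Q Q') (hQ : N ∣ Q.1) : N ∣ Q'.1 := by
  obtain ⟨a, b, c, d, _, h2, rfl⟩ := h
  exact act_level hQ h2

theorem Eqv.mid {N : ℤ} {Q Q' : Fo} (h : Eqv N Q Q') (hQ : N ∣ Q.1) : 2 * N ∣ Q'.2.1 - Q.2.1 := by
  obtain ⟨a, b, c, d, h1, h2, rfl⟩ := h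
  exact act_mid h1 hQ h2

/-! ### invariance of the sets of forms -/

theorem cast5_congr {m n : ℤ} (h : (5 : ℤ) ∣ m - n) : (m : ZMod 5) = (n : ZMod 5) := by
  have := (ZMod.intCast_zmod_eq_zero_iff_dvd (m - n) 5).2 (by exact_mod_cast h)
  push_cast at this
  exact sub_eq_zero.1 this

theorem FQ_eqv {D : ℕ} {r : ZMod 5} {Q Q' : Fo} (h : Eqv 15 Q Q') (hQ : Q ∈ FQ D r) : Q' ∈ FQ D r := by
  obtain ⟨h1, h2, h3, h4⟩ := hQ
  have hm := h.mid h2
  refine ⟨by rw [h.dsc]; exact h1, h.level h2, ?_, ?_⟩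
  · have : (3 : ℤ) ∣ Q'.2.1 - Q.2.1 := (by norm_num : (3 : ℤ) ∣ 2 * 15).trans hm
    omega
  · rw [← h4]; exact cast5_congr ((by norm_num : (5 : ℤ) ∣ 2 * 15).trans hm)

theorem FQ'_eqv {D : ℕ} {r : ZMod 5} {Q Q' : Fo} (h : Eqv 15 Q Q') (hQ : Q ∈ FQ' D r) : Q' ∈ FQ' D r := by
  obtain ⟨h1, h2, h3, h4⟩ := hQ
  have hm := h.mid h2
  refine ⟨by rw [h.dsc]; exact h1, h.level h2, ?_, ?_⟩
  · have : (3 : ℤ) ∣ Q'.2.1 - Q.2.1 := (by norm_num : (3 : ℤ) ∣ 2 * 15).trans hm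
    omega
  · rw [← h4]; exact cast5_congr ((by norm_num : (5 : ℤ) ∣ 2 * 15).trans hm)

theorem F5_eqv {D : ℕ} {r : ZMod 5} {Q Q' : Fo} (h : Eqv 5 Q Q') (hQ : Q ∈ F5 D r) : Q' ∈ F5 D r := by
  obtain ⟨h1, h2, h4⟩ := hQ
  have hm := h.mid h2
  refine ⟨by rw [h.dsc]; exact h1, h.level h2, ?_⟩
  rw [← h4]; exact cast5_congr ((by norm_num : (5 : ℤ) ∣ 2 * 5).trans hm)

theorem F1_eqv {D : ℕ} {Q Q' : Fo} (h : Eqv 1 Q Q') (hQ : Q ∈ F1 D) : Q' ∈ F1 D := by
  change dsc Q' = D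
  rw [h.dsc]; exact hQ

theorem Fq_eqv {q q' : Fo} (h : Eqv 15 q q') (hq : Fq q) : Fq q' := by
  obtain ⟨h1, h2, h3⟩ := hq
  have hm := h.mid h2
  refine ⟨by rw [h.dsc]; exact h1, h.level h2, ?_⟩
  have : (30 : ℤ) ∣ q'.2.1 - q.2.1 := by simpa using hm
  omega

theorem Fq_act_iff (q : Fo) {a b c d : ℤ} (h : a * d - b * (15 * c) = 1) : Fq (act q a b (15 * c) d) ↔ Fq q :=
  ⟨fun h' => Fq_eqv (Eqv.symm (Eqv.act q h (Dvd.intro c rfl))) h', fun h' => Fq_eqv (Eqv.act q h (Dvd.intro c rfl)) h'⟩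

theorem FQ_act_iff {D : ℕ} {r : ZMod 5} (q : Fo) {a b c d : ℤ} (h : a * d - b * (15 * c) = 1) :
    act q a b (15 * c) d ∈ FQ D r ↔ q ∈ FQ D r :=
  ⟨fun h' => FQ_eqv (Eqv.symm (Eqv.act q h (Dvd.intro c rfl))) h', fun h' => FQ_eqv (Eqv.act q h (Dvd.intro c rfl)) h'⟩

theorem FQ'_act_iff {D : ℕ} {r : ZMod 5} (q : Fo) {a b c d : ℤ} (h : a * d - b * (15 * c) = 1) :
    act q a b (15 * c) d ∈ FQ' D r ↔ q ∈ FQ' D r :=
  ⟨fun h' => FQ'_eqv (Eqv.symm (Eqv.act q h (Dvd.intro c rfl))) h', fun h' => FQ'_eqv (Eqv.act q h (Dvd.intro c rfl)) h'⟩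

/-! ### the forms of discriminant `16` -/

theorem Fq_mid {q : Fo} (h : dsc q = 16) : ∃ b : ℤ, q.2.1 = 2 * b ∧ b ^ 2 = q.1 * q.2.2 + 4 := by
  unfold dsc at h
  have h1 : Even (q.2.1 ^ 2) := ⟨2 * (q.1 * q.2.2) + 8, by linarith⟩
  have h2 : Even q.2.1 := by
    rw [Int.even_pow] at h1; exact h1.1
  obtain ⟨b, hb⟩ := h2
  refine ⟨b, by rw [hb]; ring, ?_⟩
  rw [hb] at h
  linarith [h]

/-- `A q(x, y) = (A x + b y)² - 4 y²` -/
theorem ev_mul_fst {q : Fo} {b : ℤ} (h1 : q.2.1 = 2 * b) (h2 : b ^ 2 = q.1 * q.2.2 + 4) (x y : ℤ) :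
    q.1 * ev q x y = (q.1 * x + b * y) ^ 2 - 4 * y ^ 2 := by
  unfold ev; rw [h1]; linear_combination -(y ^ 2) * h2

theorem ev_mul_snd {q : Fo} {b : ℤ} (h1 : q.2.1 = 2 * b) (h2 : b ^ 2 = q.1 * q.2.2 + 4) (x y : ℤ) :
    q.2.2 * ev q x y = (q.2.2 * y + b * x) ^ 2 - 4 * x ^ 2 := by
  unfold ev; rw [h1]; linear_combination -(x ^ 2) * h2

theorem sq_mod4 {n : ℤ} (h : n % 2 = 1) : n ^ 2 % 4 = 1 := by
  obtain ⟨k, hk⟩ : ∃ k, n = 2 * k + 1 := ⟨n / 2, by omega⟩
  rw [hk, show (2 * k + 1) ^ 2 = 1 + 4 * (k ^ 2 + k) by ring]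
  omega

/-- the odd values of a form of discriminant `16` have the same character -/
theorem cQ_eq {q : Fo} (h : dsc q = 16) {x y : ℤ} (ho : ev q x y % 2 = 1) : cQ q = chi4 (ev q x y) := by
  obtain ⟨b, h1, h2⟩ := Fq_mid h
  have mod : ∀ {m s t : ℤ}, m % 2 = 1 → m * ev q x y = s ^ 2 - 4 * t ^ 2 → chi4 m = chi4 (ev q x y) := by
    intro m s t hm e
    apply chi4_eq_of_mul
    have hs : s % 2 = 1 := by
      by_contra hc
      have hs2 : s % 2 = 0 := by omega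
      obtain ⟨k, hk⟩ : ∃ k, s = 2 * k := ⟨s / 2, by omega⟩
      rw [hk] at e
      have h3 : Even (m * ev q x y) := ⟨2 * k ^ 2 - 2 * t ^ 2, by rw [e]; ring⟩
      rw [Int.even_mul] at h3
      rcases h3 with h3 | h3 <;> rw [Int.even_iff] at h3 <;> omega
    rw [e]
    have := sq_mod4 hs
    omega
  unfold cQ
  split_ifs with hA
  · exact mod hA (ev_mul_fst h1 h2 x y)
  · by_cases hC : q.2.2 % 2 = 1
    · exact mod hC (ev_mul_snd h1 h2 x y)
    · exfalso
      have h3 : Even (ev q x y) := by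
        obtain ⟨k, hk⟩ : ∃ k, q.1 = 2 * k := ⟨q.1 / 2, by omega⟩
        obtain ⟨l, hl⟩ : ∃ l, q.2.2 = 2 * l := ⟨q.2.2 / 2, by omega⟩
        refine ⟨k * x ^ 2 + b * (x * y) + l * y ^ 2, ?_⟩
        unfold ev; rw [h1, hk, hl]; ring
      rw [Int.even_iff] at h3
      omega

theorem cQ_zero {q : Fo} (hA : q.1 % 2 = 0) (hC : q.2.2 % 2 = 0) : cQ q = 0 := by
  unfold cQ; rw [if_neg (by omega)]; exact chi4_zero hC

theorem cQ_of_odd {q : Fo} (h : q.1 % 2 = 1) : cQ q = chi4 q.1 := by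
  unfold cQ; rw [if_pos h]

theorem cQ_of_even {q : Fo} (h : q.1 % 2 = 0) : cQ q = chi4 q.2.2 := by
  unfold cQ; rw [if_neg (by omega)]

/-- `cQ` is invariant under substitutions of determinant `1` -/
theorem cQ_act {q : Fo} (hq : dsc q = 16) {a b c d : ℤ} (h : a * d - b * c = 1) : cQ (act q a b c d) = cQ q := by
  by_cases h1 : ev q a c % 2 = 1
  · rw [cQ_eq hq h1]
    unfold cQ
    rw [act_fst, if_pos h1]
  · by_cases h2 : ev q b d % 2 = 1
    · rw [cQ_eq hq h2]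
      unfold cQ
      rw [act_fst, if_neg h1, act_snd]
    · rw [cQ_zero (by rw [act_fst]; omega) (by rw [act_snd]; omega)]
      symm
      have hq' : dsc (act q a b c d) = 16 := by rw [dsc_act' q h]; exact hq
      -- all the values of `q` are even
      have hev : ∀ x y : ℤ, ev q x y % 2 = 0 := by
        intro x y
        by_contra hc
        have e : ev (act q a b c d) (d * x + -b * y) (-c * x + a * y) = ev q x y := by
          rw [← ev_act (act q a b c d) d (-b) (-c) a x y, act_inv q h]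
        have ho : ev (act q a b c d) (d * x + -b * y) (-c * x + a * y) % 2 = 1 := by rw [e]; omega
        have h3 := cQ_eq hq' ho
        rw [cQ_zero (by rw [act_fst]; omega) (by rw [act_snd]; omega)] at h3
        exact chi4_ne_zero ho h3.symm
      apply cQ_zero
      · have := hev 1 0
        simpa [ev] using this
      · have := hev 0 1
        simpa [ev] using this

/-- the opposite form -/
def ng (q : Fo) : Fo := (-q.1, -q.2.1, -q.2.2)

/-- the reflected form -/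
def rf (q : Fo) : Fo := (q.1, -q.2.1, q.2.2)

theorem ng_ng (q : Fo) : ng (ng q) = q := by simp [ng]
theorem rf_rf (q : Fo) : rf (rf q) = q := by simp [rf]

/-- `ng` as a permutation -/
def ngE : Fo ≃ Fo := ⟨ng, ng, ng_ng, ng_ng⟩
/-- `rf` as a permutation -/
def rfE : Fo ≃ Fo := ⟨rf, rf, rf_rf, rf_rf⟩

theorem ev_ng (q : Fo) (x y : ℤ) : ev (ng q) x y = -ev q x y := by simp only [ev, ng]; ring
theorem ev_rf (q : Fo) (x y : ℤ) : ev (rf q) x y = ev q (-x) y := by simp only [ev, rf]; ring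
theorem ev_rf' (q : Fo) (x y : ℤ) : ev (rf q) x y = ev q x (-y) := by simp only [ev, rf]; ring
theorem ev_neg (q : Fo) (x y : ℤ) : ev q (-x) (-y) = ev q x y := by simp only [ev]; ring

theorem dsc_ng (q : Fo) : dsc (ng q) = dsc q := by simp only [dsc, ng]; ring
theorem dsc_rf (q : Fo) : dsc (rf q) = dsc q := by simp only [dsc, rf]; ring

theorem Fq_ng {q : Fo} : Fq (ng q) ↔ Fq q := by
  unfold Fq
  rw [dsc_ng]
  simp only [ng, dvd_neg]
  refine and_congr_right fun _ => and_congr_right fun _ => ?_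
  omega

theorem Fq_rf {q : Fo} : Fq (rf q) ↔ Fq q := by
  unfold Fq
  rw [dsc_rf]
  simp only [rf]
  refine and_congr_right fun _ => and_congr_right fun _ => ?_
  omega

theorem cQ_ng (q : Fo) : cQ (ng q) = -cQ q := by
  have e1 : (ng q).1 = -q.1 := rfl
  have e2 : (ng q).2.2 = -q.2.2 := rfl
  by_cases h : q.1 % 2 = 1
  · rw [cQ_of_odd (q := ng q) (by rw [e1]; omega), cQ_of_odd h, e1, chi4_neg]
  · rw [cQ_of_even (q := ng q) (by rw [e1]; omega), cQ_of_even (by omega), e2, chi4_neg]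

theorem cQ_rf (q : Fo) : cQ (rf q) = cQ q := rfl

/-- the outer coefficients of a form in `Fq` do not vanish and have the same sign -/
theorem Fq_pos {q : Fo} (h : Fq q) : 0 < q.1 * q.2.2 := by
  obtain ⟨h1, _, h3⟩ := h
  unfold dsc at h1
  by_contra hc
  push Not at hc
  have h4 : q.2.1 ^ 2 ≤ 16 := by linarith
  have h5 : q.2.1 ≤ 4 := by nlinarith
  have h6 : -4 ≤ q.2.1 := by nlinarith
  omega

theorem Fq_fst_ne {q : Fo} (h : Fq q) : q.1 ≠ 0 := fun h' => by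
  have := Fq_pos h; rw [h'] at this; simp at this

theorem Fq_snd_ne {q : Fo} (h : Fq q) : q.2.2 ≠ 0 := fun h' => by
  have := Fq_pos h; rw [h'] at this; simp at this

end Pool.Agent.H757_X15.CC
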