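import Pool.Agent.H757_X15.StmC
import Pool.Agent.Y574.Z7.A

/-!
# X15-C5 (helper621): evaluation of the divisor sums, part 1: symbols and local weights
-/

set_option autoImplicit false

namespace Pool.Agent.H757_X15.CS5

open Finset
open Pool.Agent.Z700 (fac hh)
open Pool.Agent.Y574.Z7 (sum_local div_split chp chp_mul chp_one chp_self chp_nd chp_sq chp_pm jac_eq jac_prod)
open Pool.Agent.H757_X15.DD (Fm)
open Pool.Agent.H757_X15.BB (chi4 chim2 wt c2 loc kap pf3)
open Pool.Agent.H757_X15.CC (WW TT ps4 psp S_C2)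

/-! ### the character modulo four -/

theorem chi4_eq (n : ℤ) : chi4 n = ZMod.χ₄ n := by
  rw [ZMod.χ₄_int_eq_if_mod_four]
  unfold chi4
  have h : n % 4 = 0 ∨ n % 4 = 1 ∨ n % 4 = 2 ∨ n % 4 = 3 := by omega
  rcases h with h | h | h | h
  · rw [if_neg (by omega), if_neg (by omega), if_pos (by omega)]
  · rw [if_pos (by omega), if_neg (by omega), if_pos (by omega)]
  · rw [if_neg (by omega), if_neg (by omega), if_pos (by omega)]
  · rw [if_neg (by omega), if_pos (by omega), if_neg (by omega), if_neg (by omega)]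

theorem chi4_mul (a b : ℤ) : chi4 (a * b) = chi4 a * chi4 b := by
  rw [chi4_eq, chi4_eq, chi4_eq]
  push_cast
  rw [map_mul]

theorem chi4_one : chi4 1 = 1 := rfl

theorem chi4_even {n : ℤ} (h : Even n) : chi4 n = 0 := by
  obtain ⟨k, rfl⟩ := h
  unfold chi4
  rw [if_neg (by omega), if_neg (by omega)]

theorem chi4_sq {n : ℤ} (h : Odd n) : chi4 n * chi4 n = 1 := by
  obtain ⟨k, rfl⟩ := h
  have h : (2 * k + 1) % 4 = 1 ∨ (2 * k + 1) % 4 = 3 := by omega
  unfold chi4
  rcases h with h | h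
  · rw [if_pos h]; norm_num
  · rw [if_neg (by omega), if_pos h]; norm_num

theorem chi4_neg (n : ℤ) : chi4 (-n) = -chi4 n := by
  unfold chi4
  have h : n % 4 = 0 ∨ n % 4 = 1 ∨ n % 4 = 2 ∨ n % 4 = 3 := by omega
  rcases h with h | h | h | h
  · rw [if_neg (by omega), if_neg (by omega), if_neg (by omega), if_neg (by omega)]; norm_num
  · rw [if_neg (by omega), if_pos (by omega), if_pos (by omega)]
  · rw [if_neg (by omega), if_neg (by omega), if_neg (by omega), if_neg (by omega)]; norm_num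
  · rw [if_pos (by omega), if_neg (by omega), if_pos (by omega)]; norm_num

theorem chi4_mod {a b : ℤ} (h : a % 4 = b % 4) : chi4 a = chi4 b := by
  unfold chi4
  rw [h]

theorem chi4_one_of {n : ℤ} (h : n % 4 = 1) : chi4 n = 1 := by
  unfold chi4
  rw [if_pos h]

theorem chi4_three_of {n : ℤ} (h : n % 4 = 3) : chi4 n = -1 := by
  unfold chi4
  rw [if_neg (by omega), if_pos h]

/-! ### the number `D` -/

theorem fm4 {D : ℕ} (h : Fm D) : D % 4 = 1 := by unfold Fm at h; omega
theorem fm3 {D : ℕ} (h : Fm D) : D % 3 = 1 := by unfold Fm at h; omega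
theorem fm5 {D : ℕ} (h : Fm D) : D % 5 = 1 ∨ D % 5 = 4 := by unfold Fm at h; omega
theorem fm_odd {D : ℕ} (h : Fm D) : Odd D := by rw [Nat.odd_iff]; have := fm4 h; omega
theorem fm_ne {D : ℕ} (h : Fm D) : D ≠ 0 := by rintro rfl; have := fm4 h; omega

theorem pf_ne2 {D q : ℕ} (h : Fm D) (hq : q ∈ D.primeFactors) : q ≠ 2 := by
  rintro rfl
  have h1 := Nat.dvd_of_mem_primeFactors hq
  have := fm4 h
  omega

theorem pf_ne3 {D q : ℕ} (h : Fm D) (hq : q ∈ D.primeFactors) : q ≠ 3 := by
  rintro rfl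
  have h1 := Nat.dvd_of_mem_primeFactors hq
  have := fm3 h
  omega

theorem pf_ne5 {D q : ℕ} (h : Fm D) (hq : q ∈ D.primeFactors) : q ≠ 5 := by
  rintro rfl
  have h1 := Nat.dvd_of_mem_primeFactors hq
  have := fm5 h
  omega

theorem pf_odd {D q : ℕ} (h : Fm D) (hq : q ∈ D.primeFactors) : Odd q :=
  (Nat.prime_of_mem_primeFactors hq).odd_of_ne_two (pf_ne2 h hq)

/-! ### the product of the symbols -/

/-- the product of the symbols -/
def Ps (D n : ℕ) : ℤ := chi4 n * ∏ q ∈ D.primeFactors, chp q n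

theorem Ps_one (D : ℕ) : Ps D 1 = 1 := by
  unfold Ps
  rw [Finset.prod_eq_one fun q _ => chp_one q]
  rfl

theorem Ps_mul (D a b : ℕ) : Ps D (a * b) = Ps D a * Ps D b := by
  unfold Ps
  have h1 : ∏ q ∈ D.primeFactors, chp q (a * b) =
      (∏ q ∈ D.primeFactors, chp q a) * ∏ q ∈ D.primeFactors, chp q b := by
    rw [← Finset.prod_mul_distrib]
    exact Finset.prod_congr rfl fun q _ => chp_mul q a b
  rw [h1]
  push_cast
  rw [chi4_mul]
  ring

theorem Ps_pow (D a k : ℕ) : Ps D (a ^ k) = Ps D a ^ k := by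
  induction k with
  | zero => rw [pow_zero, pow_zero, Ps_one]
  | succ k ih => rw [pow_succ, Ps_mul, ih, pow_succ]

theorem Ps_prod (D : ℕ) (s : Finset ℕ) (f : ℕ → ℕ) :
    Ps D (∏ l ∈ s, f l) = ∏ l ∈ s, Ps D (f l) := by
  classical
  induction s using Finset.induction_on with
  | empty => rw [Finset.prod_empty, Finset.prod_empty, Ps_one]
  | insert l s hl ih => rw [Finset.prod_insert hl, Finset.prod_insert hl, Ps_mul, ih]

/-- `Ps` is completely multiplicative -/
theorem Ps_fac (D : ℕ) (Q : Finset ℕ) (n : ℕ) (hn : n ≠ 0) (h : n.primeFactors ⊆ Q) :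
    Ps D n = ∏ l ∈ Q, Ps D l ^ n.factorization l := by
  have h1 : ∏ l ∈ n.primeFactors, l ^ n.factorization l = n := by
    have h2 := Nat.prod_factorization_pow_eq_self hn
    unfold Finsupp.prod at h2
    rwa [Nat.support_factorization] at h2
  have h2 : Ps D n = ∏ l ∈ n.primeFactors, Ps D l ^ n.factorization l := by
    conv_lhs => rw [← h1]
    rw [Ps_prod]
    exact Finset.prod_congr rfl fun l _ => Ps_pow D l _
  rw [h2]
  refine Finset.prod_subset h fun l _ hl => ?_
  rw [Finsupp.notMem_support_iff.1 (by rwa [Nat.support_factorization]), pow_zero]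

theorem Ps_pm {D n : ℕ} (hn : Odd n) : Ps D n = 1 ∨ Ps D n = -1 := by
  have hn0 : n ≠ 0 := by rintro rfl; exact absurd hn (by decide)
  have h : Ps D n * Ps D n = 1 := by
    unfold Ps
    have h1 : (∏ q ∈ D.primeFactors, chp q n) * ∏ q ∈ D.primeFactors, chp q n = 1 := by
      rw [← Finset.prod_mul_distrib]
      exact Finset.prod_eq_one fun q hq => chp_sq (Nat.prime_of_mem_primeFactors hq) hn0
    have h2 : chi4 (n : ℤ) * chi4 n = 1 := chi4_sq (by exact_mod_cast hn)
    calc chi4 (n : ℤ) * (∏ q ∈ D.primeFactors, chp q n) * (chi4 n * ∏ q ∈ D.primeFactors, chp q n) =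
        (chi4 (n : ℤ) * chi4 n) * ((∏ q ∈ D.primeFactors, chp q n) * ∏ q ∈ D.primeFactors, chp q n) := by ring
      _ = 1 := by rw [h1, h2]; norm_num
  exact mul_self_eq_one_iff.1 h

theorem prod_pf {D : ℕ} (hs : Squarefree D) : ∏ q ∈ D.primeFactors, q = D :=
  Nat.prod_primeFactors_of_squarefree hs

/-- the symbol with modulus `D` -/
theorem jac_D {D : ℕ} (hs : Squarefree D) (a : ℤ) : jacobiSym a D = ∏ q ∈ D.primeFactors, jacobiSym a q := by
  conv_lhs => rw [← prod_pf hs]
  exact jac_prod a _ fun q hq => (Nat.prime_of_mem_primeFactors hq).ne_zero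

/-- the value of `Ps` at the primes which do not divide `2 D` -/
theorem Ps_l {D : ℕ} (hs : Squarefree D) (hF : Fm D) {l : ℕ} (hl : l.Prime) (h2 : l ≠ 2)
    (h : ¬ l ∣ D) : Ps D l = jacobiSym (-(D : ℤ)) l := by
  have hodd := hl.odd_of_ne_two h2
  unfold Ps
  have h1 : ∏ q ∈ D.primeFactors, chp q l = jacobiSym l D := by
    rw [jac_D hs]
    refine Finset.prod_congr rfl fun q hq => chp_nd ?_
    intro hd
    apply h
    have hqp := Nat.prime_of_mem_primeFactors hq
    rw [← (Nat.prime_dvd_prime_iff_eq hqp hl).1 hd]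
    exact Nat.dvd_of_mem_primeFactors hq
  rw [h1, jacobiSym.neg _ hodd, chi4_eq, jacobiSym.quadratic_reciprocity_one_mod_four (fm4 hF) hodd]
  rfl

theorem Ps_three {D : ℕ} (hs : Squarefree D) (hF : Fm D) : Ps D 3 = -1 := by
  have h3 := fm3 hF
  rw [Ps_l hs hF Nat.prime_three (by norm_num) (by omega), jacobiSym.mod_left]
  have h : (-(D : ℤ)) % ((3 : ℕ) : ℤ) = 2 := by
    push_cast; omega
  rw [h]
  norm_num

theorem Ps_five {D : ℕ} (hs : Squarefree D) (hF : Fm D) : Ps D 5 = 1 := by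
  have h5 := fm5 hF
  rw [Ps_l hs hF (by norm_num) (by norm_num) (by omega), jacobiSym.mod_left]
  rcases h5 with h5 | h5
  · have h : (-(D : ℤ)) % ((5 : ℕ) : ℤ) = 4 := by
      push_cast; omega
    rw [h]
    norm_num
  · have h : (-(D : ℤ)) % ((5 : ℕ) : ℤ) = 1 := by
      push_cast; omega
    rw [h]
    norm_num

theorem fac_D1 {D p : ℕ} (hs : Squarefree D) (hp : p.Prime) (h : p ∣ D) : D.factorization p = 1 := by
  have h1 := hs.natFactorization_le_one p
  have h2 := (hp.dvd_iff_one_le_factorization hs.ne_zero).1 h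
  omega

theorem chp_DD {D p : ℕ} (hs : Squarefree D) (hp : p.Prime) (h : p ∣ D) :
    chp p D = jacobiSym ((D / p : ℕ) : ℤ) p := by
  unfold chp
  rw [fac_D1 hs hp h, pow_one]

/-- the value of `Ps` at the primes which divide `D` -/
theorem Ps_p {D : ℕ} (hs : Squarefree D) (hF : Fm D) {p : ℕ} (hp : p ∈ D.primeFactors) :
    Ps D p = chp p D := by
  have hpp := Nat.prime_of_mem_primeFactors hp
  have hpD := Nat.dvd_of_mem_primeFactors hp
  have hodd := pf_odd hF hp
  rw [chp_DD hs hpp hpD]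
  obtain ⟨E, hE⟩ := hpD
  have hED : D / p = E := by rw [hE]; exact Nat.mul_div_cancel_left _ hpp.pos
  rw [hED]
  have hcop : Nat.Coprime p E := by
    have h1 := hs
    rw [hE] at h1
    exact Nat.coprime_of_squarefree_mul h1
  have hsE : Squarefree E := by
    have h1 := hs
    rw [hE] at h1
    exact h1.of_mul_right
  have hpE : ¬ p ∣ E := (Nat.Prime.coprime_iff_not_dvd hpp).1 hcop
  have hE0 : E ≠ 0 := hsE.ne_zero
  have hEodd : Odd E := by
    have h1 := fm_odd hF
    rw [hE] at h1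
    exact (Nat.odd_mul.1 h1).2
  have hpf : D.primeFactors = insert p E.primeFactors := by
    rw [hE, Nat.primeFactors_mul hpp.ne_zero hE0, hpp.primeFactors]
    rfl
  have hpn : p ∉ E.primeFactors := fun h => hpE (Nat.dvd_of_mem_primeFactors h)
  unfold Ps
  rw [hpf, Finset.prod_insert hpn, chp_self hpp, one_mul]
  have h1 : ∏ q ∈ E.primeFactors, chp q p = jacobiSym p E := by
    rw [jac_D hsE]
    refine Finset.prod_congr rfl fun q hq => chp_nd ?_
    intro hd
    apply hpE
    rw [← (Nat.prime_dvd_prime_iff_eq (Nat.prime_of_mem_primeFactors hq) hpp).1 hd]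
    exact Nat.dvd_of_mem_primeFactors hq
  rw [h1]
  have h4 := fm4 hF
  rw [hE] at h4
  have hp4 : p % 4 = 1 ∨ p % 4 = 3 := by
    rw [Nat.odd_iff] at hodd; omega
  rcases hp4 with h | h
  · rw [chi4_one_of (by omega), one_mul, jacobiSym.quadratic_reciprocity_one_mod_four h hEodd]
  · have hE4 : E % 4 = 3 := by
      have h5 : (p * E) % 4 = ((p % 4) * (E % 4)) % 4 := Nat.mul_mod p E 4
      have h6 : E % 4 = 0 ∨ E % 4 = 1 ∨ E % 4 = 2 ∨ E % 4 = 3 := by omega
      rcases h6 with h6 | h6 | h6 | h6 <;> rw [h, h6] at h5 <;> omega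
    rw [chi4_three_of (by omega), jacobiSym.quadratic_reciprocity_three_mod_four h hE4]
    ring

/-! ### the local weights at the primes dividing `D` -/

/-- the local weight -/
def wq (S T q i j : ℕ) : ℤ :=
  if q ∣ T then (if i = S.factorization q ∧ j = 0 then chp q S
      else if i = 0 ∧ j = T.factorization q then ZMod.χ₄ q * chp q T else 0)
  else ZMod.χ₄ q * chp q T

theorem dvd_fac {p n : ℕ} (hp : p.Prime) (hn : n ≠ 0) : p ∣ n ↔ 1 ≤ n.factorization p :=
  hp.dvd_iff_one_le_factorization hn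

theorem psp_eq {p S T a a' : ℕ} (hp : p.Prime) (h2 : p ≠ 2) (hS : S ≠ 0) (hT : T ≠ 0) (hd : p ∣ S ↔ p ∣ T)
    (ha : a ∣ S) (ha' : a' ∣ T) :
    psp p a a' (T / a') (S / a) =
      chp p a * chp p a' * wq S T p (a.factorization p) (a'.factorization p) := by
  have hodd := hp.odd_of_ne_two h2
  obtain ⟨Y, rfl⟩ := ha
  obtain ⟨X, rfl⟩ := ha'
  have a0 : a ≠ 0 := left_ne_zero_of_mul hS
  have Y0 : Y ≠ 0 := right_ne_zero_of_mul hS
  have b0 : a' ≠ 0 := left_ne_zero_of_mul hT
  have X0 : X ≠ 0 := right_ne_zero_of_mul hT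
  rw [Nat.mul_div_cancel_left _ (Nat.pos_of_ne_zero a0), Nat.mul_div_cancel_left _ (Nat.pos_of_ne_zero b0)]
  rw [dvd_fac hp hS, dvd_fac hp hT, Nat.factorization_mul a0 Y0, Nat.factorization_mul b0 X0,
    Finsupp.add_apply, Finsupp.add_apply] at hd
  unfold psp wq
  rw [jacobiSym.neg _ hodd, jac_eq hp, jac_eq hp]
  simp only [dvd_fac hp a0, dvd_fac hp X0, dvd_fac hp (mul_ne_zero b0 Y0),
    dvd_fac hp (mul_ne_zero a0 X0), dvd_fac hp hT, Nat.factorization_mul a0 Y0, Nat.factorization_mul b0 X0,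
    Nat.factorization_mul b0 Y0, Nat.factorization_mul a0 X0, Finsupp.add_apply, chp_mul]
  have s1 := chp_sq hp a0
  have s2 := chp_sq hp b0
  generalize a.factorization p = i at *
  generalize Y.factorization p = y at *
  generalize a'.factorization p = j at *
  generalize X.factorization p = x at *
  generalize chp p a = α at *
  generalize chp p a' = α' at *
  generalize chp p Y = υ at *
  generalize chp p X = ξ at *
  generalize (ZMod.χ₄ p : ℤ) = χ at *
  split_ifs
  all_goals first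
    | (exfalso; omega)
    | (linear_combination (-(α' * υ)) * s1)
    | (linear_combination (-(χ * α * ξ)) * s2)
    | ring1

end Pool.Agent.H757_X15.CS5
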