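import Pool.Agent.H757_X15.CS.EvC2a

/-!
# X15-C5 (helper621): evaluation of the divisor sums, part 2: the prime two
-/

set_option autoImplicit false

namespace Pool.Agent.H757_X15.CS5

open Finset
open Pool.Agent.Z700 (fac hh)
open Pool.Agent.Y574.Z7 (sum_local div_split chp chp_mul chp_one chp_self chp_nd chp_sq chp_pm jac_eq jac_prod)
open Pool.Agent.H757_X15.DD (Fm)
open Pool.Agent.H757_X15.BB (chi4 chim2 wt c2 loc kap pf3)
open Pool.Agent.H757_X15.CC (WW TT ps4 psp S_C2)

theorem two_pt (s t i0 j0 i1 j1 : ℕ) (h0 : i0 ≤ s) (h1 : j0 ≤ t) (h2 : i1 ≤ s) (h3 : j1 ≤ t)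
    (hne : i0 ≠ i1 ∨ j0 ≠ j1) (x y : ℤ) (g : ℕ → ℕ → ℤ) :
    ∑ i ∈ range (s + 1), ∑ j ∈ range (t + 1), g i j * (if i = i0 ∧ j = j0 then x
      else if i = i1 ∧ j = j1 then y else 0) = g i0 j0 * x + g i1 j1 * y := by
  have e : ∀ i ∈ range (s + 1), ∀ j ∈ range (t + 1), g i j * (if i = i0 ∧ j = j0 then x
      else if i = i1 ∧ j = j1 then y else 0) =
      (if i = i0 then (if j = j0 then g i0 j0 * x else 0) else 0) +
      (if i = i1 then (if j = j1 then g i1 j1 * y else 0) else 0) := by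
    intro i _ j _
    by_cases a : i = i0
    · by_cases b : j = j0
      · subst a; subst b
        rcases hne with hne | hne
        · simp [hne]
        · simp [hne]
      · subst a
        by_cases c : i = i1
        · subst c
          by_cases d : j = j1
          · subst d; simp [b]
          · simp [b, d]
        · simp [b, c]
    · by_cases c : i = i1
      · subst c
        by_cases d : j = j1
        · subst d; simp [a]
        · simp [a, d]
      · simp [a, c]
  rw [Finset.sum_congr rfl fun i hi => Finset.sum_congr rfl (e i hi)]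
  simp only [Finset.sum_add_distrib]
  have e2 : ∀ (i0 j0 : ℕ) (z : ℤ), i0 ≤ s → j0 ≤ t → ∑ i ∈ range (s + 1),
      ∑ j ∈ range (t + 1), (if i = i0 then (if j = j0 then z else 0) else 0) = z := by
    intro i0 j0 z h0 h1
    rw [Finset.sum_eq_single i0]
    · simp only [if_true]
      rw [Finset.sum_eq_single j0]
      · simp
      · intro j _ hj; simp [hj]
      · intro h; exact absurd (Finset.mem_range.2 (by omega)) h
    · intro i _ hi; simp [hi]
    · intro h; exact absurd (Finset.mem_range.2 (by omega)) h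
  rw [e2 i0 j0 _ h0 h1, e2 i1 j1 _ h2 h3]

/-! ### the weight at two -/

theorem ev2 {i b : ℕ} (hb : Odd b) : Even ((2 ^ i * b : ℕ) : ℤ) ↔ i ≠ 0 := by
  rw [Int.even_coe_nat, Nat.even_mul, Nat.even_pow]
  have : ¬ Even b := Nat.not_even_iff_odd.2 hb
  simp [this]

theorem ps4_val {s t i j b c x y : ℕ} (hb : Odd b) (hc : Odd c) (hx : Odd x) (hy : Odd y) (hi : i ≤ s) (hj : j ≤ t)
    (hs : 1 ≤ s) (ht : 1 ≤ t) :
    ps4 (2 ^ i * b) (2 ^ j * c) (2 ^ (t - j) * x) (2 ^ (s - i) * y) =
      if i = 0 ∧ j = 0 then chi4 b * chi4 c else if i = s ∧ j = t then -(chi4 x * chi4 y) else 0 := by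
  have eb := ev2 (i := i) hb
  have ec := ev2 (i := j) hc
  have ex := ev2 (i := t - j) hx
  have ey := ev2 (i := s - i) hy
  have c1 : ((2 ^ i * b) * (2 ^ j * c)) % 2 = 1 ↔ i = 0 ∧ j = 0 := by
    rw [← Nat.odd_iff, Nat.odd_mul, ← Nat.not_even_iff_odd, ← Nat.not_even_iff_odd]
    rw [Int.even_coe_nat] at eb ec
    rw [eb, ec]
    tauto
  have c2 : ((2 ^ (t - j) * x) * (2 ^ (s - i) * y)) % 2 = 1 ↔ i = s ∧ j = t := by
    rw [← Nat.odd_iff, Nat.odd_mul, ← Nat.not_even_iff_odd, ← Nat.not_even_iff_odd]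
    rw [Int.even_coe_nat] at ex ey
    rw [ex, ey]
    omega
  unfold ps4
  simp only [c1, c2]
  by_cases h1 : i = 0 ∧ j = 0
  · rw [if_pos h1, if_pos h1, h1.1, h1.2]
    push_cast
    rw [chi4_mul, one_mul, one_mul]
  · rw [if_neg h1, if_neg h1]
    by_cases h2 : i = s ∧ j = t
    · rw [if_pos h2, if_pos h2, h2.1, h2.2, chi4_neg]
      push_cast
      rw [chi4_mul, Nat.sub_self, Nat.sub_self, pow_zero, one_mul, one_mul]
    · rw [if_neg h2, if_neg h2]
      apply chi4_even
      rw [Int.even_mul, Int.even_sub, Int.even_add, eb, ec, ex, ey]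
      omega

/-- the common part of the summand -/
def ct (D S T b c : ℕ) : ℤ :=
  if 3 ∣ b then (if 5 ∣ c then chi4 b * chi4 c * ∏ q ∈ D.primeFactors,
    (chp q b * chp q c * wq S T q (b.factorization q) (c.factorization q)) else 0) else 0

/-- the sum over the odd divisors -/
def core (D S T m n : ℕ) : ℤ := ∑ b ∈ m.divisors, ∑ c ∈ n.divisors, ct D S T b c

theorem chp_two_pow {q i : ℕ} (h2 : q.Prime) (hq2 : q ≠ 2) : chp q (2 ^ i) = jacobiSym 2 q ^ i := by
  induction i with
  | zero => rw [pow_zero, pow_zero, chp_one]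
  | succ i ih =>
    rw [pow_succ, chp_mul, ih, pow_succ, chp_nd (fun h => hq2 ((Nat.prime_dvd_prime_iff_eq h2 Nat.prime_two).1 h))]
    rfl

theorem fac_two_pow {q i b : ℕ} (h2 : q.Prime) (hq2 : q ≠ 2) (hb : b ≠ 0) :
    (2 ^ i * b).factorization q = b.factorization q := by
  rw [Nat.factorization_mul (pow_ne_zero _ (by norm_num)) hb, Finsupp.add_apply,
    Nat.prime_two.factorization_pow, Finsupp.single_eq_of_ne hq2, zero_add]

/-- the product over the primes of `D` -/
theorem prod_psp {D S T : ℕ} (hs : Squarefree D) (hF : Fm D) (hS : S ≠ 0) (hT : T ≠ 0) (hST : S + T = 4 * D)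
    {i j b c : ℕ} (hb : 2 ^ i * b ∣ S) (hc : 2 ^ j * c ∣ T) :
    ∏ p ∈ D.primeFactors, psp p (2 ^ i * b) (2 ^ j * c) (T / (2 ^ j * c)) (S / (2 ^ i * b)) =
      jacobiSym 2 D ^ (i + j) * ∏ q ∈ D.primeFactors,
        (chp q b * chp q c * wq S T q (b.factorization q) (c.factorization q)) := by
  have b0 : b ≠ 0 := by
    rintro rfl
    rw [mul_zero, zero_dvd_iff] at hb
    exact hS hb
  have c0 : c ≠ 0 := by
    rintro rfl
    rw [mul_zero, zero_dvd_iff] at hc
    exact hT hc
  rw [jac_D hs, ← Finset.prod_pow, ← Finset.prod_mul_distrib]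
  refine Finset.prod_congr rfl fun q hq => ?_
  have hqp := Nat.prime_of_mem_primeFactors hq
  have hq2 := pf_ne2 hF hq
  have hqD := Nat.dvd_of_mem_primeFactors hq
  have hd : q ∣ S ↔ q ∣ T := by
    have h : q ∣ S + T := hST ▸ hqD.mul_left 4
    exact ⟨fun h1 => (Nat.dvd_add_right h1).1 h, fun h1 => (Nat.dvd_add_left h1).1 h⟩
  rw [psp_eq hqp hq2 hS hT hd hb hc, chp_mul, chp_mul, chp_two_pow hqp hq2, chp_two_pow hqp hq2,
    fac_two_pow hqp hq2 b0, fac_two_pow hqp hq2 c0, pow_add]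
  push_cast
  ring

theorem dvd_two_pow {q i b : ℕ} (hq : q.Prime) (hq2 : q ≠ 2) : q ∣ 2 ^ i * b ↔ q ∣ b := by
  constructor
  · intro h
    rcases (Nat.Prime.dvd_mul hq).1 h with h1 | h1
    · exact absurd ((Nat.prime_dvd_prime_iff_eq hq Nat.prime_two).1 (hq.dvd_of_dvd_pow h1)) hq2
    · exact h1
  · exact fun h => h.mul_left _

/-- the sum over all the divisors and the powers of two -/
theorem WW_sum {D S T s t m n : ℕ} (hS : S = 2 ^ s * m) (hT : T = 2 ^ t * n)
    (hm : Odd m) (hn : Odd n) :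
    WW D S T = ∑ i ∈ range (s + 1), ∑ b ∈ m.divisors, ∑ j ∈ range (t + 1), ∑ c ∈ n.divisors,
      (if 3 ∣ b then (if 5 ∣ c then ps4 (2 ^ i * b) (2 ^ j * c) (T / (2 ^ j * c)) (S / (2 ^ i * b)) *
        ∏ p ∈ D.primeFactors, psp p (2 ^ i * b) (2 ^ j * c) (T / (2 ^ j * c)) (S / (2 ^ i * b))
        else 0) else 0) := by
  have nm : ¬ 2 ∣ m := by rw [← even_iff_two_dvd]; exact Nat.not_even_iff_odd.2 hm
  have nn : ¬ 2 ∣ n := by rw [← even_iff_two_dvd]; exact Nat.not_even_iff_odd.2 hn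
  unfold WW
  rw [Finset.sum_filter]
  have h1 : S.divisors = (2 ^ s * m).divisors := by rw [hS]
  rw [h1, div_split Nat.prime_two s nm]
  refine Finset.sum_congr rfl fun i _ => Finset.sum_congr rfl fun b _ => ?_
  rw [Finset.sum_filter]
  have h2 : T.divisors = (2 ^ t * n).divisors := by rw [hT]
  rw [h2, div_split Nat.prime_two t nn]
  simp only [dvd_two_pow Nat.prime_three (by norm_num : (3 : ℕ) ≠ 2),
    dvd_two_pow (by norm_num : Nat.Prime 5) (by norm_num : (5 : ℕ) ≠ 2)]
  by_cases h3 : 3 ∣ b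
  · simp only [if_pos h3]
  · simp only [if_neg h3, Finset.sum_const_zero]

/-- the odd case -/
theorem WW_odd {D S T : ℕ} (hs : Squarefree D) (hF : Fm D) (hSo : Odd S) (hTo : Odd T) (hST : S + T = 4 * D) :
    WW D S T = core D S T S T := by
  have hS : S ≠ 0 := by rintro rfl; exact absurd hSo (by decide)
  have hT : T ≠ 0 := by rintro rfl; exact absurd hTo (by decide)
  rw [WW_sum (s := 0) (t := 0) (m := S) (n := T) (by simp) (by simp) hSo hTo]
  rw [Finset.sum_range_one]
  unfold core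
  refine Finset.sum_congr rfl fun b hb => ?_
  rw [Finset.sum_range_one]
  refine Finset.sum_congr rfl fun c hc => ?_
  have hb1 := Nat.dvd_of_mem_divisors hb
  have hc1 := Nat.dvd_of_mem_divisors hc
  unfold ct
  by_cases h3 : 3 ∣ b
  · by_cases h5 : 5 ∣ c
    · rw [if_pos h3, if_pos h5, if_pos h3, if_pos h5,
        prod_psp hs hF hS hT hST (by simpa using hb1) (by simpa using hc1)]
      have hbo : Odd b := hSo.of_dvd_nat hb1
      have hco : Odd c := hTo.of_dvd_nat hc1
      have h : ps4 (2 ^ 0 * b) (2 ^ 0 * c) (T / (2 ^ 0 * c)) (S / (2 ^ 0 * b)) = chi4 b * chi4 c := by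
        unfold ps4
        have : (2 ^ 0 * b) * (2 ^ 0 * c) % 2 = 1 := by
          rw [pow_zero, one_mul, one_mul, ← Nat.odd_iff]
          exact hbo.mul hco
        rw [if_pos this]
        push_cast
        rw [chi4_mul, one_mul, one_mul]
      rw [h]
      ring
    · rw [if_pos h3, if_neg h5, if_pos h3, if_neg h5]
  · rw [if_neg h3, if_neg h3]

/-- the even case -/
theorem WW_even {D S T s t m n : ℕ} (hs : Squarefree D) (hF : Fm D) (hS : S = 2 ^ s * m) (hT : T = 2 ^ t * n)
    (hm : Odd m) (hn : Odd n) (hST : S + T = 4 * D) (h1s : 1 ≤ s) (h1t : 1 ≤ t) :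
    WW D S T = (1 - chi4 ((m * n : ℕ) : ℤ) * jacobiSym 2 D ^ (s + t)) * core D S T m n := by
  have m0 : m ≠ 0 := by rintro rfl; exact absurd hm (by decide)
  have n0 : n ≠ 0 := by rintro rfl; exact absurd hn (by decide)
  have hS0 : S ≠ 0 := by rw [hS]; exact mul_ne_zero (pow_ne_zero _ (by norm_num)) m0
  have hT0 : T ≠ 0 := by rw [hT]; exact mul_ne_zero (pow_ne_zero _ (by norm_num)) n0
  rw [WW_sum hS hT hm hn]
  have key : ∀ i ∈ range (s + 1), ∀ b ∈ m.divisors, ∀ j ∈ range (t + 1), ∀ c ∈ n.divisors,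
      (if 3 ∣ b then (if 5 ∣ c then ps4 (2 ^ i * b) (2 ^ j * c) (T / (2 ^ j * c)) (S / (2 ^ i * b)) *
        ∏ p ∈ D.primeFactors, psp p (2 ^ i * b) (2 ^ j * c) (T / (2 ^ j * c)) (S / (2 ^ i * b))
        else 0) else 0) =
      ct D S T b c * (if i = 0 ∧ j = 0 then 1 else if i = s ∧ j = t then
        -(chi4 ((m * n : ℕ) : ℤ) * jacobiSym 2 D ^ (s + t)) else 0) := by
    intro i hi b hb j hj c hc
    have hi' : i ≤ s := by have := mem_range.1 hi; omega
    have hj' : j ≤ t := by have := mem_range.1 hj; omega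
    obtain ⟨y, hy⟩ := Nat.dvd_of_mem_divisors hb
    obtain ⟨x, hx⟩ := Nat.dvd_of_mem_divisors hc
    have b0 : 0 < b := Nat.pos_of_mem_divisors hb
    have c0 : 0 < c := Nat.pos_of_mem_divisors hc
    have hbo : Odd b := hm.of_dvd_nat (Nat.dvd_of_mem_divisors hb)
    have hco : Odd c := hn.of_dvd_nat (Nat.dvd_of_mem_divisors hc)
    have hyo : Odd y := hm.of_dvd_nat ⟨b, by rw [hy]; ring⟩
    have hxo : Odd x := hn.of_dvd_nat ⟨c, by rw [hx]; ring⟩
    have e1 : S = (2 ^ i * b) * (2 ^ (s - i) * y) := by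
      rw [hS, hy, ← Nat.sub_add_cancel hi', pow_add, Nat.add_sub_cancel]
      ring
    have e2 : T = (2 ^ j * c) * (2 ^ (t - j) * x) := by
      rw [hT, hx, ← Nat.sub_add_cancel hj', pow_add, Nat.add_sub_cancel]
      ring
    have p1 : 0 < 2 ^ i * b := by positivity
    have p2 : 0 < 2 ^ j * c := by positivity
    have d1 : S / (2 ^ i * b) = 2 ^ (s - i) * y := by
      rw [e1]; exact Nat.mul_div_cancel_left _ p1
    have d2 : T / (2 ^ j * c) = 2 ^ (t - j) * x := by
      rw [e2]; exact Nat.mul_div_cancel_left _ p2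
    have hp := prod_psp hs hF hS0 hT0 hST (i := i) (j := j) (b := b) (c := c) ⟨_, e1⟩ ⟨_, e2⟩
    rw [hp, d1, d2, ps4_val hbo hco hxo hyo hi' hj' h1s h1t]
    unfold ct
    by_cases h3 : 3 ∣ b
    · by_cases h5 : 5 ∣ c
      · simp only [if_pos h3, if_pos h5]
        by_cases h0 : i = 0 ∧ j = 0
        · simp only [if_pos h0]
          rw [h0.1, h0.2, Nat.add_zero, pow_zero]
          ring
        · simp only [if_neg h0]
          by_cases h1 : i = s ∧ j = t
          · simp only [if_pos h1]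
            rw [h1.1, h1.2]
            have q1 : chi4 (b : ℤ) * chi4 b = 1 := chi4_sq (by exact_mod_cast hbo)
            have q2 : chi4 (c : ℤ) * chi4 c = 1 := chi4_sq (by exact_mod_cast hco)
            have q3 : chi4 ((m * n : ℕ) : ℤ) = chi4 b * chi4 y * (chi4 c * chi4 x) := by
              rw [hx, hy]
              push_cast
              rw [chi4_mul, chi4_mul, chi4_mul]
            rw [q3]
            have q4 : chi4 (b : ℤ) * chi4 c * (chi4 b * chi4 y * (chi4 c * chi4 x)) = chi4 x * chi4 y := by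
              calc chi4 (b : ℤ) * chi4 c * (chi4 b * chi4 y * (chi4 c * chi4 x)) =
                  (chi4 (b : ℤ) * chi4 b) * (chi4 (c : ℤ) * chi4 c) * (chi4 x * chi4 y) := by ring
                _ = _ := by rw [q1, q2]; ring
            rw [← q4]
            ring
          · simp only [if_neg h1]
            ring
      · simp only [if_pos h3, if_neg h5, zero_mul]
    · simp only [if_neg h3, zero_mul]
  rw [Finset.sum_congr rfl fun i hi => Finset.sum_congr rfl fun b hb => Finset.sum_congr rfl fun j hj =>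
    Finset.sum_congr rfl (key i hi b hb j hj)]
  -- exchange the sums
  have e1 : ∑ i ∈ range (s + 1), ∑ b ∈ m.divisors, ∑ j ∈ range (t + 1), ∑ c ∈ n.divisors,
      ct D S T b c * (if i = 0 ∧ j = 0 then 1 else if i = s ∧ j = t then
        -(chi4 ((m * n : ℕ) : ℤ) * jacobiSym 2 D ^ (s + t)) else 0) =
      ∑ b ∈ m.divisors, ∑ c ∈ n.divisors, ∑ i ∈ range (s + 1), ∑ j ∈ range (t + 1),
      ct D S T b c * (if i = 0 ∧ j = 0 then 1 else if i = s ∧ j = t then
        -(chi4 ((m * n : ℕ) : ℤ) * jacobiSym 2 D ^ (s + t)) else 0) := by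
    rw [Finset.sum_comm]
    refine Finset.sum_congr rfl fun b _ => ?_
    have : ∀ i ∈ range (s + 1), ∑ j ∈ range (t + 1), ∑ c ∈ n.divisors,
        ct D S T b c * (if i = 0 ∧ j = 0 then 1 else if i = s ∧ j = t then
          -(chi4 ((m * n : ℕ) : ℤ) * jacobiSym 2 D ^ (s + t)) else 0) =
        ∑ c ∈ n.divisors, ∑ j ∈ range (t + 1), ct D S T b c * (if i = 0 ∧ j = 0 then 1 else if i = s ∧ j = t then
          -(chi4 ((m * n : ℕ) : ℤ) * jacobiSym 2 D ^ (s + t)) else 0) := fun i _ => Finset.sum_comm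
    rw [Finset.sum_congr rfl this, Finset.sum_comm]
  rw [e1]
  unfold core
  rw [Finset.mul_sum]
  refine Finset.sum_congr rfl fun b _ => ?_
  rw [Finset.mul_sum]
  refine Finset.sum_congr rfl fun c _ => ?_
  rw [two_pt s t 0 0 s t (Nat.zero_le _) (Nat.zero_le _) le_rfl le_rfl (Or.inl (by omega)) 1 _
    (fun _ _ => ct D S T b c)]
  ring

end Pool.Agent.H757_X15.CS5
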