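import Pool.Agent.H757_X15.CS.EvC2b

/-!
# X15-C5 (helper621): evaluation of the divisor sums, part 3: the local sums
-/

set_option autoImplicit false

namespace Pool.Agent.H757_X15.CS5

open Finset
open Pool.Agent.Z700 (fac hh)
open Pool.Agent.Y574.Z7 (sum_local div_split chp chp_mul chp_one chp_self chp_nd chp_sq chp_pm jac_eq jac_prod)
open Pool.Agent.H757_X15.DD (Fm)
open Pool.Agent.H757_X15.BB (chi4 chim2 wt c2 loc kap pf3)
open Pool.Agent.H757_X15.CC (WW TT ps4 psp S_C2)

/-! ### elementary sums -/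

theorem alt_sum (s : ℕ) : ∑ i ∈ range (s + 1), (-1 : ℤ) ^ i * (if 1 ≤ i then 1 else 0) =
    if Odd s then -1 else 0 := by
  induction s with
  | zero => simp
  | succ s ih =>
    rw [Finset.sum_range_succ, ih, if_pos (by omega : 1 ≤ s + 1), mul_one]
    rcases Nat.even_or_odd s with h | h
    · rw [if_neg (Nat.not_odd_iff_even.2 h), if_pos h.add_one, pow_succ, h.neg_one_pow]
      ring
    · rw [if_pos h, if_neg (Nat.not_odd_iff_even.2 h.add_one), pow_succ, h.neg_one_pow]
      ring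

theorem one_sum (t : ℕ) : ∑ j ∈ range (t + 1), (if 1 ≤ j then (1 : ℤ) else 0) = t := by
  induction t with
  | zero => simp
  | succ t ih =>
    rw [Finset.sum_range_succ, ih, if_pos (by omega)]
    push_cast
    ring

/-! ### the set up -/

/-- the data: `S = 2^s m`, `T = 2^t n`, `S + T = 4 D`, `3 ∣ S`, `5 ∣ T` -/
structure Dat (D S T s t m n : ℕ) : Prop where
  sq : Squarefree D
  fm : Fm D
  eS : S = 2 ^ s * m
  eT : T = 2 ^ t * n
  om : Odd m
  on : Odd n
  sum : S + T = 4 * D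
  d5 : 5 ∣ T
  d3 : 3 ∣ S

section
variable {D S T s t m n : ℕ} (h : Dat D S T s t m n)
include h

theorem m0 : m ≠ 0 := by rintro rfl; exact absurd h.om (by decide)
theorem n0 : n ≠ 0 := by rintro rfl; exact absurd h.on (by decide)
theorem S0 : S ≠ 0 := by rw [h.eS]; exact mul_ne_zero (pow_ne_zero _ (by norm_num)) (m0 h)
theorem T0 : T ≠ 0 := by rw [h.eT]; exact mul_ne_zero (pow_ne_zero _ (by norm_num)) (n0 h)

theorem facS {l : ℕ} (hl : l.Prime) (h2 : l ≠ 2) : S.factorization l = m.factorization l := by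
  rw [h.eS]; exact fac_two_pow hl h2 (m0 h)

theorem facT {l : ℕ} (hl : l.Prime) (h2 : l ≠ 2) : T.factorization l = n.factorization l := by
  rw [h.eT]; exact fac_two_pow hl h2 (n0 h)

theorem dvdS {l : ℕ} (hl : l.Prime) (h2 : l ≠ 2) : l ∣ S ↔ l ∣ m := by
  rw [h.eS]; exact dvd_two_pow hl h2

theorem dvdT {l : ℕ} (hl : l.Prime) (h2 : l ≠ 2) : l ∣ T ↔ l ∣ n := by
  rw [h.eT]; exact dvd_two_pow hl h2

theorem n3T : ¬ 3 ∣ T := by
  have h1 := h.sum
  have h2 := fm3 h.fm
  have h3 := h.d3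
  omega

theorem n5S : ¬ 5 ∣ S := by
  have h1 := h.sum
  have h2 := fm5 h.fm
  have h3 := h.d5
  omega

theorem dd_iff {q : ℕ} (hq : q ∣ D) : q ∣ S ↔ q ∣ T := by
  have h1 : q ∣ S + T := h.sum ▸ hq.mul_left 4
  exact ⟨fun h2 => (Nat.dvd_add_right h2).1 h1, fun h2 => (Nat.dvd_add_left h2).1 h1⟩

theorem not_both {l : ℕ} (hl : l.Prime) (h2 : l ≠ 2) (hD : ¬ l ∣ D) : ¬ (l ∣ S ∧ l ∣ T) := by
  rintro ⟨h3, h4⟩
  have h5 : l ∣ 4 * D := h.sum ▸ dvd_add h3 h4
  rcases (Nat.Prime.dvd_mul hl).1 h5 with h6 | h6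
  · rw [show 4 = 2 * 2 from rfl] at h6
    rcases (Nat.Prime.dvd_mul hl).1 h6 with h6 | h6
    · exact h2 ((Nat.prime_dvd_prime_iff_eq hl Nat.prime_two).1 h6)
    · exact h2 ((Nat.prime_dvd_prime_iff_eq hl Nat.prime_two).1 h6)
  · exact hD h6

theorem fac_ST {l : ℕ} : (S * T).factorization l = S.factorization l + T.factorization l := by
  rw [Nat.factorization_mul (S0 h) (T0 h), Finsupp.add_apply]

end

/-- the primes -/
def QQ (D m n : ℕ) : Finset ℕ := insert 3 (insert 5 (D.primeFactors ∪ (m * n).primeFactors))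

/-- the local weights -/
def Wl (D S T l i j : ℕ) : ℤ :=
  Ps D l ^ (i + j) * (if l ∈ D.primeFactors then wq S T l i j else 1) *
    (if l = 3 then (if 1 ≤ i then 1 else 0) else 1) * (if l = 5 then (if 1 ≤ j then 1 else 0) else 1)

theorem mem_QQ3 {D m n : ℕ} : 3 ∈ QQ D m n := Finset.mem_insert_self _ _

theorem mem_QQ5 {D m n : ℕ} : 5 ∈ QQ D m n :=
  Finset.mem_insert_of_mem (Finset.mem_insert_self _ _)

theorem sub_QQ {D m n : ℕ} : D.primeFactors ⊆ QQ D m n := fun _ hq =>
  Finset.mem_insert_of_mem (Finset.mem_insert_of_mem (Finset.mem_union_left _ hq))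

theorem pf_QQ {D m n : ℕ} : (m * n).primeFactors ⊆ QQ D m n := fun _ hq =>
  Finset.mem_insert_of_mem (Finset.mem_insert_of_mem (Finset.mem_union_right _ hq))

theorem QQ_prime {D m n : ℕ} : ∀ l ∈ QQ D m n, l.Prime := by
  intro l hl
  unfold QQ at hl
  rcases Finset.mem_insert.1 hl with rfl | hl
  · exact Nat.prime_three
  rcases Finset.mem_insert.1 hl with rfl | hl
  · norm_num
  rcases Finset.mem_union.1 hl with hl | hl
  · exact Nat.prime_of_mem_primeFactors hl
  · exact Nat.prime_of_mem_primeFactors hl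

section
variable {D S T s t m n : ℕ} (h : Dat D S T s t m n)
include h

theorem QQ_ne2 : ∀ l ∈ QQ D m n, l ≠ 2 := by
  intro l hl
  unfold QQ at hl
  rcases Finset.mem_insert.1 hl with rfl | hl
  · norm_num
  rcases Finset.mem_insert.1 hl with rfl | hl
  · norm_num
  rcases Finset.mem_union.1 hl with hl | hl
  · exact pf_ne2 h.fm hl
  · rintro rfl
    have h1 := Nat.dvd_of_mem_primeFactors hl
    rw [← even_iff_two_dvd] at h1
    exact (Nat.not_even_iff_odd.2 (h.om.mul h.on)) h1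

theorem core_eq : core D S T m n = ∏ l ∈ QQ D m n, ∑ i ∈ range (m.factorization l + 1),
      ∑ j ∈ range (n.factorization l + 1), Wl D S T l i j := by
  classical
  have hm := m0 h
  have hn := n0 h
  rw [← sum_local (Wl D S T) (QQ D m n) QQ_prime m n hm hn
    (fun l hl hd => pf_QQ (Nat.mem_primeFactors.2 ⟨hl, hd.mul_right n, mul_ne_zero hm hn⟩))
    (fun l hl hd => pf_QQ (Nat.mem_primeFactors.2 ⟨hl, hd.mul_left m, mul_ne_zero hm hn⟩))]
  unfold core
  refine Finset.sum_congr rfl fun a ha => Finset.sum_congr rfl fun a' ha' => ?_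
  have ha1 := Nat.dvd_of_mem_divisors ha
  have ha1' := Nat.dvd_of_mem_divisors ha'
  have a0 : a ≠ 0 := (Nat.pos_of_mem_divisors ha).ne'
  have b0 : a' ≠ 0 := (Nat.pos_of_mem_divisors ha').ne'
  have hsa : a.primeFactors ⊆ QQ D m n :=
    (Nat.primeFactors_mono (ha1.mul_right n) (mul_ne_zero hm hn)).trans pf_QQ
  have hsb : a'.primeFactors ⊆ QQ D m n :=
    (Nat.primeFactors_mono (ha1'.mul_left m) (mul_ne_zero hm hn)).trans pf_QQ
  unfold Wl
  rw [Finset.prod_mul_distrib, Finset.prod_mul_distrib, Finset.prod_mul_distrib]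
  have e1 : ∏ l ∈ QQ D m n, Ps D l ^ (a.factorization l + a'.factorization l) = Ps D a * Ps D a' := by
    rw [Ps_fac D (QQ D m n) a a0 hsa, Ps_fac D (QQ D m n) a' b0 hsb, ← Finset.prod_mul_distrib]
    exact Finset.prod_congr rfl fun l _ => pow_add _ _ _
  have e2 : ∏ l ∈ QQ D m n, (if l ∈ D.primeFactors then wq S T l (a.factorization l) (a'.factorization l) else 1) =
      ∏ l ∈ D.primeFactors, wq S T l (a.factorization l) (a'.factorization l) := by
    rw [Finset.prod_ite_mem, Finset.inter_eq_right.2 sub_QQ]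
  have e3 : ∏ l ∈ QQ D m n, (if l = 3 then (if 1 ≤ a.factorization l then (1 : ℤ) else 0) else 1) =
      if 3 ∣ a then 1 else 0 := by
    rw [Finset.prod_ite_eq' (QQ D m n) 3 (fun l => if 1 ≤ a.factorization l then (1 : ℤ) else 0),
      if_pos mem_QQ3]
    simp only [dvd_fac Nat.prime_three a0]
  have e4 : ∏ l ∈ QQ D m n, (if l = 5 then (if 1 ≤ a'.factorization l then (1 : ℤ) else 0) else 1) =
      if 5 ∣ a' then 1 else 0 := by
    rw [Finset.prod_ite_eq' (QQ D m n) 5 (fun l => if 1 ≤ a'.factorization l then (1 : ℤ) else 0),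
      if_pos mem_QQ5]
    simp only [dvd_fac (by norm_num : Nat.Prime 5) b0]
  rw [e1, e2, e3, e4]
  unfold ct Ps
  rw [Finset.prod_mul_distrib, Finset.prod_mul_distrib]
  split_ifs
  · ring
  · simp
  · simp
  · simp

/-! ### the local factors -/

omit h in
theorem chi4_nat (p : ℕ) : chi4 (p : ℤ) = ZMod.χ₄ p := by
  rw [chi4_eq]
  push_cast
  rfl

theorem hh_eq {l : ℕ} (hl : l ∈ D.primeFactors) : hh D (S * T) l =
      ZMod.χ₄ l * (chp l D) ^ (S.factorization l + T.factorization l) * (chp l S * chp l T) := by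
  have hp := Nat.prime_of_mem_primeFactors hl
  have hodd := pf_odd h.fm hl
  have hsq : chp l D * chp l D = 1 := chp_sq hp (fm_ne h.fm)
  have hD : jacobiSym ((S * T / l ^ (S * T).factorization l : ℕ) : ℤ) l = chp l S * chp l T := by
    rw [← chp_mul]; rfl
  unfold hh
  rw [jacobiSym.neg _ hodd, jacobiSym.neg _ hodd, Nat.cast_mul, jacobiSym.mul_left, hD,
    ← chp_DD h.sq hp (Nat.dvd_of_mem_primeFactors hl), ← fac_ST h]
  split_ifs with hev
  · obtain ⟨k, hk⟩ := hev
    rw [hk, ← two_mul, pow_mul, sq, hsq, one_pow]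
    ring
  · rw [Nat.not_even_iff_odd] at hev
    obtain ⟨k, hk⟩ := hev
    rw [hk, pow_succ, pow_mul, sq, hsq, one_pow]
    ring

theorem facp_eq {l : ℕ} (hl : l ∈ D.primeFactors) : fac D (S * T) l =
      1 + ZMod.χ₄ l * Ps D l ^ (S.factorization l + T.factorization l) * (chp l S * chp l T) := by
  unfold fac
  rw [if_pos (Nat.dvd_of_mem_primeFactors hl), hh_eq h hl, ← Ps_p h.sq h.fm hl]

theorem facg_eq {l : ℕ} (hp : l.Prime) (h2 : l ≠ 2) (hl : ¬ l ∣ D) : fac D (S * T) l =
      ∑ j ∈ range (S.factorization l + T.factorization l + 1), Ps D l ^ j := by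
  unfold fac
  rw [if_neg hl, fac_ST h, Ps_l h.sq h.fm hp h2 hl]

/-! ### the local sums -/

omit h in
/-- the sum of the local weights -/
def Ls (D S T m n l : ℕ) : ℤ :=
  ∑ i ∈ range (m.factorization l + 1), ∑ j ∈ range (n.factorization l + 1), Wl D S T l i j

theorem Ls_three : Ls D S T m n 3 = if Odd (S.factorization 3) then -1 else 0 := by
  have h2 : (3 : ℕ) ∉ D.primeFactors := fun h3 => pf_ne3 h.fm h3 rfl
  have hT2 : n.factorization 3 = 0 := by
    rw [← facT h Nat.prime_three (by norm_num)]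
    exact Nat.factorization_eq_zero_of_not_dvd (n3T h)
  unfold Ls
  rw [hT2, zero_add, facS h Nat.prime_three (by norm_num), ← alt_sum]
  refine Finset.sum_congr rfl fun i _ => ?_
  rw [Finset.sum_range_one]
  unfold Wl
  rw [if_neg h2, if_pos rfl, if_neg (by norm_num : (3 : ℕ) ≠ 5), Ps_three h.sq h.fm, add_zero]
  ring

theorem Ls_five : Ls D S T m n 5 = (T.factorization 5 : ℤ) := by
  have h2 : (5 : ℕ) ∉ D.primeFactors := fun h3 => pf_ne5 h.fm h3 rfl
  have hS2 : m.factorization 5 = 0 := by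
    rw [← facS h (by norm_num) (by norm_num)]
    exact Nat.factorization_eq_zero_of_not_dvd (n5S h)
  unfold Ls
  rw [hS2, zero_add, Finset.sum_range_one, facT h (by norm_num) (by norm_num), ← one_sum]
  refine Finset.sum_congr rfl fun j _ => ?_
  unfold Wl
  rw [if_neg h2, if_pos rfl, if_neg (by norm_num : (5 : ℕ) ≠ 3), Ps_five h.sq h.fm, one_pow]
  ring

theorem Ls_gen {l : ℕ} (hp : l.Prime) (h2 : l ≠ 2) (h3 : l ≠ 3) (h5 : l ≠ 5) (hl : ¬ l ∣ D) :
    Ls D S T m n l = fac D (S * T) l := by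
  rw [facg_eq h hp h2 hl, facS h hp h2, facT h hp h2]
  have hl' : l ∉ D.primeFactors := fun hh => hl (Nat.dvd_of_mem_primeFactors hh)
  unfold Ls Wl
  simp only [if_neg hl', if_neg h3, if_neg h5, mul_one]
  have h0 : m.factorization l = 0 ∨ n.factorization l = 0 := by
    by_contra hc
    push Not at hc
    have h1 := (dvd_fac hp (m0 h)).2 (by omega)
    have h4 := (dvd_fac hp (n0 h)).2 (by omega)
    exact not_both h hp h2 hl ⟨(dvdS h hp h2).2 h1, (dvdT h hp h2).2 h4⟩
  rcases h0 with h0 | h0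
  · rw [h0, zero_add, Finset.sum_range_one, zero_add]
    exact Finset.sum_congr rfl fun j _ => by rw [zero_add]
  · rw [h0, zero_add, add_zero]
    exact Finset.sum_congr rfl fun i _ => by rw [Finset.sum_range_one, add_zero]

theorem Ls_p {p : ℕ} (hp : p ∈ D.primeFactors) :
    Ls D S T m n p = (Ps D p ^ S.factorization p * chp p S) *
      (if p ∣ T then fac D (S * T) p else 1) := by
  have hd := dd_iff h (Nat.dvd_of_mem_primeFactors hp)
  have hpp := Nat.prime_of_mem_primeFactors hp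
  have h2 := pf_ne2 h.fm hp
  have hodd := pf_odd h.fm hp
  have hx : (ZMod.χ₄ p : ℤ) * ZMod.χ₄ p = 1 := by
    rw [← chi4_nat]
    exact chi4_sq (by exact_mod_cast hodd)
  unfold Ls Wl wq
  rw [← facS h hpp h2, ← facT h hpp h2]
  simp only [if_pos hp, if_neg (pf_ne3 h.fm hp), if_neg (pf_ne5 h.fm hp), mul_one]
  by_cases hT : p ∣ T
  · rw [if_pos hT, facp_eq h hp]
    simp only [if_pos hT]
    have s1 := (dvd_fac hpp (S0 h)).1 (hd.2 hT)
    have t1 := (dvd_fac hpp (T0 h)).1 hT
    rw [two_pt (S.factorization p) (T.factorization p) (S.factorization p) 0 0 (T.factorization p)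
      le_rfl (Nat.zero_le _) (Nat.zero_le _) le_rfl (Or.inl (by omega)) (chp p S) (ZMod.χ₄ p * chp p T)
      (fun i j => Ps D p ^ (i + j))]
    simp only [add_zero, zero_add]
    have c1 := chp_sq hpp (S0 h)
    have c2 : Ps D p ^ S.factorization p * Ps D p ^ S.factorization p = 1 := by
      rw [← mul_pow]
      rcases Ps_pm (D := D) hodd with h | h <;> rw [h] <;> norm_num
    rw [pow_add]
    linear_combination (-(ZMod.χ₄ p * Ps D p ^ T.factorization p * chp p T * (chp p S * chp p S))) * c2 -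
      (ZMod.χ₄ p * Ps D p ^ T.factorization p * chp p T) * c1
  · rw [if_neg hT]
    simp only [if_neg hT]
    rw [Nat.factorization_eq_zero_of_not_dvd hT, Nat.factorization_eq_zero_of_not_dvd (fun h1 => hT (hd.1 h1))]
    simp only [zero_add, Finset.sum_range_one, pow_zero, one_mul, mul_one]
    rw [chp_nd hT, chp_nd (fun h1 => hT (hd.1 h1))]
    have e1 : jacobiSym (S : ℤ) p = jacobiSym (-(T : ℤ)) p := by
      apply jacobiSym.mod_left'
      have h3 : (p : ℤ) ∣ (S : ℤ) - (-(T : ℤ)) := by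
        have h4 : (p : ℤ) ∣ ((4 * D : ℕ) : ℤ) :=
          Int.natCast_dvd_natCast.2 ((Nat.dvd_of_mem_primeFactors hp).mul_left 4)
        rw [← h.sum] at h4
        push_cast at h4
        rwa [sub_neg_eq_add]
      exact (Int.modEq_iff_dvd.2 h3).symm
    rw [e1, jacobiSym.neg _ hodd]

end

end Pool.Agent.H757_X15.CS5
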