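import Pool.Agent.H757_X15.StmC

/-!
# C7: the unfolding (`t_U12`)
-/

set_option autoImplicit false
set_option linter.unusedVariables false

namespace Pool.Agent.H757_X15.CC

open Finset
open Pool.Agent.H757_X15.DD (Fm)
open Pool.Agent.H757_X15.BB (chi4)

open scoped Classical

namespace U12

/-! ### abstract orbit counting -/

section orbit

variable {X G I : Type} [Group G] (ρ : X → G → X) (S R : Set X) (rep : S → R) (k : S → G)
  (e : R → I → G)

theorem orbit_bij (h1 : ∀ x, ρ x 1 = x) (h2 : ∀ x g h, ρ (ρ x g) h = ρ x (g * h))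
    (hRS : R ⊆ S) (hS : ∀ x ∈ S, ∀ g, ρ x g ∈ S)
    (hk : ∀ x : S, ρ x (k x) = rep x)
    (huniq : ∀ (x : S) (y : R), (∃ g, ρ x g = y) → y = rep x)
    (he : ∀ Q, Function.Injective (e Q))
    (he2 : ∀ (Q : R) (g : G), ρ Q g = Q ↔ ∃ i, e Q i = g) :
    Function.Bijective (fun y : S × I => ((rep y.1, k y.1 * e (rep y.1) y.2) : R × G)) := by
  have hinv : ∀ (x : X) (y : X) (g : G), ρ x g = y → ρ y g⁻¹ = x := by
    rintro x _ g rfl
    rw [h2, mul_inv_cancel, h1]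
  constructor
  · rintro ⟨x, i⟩ ⟨y, j⟩ hxy
    simp only [Prod.mk.injEq] at hxy
    obtain ⟨hr, hg⟩ := hxy
    have key : ∀ (x : S) (i : I), ρ (rep x) (k x * e (rep x) i)⁻¹ = x := by
      intro x i
      apply hinv
      rw [← h2, hk]
      exact (he2 _ _).2 ⟨i, rfl⟩
    have hxy : x = y := by
      apply Subtype.ext
      rw [← key x i, ← key y j, hg, hr]
    subst hxy
    have h3 := mul_left_cancel hg
    exact Prod.ext rfl (he _ h3)
  · rintro ⟨Q, g⟩
    have hQS : (Q : X) ∈ S := hRS Q.2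
    let x : S := ⟨ρ Q g⁻¹, hS _ hQS _⟩
    have hx : ρ x g = Q := by
      change ρ (ρ Q g⁻¹) g = Q
      rw [h2, inv_mul_cancel, h1]
    have hrep : Q = rep x := huniq x Q ⟨g, hx⟩
    have hst : ρ (rep x) ((k x)⁻¹ * g) = rep x := by
      rw [← h2, hinv _ _ _ (hk x), hx, ← hrep]
    obtain ⟨i, hi⟩ := (he2 _ _).1 hst
    refine ⟨(x, i), ?_⟩
    simp only [hi, Prod.mk.injEq]
    exact ⟨hrep.symm, by group⟩

end orbit

/-! ### telescoping -/

theorem sum_Ico_tele (a : ℤ → ℤ) (m : ℤ) (n : ℕ) :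
    ∑ i ∈ Finset.Ico m (m + n), (a i - a (i + 1)) = a m - a (m + n) := by
  induction n with
  | zero => simp
  | succ n ih =>
    have : Finset.Ico m (m + ((n + 1 : ℕ) : ℤ)) = insert (m + n) (Finset.Ico m (m + n)) := by
      ext i
      simp only [Finset.mem_Ico, Finset.mem_insert]
      push_cast
      omega
    rw [this, Finset.sum_insert (by simp), ih]
    push_cast
    rw [← add_assoc]
    ring

theorem tele (a : ℤ → ℤ) (p m : ℤ) (N : ℕ) (hp : ∀ n : ℤ, (N : ℤ) ≤ n → a n = p)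
    (hm : ∀ n : ℤ, n ≤ -(N : ℤ) → a n = m) :
    (Function.support fun n => a n - a (n + 1)).Finite ∧ ∑ᶠ n, (a n - a (n + 1)) = m - p := by
  have hs : (Function.support fun n => a n - a (n + 1)) ⊆ (Finset.Ico (-(N : ℤ)) (-(N : ℤ) + ((2 * N : ℕ) : ℤ)) : Finset ℤ) := by
    intro n hn
    rw [Finset.mem_coe, Finset.mem_Ico]
    by_contra hcon
    apply hn
    change a n - a (n + 1) = 0
    by_cases h1 : n < -(N : ℤ)
    · rw [hm n (by omega), hm (n + 1) (by omega), sub_self]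
    · have h2 : (N : ℤ) ≤ n := by push_cast at hcon; omega
      rw [hp n h2, hp (n + 1) (by omega), sub_self]
  refine ⟨(Finset.finite_toSet _).subset hs, ?_⟩
  rw [finsum_eq_sum_of_support_subset _ hs, sum_Ico_tele, hm _ le_rfl, hp _ (by push_cast; omega)]

/-! ### the action -/

/-- `SL₂(ℤ)` -/
abbrev SL := Matrix.SpecialLinearGroup (Fin 2) ℤ

/-- the action of a matrix -/
def ag (q : Fo) (g : SL) : Fo := act q (g 0 0) (g 0 1) (g 1 0) (g 1 1)

theorem det_eq (g : SL) : g 0 0 * g 1 1 - g 0 1 * g 1 0 = 1 := by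
  have := g.det_coe
  rw [Matrix.det_fin_two] at this
  exact this

theorem mul00 (g h : SL) : (g * h) 0 0 = g 0 0 * h 0 0 + g 0 1 * h 1 0 := by
  simp [Matrix.mul_apply, Fin.sum_univ_two]
theorem mul01 (g h : SL) : (g * h) 0 1 = g 0 0 * h 0 1 + g 0 1 * h 1 1 := by
  simp [Matrix.mul_apply, Fin.sum_univ_two]
theorem mul10 (g h : SL) : (g * h) 1 0 = g 1 0 * h 0 0 + g 1 1 * h 1 0 := by
  simp [Matrix.mul_apply, Fin.sum_univ_two]
theorem mul11 (g h : SL) : (g * h) 1 1 = g 1 0 * h 0 1 + g 1 1 * h 1 1 := by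
  simp [Matrix.mul_apply, Fin.sum_univ_two]
theorem inv00 (g : SL) : g⁻¹ 0 0 = g 1 1 := by
  rw [Matrix.SpecialLinearGroup.SL2_inv_expl]; rfl
theorem inv01 (g : SL) : g⁻¹ 0 1 = -g 0 1 := by
  rw [Matrix.SpecialLinearGroup.SL2_inv_expl]; rfl
theorem inv10 (g : SL) : g⁻¹ 1 0 = -g 1 0 := by
  rw [Matrix.SpecialLinearGroup.SL2_inv_expl]; rfl
theorem inv11 (g : SL) : g⁻¹ 1 1 = g 0 0 := by
  rw [Matrix.SpecialLinearGroup.SL2_inv_expl]; rfl
theorem neg_ent (g : SL) (i j : Fin 2) : (-g) i j = -g i j := by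
  simp [Matrix.SpecialLinearGroup.coe_neg]

theorem ext_ent {g h : SL} (h00 : g 0 0 = h 0 0) (h01 : g 0 1 = h 0 1) (h10 : g 1 0 = h 1 0)
    (h11 : g 1 1 = h 1 1) : g = h := by
  ext i j
  fin_cases i <;> fin_cases j <;> assumption

theorem ag_one (q : Fo) : ag q 1 = q := by
  obtain ⟨a, b, c⟩ := q
  simp [ag, act, ev]

theorem ag_mul (q : Fo) (g h : SL) : ag (ag q g) h = ag q (g * h) := by
  obtain ⟨a, b, c⟩ := q
  simp only [ag, act, ev, mul00, mul01, mul10, mul11, Prod.mk.injEq]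
  refine ⟨by ring, by ring, by ring⟩

theorem ag_neg (q : Fo) (g : SL) : ag q (-g) = ag q g := by
  obtain ⟨a, b, c⟩ := q
  simp only [ag, act, ev, neg_ent, Prod.mk.injEq]
  refine ⟨by ring, by ring, by ring⟩

theorem dsc_ag (q : Fo) (g : SL) : dsc (ag q g) = dsc q := by
  obtain ⟨a, b, c⟩ := q
  have h := det_eq g
  have : dsc (ag (a, b, c) g) = (g 0 0 * g 1 1 - g 0 1 * g 1 0) ^ 2 * dsc (a, b, c) := by
    simp only [ag, act, ev, dsc]
    ring
  rw [this, h]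
  ring

/-- `Γ₀(15)` -/
def G15 : Subgroup SL where
  carrier := {g | (15 : ℤ) ∣ g 1 0}
  mul_mem' := by
    intro g h hg hh
    change (15 : ℤ) ∣ (g * h) 1 0
    rw [mul10]
    exact dvd_add (Dvd.dvd.mul_right hg _) (Dvd.dvd.mul_left hh _)
  one_mem' := by
    change (15 : ℤ) ∣ (1 : SL) 1 0
    simp
  inv_mem' := by
    intro g hg
    change (15 : ℤ) ∣ g⁻¹ 1 0
    rw [inv10]
    exact (dvd_neg).2 hg

theorem mem_G15 (g : SL) : g ∈ G15 ↔ (15 : ℤ) ∣ g 1 0 := Iff.rfl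

theorem neg_mem_G15 {g : SL} (hg : g ∈ G15) : -g ∈ G15 := by
  rw [mem_G15, neg_ent]
  exact (dvd_neg).2 hg

/-- the action of `Γ₀(15)` -/
def ρ (q : Fo) (g : G15) : Fo := ag q g

theorem ρ_one (q : Fo) : ρ q 1 = q := ag_one q
theorem ρ_mul (q : Fo) (g h : G15) : ρ (ρ q g) h = ρ q (g * h) := ag_mul q g h

/-- the elements as matrices -/
theorem eqv_iff (Q Q' : Fo) : Eqv 15 Q Q' ↔ ∃ g : G15, ρ Q g = Q' := by
  constructor
  · rintro ⟨a, b, c, d, hdet, hc, rfl⟩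
    refine ⟨⟨⟨!![a, b; c, d], by rw [Matrix.det_fin_two_of]; exact hdet⟩, hc⟩, rfl⟩
  · rintro ⟨g, rfl⟩
    exact ⟨_, _, _, _, det_eq g.1, g.2, rfl⟩

theorem B_ag (q : Fo) (g : SL) (hq : 15 ∣ q.1) (hg : (15 : ℤ) ∣ g 1 0) :
    15 ∣ (ag q g).1 ∧ (30 : ℤ) ∣ (ag q g).2.1 - q.2.1 := by
  obtain ⟨a, b, c⟩ := q
  obtain ⟨a', ha'⟩ := hq
  obtain ⟨c', hc'⟩ := hg
  have hdet := det_eq g
  simp only at ha'
  subst ha'
  simp only [ag, act, ev]
  constructor
  · refine ⟨a' * g 0 0 ^ 2 + b * g 0 0 * c' + c * (c' * g 1 0), ?_⟩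
    rw [hc']
    ring
  · refine ⟨a' * (g 0 0 * g 0 1) + b * g 0 1 * c' + c * c' * g 1 1, ?_⟩
    have : b * (g 0 0 * g 1 1 + g 0 1 * g 1 0) = b * (1 + 2 * (g 0 1 * g 1 0)) := by
      rw [show g 0 0 * g 1 1 = 1 + g 0 1 * g 1 0 by linarith]
      ring
    rw [this, hc']
    ring

theorem Fq_ag {q : Fo} (hq : Fq q) {g : SL} (hg : (15 : ℤ) ∣ g 1 0) : Fq (ag q g) := by
  obtain ⟨h1, h2, h3⟩ := hq
  obtain ⟨h4, h5⟩ := B_ag q g h2 hg
  refine ⟨by rw [dsc_ag, h1], h4, ?_⟩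
  omega

theorem FQ_ag {D : ℕ} {r : ZMod 5} {q : Fo} (hq : q ∈ FQ D r) {g : SL} (hg : (15 : ℤ) ∣ g 1 0) :
    ag q g ∈ FQ D r := by
  obtain ⟨h1, h2, h3, h6⟩ := hq
  obtain ⟨h4, h5⟩ := B_ag q g h2 hg
  refine ⟨by rw [dsc_ag, h1], h4, by omega, ?_⟩
  rw [← h6, ← sub_eq_zero, ← Int.cast_sub, ZMod.intCast_zmod_eq_zero_iff_dvd]
  exact dvd_trans (by norm_num) h5

/-- the stabilizer of a form of discriminant 16 -/
theorem stab16 {q : Fo} (hq : Fq q) (g : SL) (hg : ag q g = q) : g = 1 ∨ g = -1 := by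
  obtain ⟨h1, h2, h3⟩ := hq
  obtain ⟨a, b, c⟩ := q
  have hdet := det_eq g
  simp only [dsc] at h1
  simp only at h3
  have hb : b ≠ 0 := by rintro rfl; simp at h3
  simp only [ag, act, ev, Prod.mk.injEq] at hg
  obtain ⟨e1, e2, e3⟩ := hg
  set α := g 0 0 with hα
  set β := g 0 1 with hβ
  set γ := g 1 0 with hγ
  set δ := g 1 1 with hδ
  -- linear relations
  have l1 : a * (δ - α) = b * γ := by
    have : 2 * (a * (δ - α)) = 2 * (b * γ) := by
      linear_combination (2 * a * α + b * γ) * hdet - 2 * δ * e1 + γ * e2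
    linarith
  have l2 : a * β = -(c * γ) := by
    have : 2 * (a * β) = 2 * (-(c * γ)) := by
      linear_combination δ * e2 - 2 * γ * e3 - (2 * a * β + b * δ) * hdet
    linarith
  have l3 : c * (δ - α) = -(b * β) := by
    have : 2 * (c * (δ - α)) = 2 * (-(b * β)) := by
      linear_combination -β * e2 + 2 * α * e3 - (b * β + 2 * c * δ) * hdet
    linarith
  have hT : b ^ 2 * ((α + δ) ^ 2 - 4) = (4 * (δ - α)) ^ 2 := by
    have h5 : (α + δ) ^ 2 - 4 = (δ - α) ^ 2 + 4 * (β * γ) := by linear_combination 4 * hdet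
    have h6 : b ^ 2 * (4 * (β * γ)) = -(4 * (a * c)) * (δ - α) ^ 2 := by
      have : b ^ 2 * (4 * (β * γ)) = 4 * ((b * β) * (b * γ)) := by ring
      rw [this, ← l1, show b * β = -(c * (δ - α)) by linarith]
      ring
    rw [h5, mul_add, h6]
    linear_combination (δ - α) ^ 2 * h1
  have hdvd : b ∣ 4 * (δ - α) := by
    rw [← Int.pow_dvd_pow_iff (n := 2) (by norm_num), ← hT]
    exact Dvd.intro _ rfl
  obtain ⟨m, hm⟩ := hdvd
  have hTm : (α + δ) ^ 2 - 4 = m ^ 2 := by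
    have : b ^ 2 * ((α + δ) ^ 2 - 4) = b ^ 2 * m ^ 2 := by rw [hT, hm]; ring
    exact mul_left_cancel₀ (pow_ne_zero 2 hb) this
  have hm0 : m = 0 := by
    have h7 : |α + δ| ^ 2 = |m| ^ 2 + 4 := by rw [sq_abs, sq_abs]; linarith
    have h8 := abs_nonneg (α + δ)
    have h9 := abs_nonneg m
    have h10 : |m| = 0 := by
      generalize |α + δ| = x at *
      generalize |m| = y at *
      by_contra hy
      have hy1 : 1 ≤ y := by omega
      have hxy : y < x := by nlinarith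
      have hxy2 : y + 1 ≤ x := hxy
      by_cases hy2 : 2 ≤ y
      · nlinarith
      · have : y = 1 := by omega
        subst this
        have h11 : x < 3 := by nlinarith
        have h12 : 2 < x := by nlinarith
        omega
    exact abs_eq_zero.1 h10
  rw [hm0, mul_zero] at hm
  have hδα : δ = α := by omega
  have hγ0 : γ = 0 := by
    rw [hδα, sub_self, mul_zero] at l1
    rcases mul_eq_zero.1 l1.symm with h | h
    · exact absurd h hb
    · exact h
  have hβ0 : β = 0 := by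
    rw [hδα, sub_self, mul_zero] at l3
    have l3' : b * β = 0 := by linarith
    rcases mul_eq_zero.1 l3' with h | h
    · exact absurd h hb
    · exact h
  rw [hδα, hγ0, mul_zero, sub_zero] at hdet
  rcases Int.mul_eq_one_iff_eq_one_or_neg_one.1 hdet with ⟨h, -⟩ | ⟨h, -⟩
  · left
    apply ext_ent
    · rw [← hα, h]; simp
    · rw [← hβ, hβ0]; simp
    · rw [← hγ, hγ0]; simp
    · rw [← hδ, hδα, h]; simp
  · right
    apply ext_ent
    · rw [← hα, h]; simp [neg_ent]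
    · rw [← hβ, hβ0]; simp [neg_ent]
    · rw [← hγ, hγ0]; simp [neg_ent]
    · rw [← hδ, hδα, h]; simp [neg_ent]

/-! ### the genus character -/

theorem chi4_congr {m n : ℤ} (h : m % 4 = n % 4) : chi4 m = chi4 n := by
  unfold chi4
  rw [h]

theorem odd_val {a b' c x y : ℤ} (h : b' ^ 2 - a * c = 4) (ha : a % 2 = 1)
    (hn : (a * x ^ 2 + 2 * b' * (x * y) + c * y ^ 2) % 2 = 1) :
    (a * x ^ 2 + 2 * b' * (x * y) + c * y ^ 2) % 4 = a % 4 := by
  set n := a * x ^ 2 + 2 * b' * (x * y) + c * y ^ 2 with hn'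
  have h1 : a * n = (a * x + b' * y) ^ 2 - 4 * y ^ 2 := by
    rw [hn']
    linear_combination (-y ^ 2) * h
  have h2 : (a * n) % 2 = 1 := by rw [Int.mul_emod, ha, hn]; rfl
  have h3 : (a * x + b' * y) % 2 = 1 := by
    rcases Int.emod_two_eq_zero_or_one (a * x + b' * y) with h | h
    · exfalso
      obtain ⟨k, hk⟩ := Int.dvd_of_emod_eq_zero h
      rw [h1, hk] at h2
      have : ((2 * k) ^ 2 - 4 * y ^ 2 : ℤ) = 2 * (2 * k ^ 2 - 2 * y ^ 2) := by ring
      omega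
    · exact h
  have h4 : (a * n) % 4 = 1 := by
    obtain ⟨k, hk⟩ : ∃ k, a * x + b' * y = 2 * k + 1 := ⟨(a * x + b' * y) / 2, by omega⟩
    rw [h1, hk]
    have : ((2 * k + 1) ^ 2 - 4 * y ^ 2 : ℤ) = 4 * (k ^ 2 + k - y ^ 2) + 1 := by ring
    omega
  have h5 : a % 4 = 1 ∨ a % 4 = 3 := by omega
  have h6 : n % 4 = 0 ∨ n % 4 = 1 ∨ n % 4 = 2 ∨ n % 4 = 3 := by omega
  rw [Int.mul_emod] at h4
  rcases h5 with h5 | h5 <;> rcases h6 with h6 | h6 | h6 | h6 <;> rw [h5, h6] at h4 <;> omega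

theorem par_val (a b' c x y : ℤ) :
    (a * x ^ 2 + 2 * b' * (x * y) + c * y ^ 2) % 2 = (a * x + c * y) % 2 := by
  obtain ⟨k, hk⟩ := Int.even_mul_pred_self x
  obtain ⟨l, hl⟩ := Int.even_mul_pred_self y
  have : a * x ^ 2 + 2 * b' * (x * y) + c * y ^ 2 =
      (a * x + c * y) + 2 * (a * k + b' * (x * y) + c * l) := by
    linear_combination a * hk + c * hl
  omega

theorem cQ_act {q : Fo} (hq : Fq q) (α β γ δ : ℤ) (hdet : α * δ - β * γ = 1) :
    cQ (act q α β γ δ) = cQ q := by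
  obtain ⟨h1, h2, h3⟩ := hq
  obtain ⟨a, b, c⟩ := q
  simp only [dsc] at h1
  simp only at h3
  obtain ⟨b', rfl⟩ : ∃ b', b = 2 * b' := ⟨b / 2, by omega⟩
  have h4 : b' ^ 2 - a * c = 4 := by
    have : 4 * (b' ^ 2 - a * c) = 4 * 4 := by linear_combination h1
    linarith
  have h4' : b' ^ 2 - c * a = 4 := by linarith
  have e1 : a * α ^ 2 + 2 * b' * (α * γ) + c * γ ^ 2 = c * γ ^ 2 + 2 * b' * (γ * α) + a * α ^ 2 := by
    ring
  have e2 : a * β ^ 2 + 2 * b' * (β * δ) + c * δ ^ 2 = c * δ ^ 2 + 2 * b' * (δ * β) + a * β ^ 2 := by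
    ring
  have p1 := par_val a b' c α γ
  have p2 := par_val a b' c β δ
  have hL : cQ (act (a, 2 * b', c) α β γ δ) =
      if (a * α ^ 2 + 2 * b' * (α * γ) + c * γ ^ 2) % 2 = 1
      then chi4 (a * α ^ 2 + 2 * b' * (α * γ) + c * γ ^ 2)
      else chi4 (a * β ^ 2 + 2 * b' * (β * δ) + c * δ ^ 2) := rfl
  have hR : cQ (a, 2 * b', c) = if a % 2 = 1 then chi4 a else chi4 c := rfl
  rw [hL, hR]
  set n1 := a * α ^ 2 + 2 * b' * (α * γ) + c * γ ^ 2 with hn1
  set n2 := a * β ^ 2 + 2 * b' * (β * δ) + c * δ ^ 2 with hn2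
  by_cases ha : a % 2 = 1
  · rw [if_pos ha]
    by_cases hn : n1 % 2 = 1
    · rw [if_pos hn]
      exact chi4_congr (odd_val h4 ha hn)
    · rw [if_neg hn]
      have hn2' : n2 % 2 = 1 := by
        by_contra hcon
        obtain ⟨k, hk⟩ : (2 : ℤ) ∣ a * α + c * γ := by omega
        obtain ⟨l, hl⟩ : (2 : ℤ) ∣ a * β + c * δ := by omega
        have : a = 2 * (δ * k - γ * l) := by
          linear_combination δ * hk - γ * hl - a * hdet
        omega
      exact chi4_congr (odd_val h4 ha hn2')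
  · rw [if_neg ha]
    by_cases hc : c % 2 = 1
    · by_cases hn : n1 % 2 = 1
      · rw [if_pos hn, e1]
        rw [e1] at hn
        exact chi4_congr (odd_val h4' hc hn)
      · rw [if_neg hn]
        have hn2' : n2 % 2 = 1 := by
          by_contra hcon
          obtain ⟨k, hk⟩ : (2 : ℤ) ∣ a * α + c * γ := by omega
          obtain ⟨l, hl⟩ : (2 : ℤ) ∣ a * β + c * δ := by omega
          have : c = 2 * (α * l - β * k) := by
            linear_combination α * hl - β * hk - c * hdet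
          omega
        rw [e2]
        rw [e2] at hn2'
        exact chi4_congr (odd_val h4' hc hn2')
    · have ha0 : a % 2 = 0 := by omega
      have hc0 : c % 2 = 0 := by omega
      obtain ⟨a', rfl⟩ := Int.dvd_of_emod_eq_zero ha0
      obtain ⟨c', rfl⟩ := Int.dvd_of_emod_eq_zero hc0
      have h5 : n1 % 2 = 0 := by
        rw [p1, show 2 * a' * α + 2 * c' * γ = 2 * (a' * α + c' * γ) by ring]
        omega
      have h6 : n2 % 2 = 0 := by
        rw [p2, show 2 * a' * β + 2 * c' * δ = 2 * (a' * β + c' * δ) by ring]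
        omega
      rw [if_neg (by omega)]
      unfold chi4
      rw [if_neg (by omega), if_neg (by omega), if_neg (by omega), if_neg (by omega)]

theorem cQ_ag {q : Fo} (hq : Fq q) (g : SL) : cQ (ag q g) = cQ q :=
  cQ_act hq _ _ _ _ (det_eq g)

/-! ### real values -/

/-- real values -/
noncomputable def evR (q : Fo) (x y : ℝ) : ℝ := q.1 * x ^ 2 + q.2.1 * (x * y) + q.2.2 * y ^ 2

theorem ev_cast (q : Fo) (x y : ℤ) : ((ev q x y : ℤ) : ℝ) = evR q x y := by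
  simp [ev, evR]

theorem sign_cast (n : ℤ) : ((SignType.sign (n : ℝ) : SignType) : ℤ) = n.sign := by
  rcases lt_trichotomy n 0 with h | rfl | h
  · rw [sign_neg (by exact_mod_cast h), Int.sign_eq_neg_one_of_neg h]; rfl
  · simp
  · rw [sign_pos (by exact_mod_cast h), Int.sign_eq_one_of_pos h]; rfl

theorem evR_ag (q : Fo) (g : SL) (x y : ℝ) :
    evR (ag q g) x y = evR q (g 0 0 * x + g 0 1 * y) (g 1 0 * x + g 1 1 * y) := by
  obtain ⟨a, b, c⟩ := q
  simp only [ag, act, ev, evR]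
  push_cast
  ring

theorem evR_smul (q : Fo) (k x y : ℝ) : evR q (k * x) (k * y) = k ^ 2 * evR q x y := by
  simp only [evR]; ring

/-- the direction of the root -/
theorem sg_rt (q Q : Fo) (hA : Q.1 ≠ 0) (ε : ℝ) (D : ℕ) :
    sg q (rt ε D Q) = ((SignType.sign (evR q (-(Q.2.1 : ℝ) + ε * Real.sqrt D) (2 * Q.1)) :
      SignType) : ℤ) := by
  have hA' : ((Q.1 : ℤ) : ℝ) ≠ 0 := by exact_mod_cast hA
  have h : evR q (-(Q.2.1 : ℝ) + ε * Real.sqrt D) (2 * Q.1) =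
      (2 * Q.1) ^ 2 * ((q.1 : ℝ) * (rt ε D Q) ^ 2 + q.2.1 * (rt ε D Q) + q.2.2) := by
    have : -(Q.2.1 : ℝ) + ε * Real.sqrt D = (2 * Q.1) * rt ε D Q := by
      unfold rt; field_simp
    rw [this]
    simp only [evR]
    ring
  rw [h, sign_mul, sign_pos (by positivity), one_mul]
  rfl

theorem sg_equiv (r Q' : Fo) (g : SL) (D : ℕ) (hD : dsc Q' = D) (hA : (ag Q' g).1 ≠ 0)
    (hA' : Q'.1 ≠ 0) (ε : ℝ) (hε : ε ^ 2 = 1) :
    sg (ag r g) (rt ε D (ag Q' g)) = sg r (rt ε D Q') := by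
  rw [sg_rt _ _ hA, sg_rt _ _ hA', evR_ag]
  obtain ⟨A, B, C⟩ := Q'
  have hdet := det_eq g
  have hdetR : (g 0 0 : ℝ) * g 1 1 - g 0 1 * g 1 0 = 1 := by exact_mod_cast hdet
  have hA2 : (A : ℝ) ≠ 0 := by exact_mod_cast hA'
  have hs : (Real.sqrt D) ^ 2 = (B : ℝ) ^ 2 - 4 * (A * C) := by
    rw [Real.sq_sqrt (Nat.cast_nonneg D)]
    have : ((dsc (A, B, C) : ℤ) : ℝ) = ((D : ℤ) : ℝ) := by rw [hD]
    simp only [dsc] at this
    push_cast at this
    exact this.symm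
  have hsε : (ε * Real.sqrt D) ^ 2 = (B : ℝ) ^ 2 - 4 * (A * C) := by rw [mul_pow, hε, one_mul, hs]
  generalize ε * Real.sqrt D = s at hsε ⊢
  set κ : ℝ := g 0 0 + g 1 0 * (B + s) / (2 * A) with hκ
  have e1 : (g 0 0 : ℝ) * (-((ag (A, B, C) g).2.1 : ℝ) + s) + g 0 1 * (2 * ((ag (A, B, C) g).1 : ℝ)) =
      κ * (-(B : ℝ) + s) := by
    simp only [ag, act, ev]
    push_cast
    rw [hκ]
    field_simp
    generalize ((g 0 0 : ℤ) : ℝ) = a at *
    generalize ((g 0 1 : ℤ) : ℝ) = b at *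
    generalize ((g 1 0 : ℤ) : ℝ) = c at *
    generalize ((g 1 1 : ℤ) : ℝ) = d at *
    linear_combination (-(2 * A) * (B * a + 2 * C * c)) * hdetR - c * hsε
  have e2 : (g 1 0 : ℝ) * (-((ag (A, B, C) g).2.1 : ℝ) + s) + g 1 1 * (2 * ((ag (A, B, C) g).1 : ℝ)) =
      κ * (2 * A) := by
    simp only [ag, act, ev]
    push_cast
    rw [hκ]
    field_simp
    generalize ((g 0 0 : ℤ) : ℝ) = a at *
    generalize ((g 0 1 : ℤ) : ℝ) = b at *
    generalize ((g 1 0 : ℤ) : ℝ) = c at *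
    generalize ((g 1 1 : ℤ) : ℝ) = d at *
    linear_combination (2 * A * a + B * c) * hdetR
  have hκ0 : κ ≠ 0 := by
    intro h0
    rw [h0, zero_mul] at e1 e2
    have : (2 * ((ag (A, B, C) g).1 : ℝ)) = 0 := by
      linear_combination (g 0 0 : ℝ) * e2 - (g 1 0 : ℝ) * e1 - (2 * ((ag (A, B, C) g).1 : ℝ)) * hdetR
    apply hA
    have h3 : ((ag (A, B, C) g).1 : ℝ) = 0 := by linarith
    exact_mod_cast h3
  rw [e1, e2, evR_smul, sign_mul, sign_pos (by positivity), one_mul]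

/-- no rational form has a zero at a quadratic irrationality -/
theorem evR_ne {q : Fo} (hq : Fq q) {D : ℕ} (hD : ¬ IsSquare D) {Q : Fo} (hA : Q.1 ≠ 0) (ε : ℝ)
    (hε : ε = 1 ∨ ε = -1) : evR q (-(Q.2.1 : ℝ) + ε * Real.sqrt D) (2 * Q.1) ≠ 0 := by
  intro h0
  obtain ⟨h1, h2, h3⟩ := hq
  obtain ⟨a, b, c⟩ := q
  obtain ⟨A, B, C⟩ := Q
  simp only [dsc] at h1
  simp only at h3 hA
  have ha : a ≠ 0 := by
    rintro rfl
    have : b ^ 2 = 16 := by linarith
    have h5 : (b - 4) * (b + 4) = 0 := by linear_combination this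
    rcases mul_eq_zero.1 h5 with h | h <;> omega
  have h1R : (b : ℝ) ^ 2 - 4 * (a * c) = 16 := by exact_mod_cast h1
  simp only [evR] at h0
  set s := Real.sqrt D with hs
  have hAR : (A : ℝ) ≠ 0 := by exact_mod_cast hA
  have h4 : (2 * a * (-(B : ℝ) + ε * s) + b * (2 * A)) ^ 2 = (4 * (2 * A)) ^ 2 := by
    linear_combination 4 * (a : ℝ) * h0 + (2 * (A : ℝ)) ^ 2 * h1R
  have hirr : Irrational s := irrational_sqrt_natCast_iff.2 hD
  have hirr2 := (hirr.intCast_mul ha)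
  rcases sq_eq_sq_iff_eq_or_eq_neg.1 h4 with h5 | h5
  · rcases hε with rfl | rfl
    · apply hirr2.ne_int (a * B - b * A + 4 * A)
      push_cast
      linarith
    · apply hirr2.ne_int (-(a * B - b * A + 4 * A))
      push_cast
      linarith
  · rcases hε with rfl | rfl
    · apply hirr2.ne_int (a * B - b * A - 4 * A)
      push_cast
      linarith
    · apply hirr2.ne_int (-(a * B - b * A - 4 * A))
      push_cast
      linarith

/-! ### the sequence of the powers of an automorph -/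

theorem sign_add_of_lt {x y : ℝ} (h : |y| < |x|) : SignType.sign (x + y) = SignType.sign x := by
  rcases lt_trichotomy x 0 with hx | rfl | hx
  · rw [sign_neg hx, sign_neg]
    rw [abs_of_neg hx] at h
    linarith [le_abs_self y]
  · simp at h
    exact absurd h (not_lt.2 (abs_nonneg y))
  · rw [sign_pos hx, sign_pos]
    rw [abs_of_pos hx] at h
    linarith [neg_abs_le y]

theorem ev_sign {L : ℝ} (hL : 1 < L) (P M c : ℝ) (hP : P ≠ 0) : ∃ N : ℕ, ∀ n : ℤ, (N : ℤ) ≤ n →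
    SignType.sign ((L ^ n) ^ 2 * P + ((L⁻¹) ^ n) ^ 2 * M + c) = SignType.sign P := by
  obtain ⟨N, hN⟩ := pow_unbounded_of_one_lt ((|M| + |c|) / |P|) hL
  refine ⟨N, fun n hn => ?_⟩
  have hL0 : 0 < L := by linarith
  have hP0 : 0 < |P| := abs_pos.2 hP
  have h1 : L ^ N ≤ L ^ n := by
    rw [← zpow_natCast]
    exact zpow_le_zpow_right₀ hL.le hn
  have h2 : 1 ≤ L ^ n := one_le_zpow₀ hL.le (by omega)
  have h3 : L ^ n ≤ (L ^ n) ^ 2 := by nlinarith
  have h4 : (L⁻¹) ^ n ≤ 1 := by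
    rw [inv_zpow]
    exact inv_le_one_of_one_le₀ h2
  have h5 : 0 < (L⁻¹) ^ n := by positivity
  have h6 : ((L⁻¹) ^ n) ^ 2 ≤ 1 := by nlinarith
  have h7 : |((L⁻¹) ^ n) ^ 2 * M + c| ≤ |M| + |c| := by
    calc |((L⁻¹) ^ n) ^ 2 * M + c| ≤ |((L⁻¹) ^ n) ^ 2 * M| + |c| := abs_add_le _ _
      _ = ((L⁻¹) ^ n) ^ 2 * |M| + |c| := by rw [abs_mul, abs_of_nonneg (sq_nonneg (L⁻¹ ^ n))]
      _ ≤ 1 * |M| + |c| := by gcongr
      _ = |M| + |c| := by rw [one_mul]
  have h8 : |M| + |c| < |(L ^ n) ^ 2 * P| := by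
    rw [abs_mul, abs_of_nonneg (sq_nonneg (L ^ n))]
    rw [div_lt_iff₀ hP0] at hN
    calc |M| + |c| < L ^ N * |P| := hN
      _ ≤ (L ^ n) ^ 2 * |P| := by
        apply mul_le_mul_of_nonneg_right _ hP0.le
        linarith
  rw [add_assoc, sign_add_of_lt (lt_of_le_of_lt h7 h8), sign_mul, sign_pos (by positivity), one_mul]

section seq

variable {D : ℕ} {t u : ℤ} {Q : Fo} {h : SL}

theorem col (hQ : dsc Q = D) (htu : t ^ 2 - D * u ^ 2 = 4) (h00 : 2 * h 0 0 = t - Q.2.1 * u)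
    (h01 : h 0 1 = -(Q.2.2 * u)) (h10 : h 1 0 = Q.1 * u) (h11 : 2 * h 1 1 = t + Q.2.1 * u)
    (L : ℝ) (hL : L = (t + u * Real.sqrt D) / 2) (n : ℤ) :
    2 * Real.sqrt D * ((h ^ n) 0 0 : ℤ) = L ^ n * (Real.sqrt D - Q.2.1) +
        (L⁻¹) ^ n * (Real.sqrt D + Q.2.1) ∧
      Real.sqrt D * ((h ^ n) 1 0 : ℤ) = Q.1 * (L ^ n - (L⁻¹) ^ n) := by
  obtain ⟨A, B, C⟩ := Q
  simp only [dsc] at hQ
  simp only at h00 h01 h10 h11 ⊢
  have hs : (Real.sqrt D) ^ 2 = D := Real.sq_sqrt (Nat.cast_nonneg D)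
  have hQR : (B : ℝ) ^ 2 - 4 * (A * C) = D := by exact_mod_cast hQ
  have htuR : (t : ℝ) ^ 2 - D * u ^ 2 = 4 := by exact_mod_cast htu
  have r00 : 2 * ((h 0 0 : ℤ) : ℝ) = t - B * u := by exact_mod_cast h00
  have r01 : ((h 0 1 : ℤ) : ℝ) = -(C * u) := by exact_mod_cast h01
  have r10 : ((h 1 0 : ℤ) : ℝ) = A * u := by exact_mod_cast h10
  have r11 : 2 * ((h 1 1 : ℤ) : ℝ) = t + B * u := by exact_mod_cast h11
  set s := Real.sqrt D with hsdef
  have hLM : L * ((t - u * s) / 2) = 1 := by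
    rw [hL]
    linear_combination (1 / 4 : ℝ) * htuR - (1 / 4 : ℝ) * (u : ℝ) ^ 2 * hs
  have hL0 : L ≠ 0 := left_ne_zero_of_mul_eq_one hLM
  have hM : L⁻¹ = (t - u * s) / 2 := inv_eq_of_mul_eq_one_right hLM
  have hM0 : L⁻¹ ≠ 0 := inv_ne_zero hL0
  induction n using Int.induction_on with
  | zero => simp; ring
  | succ n ih =>
    obtain ⟨i1, i2⟩ := ih
    have e : h ^ ((n : ℤ) + 1) = h * h ^ (n : ℤ) := by rw [add_comm, zpow_add, zpow_one]
    rw [e, mul00, mul10, zpow_add_one₀ hL0, zpow_add_one₀ hM0]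
    push_cast
    generalize (((h ^ (n : ℤ)) 0 0 : ℤ) : ℝ) = x at *
    generalize (((h ^ (n : ℤ)) 1 0 : ℤ) : ℝ) = y at *
    generalize L ^ (n : ℤ) = p at *
    generalize L⁻¹ ^ (n : ℤ) = m at *
    generalize ((h 0 0 : ℤ) : ℝ) = g00 at *
    generalize ((h 0 1 : ℤ) : ℝ) = g01 at *
    generalize ((h 1 0 : ℤ) : ℝ) = g10 at *
    generalize ((h 1 1 : ℤ) : ℝ) = g11 at *
    have g00' : g00 = (t - B * u) / 2 := by linarith
    have g11' : g11 = (t + B * u) / 2 := by linarith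
    rw [hM, hL, g00', g11', r01, r10]
    constructor
    · linear_combination ((t - B * u) / 2) * i1 - 2 * C * u * i2 - ((p - m) * u / 2) * hs + ((p - m) * u / 2) * hQR
    · linear_combination (A * u / 2) * i1 + ((t + B * u) / 2) * i2
  | pred n ih =>
    obtain ⟨i1, i2⟩ := ih
    have e : h ^ (-(n : ℤ) - 1) = h⁻¹ * h ^ (-(n : ℤ)) := by
      rw [sub_eq_add_neg, add_comm, zpow_add, zpow_neg_one]
    rw [e, mul00, mul10, inv00, inv01, inv10, inv11, zpow_sub_one₀ hL0, zpow_sub_one₀ hM0, inv_inv]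
    push_cast
    generalize (((h ^ (-(n : ℤ))) 0 0 : ℤ) : ℝ) = x at *
    generalize (((h ^ (-(n : ℤ))) 1 0 : ℤ) : ℝ) = y at *
    generalize L ^ (-(n : ℤ)) = p at *
    generalize L⁻¹ ^ (-(n : ℤ)) = m at *
    generalize ((h 0 0 : ℤ) : ℝ) = g00 at *
    generalize ((h 0 1 : ℤ) : ℝ) = g01 at *
    generalize ((h 1 0 : ℤ) : ℝ) = g10 at *
    generalize ((h 1 1 : ℤ) : ℝ) = g11 at *
    have g00' : g00 = (t - B * u) / 2 := by linarith
    have g11' : g11 = (t + B * u) / 2 := by linarith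
    rw [hM, hL, g00', g11', r01, r10]
    constructor
    · linear_combination ((t + B * u) / 2) * i1 + 2 * C * u * i2 + ((p - m) * u / 2) * hs - ((p - m) * u / 2) * hQR
    · linear_combination (-A * u / 2) * i1 + ((t - B * u) / 2) * i2

theorem seq_tele (hQ : dsc Q = D) (hD : ¬ IsSquare D) (hA : Q.1 ≠ 0) (ht : 0 < t) (hu : 0 < u)
    (htu : t ^ 2 - D * u ^ 2 = 4) (h00 : 2 * h 0 0 = t - Q.2.1 * u)
    (h01 : h 0 1 = -(Q.2.2 * u)) (h10 : h 1 0 = Q.1 * u) (h11 : 2 * h 1 1 = t + Q.2.1 * u)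
    {q : Fo} (hq : Fq q) (a : ℤ → ℤ) (ha : ∀ n, a n = ((ag q (h ^ n)).1).sign) :
    (Function.support fun n => a n - a (n + 1)).Finite ∧
      ∑ᶠ n, (a n - a (n + 1)) = sg q (rt (-1) D Q) - sg q (rt 1 D Q) := by
  have hP := evR_ne hq hD hA 1 (Or.inl rfl)
  have hM := evR_ne hq hD hA (-1) (Or.inr rfl)
  rw [sg_rt q Q hA, sg_rt q Q hA]
  have hD1 : (1 : ℝ) ≤ D := by
    have : D ≠ 0 := by rintro rfl; exact hD ⟨0, rfl⟩
    exact_mod_cast Nat.one_le_iff_ne_zero.2 this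
  have hs1 : 1 ≤ Real.sqrt D := Real.one_le_sqrt.2 hD1
  set L : ℝ := (t + u * Real.sqrt D) / 2 with hL
  have hL1 : 1 < L := by
    have htu' : (t : ℝ) ^ 2 = D * u ^ 2 + 4 := by
      have : (t : ℝ) ^ 2 - D * u ^ 2 = 4 := by exact_mod_cast htu
      linarith
    have htR : (0 : ℝ) < t := by exact_mod_cast ht
    have huR : (1 : ℝ) ≤ u := by exact_mod_cast hu
    have h1 : (2 : ℝ) < t := by nlinarith
    have h2 : 0 < (u : ℝ) * Real.sqrt D := by positivity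
    rw [hL]
    linarith
  have hcol := col hQ htu h00 h01 h10 h11 L hL
  set P := evR q (-(Q.2.1 : ℝ) + 1 * Real.sqrt D) (2 * Q.1) with hPdef
  set M := evR q (-(Q.2.1 : ℝ) + (-1) * Real.sqrt D) (2 * Q.1) with hMdef
  set c : ℝ := 2 * q.1 * ((Real.sqrt D - Q.2.1) * (Real.sqrt D + Q.2.1)) +
    q.2.1 * ((Real.sqrt D - Q.2.1) * (-(2 * Q.1)) + (Real.sqrt D + Q.2.1) * (2 * Q.1)) +
    2 * q.2.2 * ((2 * Q.1) * (-(2 * Q.1))) with hc
  have hL0 : L ≠ 0 := by positivity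
  have hval : ∀ n : ℤ, (2 * Real.sqrt D) ^ 2 * (((ag q (h ^ n)).1 : ℤ) : ℝ) =
      (L ^ n) ^ 2 * P + ((L⁻¹) ^ n) ^ 2 * M + c := by
    intro n
    obtain ⟨c1, c2⟩ := hcol n
    have h1 : (((ag q (h ^ n)).1 : ℤ) : ℝ) = evR q ((h ^ n) 0 0 : ℤ) ((h ^ n) 1 0 : ℤ) := by
      rw [← ev_cast]; rfl
    rw [h1, ← evR_smul]
    have c2' : 2 * Real.sqrt D * ((h ^ n) 1 0 : ℤ) = 2 * Q.1 * (L ^ n - (L⁻¹) ^ n) := by
      linear_combination 2 * c2
    have hpm : L ^ n * (L⁻¹) ^ n = 1 := by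
      rw [inv_zpow, mul_inv_cancel₀ (zpow_ne_zero n hL0)]
    rw [c1, c2', hPdef, hMdef, hc]
    simp only [evR]
    generalize L ^ n = p at *
    generalize L⁻¹ ^ n = m at *
    linear_combination (2 * q.1 * ((Real.sqrt D - Q.2.1) * (Real.sqrt D + Q.2.1)) +
    q.2.1 * ((Real.sqrt D - Q.2.1) * (-(2 * Q.1)) + (Real.sqrt D + Q.2.1) * (2 * Q.1)) +
    2 * q.2.2 * ((2 * Q.1) * (-(2 * Q.1)))) * hpm
  have hsign : ∀ n : ℤ, a n = ((SignType.sign ((L ^ n) ^ 2 * P + ((L⁻¹) ^ n) ^ 2 * M + c) :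
      SignType) : ℤ) := by
    intro n
    have hpos : SignType.sign ((2 * Real.sqrt D) ^ 2 : ℝ) = 1 := sign_pos (by positivity)
    rw [ha n, ← sign_cast, ← hval n, sign_mul, hpos, one_mul]
  obtain ⟨N1, hN1⟩ := ev_sign hL1 P M c hP
  obtain ⟨N2, hN2⟩ := ev_sign hL1 M P c hM
  apply tele a _ _ (max N1 N2)
  · intro n hn
    rw [hsign n, hN1 n (by push_cast at hn; omega)]
  · intro n hn
    rw [hsign n]
    have := hN2 (-n) (by push_cast at hn; omega)
    rw [zpow_neg, zpow_neg, ← inv_zpow, ← inv_zpow, inv_inv] at this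
    rw [← this]
    congr 2
    ring

end seq

/-! ### representatives -/

theorem rep_exists {S : Set Fo} {R : Finset Fo} (h : IsRep 15 S R) :
    ∃ (rep : S → (R : Set Fo)) (k : S → G15), (∀ x : S, ρ x (k x) = rep x) ∧
      (∀ (x : S) (y : (R : Set Fo)), (∃ g, ρ x g = y) → y = rep x) := by
  obtain ⟨h1, h2⟩ := h
  have h3 : ∀ x : S, ∃ y : (R : Set Fo), ∃ g : G15, ρ x g = y := by
    intro x
    obtain ⟨Q', ⟨hR, hE⟩, -⟩ := h2 x x.2
    exact ⟨⟨Q', hR⟩, (eqv_iff _ _).1 hE⟩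
  choose rep k hk using h3
  refine ⟨rep, k, hk, fun x y hy => ?_⟩
  obtain ⟨Q', -, huniq⟩ := h2 x x.2
  apply Subtype.ext
  rw [huniq y ⟨y.2, (eqv_iff _ _).2 hy⟩, huniq (rep x) ⟨(rep x).2, (eqv_iff _ _).2 ⟨_, hk x⟩⟩]

/-- minus one -/
def mone : G15 := ⟨-1, neg_mem_G15 G15.one_mem⟩

/-- the sign -/
def eps (s : Bool) : G15 := if s then 1 else mone

theorem ρ_eps (q : Fo) (s : Bool) (g h : G15) : ρ q (g * eps s * h) = ρ q (g * h) := by
  cases s with
  | true => simp [eps]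
  | false =>
    have : (((g * eps false * h : G15) : SL)) = -((g * h : G15) : SL) := by
      simp [eps, mone]
    change ag q ((g * eps false * h : G15) : SL) = ag q ((g * h : G15) : SL)
    rw [this, ag_neg]

theorem ρ_eps' (q : Fo) (s : Bool) (g : G15) : ρ q (g * eps s) = ρ q g := by
  have := ρ_eps q s g 1
  rwa [mul_one, mul_one] at this

theorem ρ_eps'' (q : Fo) (s : Bool) (g : G15) : ρ q (eps s * g) = ρ q g := by
  have := ρ_eps q s 1 g
  rwa [one_mul, one_mul] at this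

theorem eps_inv (s : Bool) : (eps s)⁻¹ = eps s := by
  cases s with
  | true => simp [eps]
  | false =>
    apply inv_eq_of_mul_eq_one_right
    apply Subtype.ext
    change (-1 : SL) * (-1) = 1
    simp

theorem eps_inj : Function.Injective eps := by
  intro s s' h
  cases s <;> cases s' <;> first | rfl | skip
  all_goals
    exfalso
    have h2 := congrArg (fun g : G15 => (g : SL) 0 0) h
    simp [eps, mone, neg_ent] at h2
    try omega

theorem sign_first (q : Fo) : (ev q 1 0).sign = q.1.sign := by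
  simp [ev]

/-- the signs of the first coefficients -/
def σ (q : Fo) : ℤ := q.1.sign

theorem fin_supp_prod {α : Type} {φ : α → ℤ} (h : (Function.support φ).Finite) :
    Function.HasFiniteSupport (fun y : α × Bool => φ y.1) := by
  apply Set.Finite.subset (h.prod (Set.finite_univ (α := Bool)))
  intro y hy
  exact ⟨hy, trivial⟩

theorem finsum_two {α : Type} {φ : α → ℤ} (h : (Function.support φ).Finite) :
    ∑ᶠ y : α × Bool, φ y.1 = 2 * ∑ᶠ x, φ x := by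
  rw [finsum_curry _ (fin_supp_prod h), mul_finsum' _ _ h]
  apply finsum_congr
  intro x
  rw [finsum_eq_sum_of_fintype]
  simp

/-- Step 1. -/
theorem step1 (hNC : S_NC) {RF : Finset Fo} (hRF : IsRep 15 {q | Fq q} RF) (h : G15) :
    (∀ q ∈ RF, (Function.support fun g : G15 => σ (ρ q g) - σ (ρ q (g * h))).Finite) ∧
    2 * NC 1 0 ((h : SL) 0 0) ((h : SL) 1 0) =
      ∑ q ∈ RF, cQ q * ∑ᶠ g : G15, (σ (ρ q g) - σ (ρ q (g * h))) := by
  obtain ⟨rep, k, hk, huniq⟩ := rep_exists hRF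
  have hfinN : {q : Fo | Fq q ∧ σ q ≠ σ (ρ q h)}.Finite := by
    have := hNC.2.1 1 0 ((h : SL) 0 0) ((h : SL) 1 0) ⟨isCoprime_one_left, Or.inl (dvd_zero _)⟩
      ⟨⟨(h : SL) 1 1, -((h : SL) 0 1), by have := det_eq h; linarith⟩, Or.inl h.2⟩
    refine this.subset ?_
    rintro q ⟨hq1, hq2⟩
    refine ⟨hq1, ?_⟩
    rw [sign_first]
    exact hq2
  have hb := orbit_bij ρ {q | Fq q} (RF : Set Fo) rep k (fun _ s => eps s) ρ_one ρ_mul
    hRF.1 (fun x hx g => Fq_ag hx g.2) hk huniq (fun _ => eps_inj) (by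
      intro Q g
      constructor
      · intro hg
        rcases stab16 (hRF.1 Q Q.2) g hg with h | h
        · exact ⟨true, Subtype.ext h.symm⟩
        · exact ⟨false, Subtype.ext h.symm⟩
      · rintro ⟨s, rfl⟩
        have := ρ_eps' Q s 1
        rwa [one_mul, ρ_one] at this)
  -- the function on pairs
  have hval : ∀ y : {q | Fq q} × Bool,
      ρ (rep y.1) (k y.1 * eps y.2)⁻¹ = y.1 := by
    intro y
    rw [mul_inv_rev, eps_inv, ρ_eps'', ← hk y.1, ρ_mul, mul_inv_cancel, ρ_one]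
  have hval2 : ∀ y : {q | Fq q} × Bool,
      ρ (rep y.1) ((k y.1 * eps y.2)⁻¹ * h) = ρ y.1 h := by
    intro y
    rw [← ρ_mul, hval]
  have hψ : (Function.support fun x : ↥(RF : Set Fo) × ↥G15 =>
      σ (ρ x.1 x.2⁻¹) - σ (ρ x.1 (x.2⁻¹ * h))).Finite := by
    have hfinS : (Function.support fun q : {q | Fq q} => σ (q : Fo) - σ (ρ q h)).Finite := by
      apply Set.Finite.of_finite_image (f := Subtype.val) _ Subtype.val_injective.injOn
      apply hfinN.subset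
      rintro _ ⟨q, hq, rfl⟩
      exact ⟨q.2, fun hcon => hq (by change σ (q : Fo) - σ (ρ q h) = 0; rw [hcon, sub_self])⟩
    have h1 := fin_supp_prod hfinS
    have h2 := h1.image (fun y : {q | Fq q} × Bool => ((rep y.1, k y.1 * eps y.2) :
      ↥(RF : Set Fo) × ↥G15))
    apply h2.subset
    intro x hx
    obtain ⟨y, hy⟩ := hb.2 x
    refine ⟨y, ?_, hy⟩
    simp only at hy
    rw [Function.mem_support] at hx ⊢
    rw [← hy] at hx
    simp only at hx
    rw [hval, hval2] at hx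
    exact hx
  have hfin : ∀ q ∈ RF, (Function.support fun g : G15 => σ (ρ q g) - σ (ρ q (g * h))).Finite := by
    intro q hq
    have hinj : Function.Injective (fun g : G15 => ((⟨q, hq⟩, g⁻¹) : ↥(RF : Set Fo) × ↥G15)) := by
      intro g g' hgg
      simpa using hgg
    apply Set.Finite.of_finite_image (f := fun g : G15 => ((⟨q, hq⟩, g⁻¹) : ↥(RF : Set Fo) × ↥G15)) _
      hinj.injOn
    apply hψ.subset
    rintro _ ⟨g, hg, rfl⟩
    rw [Function.mem_support] at hg ⊢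
    simpa using hg
  refine ⟨hfin, ?_⟩
  -- NC as a sum over the subtype
  have hNCs : NC 1 0 ((h : SL) 0 0) ((h : SL) 1 0) =
      ∑ᶠ q : {q | Fq q}, cQ q * (σ (q : Fo) - σ (ρ q h)) := by
    rw [finsum_set_coe_eq_finsum_mem {q | Fq q} (f := fun q : Fo => cQ q * (σ q - σ (ρ q h)))]
    unfold NC
    apply finsum_congr
    intro q
    rw [finsum_eq_if]
    rw [sign_first]
    rfl
  have hfinS : (Function.support fun q : {q | Fq q} => cQ q * (σ (q : Fo) - σ (ρ q h))).Finite := by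
    apply Set.Finite.of_finite_image (f := Subtype.val) _ Subtype.val_injective.injOn
    apply hfinN.subset
    rintro _ ⟨q, hq, rfl⟩
    refine ⟨q.2, fun hcon => hq ?_⟩
    change cQ q * (σ (q : Fo) - σ (ρ q h)) = 0
    rw [hcon, sub_self, mul_zero]
  rw [hNCs, ← finsum_two hfinS]
  have e1 : ∑ᶠ y : {q | Fq q} × Bool, cQ y.1 * (σ (y.1 : Fo) - σ (ρ y.1 h)) =
      ∑ᶠ x : ↥(RF : Set Fo) × ↥G15, cQ x.1 * (σ (ρ x.1 x.2⁻¹) - σ (ρ x.1 (x.2⁻¹ * h))) := by
    apply finsum_eq_of_bijective _ hb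
    intro y
    simp only
    rw [hval, hval2]
    congr 1
    have : cQ (rep y.1) = cQ (ρ y.1 (k y.1)) := by rw [hk]
    rw [this]
    exact (cQ_ag y.1.2 _).symm
  have hfinX : Function.HasFiniteSupport fun x : ↥(RF : Set Fo) × ↥G15 =>
      cQ x.1 * (σ (ρ x.1 x.2⁻¹) - σ (ρ x.1 (x.2⁻¹ * h))) := by
    apply hψ.subset
    intro x hx
    rw [Function.mem_support] at hx ⊢
    exact right_ne_zero_of_mul hx
  rw [e1, finsum_curry _ hfinX, finsum_set_coe_eq_finsum_mem (RF : Set Fo)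
    (f := fun q : Fo => ∑ᶠ g : G15, cQ q * (σ (ρ q g⁻¹) - σ (ρ q (g⁻¹ * h)))),
    finsum_mem_coe_finset]
  apply Finset.sum_congr rfl
  intro q hq
  rw [mul_finsum' _ _ (hfin q hq)]
  exact finsum_comp_equiv (Equiv.inv G15) (f := fun g => cQ q * (σ (ρ q g) - σ (ρ q (g * h))))

theorem ρ_pow {Q : Fo} {h : G15} (hQ : ρ Q h = Q) (n : ℤ) : ρ Q (h ^ n) = Q := by
  have hinv : ρ Q h⁻¹ = Q := by
    conv_lhs => rw [← hQ]
    rw [ρ_mul, mul_inv_cancel, ρ_one]
  induction n using Int.induction_on with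
  | zero => simp [ρ_one]
  | succ n ih =>
    rw [add_comm, zpow_add, zpow_one, ← ρ_mul, hQ, ih]
  | pred n ih =>
    rw [sub_eq_add_neg, add_comm, zpow_add, zpow_neg_one, ← ρ_mul, hinv, ih]

/-- the elements of the stabilizer -/
def est (h : G15) (i : Bool × ℤ) : G15 := eps i.1 * h ^ i.2

theorem est_inj {D : ℕ} {t u : ℤ} {Q : Fo} {h : G15} (hQ : dsc Q = D) (hD : ¬ IsSquare D)
    (hA : Q.1 ≠ 0) (ht : 0 < t) (hu : 0 < u)
    (htu : t ^ 2 - D * u ^ 2 = 4) (h00 : 2 * (h : SL) 0 0 = t - Q.2.1 * u)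
    (h01 : (h : SL) 0 1 = -(Q.2.2 * u)) (h10 : (h : SL) 1 0 = Q.1 * u)
    (h11 : 2 * (h : SL) 1 1 = t + Q.2.1 * u) : Function.Injective (est h) := by
  have hD1 : (1 : ℝ) ≤ D := by
    have : D ≠ 0 := by rintro rfl; exact hD ⟨0, rfl⟩
    exact_mod_cast Nat.one_le_iff_ne_zero.2 this
  have hs1 : 1 ≤ Real.sqrt D := Real.one_le_sqrt.2 hD1
  set L : ℝ := (t + u * Real.sqrt D) / 2 with hL
  have hL1 : 1 < L := by
    have htu' : (t : ℝ) ^ 2 = D * u ^ 2 + 4 := by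
      have : (t : ℝ) ^ 2 - D * u ^ 2 = 4 := by exact_mod_cast htu
      linarith
    have htR : (0 : ℝ) < t := by exact_mod_cast ht
    have huR : (1 : ℝ) ≤ u := by exact_mod_cast hu
    have h1 : (2 : ℝ) < t := by nlinarith
    have h2 : 0 < (u : ℝ) * Real.sqrt D := by positivity
    rw [hL]
    linarith
  have hcol := col hQ htu h00 h01 h10 h11 L hL
  have hs0 : Real.sqrt D ≠ 0 := by positivity
  -- the sum and the difference
  have hX : ∀ n : ℤ, ∃ x y : ℤ, ((h : SL) ^ n) 0 0 = x ∧ ((h : SL) ^ n) 1 0 = y ∧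
      2 * Real.sqrt D * x + 2 * (Q.2.1 / Q.1 : ℝ) * (Real.sqrt D * y) / 2 =
        Real.sqrt D * (L ^ n + (L⁻¹) ^ n) ∧
      Real.sqrt D * y = Q.1 * (L ^ n - (L⁻¹) ^ n) := by
    intro n
    obtain ⟨c1, c2⟩ := hcol n
    refine ⟨_, _, rfl, rfl, ?_, c2⟩
    have hAR : (Q.1 : ℝ) ≠ 0 := by exact_mod_cast hA
    rw [c1, c2]
    field_simp
    ring
  have hAR : (Q.1 : ℝ) ≠ 0 := by exact_mod_cast hA
  have hpos : ∀ n : ℤ, 0 < L ^ n + (L⁻¹) ^ n := fun n => by positivity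
  have key : ∀ n m : ℤ, ∀ e : ℤ, (e = 1 ∨ e = -1) →
      ((h : SL) ^ n) 0 0 = e * ((h : SL) ^ m) 0 0 →
      ((h : SL) ^ n) 1 0 = e * ((h : SL) ^ m) 1 0 → e = 1 ∧ n = m := by
    intro n m e he e1 e2
    obtain ⟨x, y, hx, hy, p1, p2⟩ := hX n
    obtain ⟨x', y', hx', hy', p1', p2'⟩ := hX m
    rw [hx, hx'] at e1
    rw [hy, hy'] at e2
    have e1R : (x : ℝ) = e * x' := by exact_mod_cast e1
    have e2R : (y : ℝ) = e * y' := by exact_mod_cast e2
    have q1 : L ^ n + (L⁻¹) ^ n = e * (L ^ m + (L⁻¹) ^ m) := by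
      apply mul_left_cancel₀ hs0
      rw [← p1, e1R, e2R]
      linear_combination (e : ℝ) * p1'
    have q2 : L ^ n - (L⁻¹) ^ n = e * (L ^ m - (L⁻¹) ^ m) := by
      apply mul_left_cancel₀ hAR
      rw [← p2, e2R]
      linear_combination (e : ℝ) * p2'
    have he1 : e = 1 := by
      rcases he with rfl | rfl
      · rfl
      · exfalso
        have h1 := hpos n
        have h2 := hpos m
        push_cast at q1
        linarith
    refine ⟨he1, ?_⟩
    subst he1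
    push_cast at q1 q2
    have q3 : L ^ n = L ^ m := by linarith
    exact zpow_right_injective₀ (by linarith) (by linarith) q3
  rintro ⟨s, n⟩ ⟨s', m⟩ heq
  have hent : ∀ (s : Bool) (n : ℤ), ∃ e : ℤ, (e = 1 ∨ e = -1) ∧ (e = 1 ↔ s = true) ∧
      ∀ i j, ((est h (s, n) : G15) : SL) i j = e * ((h : SL) ^ n) i j := by
    intro s n
    cases s with
    | true => exact ⟨1, Or.inl rfl, by simp, by intro i j; simp [est, eps]⟩
    | false => exact ⟨-1, Or.inr rfl, by simp, by intro i j; simp [est, eps, mone]⟩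
  obtain ⟨e, he, hes, hee⟩ := hent s n
  obtain ⟨e', he', hes', hee'⟩ := hent s' m
  have f : ∀ i j, e * ((h : SL) ^ n) i j = e' * ((h : SL) ^ m) i j := by
    intro i j
    rw [← hee, ← hee', heq]
  have he2 : e * e = 1 := by rcases he with rfl | rfl <;> norm_num
  have g : ∀ i j, ((h : SL) ^ n) i j = (e * e') * ((h : SL) ^ m) i j := by
    intro i j
    calc ((h : SL) ^ n) i j = e * (e * ((h : SL) ^ n) i j) := by rw [← mul_assoc, he2, one_mul]
      _ = (e * e') * ((h : SL) ^ m) i j := by rw [f]; ring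
  obtain ⟨k1, k2⟩ := key n m (e * e')
    (by rcases he with rfl | rfl <;> rcases he' with rfl | rfl <;> simp) (g 0 0) (g 1 0)
  have k3 : e = e' := by
    rcases he with rfl | rfl <;> rcases he' with rfl | rfl <;> first | rfl | (exfalso; norm_num at k1)
  have k4 : s = s' := by
    rw [k3] at hes
    have : (s = true ↔ s' = true) := hes.symm.trans hes'
    exact Bool.eq_iff_iff.2 this
  rw [k2, k4]

theorem ρ_est {Q : Fo} {h : G15} (hQ : ρ Q h = Q) (i : Bool × ℤ) : ρ Q (est h i) = Q := by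
  unfold est
  rw [ρ_eps'', ρ_pow hQ]

/-- Step 2. -/
theorem step2 {D : ℕ} {r : ZMod 5} {t u : ℤ} {R : Finset Fo} (hR : IsRep 15 (FQ D r) R)
    (hD : ¬ IsSquare D) (ht : 0 < t) (hu : 0 < u) (htu : t ^ 2 - D * u ^ 2 = 4)
    (hh : Fo → G15)
    (hent : ∀ Q ∈ FQ D r, 2 * (hh Q : SL) 0 0 = t - Q.2.1 * u ∧ (hh Q : SL) 0 1 = -(Q.2.2 * u) ∧
      (hh Q : SL) 1 0 = Q.1 * u ∧ 2 * (hh Q : SL) 1 1 = t + Q.2.1 * u)
    (hst : ∀ Q ∈ FQ D r, ρ Q (hh Q) = Q)
    (hst2 : ∀ Q ∈ FQ D r, ∀ g : G15, ρ Q g = Q → ∃ i, est (hh Q) i = g)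
    (f : Fo → ℤ) (hf : ∀ Q ∈ FQ D r, ∀ Q', Eqv 15 Q Q' → f Q' = f Q)
    {q : Fo} (hq : Fq q)
    (hfin : ∀ Q ∈ R, (Function.support fun g : G15 => σ (ρ q g) - σ (ρ q (g * hh Q))).Finite) :
    ∑ Q ∈ R, f Q * ∑ᶠ g : G15, (σ (ρ q g) - σ (ρ q (g * hh Q))) =
      2 * ∑ᶠ Q : Fo, if Q ∈ FQ D r then f Q * sig D Q q else 0 := by
  obtain ⟨rep, k, hk, huniq⟩ := rep_exists hR
  have hA : ∀ Q ∈ FQ D r, Q.1 ≠ 0 := by
    rintro ⟨A, B, C⟩ hQ h0
    simp only at h0
    subst h0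
    have h1 := hQ.1
    simp only [dsc] at h1
    apply hD
    refine ⟨B.natAbs, ?_⟩
    have : (D : ℤ) = ((B.natAbs * B.natAbs : ℕ) : ℤ) := by
      rw [Nat.cast_mul, Int.natAbs_mul_self']; linarith
    exact_mod_cast this
  have hrepF : ∀ x : FQ D r, (rep x : Fo) ∈ FQ D r := fun x => hR.1 _ (rep x).2
  have hb := orbit_bij ρ (FQ D r) (R : Set Fo) rep k (fun Q i => est (hh Q) i) ρ_one ρ_mul
    hR.1 (fun x hx g => FQ_ag hx g.2) hk huniq (by
      intro Q
      have hQ := hR.1 _ Q.2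
      obtain ⟨h00, h01, h10, h11⟩ := hent Q hQ
      exact est_inj hQ.1 hD (hA _ hQ) ht hu htu h00 h01 h10 h11) (by
      intro Q g
      have hQ := hR.1 _ Q.2
      exact ⟨fun hg => hst2 Q hQ g hg, fun ⟨i, hi⟩ => by
        rw [← hi]; exact ρ_est (hst Q hQ) i⟩)
  -- finiteness
  have hfinX : Function.HasFiniteSupport fun x : ↥(R : Set Fo) × ↥G15 =>
      f x.1 * (σ (ρ q x.2) - σ (ρ q (x.2 * hh x.1))) := by
    have h1 : (⋃ Q : ↥(R : Set Fo), (fun g : G15 => ((Q, g) : ↥(R : Set Fo) × ↥G15)) ''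
        (Function.support fun g : G15 => σ (ρ q g) - σ (ρ q (g * hh Q)))).Finite :=
      Set.finite_iUnion fun Q => (hfin Q Q.2).image _
    apply h1.subset
    rintro ⟨Q, g⟩ hx
    rw [Set.mem_iUnion]
    refine ⟨Q, g, ?_, rfl⟩
    rw [Function.mem_support] at hx ⊢
    exact right_ne_zero_of_mul hx
  have e1 : ∑ Q ∈ R, f Q * ∑ᶠ g : G15, (σ (ρ q g) - σ (ρ q (g * hh Q))) =
      ∑ᶠ x : ↥(R : Set Fo) × ↥G15, f x.1 * (σ (ρ q x.2) - σ (ρ q (x.2 * hh x.1))) := by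
    rw [finsum_curry _ hfinX, finsum_set_coe_eq_finsum_mem (R : Set Fo)
      (f := fun Q : Fo => ∑ᶠ g : G15, f Q * (σ (ρ q g) - σ (ρ q (g * hh Q)))),
      finsum_mem_coe_finset]
    apply Finset.sum_congr rfl
    intro Q hQ
    rw [mul_finsum' _ _ (hfin Q hQ)]
  -- the sequences
  let a : ↥(FQ D r) → ℤ → ℤ := fun x n => σ (ρ q (k x * hh (rep x) ^ n))
  have hval : ∀ (x : FQ D r) (i : Bool × ℤ),
      σ (ρ q (k x * est (hh (rep x)) i)) - σ (ρ q (k x * est (hh (rep x)) i * hh (rep x))) =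
        a x i.2 - a x (i.2 + 1) := by
    intro x i
    have h1 : ρ q (k x * est (hh (rep x)) i) = ρ q (k x * hh (rep x) ^ i.2) := by
      unfold est
      rw [← mul_assoc, ρ_eps]
    have h2 : ρ q (k x * est (hh (rep x)) i * hh (rep x)) =
        ρ q (k x * hh (rep x) ^ (i.2 + 1)) := by
      unfold est
      rw [← mul_assoc, mul_assoc (k x * eps i.1), ρ_eps, zpow_add_one]
    rw [h1, h2]
  have e2 : ∑ᶠ y : ↥(FQ D r) × (Bool × ℤ), f y.1 * (a y.1 y.2.2 - a y.1 (y.2.2 + 1)) =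
      ∑ᶠ x : ↥(R : Set Fo) × ↥G15, f x.1 * (σ (ρ q x.2) - σ (ρ q (x.2 * hh x.1))) := by
    apply finsum_eq_of_bijective _ hb
    rintro ⟨x, i⟩
    simp only
    rw [hval]
    congr 1
    rw [← hk x]
    exact (hf x x.2 _ ((eqv_iff _ _).2 ⟨_, rfl⟩)).symm
  have hfinY : Function.HasFiniteSupport fun y : ↥(FQ D r) × (Bool × ℤ) =>
      f y.1 * (a y.1 y.2.2 - a y.1 (y.2.2 + 1)) := by
    apply Set.Finite.of_finite_image
      (f := fun y : ↥(FQ D r) × (Bool × ℤ) =>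
        ((rep y.1, k y.1 * est (hh (rep y.1)) y.2) : ↥(R : Set Fo) × ↥G15)) _ hb.1.injOn
    apply Set.Finite.subset hfinX
    rintro _ ⟨⟨x, i⟩, hx, rfl⟩
    rw [Function.mem_support] at hx ⊢
    simp only at hx ⊢
    rw [hval]
    have hfx : f (rep x) = f x := by
      rw [← hk x]
      exact hf x x.2 _ ((eqv_iff _ _).2 ⟨_, rfl⟩)
    rw [hfx]
    exact hx
  have htele : ∀ x : FQ D r, (Function.support fun n => a x n - a x (n + 1)).Finite ∧
      ∑ᶠ n, (a x n - a x (n + 1)) = sig D x q := by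
    intro x
    have hQ := hrepF x
    obtain ⟨h00, h01, h10, h11⟩ := hent _ hQ
    have hq' : Fq (ρ q (k x)) := Fq_ag hq (k x).2
    have h1 := seq_tele hQ.1 hD (hA _ hQ) ht hu htu h00 h01 h10 h11 hq' (a x) (by
      intro n
      change σ (ρ q (k x * hh (rep x) ^ n)) = _
      rw [← ρ_mul]
      rfl)
    refine ⟨h1.1, ?_⟩
    rw [h1.2]
    have h2 : ∀ ε : ℝ, ε ^ 2 = 1 → sg (ρ q (k x)) (rt ε D (rep x)) = sg q (rt ε D x) := by
      intro ε hε
      have hne : (ag (x : Fo) (k x)).1 ≠ 0 := by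
        have := hA _ hQ
        rw [← hk x] at this
        exact this
      have h3 := sg_equiv q x (k x) D x.2.1 hne (hA _ x.2) ε hε
      rw [← hk x]
      exact h3
    rw [h2 (-1) (by norm_num), h2 1 (by norm_num)]
    rfl
  rw [e1, ← e2, finsum_curry _ hfinY]
  have e3 : ∀ x : FQ D r, ∑ᶠ i : Bool × ℤ, f x * (a x i.2 - a x (i.2 + 1)) =
      2 * (f x * sig D x q) := by
    intro x
    obtain ⟨h1, h2⟩ := htele x
    have h3 : Function.HasFiniteSupport fun i : Bool × ℤ => f x * (a x i.2 - a x (i.2 + 1)) := by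
      apply Set.Finite.subset ((Set.finite_univ (α := Bool)).prod h1)
      intro i hi
      refine ⟨trivial, ?_⟩
      rw [Function.mem_support] at hi ⊢
      exact right_ne_zero_of_mul hi
    rw [finsum_curry _ h3, finsum_eq_sum_of_fintype]
    simp only [Fintype.sum_bool]
    rw [← mul_finsum' _ _ h1, h2]
    ring
  rw [finsum_congr e3]
  have hfinZ : Function.HasFiniteSupport fun x : ↥(FQ D r) => f x * sig D x q := by
    have h4 : (Prod.fst '' (Function.support fun y : ↥(FQ D r) × (Bool × ℤ) =>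
      f y.1 * (a y.1 y.2.2 - a y.1 (y.2.2 + 1)))).Finite := Set.Finite.image _ hfinY
    apply h4.subset
    intro x hx
    rw [Function.mem_support] at hx
    rw [← (htele x).2] at hx
    have h5 : ∃ n, a x n - a x (n + 1) ≠ 0 := by
      by_contra hcon
      push Not at hcon
      apply right_ne_zero_of_mul hx
      rw [finsum_congr hcon, finsum_zero]
    obtain ⟨n, hn⟩ := h5
    refine ⟨(x, (true, n)), ?_, rfl⟩
    rw [Function.mem_support]
    exact mul_ne_zero (left_ne_zero_of_mul hx) hn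
  rw [← mul_finsum' _ _ hfinZ]
  congr 1
  rw [finsum_set_coe_eq_finsum_mem (FQ D r) (f := fun Q : Fo => f Q * sig D Q q)]
  apply finsum_congr
  intro Q
  rw [finsum_eq_if]

end U12

open U12 in
/-- C7 (U12): the unfolding -/
theorem t_U12 : S_U12 := by
  intro hNC hNHOM hSTAB D hDsq hFm hD1 r hr t u hF R RF hR hRF f hf hfin
  have hnsq : ¬ IsSquare D := by
    rintro ⟨k, hk⟩
    have := hDsq k ⟨1, by rw [hk, mul_one]⟩
    rw [Nat.isUnit_iff] at this
    rw [this] at hk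
    exact hD1 hk
  have hD0 : D ≠ 0 := by rintro rfl; exact hnsq ⟨0, rfl⟩
  have hD4 : D % 4 = 1 := by rcases hFm with h | h <;> omega
  have hD1' : 1 < D := by omega
  have hst0 := hSTAB D hDsq hD4 hD1' t u hF
  choose! h0 hent0 hst0 hst1 using hst0
  obtain ⟨htp, hup, htu, -⟩ := hF
  have hpar : ∀ Q : Fo, dsc Q = D → (t - Q.2.1 * u) % 2 = 0 := by
    rintro ⟨A, B, C⟩ hQ
    simp only [dsc] at hQ
    simp only
    have hDo : (D : ℤ) % 2 = 1 := by omega
    have hB : B % 2 = 1 := by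
      rcases Int.emod_two_eq_zero_or_one B with h | h
      · exfalso
        obtain ⟨b, rfl⟩ := Int.dvd_of_emod_eq_zero h
        have : (D : ℤ) = 2 * (2 * b ^ 2 - 2 * (A * C)) := by linear_combination -hQ
        omega
      · exact h
    rcases Int.emod_two_eq_zero_or_one t with h1 | h1 <;>
      rcases Int.emod_two_eq_zero_or_one u with h2 | h2
    · have : (B * u) % 2 = 0 := by rw [Int.mul_emod, h2]; simp
      omega
    · exfalso
      have h3 : (D * u ^ 2 : ℤ) % 2 = 1 := by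
        rw [Int.mul_emod, pow_two, Int.mul_emod u u, h2, hDo]; rfl
      have h4 : (t ^ 2) % 2 = 0 := by rw [pow_two, Int.mul_emod, h1]; rfl
      omega
    · exfalso
      have h3 : (D * u ^ 2 : ℤ) % 2 = 0 := by
        rw [Int.mul_emod, pow_two, Int.mul_emod u u, h2, hDo]; rfl
      have h4 : (t ^ 2) % 2 = 1 := by rw [pow_two, Int.mul_emod, h1]; rfl
      omega
    · have : (B * u) % 2 = 1 := by rw [Int.mul_emod, h2, hB]; rfl
      omega
  have hmem : ∀ Q ∈ FQ D r, h0 Q ∈ G15 := by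
    intro Q hQ
    rw [mem_G15]
    have : (h0 Q) 1 0 = Q.1 * u := by
      have := congrFun (congrFun (hent0 Q hQ.1) 1) 0
      simpa using this
    rw [this]
    exact Dvd.dvd.mul_right hQ.2.1 _
  let hh : Fo → G15 := fun Q => if hQ : h0 Q ∈ G15 then ⟨h0 Q, hQ⟩ else 1
  have hhe : ∀ Q ∈ FQ D r, ((hh Q : G15) : SL) = h0 Q := by
    intro Q hQ
    have : hh Q = ⟨h0 Q, hmem Q hQ⟩ := dif_pos (hmem Q hQ)
    rw [this]
  have hE : ∀ Q ∈ FQ D r, (h0 Q) 0 0 = (t - Q.2.1 * u) / 2 ∧ (h0 Q) 0 1 = -(Q.2.2 * u) ∧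
      (h0 Q) 1 0 = Q.1 * u ∧ (h0 Q) 1 1 = (t + Q.2.1 * u) / 2 := by
    intro Q hQ
    have h1 := hent0 Q hQ.1
    refine ⟨?_, ?_, ?_, ?_⟩
    · have := congrFun (congrFun h1 0) 0
      simpa using this
    · have := congrFun (congrFun h1 0) 1
      simpa using this
    · have := congrFun (congrFun h1 1) 0
      simpa using this
    · have := congrFun (congrFun h1 1) 1
      simpa using this
  have hent : ∀ Q ∈ FQ D r, 2 * (hh Q : SL) 0 0 = t - Q.2.1 * u ∧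
      (hh Q : SL) 0 1 = -(Q.2.2 * u) ∧
      (hh Q : SL) 1 0 = Q.1 * u ∧ 2 * (hh Q : SL) 1 1 = t + Q.2.1 * u := by
    intro Q hQ
    obtain ⟨e1, e2, e3, e4⟩ := hE Q hQ
    have hp := hpar Q hQ.1
    rw [hhe Q hQ, e1, e2, e3, e4]
    refine ⟨by omega, rfl, rfl, by omega⟩
  have hst : ∀ Q ∈ FQ D r, ρ Q (hh Q) = Q := by
    intro Q hQ
    unfold ρ
    rw [hhe Q hQ]
    exact hst0 Q hQ.1
  have hst2 : ∀ Q ∈ FQ D r, ∀ g : G15, ρ Q g = Q → ∃ i, est (hh Q) i = g := by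
    intro Q hQ g hg
    obtain ⟨n, hn | hn⟩ := hst1 Q hQ.1 g hg
    · refine ⟨(true, n), Subtype.ext ?_⟩
      simp only [est, eps, if_true, one_mul]
      rw [SubgroupClass.coe_zpow, hhe Q hQ, hn]
    · refine ⟨(false, n), Subtype.ext ?_⟩
      simp only [est, eps, mone, Bool.false_eq_true, if_false]
      rw [Subgroup.coe_mul, SubgroupClass.coe_zpow, hhe Q hQ, hn]
      simp
  have hNG : ∀ Q ∈ FQ D r, 4 * NG t u Q = NC 1 0 ((hh Q : SL) 0 0) ((hh Q : SL) 1 0) := by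
    intro Q hQ
    obtain ⟨e1, e2, e3, e4⟩ := hE Q hQ
    obtain ⟨c, hc⟩ := hmem Q hQ
    have hdet := det_eq (h0 Q)
    rw [hhe Q hQ]
    have h1 := (hNHOM ((h0 Q) 0 0) ((h0 Q) 0 1) c ((h0 Q) 1 1) (by rw [← hc]; linarith)).2
    rw [← hc] at h1
    rw [← h1]
    unfold NG dQ
    rw [e2, e4]
  have key : 2 * (4 * ∑ Q ∈ R, f Q * NG t u Q) =
      2 * ∑ q ∈ RF, cQ q * ∑ᶠ Q : Fo, if Q ∈ FQ D r then f Q * sig D Q q else 0 := by
    calc 2 * (4 * ∑ Q ∈ R, f Q * NG t u Q)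
        = ∑ Q ∈ R, f Q * (2 * NC 1 0 ((hh Q : SL) 0 0) ((hh Q : SL) 1 0)) := by
          rw [Finset.mul_sum, Finset.mul_sum]
          apply Finset.sum_congr rfl
          intro Q hQ
          rw [← hNG Q (hR.1 Q hQ)]
          ring
      _ = ∑ Q ∈ R, f Q * ∑ q ∈ RF, cQ q * ∑ᶠ g : G15, (σ (ρ q g) - σ (ρ q (g * hh Q))) := by
          apply Finset.sum_congr rfl
          intro Q hQ
          rw [(step1 hNC hRF (hh Q)).2]
      _ = ∑ q ∈ RF, cQ q * ∑ Q ∈ R, f Q * ∑ᶠ g : G15, (σ (ρ q g) - σ (ρ q (g * hh Q))) := by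
          simp_rw [Finset.mul_sum]
          rw [Finset.sum_comm]
          apply Finset.sum_congr rfl
          intro q hq
          apply Finset.sum_congr rfl
          intro Q hQ
          ring
      _ = ∑ q ∈ RF, cQ q * (2 * ∑ᶠ Q : Fo, if Q ∈ FQ D r then f Q * sig D Q q else 0) := by
          apply Finset.sum_congr rfl
          intro q hq
          rw [step2 hR hnsq htp hup htu hh hent hst hst2 f hf (hRF.1 q hq)
            (fun Q hQ => (step1 hNC hRF (hh Q)).1 q hq)]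
      _ = 2 * ∑ q ∈ RF, cQ q * ∑ᶠ Q : Fo, if Q ∈ FQ D r then f Q * sig D Q q else 0 := by
          rw [Finset.mul_sum]
          apply Finset.sum_congr rfl
          intro q hq
          ring
  linarith

end Pool.Agent.H757_X15.CC
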